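import Pool.Agent.Helper25.GA.Rank
import Pool.Agent.Helper22.Pin.QB

/-!
# GA-6: coloops, core, blocks
-/

set_option autoImplicit false

namespace Pool.Agent.Helper36.Alg

open Finset Pool.Agent.Helper36.PT
open Pool.Agent.Helper36.Pin (Sparse rk edges nbr ThreeConn RedRigid GR completeOn Pins pin IsEnd
  Forced Complete coloops core blocks fill Gen0 Gen Coord Line Blk At0 At lines)

namespace GA6

theorem val_inj {n : ℕ} {x u : Fin n} : (x : ℕ) = (u : ℕ) ↔ x = u := Fin.ext_iff.symm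

theorem pairs_erase {n : ℕ} (R : ℕ → ℕ → Prop) {u v : Fin n} (h : u < v) :
    pairs n (fun x y => R x y ∧ ¬ (x = u ∧ y = v)) = (pairs n R).erase s(u, v) := by
  ext e
  induction e using Sym2.ind with
  | _ x y =>
    have h' : (u : ℕ) < v := h
    rw [mem_pairs, Finset.mem_erase, mem_pairs, Ne, Sym2.eq_iff]
    simp only [up, val_inj]
    constructor
    · rintro (⟨h1, h2, h3⟩ | ⟨h1, h2, h3⟩)
      · refine ⟨?_, Or.inl ⟨h1, h2⟩⟩
        rintro (h4 | ⟨h4, h5⟩)
        · exact h3 h4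
        · subst h4; subst h5; omega
      · refine ⟨?_, Or.inr ⟨h1, h2⟩⟩
        rintro (⟨h4, h5⟩ | ⟨h4, h5⟩)
        · subst h4; subst h5; omega
        · exact h3 ⟨h5, h4⟩
    · rintro ⟨h3, ⟨h1, h2⟩ | ⟨h1, h2⟩⟩
      · exact Or.inl ⟨h1, h2, fun h4 => h3 (Or.inl h4)⟩
      · exact Or.inr ⟨h1, h2, fun h4 => h3 (Or.inr ⟨h4.2, h4.1⟩)⟩

theorem pairs_insert {n : ℕ} (R : ℕ → ℕ → Prop) {u v : Fin n} (h : u ≠ v) :
    pairs n (fun x y => R x y ∨ (x = min (u : ℕ) v ∧ y = max (u : ℕ) v)) =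
      insert s(u, v) (pairs n R) := by
  ext e
  induction e using Sym2.ind with
  | _ x y =>
    have h' : (u : ℕ) ≠ v := fun h1 => h (Fin.ext h1)
    rw [mem_pairs, Finset.mem_insert, mem_pairs, Sym2.eq_iff, ← val_inj (x := x) (u := u),
      ← val_inj (x := y) (u := v), ← val_inj (x := x) (u := v), ← val_inj (x := y) (u := u)]
    simp only [up]
    constructor
    · rintro (⟨h1, h2 | ⟨h2, h3⟩⟩ | ⟨h1, h2 | ⟨h2, h3⟩⟩)
      · exact Or.inr (Or.inl ⟨h1, h2⟩)
      · left; omega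
      · exact Or.inr (Or.inr ⟨h1, h2⟩)
      · left; omega
    · rintro ((⟨h1, h2⟩ | ⟨h1, h2⟩) | ⟨h1, h2⟩ | ⟨h1, h2⟩)
      · rcases lt_or_gt_of_ne h' with h3 | h3
        · left; exact ⟨by omega, Or.inr (by omega)⟩
        · right; exact ⟨by omega, Or.inr (by omega)⟩
      · rcases lt_or_gt_of_ne h' with h3 | h3
        · right; exact ⟨by omega, Or.inr (by omega)⟩
        · left; exact ⟨by omega, Or.inr (by omega)⟩
      · exact Or.inl ⟨h1, Or.inl h2⟩
      · exact Or.inr ⟨h1, Or.inl h2⟩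

theorem rk_biUnion_le {V ι : Type} [Fintype V] [DecidableEq V] [DecidableEq ι] (s : Finset ι)
    (f : ι → Finset (Sym2 V)) : rk (s.biUnion f) ≤ ∑ i ∈ s, rk (f i) := by
  induction s using Finset.induction_on with
  | empty => simp [Pool.Agent.Helper36.Pin.rk_empty]
  | insert a s ha ih =>
    rw [Finset.biUnion_insert, Finset.sum_insert ha]
    exact (Pool.Agent.Helper36.Pin.rk_union_le _ _).trans (Nat.add_le_add_left ih _)

theorem blk_pair {V : Type} [Fintype V] [DecidableEq V] {G : SimpleGraph V} {X Y : Finset V}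
    (hX : X ∈ blocks G) (hY : Y ∈ blocks G) {u v : V} (huv : u ≠ v) (h1 : u ∈ X) (h2 : v ∈ X)
    (h3 : u ∈ Y) (h4 : v ∈ Y) : X = Y := by
  by_contra hne
  have h := (Pool.Agent.Helper36.Pin.comps_blocks G).inter X hX Y hY hne
  have h5 : ({u, v} : Finset V) ⊆ X ∩ Y := by
    intro x hx
    rw [Finset.mem_insert, Finset.mem_singleton] at hx
    rcases hx with rfl | rfl
    · exact Finset.mem_inter.2 ⟨h1, h3⟩
    · exact Finset.mem_inter.2 ⟨h2, h4⟩
  have h6 := Finset.card_le_card h5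
  rw [Finset.card_pair huv] at h6
  omega

/-- three blocks do not form a triangle -/
theorem no_triangle {V : Type} [Fintype V] [DecidableEq V] {G : SimpleGraph V}
    {X X1 X2 : Finset V} (hX : X ∈ blocks G) (hX1 : X1 ∈ blocks G) (hX2 : X2 ∈ blocks G)
    {u v w : V} (hu : u ∈ X) (hv : v ∈ X) (huv : u ≠ v) (hu1 : u ∈ X1) (hw1 : w ∈ X1)
    (hv2 : v ∈ X2) (hw2 : w ∈ X2) (huw : u ≠ w) (hvw : v ≠ w) (hw : w ∉ X) : False := by
  classical
  have hC := Pool.Agent.Helper36.Pin.comps_blocks G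
  have n1 : X ≠ X1 := fun h => hw (h ▸ hw1)
  have n2 : X ≠ X2 := fun h => hw (h ▸ hw2)
  have n3 : X1 ≠ X2 := fun h => n1 (blk_pair hX hX1 huv hu hv hu1 (h ▸ hv2))
  have c1 := hC.inter X hX X1 hX1 n1
  have c2 := hC.inter X hX X2 hX2 n2
  have c3 := hC.inter X1 hX1 X2 hX2 n3
  -- the union
  set Y : Finset V := X ∪ X1 ∪ X2 with hY
  have i1 : X ∩ X1 = {u} := by
    rw [Finset.card_le_one] at c1
    ext z
    rw [Finset.mem_singleton]
    constructor
    · intro hz; exact c1 z hz u (Finset.mem_inter.2 ⟨hu, hu1⟩)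
    · rintro rfl; exact Finset.mem_inter.2 ⟨hu, hu1⟩
  have i2 : (X ∪ X1) ∩ X2 = {v, w} := by
    rw [Finset.card_le_one] at c2 c3
    ext z
    rw [Finset.mem_insert, Finset.mem_singleton, Finset.mem_inter, Finset.mem_union]
    constructor
    · rintro ⟨hz | hz, hz2⟩
      · left; exact c2 z (Finset.mem_inter.2 ⟨hz, hz2⟩) v (Finset.mem_inter.2 ⟨hv, hv2⟩)
      · right; exact c3 z (Finset.mem_inter.2 ⟨hz, hz2⟩) w (Finset.mem_inter.2 ⟨hw1, hw2⟩)
    · rintro (rfl | rfl)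
      · exact ⟨Or.inl hv, hv2⟩
      · exact ⟨Or.inr hw1, hw2⟩
  have hcard : Y.card + 3 = X.card + X1.card + X2.card := by
    have h1 := Finset.card_union_add_card_inter X X1
    have h2 := Finset.card_union_add_card_inter (X ∪ X1) X2
    rw [i1, Finset.card_singleton] at h1
    rw [i2, Finset.card_pair hvw] at h2
    rw [← hY] at h2
    omega
  -- the other blocks
  set O : Finset (Finset V) := ((blocks G).erase X).erase X1 |>.erase X2 with hO
  have hsum : ∑ Z ∈ blocks G, (2 * Z.card - 3) = (2 * X.card - 3) + ((2 * X1.card - 3) +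
      ((2 * X2.card - 3) + ∑ Z ∈ O, (2 * Z.card - 3))) := by
    have e1 := Finset.add_sum_erase (blocks G) (fun Z => 2 * Z.card - 3) hX
    have e2 := Finset.add_sum_erase ((blocks G).erase X) (fun Z => 2 * Z.card - 3)
      (Finset.mem_erase.2 ⟨n1.symm, hX1⟩)
    have e3 := Finset.add_sum_erase (((blocks G).erase X).erase X1) (fun Z => 2 * Z.card - 3)
      (Finset.mem_erase.2 ⟨n3.symm, Finset.mem_erase.2 ⟨n2.symm, hX2⟩⟩)
    rw [hO]
    omega
  have hcov : core G ⊆ (core G ∩ Y.sym2) ∪ O.biUnion (fun Z => core G ∩ Z.sym2) := by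
    intro e he
    obtain ⟨Z, hZ, heZ⟩ := hC.cover e he (Pool.Agent.Helper36.Pin.core_not_diag G e he)
    rw [Finset.mem_union, Finset.mem_inter, Finset.mem_biUnion]
    by_cases h1 : Z = X
    · left; subst h1
      exact ⟨he, Finset.sym2_mono (by rw [hY]; intro z hz; simp [hz]) heZ⟩
    by_cases h2 : Z = X1
    · left; subst h2
      exact ⟨he, Finset.sym2_mono (by rw [hY]; intro z hz; simp [hz]) heZ⟩
    by_cases h3 : Z = X2
    · left; subst h3
      exact ⟨he, Finset.sym2_mono (by rw [hY]; intro z hz; simp [hz]) heZ⟩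
    right
    refine ⟨Z, ?_, Finset.mem_inter.2 ⟨he, heZ⟩⟩
    rw [hO]
    exact Finset.mem_erase.2 ⟨h3, Finset.mem_erase.2 ⟨h2, Finset.mem_erase.2 ⟨h1, hZ⟩⟩⟩
  have hOsub : ∀ Z ∈ O, Z ∈ blocks G := fun Z hZ => by
    rw [hO] at hZ
    exact Finset.mem_of_mem_erase (Finset.mem_of_mem_erase (Finset.mem_of_mem_erase hZ))
  have hrk : rk (core G) ≤ rk (core G ∩ Y.sym2) + ∑ Z ∈ O, (2 * Z.card - 3) := by
    refine (Pool.Agent.Helper36.Pin.rk_mono hcov).trans
      ((Pool.Agent.Helper36.Pin.rk_union_le _ _).trans (Nat.add_le_add_left ?_ _))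
    refine (rk_biUnion_le _ _).trans (Finset.sum_le_sum fun Z hZ => ?_)
    have := hC.rigid Z (hOsub Z hZ)
    omega
  have h0 := hC.sum
  have t0 := hC.two_le X hX
  have t1 := hC.two_le X1 hX1
  have t2 := hC.two_le X2 hX2
  obtain ⟨W, hW, hYW⟩ := hC.maximal Y (by omega) (by omega)
  have hXW : X ⊆ W := fun z hz => hYW (by rw [hY]; simp [hz])
  have hX1W : X1 ⊆ W := fun z hz => hYW (by rw [hY]; simp [hz])
  have e1 : X = W := blk_pair hX hW huv hu hv (hXW hu) (hXW hv)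
  have e2 : X1 = W := blk_pair hX1 hW huw hu1 hw1 (hX1W hu1) (hX1W hw1)
  exact n1 (e1.trans e2.symm)

end GA6

theorem coloopN_iff {n : ℕ} {R : ℕ → ℕ → Prop} {u v : Fin n} (h : u < v) :
    coloopN n R u v ↔ s(u, v) ∈ coloops (gr n R) := by
  classical
  have h' : (u : ℕ) < v := h
  unfold coloopN coloops
  rw [Finset.mem_filter, rkN_eq, rkN_eq, GA6.pairs_erase R h, edges_gr, mem_pairs]
  constructor
  · rintro ⟨_, h2, h3⟩
    exact ⟨Or.inl ⟨h', h2⟩, h3⟩
  · rintro ⟨h1 | h1, h3⟩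
    · exact ⟨h', h1.2, h3⟩
    · omega

theorem pairs_coreN (n : ℕ) (R : ℕ → ℕ → Prop) : pairs n (coreN n R) = core (gr n R) := by
  classical
  ext e
  induction e using Sym2.ind with
  | _ x y =>
    unfold core
    rw [Finset.mem_sdiff, mem_pairs, edges_gr, mem_pairs]
    simp only [up, coreN]
    rcases lt_trichotomy x y with h | h | h
    · have h' : (x : ℕ) < y := h
      rw [← coloopN_iff h]
      constructor
      · rintro (⟨h1, h2, h3⟩ | ⟨h1, h2, h3⟩)
        · exact ⟨Or.inl ⟨h1, h2⟩, h3⟩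
        · omega
      · rintro ⟨⟨h1, h2⟩ | ⟨h1, h2⟩, h3⟩
        · exact Or.inl ⟨h1, h2, h3⟩
        · omega
    · subst h
      simp
    · have h' : (y : ℕ) < x := h
      rw [Sym2.eq_swap, ← coloopN_iff h]
      constructor
      · rintro (⟨h1, h2, h3⟩ | ⟨h1, h2, h3⟩)
        · omega
        · exact ⟨Or.inr ⟨h1, h2⟩, h3⟩
      · rintro ⟨⟨h1, h2⟩ | ⟨h1, h2⟩, h3⟩
        · omega
        · exact Or.inr ⟨h1, h2, h3⟩

theorem sameN_iff {n : ℕ} {R : ℕ → ℕ → Prop} {u v : Fin n} :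
    sameN n R u v ↔ u ≠ v ∧ ∃ X ∈ blocks (gr n R), u ∈ X ∧ v ∈ X := by
  classical
  unfold sameN
  rw [Ne, GA6.val_inj]
  constructor
  · rintro ⟨h1, h2⟩
    rw [rkN_eq, rkN_eq, GA6.pairs_insert (coreN n R) h1, pairs_coreN] at h2
    exact ⟨h1, (Pool.Agent.Helper36.Pin.comps_blocks (gr n R)).closure u v h1 h2⟩
  · rintro ⟨h1, X, hX, hu, hv⟩
    refine ⟨h1, ?_⟩
    rw [rkN_eq, rkN_eq, GA6.pairs_insert (coreN n R) h1, pairs_coreN]
    have hC := Pool.Agent.Helper36.Pin.comps_blocks (gr n R)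
    have hrig := hC.rigid X hX
    have h2 := hC.two_le X hX
    refine le_antisymm ?_ (Pool.Agent.Helper36.Pin.rk_mono (Finset.subset_insert _ _))
    set B : Finset (Sym2 (Fin n)) := insert s(u, v) (core (gr n R) ∩ X.sym2) with hB
    have hBX : B ⊆ X.sym2 := by
      intro e he
      rw [hB, Finset.mem_insert] at he
      rcases he with rfl | he
      · exact Finset.mk_mem_sym2_iff.2 ⟨hu, hv⟩
      · exact (Finset.mem_inter.1 he).2
    have hin := Pool.Agent.Helper36.Pin.rk_inside_le B X h2 hBX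
    have hsub := Pool.Agent.Helper36.Pin.rk_submod (core (gr n R)) B
    have hun : core (gr n R) ∪ B = insert s(u, v) (core (gr n R)) := by
      ext e
      rw [hB]
      simp only [Finset.mem_union, Finset.mem_insert, Finset.mem_inter]
      tauto
    have hle : rk (core (gr n R) ∩ X.sym2) ≤ rk (core (gr n R) ∩ B) := by
      apply Pool.Agent.Helper36.Pin.rk_mono
      intro e he
      exact Finset.mem_inter.2 ⟨(Finset.mem_inter.1 he).1, by
        rw [hB]; exact Finset.mem_insert_of_mem he⟩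
    rw [hun] at hsub
    omega

theorem blkN_iff {n : ℕ} {R : ℕ → ℕ → Prop} {u v w : Fin n} {X : Finset (Fin n)}
    (hX : X ∈ blocks (gr n R)) (hu : u ∈ X) (hv : v ∈ X) (huv : u ≠ v) :
    blkN n R u v w ↔ w ∈ X := by
  unfold blkN
  rw [GA6.val_inj, GA6.val_inj, sameN_iff, sameN_iff]
  constructor
  · rintro (h | h | ⟨⟨h1, X1, hX1, hu1, hw1⟩, h2, X2, hX2, hv2, hw2⟩)
    · rw [h]; exact hu
    · rw [h]; exact hv
    · by_contra hw
      exact GA6.no_triangle hX hX1 hX2 hu hv huv hu1 hw1 hv2 hw2 h1 h2 hw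
  · intro hw
    by_cases h1 : w = u
    · exact Or.inl h1
    by_cases h2 : w = v
    · exact Or.inr (Or.inl h2)
    exact Or.inr (Or.inr ⟨⟨fun h => h1 h.symm, X, hX, hu, hw⟩, fun h => h2 h.symm, X, hX, hv, hw⟩)

end Pool.Agent.Helper36.Alg
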