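import Mathlib

/-!
# GA-37: counting ideals

For a finite set `Q` of nonzero prime ideals of the ring of integers: `∑_{P ∈ Q} log N(P) · #{J ≠ 0 : N(J) ≤ x/N(P)} ≤ #{I ≠ 0 : N(I) ≤ x} · log x`.
Both sides bound `∑_{N(I) ≤ x} log N(I)`: from above, each term is at most `log x`; from below, for each `I` the product of the different `P ∈ Q` with `P ∣ I` divides `I`
(`Finset.prod_dvd_of_coprime`, different maximal ideals are coprime; or `Finset.prod_primes_dvd`), so `∑_{P ∈ Q, P ∣ I} log N(P) ≤ log N(I)` (`Ideal.absNorm` is multiplicative, `Ideal.absNorm_dvd_absNorm_of_le`, `N(I) > 0` for `I ≠ 0`); exchange the sums: `#{I : P ∣ I, I ≠ 0, N(I) ≤ x} = #{J ≠ 0 : N(J) ≤ x/N(P)}` (`I = P J`).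
The sets are finite (`Ideal.finite_setOfPred_absNorm_le₀` or similar, see `Mathlib/NumberTheory/NumberField/Ideal/Asymptotics.lean`).
-/

namespace Pool.Agent.Helper79.GA

open NumberField nonZeroDivisors

/-- The number of nonzero ideals of norm at most `x`. -/
noncomputable def idc (F : Type) [Field F] [NumberField F] (x : ℝ) : ℕ :=
  Nat.card {I : (Ideal (𝓞 F))⁰ // (Ideal.absNorm (I : Ideal (𝓞 F)) : ℝ) ≤ x}

theorem idC_fin (F : Type) [Field F] [NumberField F] (x : ℝ) :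
    {I : Ideal (𝓞 F) | I ≠ 0 ∧ (Ideal.absNorm I : ℝ) ≤ x}.Finite := by
  refine (Ideal.finite_setOfPred_absNorm_le (S := 𝓞 F) ⌊x⌋₊).subset ?_
  rintro I ⟨-, h⟩
  exact Nat.le_floor h

theorem idC_card (F : Type) [Field F] [NumberField F] (x : ℝ) :
    idc F x = (idC_fin F x).toFinset.card := by
  rw [← Set.ncard_eq_toFinset_card _ (idC_fin F x), idc, ← Nat.card_coe_set_eq]
  refine Nat.card_congr ⟨fun I => ⟨I.1.1, nonZeroDivisors.coe_ne_zero I.1, I.2⟩,
    fun I => ⟨⟨I.1, mem_nonZeroDivisors_of_ne_zero I.2.1⟩, I.2.2⟩, fun I => rfl, fun I => rfl⟩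

theorem ideal_count {F : Type} [Field F] [NumberField F] (Q : Finset (Ideal (𝓞 F)))
    (hQ : ∀ P ∈ Q, P.IsPrime ∧ P ≠ ⊥) {x : ℝ} (hx : 1 ≤ x) :
    ∑ P ∈ Q, Real.log (Ideal.absNorm P) * idc F (x / Ideal.absNorm P) ≤
      idc F x * Real.log x := by
  classical
  have hpos : ∀ I : Ideal (𝓞 F), I ≠ 0 → 1 ≤ Ideal.absNorm I := fun I hI =>
    Nat.one_le_iff_ne_zero.2 fun h => hI (Ideal.absNorm_eq_zero_iff.1 h)
  have h1 : ∀ P ∈ Q, Real.log (Ideal.absNorm P) * idc F (x / Ideal.absNorm P) ≤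
      ∑ I ∈ (idC_fin F x).toFinset, if P ∣ I then Real.log (Ideal.absNorm P) else 0 := by
    intro P hP
    have hP0 : P ≠ 0 := (hQ P hP).2
    rw [← Finset.sum_filter, Finset.sum_const, nsmul_eq_mul, mul_comm]
    refine mul_le_mul_of_nonneg_right ?_ (Real.log_natCast_nonneg _)
    rw [idC_card, Nat.cast_le]
    refine Finset.card_le_card_of_injOn (fun J => P * J) ?_ ?_
    · intro J hJ
      rw [Finset.mem_coe, Set.Finite.mem_toFinset] at hJ
      obtain ⟨hJ0, hJ1⟩ := hJ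
      rw [Finset.mem_coe, Finset.mem_filter, Set.Finite.mem_toFinset]
      refine ⟨⟨mul_ne_zero hP0 hJ0, ?_⟩, dvd_mul_right _ _⟩
      rw [map_mul, Nat.cast_mul]
      have hP1 : (0 : ℝ) < Ideal.absNorm P := by exact_mod_cast hpos P hP0
      rw [le_div_iff₀ hP1] at hJ1
      linarith
    · intro J _ J' _ h
      exact mul_left_cancel₀ hP0 h
  refine (Finset.sum_le_sum h1).trans ?_
  rw [Finset.sum_comm]
  rw [idC_card, ← nsmul_eq_mul]
  refine Finset.sum_le_card_nsmul _ _ _ fun I hI => ?_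
  rw [Set.Finite.mem_toFinset] at hI
  obtain ⟨hI0, hI1⟩ := hI
  rw [← Finset.sum_filter]
  have h2 : ∏ P ∈ Q.filter (fun P => P ∣ I), P ∣ I := by
    refine Finset.prod_dvd_of_coprime (s := fun P : Ideal (𝓞 F) => P) ?_ ?_
    · intro P hP P' hP' hne
      rw [Finset.mem_coe, Finset.mem_filter] at hP hP'
      have hm : P.IsMaximal := (hQ P hP.1).1.isMaximal (hQ P hP.1).2
      have hm' : P'.IsMaximal := (hQ P' hP'.1).1.isMaximal (hQ P' hP'.1).2
      exact Ideal.isCoprime_iff_sup_eq.2 (Ideal.IsMaximal.coprime_of_ne hm hm' hne)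
    · intro P hP
      exact (Finset.mem_filter.1 hP).2
  have h3 : ∏ P ∈ Q.filter (fun P => P ∣ I), Ideal.absNorm P ≤ Ideal.absNorm I := by
    rw [← map_prod]
    exact Nat.le_of_dvd (hpos I hI0) (map_dvd Ideal.absNorm h2)
  have h4 : ∑ P ∈ Q.filter (fun P => P ∣ I), Real.log (Ideal.absNorm P) ≤
      Real.log (Ideal.absNorm I) := by
    rw [← Real.log_prod]
    · refine Real.log_le_log ?_ (by exact_mod_cast h3)
      refine Finset.prod_pos fun P hP => ?_
      exact_mod_cast hpos P (hQ P (Finset.mem_filter.1 hP).1).2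
    · intro P hP h
      have := hpos P (hQ P (Finset.mem_filter.1 hP).1).2
      have h5 : Ideal.absNorm P = 0 := by exact_mod_cast h
      omega
  refine h4.trans (Real.log_le_log ?_ hI1)
  exact_mod_cast hpos I hI0

end Pool.Agent.Helper79.GA
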