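import Pool.Agent.Helper79.GA.Calc

/-!
# GA-33: direct sums, sub-connections

* `tame_block`: `iter D (blockDiagonal' a) m = blockDiagonal' (fun b => iter D (a b) m)` (induction; `Matrix.blockDiagonal'_apply`, `Matrix.blockDiagonal'_apply_eq`, `Matrix.blockDiagonal'_apply_ne`). A common `T` (union), `c`, `H` (products, sums) for the blocks, entries outside `0`.
* `tame_sub`: let `m_p = M p ·` (row vectors). `∇ m_p = ∑_q b_pq m_q` for `∇ = nab D a`, so `(m!)⁻¹ ∇^m(m_p) = ∑_q (iter D b m)_pq m_q` (induction on `m`), and by `M ρ = 1`: `(iter D b m)_pq = ∑_j ((m!)⁻¹ (∇^m m_p)_j) ρ_jq`. By `leib_iter` (`Calc.lean`)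
  `(m!)⁻¹ (∇^m m_p)_j = ∑_{i, p₁+p₂=m} (D^p₁ M_pi/p₁!) (iter D a p₂)_ij`, and `D^p M_pi/p!` is the coefficient of index `p` of `tL D (M p i)`: geometric with `q = 1` by `hst` (definition of `PG`, `LG`; `tL_coeff`). A convolution `∑_{p₁+p₂=m} f p₁ g p₂` of geometric families is geometric
  (same proof as `GmS.mul`; state it as a lemma `GmS.conv`).
-/

open Polynomial

namespace Pool.Agent.Helper79.GA

open Pool.Agent.Helper79.CU Pool.Agent.Helper79.SE

theorem GmS.conv {F S : Type} [Field F] {f g : ℕ → S → F} (hf : GmS f) (hg : GmS g) :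
    GmS fun m s => ∑ p ∈ Finset.HasAntidiagonal.antidiagonal m, f p.1 s * g p.2 s := by
  obtain ⟨T, c, H, hT, h⟩ := hf
  obtain ⟨T', c', H', hT', h'⟩ := hg
  refine ⟨T ∪ T', c + c', H * H', hT.union hT', fun N => ?_⟩
  obtain ⟨q, q0, q1, q2⟩ := h N
  obtain ⟨q', q0', q1', q2'⟩ := h' N
  refine ⟨q * q', Nat.mul_pos q0 q0', ?_, fun m hm s => ?_⟩
  · rw [mul_pow]
    exact Nat.mul_le_mul q1 q1'
  · rw [Finset.mul_sum]
    refine AddSubgroup.sum_mem _ fun p hp => ?_
    have hp' := Finset.HasAntidiagonal.mem_antidiagonal.1 hp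
    have e : ((q * q' : ℕ) : F) * (f p.1 s * g p.2 s) =
        ((q : F) * f p.1 s) * ((q' : F) * g p.2 s) := by
      push_cast
      ring
    rw [e]
    have := (G (T ∪ T')).mul (G_mono Set.subset_union_left le_rfl (q2 p.1 (by omega) s))
      (G_mono Set.subset_union_right le_rfl (q2' p.2 (by omega) s))
    rwa [← add_mul] at this

private theorem TOp_iter_succ {K ι : Type} [Field K] [CharZero K] [Fintype ι] [DecidableEq ι]
    (D : Derivation ℚ K K) (A : Matrix ι ι K) (m : ℕ) :
    iter D A (m + 1) = (((m + 1 : ℕ) : K)⁻¹) • ((iter D A m).map D + iter D A m * A) := by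
  ext i j
  simp only [iter, Matrix.of_apply, Matrix.smul_apply, Matrix.add_apply, Matrix.map_apply,
    Matrix.mul_apply, smul_eq_mul]

private theorem TOp_iter_block {K β : Type} [Field K] [CharZero K] [Fintype β] [DecidableEq β]
    (D : Derivation ℚ K K) {ι : β → Type} [∀ b, Fintype (ι b)] [∀ b, DecidableEq (ι b)]
    (a : ∀ b, Matrix (ι b) (ι b) K) (m : ℕ) :
    iter D (Matrix.blockDiagonal' a) m = Matrix.blockDiagonal' fun b => iter D (a b) m := by
  induction m with
  | zero =>
    exact (Matrix.blockDiagonal'_one (m' := ι) (α := K)).symm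
  | succ m ih =>
    rw [TOp_iter_succ, ih, Matrix.blockDiagonal'_map _ _ (map_zero D),
      ← Matrix.blockDiagonal'_mul, ← Matrix.blockDiagonal'_add, ← Matrix.blockDiagonal'_smul]
    congr 1

theorem tame_block {K β : Type} [Field K] [CharZero K] [Fintype β] [DecidableEq β]
    {D : Derivation ℚ K K} {ι : β → Type} [∀ b, Fintype (ι b)] [∀ b, DecidableEq (ι b)]
    {a : ∀ b, Matrix (ι b) (ι b) K} (h : ∀ b, TameM D (a b)) :
    TameM D (Matrix.blockDiagonal' a) := by
  unfold TameM
  refine GmS.family fun p => ?_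
  obtain ⟨⟨b, i⟩, ⟨b', j⟩⟩ := p
  simp only [TOp_iter_block]
  by_cases hb : b = b'
  · subst hb
    have h1 : GmS fun (m : ℕ) (_ : Unit) => iter D (a b) m i j :=
      GmS.comp (h b) fun _ : Unit => (i, j)
    have h2 : (fun (m : ℕ) (_ : Unit) =>
        Matrix.blockDiagonal' (fun b => iter D (a b) m) ⟨b, i⟩ ⟨b, j⟩) =
        fun (m : ℕ) (_ : Unit) => iter D (a b) m i j := by
      funext m _
      exact Matrix.blockDiagonal'_apply_eq _ _ _ _
    rw [h2]
    exact h1
  · have h2 : (fun (m : ℕ) (_ : Unit) =>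
        Matrix.blockDiagonal' (fun b => iter D (a b) m) ⟨b, i⟩ ⟨b', j⟩) =
        fun (m : ℕ) (_ : Unit) => (0 : K) := by
      funext m _
      exact Matrix.blockDiagonal'_apply_ne _ _ _ hb
    rw [h2]
    exact GmS.zero

private theorem TOp_taylor {K : Type} [Field K] [CharZero K] {D : Derivation ℚ K K} {f : K}
    (hf : PG (tL D f)) : GmS fun (m : ℕ) (_ : Unit) => ((m.factorial : K)⁻¹) * D^[m] f := by
  obtain ⟨T, E, s, hT, h⟩ := hf
  refine ⟨T, E * (1 + 2 * s), 1, hT, fun N => ⟨1, one_pos, by rw [one_pow], fun m hm _ => ?_⟩⟩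
  have h1 := (h (m : ℤ)).2
  rw [tL_coeff] at h1
  rw [Nat.cast_one, one_mul]
  refine (G T).mono ?_ h1
  rw [Int.toNat_le]
  push_cast
  have h2 : (m : ℤ) ≤ N := by exact_mod_cast hm
  have hE : (0 : ℤ) ≤ E := Int.natCast_nonneg E
  have hs : (0 : ℤ) ≤ s := Int.natCast_nonneg s
  have hN : (0 : ℤ) ≤ N := Int.natCast_nonneg N
  have h3 : (m : ℤ) + 2 * (s : ℤ) ≤ (1 + 2 * (s : ℤ)) * (N + 1) := by
    nlinarith [mul_nonneg hs hN]
  calc (E : ℤ) * ((m : ℤ) + 2 * (s : ℤ)) ≤ E * ((1 + 2 * (s : ℤ)) * (N + 1)) :=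
        mul_le_mul_of_nonneg_left h3 hE
    _ = E * (1 + 2 * (s : ℤ)) * (N + 1) := by ring

private theorem TOp_sub_iter {K ι β : Type} [Field K] [CharZero K] [Fintype ι] [DecidableEq ι]
    [Fintype β] [DecidableEq β] {D : Derivation ℚ K K} {a : Matrix ι ι K}
    {M : Matrix β ι K} {b : Matrix β β K}
    (hM : ∀ p i, D (M p i) + (M * a) p i = (b * M) p i) (m : ℕ) (p : β) (i : ι) :
    (nab D a)^[m] (M p) i = (m.factorial : K) * ∑ q, iter D b m p q * M q i := by
  induction m generalizing i with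
  | zero =>
    simp [iter, Matrix.one_apply]
  | succ m ih =>
    have hm : ((m + 1 : ℕ) : K) ≠ 0 := Nat.cast_ne_zero.2 (Nat.succ_ne_zero m)
    have hfun : (nab D a)^[m] (M p) = fun i => (m.factorial : K) * ∑ q, iter D b m p q * M q i :=
      funext fun i => ih i
    have hDf : D (m.factorial : K) = 0 := by
      have h1 : ((m.factorial : K)) = algebraMap ℚ K (m.factorial : ℚ) := by simp
      rw [h1, Derivation.map_algebraMap]
    have hrec : ∀ r, ((m + 1 : ℕ) : K) * iter D b (m + 1) p r =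
        D (iter D b m p r) + ∑ q, iter D b m p q * b q r := by
      intro r
      have : iter D b (m + 1) p r = (((m + 1 : ℕ) : K)⁻¹) *
        (D (iter D b m p r) + ∑ l, iter D b m p l * b l r) := rfl
      rw [this, mul_inv_cancel_left₀ hm]
    rw [Function.iterate_succ_apply', hfun]
    unfold nab
    rw [Derivation.leibniz, hDf, smul_zero, add_zero, smul_eq_mul, map_sum]
    have e1 : ∀ q, D (iter D b m p q * M q i) = iter D b m p q * D (M q i) +
        D (iter D b m p q) * M q i := by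
      intro q
      rw [Derivation.leibniz, smul_eq_mul, smul_eq_mul, mul_comm (M q i)]
    have e2 : ∑ l, ((m.factorial : K) * ∑ q, iter D b m p q * M q l) * a l i =
        (m.factorial : K) * ∑ q, iter D b m p q * (M * a) q i := by
      simp only [Matrix.mul_apply, Finset.mul_sum, Finset.sum_mul]
      rw [Finset.sum_comm]
      refine Finset.sum_congr rfl fun q _ => Finset.sum_congr rfl fun l _ => ?_
      ring
    have e3 : ∑ q, iter D b m p q * (b * M) q i = ∑ r, (∑ q, iter D b m p q * b q r) * M r i := by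
      simp only [Matrix.mul_apply, Finset.mul_sum, Finset.sum_mul]
      rw [Finset.sum_comm]
      refine Finset.sum_congr rfl fun q _ => Finset.sum_congr rfl fun l _ => ?_
      ring
    rw [e2, ← mul_add, Finset.sum_congr rfl fun q _ => e1 q, Finset.sum_add_distrib,
      add_right_comm, ← Finset.sum_add_distrib]
    have e4 : ∑ q, (iter D b m p q * D (M q i) + iter D b m p q * (M * a) q i) =
        ∑ r, (∑ q, iter D b m p q * b q r) * M r i := by
      rw [← e3]
      refine Finset.sum_congr rfl fun q _ => ?_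
      rw [← mul_add, hM]
    rw [e4, ← Finset.sum_add_distrib, Nat.factorial_succ]
    have e5 : ∑ r, ((∑ q, iter D b m p q * b q r) * M r i + D (iter D b m p r) * M r i) =
        ((m + 1 : ℕ) : K) * ∑ r, iter D b (m + 1) p r * M r i := by
      rw [Finset.mul_sum]
      refine Finset.sum_congr rfl fun r _ => ?_
      rw [← mul_assoc, hrec]
      ring
    rw [e5]
    push_cast
    ring

theorem tame_sub {K ι β : Type} [Field K] [CharZero K] [Fintype ι] [DecidableEq ι] [Fintype β]
    [DecidableEq β] {D : Derivation ℚ K K} (hst : ∀ f : K, PG (tL D f)) {a : Matrix ι ι K}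
    {M : Matrix β ι K} {ρ : Matrix ι β K} {b : Matrix β β K} (hρ : M * ρ = 1)
    (hM : ∀ p i, D (M p i) + (M * a) p i = (b * M) p i) (h : TameM D a) : TameM D b := by
  have key : ∀ (m : ℕ) (p q : β), iter D b m p q = ∑ j, (∑ i,
      ∑ x ∈ Finset.HasAntidiagonal.antidiagonal m,
        (((x.1.factorial : K)⁻¹) * D^[x.1] (M p i)) * iter D a x.2 i j) * ρ j q := by
    intro m p q
    have h1 : ∀ j, (∑ i, ∑ x ∈ Finset.HasAntidiagonal.antidiagonal m,
        (((x.1.factorial : K)⁻¹) * D^[x.1] (M p i)) * iter D a x.2 i j) =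
        ∑ r, iter D b m p r * M r j := by
      intro j
      have hm : (m.factorial : K) ≠ 0 := Nat.cast_ne_zero.2 (Nat.factorial_ne_zero m)
      rw [Finset.sum_comm, ← leib_iter (M p) m j, TOp_sub_iter hM, inv_mul_cancel_left₀ hm]
    simp only [h1, Finset.sum_mul]
    rw [Finset.sum_comm]
    have h2 : ∀ r, ∑ j, iter D b m p r * M r j * ρ j q =
        iter D b m p r * (1 : Matrix β β K) r q := by
      intro r
      rw [← hρ, Matrix.mul_apply, Finset.mul_sum]
      exact Finset.sum_congr rfl fun j _ => mul_assoc _ _ _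
    simp only [h2, Matrix.one_apply, mul_ite, mul_one, mul_zero, Finset.sum_ite_eq',
      Finset.mem_univ, if_true]
  unfold TameM
  simp only [key]
  refine GmS.sum _ fun j _ => GmS.mul (GmS.sum _ fun i _ => ?_)
    (GmS.const fun s : β × β => ρ j s.2)
  refine GmS.family fun s => ?_
  exact GmS.conv (TOp_taylor (hst (M s.1 i))) (GmS.comp h fun _ : Unit => (i, j))

end Pool.Agent.Helper79.GA
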