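import Pool.Agent.Helper79.GA.Defs

/-!
# GA: basic properties of the generated filtrations and of geometric sequences
-/

open Polynomial

namespace Pool.Agent.Helper79.GA

open Pool.Agent.Helper79.CU Pool.Agent.Helper79.SE

section

variable {F : Type} [CommRing F]

theorem G_mono {T T' : Set F} (h : T ⊆ T') {m n : ℕ} (hmn : m ≤ n) {x : F}
    (hx : x ∈ (G T).I m) : x ∈ (G T').I n :=
  genM_subset _ _ _ h ((G T).mono hmn hx)

theorem G_mem {T : Set F} {t : F} (ht : t ∈ T) : t ∈ (G T).I 1 := genM_gen _ _ _ ht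

theorem G_sub {T T' : Set F} {c : ℕ} (h : ∀ t ∈ T', t ∈ (G T).I c) {n : ℕ} {x : F}
    (hx : x ∈ (G T').I n) : x ∈ (G T).I (c * n) := by
  refine genM_map (triv ℤ) (Int.castRingHom F) T' (G T) (RingHom.id F) (fun i r _ => ?_) h hx
  have h1 := (G T).int_mul_mem (G T).one r
  rw [mul_one] at h1
  exact (G T).mono (Nat.zero_le _) h1

theorem G_map {F' : Type} [CommRing F'] (f : F →+* F') {T : Set F} {n : ℕ} {x : F}
    (hx : x ∈ (G T).I n) : f x ∈ (G (f '' T)).I n := by
  have h := genM_map (triv ℤ) (Int.castRingHom F) T (G (f '' T)) f (c := 1) (fun i r _ => ?_)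
    (fun s hs => G_mem (Set.mem_image_of_mem _ hs)) hx
  · rwa [one_mul] at h
  · have h1 := (G (f '' T)).int_mul_mem (G (f '' T)).one r
    rw [mul_one] at h1
    rw [eq_intCast, map_intCast]
    exact (G (f '' T)).mono (Nat.zero_le _) h1

theorem G_int {T : Set F} (z : ℤ) (n : ℕ) : (z : F) ∈ (G T).I n := by
  have h1 := (G T).int_mul_mem ((G T).mono (Nat.zero_le n) (G T).one) z
  rwa [mul_one] at h1

theorem G_nat {T : Set F} (z : ℕ) (n : ℕ) : (z : F) ∈ (G T).I n := (G T).nat_mem z n

theorem G_int_mul {T : Set F} {n : ℕ} {x : F} (hx : x ∈ (G T).I n) (z : ℤ) :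
    (z : F) * x ∈ (G T).I n := (G T).int_mul_mem hx z

theorem G_nat_mul {T : Set F} {n : ℕ} {x : F} (hx : x ∈ (G T).I n) (z : ℕ) :
    (z : F) * x ∈ (G T).I n := by
  have := (G T).int_mul_mem hx z
  rwa [Int.cast_natCast] at this

/-- All elements of a finite set belong to a common filtration. -/
theorem G_pow {T : Set F} {n : ℕ} {x : F} (hx : x ∈ (G T).I n) (j : ℕ) :
    x ^ j ∈ (G T).I (j * n) := (G T).pow hx j

end

section

variable {F S : Type} [Field F]

theorem GmS.const [Finite S] (a : S → F) : GmS fun (_ : ℕ) s => a s := by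
  refine ⟨Set.range a, 1, 1, Set.finite_range a, fun N => ⟨1, one_pos, ?_, fun m _ s => ?_⟩⟩
  · rw [one_pow]
  · have h1 : ((1 : ℕ) : F) * a s = a s := by rw [Nat.cast_one, one_mul]
    rw [h1]
    exact G_mono le_rfl (by omega) (G_mem (Set.mem_range_self s))

theorem GmS.add {f g : ℕ → S → F} (hf : GmS f) (hg : GmS g) : GmS fun m s => f m s + g m s := by
  obtain ⟨T, c, H, hT, h⟩ := hf
  obtain ⟨T', c', H', hT', h'⟩ := hg
  refine ⟨T ∪ T', c + c', H * H', hT.union hT', fun N => ?_⟩
  obtain ⟨q, q0, q1, q2⟩ := h N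
  obtain ⟨q', q0', q1', q2'⟩ := h' N
  refine ⟨q * q', Nat.mul_pos q0 q0', ?_, fun m hm s => ?_⟩
  · rw [mul_pow]
    exact Nat.mul_le_mul q1 q1'
  · have e : ((q * q' : ℕ) : F) * (f m s + g m s) = (q' : F) * ((q : F) * f m s) +
        (q : F) * ((q' : F) * g m s) := by
      push_cast
      ring
    rw [e]
    refine AddSubgroup.add_mem _ (G_nat_mul (G_mono Set.subset_union_left ?_ (q2 m hm s)) _)
      (G_nat_mul (G_mono Set.subset_union_right ?_ (q2' m hm s)) _)
    · exact Nat.mul_le_mul_right _ (Nat.le_add_right _ _)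
    · exact Nat.mul_le_mul_right _ (Nat.le_add_left _ _)

theorem GmS.mul {f g : ℕ → S → F} (hf : GmS f) (hg : GmS g) : GmS fun m s => f m s * g m s := by
  obtain ⟨T, c, H, hT, h⟩ := hf
  obtain ⟨T', c', H', hT', h'⟩ := hg
  refine ⟨T ∪ T', c + c', H * H', hT.union hT', fun N => ?_⟩
  obtain ⟨q, q0, q1, q2⟩ := h N
  obtain ⟨q', q0', q1', q2'⟩ := h' N
  refine ⟨q * q', Nat.mul_pos q0 q0', ?_, fun m hm s => ?_⟩
  · rw [mul_pow]
    exact Nat.mul_le_mul q1 q1'
  · have e : ((q * q' : ℕ) : F) * (f m s * g m s) = ((q : F) * f m s) * ((q' : F) * g m s) := by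
      push_cast
      ring
    rw [e]
    have := (G (T ∪ T')).mul (G_mono Set.subset_union_left le_rfl (q2 m hm s))
      (G_mono Set.subset_union_right le_rfl (q2' m hm s))
    rwa [← add_mul] at this

theorem GmS.zero : GmS fun (_ : ℕ) (_ : S) => (0 : F) :=
  ⟨∅, 0, 1, Set.finite_empty, fun N => ⟨1, one_pos, by rw [one_pow], fun m _ s => by
    rw [mul_zero]
    exact AddSubgroup.zero_mem _⟩⟩

theorem GmS.sum {α : Type} (A : Finset α) {f : α → ℕ → S → F} (h : ∀ a ∈ A, GmS (f a)) :
    GmS fun m s => ∑ a ∈ A, f a m s := by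
  classical
  induction A using Finset.induction_on with
  | empty => simpa using GmS.zero
  | insert a A ha ih =>
    simp only [Finset.sum_insert ha]
    exact GmS.add (h a (Finset.mem_insert_self a A))
      (ih fun b hb => h b (Finset.mem_insert_of_mem hb))

/-- Reindexing. -/
theorem GmS.comp {S' : Type} {f : ℕ → S → F} (hf : GmS f) (j : S' → S) :
    GmS fun m s => f m (j s) := by
  obtain ⟨T, c, H, hT, h⟩ := hf
  refine ⟨T, c, H, hT, fun N => ?_⟩
  obtain ⟨q, q0, q1, q2⟩ := h N
  exact ⟨q, q0, q1, fun m hm s => q2 m hm _⟩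

/-- Finitely many families. -/
theorem GmS.family [Finite S] {f : ℕ → S → F} (h : ∀ s, GmS fun m (_ : Unit) => f m s) :
    GmS f := by
  classical
  have := Fintype.ofFinite S
  have h1 : GmS fun m s => ∑ a : S, (if a = s then (1 : F) else 0) * f m a :=
    GmS.sum _ fun a _ => GmS.mul (GmS.const fun s => if a = s then (1 : F) else 0)
      ((h a).comp fun _ => ())
  simpa using h1

theorem GmS.map {F' : Type} [Field F'] (φ : F →+* F') {f : ℕ → S → F} (hf : GmS f) :
    GmS fun m s => φ (f m s) := by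
  obtain ⟨T, c, H, hT, h⟩ := hf
  refine ⟨φ '' T, c, H, hT.image _, fun N => ?_⟩
  obtain ⟨q, q0, q1, q2⟩ := h N
  refine ⟨q, q0, q1, fun m hm s => ?_⟩
  have := G_map φ (q2 m hm s)
  rwa [map_mul, map_natCast] at this

end

/-- Growth of the expansions at a place. -/
theorem grow {k K : Type} [Field k] [CharZero k] [Field K] {φ : K →+* LaurentSeries k}
    (h : ∀ f : K, PG (φ f)) {T : Set K} (hT : T.Finite) : ∃ (T' : Set k) (E s : ℕ), T'.Finite ∧
      1 ≤ E ∧ 1 ≤ s ∧ ∀ (n : ℕ) (f : K), f ∈ (G T).I n → LG (G T') E (n * s) (φ f) := by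
  have := hT.to_subtype
  obtain ⟨T', E, s, hT', -, hE, hs, hLG⟩ := PG_common (ι := T) (f := fun t => φ t)
    (fun t => h t) ∅ Set.finite_empty
  refine ⟨T', E, s, hT', hE, hs, fun n f hf => ?_⟩
  change f ∈ AddSubgroup.closure _ at hf
  have hint : ∀ (z : ℤ) (a : ℕ), LG (G T') E a ((z : ℤ) : LaurentSeries k) := by
    intro z a
    have h1 := LG_C (S := G T') (E := E) (s := a) (r := (z : k)) (G_int z _)
    rwa [map_intCast] at h1
  induction hf using AddSubgroup.closure_induction with
  | mem b hb =>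
    obtain ⟨i, r, l, -, e2, e3, rfl⟩ := hb
    rw [map_mul, eq_intCast, map_intCast, map_list_prod]
    have h3 : ∀ l : List K, (∀ x ∈ l, x ∈ T) → LG (G T') E (l.length * s) (l.map φ).prod := by
      intro l
      induction l with
      | nil => intro _; simpa using LG_one
      | cons a l ih =>
        intro hl
        rw [List.map_cons, List.prod_cons, List.length_cons]
        have h4 := LG_mul (hLG ⟨a, hl a (by simp)⟩) (ih fun x hx => hl x (by simp [hx]))
        have h5 : (l.length + 1) * s = s + l.length * s := by ring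
        rw [h5]
        exact h4
    have h4 := LG_mul (hint r 0) (h3 l e2)
    refine LG_mono ?_ h4
    rw [zero_add]
    exact Nat.mul_le_mul_right _ (by omega)
  | zero => rw [map_zero]; exact LG_zero
  | add a b _ _ ha hb => rw [map_add]; exact LG_add ha hb
  | neg a _ ha => rw [map_neg]; exact LG_neg ha

end Pool.Agent.Helper79.GA
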