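import Pool.Agent.Helper79.GA.Fun

/-!
# GA-20: Taylor series of functions

`tL D f = ∑ D^m(f)/m! h^m`. `SE/Tay.lean`: `tayHom D : F →+* PowerSeries F`, `coeff_tay`.

* `tLH`, `tLH_apply`, `tL_const`, `tL_var`: coefficients (`HahnSeries.ofPowerSeries` is a ring homomorphism; `ofPowerSeries_apply_coeff`, coefficient `0` at negative indices).
* `ext_tame`: every `f : K` is `p(x)/q(x)`, `p, q ∈ k[X]` with `q(x) ≠ 0`. For `c : k` the series `tL D (algebraMap k K c)` is the image of `tL Dk c` under
  `algebraMap k K` coefficientwise, and `PG` passes to the image (`G_map`, `Basic.lean`). So the Taylor series of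
  `p(x) = ∑ p_j x^j` is `PG` (`tLH` is a ring homomorphism; `PG_sum`, `PG_mul`, `pg_pow` in `CU/PG.lean`), and that of the quotient by `PG_inv`.
* `ratx_tame`: `Dk = 0`, `tL D x = C x + single 1 1`, `tL` of a constant of `k` is `C` of it.
* `alg_tame`: `f : L` is a root of its minimal polynomial `P` over `F`, separable (`CharZero`), so `tL D' f` is a root of the image of `P` under
  the ring homomorphism `F → F((h)) → L((h))`, `c ↦ tL D' (algebraMap F L c)` (`PG` by `G_map` as above), and the derivative does not vanish at it, since `tLH D'` is injective: `PG_alg`.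
* `tameV_self`: with `D'` as a map `L → L`, `L` a vector space over `F`: `((m! : F)⁻¹) • D'^m v` is the coefficient of index `m` of `tL D' v`, so it belongs to `(G T).I (E (m + 2 s))`
  (definition of `PG`, `LG`): a geometric family with `q = 1`; then `GmS.fn`.
-/

open Polynomial

namespace Pool.Agent.Helper79.GA

open Pool.Agent.Helper79.CU Pool.Agent.Helper79.SE

section

variable {F : Type} [Field F] [CharZero F] (D : Derivation ℚ F F)

/-- The Taylor homomorphism. -/
noncomputable def tLH : F →+* LaurentSeries F :=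
  (HahnSeries.ofPowerSeries ℤ F).comp (tayHom D)

theorem tLH_apply (f : F) : tLH D f = tL D f := rfl

theorem tL_coeff (f : F) (m : ℕ) :
    (tL D f).coeff (m : ℤ) = ((m.factorial : F)⁻¹) * D^[m] f := by
  rw [tL, HahnSeries.ofPowerSeries_apply_coeff, coeff_tay, Algebra.smul_def, map_inv₀,
    map_natCast]

theorem tL_coeff_neg (f : F) {n : ℤ} (hn : n < 0) : (tL D f).coeff n = 0 := by
  rw [tL, HahnSeries.ofPowerSeries_apply]
  refine HahnSeries.embDomain_of_notMem_range ?_
  rintro ⟨m, hm⟩
  have h1 : ((m : ℕ) : ℤ) = n := hm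
  omega

theorem tL_const {c : F} (h : D c = 0) : tL D c = HahnSeries.C c := by
  ext n
  rcases lt_or_ge n 0 with hn | hn
  · rw [tL_coeff_neg D c hn, HahnSeries.C_apply, HahnSeries.coeff_single_of_ne (by omega)]
  · obtain ⟨m, rfl⟩ := Int.eq_ofNat_of_zero_le hn
    rw [tL_coeff, HahnSeries.C_apply]
    rcases m with _ | m
    · simp
    · rw [Function.iterate_succ_apply, h, iterate_map_zero, mul_zero,
        HahnSeries.coeff_single_of_ne (by omega)]

theorem tL_var {x : F} (h : D x = 1) : tL D x = HahnSeries.C x + HahnSeries.single 1 1 := by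
  ext n
  rw [HahnSeries.coeff_add]
  rcases lt_or_ge n 0 with hn | hn
  · rw [tL_coeff_neg D x hn, HahnSeries.C_apply, HahnSeries.coeff_single_of_ne (by omega),
      HahnSeries.coeff_single_of_ne (by omega), add_zero]
  · obtain ⟨m, rfl⟩ := Int.eq_ofNat_of_zero_le hn
    rw [tL_coeff, HahnSeries.C_apply]
    rcases m with _ | m
    · rw [HahnSeries.coeff_single_of_ne (a := (1 : ℤ)) (by omega)]
      simp
    · rw [Function.iterate_succ_apply, h, HahnSeries.coeff_single_of_ne (a := (0 : ℤ)) (by omega),
        zero_add]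
      rcases m with _ | m
      · simp
      · rw [Function.iterate_succ_apply, Derivation.map_one_eq_zero, iterate_map_zero, mul_zero,
          HahnSeries.coeff_single_of_ne (by omega)]

end

/-- The Taylor series of the image of a constant. -/
theorem Str_map {k K : Type} [Field k] [CharZero k] [Field K] [CharZero K] [Algebra k K]
    {D : Derivation ℚ K K} {Dk : Derivation ℚ k k}
    (hD : ∀ c, D (algebraMap k K c) = algebraMap k K (Dk c)) {c : k} (h : PG (tL Dk c)) :
    PG (tL D (algebraMap k K c)) := by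
  obtain ⟨T, E, s, hT, hLG⟩ := h
  have hit : ∀ m : ℕ, D^[m] (algebraMap k K c) = algebraMap k K (Dk^[m] c) := by
    intro m
    induction m with
    | zero => rfl
    | succ m ih => rw [Function.iterate_succ_apply', Function.iterate_succ_apply', ih, hD]
  have hco : ∀ n : ℤ, (tL D (algebraMap k K c)).coeff n = algebraMap k K ((tL Dk c).coeff n) := by
    intro n
    rcases lt_or_ge n 0 with hn | hn
    · rw [tL_coeff_neg _ _ hn, tL_coeff_neg _ _ hn, map_zero]
    · obtain ⟨m, rfl⟩ := Int.eq_ofNat_of_zero_le hn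
      rw [tL_coeff, tL_coeff, hit, map_mul, map_inv₀, map_natCast]
  refine ⟨algebraMap k K '' T, E, s, hT.image _, fun n => ⟨fun hn => ?_, ?_⟩⟩
  · rw [hco, (hLG n).1 hn, map_zero]
  · rw [hco]
    exact G_map _ (hLG n).2

theorem ext_tame {k K : Type} [Field k] [CharZero k] [Field K] [CharZero K] [Algebra k K]
    {x : K} {D : Derivation ℚ K K} {Dk : Derivation ℚ k k}
    (hquo : ∀ f : K, ∃ p q : k[X], aeval x q ≠ 0 ∧ f = aeval x p / aeval x q)
    (hD : ∀ c, D (algebraMap k K c) = algebraMap k K (Dk c)) (hx : PG (tL D x))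
    (hk : ∀ c : k, PG (tL Dk c)) : ∀ f : K, PG (tL D f) := by
  have hc : ∀ c : k, PG (tL D (algebraMap k K c)) := fun c => Str_map hD (hk c)
  have hp : ∀ p : k[X], PG (tLH D (aeval x p)) := by
    intro p
    rw [aeval_eq_sum_range, map_sum]
    refine PG_sum fun i _ => ?_
    rw [Algebra.smul_def, map_mul, map_pow]
    exact PG_mul (hc _) (pg_pow hx i)
  intro f
  obtain ⟨p, q, hq, rfl⟩ := hquo f
  rw [← tLH_apply, map_div₀, div_eq_mul_inv]
  exact PG_mul (hp p) (PG_inv (hp q))

theorem ratx_tame {k K : Type} [Field k] [CharZero k] [Field K] [CharZero K] [Algebra k K]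
    {x : K} {D : Derivation ℚ K K} (h : RatX k x D) : ∀ f : K, PG (tL D f) := by
  refine ext_tame (k := k) (x := x) (Dk := 0) h.quo (fun c => ?_) ?_ fun c => ?_
  · rw [h.const, Derivation.zero_apply, map_zero]
  · rw [tL_var D h.dx]
    exact PG_add (PG_C _) (PG_single _ _)
  · rw [tL_const (0 : Derivation ℚ k k) (Derivation.zero_apply _)]
    exact PG_C _

theorem alg_tame {F L : Type} [Field F] [CharZero F] [Field L] [CharZero L] [Algebra F L]
    [Algebra.IsAlgebraic F L] {D : Derivation ℚ F F} {D' : Derivation ℚ L L}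
    (hD : ∀ c, D' (algebraMap F L c) = algebraMap F L (D c)) (h : ∀ f : F, PG (tL D f)) :
    ∀ f : L, PG (tL D' f) := by
  intro f
  have hint : IsIntegral F f := Algebra.IsIntegral.isIntegral f
  set ρ : F →+* LaurentSeries L := (tLH D').comp (algebraMap F L) with hρ
  have hev : ∀ p : F[X], (p.map ρ).eval (tLH D' f) = tLH D' (aeval f p) := by
    intro p
    rw [eval_map, hρ, aeval_def, hom_eval₂]
  refine PG_alg (P := (minpoly F f).map ρ) (fun n => ?_) ?_ ?_
  · rw [coeff_map]
    exact Str_map hD (h _)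
  · rw [← tLH_apply, hev, minpoly.aeval, map_zero]
  · rw [← tLH_apply, derivative_map, hev]
    have h1 : aeval f (derivative (minpoly F f)) ≠ 0 :=
      (minpoly.irreducible hint).separable.aeval_derivative_ne_zero (minpoly.aeval F f)
    rwa [Ne, map_eq_zero]

theorem tameV_self {F L : Type} [Field F] [CharZero F] [Field L] [CharZero L] [Algebra F L]
    [FiniteDimensional F L] {D' : Derivation ℚ L L} (h : ∀ f : L, PG (tL D' f)) :
    TameV F (fun v : L => D' v) := by
  intro v ψ
  refine GmS.fn ψ ?_
  obtain ⟨T, E, s, hT, hLG⟩ := h v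
  refine ⟨T, E * (1 + 2 * s), 1, hT, fun N => ⟨1, one_pos, ?_, fun m hm _ => ?_⟩⟩
  · rw [one_pow]
  · have h1 := (hLG (m : ℤ)).2
    rw [tL_coeff] at h1
    have e : ((1 : ℕ) : L) * (((m.factorial : F)⁻¹) • (fun v : L => D' v)^[m] v) =
        ((m.factorial : L)⁻¹) * D'^[m] v := by
      rw [Nat.cast_one, one_mul, Algebra.smul_def, map_inv₀, map_natCast]
    rw [e]
    refine (G T).mono ?_ h1
    have h2 : ((E : ℤ) * ((m : ℤ) + 2 * (s : ℤ))).toNat = E * (m + 2 * s) := by
      have : ((E : ℤ) * ((m : ℤ) + 2 * (s : ℤ))) = ((E * (m + 2 * s) : ℕ) : ℤ) := by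
        push_cast
        ring
      rw [this, Int.toNat_natCast]
    rw [h2, mul_assoc]
    refine Nat.mul_le_mul_left _ ?_
    nlinarith [Nat.zero_le (s * N)]

end Pool.Agent.Helper79.GA
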