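import Pool.Agent.Helper79.GA.Bin
import Pool.Agent.Helper79.GA.Str

/-!
# GA-12: bounds for `binom(Θ, j) v`, `Θ = y ∇`

1. `iter_spec`: `∇^m(v)/m! = ∑_i ∑_{a+b=m} (D^a v_i/a!) (iter D A b)_{i,·}`, that is `leib_iter` below: induction on `m`:
   `(m+1) · (m+1-st term) = ∇ (m-th term)`, and the recursion of `iter` (`iter D A (b+1) = (D (iter b) + iter b * A)/(b+1)`).
2. `falling_id`: if `D y = 1` then `(∏_{l<j} (Θ - l)) v = y^j ∇^j v` (induction: `y^(j+1) ∇^(j+1) v = y ∇ (y^j ∇^j v) - j y^j ∇^j v = (Θ - j) (y^j ∇^j v)`);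
   `rising_id`: if `D y = -1` then `(∏_{l<j} (Θ + l)) v = y^j ∇^j v` (`y ∇ (y^j ∇^j v) = -j y^j ∇^j v + y^(j+1) ∇^(j+1) v`).
3. For `e = -1` (`D y = 1`): `aeval Θ (bp k j) v = y^j (∇^j v/j!)`. For `e = 1`: by `bp_rise` (an integral combination) of the `y^i (∇^i v/i!)`, `i ≤ j`.
4. Bounds: the map `f ↦ tL D f` is a ring homomorphism `K → K((h))` with values in `PG` (`hst`, `tLH`), so by `grow` (`Basic.lean`, with `k = K`, `φ = tLH D`)
   `D^a f/a! = (tL D f)_a ∈ (G T₁).I (E (a + 2 n s))` for `f ∈ (G T).I n`; the `iter D A b`, `b ≤ N`, have a common denominator `q` (`hA`), `y^j ∈ (G {y}).I j`.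
   Take `T' = T₁ ∪ T₂ ∪ {y}`.
-/

open Polynomial

namespace Pool.Agent.Helper79.GA

open Pool.Agent.Helper79.CU Pool.Agent.Helper79.SE

section

variable {k K ι : Type} [Field k] [CharZero k] [Field K] [CharZero K] [Algebra k K] [Fintype ι]
  [DecidableEq ι] {D : Derivation ℚ K K} {A : Matrix ι ι K}

private theorem calc_nab_smul (f : K) (w : ι → K) :
    nab D A (f • w) = D f • w + f • nab D A w := by
  funext j
  simp only [nab, Pi.smul_apply, Pi.add_apply, smul_eq_mul, Derivation.leibniz, mul_add,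
    Finset.mul_sum, mul_assoc]
  ring

private theorem calc_D_inv (n : ℕ) : D ((n.factorial : K)⁻¹) = 0 := by
  have h1 : ((n.factorial : K)⁻¹) = algebraMap ℚ K ((n.factorial : ℚ)⁻¹) := by
    simp
  rw [h1, Derivation.map_algebraMap]

private theorem calc_D_mul (n : ℕ) (x : K) :
    D ((n.factorial : K)⁻¹ * x) = (n.factorial : K)⁻¹ * D x := by
  rw [Derivation.leibniz, calc_D_inv, smul_zero, add_zero, smul_eq_mul]

private theorem calc_fact (n : ℕ) :
    (n.factorial : K)⁻¹ = ((n : K) + 1) * (((n + 1).factorial : ℕ) : K)⁻¹ := by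
  have h2 : ((n : K) + 1) ≠ 0 := Nat.cast_add_one_ne_zero n
  have h3 : ((n.factorial : ℕ) : K) ≠ 0 := by exact_mod_cast Nat.factorial_ne_zero n
  rw [Nat.factorial_succ]
  push_cast
  field_simp

/-- the summands of the Leibniz formula -/
private noncomputable def calcT (D : Derivation ℚ K K) (A : Matrix ι ι K) (v : ι → K) (a b : ℕ)
    (j : ι) : K :=
  ∑ i, (((a.factorial : K)⁻¹) * D^[a] (v i)) * iter D A b i j

private theorem calc_step (v : ι → K) (a b : ℕ) (j : ι) :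
    D (calcT D A v a b j) + ∑ l, calcT D A v a b l * A l j =
      ((a : K) + 1) * calcT D A v (a + 1) b j + ((b : K) + 1) * calcT D A v a (b + 1) j := by
  have hb : ((b : K) + 1) ≠ 0 := Nat.cast_add_one_ne_zero b
  have h1 : ∀ i, ((b : K) + 1) * iter D A (b + 1) i j =
      D (iter D A b i j) + ∑ l, iter D A b i l * A l j := by
    intro i
    have : iter D A (b + 1) i j = (((b + 1 : ℕ) : K)⁻¹) *
      (D (iter D A b i j) + ∑ l, iter D A b i l * A l j) := rfl
    rw [this, Nat.cast_succ, mul_inv_cancel_left₀ hb]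
  have h2 : ∀ i, D ((a.factorial : K)⁻¹ * D^[a] (v i)) =
      ((a : K) + 1) * ((((a + 1).factorial : ℕ) : K)⁻¹ * D^[a + 1] (v i)) := by
    intro i
    rw [calc_D_mul, calc_fact a, Function.iterate_succ_apply', mul_assoc]
  have e1 : D (calcT D A v a b j) = ∑ i, ((((a.factorial : K)⁻¹) * D^[a] (v i)) *
      D (iter D A b i j) + iter D A b i j *
      (((a : K) + 1) * ((((a + 1).factorial : ℕ) : K)⁻¹ * D^[a + 1] (v i)))) := by
    unfold calcT
    rw [map_sum]
    refine Finset.sum_congr rfl fun i _ => ?_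
    rw [Derivation.leibniz, h2, smul_eq_mul, smul_eq_mul]
  have e2 : ∑ l, calcT D A v a b l * A l j = ∑ i, (((a.factorial : K)⁻¹) * D^[a] (v i)) *
      ∑ l, iter D A b i l * A l j := by
    unfold calcT
    simp only [Finset.sum_mul, Finset.mul_sum]
    rw [Finset.sum_comm]
    refine Finset.sum_congr rfl fun i _ => Finset.sum_congr rfl fun l _ => ?_
    ring
  rw [e1, e2, ← Finset.sum_add_distrib]
  have e3 : ((a : K) + 1) * calcT D A v (a + 1) b j + ((b : K) + 1) * calcT D A v a (b + 1) j =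
      ∑ i, (((a : K) + 1) * ((((((a + 1).factorial : ℕ) : K)⁻¹) * D^[a + 1] (v i)) *
        iter D A b i j) + (((a.factorial : K)⁻¹) * D^[a] (v i)) *
        (((b : K) + 1) * iter D A (b + 1) i j)) := by
    unfold calcT
    rw [Finset.mul_sum, Finset.mul_sum, ← Finset.sum_add_distrib]
    refine Finset.sum_congr rfl fun i _ => ?_
    ring
  rw [e3]
  refine Finset.sum_congr rfl fun i _ => ?_
  rw [h1]
  ring

theorem leib_iter (v : ι → K) (m : ℕ) (j : ι) :
    ((m.factorial : K)⁻¹) * ((nab D A)^[m] v) j =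
      ∑ p ∈ Finset.HasAntidiagonal.antidiagonal m, ∑ i,
        (((p.1.factorial : K)⁻¹) * D^[p.1] (v i)) * iter D A p.2 i j := by
  induction m generalizing j with
  | zero => simp [iter, Matrix.one_apply]
  | succ m ih =>
    have hm : ((m : K) + 1) ≠ 0 := Nat.cast_add_one_ne_zero m
    have hfun : ((m.factorial : K)⁻¹) • ((nab D A)^[m] v) = fun j =>
        ∑ p ∈ Finset.HasAntidiagonal.antidiagonal m, calcT D A v p.1 p.2 j := by
      funext j
      exact ih j
    have h1 : ((m : K) + 1) * (((((m + 1).factorial : ℕ) : K)⁻¹) * ((nab D A)^[m + 1] v) j) =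
        nab D A (((m.factorial : K)⁻¹) • ((nab D A)^[m] v)) j := by
      rw [calc_nab_smul, calc_D_inv, zero_smul, zero_add, Pi.smul_apply, smul_eq_mul, calc_fact m,
        Function.iterate_succ_apply', mul_assoc]
    rw [hfun] at h1
    have h2 : nab D A (fun j => ∑ p ∈ Finset.HasAntidiagonal.antidiagonal m,
        calcT D A v p.1 p.2 j) j = ∑ p ∈ Finset.HasAntidiagonal.antidiagonal m,
        (((p.1 : K) + 1) * calcT D A v (p.1 + 1) p.2 j +
          ((p.2 : K) + 1) * calcT D A v p.1 (p.2 + 1) j) := by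
      unfold nab
      rw [map_sum]
      have e : ∑ i, (∑ p ∈ Finset.HasAntidiagonal.antidiagonal m, calcT D A v p.1 p.2 i) * A i j =
          ∑ p ∈ Finset.HasAntidiagonal.antidiagonal m, ∑ l, calcT D A v p.1 p.2 l * A l j := by
        simp only [Finset.sum_mul]
        rw [Finset.sum_comm]
      rw [e, ← Finset.sum_add_distrib]
      exact Finset.sum_congr rfl fun p _ => calc_step v p.1 p.2 j
    have h3 : ((m : K) + 1) * ∑ p ∈ Finset.HasAntidiagonal.antidiagonal (m + 1),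
        calcT D A v p.1 p.2 j = ∑ p ∈ Finset.HasAntidiagonal.antidiagonal m,
        (((p.1 : K) + 1) * calcT D A v (p.1 + 1) p.2 j +
          ((p.2 : K) + 1) * calcT D A v p.1 (p.2 + 1) j) := by
      have e1 : ((m : K) + 1) * ∑ p ∈ Finset.HasAntidiagonal.antidiagonal (m + 1),
          calcT D A v p.1 p.2 j = ∑ p ∈ Finset.HasAntidiagonal.antidiagonal (m + 1),
          (p.1 : K) * calcT D A v p.1 p.2 j + ∑ p ∈ Finset.HasAntidiagonal.antidiagonal (m + 1),
          (p.2 : K) * calcT D A v p.1 p.2 j := by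
        rw [Finset.mul_sum, ← Finset.sum_add_distrib]
        refine Finset.sum_congr rfl fun p hp => ?_
        have h4 := Finset.HasAntidiagonal.mem_antidiagonal.1 hp
        have h5 : (p.1 : K) + (p.2 : K) = (m : K) + 1 := by
          rw [← Nat.cast_add, h4]
          push_cast
          ring
        rw [← h5]
        ring
      rw [e1, Finset.Nat.sum_antidiagonal_succ (f := fun p : ℕ × ℕ =>
        (p.1 : K) * calcT D A v p.1 p.2 j), Finset.Nat.sum_antidiagonal_succ'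
        (f := fun p : ℕ × ℕ => (p.2 : K) * calcT D A v p.1 p.2 j), Finset.sum_add_distrib]
      push_cast
      ring
    have h4 : ((m : K) + 1) * (((((m + 1).factorial : ℕ) : K)⁻¹) * ((nab D A)^[m + 1] v) j) =
        ((m : K) + 1) * ∑ p ∈ Finset.HasAntidiagonal.antidiagonal (m + 1),
        calcT D A v p.1 p.2 j := by
      rw [h1, h2, h3]
    exact mul_left_cancel₀ hm h4

private theorem calc_prod {y : K} {e : ℤ} (hy : D y = -(e : K)) {Θ : Module.End k (ι → K)}
    (hΘ : ∀ v, Θ v = y • nab D A v) (v : ι → K) (n : ℕ) :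
    (aeval Θ (∏ l ∈ Finset.range n, (X + C ((e : k) * (l : k)))) : _ →ₗ[k] _) v =
      y ^ n • ((nab D A)^[n] v) := by
  induction n with
  | zero => simp
  | succ n ih =>
    have hD : y * D (y ^ n) = -((e : K) * (n : K)) * y ^ n := by
      rcases n with _ | n
      · simp
      · rw [Derivation.leibniz_pow, hy, Nat.add_sub_cancel, nsmul_eq_mul, smul_eq_mul]
        ring
    rw [Finset.prod_range_succ, mul_comm, map_mul, Module.End.mul_apply, ih, map_add, aeval_X,
      aeval_C, LinearMap.add_apply, hΘ, calc_nab_smul, Module.algebraMap_end_apply,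
      Function.iterate_succ_apply']
    funext i
    have hk : algebraMap k K ((e : k) * (n : k)) = (e : K) * (n : K) := by simp
    simp only [Pi.add_apply, Pi.smul_apply]
    simp only [smul_eq_mul, Algebra.smul_def, hk]
    have h1 : y * (D (y ^ n) * ((nab D A)^[n] v) i + y ^ n * nab D A ((nab D A)^[n] v) i) =
        (y * D (y ^ n)) * ((nab D A)^[n] v) i + y ^ (n + 1) * nab D A ((nab D A)^[n] v) i := by
      ring
    rw [h1, hD]
    ring

private theorem calc_bp {e : ℤ} (he : e = 1 ∨ e = -1) (j : ℕ) : ∃ z : ℕ → ℤ,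
    bp k j = ∑ i ∈ Finset.range (j + 1), C (z i : k) * (C ((i.factorial : k)⁻¹) *
      ∏ l ∈ Finset.range i, (X + C ((e : k) * (l : k)))) := by
  rcases he with he | he
  · obtain ⟨z, hz⟩ := bp_rise (F := k) j
    refine ⟨z, ?_⟩
    rw [hz, he]
    simp
  · refine ⟨fun i => if i = j then 1 else 0, ?_⟩
    rw [Finset.sum_eq_single_of_mem j (Finset.mem_range.2 (Nat.lt_succ_self j))]
    · rw [he, bp]
      simp [sub_eq_add_neg]
    · intro b _ hb
      simp [hb]

theorem calc_bound (hA : TameM D A) (hst : ∀ f : K, PG (tL D f)) {y : K} {e : ℤ}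
    (he : e = 1 ∨ e = -1) (hy : D y = -(e : K)) {Θ : Module.End k (ι → K)}
    (hΘ : ∀ v, Θ v = y • nab D A v) {T : Set K} (hT : T.Finite) (c : ℕ) :
    ∃ (T' : Set K) (c' H : ℕ), T'.Finite ∧ ∀ N : ℕ, ∃ q : ℕ, 0 < q ∧ q ≤ H ^ (N + 1) ∧
      ∀ v : ι → K, (∀ i, v i ∈ (G T).I (c * (N + 1))) → ∀ j ≤ N, ∀ i,
        (q : K) * ((aeval Θ (bp k j) : _ →ₗ[k] _) v) i ∈ (G T').I (c' * (N + 1)) := by
  obtain ⟨T₂, c₂, H₂, hT₂, hiter⟩ := hA
  obtain ⟨T₁, E, s, hT₁, -, -, hgrow⟩ := grow (φ := tLH D) hst hT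
  refine ⟨T₁ ∪ T₂ ∪ {y}, 1 + E * (1 + 2 * (c * s)) + c₂, H₂,
    (hT₁.union hT₂).union (Set.finite_singleton y), fun N => ?_⟩
  obtain ⟨q, hq0, hq1, hq2⟩ := hiter N
  refine ⟨q, hq0, hq1, fun v hv j hj i => ?_⟩
  have hcoef : ∀ a ≤ N, ∀ l, ((a.factorial : K)⁻¹) * D^[a] (v l) ∈
      (G T₁).I (E * (1 + 2 * (c * s)) * (N + 1)) := by
    intro a ha l
    have h1 := (hgrow _ _ (hv l) (a : ℤ)).2
    rw [tLH_apply, tL_coeff] at h1
    refine (G T₁).mono ?_ h1
    rw [Int.toNat_le]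
    push_cast
    have h2 : (a : ℤ) ≤ N := by exact_mod_cast ha
    have hE : (0 : ℤ) ≤ E := Int.natCast_nonneg E
    have h3 : (a : ℤ) + 2 * ((c : ℤ) * (N + 1) * s) ≤ (1 + 2 * ((c : ℤ) * s)) * (N + 1) := by
      nlinarith
    calc (E : ℤ) * ((a : ℤ) + 2 * ((c : ℤ) * (N + 1) * s))
        ≤ E * ((1 + 2 * ((c : ℤ) * s)) * (N + 1)) := mul_le_mul_of_nonneg_left h3 hE
      _ = E * (1 + 2 * ((c : ℤ) * s)) * (N + 1) := by ring
  have hsub1 : T₁ ⊆ T₁ ∪ T₂ ∪ {y} := fun x hx => Or.inl (Or.inl hx)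
  have hsub2 : T₂ ⊆ T₁ ∪ T₂ ∪ {y} := fun x hx => Or.inl (Or.inr hx)
  have hsub3 : ({y} : Set K) ⊆ T₁ ∪ T₂ ∪ {y} := fun x hx => Or.inr hx
  have hiterb : ∀ m ≤ N, (q : K) * (((m.factorial : K)⁻¹) * ((nab D A)^[m] v) i) ∈
      (G (T₁ ∪ T₂ ∪ {y})).I (E * (1 + 2 * (c * s)) * (N + 1) + c₂ * (N + 1)) := by
    intro m hm
    rw [leib_iter, Finset.mul_sum]
    refine AddSubgroup.sum_mem _ fun p hp => ?_
    rw [Finset.mul_sum]
    refine AddSubgroup.sum_mem _ fun l _ => ?_
    have hp' := Finset.HasAntidiagonal.mem_antidiagonal.1 hp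
    have e1 : (q : K) * ((((p.1.factorial : K)⁻¹) * D^[p.1] (v l)) * iter D A p.2 l i) =
        (((p.1.factorial : K)⁻¹) * D^[p.1] (v l)) * ((q : K) * iter D A p.2 l i) := by ring
    rw [e1]
    exact (G (T₁ ∪ T₂ ∪ {y})).mul (G_mono hsub1 le_rfl (hcoef p.1 (by omega) l))
      (G_mono hsub2 le_rfl (hq2 p.2 (by omega) (l, i)))
  obtain ⟨z, hz⟩ := calc_bp (k := k) he j
  have hmain : (q : K) * ((aeval Θ (bp k j) : _ →ₗ[k] _) v) i =
      ∑ n ∈ Finset.range (j + 1), (z n : K) * (y ^ n *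
        ((q : K) * (((n.factorial : K)⁻¹) * ((nab D A)^[n] v) i))) := by
    rw [hz, map_sum, LinearMap.sum_apply, Finset.sum_apply, Finset.mul_sum]
    refine Finset.sum_congr rfl fun n _ => ?_
    rw [map_mul, map_mul, aeval_C, aeval_C, Module.End.mul_apply, Module.End.mul_apply,
      calc_prod hy hΘ, Module.algebraMap_end_apply, Module.algebraMap_end_apply]
    simp only [Pi.smul_apply]
    simp only [smul_eq_mul, Algebra.smul_def, map_intCast, map_inv₀, map_natCast]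
    ring
  rw [hmain]
  refine AddSubgroup.sum_mem _ fun n hn => ?_
  have hn' : n ≤ N := by
    have := Finset.mem_range.1 hn
    omega
  refine G_int_mul ?_ _
  have hyn : y ^ n ∈ (G (T₁ ∪ T₂ ∪ {y})).I (N + 1) := by
    refine G_mono (T := T₁ ∪ T₂ ∪ {y}) le_rfl ?_ (G_pow (G_mono hsub3 le_rfl
      (G_mem (Set.mem_singleton y))) n)
    omega
  have := (G (T₁ ∪ T₂ ∪ {y})).mul hyn (hiterb n hn')
  refine (G (T₁ ∪ T₂ ∪ {y})).mono (le_of_eq ?_) this
  ring

end

end Pool.Agent.Helper79.GA
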