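import Pool.Agent.Helper79.GA.Basic

/-!
# GA-02: descent of the filtrations along algebraic extensions

* `fun_gen`: let `b_1, …, b_r` be a basis of `L` over `F`. `T'` = the (finite) set of the coordinates of the
  products `t b_i` (`t ∈ T`), the coordinates of `1`, and the `ψ b_i`. By induction on `l` the coordinates of a product
  `t_1 ⋯ t_l` (`t_j ∈ T`) belong to `(G T').I (l + 1)` (the coordinates of `t y` are `∑_i y_i (t b_i)_j`), so
  `ψ (t_1 ⋯ t_l) ∈ (G T').I (l + 2)`, and `l + 2 ≤ 2 (n + 1)` for `l ≤ n`: `c = 2`. The elements of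
  `(G T).I n` are the integral combinations of products of at most `n` elements of `T`
  (`AddSubgroup.closure_induction`, see the proof of `grow` in `Basic.lean`).
* `desc_gen`: `L₀ = F(T)` (`IntermediateField.adjoin`) is finite over `F`. Every `y ∈ (G T).I n` is the image
  of an element of `(G T₀).I n`, `T₀ ⊂ L₀` the preimage of `T` (closure induction). Apply `fun_gen` to an
  `F`-linear `ψ : L₀ → F` with `ψ 1 = 1` (`exists a basis containing 1`, or `LinearMap.exists_extend`, or
  `Module.exists_dual_forall_apply_eq_zero_iff`...; then `ψ (algebraMap F L₀ x) = x`).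
* `GmS.fn`, `GmS.desc`: from these: `q f ∈ (G T).I (c (N+1))` implies `q ψ(f) = ψ (q f) ∈ (G T').I (c' (c (N+1) + 1))` and
  `c' (c (N+1) + 1) ≤ c' (c + 1) (N+1)`.
-/

open Polynomial

namespace Pool.Agent.Helper79.GA

open Pool.Agent.Helper79.CU Pool.Agent.Helper79.SE

section

variable {F L : Type} [Field F] [Field L] [Algebra F L]

private theorem Fun_coord {r : Type} [Fintype r] (b : Module.Basis r F L) {T : Set L} {T' : Set F}
    (h1 : ∀ t ∈ T, ∀ i j, b.repr (t * b i) j ∈ T') (h2 : ∀ j, b.repr 1 j ∈ T') (l : List L)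
    (hl : ∀ t ∈ l, t ∈ T) : ∀ j, b.repr l.prod j ∈ (G T').I (l.length + 1) := by
  induction l with
  | nil =>
    intro j
    rw [List.prod_nil, List.length_nil]
    exact G_mem (h2 j)
  | cons t l ih =>
    intro j
    have ih' := ih fun x hx => hl x (List.mem_cons_of_mem _ hx)
    have e : b.repr (t * l.prod) j = ∑ i, b.repr l.prod i * b.repr (t * b i) j := by
      have e1 : t * l.prod = ∑ i, b.repr l.prod i • (t * b i) := by
        conv_lhs => rw [← b.sum_repr l.prod]
        rw [Finset.mul_sum]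
        refine Finset.sum_congr rfl fun i _ => ?_
        rw [mul_smul_comm]
      rw [e1, map_sum, Finsupp.finsetSum_apply]
      refine Finset.sum_congr rfl fun i _ => ?_
      rw [map_smul, Finsupp.smul_apply, smul_eq_mul]
    rw [List.prod_cons, List.length_cons, e]
    refine AddSubgroup.sum_mem _ fun i _ => ?_
    exact (G T').mul (ih' i) (G_mem (h1 t (hl t (by simp)) i j))

theorem fun_gen [FiniteDimensional F L] (ψ : L →ₗ[F] F) {T : Set L} (hT : T.Finite) :
    ∃ (T' : Set F) (c : ℕ), T'.Finite ∧ ∀ (n : ℕ) (x : L), x ∈ (G T).I n →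
      ψ x ∈ (G T').I (c * (n + 1)) := by
  classical
  set b := Module.finBasis F L with hb
  have := hT.to_subtype
  set T' : Set F := (Set.range fun p : T × Fin (Module.finrank F L) × Fin (Module.finrank F L) =>
    b.repr ((p.1 : L) * b p.2.1) p.2.2) ∪ (Set.range fun j => b.repr 1 j) ∪
    (Set.range fun j => ψ (b j)) with hT'
  have h1 : ∀ t ∈ T, ∀ i j, b.repr (t * b i) j ∈ T' := fun t ht i j =>
    Or.inl (Or.inl ⟨(⟨t, ht⟩, i, j), rfl⟩)
  have h2 : ∀ j, b.repr 1 j ∈ T' := fun j => Or.inl (Or.inr ⟨j, rfl⟩)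
  have h3 : ∀ j, ψ (b j) ∈ T' := fun j => Or.inr ⟨j, rfl⟩
  refine ⟨T', 2, ((Set.finite_range _).union (Set.finite_range _)).union (Set.finite_range _),
    fun n x hx => ?_⟩
  change x ∈ AddSubgroup.closure _ at hx
  induction hx using AddSubgroup.closure_induction with
  | mem x hx =>
    obtain ⟨i, r, l, -, e2, e3, rfl⟩ := hx
    have h4 := Fun_coord b h1 h2 l e2
    have h5 : ψ l.prod ∈ (G T').I (l.length + 1 + 1) := by
      have e : ψ l.prod = ∑ j, b.repr l.prod j * ψ (b j) := by
        conv_lhs => rw [← b.sum_repr l.prod]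
        rw [map_sum]
        refine Finset.sum_congr rfl fun j _ => ?_
        rw [map_smul, smul_eq_mul]
      rw [e]
      exact AddSubgroup.sum_mem _ fun j _ => (G T').mul (h4 j) (G_mem (h3 j))
    have e : ψ (Int.castRingHom L r * l.prod) = (r : F) * ψ l.prod := by
      have e1 : Int.castRingHom L r * l.prod = (r : F) • l.prod := by
        rw [Algebra.smul_def, map_intCast, eq_intCast]
      rw [e1, map_smul, smul_eq_mul]
    rw [e]
    exact G_int_mul ((G T').mono (by omega) h5) r
  | zero => rw [map_zero]; exact AddSubgroup.zero_mem _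
  | add x y _ _ hx hy => rw [map_add]; exact AddSubgroup.add_mem _ hx hy
  | neg x _ hx => rw [map_neg]; exact AddSubgroup.neg_mem _ hx

theorem desc_gen [Algebra.IsAlgebraic F L] {T : Set L} (hT : T.Finite) :
    ∃ (T' : Set F) (c : ℕ), T'.Finite ∧ ∀ (n : ℕ) (x : F), algebraMap F L x ∈ (G T).I n →
      x ∈ (G T').I (c * (n + 1)) := by
  have hfin := hT.to_subtype
  haveI : FiniteDimensional F (IntermediateField.adjoin F T) :=
    IntermediateField.finiteDimensional_adjoin fun x _ => Algebra.IsIntegral.isIntegral x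
  set L₀ := IntermediateField.adjoin F T with hL₀
  set T₀ : Set L₀ := Subtype.val ⁻¹' T with hT₀
  have hT₀f : T₀.Finite := hT.preimage Subtype.val_injective.injOn
  have hlift : ∀ (n : ℕ) (y : L), y ∈ (G T).I n → ∃ y₀ : L₀, y₀ ∈ (G T₀).I n ∧ (y₀ : L) = y := by
    intro n y hy
    change y ∈ AddSubgroup.closure _ at hy
    induction hy using AddSubgroup.closure_induction with
    | mem y hy =>
      obtain ⟨i, r, l, e1, e2, e3, rfl⟩ := hy
      have hl : ∀ l : List L, (∀ s ∈ l, s ∈ T) → ∃ l₀ : List L₀, (∀ s ∈ l₀, s ∈ T₀) ∧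
          l₀.length = l.length ∧ ((l₀.prod : L₀) : L) = l.prod := by
        intro l
        induction l with
        | nil => intro _; exact ⟨[], by simp, rfl, by simp⟩
        | cons a l ih =>
          intro h
          obtain ⟨l₀, h1, h2, h3⟩ := ih fun s hs => h s (List.mem_cons_of_mem _ hs)
          have ha : a ∈ T := h a (by simp)
          refine ⟨⟨a, IntermediateField.subset_adjoin F T ha⟩ :: l₀, ?_, ?_, ?_⟩
          · intro s hs
            rcases List.mem_cons.1 hs with rfl | hs
            · exact ha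
            · exact h1 s hs
          · rw [List.length_cons, List.length_cons, h2]
          · rw [List.prod_cons, List.prod_cons, ← h3]
            rfl
      obtain ⟨l₀, h1, h2, h3⟩ := hl l e2
      refine ⟨Int.castRingHom L₀ r * l₀.prod, AddSubgroup.subset_closure
        ⟨i, r, l₀, e1, h1, by rw [h2]; exact e3, rfl⟩, ?_⟩
      rw [← h3]
      push_cast
      rw [eq_intCast, eq_intCast]
      push_cast
      rfl
    | zero => exact ⟨0, AddSubgroup.zero_mem _, rfl⟩
    | add x y _ _ hx hy =>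
      obtain ⟨x₀, h1, h2⟩ := hx
      obtain ⟨y₀, h3, h4⟩ := hy
      exact ⟨x₀ + y₀, AddSubgroup.add_mem _ h1 h3, by rw [← h2, ← h4]; rfl⟩
    | neg x _ hx =>
      obtain ⟨x₀, h1, h2⟩ := hx
      exact ⟨-x₀, AddSubgroup.neg_mem _ h1, by rw [← h2]; rfl⟩
  obtain ⟨ψ, hψ⟩ := LinearMap.exists_leftInverse_of_injective (Algebra.linearMap F L₀)
    (LinearMap.ker_eq_bot.2 (algebraMap F L₀).injective)
  obtain ⟨T', c, hT', hc⟩ := fun_gen ψ hT₀f
  refine ⟨T', c, hT', fun n x hx => ?_⟩
  obtain ⟨y₀, h1, h2⟩ := hlift n _ hx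
  have h3 : y₀ = algebraMap F L₀ x := Subtype.ext h2
  have h4 := hc n y₀ h1
  rw [h3] at h4
  have h5 : ψ (algebraMap F L₀ x) = x := by
    have := LinearMap.congr_fun hψ x
    simpa using this
  rwa [h5] at h4

theorem GmS.fn [FiniteDimensional F L] (ψ : L →ₗ[F] F) {S : Type} {f : ℕ → S → L}
    (h : GmS f) : GmS fun m s => ψ (f m s) := by
  obtain ⟨T, c, H, hT, h⟩ := h
  obtain ⟨T', c', hT', hc⟩ := fun_gen ψ hT
  refine ⟨T', c' * (c + 1), H, hT', fun N => ?_⟩
  obtain ⟨q, q0, q1, q2⟩ := h N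
  refine ⟨q, q0, q1, fun m hm s => ?_⟩
  have h1 := hc _ _ (q2 m hm s)
  have e : ψ ((q : L) * f m s) = (q : F) * ψ (f m s) := by
    have e1 : (q : L) * f m s = (q : F) • f m s := by
      rw [Algebra.smul_def, map_natCast]
    rw [e1, map_smul, smul_eq_mul]
  rw [e] at h1
  refine (G T').mono ?_ h1
  rw [mul_assoc]
  refine Nat.mul_le_mul_left _ ?_
  rw [add_mul]
  omega

theorem GmS.desc [Algebra.IsAlgebraic F L] {S : Type} {f : ℕ → S → F}
    (h : GmS fun m s => algebraMap F L (f m s)) : GmS f := by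
  obtain ⟨T, c, H, hT, h⟩ := h
  obtain ⟨T', c', hT', hc⟩ := desc_gen (F := F) hT
  refine ⟨T', c' * (c + 1), H, hT', fun N => ?_⟩
  obtain ⟨q, q0, q1, q2⟩ := h N
  refine ⟨q, q0, q1, fun m hm s => ?_⟩
  have e : (q : L) * algebraMap F L (f m s) = algebraMap F L ((q : F) * f m s) := by
    rw [map_mul, map_natCast]
  have h1 := q2 m hm s
  rw [e] at h1
  have h2 := hc _ _ h1
  refine (G T').mono ?_ h2
  rw [mul_assoc]
  refine Nat.mul_le_mul_left _ ?_
  rw [add_mul]
  omega

end

end Pool.Agent.Helper79.GA
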