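import Pool.Agent.Helper79.GA.Basic

/-!
# GA-13: the places of the projective line

* General construction: let `x₀ ∈ k((z))` be transcendental over `k` (not algebraic over the constants `HahnSeries.C`): for `x₀ = C ρ + single 1 1` resp. `x₀ = single (-1) 1` the values
  `evL x₀ p` (`CU/Defs.lean`) of the polynomials `p ≠ 0` are nonzero (`p(X + ρ)` has a nonzero lowest coefficient; leading coefficient of `p` at `z^(-deg)`).
  `K` is the fraction field of `k[x] ≅ k[X]` (`RatX.tr`, `RatX.quo`), so there is `φ : K →+* k((z))` with `φ (aeval x p) = evL x₀ p` (e.g. `IsFractionRing` of `k[X]` with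
  the algebra structure `aeval x` and `IsFractionRing.lift`, or directly).
* `Plc.const`: `p = C c`. `Plc.pg`: `PG` for polynomials (`PG_evL`, `PG_C`, `PG_single`), quotients by `PG_inv` (`CU/PG.lean`).
* `Plc.der`: put `Z f = z f'`: `(Z F)_n = n F_n` (a derivation of `k((z))`, e.g. `single 1 1 * ld F`, `coeff_ld`, `ld_mul` in `CU/Lau.lean`); `φ (θ f) = Z (φ f)` for `f` constant,
  for `f = x` (`θ x = x - ρ`, `Z x₀ = single 1 1`, resp. `θ x = -x`, `Z (single (-1) 1) = -single (-1) 1`), so for polynomials in `x` and for quotients (Leibniz).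
-/

open Polynomial

namespace Pool.Agent.Helper79.GA

open Pool.Agent.Helper79.CU Pool.Agent.Helper79.SE

section

variable {k K : Type} [Field k] [CharZero k] [Field K] [CharZero K] [Algebra k K] {x : K}
  {D : Derivation ℚ K K}

theorem plcX_frac (h : RatX k x D) {L : Type} [Field L] (g : k[X] →+* L)
    (hg : Function.Injective g) : ∃ φ : K →+* L, ∀ p : k[X], φ (aeval x p) = g p := by
  letI : Algebra k[X] K := (aeval x : k[X] →ₐ[k] K).toRingHom.toAlgebra
  have hinj : Function.Injective (algebraMap k[X] K) := transcendental_iff_injective.1 h.tr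
  haveI : FaithfulSMul k[X] K := (faithfulSMul_iff_algebraMap_injective k[X] K).2 hinj
  haveI : IsFractionRing k[X] K := IsFractionRing.of_field k[X] K fun z => by
    obtain ⟨p, q, _, hz⟩ := h.quo z
    exact ⟨p, q, hz⟩
  exact ⟨IsFractionRing.lift hg, fun p => IsFractionRing.lift_algebraMap hg p⟩

theorem plcX_D (h : RatX k x D) (p : k[X]) : D (aeval x p) = aeval x (derivative p) := by
  induction p using Polynomial.induction_on with
  | C a => rw [aeval_C, h.const, derivative_C, map_zero]
  | add p q hp hq => rw [map_add, map_add, hp, hq, derivative_add, map_add]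
  | monomial n a h1 =>
    have h2 : derivative (C a * X ^ n * X : k[X]) = derivative (C a * X ^ n) * X + C a * X ^ n := by
      rw [derivative_mul (f := C a * X ^ n) (g := X), derivative_X, mul_one]
    rw [pow_succ, ← mul_assoc, h2, map_mul, Derivation.leibniz, h1, aeval_X, h.dx, map_add,
      map_mul (aeval x) (derivative (C a * X ^ n)), aeval_X, smul_eq_mul, smul_eq_mul]
    ring

theorem plcX_coeff (F : LaurentSeries k) (n : ℤ) :
    (HahnSeries.single 1 1 * ld F : LaurentSeries k).coeff n = (n : k) * F.coeff n := by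
  rw [HahnSeries.coeff_single_mul, one_mul, coeff_ld]
  rw [show n - 1 + 1 = n by ring]

theorem plcX_gen (h : RatX k x D) {x₀ : LaurentSeries k}
    (h0 : ∀ p : k[X], evL x₀ p = 0 → p = 0) (hpg : PG x₀) {c : K} {c0 : k[X]}
    (hc : c = aeval x c0) (hz : HahnSeries.single 1 1 * ld x₀ = evL x₀ c0) :
    ∃ φ : K →+* LaurentSeries k, Plc (c • D) φ ∧ φ x = x₀ := by
  obtain ⟨φ, hφ⟩ := plcX_frac h (evL x₀) ((injective_iff_map_eq_zero _).2 h0)
  have hx : φ x = x₀ := by
    have h1 := hφ X
    rwa [aeval_X, evL_X] at h1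
  have hpol : ∀ p : k[X], φ ((c • D) (aeval x p)) = HahnSeries.single 1 1 * ld (φ (aeval x p)) := by
    intro p
    rw [Derivation.smul_apply, plcX_D h, smul_eq_mul, hc, map_mul, hφ, hφ, hφ, ld_evL, ← hz]
    ring
  refine ⟨φ, ⟨fun a => ?_, fun f n => ?_, fun f => ?_⟩, hx⟩
  · have h1 := hφ (C a)
    rwa [aeval_C, evL_C] at h1
  · rw [← plcX_coeff]
    congr 1
    obtain ⟨p, q, hq, hf⟩ := h.quo f
    have h1 : aeval x p = f * aeval x q := by
      rw [hf, div_mul_cancel₀ _ hq]
    have h2 := hpol p
    rw [h1, Derivation.leibniz, map_mul, ld_mul, smul_eq_mul, smul_eq_mul, map_add, map_mul, map_mul,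
      hpol q] at h2
    have h3 : φ (aeval x q) ≠ 0 := (map_ne_zero φ).2 hq
    refine mul_left_cancel₀ h3 ?_
    linear_combination h2
  · obtain ⟨p, q, _, hf⟩ := h.quo f
    rw [hf, map_div₀, hφ, hφ, div_eq_mul_inv]
    exact PG_mul (PG_evL hpg _) (PG_inv (PG_evL hpg _))

theorem plcX_single {e : ℤ} (he : e ≠ 0) {q : k[X]}
    (h : evL (HahnSeries.single e 1 : LaurentSeries k) q = 0) : q = 0 := by
  ext j
  rw [coeff_zero]
  by_cases hj : q.natDegree < j
  · exact coeff_eq_zero_of_natDegree_lt hj
  have h1 : (evL (HahnSeries.single e 1 : LaurentSeries k) q).coeff ((j : ℤ) * e) = 0 := by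
    rw [h]
    rfl
  rw [evL, coe_eval₂RingHom, eval₂_eq_sum_range, HahnSeries.coeff_sum,
    Finset.sum_eq_single j] at h1
  · rw [HahnSeries.single_pow, one_pow, HahnSeries.C_apply, HahnSeries.single_mul_single, zero_add,
      mul_one, HahnSeries.coeff_single, nsmul_eq_mul] at h1
    simpa using h1
  · intro i _ hij
    rw [HahnSeries.single_pow, one_pow, HahnSeries.C_apply, HahnSeries.single_mul_single, zero_add,
      mul_one, HahnSeries.coeff_single, if_neg]
    rw [nsmul_eq_mul]
    intro h2
    exact hij (by exact_mod_cast (mul_right_cancel₀ he h2).symm)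
  · intro h2
    exact absurd (Finset.mem_range.2 (by omega)) h2

theorem plc_fin (h : RatX k x D) (ρ : k) : ∃ φ : K →+* LaurentSeries k,
    Plc ((x - algebraMap k K ρ) • D) φ ∧ φ x = HahnSeries.C ρ + HahnSeries.single 1 1 := by
  refine plcX_gen h (fun p hp => ?_) (PG_add (PG_C ρ) (PG_single 1 1)) (c0 := X - C ρ) ?_ ?_
  · have h1 : evL (HahnSeries.C ρ + HahnSeries.single 1 1 : LaurentSeries k) p =
        evL (HahnSeries.single 1 1) (p.comp (X + C ρ)) := by
      rw [evL, evL, coe_eval₂RingHom, coe_eval₂RingHom, eval₂_comp, eval₂_add, eval₂_X, eval₂_C,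
        add_comm]
    rw [h1] at hp
    have h2 := plcX_single one_ne_zero hp
    have h3 : (p.comp (X + C ρ)).comp (X - C ρ) = 0 := by rw [h2, zero_comp]
    rw [comp_assoc, add_comp, X_comp, C_comp, sub_add_cancel, comp_X] at h3
    exact h3
  · rw [map_sub, aeval_X, aeval_C]
  · rw [ld_add, ld_C, zero_add, ld_single, map_sub, evL_X, evL_C, add_sub_cancel_left,
      HahnSeries.single_mul_single]
    simp

theorem plc_inf (h : RatX k x D) : ∃ φ : K →+* LaurentSeries k,
    Plc ((-x) • D) φ ∧ φ x = HahnSeries.single (-1) 1 := by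
  refine plcX_gen h (fun p hp => plcX_single (by norm_num) hp) (PG_single (-1) 1) (c0 := -X) ?_ ?_
  · rw [map_neg, aeval_X]
  · rw [ld_single, map_neg, evL_X, HahnSeries.single_mul_single]
    simp

end

end Pool.Agent.Helper79.GA
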