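import Pool.Agent.Helper79.GA.Num
import Pool.Agent.Helper79.GA.PlcX
import Pool.Agent.Helper79.GX.KDefs

/-!
# GA-41: tame systems satisfy Galochkin's condition

`betaF`, `GalF` (`GX/KDefs.lean`). By induction on `i`: `aeval u (betaF T A i a b) = (aeval u T)^i * (iter D (A/T) i) a b` (`D (aeval u p) = aeval u p'`; `(i+1) iter_{i+1} = D iter_i + iter_i (A/T)`).
Let `q`, `T' ⊂ K` finite, `c` be as in `TameM`: `q iter_i ∈ (G T').I (c (j+1))` for `i ≤ j`. With `T'' = T' ∪ {T(u)}`: `q T(u)^i iter_i ∈ (G T'').I (c (j+1) + j)`. By `grow` for the place at infinity (`plc_inf`; `φ u = single (-1) 1`) the coefficients of nonpositive index of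
`φ (q T(u)^i iter_i)` belong to `(G T₁).I (c₁ (j+1))`, `T₁ ⊂ κ` finite; but `φ (aeval u p) = ∑_n p_n single (-n) 1`, so these are the numbers `q (betaF T A i a b).coeff n`. `κ` is algebraic over `ℚ`: by `num_gen` there is `M ≥ 1` with
`M^(c₁ (j+1)) q (betaF …).coeff n` integral over `ℤ`. So `H₁ = H M^c₁`.
-/

open Polynomial

namespace Pool.Agent.Helper79.GA

open Pool.Agent.Helper79.CU Pool.Agent.Helper79.SE Pool.Agent.Helper79.GX

private theorem gal_iter {K ι : Type} [Field K] [CharZero K] [Fintype ι] [DecidableEq ι]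
    (D : Derivation ℚ K K) (A : Matrix ι ι K) (m : ℕ) (a b : ι) :
    iter D A (m + 1) a b = (((m + 1 : ℕ) : K)⁻¹) *
      (D (iter D A m a b) + ∑ l, iter D A m a l * A l b) := rfl

private theorem gal_iter0 {K ι : Type} [Field K] [CharZero K] [Fintype ι] [DecidableEq ι]
    (D : Derivation ℚ K K) (A : Matrix ι ι K) : iter D A 0 = 1 := rfl

private theorem gal_beta {κ K ι : Type} [Field κ] [CharZero κ] [Field K]
    [CharZero K] [Algebra κ K] [Fintype ι] [DecidableEq ι] {u : K} {D : Derivation ℚ K K}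
    (h : RatX κ u D) {T : κ[X]} (hT : aeval u T ≠ 0) (A : Matrix ι ι κ[X])
    (A' : Matrix ι ι K) (hA' : ∀ i j, A' i j = aeval u (A i j) / aeval u T) (i : ℕ) :
    ∀ a b, aeval u (betaF T A i a b) = (aeval u T) ^ i * iter D A' i a b := by
  induction i with
  | zero =>
    intro a b
    rw [betaF, gal_iter0, pow_zero, one_mul, Matrix.one_apply, Matrix.one_apply]
    by_cases hab : a = b
    · rw [if_pos hab, if_pos hab, map_one]
    · rw [if_neg hab, if_neg hab, map_zero]
  | succ j ih =>
    intro a b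
    set τ := aeval u T with hτ
    set Y : Matrix ι ι K := iter D A' j with hY
    have e1 : aeval u (betaF T A (j + 1) a b) = ((j + 1 : ℕ) : K)⁻¹ *
        (τ * D (τ ^ j * Y a b) - (j : K) * D τ * (τ ^ j * Y a b) +
          ∑ l, (τ ^ j * Y a l) * aeval u (A l b)) := by
      rw [betaF]
      simp only [Matrix.smul_apply, Matrix.add_apply, Matrix.sub_apply, Matrix.map_apply,
        Matrix.mul_apply, smul_eq_mul, map_mul, map_add, map_sub, map_sum, aeval_C, map_inv₀,
        map_natCast, map_one]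
      have e2 : ∀ l, aeval u (betaF T A j a l) = τ ^ j * Y a l := fun l => ih a l
      have e3 : aeval u (derivative (betaF T A j a b)) = D (τ ^ j * Y a b) := by
        rw [← plcX_D h, e2]
      have e4 : aeval u (derivative T) = D τ := by rw [hτ, plcX_D h]
      rw [e3, e4]
      simp only [e2]
      push_cast
      rfl
    have e5 : τ * D (τ ^ j) = (j : K) * τ ^ j * D τ := by
      rcases j with _ | j
      · simp
      · rw [Derivation.leibniz_pow]
        simp only [smul_eq_mul, nsmul_eq_mul, Nat.add_sub_cancel]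
        ring
    rw [e1, gal_iter, ← hY, Derivation.leibniz]
    simp only [smul_eq_mul]
    have e6 : ∑ l, τ ^ j * Y a l * aeval u (A l b) =
        τ ^ (j + 1) * ∑ l, Y a l * A' l b := by
      rw [Finset.mul_sum]
      refine Finset.sum_congr rfl fun l _ => ?_
      rw [pow_succ, hA']
      field_simp
    rw [e6]
    have e7 : τ * (τ ^ j * D (Y a b) + Y a b * D (τ ^ j)) - (j : K) * D τ * (τ ^ j * Y a b) =
        τ ^ (j + 1) * D (Y a b) := by
      rw [pow_succ]
      linear_combination (Y a b) * e5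
    rw [e7]
    ring

private theorem gal_coeff {κ K : Type} [Field κ] [CharZero κ] [Field K]
    [CharZero K] [Algebra κ K] {u : K} {D : Derivation ℚ K K} {φ : K →+* LaurentSeries κ}
    (hφ : Plc D φ) (hu : φ u = HahnSeries.single (-1) 1) (q : κ[X]) (j : ℕ) :
    (φ (aeval u q)).coeff (-(j : ℤ)) = q.coeff j := by
  rw [aeval_eq_sum_range, map_sum, HahnSeries.coeff_sum]
  have e1 : ∀ i, (φ (q.coeff i • u ^ i)).coeff (-(j : ℤ)) = if i = j then q.coeff i else 0 := by
    intro i
    rw [Algebra.smul_def, map_mul, map_pow, hφ.const, hu, HahnSeries.single_pow, one_pow,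
      HahnSeries.C_apply, HahnSeries.single_mul_single, zero_add, mul_one, HahnSeries.coeff_single,
      nsmul_eq_mul, mul_neg, mul_one]
    by_cases hij : i = j
    · rw [if_pos (by rw [hij]), if_pos hij]
    · rw [if_neg (by omega), if_neg hij]
  simp only [e1]
  by_cases hj : j < q.natDegree + 1
  · rw [Finset.sum_ite_eq' (Finset.range (q.natDegree + 1)) j, if_pos (Finset.mem_range.mpr hj)]
  · rw [coeff_eq_zero_of_natDegree_lt (by omega)]
    refine Finset.sum_eq_zero fun i hi => ?_
    rw [Finset.mem_range] at hi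
    rw [if_neg (by omega)]

theorem gal_tame {κ K ι : Type} [Field κ] [CharZero κ] [Algebra.IsAlgebraic ℚ κ] [Field K]
    [CharZero K] [Algebra κ K] [Fintype ι] [DecidableEq ι] {u : K} {D : Derivation ℚ K K}
    (h : RatX κ u D) {T : κ[X]} (hT : T ≠ 0) {A : Matrix ι ι κ[X]}
    (ht : TameM D (fun i j => aeval u (A i j) / aeval u T)) : ∃ H : ℕ, GalF T A H := by
  have hτ0 : aeval u T ≠ 0 := by
    intro h0
    exact hT ((transcendental_iff.mp h.tr) T h0)
  obtain ⟨T', c, H, hT', hq⟩ := ht
  obtain ⟨φ, hplc, hφu⟩ := plc_inf h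
  set T2 : Set K := insert (aeval u T) T' with hT2
  obtain ⟨T1, E, s, hT1, hE, hs, hg⟩ := grow hplc.pg (hT'.insert (aeval u T))
  obtain ⟨M, hM, hgen⟩ := num_gen hT1
  refine ⟨M ^ (E * (2 * ((c + 1) * s))) * H, fun N => ?_⟩
  obtain ⟨q, q0, q1, q2⟩ := hq N
  refine ⟨M ^ (E * (2 * ((c + 1) * s)) * (N + 1)) * q, Nat.mul_pos (Nat.pow_pos (by omega)) q0, ?_,
    fun i hi a b n => ?_⟩
  · rw [mul_pow, ← pow_mul]
    exact Nat.mul_le_mul_left _ q1
  · have h1 : (q : K) * aeval u (betaF T A i a b) ∈ (G T2).I ((c + 1) * (N + 1)) := by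
      rw [gal_beta h hτ0 A (fun i j => aeval u (A i j) / aeval u T) fun _ _ => rfl]
      have h2 := G_mono (Set.subset_insert (aeval u T) T') le_rfl (q2 i hi (a, b))
      have h3 := G_pow (G_mem (Set.mem_insert (aeval u T) T')) i
      have h4 := (G T2).mul h3 h2
      have h5 : (q : K) * (aeval u T ^ i * iter D (fun i j => aeval u (A i j) / aeval u T) i a b) =
          aeval u T ^ i * ((q : K) * iter D (fun i j => aeval u (A i j) / aeval u T) i a b) := by
        ring
      rw [h5]
      refine (G T2).mono ?_ h4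
      nlinarith
    have h6 := (hg _ _ h1 (-(n : ℤ))).2
    rw [map_mul, map_natCast] at h6
    have h7 : ((q : LaurentSeries κ) * φ (aeval u (betaF T A i a b))).coeff (-(n : ℤ)) =
        (q : κ) * (betaF T A i a b).coeff n := by
      have h8 : (q : LaurentSeries κ) = HahnSeries.C (q : κ) := by rw [map_natCast]
      rw [h8, HahnSeries.C_apply, HahnSeries.coeff_single_zero_mul, gal_coeff hplc hφu]
    rw [h7] at h6
    have h9 : (E * (2 * ((c + 1) * s)) * (N + 1)) =
        E * (2 * ((c + 1) * (N + 1) * s)) := by ring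
    have h10 : (q : κ) * (betaF T A i a b).coeff n ∈
        (G T1).I (E * (2 * ((c + 1) * s)) * (N + 1)) := by
      refine (G T1).mono ?_ h6
      rw [h9]
      refine Int.toNat_le.mpr ?_
      push_cast
      refine mul_le_mul_of_nonneg_left ?_ (Int.natCast_nonneg E)
      have : (0 : ℤ) ≤ n := Int.natCast_nonneg n
      linarith
    have h11 := hgen _ _ (Algebra.IsAlgebraic.isAlgebraic (R := ℚ) _) h10
    have h12 : (((M ^ (E * (2 * ((c + 1) * s)) * (N + 1)) * q : ℕ)) : κ) *
        (betaF T A i a b).coeff n = (M : κ) ^ (E * (2 * ((c + 1) * s)) * (N + 1)) *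
          ((q : κ) * (betaF T A i a b).coeff n) := by
      push_cast
      ring
    rw [h12]
    exact h11

end Pool.Agent.Helper79.GA
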