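import Pool.Agent.Helper79.CU.StatC

/-!
# GA: definitions for the statement of the theorem on all families

`k` is a field (a number field with an embedding in `ℂ`), `t = x_0` the parameter of the family.
-/

open Polynomial

namespace Pool.Agent.Helper79.GA

open Pool.Agent.Helper79.CU

/-- A family of varieties of dimension `d` over `k` with a basis of a Gauss-Manin stable part of its
de Rham cohomology in degree `d`.

`L` is the function field of the total space of the family, `x_0 = t` the parameter, `x_1, …, x_d` local
coordinates of the fibres (a separating transcendence basis): `L` is finite over `k(x_0, …, x_d)`, and `D_i` is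
the extension of `∂/∂x_i` to `L`. The differential forms of degree `d` relative to `t` are
`f dx_1 ∧ … ∧ dx_d`, `f ∈ L`, and the exact ones are those with `f ∈ D_1 L + … + D_d L`.
`gm`: `T(t) D_0 ω_l = ∑ A_lm(t) ω_m + ∑ D_j g_lj`: the span of the classes of the forms
`ω_l dx_1 ∧ … ∧ dx_d` is stable under the Gauss-Manin connection, with matrix `A / T`.
`ind`: their classes are linearly independent over `k(t)`. -/
structure FunctionForms (k L : Type) [Field k] [Field L] [Algebra k L] (T : k[X]) (d : ℕ)
    (ι : Type) [Fintype ι] where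
  /-- the coordinates -/
  x : Fin (d + 1) → L
  /-- the partial derivatives -/
  D : Fin (d + 1) → Derivation k L L
  /-- the forms -/
  ω : ι → L
  /-- the functions in `gm` -/
  g : ι → Fin d → L
  /-- the numerator of the matrix of the Gauss-Manin connection -/
  A : Matrix ι ι k[X]
  indep : AlgebraicIndependent k x
  finite : FiniteDimensional (IntermediateField.adjoin k (Set.range x)) L
  D_x : ∀ i j, D i (x j) = if i = j then 1 else 0
  gm : ∀ l, aeval (x 0) T * D 0 (ω l) =
    ∑ m, aeval (x 0) (A l m) * ω m + ∑ j : Fin d, D j.succ (g l j)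
  ind : ∀ c : ι → k[X], (∃ u : Fin d → L,
    ∑ l, aeval (x 0) (c l) * ω l = ∑ j : Fin d, D j.succ (u j)) → c = 0

/-- A sub-connection of the `r`-th tensor power of the connection with matrix `A / T`, given by the rows
of `M` (linearly independent over `k(t)`), with matrix `B / T`. The rows have indices `(l, a)`,
`l < μ`: they are the elements `w^l ω_a` of the push-forward to the `t`-line of a connection with
basis `ω_a` over a curve of degree `μ` over the line, `w` a coordinate of this curve. -/
structure SubTensor {k : Type} [Field k] {ι₀ : Type} [Fintype ι₀] [DecidableEq ι₀] (T : k[X])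
    (A : Matrix ι₀ ι₀ k[X]) (μ r : ℕ) (ι : Type) [Fintype ι] [DecidableEq ι] where
  /-- the elements of the tensor power -/
  M : Matrix (Fin μ × ι) (Fin r → ι₀) k[X]
  /-- the numerator of the matrix of the sub-connection -/
  B : Matrix (Fin μ × ι) (Fin μ × ι) k[X]
  stable : ∀ p I, T * derivative (M p I) + (M * tens r A) p I = (B * M) p I
  ind : ∀ f : Fin μ × ι → k[X], Matrix.vecMul f M = 0 → f = 0

/-- The Moebius transformation `g(u) = (a u + b) / (c u + e)`. -/
noncomputable def mobv {k K : Type} [Field k] [Field K] [Algebra k K] (a b c e : k) (u : K) : K :=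
  (algebraMap k K a * u + algebraMap k K b) / (algebraMap k K c * u + algebraMap k K e)

section

variable {k : Type} [Field k] [Algebra k ℂ]

/-- `V` is a matrix of solutions of the Picard-Fuchs system `T V' = A V` on `U` (for example the
matrix of the integrals of the forms over locally constant cycles). -/
def IsSolution {ι₀ : Type} [Fintype ι₀] (T : k[X]) (A : Matrix ι₀ ι₀ k[X]) {g : ℕ} (U : Set ℂ)
    (V : ℂ → Matrix ι₀ (Fin g) ℂ) : Prop :=
  ∀ t ∈ U, ∀ i j, DifferentiableAt ℂ (fun t => V t i j) t ∧
    aeval t T * deriv (fun t => V t i j) t = ∑ l, aeval t (A i l) * V t l j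

/-- `P` is a matrix of periods of the sub-connection along the branch `t ↦ (t, w t)`, `t ∈ U`: the
functions `w^l P_{ab}` are `(M V^{⊗r} c)_{(l, a), b}` for a matrix `V` of solutions and a constant
matrix `c` (which expresses cycles by tensors of cycles). -/
def IsPeriodST {ι₀ : Type} [Fintype ι₀] [DecidableEq ι₀] {T : k[X]} {A : Matrix ι₀ ι₀ k[X]}
    {μ r : ℕ} {ι : Type} [Fintype ι] [DecidableEq ι] (E : SubTensor T A μ r ι) (U : Set ℂ)
    (w : ℂ → ℂ) (P : ℂ → Matrix ι ι ℂ) : Prop :=
  ∃ (g : ℕ) (V : ℂ → Matrix ι₀ (Fin g) ℂ) (c : Matrix (Fin r → Fin g) ι ℂ),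
    IsSolution T A U V ∧ ∀ t ∈ U, ∀ (l : Fin μ) (a b : ι),
      w t ^ (l : ℕ) * P t a b = ∑ I, aeval t (E.M (l, a) I) * (tpow r (V t) * c) I b

end

end Pool.Agent.Helper79.GA
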