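import Pool.Agent.Helper79.GA.Fib
import Pool.Agent.Helper79.GA.StatG

/-!
# GA-31: Moebius transformations of the parameter

`t = x_0 = g(u)`, `g(u) = (a u + b)/(c u + e)`, `Δ₀ = a e - b c ≠ 0`. In `L` put `u = (e t - b)/(a - c t)` (`t` is transcendental over `κ`, so `a - c t ≠ 0`: `a`, `c` are not both `0`); then `c u + e = Δ₀/(a - c t) ≠ 0`, `t = g(u)`.
Apply `fib_tame` to the following data in `L`:
* `x' = (u, x_1, …, x_d)` (`Function.update x 0 u` or `Fin.cons`): algebraically independent over `κ` (it generates the same field over `κ` as `x`, since `t ∈ κ(u)`, and the transcendence degree is `d + 1`; or: `κ(u) = κ(t)` and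
  independence of `x_1, …, x_d` over `κ(t)`; or: a polynomial relation in `u` gives, after multiplication by a power of `a - c t`, one in `t`, nonzero), `κ(x') = κ(x)`.
* `D'_0 = g'(u) • D_0`, `g'(u) = Δ₀/(c u + e)²`, `D'_j = D_j` for `j ≥ 1`: `D_0 t = 1` and `t = g(u)` give `g'(u) D_0 u = 1`; `D_j u = 0` for `j ≥ 1`, `D'_0 x_j = 0`.
* `N` larger than the degrees of `T` and of all `A l m`; for a polynomial `p` of degree `≤ N` let `p~(X) = ∑ p_i (a X + b)^i (c X + e)^(N - i)`, so that `p~(u) = (c u + e)^N p(g(u))`. Put `T' = (c X + e)² T~`, `A' = Δ₀ A~`, `g'_lj = Δ₀ (c u + e)^N g_lj`: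
  `T'(u) D'_0 ω_l = Δ₀ (c u + e)^N T(t) D_0 ω_l = ∑ A'_lm(u) ω_m + ∑ D_j (g'_lj)` (`D_j u = 0`). `T' ≠ 0`.
* `ind`: if `∑ c_l(u) ω_l = ∑ D_j v_j`, multiply by `(a - c t)^M`: `(a - c t)^M c_l(u) = ĉ_l(t)` with polynomials `ĉ_l` (`u = (e t - b)/(a - c t)`), `D_j ((a - c t)^M v_j) = (a - c t)^M D_j v_j`, so `ĉ_l = 0`, `c_l(u) = 0`, and `c_l = 0` since `u` is transcendental.
The result of `fib_tame` is `K`, `u` (called `t` there), `D₀` and `TameM` of `A'(u)/T'(u) = Δ₀ A~(u)/((c u + e)² T~(u)) = (Δ₀/(c u + e)²) · A(g(u))/T(g(u))` (`c u + e ≠ 0` in `K` since `u` is transcendental over `κ`).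
-/

open Polynomial

namespace Pool.Agent.Helper79.GA

open Pool.Agent.Helper79.CU Pool.Agent.Helper79.SE

/-- `g'(u) = (a e - b c)/(c u + e)²`. -/
noncomputable def mobd {κ K : Type} [Field κ] [Field K] [Algebra κ K] (a b c e : κ) (u : K) : K :=
  algebraMap κ K (a * e - b * c) / (algebraMap κ K c * u + algebraMap κ K e) ^ 2

theorem Mob_lin {κ F : Type} [Field κ] [Field F] [Algebra κ F] {v : F} (hv : Transcendental κ v)
    {p q : κ} (h : ¬ (p = 0 ∧ q = 0)) : algebraMap κ F p * v + algebraMap κ F q ≠ 0 := by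
  intro h0
  have h1 : aeval v (C p * X + C q) = 0 := by
    rw [map_add, map_mul, aeval_C, aeval_C, aeval_X]
    exact h0
  have h2 := transcendental_iff.mp hv _ h1
  refine h ⟨?_, ?_⟩
  · have := congrArg (fun f => coeff f 1) h2
    simpa using this
  · have := congrArg (fun f => coeff f 0) h2
    simpa using this

/-- `(c X + e)^N p(g(X))`. -/
noncomputable def Mob_h {κ : Type} [Field κ] (a b c e : κ) (N : ℕ) (p : κ[X]) : κ[X] :=
  ∑ i ∈ Finset.range (N + 1), C (p.coeff i) * (C a * X + C b) ^ i * (C c * X + C e) ^ (N - i)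

theorem Mob_h_aeval {κ F : Type} [Field κ] [Field F] [Algebra κ F] {a b c e : κ} {v : F}
    (hw : algebraMap κ F c * v + algebraMap κ F e ≠ 0) {N : ℕ} {p : κ[X]}
    (hp : p.natDegree ≤ N) : aeval v (Mob_h a b c e N p) =
      (algebraMap κ F c * v + algebraMap κ F e) ^ N * aeval (mobv a b c e v) p := by
  rw [Mob_h, map_sum, aeval_eq_sum_range' (Nat.lt_succ_of_le hp), Finset.mul_sum]
  refine Finset.sum_congr rfl fun i hi => ?_
  have hi' : i ≤ N := Nat.lt_succ_iff.mp (Finset.mem_range.mp hi)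
  simp only [map_mul, map_pow, map_add, aeval_C, aeval_X, Algebra.smul_def, mobv]
  set w := algebraMap κ F c * v + algebraMap κ F e with hwd
  have h1 : w ^ N = w ^ i * w ^ (N - i) := by rw [← pow_add]; congr 1; omega
  rw [h1, div_pow]
  field_simp

theorem Mob_alg {κ L : Type} [Field κ] [Field L] [Algebra κ L] (F : IntermediateField κ L)
    {v : L} (hv : IsAlgebraic F v) (a b c e : κ) : IsAlgebraic F (mobv a b c e v) := by
  have h : ∀ z : κ, IsAlgebraic F (algebraMap κ L z) := fun z =>
    isAlgebraic_algebraMap (R := F) (algebraMap κ F z)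
  rw [mobv, div_eq_mul_inv]
  exact (((h a).mul hv).add (h b)).mul (((h c).mul hv).add (h e)).inv

theorem Mob_mem {κ L : Type} [Field κ] [Field L] [Algebra κ L] (F : IntermediateField κ L)
    {v : L} (hv : v ∈ F) (a b c e : κ) : mobv a b c e v ∈ F :=
  div_mem (add_mem (mul_mem (algebraMap_mem F a) hv) (algebraMap_mem F b))
    (add_mem (mul_mem (algebraMap_mem F c) hv) (algebraMap_mem F e))

theorem Mob_der {κ L : Type} [Field κ] [Field L] [Algebra κ L] (D : Derivation κ L L)
    (a b c e : κ) {v : L} (hw : algebraMap κ L c * v + algebraMap κ L e ≠ 0) :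
    D (mobv a b c e v) = mobd a b c e v * D v := by
  rw [mobv, mobd, Derivation.leibniz_div]
  simp only [map_add, Derivation.leibniz, Derivation.map_algebraMap, smul_eq_mul, mul_zero,
    add_zero, map_sub, map_mul]
  field_simp
  ring

theorem Mob_deg {κ ι : Type} [Field κ] [Fintype ι] (f : ι → κ[X]) :
    ∃ N, ∀ i, (f i).natDegree ≤ N :=
  ⟨∑ i, (f i).natDegree, fun i => Finset.single_le_sum (f := fun i => (f i).natDegree)
    (fun _ _ => Nat.zero_le _) (Finset.mem_univ i)⟩

theorem Mob_indep {κ L : Type} [Field κ] [Field L] [Algebra κ L] {d : ℕ} {x : Fin (d + 1) → L}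
    (hx : AlgebraicIndependent κ x) (u : L) (a b c e : κ) (hu : mobv a b c e u = x 0) :
    AlgebraicIndependent κ (Fin.cons u (fun j => x j.succ) : Fin (d + 1) → L) := by
  have h1 : AlgebraicIndependent κ (fun j : Fin d => x j.succ) :=
    hx.comp _ (Fin.succ_injective d)
  have h2 := hx.transcendental_adjoin (s := Set.range Fin.succ) (i := 0) (by
    rintro ⟨j, hj⟩
    exact Fin.succ_ne_zero j hj)
  rw [← Set.range_comp] at h2
  have h3 := IntermediateField.transcendental_adjoin_iff.mpr h2
  have h4 : Transcendental (IntermediateField.adjoin κ (Set.range (x ∘ Fin.succ))) u := by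
    intro h
    apply h3
    rw [← hu]
    exact Mob_alg _ h a b c e
  have h5 := IntermediateField.transcendental_adjoin_iff.mp h4
  have h6 := (h1.option_iff_transcendental u).mpr h5
  have h7 := h6.comp (finSuccEquiv d) (finSuccEquiv d).injective
  convert h7 using 1
  funext j
  refine Fin.cases ?_ (fun j => ?_) j
  · simp
  · simp

theorem mob_tame {κ L : Type} [Field κ] [CharZero κ] [Field L] [CharZero L] [Algebra κ L]
    {d : ℕ} {x : Fin (d + 1) → L} (hx : AlgebraicIndependent κ x)
    (hfin : FiniteDimensional (IntermediateField.adjoin κ (Set.range x)) L)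
    {D : Fin (d + 1) → Derivation κ L L} (hD : ∀ i j, D i (x j) = if i = j then 1 else 0)
    {ι : Type} [Fintype ι] [DecidableEq ι] {ω : ι → L} {g : ι → Fin d → L} {T : κ[X]}
    (hT : T ≠ 0) {A : Matrix ι ι κ[X]}
    (gm : ∀ l, aeval (x 0) T * D 0 (ω l) =
      ∑ m, aeval (x 0) (A l m) * ω m + ∑ j : Fin d, D j.succ (g l j))
    (ind : ∀ c : ι → κ[X], (∃ u : Fin d → L,
      ∑ l, aeval (x 0) (c l) * ω l = ∑ j : Fin d, D j.succ (u j)) → c = 0)
    {a b c e : κ} (h : a * e - b * c ≠ 0) :
    ∃ (K : Type) (_ : Field K) (_ : CharZero K) (_ : Algebra κ K) (u : K)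
      (D₀ : Derivation ℚ K K), RatX κ u D₀ ∧
        TameM D₀ (fun i j => mobd a b c e u *
          (aeval (mobv a b c e u) (A i j) / aeval (mobv a b c e u) T)) := by
  have ht : Transcendental κ (x 0) := hx.transcendental 0
  have hca : ¬ (-c = 0 ∧ a = 0) := by
    rintro ⟨h1, h2⟩
    rw [neg_eq_zero] at h1
    apply h
    rw [h1, h2]
    ring
  have hce : ¬ (c = 0 ∧ e = 0) := by
    rintro ⟨h1, h2⟩
    apply h
    rw [h1, h2]
    ring
  have hP : algebraMap κ L (-c) * x 0 + algebraMap κ L a ≠ 0 := Mob_lin ht hca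
  have hΔ : algebraMap κ L (a * e - b * c) ≠ 0 := by
    rw [Ne, map_eq_zero]
    exact h
  obtain ⟨u, hu⟩ : ∃ u, u = mobv e (-b) (-c) a (x 0) := ⟨_, rfl⟩
  have hw1 : algebraMap κ L c * u + algebraMap κ L e =
      algebraMap κ L (a * e - b * c) / (algebraMap κ L (-c) * x 0 + algebraMap κ L a) := by
    rw [hu, mobv, eq_div_iff hP, add_mul, mul_assoc, div_mul_cancel₀ _ hP]
    simp only [map_neg, map_sub, map_mul]
    ring
  have hw : algebraMap κ L c * u + algebraMap κ L e ≠ 0 := by
    rw [hw1]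
    exact div_ne_zero hΔ hP
  have hw2 : algebraMap κ L a * u + algebraMap κ L b =
      algebraMap κ L (a * e - b * c) * x 0 /
        (algebraMap κ L (-c) * x 0 + algebraMap κ L a) := by
    rw [hu, mobv, eq_div_iff hP, add_mul, mul_assoc, div_mul_cancel₀ _ hP]
    simp only [map_neg, map_sub, map_mul]
    ring
  have hut : mobv a b c e u = x 0 := by
    rw [mobv, hw1, hw2, div_div_div_cancel_right₀ hP, mul_div_cancel_left₀ _ hΔ]
  have htu : Transcendental κ u := by
    intro h1
    apply ht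
    rw [← hut]
    have h2 : ∀ z : κ, IsAlgebraic κ (algebraMap κ L z) := fun z => isAlgebraic_algebraMap z
    rw [mobv, div_eq_mul_inv]
    exact (((h2 a).mul h1).add (h2 b)).mul (((h2 c).mul h1).add (h2 e)).inv
  have hDj : ∀ j : Fin d, D j.succ (x 0) = 0 := fun j => by
    rw [hD, if_neg (Fin.succ_ne_zero j)]
  have hDu : ∀ j : Fin d, D j.succ u = 0 := fun j => by
    rw [hu, Mob_der _ _ _ _ _ hP, hDj, mul_zero]
  have hconst : ∀ (j : Fin d) (p : κ[X]), D j.succ (aeval u p) = 0 := fun j p => by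
    rw [Derivation.map_aeval, hDu, smul_zero]
  have hconst' : ∀ (j : Fin d) (p : κ[X]), D j.succ (aeval (x 0) p) = 0 := fun j p => by
    rw [Derivation.map_aeval, hDj, smul_zero]
  obtain ⟨N₁, hN₁⟩ := Mob_deg (fun p : ι × ι => A p.1 p.2)
  obtain ⟨N, hNA, hNT⟩ : ∃ N, (∀ i j, (A i j).natDegree ≤ N) ∧ T.natDegree ≤ N :=
    ⟨N₁ + T.natDegree, fun i j => (hN₁ (i, j)).trans (Nat.le_add_right _ _),
      Nat.le_add_left _ _⟩
  have hT' : ((C c * X + C e) ^ 2 * Mob_h a b c e N T : κ[X]) ≠ 0 := by
    intro h0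
    have h1 : aeval u ((C c * X + C e) ^ 2 * Mob_h a b c e N T : κ[X]) = 0 := by
      rw [h0, map_zero]
    rw [map_mul, Mob_h_aeval hw hNT, map_pow, map_add, map_mul, aeval_C, aeval_C, aeval_X,
      hut] at h1
    exact mul_ne_zero (pow_ne_zero _ hw) (mul_ne_zero (pow_ne_zero _ hw)
      (fun h2 => hT (transcendental_iff.mp ht _ h2))) h1
  have hmob : mobd a b c e u * D 0 u = 1 := by
    have h1 := Mob_der (D 0) a b c e hw
    rw [hut, hD, if_pos rfl] at h1
    exact h1.symm
  have hgm : ∀ l, aeval u ((C c * X + C e) ^ 2 * Mob_h a b c e N T : κ[X]) *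
      (mobd a b c e u • D 0) (ω l) =
      ∑ m, aeval u (C (a * e - b * c) * Mob_h a b c e N (A l m)) * ω m +
        ∑ j : Fin d, D j.succ
          (aeval u (C (a * e - b * c) * (C c * X + C e) ^ N : κ[X]) * g l j) := by
    intro l
    have h1 : ∀ j : Fin d, D j.succ
        (aeval u (C (a * e - b * c) * (C c * X + C e) ^ N : κ[X]) * g l j) =
        algebraMap κ L (a * e - b * c) * (algebraMap κ L c * u + algebraMap κ L e) ^ N *
          D j.succ (g l j) := by
      intro j
      rw [Derivation.leibniz, hconst, smul_zero, add_zero, smul_eq_mul]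
      simp only [map_mul, map_pow, map_add, aeval_C, aeval_X]
    rw [Finset.sum_congr rfl fun j _ => h1 j, ← Finset.mul_sum]
    have h2 : ∀ m, aeval u (C (a * e - b * c) * Mob_h a b c e N (A l m)) * ω m =
        algebraMap κ L (a * e - b * c) * (algebraMap κ L c * u + algebraMap κ L e) ^ N *
          (aeval (x 0) (A l m) * ω m) := by
      intro m
      rw [map_mul, aeval_C, Mob_h_aeval hw (hNA l m), hut]
      ring
    rw [Finset.sum_congr rfl fun m _ => h2 m, ← Finset.mul_sum, ← mul_add, ← gm l, map_mul,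
      Mob_h_aeval hw hNT, hut, Derivation.smul_apply, smul_eq_mul, mobd, map_pow, map_add,
      map_mul, aeval_C, aeval_C, aeval_X]
    field_simp
  have hind : ∀ c' : ι → κ[X], (∃ v : Fin d → L,
      ∑ l, aeval u (c' l) * ω l = ∑ j : Fin d, D j.succ (v j)) → c' = 0 := by
    rintro c' ⟨v, hv⟩
    obtain ⟨M, hM⟩ := Mob_deg c'
    have h1 : ∀ l, aeval (x 0) (Mob_h e (-b) (-c) a M (c' l)) =
        (algebraMap κ L (-c) * x 0 + algebraMap κ L a) ^ M * aeval u (c' l) := by
      intro l
      rw [Mob_h_aeval hP (hM l), ← hu]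
    have h2 := ind (fun l => Mob_h e (-b) (-c) a M (c' l))
      ⟨fun j => aeval (x 0) ((C (-c) * X + C a) ^ M : κ[X]) * v j, by
        rw [Finset.sum_congr rfl fun l _ => by rw [h1 l, mul_assoc], ← Finset.mul_sum, hv,
          Finset.mul_sum]
        refine Finset.sum_congr rfl fun j _ => ?_
        rw [Derivation.leibniz, hconst', smul_zero, add_zero, smul_eq_mul]
        simp only [map_mul, map_pow, map_add, aeval_C, aeval_X]⟩
    funext l
    have h3 := h1 l
    rw [show Mob_h e (-b) (-c) a M (c' l) = 0 from congrFun h2 l, map_zero] at h3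
    have h4 : aeval u (c' l) = 0 := by
      rcases mul_eq_zero.mp h3.symm with h5 | h5
      · exact absurd h5 (pow_ne_zero _ hP)
      · exact h5
    exact transcendental_iff.mp htu _ h4
  have hrange : IntermediateField.adjoin κ
      (Set.range (Fin.cons u (fun j => x j.succ) : Fin (d + 1) → L)) =
      IntermediateField.adjoin κ (Set.range x) := by
    apply le_antisymm
    · rw [IntermediateField.adjoin_le_iff]
      rintro _ ⟨j, rfl⟩
      refine Fin.cases ?_ (fun j => ?_) j
      · change u ∈ IntermediateField.adjoin κ (Set.range x)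
        have h1 : x 0 ∈ IntermediateField.adjoin κ (Set.range x) :=
          IntermediateField.subset_adjoin _ _ ⟨0, rfl⟩
        rw [hu]
        exact Mob_mem _ h1 _ _ _ _
      · exact IntermediateField.subset_adjoin _ _ ⟨j.succ, rfl⟩
    · rw [IntermediateField.adjoin_le_iff]
      rintro _ ⟨j, rfl⟩
      refine Fin.cases ?_ (fun j => ?_) j
      · have h1 : u ∈ IntermediateField.adjoin κ
            (Set.range (Fin.cons u (fun j => x j.succ) : Fin (d + 1) → L)) :=
          IntermediateField.subset_adjoin _ _ ⟨0, rfl⟩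
        have h2 := Mob_mem _ h1 a b c e
        rw [hut] at h2
        exact h2
      · exact IntermediateField.subset_adjoin _ _ ⟨j.succ, rfl⟩
  obtain ⟨K, fK, cK, aK, v, D₀, hr, htame⟩ := fib_tame
    (x := (Fin.cons u (fun j => x j.succ) : Fin (d + 1) → L))
    (Mob_indep hx u a b c e hut) (by rw [hrange]; exact hfin)
    (D := (Fin.cons (mobd a b c e u • D 0) (fun j => D j.succ) :
      Fin (d + 1) → Derivation κ L L)) (by
      intro i j
      refine Fin.cases ?_ (fun i => ?_) i
      · refine Fin.cases ?_ (fun j => ?_) j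
        · rw [if_pos rfl]
          exact hmob
        · rw [if_neg (Fin.succ_ne_zero j).symm]
          change mobd a b c e u • D 0 (x j.succ) = 0
          rw [hD, if_neg (Fin.succ_ne_zero j).symm, smul_zero]
      · refine Fin.cases ?_ (fun j => ?_) j
        · rw [if_neg (Fin.succ_ne_zero i)]
          exact hDu i
        · change D i.succ (x j.succ) = _
          rw [hD])
    hT' (A := Matrix.of fun l m => C (a * e - b * c) * Mob_h a b c e N (A l m))
    (ω := ω) (g := fun l j =>
      aeval u (C (a * e - b * c) * (C c * X + C e) ^ N : κ[X]) * g l j) hgm hind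
  refine ⟨K, fK, cK, aK, v, D₀, hr, ?_⟩
  convert htame using 1
  funext i j
  have hwK : algebraMap κ K c * v + algebraMap κ K e ≠ 0 := Mob_lin hr.tr hce
  rw [Matrix.of_apply, map_mul, aeval_C, Mob_h_aeval hwK (hNA i j), map_mul,
    Mob_h_aeval hwK hNT, map_pow, map_add, map_mul, aeval_C, aeval_C, aeval_X, mobd,
    mul_div_mul_comm, mul_div_mul_left _ _ (pow_ne_zero N hwK)]

end Pool.Agent.Helper79.GA
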