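import Pool.Agent.Helper79.GA.PF

/-!
# GA-17: extension of the constants to a splitting field

`k' = (δ : k[X]).SplittingField` (finite over `k`). `K' = FractionRing k'[X]` with `Algebra k' K'`, `x' = X`, the derivation `D' = d/dX` (extension of the derivation of `k'[X]` to the fraction field; see how other files of the
team do it, or `Derivation.liftOfRightInverse`/quotient rule/`Derivation` on localizations in Mathlib; `RatFunc` is another possible model), `K → K'` the homomorphism with `x ↦ X`, `k → k'`: `K` is the fraction field of `k[x] ≅ k[X]` (`h.tr`, `h.quo`).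
* `RatX k' x' D'`: clear. `D' (algebraMap f) = algebraMap (D f)`: both sides are derivations `K → K'` which agree on `k` and `x`, so on `p(x)` and on quotients.
* Let `β_1 = 1, …, β_r` be a basis of `k'` over `k` (containing `1`). Its image in `K'` is a basis of `K'` over `K`: independent (clear denominators, then compare the coefficients of the powers of `X`);
  the span over `K` is a subring containing `k'` and `X`, a domain of finite dimension over the field `K`, so a field: everything. (Alternative for the spanning: for `q ∈ k'[X]`, `q ≠ 0`, there is `q* ∈ k'[X]` with `q q* ∈ k[X]`, `q q* ≠ 0`.)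
  `Λ₀ : k' → k` the coordinate of `β_1 = 1` and `Λ : K' → K` the coordinate of `β_1 = 1`. Then `Λ (c') = Λ₀ c'` for `c' ∈ k'`, and `Λ D' = D Λ`: for `f = ∑ f_i β_i`, `D' f = ∑ D(f_i) β_i`.
* The last statement: over `k'`, `δ = u ∏ (X - ρ)^(m_ρ)`, `m_ρ ≥ 1`, `S` = set of the roots; `f ∈ Od x' (∏_{ρ∈S} (X - ρ))` iff (`mem_Od`) `f = p(x') ∏ (x' - ρ)^(-m)`, iff `f = p(x') δ(x')^(-m)` for some `p`, `m` (multiply by suitable powers:
  `∏ (X - ρ)` divides `δ`, which divides a power of it).
-/

open Polynomial

namespace Pool.Agent.Helper79.GA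

open Pool.Agent.Helper79.CU Pool.Agent.Helper79.SE

/-- Extension of a derivation of a domain to its fraction field. -/
theorem frac_ext {k A F : Type} [Field k] [CommRing A] [Field F] [Algebra k A] [Algebra k F]
    [Algebra A F] [IsScalarTower k A F] [IsDomain A] [IsFractionRing A F] (d : Derivation k A F) :
    ∃ D' : Derivation k F F, ∀ a, D' (algebraMap A F a) = d a := by
  have hE : Algebra.FormallyEtale A F := .of_isLocalization (nonZeroDivisors A)
  let e := KaehlerDifferential.tensorKaehlerEquivOfFormallyEtale k A F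
  let g : _ →ₗ[F] F := (LinearMap.liftBaseChange F d.liftKaehlerDifferential).comp
    e.symm.toLinearMap
  refine ⟨g.compDer (KaehlerDifferential.D k F), fun a => ?_⟩
  change LinearMap.liftBaseChange F d.liftKaehlerDifferential
      (e.symm (KaehlerDifferential.D k F _)) = _
  rw [KaehlerDifferential.tensorKaehlerEquivOfFormallyEtale_symm_D_algebraMap]
  simp

/-- `k(x)` is the fraction field of `k[X]`. -/
theorem frac_isFrac {k K : Type} [Field k] [Field K] [Algebra k K] {x : K}
    (tr : Transcendental k x)
    (quo : ∀ f : K, ∃ p q : k[X], aeval x q ≠ 0 ∧ f = aeval x p / aeval x q) :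
    letI := (aeval x : k[X] →ₐ[k] K).toRingHom.toAlgebra
    IsFractionRing k[X] K := by
  letI := (aeval x : k[X] →ₐ[k] K).toRingHom.toAlgebra
  have inj : Function.Injective (algebraMap k[X] K) := transcendental_iff_injective.1 tr
  have hne : ∀ q : k[X], q ≠ 0 → algebraMap k[X] K q ≠ 0 := fun q hq h =>
    hq (inj (by rw [h, map_zero]))
  refine ⟨fun y => ?_, fun z => ?_, fun {a b} h => ⟨1, by rw [inj h]⟩⟩
  · exact IsUnit.mk0 _ (hne _ (nonZeroDivisors.coe_ne_zero y))
  · obtain ⟨p, q, hq, rfl⟩ := quo z
    have hq0 : q ≠ 0 := fun h => hq (by rw [h, map_zero])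
    refine ⟨(p, ⟨q, mem_nonZeroDivisors_of_ne_zero hq0⟩), ?_⟩
    change aeval x p / aeval x q * aeval x q = aeval x p
    exact div_mul_cancel₀ _ hq

theorem frac_der {k K : Type} [Field k] [CharZero k] [Field K] [CharZero K] [Algebra k K] {x : K}
    (tr : Transcendental k x)
    (quo : ∀ f : K, ∃ p q : k[X], aeval x q ≠ 0 ∧ f = aeval x p / aeval x q) :
    ∃ D : Derivation ℚ K K, RatX k x D := by
  letI := (aeval x : k[X] →ₐ[k] K).toRingHom.toAlgebra
  have hfr : IsFractionRing k[X] K := frac_isFrac tr quo
  have hst : IsScalarTower k k[X] K := IsScalarTower.of_algebraMap_eq fun c => by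
    change algebraMap k K c = aeval x (C c)
    rw [aeval_C]
  let d : Derivation k k[X] K := (Algebra.linearMap k[X] K).compDer derivative'
  obtain ⟨D', hD'⟩ := frac_ext d
  refine ⟨D'.restrictScalars ℚ, tr, quo, fun c => ?_, ?_⟩
  · exact D'.map_algebraMap c
  · have h := hD' X
    have h1 : algebraMap k[X] K X = x := aeval_X x
    have h2 : d X = 1 := by
      change algebraMap k[X] K (derivative X) = 1
      rw [derivative_X, map_one]
    rw [h1, h2] at h
    exact h

theorem frac_mem_Od {k K : Type} [Field k] [Field K] [Algebra k K] (x : K) (Q p : k[X]) :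
    aeval x p ∈ Od x Q :=
  Algebra.adjoin_mono (Set.singleton_subset_iff.2 (by simp))
    (Polynomial.aeval_mem_adjoin_singleton k x)

theorem frac_Od_le {k K : Type} [Field k] [Field K] [Algebra k K] {x : K} {P Q : k[X]} {N : ℕ}
    (h : P ∣ Q ^ N) (hQ : aeval x Q ≠ 0) : Od x P ≤ Od x Q := by
  obtain ⟨R, hR⟩ := h
  have h1 : aeval x P * aeval x R = aeval x Q ^ N := by rw [← map_mul, ← hR, map_pow]
  have h2 : aeval x P ≠ 0 := fun h0 => by
    rw [h0, zero_mul] at h1
    exact pow_ne_zero N hQ h1.symm
  have h3 : (aeval x P)⁻¹ = aeval x R * ((aeval x Q)⁻¹) ^ N := by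
    rw [inv_pow, ← h1]
    have h4 : aeval x R ≠ 0 := fun h0 => by
      rw [h0, mul_zero] at h1
      exact pow_ne_zero N hQ h1.symm
    field_simp
  refine Algebra.adjoin_le ?_
  rintro y (rfl | rfl)
  · exact Algebra.subset_adjoin (by simp)
  · change (aeval x P)⁻¹ ∈ Od x Q
    rw [h3]
    refine mul_mem (frac_mem_Od x Q R) (pow_mem ?_ N)
    exact Algebra.subset_adjoin (by simp)

theorem frac_rad {k : Type} [Field k] {δ : k[X]} (hδ : δ ≠ 0) (hs : δ.Splits) :
    ∃ (S : Finset k) (N : ℕ), (∏ ρ ∈ S, (X - C ρ)) ∣ δ ∧ δ ∣ (∏ ρ ∈ S, (X - C ρ)) ^ N := by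
  classical
  refine ⟨δ.roots.toFinset, Multiset.card δ.roots, ?_, ?_⟩
  · refine Finset.prod_dvd_of_coprime ?_ fun ρ hρ => ?_
    · intro a _ b _ hab
      exact Polynomial.pairwise_coprime_X_sub_C Function.injective_id hab
    · exact dvd_iff_isRoot.2 ((mem_roots hδ).1 (Multiset.mem_toFinset.1 hρ))
  · have h1 : ∀ s : Multiset k, s ⊆ δ.roots →
        (s.map fun a => X - C a).prod ∣ (∏ ρ ∈ δ.roots.toFinset, (X - C ρ)) ^ Multiset.card s := by
      intro s
      induction s using Multiset.induction_on with
      | empty => intro _; simp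
      | cons a s ih =>
        intro hsub
        rw [Multiset.map_cons, Multiset.prod_cons, Multiset.card_cons, pow_succ', ]
        refine mul_dvd_mul ?_ (ih fun b hb => hsub (Multiset.mem_cons_of_mem hb))
        exact Finset.dvd_prod_of_mem (fun ρ => X - C ρ)
          (Multiset.mem_toFinset.2 (hsub (Multiset.mem_cons_self a s)))
    have h2 := h1 δ.roots (fun _ h => h)
    have h3 := hs.eq_prod_roots
    have h4 : IsUnit (C δ.leadingCoeff) := isUnit_C.2 (IsUnit.mk0 _ (leadingCoeff_ne_zero.2 hδ))
    exact (Eq.dvd h3).trans ((h4.mul_left_dvd).2 h2)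

/-- The coefficientwise extension of a linear form. -/
noncomputable def fracLX {k k' : Type} [Field k] [Field k'] [Algebra k k'] (L₀ : k' →ₗ[k] k) :
    k'[X] →ₗ[k] k[X] :=
  Polynomial.lsum fun n => (monomial n).comp L₀

theorem fracLX_coeff {k k' : Type} [Field k] [Field k'] [Algebra k k'] (L₀ : k' →ₗ[k] k)
    (p : k'[X]) (n : ℕ) : (fracLX L₀ p).coeff n = L₀ (p.coeff n) := by
  unfold fracLX
  rw [Polynomial.lsum_apply, Polynomial.sum_def, finset_sum_coeff]
  simp only [LinearMap.comp_apply, coeff_monomial]
  rw [Finset.sum_ite_eq']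
  split_ifs with h
  · rfl
  · rw [notMem_support_iff.1 h, map_zero]

theorem fracLX_mul {k k' : Type} [Field k] [Field k'] [Algebra k k'] (L₀ : k' →ₗ[k] k)
    (q : k[X]) (p : k'[X]) :
    fracLX L₀ (q.map (algebraMap k k') * p) = q * fracLX L₀ p := by
  ext n
  rw [fracLX_coeff, coeff_mul, coeff_mul, map_sum]
  refine Finset.sum_congr rfl fun i _ => ?_
  rw [coeff_map, ← Algebra.smul_def, map_smul, fracLX_coeff, smul_eq_mul]

theorem fracLX_derivative {k k' : Type} [Field k] [Field k'] [Algebra k k'] (L₀ : k' →ₗ[k] k)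
    (p : k'[X]) : fracLX L₀ (derivative p) = derivative (fracLX L₀ p) := by
  ext n
  rw [fracLX_coeff, coeff_derivative, coeff_derivative, fracLX_coeff]
  have h : p.coeff (n + 1) * ((n : k') + 1) = ((n : k) + 1) • p.coeff (n + 1) := by
    rw [Algebra.smul_def, map_add, map_natCast, map_one, mul_comm]
  rw [h, map_smul, smul_eq_mul, mul_comm]

/-- The retraction. -/
theorem frac_L {k k' K K' : Type} [Field k] [Field k'] [Field K] [Field K']
    [Algebra k k'] [FiniteDimensional k k'] [Algebra k K] [Algebra k' K'] [Algebra k K']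
    [Algebra K K'] [IsScalarTower k k' K'] [IsScalarTower k K K'] {x : K}
    (tr : Transcendental k x)
    (quo : ∀ f : K, ∃ p q : k[X], aeval x q ≠ 0 ∧ f = aeval x p / aeval x q)
    (tr' : Transcendental k' (algebraMap K K' x))
    (quo' : ∀ f : K', ∃ p q : k'[X], aeval (algebraMap K K' x) q ≠ 0 ∧
      f = aeval (algebraMap K K' x) p / aeval (algebraMap K K' x) q) (L₀ : k' →ₗ[k] k) :
    (∃ L : K' →ₗ[K] K, ∀ p : k'[X], L (aeval (algebraMap K K' x) p) = aeval x (fracLX L₀ p)) ∧
      ∀ f : K', ∃ (q : k[X]) (p : k'[X]), aeval x q ≠ 0 ∧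
        algebraMap K K' (aeval x q) * f = aeval (algebraMap K K' x) p := by
  letI a1 : Algebra k[X] K := (aeval x : k[X] →ₐ[k] K).toRingHom.toAlgebra
  letI a2 : Algebra k'[X] K' :=
    (aeval (algebraMap K K' x) : k'[X] →ₐ[k'] K').toRingHom.toAlgebra
  letI a3 : Algebra k[X] k'[X] := Polynomial.algebra k k'
  letI a4 : Algebra k[X] K' := ((algebraMap K K').comp (algebraMap k[X] K)).toAlgebra
  have f1 : IsFractionRing k[X] K := frac_isFrac tr quo
  have f2 : IsFractionRing k'[X] K' := frac_isFrac tr' quo'
  have s1 : IsScalarTower k[X] K K' := IsScalarTower.of_algebraMap_eq fun p => rfl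
  have s2 : IsScalarTower k[X] k'[X] K' := IsScalarTower.of_algebraMap_eq fun p => by
    change algebraMap K K' (aeval x p) =
      aeval (algebraMap K K' x) (p.map (algebraMap k k'))
    rw [aeval_map_algebraMap, aeval_algebraMap_apply]
  have i1 : Algebra.IsIntegral k[X] k'[X] := inferInstance
  have i2 : FaithfulSMul k[X] k'[X] := inferInstance
  have l1 : IsLocalizedModule (nonZeroDivisors k[X])
      (IsScalarTower.toAlgHom k[X] k'[X] K').toLinearMap := inferInstance
  let LX : k'[X] →ₗ[k[X]] k[X] :=
    { toFun := fracLX L₀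
      map_add' := fun p q => map_add _ p q
      map_smul' := fun q p => fracLX_mul L₀ q p }
  have l2 : IsLocalizedModule (nonZeroDivisors k[X]) (Algebra.linearMap k[X] K) := inferInstance
  let L := IsLocalizedModule.mapExtendScalars (nonZeroDivisors k[X])
    (IsScalarTower.toAlgHom k[X] k'[X] K').toLinearMap (Algebra.linearMap k[X] K) K LX
  refine ⟨⟨L, fun p => ?_⟩, fun f => ?_⟩
  · exact IsLocalizedModule.map_apply (nonZeroDivisors k[X])
      (IsScalarTower.toAlgHom k[X] k'[X] K').toLinearMap (Algebra.linearMap k[X] K) LX p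
  · obtain ⟨⟨p, q⟩, h⟩ := IsLocalizedModule.surj (nonZeroDivisors k[X])
      (IsScalarTower.toAlgHom k[X] k'[X] K').toLinearMap f
    refine ⟨q, p, ?_, ?_⟩
    · intro h0
      exact nonZeroDivisors.coe_ne_zero q ((transcendental_iff_injective.1 tr)
        (by rw [h0, map_zero]))
    · have h1 : (q : k[X]) • f = aeval (algebraMap K K' x) p := h
      rw [Algebra.smul_def] at h1
      exact h1

theorem frac_D_aeval {k K : Type} [Field k] [CharZero k] [Field K] [CharZero K] [Algebra k K]
    {x : K} {D : Derivation ℚ K K} (h : RatX k x D) (p : k[X]) :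
    D (aeval x p) = aeval x (derivative p) := by
  induction p using Polynomial.induction_on' with
  | add p q hp hq => rw [map_add, map_add, derivative_add, map_add, hp, hq]
  | monomial n c =>
    rw [aeval_monomial, derivative_monomial, aeval_monomial, Derivation.leibniz, h.const,
      smul_zero, add_zero, Derivation.leibniz_pow, h.dx, smul_eq_mul, map_mul, map_natCast]
    simp only [smul_eq_mul, nsmul_eq_mul, mul_one]
    ring

theorem frac_core {k k' K K' : Type} [Field k] [CharZero k] [Field k'] [CharZero k'] [Field K]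
    [CharZero K] [Field K'] [CharZero K'] [Algebra k k'] [FiniteDimensional k k'] [Algebra k K]
    [Algebra k' K'] [Algebra k K'] [Algebra K K'] [IsScalarTower k k' K'] [IsScalarTower k K K']
    {x : K} {D : Derivation ℚ K K} (h : RatX k x D)
    (tr' : Transcendental k' (algebraMap K K' x))
    (quo' : ∀ f : K', ∃ p q : k'[X], aeval (algebraMap K K' x) q ≠ 0 ∧
      f = aeval (algebraMap K K' x) p / aeval (algebraMap K K' x) q)
    {δ : k[X]} (hδ : δ ≠ 0) (hs : (δ.map (algebraMap k k')).Splits) :
    ∃ (D' : Derivation ℚ K' K') (S : Finset k') (L₀ : k' →ₗ[k] k) (L : K' →ₗ[K] K),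
      FiniteDimensional k k' ∧ RatX k' (algebraMap K K' x) D' ∧
      (∀ f, D' (algebraMap K K' f) = algebraMap K K' (D f)) ∧
      L 1 = 1 ∧ (∀ c, L (algebraMap k' K' c) = algebraMap k K (L₀ c)) ∧
      (∀ f, L (D' f) = D (L f)) ∧
      ∀ f : K', f ∈ Od (k := k') (algebraMap K K' x) (∏ ρ ∈ S, (X - C ρ)) ↔
        ∃ (m : ℕ) (p : k'[X]),
          f = aeval (algebraMap K K' x) p * ((algebraMap K K' (aeval x δ))⁻¹) ^ m := by
  obtain ⟨D', hD'⟩ := frac_der tr' quo'
  obtain ⟨L₀, hL₀⟩ := LinearMap.exists_leftInverse_of_injective (Algebra.linearMap k k')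
    (LinearMap.ker_eq_bot.2 (FaithfulSMul.algebraMap_injective k k'))
  have hL1 : L₀ 1 = 1 := by
    have := LinearMap.congr_fun hL₀ 1
    simpa using this
  obtain ⟨⟨L, hL⟩, hden⟩ := frac_L h.tr h.quo tr' quo' L₀
  have hδ' : δ.map (algebraMap k k') ≠ 0 := by
    rwa [Ne, Polynomial.map_eq_zero]
  obtain ⟨S, N, hS1, hS2⟩ := frac_rad hδ' hs
  have haev : ∀ p : k[X], aeval (algebraMap K K' x) (p.map (algebraMap k k')) =
      algebraMap K K' (aeval x p) := fun p => by
    rw [aeval_map_algebraMap, aeval_algebraMap_apply]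
  have hext : ∀ f, D' (algebraMap K K' f) = algebraMap K K' (D f) := by
    intro f
    obtain ⟨p, q, hq, rfl⟩ := h.quo f
    have h1 : ∀ p : k[X], D' (algebraMap K K' (aeval x p)) = algebraMap K K' (D (aeval x p)) := by
      intro p
      rw [← haev, frac_D_aeval hD', derivative_map, haev, frac_D_aeval h]
    rw [map_div₀, Derivation.leibniz_div, Derivation.leibniz_div, h1, h1]
    simp only [smul_eq_mul, map_mul, map_sub, map_pow, map_inv₀]
  refine ⟨D', S, L₀, L, inferInstance, hD', hext, ?_, fun c => ?_, fun f => ?_, fun f => ?_⟩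
  · have := hL 1
    rw [map_one] at this
    rw [this]
    have h2 : fracLX L₀ 1 = 1 := by
      ext n
      rw [fracLX_coeff, coeff_one, coeff_one]
      split_ifs
      · exact hL1
      · exact map_zero _
    rw [h2, map_one]
  · have := hL (C c)
    rw [aeval_C] at this
    rw [this]
    have h2 : fracLX L₀ (C c) = C (L₀ c) := by
      ext n
      rw [fracLX_coeff, coeff_C, coeff_C]
      split_ifs
      · rfl
      · exact map_zero _
    rw [h2, aeval_C]
  · obtain ⟨q, p, hq, hqp⟩ := hden f
    have hLK : ∀ (a : K) (g : K'), L (algebraMap K K' a * g) = a * L g := by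
      intro a g
      rw [← Algebra.smul_def, map_smul, smul_eq_mul]
    have e1 : algebraMap K K' (aeval x q) * D' f =
        D' (aeval (algebraMap K K' x) p) - algebraMap K K' (D (aeval x q)) * f := by
      rw [← hqp, Derivation.leibniz, hext, smul_eq_mul, smul_eq_mul]
      ring
    have e2 := congrArg L e1
    rw [hLK, map_sub, hLK, frac_D_aeval hD', hL, fracLX_derivative, ← frac_D_aeval h, ← hL,
      ← hqp, hLK, Derivation.leibniz, smul_eq_mul, smul_eq_mul] at e2
    have e3 : aeval x q * L (D' f) = aeval x q * D (L f) := by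
      rw [e2]
      ring
    exact mul_left_cancel₀ hq e3
  · have ne1 : aeval (algebraMap K K' x) (δ.map (algebraMap k k')) ≠ 0 := fun h0 =>
      hδ' ((transcendental_iff_injective.1 tr') (by rw [h0, map_zero]))
    have ne2 : aeval (algebraMap K K' x) (∏ ρ ∈ S, (X - C ρ)) ≠ 0 := fun h0 =>
      (Finset.prod_ne_zero_iff.2 fun ρ _ => X_sub_C_ne_zero ρ)
        ((transcendental_iff_injective.1 tr') (by rw [h0, map_zero]))
    have heq : Od (k := k') (algebraMap K K' x) (∏ ρ ∈ S, (X - C ρ)) =
        Od (k := k') (algebraMap K K' x) (δ.map (algebraMap k k')) := by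
      refine le_antisymm (frac_Od_le (N := 1) ?_ ne1) (frac_Od_le hS2 ne2)
      rw [pow_one]
      exact hS1
    rw [heq, mem_Od, haev]

theorem exists_split {k K : Type} [Field k] [CharZero k] [Field K] [CharZero K] [Algebra k K]
    {x : K} {D : Derivation ℚ K K} (h : RatX k x D) {δ : k[X]} (hδ : δ ≠ 0) :
    ∃ (k' K' : Type) (_ : Field k') (_ : CharZero k') (_ : Field K') (_ : CharZero K')
      (_ : Algebra k k') (_ : Algebra k' K') (_ : Algebra K K') (_ : Algebra k K')
      (_ : IsScalarTower k k' K') (_ : IsScalarTower k K K') (D' : Derivation ℚ K' K')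
      (S : Finset k') (L₀ : k' →ₗ[k] k) (L : K' →ₗ[K] K),
      FiniteDimensional k k' ∧ RatX k' (algebraMap K K' x) D' ∧
      (∀ f, D' (algebraMap K K' f) = algebraMap K K' (D f)) ∧
      L 1 = 1 ∧ (∀ c, L (algebraMap k' K' c) = algebraMap k K (L₀ c)) ∧
      (∀ f, L (D' f) = D (L f)) ∧
      ∀ f : K', f ∈ Od (k := k') (algebraMap K K' x) (∏ ρ ∈ S, (X - C ρ)) ↔
        ∃ (m : ℕ) (p : k'[X]),
          f = aeval (algebraMap K K' x) p * ((algebraMap K K' (aeval x δ))⁻¹) ^ m := by
  have hfr := frac_isFrac h.tr h.quo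
  have c1 : CharZero δ.SplittingField := charZero_of_injective_algebraMap
    (FaithfulSMul.algebraMap_injective k δ.SplittingField)
  have c2 : CharZero (FractionRing δ.SplittingField[X]) := charZero_of_injective_algebraMap
    (FaithfulSMul.algebraMap_injective δ.SplittingField (FractionRing δ.SplittingField[X]))
  -- the embedding
  have tr0 : Function.Injective (((algebraMap δ.SplittingField[X]
      (FractionRing δ.SplittingField[X])).comp (mapRingHom (algebraMap k δ.SplittingField)))) := by
    intro p q hpq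
    have h1 := IsFractionRing.injective δ.SplittingField[X] (FractionRing δ.SplittingField[X]) hpq
    exact map_injective _ (FaithfulSMul.algebraMap_injective k δ.SplittingField) h1
  obtain ⟨j, hj⟩ : ∃ j : K →+* FractionRing δ.SplittingField[X], ∀ p : k[X], j (aeval x p) =
      algebraMap δ.SplittingField[X] (FractionRing δ.SplittingField[X])
        (p.map (algebraMap k δ.SplittingField)) := by
    letI a1 : Algebra k[X] K := (aeval x : k[X] →ₐ[k] K).toRingHom.toAlgebra
    exact ⟨IsFractionRing.lift (A := k[X]) (K := K) tr0, fun p => IsFractionRing.lift_algebraMap tr0 p⟩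
  letI aK : Algebra K (FractionRing δ.SplittingField[X]) := j.toAlgebra
  have hx' : algebraMap K (FractionRing δ.SplittingField[X]) x =
      algebraMap δ.SplittingField[X] (FractionRing δ.SplittingField[X]) X := by
    have := hj X
    rw [aeval_X, map_X] at this
    exact this
  have hae : ∀ p : δ.SplittingField[X], aeval (algebraMap δ.SplittingField[X]
      (FractionRing δ.SplittingField[X]) X) p = algebraMap δ.SplittingField[X]
      (FractionRing δ.SplittingField[X]) p := by
    intro p
    rw [aeval_algebraMap_apply, aeval_X_left_apply]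
  have t1 : IsScalarTower k K (FractionRing δ.SplittingField[X]) :=
    IsScalarTower.of_algebraMap_eq fun c => by
      have := hj (C c)
      rw [aeval_C, map_C] at this
      change _ = j (algebraMap k K c)
      rw [this, IsScalarTower.algebraMap_apply k δ.SplittingField[X]
        (FractionRing δ.SplittingField[X])]
      rfl
  have fd : FiniteDimensional k δ.SplittingField := inferInstance
  have hs : (δ.map (algebraMap k δ.SplittingField)).Splits := SplittingField.splits δ
  have tr' : Transcendental δ.SplittingField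
      (algebraMap K (FractionRing δ.SplittingField[X]) x) := by
    rw [hx', transcendental_iff_injective]
    intro p q hpq
    rw [hae, hae] at hpq
    exact IsFractionRing.injective δ.SplittingField[X] (FractionRing δ.SplittingField[X]) hpq
  have quo' : ∀ f : FractionRing δ.SplittingField[X], ∃ p q : δ.SplittingField[X],
      aeval (algebraMap K (FractionRing δ.SplittingField[X]) x) q ≠ 0 ∧
      f = aeval (algebraMap K (FractionRing δ.SplittingField[X]) x) p /
        aeval (algebraMap K (FractionRing δ.SplittingField[X]) x) q := by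
    intro f
    obtain ⟨p, q, hq, rfl⟩ := IsFractionRing.div_surjective (A := δ.SplittingField[X]) f
    refine ⟨p, q, ?_, ?_⟩
    · rw [hx', hae]
      exact IsFractionRing.to_map_ne_zero_of_mem_nonZeroDivisors hq
    · rw [hx', hae, hae]
  obtain ⟨D', S, L₀, L, H⟩ := frac_core (k' := δ.SplittingField)
    (K' := FractionRing δ.SplittingField[X]) h tr' quo' hδ hs
  exact ⟨δ.SplittingField, FractionRing δ.SplittingField[X], inferInstance, c1, inferInstance,
    c2, inferInstance, inferInstance, aK, inferInstance, inferInstance, t1, D', S, L₀, L, H⟩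

end Pool.Agent.Helper79.GA
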