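import Pool.Agent.Helper79.GA.Basic
import Pool.Agent.Helper79.GA.Frac

/-!
# GA-32: the field of rational functions, transport of tame systems

* `exists_ratx`: `FractionRing κ[X]` (or `RatFunc κ`) with the extension of `d/dX` (see `Frac.lean` (GA-17), where the same field is constructed, or the quotient rule).
* `ratx_equiv`: both `K`, `K'` are fraction fields of `κ[u] ≅ κ[X]`, `κ[u'] ≅ κ[X]` (`RatX.tr`, `RatX.quo`): e.g. `IsFractionRing κ[X] K` for the algebra structure given by `aeval u` and `IsFractionRing.algEquiv`/`ringEquivOfRingEquiv`. The two sides of the last equation are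
  derivations along the embedding which agree on `κ` and `u`.
* `tame_map`: `iter D' (a.map σ) m = (iter D a m).map σ` (induction), `GmS.map`.
-/

open Polynomial

namespace Pool.Agent.Helper79.GA

open Pool.Agent.Helper79.CU Pool.Agent.Helper79.SE

theorem exists_ratx (κ : Type) [Field κ] [CharZero κ] : ∃ (K : Type) (_ : Field K)
    (_ : CharZero K) (_ : Algebra κ K) (u : K) (D : Derivation ℚ K K), RatX κ u D := by
  have hchar : CharZero (FractionRing κ[X]) :=
    charZero_of_injective_algebraMap (algebraMap κ (FractionRing κ[X])).injective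
  let u : FractionRing κ[X] := algebraMap κ[X] (FractionRing κ[X]) X
  have hu : ∀ p : κ[X], aeval u p = algebraMap κ[X] (FractionRing κ[X]) p := by
    intro p
    rw [show u = algebraMap κ[X] (FractionRing κ[X]) X from rfl, aeval_algebraMap_apply,
      aeval_X_left_apply]
  have tr : Transcendental κ u := by
    rw [transcendental_iff_injective]
    intro p q hpq
    rw [hu, hu] at hpq
    exact IsFractionRing.injective κ[X] (FractionRing κ[X]) hpq
  have quo : ∀ f : FractionRing κ[X], ∃ p q : κ[X], aeval u q ≠ 0 ∧ f = aeval u p / aeval u q := by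
    intro f
    obtain ⟨p, q, hq, rfl⟩ := IsFractionRing.div_surjective (A := κ[X]) f
    refine ⟨p, q, ?_, by rw [hu, hu]⟩
    rw [hu]
    exact IsFractionRing.to_map_ne_zero_of_mem_nonZeroDivisors hq
  obtain ⟨D, hD⟩ := frac_der tr quo
  exact ⟨FractionRing κ[X], inferInstance, hchar, inferInstance, u, D, hD⟩

theorem ratx_comp {κ K K' : Type} [Field κ] [Field K] [CharZero K] [Algebra κ K] [Field K']
    [CharZero K'] [Algebra κ K'] {u : K} {D : Derivation ℚ K K} {u' : K'}
    {D' : Derivation ℚ K' K'} (h : RatX κ u D) (h' : RatX κ u' D') (σ : K ≃ₐ[κ] K')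
    (hσ : σ u = u') (f : K) : σ (D f) = D' (σ f) := by
  have hp : ∀ p : κ[X], σ (D (aeval u p)) = D' (σ (aeval u p)) := by
    intro p
    induction p using Polynomial.induction_on' with
    | add p q hp hq =>
      rw [map_add, map_add, map_add, hp, hq, map_add, map_add]
    | monomial n c =>
      rw [aeval_monomial, Derivation.leibniz, Derivation.leibniz_pow, h.const, h.dx, map_mul,
        Derivation.leibniz, map_pow, hσ, Derivation.leibniz_pow, h'.dx, AlgEquiv.commutes,
        h'.const]
      simp only [smul_eq_mul, nsmul_eq_mul, mul_one, mul_zero, add_zero, map_mul, map_pow,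
        map_natCast, hσ, AlgEquiv.commutes]
  obtain ⟨p, q, hq, rfl⟩ := h.quo f
  rw [Derivation.leibniz_div, map_div₀, Derivation.leibniz_div]
  simp only [smul_eq_mul, map_mul, map_sub, map_inv₀, map_pow, hp]

theorem ratx_equiv {κ K K' : Type} [Field κ] [Field K] [CharZero K] [Algebra κ K] [Field K']
    [CharZero K'] [Algebra κ K'] {u : K} {D : Derivation ℚ K K} {u' : K'}
    {D' : Derivation ℚ K' K'} (h : RatX κ u D) (h' : RatX κ u' D') :
    ∃ σ : K ≃ₐ[κ] K', σ u = u' ∧ ∀ f, σ (D f) = D' (σ f) := by
  let i1 := (aeval u : κ[X] →ₐ[κ] K).toRingHom.toAlgebra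
  let i2 := (aeval u' : κ[X] →ₐ[κ] K').toRingHom.toAlgebra
  have f1 : IsFractionRing κ[X] K := frac_isFrac h.tr h.quo
  have f2 : IsFractionRing κ[X] K' := frac_isFrac h'.tr h'.quo
  have t1 : IsScalarTower κ κ[X] K := IsScalarTower.of_algebraMap_eq fun c => by
    change algebraMap κ K c = aeval u (C c)
    rw [aeval_C]
  have t2 : IsScalarTower κ κ[X] K' := IsScalarTower.of_algebraMap_eq fun c => by
    change algebraMap κ K' c = aeval u' (C c)
    rw [aeval_C]
  let τ : K ≃ₐ[κ[X]] K' := IsLocalization.algEquiv (nonZeroDivisors κ[X]) K K'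
  let σ : K ≃ₐ[κ] K' := τ.restrictScalars κ
  have hσ : σ u = u' := by
    have e1 : algebraMap κ[X] K X = u := aeval_X u
    have e2 : algebraMap κ[X] K' X = u' := aeval_X u'
    rw [← e1, ← e2]
    exact τ.commutes X
  exact ⟨σ, hσ, ratx_comp h h' σ hσ⟩

theorem iter_map {K K' ι : Type} [Field K] [CharZero K] [Field K'] [CharZero K'] [Fintype ι]
    [DecidableEq ι] {D : Derivation ℚ K K} {D' : Derivation ℚ K' K'} (σ : K →+* K')
    (hσ : ∀ f, σ (D f) = D' (σ f)) (a : Matrix ι ι K) (m : ℕ) (i j : ι) :
    iter D' (a.map σ) m i j = σ (iter D a m i j) := by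
  induction m generalizing i j with
  | zero =>
    simp only [iter, Matrix.one_apply]
    split_ifs <;> simp
  | succ m ih =>
    simp only [iter, Matrix.of_apply, map_mul, map_add, map_inv₀, map_natCast, map_sum, hσ, ih,
      Matrix.map_apply]

theorem tame_map {K K' ι : Type} [Field K] [CharZero K] [Field K'] [CharZero K'] [Fintype ι]
    [DecidableEq ι] {D : Derivation ℚ K K} {D' : Derivation ℚ K' K'} (σ : K →+* K')
    (hσ : ∀ f, σ (D f) = D' (σ f)) {a : Matrix ι ι K} (h : TameM D a) : TameM D' (a.map σ) := by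
  unfold TameM at h ⊢
  have h1 := GmS.map σ h
  simpa only [iter_map σ hσ] using h1

end Pool.Agent.Helper79.GA
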