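import Pool.Agent.Helper79.GA.IdC
import Pool.Agent.Helper10.P5.Mert

/-!
# GA-38: almost all primes cannot have two primes of degree one over them

Let `A(x) = idc F x`. `A(x)/x → κ > 0` for `x → ∞` (`NumberField.Ideal.tendsto_norm_le_div_atTop₀`, `dedekindZeta_residue_pos`).
Assume that every prime `p ∉ B` has at least `2` different prime ideals of norm `p`, and that `∑_{p ∈ B, p ≤ x} log p/p ≤ C` for all `x`. For `x` large apply `ideal_count` to the set `Q` of `2` prime ideals of norm `p` for each prime `p ≤ x/y₀`, `p ∉ B`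
(they are different for different `p`): `2 ∑_{p ≤ x/y₀, p ∉ B} log p · A(x/p) ≤ A(x) log x`. For `y ≥ y₀`: `(9/10) κ y ≤ A(y) ≤ (11/10) κ y`. So
`2 · (9/10) κ x ∑_{p ≤ x/y₀, p ∉ B} log p/p ≤ (11/10) κ x log x`. By Mertens `∑_{p ≤ z} log p/p ≥ log z - C₀`:
`(18/10) (log x - log y₀ - C₀ - C) ≤ (11/10) log x` for all large `x`, a contradiction.
Mertens (lower bound): `log n! = ∑_{p ≤ n} v_p(n!) log p ≤ n ∑_{p ≤ n} log p/(p - 1)` and `log n! ≥ n log n - n`, and `∑_p log p/(p (p-1))` converges (bounded partial sums); or look for a Mertens theorem of the team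
(`grep -rn Mertens Pool/Agent`), e.g. the sums over primes or over `ArithmeticFunction.vonMangoldt`.
-/

namespace Pool.Agent.Helper79.GA

open NumberField nonZeroDivisors Filter

/-- For `y` large the number of ideals is between `9/10 κ y` and `11/10 κ y`. -/
private theorem mer_idc_bounds (F : Type) [Field F] [NumberField F] :
    ∃ κ y₀ : ℝ, 0 < κ ∧ 1 ≤ y₀ ∧ ∀ y : ℝ, y₀ ≤ y →
      9 / 10 * κ * y ≤ idc F y ∧ (idc F y : ℝ) ≤ 11 / 10 * κ * y := by
  have h1 := NumberField.Ideal.tendsto_norm_le_div_atTop₀ F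
  rw [← NumberField.dedekindZeta_residue_def] at h1
  have hκ := NumberField.dedekindZeta_residue_pos F
  set κ := NumberField.dedekindZeta_residue F with hκdef
  have h2 : ∀ᶠ s : ℝ in atTop, 9 / 10 * κ < (idc F s : ℝ) / s := by
    refine h1.eventually (lt_mem_nhds ?_)
    linarith
  have h3 : ∀ᶠ s : ℝ in atTop, (idc F s : ℝ) / s < 11 / 10 * κ := by
    refine h1.eventually (gt_mem_nhds ?_)
    linarith
  obtain ⟨y₁, hy₁⟩ := eventually_atTop.1 (h2.and h3)
  refine ⟨κ, max y₁ 1, hκ, le_max_right _ _, fun y hy => ?_⟩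
  have hy1 : y₁ ≤ y := (le_max_left _ _).trans hy
  have hy0 : (0 : ℝ) < y := lt_of_lt_of_le one_pos ((le_max_right _ _).trans hy)
  obtain ⟨ha, hb⟩ := hy₁ y hy1
  constructor
  · exact ((lt_div_iff₀ hy0).1 ha).le
  · exact ((div_lt_iff₀ hy0).1 hb).le

theorem two_primes_div {F : Type} [Field F] [NumberField F] {B : Set ℕ}
    (h : ∀ p : ℕ, p.Prime → p ∉ B → ∃ P₁ P₂ : Ideal (𝓞 F), P₁ ≠ P₂ ∧ P₁.IsPrime ∧ P₂.IsPrime ∧
      Ideal.absNorm P₁ = p ∧ Ideal.absNorm P₂ = p) :
    ¬ ∃ C : ℝ, ∀ s : Finset ℕ, (∀ p ∈ s, p.Prime ∧ p ∈ B) →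
      ∑ p ∈ s, Real.log p / p ≤ C := by
  classical
  rintro ⟨C, hC⟩
  obtain ⟨κ, y₀, hκ, hy₀, hidc⟩ := mer_idc_bounds F
  obtain ⟨C₀, hC₀, hmer⟩ := Pool.Agent.Helper10.P5.mertens_lower
  have hch : ∀ p : ℕ, ∃ P₁ P₂ : Ideal (𝓞 F), (p.Prime ∧ p ∉ B) → (P₁ ≠ P₂ ∧ P₁.IsPrime ∧
      P₂.IsPrime ∧ Ideal.absNorm P₁ = p ∧ Ideal.absNorm P₂ = p) := by
    intro p
    by_cases hp : p.Prime ∧ p ∉ B
    · obtain ⟨P₁, P₂, hP⟩ := h p hp.1 hp.2
      exact ⟨P₁, P₂, fun _ => hP⟩
    · exact ⟨⊥, ⊥, fun h => absurd h hp⟩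
  choose P₁ P₂ hP using hch
  have hy₀' : (0 : ℝ) < y₀ := lt_of_lt_of_le one_pos hy₀
  -- the main inequality
  have key : ∀ x : ℝ, 2 * y₀ ≤ x →
      18 / 10 * (Real.log x - Real.log (2 * y₀) - C₀ - C) ≤ 11 / 10 * Real.log x := by
    intro x hx
    have hx0 : 0 < x := by linarith
    have hx1 : 1 ≤ x := by linarith
    have hxy : y₀ ≤ x := by linarith
    have hlogx : 0 ≤ Real.log x := Real.log_nonneg hx1
    set z := ⌊x / y₀⌋₊ with hz
    have hxd : 2 ≤ x / y₀ := by
      rw [le_div_iff₀ hy₀']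
      exact hx
    have hz_le : (z : ℝ) ≤ x / y₀ := Nat.floor_le (by linarith)
    have hz_gt : x / y₀ < z + 1 := Nat.lt_floor_add_one _
    have hz_ge : x / (2 * y₀) ≤ z := by
      have h1 : x / (2 * y₀) = x / y₀ / 2 := by
        rw [mul_comm, div_mul_eq_div_div]
      rw [h1]
      linarith
    have hz1 : 1 ≤ z := by
      have h1 : (1 : ℝ) ≤ x / (2 * y₀) := by
        rw [le_div_iff₀ (by linarith)]
        linarith
      exact_mod_cast h1.trans hz_ge
    have hlogz : Real.log x - Real.log (2 * y₀) ≤ Real.log z := by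
      rw [← Real.log_div (by linarith) (by linarith)]
      exact Real.log_le_log (by positivity) hz_ge
    set S : Finset ℕ := Pool.Agent.Helper10.P5.PL z with hS
    have hmemS : ∀ p, p ∈ S ↔ p ≤ z ∧ p.Prime := by
      intro p
      simp only [hS, Pool.Agent.Helper10.P5.PL, Finset.mem_filter, Finset.mem_Icc]
      constructor
      · rintro ⟨⟨_, h2⟩, h3⟩
        exact ⟨h2, h3⟩
      · rintro ⟨h2, h3⟩
        exact ⟨⟨h3.pos, h2⟩, h3⟩
    set T : Finset ℕ := S.filter (fun p => p ∉ B) with hT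
    have hTm : ∀ p ∈ T, p.Prime ∧ p ∉ B ∧ p ≤ z := by
      intro p hp
      rw [hT, Finset.mem_filter, hmemS] at hp
      exact ⟨hp.1.2, hp.2, hp.1.1⟩
    have hsumT : Real.log z - C₀ - C ≤ ∑ p ∈ T, Real.log p / p := by
      have h1 := hmer z hz1
      have h2 : ∑ p ∈ S.filter (fun p => ¬ p ∉ B), Real.log p / p ≤ C := by
        refine hC _ fun p hp => ?_
        rw [Finset.mem_filter, hmemS] at hp
        exact ⟨hp.1.2, not_not.1 hp.2⟩
      have h3 := Finset.sum_filter_add_sum_filter_not S (fun p => p ∉ B)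
        (fun p => Real.log p / (p : ℝ))
      have h1' : Real.log z - C₀ ≤ ∑ p ∈ S, Real.log p / (p : ℝ) := h1
      linarith
    -- the set of prime ideals
    set Q : Finset (Ideal (𝓞 F)) := T.biUnion (fun p => {P₁ p, P₂ p}) with hQ
    have hQn : ∀ p ∈ T, ∀ P ∈ ({P₁ p, P₂ p} : Finset (Ideal (𝓞 F))),
        P.IsPrime ∧ Ideal.absNorm P = p := by
      intro p hp P hPm
      obtain ⟨_, hp1, hp2, hn1, hn2⟩ := hP p ⟨(hTm p hp).1, (hTm p hp).2.1⟩
      rw [Finset.mem_insert, Finset.mem_singleton] at hPm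
      rcases hPm with rfl | rfl
      · exact ⟨hp1, hn1⟩
      · exact ⟨hp2, hn2⟩
    have hQprime : ∀ P ∈ Q, P.IsPrime ∧ P ≠ ⊥ := by
      intro P hPQ
      rw [hQ, Finset.mem_biUnion] at hPQ
      obtain ⟨p, hp, hPm⟩ := hPQ
      obtain ⟨h1, h2⟩ := hQn p hp P hPm
      refine ⟨h1, ?_⟩
      rintro rfl
      rw [Ideal.absNorm_bot] at h2
      exact (hTm p hp).1.ne_zero h2.symm
    have hcount := ideal_count Q hQprime hx1
    have hdisj : (T : Set ℕ).PairwiseDisjoint
        (fun p => ({P₁ p, P₂ p} : Finset (Ideal (𝓞 F)))) := by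
      intro p hp q hq hpq
      rw [Function.onFun, Finset.disjoint_left]
      intro P hPp hPq
      have h1 := (hQn p hp P hPp).2
      have h2 := (hQn q hq P hPq).2
      exact hpq (h1.symm.trans h2)
    have hsum : ∑ P ∈ Q, Real.log (Ideal.absNorm P) * idc F (x / Ideal.absNorm P) =
        ∑ p ∈ T, 2 * (Real.log p * idc F (x / p)) := by
      rw [hQ, Finset.sum_biUnion hdisj]
      refine Finset.sum_congr rfl fun p hp => ?_
      obtain ⟨hne, _, _, hn1, hn2⟩ := hP p ⟨(hTm p hp).1, (hTm p hp).2.1⟩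
      rw [Finset.sum_pair hne, hn1, hn2]
      ring
    rw [hsum] at hcount
    have hlow : 18 / 10 * κ * x * ∑ p ∈ T, Real.log p / p ≤
        ∑ p ∈ T, 2 * (Real.log p * idc F (x / p)) := by
      rw [Finset.mul_sum]
      refine Finset.sum_le_sum fun p hp => ?_
      obtain ⟨hpp, _, hpz⟩ := hTm p hp
      have hp0 : (0 : ℝ) < p := by exact_mod_cast hpp.pos
      have hp1 : (1 : ℝ) ≤ p := by exact_mod_cast hpp.one_lt.le
      have hpz' : (p : ℝ) ≤ x / y₀ := (Nat.cast_le.2 hpz).trans hz_le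
      have hxp : y₀ ≤ x / p := by
        rw [le_div_iff₀ hp0]
        rw [le_div_iff₀ hy₀'] at hpz'
        linarith
      have h1 := (hidc (x / p) hxp).1
      have hlog : 0 ≤ Real.log p := Real.log_nonneg hp1
      have h2 := mul_le_mul_of_nonneg_left h1 hlog
      have h3 : 18 / 10 * κ * x * (Real.log p / p) =
          2 * (Real.log p * (9 / 10 * κ * (x / p))) := by
        field_simp
        ring
      rw [h3]
      linarith
    have hup : (idc F x : ℝ) * Real.log x ≤ 11 / 10 * κ * x * Real.log x :=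
      mul_le_mul_of_nonneg_right (hidc x hxy).2 hlogx
    have hfin : κ * x * (18 / 10 * ∑ p ∈ T, Real.log p / p) ≤
        κ * x * (11 / 10 * Real.log x) := by
      have h1 : κ * x * (18 / 10 * ∑ p ∈ T, Real.log p / p) =
          18 / 10 * κ * x * ∑ p ∈ T, Real.log p / p := by ring
      have h2 : κ * x * (11 / 10 * Real.log x) = 11 / 10 * κ * x * Real.log x := by ring
      rw [h1, h2]
      exact hlow.trans (hcount.trans hup)
    have hfin' := le_of_mul_le_mul_left hfin (mul_pos hκ hx0)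
    linarith
  -- choose a large x
  have hex : ∃ x : ℝ, 2 * y₀ ≤ x ∧
      18 / 10 * (Real.log (2 * y₀) + C₀ + C) + 1 ≤ 7 / 10 * Real.log x := by
    have ht := Real.tendsto_log_atTop.eventually
      (eventually_ge_atTop ((18 / 10 * (Real.log (2 * y₀) + C₀ + C) + 1) * (10 / 7)))
    obtain ⟨x, hx1, hx2⟩ := (ht.and (eventually_ge_atTop (2 * y₀))).exists
    exact ⟨x, hx2, by linarith⟩
  obtain ⟨x, hx1, hx2⟩ := hex
  have := key x hx1
  linarith

end Pool.Agent.Helper79.GA
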