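import Pool.Agent.Helper79.GA.Basic

/-!
# GA-03: denominators of algebraic numbers, `1/N!` does not have geometric denominators

* `num_gen`: let `E = algebraicClosure ℚ Ω` (an `IntermediateField ℚ Ω`), `B = Algebra.adjoin E T` (`T` finite: finitely
  generated, a domain). Let `𝔪` be a maximal ideal of `B`; `F' = B/𝔪` is a field of finite type over `E`, so
  finite over `E` (Zariski's lemma, `finite_of_finite_type_of_isJacobsonRing`), so algebraic over `ℚ`. Let `π : B → F'`. There is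
  `M ≥ 1` with `M π(t)` integral over `ℤ` for all `t ∈ T` (`exists_integral_multiple` for `ℤ`, product over `T`).
  If `x ∈ (G T).I n` is algebraic over `ℚ` then `x ∈ E`, and `π(x)` is an integral combination of products of at most `n` of the
  `π(t)` (closure induction: the elements of `(G T).I n` belong to `B` and `M^n π(·)` is integral), so `M^n π(x)`
  is integral over `ℤ`, `π(x) = algebraMap E F' x`, `E → F'` is injective, so `M^n x` is integral
  (`isIntegral_algebraMap_iff`).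
* `not_fact`: otherwise, with `M` of `num_gen`, `M^(c(N+1)) q / N!` is a rational number integral over `ℤ`, so an integer,
  positive, so `N! ≤ (M^c H)^(N+1)` for all `N`, which is false for large `N`
  (`FloorSemiring.tendsto_pow_div_factorial_atTop` or `Nat.factorial` versus powers).
-/

open Polynomial

namespace Pool.Agent.Helper79.GA

open Pool.Agent.Helper79.CU Pool.Agent.Helper79.SE

/-- Algebraic elements of an algebra of finite type which is a field. -/
private theorem num_field (E F : Type) [Field E] [Field F] [Algebra E F] [Algebra.FiniteType E F]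
    (hE : Algebra.IsAlgebraic ℤ E) (y : F) : ∃ M : ℕ, 1 ≤ M ∧ IsIntegral ℤ ((M : F) * y) := by
  have h1 : Module.Finite E F := finite_of_finite_type_of_isJacobsonRing E F
  have h2 : Algebra.IsAlgebraic E F := Algebra.IsAlgebraic.of_finite E F
  have h3 : Algebra.IsAlgebraic ℤ F := Algebra.IsAlgebraic.trans ℤ E F
  obtain ⟨m, hm, hi⟩ := (h3.isAlgebraic y).exists_integral_multiple
  refine ⟨m.natAbs, Nat.one_le_iff_ne_zero.mpr (Int.natAbs_ne_zero.mpr hm), ?_⟩
  rw [zsmul_eq_mul] at hi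
  rcases Int.natAbs_eq m with h | h
  · rw [h, Int.cast_natCast] at hi
    exact hi
  · rw [h, Int.cast_neg, Int.cast_natCast, neg_mul] at hi
    simpa using hi.neg

private theorem num_map (E B : Type) [Field E] [CommRing B] [Nontrivial B] [Algebra E B] [Algebra.FiniteType E B]
    (hE : Algebra.IsAlgebraic ℤ E) : ∃ (F : Type) (_ : Field F) (_ : Algebra E F) (_ : B →ₐ[E] F),
      ∀ y : F, ∃ M : ℕ, 1 ≤ M ∧ IsIntegral ℤ ((M : F) * y) := by
  obtain ⟨𝔪, h𝔪⟩ := Ideal.exists_maximal B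
  let _ : Field (B ⧸ 𝔪) := Ideal.Quotient.field 𝔪
  have hft : Algebra.FiniteType E (B ⧸ 𝔪) :=
    Algebra.FiniteType.of_surjective (Ideal.Quotient.mkₐ E 𝔪) (Ideal.Quotient.mkₐ_surjective E 𝔪)
  exact ⟨B ⧸ 𝔪, inferInstance, inferInstance, Ideal.Quotient.mkₐ E 𝔪, num_field E (B ⧸ 𝔪) hE⟩

private theorem num_desc (E F : Type) [Field E] [Field F] [Algebra E F] {e : E}
    (h : IsIntegral ℤ (algebraMap E F e)) : IsIntegral ℤ e :=
  (isIntegral_algebraMap_iff (algebraMap E F).injective).mp h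

section

variable {Ω : Type} [Field Ω] [CharZero Ω]

theorem num_gen {T : Set Ω} (hT : T.Finite) : ∃ M : ℕ, 1 ≤ M ∧ ∀ (n : ℕ) (x : Ω),
    IsAlgebraic ℚ x → x ∈ (G T).I n → IsIntegral ℤ ((M : Ω) ^ n * x) := by
  classical
  set E : IntermediateField ℚ Ω := algebraicClosure ℚ Ω with hEdef
  have hEalg : Algebra.IsAlgebraic ℤ E := by
    refine ⟨fun e => ?_⟩
    have h1 : IsAlgebraic ℚ e := by
      have h2 : IsAlgebraic ℚ (e : Ω) := mem_algebraicClosure_iff.mp e.2
      exact (isAlgebraic_algebraMap_iff (algebraMap E Ω).injective).mp h2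
    exact (IsFractionRing.isAlgebraic_iff ℤ ℚ E).mpr h1
  set B : Subalgebra E Ω := Algebra.adjoin E T with hB
  have hBft : Algebra.FiniteType E B := by
    rw [← Subalgebra.fg_iff_finiteType]
    exact ⟨hT.toFinset, by rw [hT.coe_toFinset]⟩
  obtain ⟨F, _, _, π, hF⟩ := num_map E B hEalg
  choose M hM1 hM2 using hF
  have hTB : ∀ t ∈ T, t ∈ B := fun t ht => Algebra.subset_adjoin ht
  -- a common multiple
  set M0 : ℕ := ∏ t ∈ hT.toFinset.attach, M (π ⟨t.1, hTB t.1 (hT.mem_toFinset.mp t.2)⟩) with hM0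
  have hM01 : 1 ≤ M0 := Nat.one_le_iff_ne_zero.mpr (Finset.prod_ne_zero_iff.mpr fun t _ => by
    have := hM1 (π ⟨t.1, hTB t.1 (hT.mem_toFinset.mp t.2)⟩)
    omega)
  have hMt : ∀ t (ht : t ∈ T), IsIntegral ℤ ((M0 : F) * π ⟨t, hTB t ht⟩) := by
    intro t ht
    obtain ⟨d, hd⟩ : M (π ⟨t, hTB t ht⟩) ∣ M0 :=
      Finset.dvd_prod_of_mem (fun t : hT.toFinset => M (π ⟨t.1, hTB t.1 (hT.mem_toFinset.mp t.2)⟩))
        (Finset.mem_attach _ ⟨t, hT.mem_toFinset.mpr ht⟩)
    rw [hd, Nat.cast_mul, mul_comm (M (π ⟨t, hTB t ht⟩) : F), mul_assoc]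
    exact IsIntegral.mul (isIntegral_natCast d) (hM2 _)
  refine ⟨M0, hM01, fun n x hx hxn => ?_⟩
  have key : ∃ hx : x ∈ B, IsIntegral ℤ ((M0 : F) ^ n * π ⟨x, hx⟩) := by
    clear hx
    change x ∈ AddSubgroup.closure _ at hxn
    induction hxn using AddSubgroup.closure_induction with
    | mem b hb =>
      obtain ⟨i, r, l, -, e2, e3, rfl⟩ := hb
      have hl : ∀ l : List Ω, (∀ s ∈ l, s ∈ T) → ∃ h : l.prod ∈ B,
          IsIntegral ℤ ((M0 : F) ^ l.length * π ⟨l.prod, h⟩) := by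
        intro l
        induction l with
        | nil =>
          intro _
          refine ⟨by rw [List.prod_nil]; exact B.one_mem, ?_⟩
          have e : (⟨([] : List Ω).prod, by rw [List.prod_nil]; exact B.one_mem⟩ : B) = 1 :=
            Subtype.ext List.prod_nil
          rw [e, map_one, List.length_nil, pow_zero, mul_one]
          exact isIntegral_one
        | cons a l ih =>
          intro hl
          obtain ⟨h, h'⟩ := ih fun s hs => hl s (List.mem_cons_of_mem _ hs)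
          have ha := hTB a (hl a List.mem_cons_self)
          have hm : (a :: l).prod ∈ B := by
            rw [List.prod_cons]
            exact B.mul_mem ha h
          refine ⟨hm, ?_⟩
          have e : (⟨(a :: l).prod, hm⟩ : B) = ⟨a, ha⟩ * ⟨l.prod, h⟩ := Subtype.ext List.prod_cons
          rw [e, map_mul, List.length_cons, pow_succ]
          have e' : (M0 : F) ^ l.length * (M0 : F) * (π ⟨a, ha⟩ * π ⟨l.prod, h⟩) =
              ((M0 : F) * π ⟨a, ha⟩) * ((M0 : F) ^ l.length * π ⟨l.prod, h⟩) := by ring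
          rw [e']
          exact (hMt a (hl a List.mem_cons_self)).mul h'
      obtain ⟨h, h'⟩ := hl l e2
      have hr : (Int.castRingHom Ω r) ∈ B := by
        rw [eq_intCast]
        exact intCast_mem B r
      refine ⟨B.mul_mem hr h, ?_⟩
      have e : (⟨Int.castRingHom Ω r * l.prod, B.mul_mem hr h⟩ : B) = (r : B) * ⟨l.prod, h⟩ := by
        apply Subtype.ext
        simp
      rw [e, map_mul, map_intCast]
      obtain ⟨j, hj⟩ : ∃ j, n = j + l.length := ⟨n - l.length, by omega⟩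
      have e' : (M0 : F) ^ n * ((r : F) * π ⟨l.prod, h⟩) =
          (M0 : F) ^ j * (r : F) * ((M0 : F) ^ l.length * π ⟨l.prod, h⟩) := by
        rw [hj, pow_add]
        ring
      rw [e']
      exact (((isIntegral_natCast M0).pow j).mul (isIntegral_intCast r)).mul h'
    | zero =>
      refine ⟨B.zero_mem, ?_⟩
      have e : (⟨0, B.zero_mem⟩ : B) = 0 := rfl
      rw [e, map_zero, mul_zero]
      exact isIntegral_zero
    | add a b _ _ ha hb =>
      obtain ⟨ha1, ha2⟩ := ha
      obtain ⟨hb1, hb2⟩ := hb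
      refine ⟨B.add_mem ha1 hb1, ?_⟩
      have e : (⟨a + b, B.add_mem ha1 hb1⟩ : B) = ⟨a, ha1⟩ + ⟨b, hb1⟩ := rfl
      rw [e, map_add, mul_add]
      exact ha2.add hb2
    | neg a _ ha =>
      obtain ⟨ha1, ha2⟩ := ha
      refine ⟨B.neg_mem ha1, ?_⟩
      have e : (⟨-a, B.neg_mem ha1⟩ : B) = -⟨a, ha1⟩ := rfl
      rw [e, map_neg, mul_neg]
      exact ha2.neg
  obtain ⟨hxB, hint⟩ := key
  have hxE : x ∈ E := by
    rw [hEdef, mem_algebraicClosure_iff]
    exact hx
  have e1 : (⟨x, hxB⟩ : B) = algebraMap E B ⟨x, hxE⟩ := rfl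
  rw [e1, AlgHom.commutes] at hint
  have e2 : (M0 : F) ^ n * algebraMap E F ⟨x, hxE⟩ =
      algebraMap E F ((M0 : E) ^ n * ⟨x, hxE⟩) := by
    rw [map_mul, map_pow, map_natCast]
  rw [e2] at hint
  have h5 := (num_desc E F hint).map (E.val.restrictScalars ℤ)
  simpa using h5

theorem not_fact {T : Set Ω} (hT : T.Finite) (c H : ℕ) :
    ¬ ∀ N : ℕ, ∃ q : ℕ, 0 < q ∧ q ≤ H ^ (N + 1) ∧
      (q : Ω) * ((N.factorial : Ω)⁻¹) ∈ (G T).I (c * (N + 1)) := by
  intro hall
  obtain ⟨M, hM, hgen⟩ := num_gen hT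
  have hle : ∀ N : ℕ, (N.factorial : ℝ) ≤ ((M : ℝ) ^ c * H) ^ (N + 1) := by
    intro N
    obtain ⟨q, hq0, hq1, hq2⟩ := hall N
    have hrat : ∀ r : ℚ, IsAlgebraic ℚ ((r : ℚ) : Ω) := fun r => by
      have := isAlgebraic_algebraMap (R := ℚ) (A := Ω) r
      simpa using this
    have e1 : (q : Ω) * ((N.factorial : Ω)⁻¹) = (((q : ℚ) * ((N.factorial : ℚ)⁻¹) : ℚ) : Ω) := by
      push_cast
      rfl
    have h1 := hgen _ _ (by rw [e1]; exact hrat _) hq2
    have e2 : (M : Ω) ^ (c * (N + 1)) * ((q : Ω) * ((N.factorial : Ω)⁻¹)) =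
        algebraMap ℚ Ω ((M : ℚ) ^ (c * (N + 1)) * ((q : ℚ) * ((N.factorial : ℚ)⁻¹))) := by
      rw [e1]
      simp
    rw [e2, isIntegral_algebraMap_iff (algebraMap ℚ Ω).injective] at h1
    obtain ⟨z, hz⟩ := IsIntegrallyClosed.isIntegral_iff.mp h1
    have hf : (0 : ℚ) < N.factorial := by exact_mod_cast N.factorial_pos
    have hMq : (0 : ℚ) < M := by exact_mod_cast hM
    have hqq : (0 : ℚ) < q := by exact_mod_cast hq0
    have hzpos : 0 < z := by
      have h2 : (0 : ℚ) < z := by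
        have h3 : ((z : ℤ) : ℚ) = (M : ℚ) ^ (c * (N + 1)) * ((q : ℚ) * ((N.factorial : ℚ)⁻¹)) := hz
        rw [h3]
        positivity
      exact_mod_cast h2
    have h4 : (N.factorial : ℚ) ≤ (M : ℚ) ^ (c * (N + 1)) * q := by
      have h3 : ((z : ℤ) : ℚ) = (M : ℚ) ^ (c * (N + 1)) * ((q : ℚ) * ((N.factorial : ℚ)⁻¹)) := hz
      have h5 : (1 : ℚ) ≤ z := by exact_mod_cast hzpos
      rw [h3] at h5
      have h6 : (M : ℚ) ^ (c * (N + 1)) * ((q : ℚ) * ((N.factorial : ℚ)⁻¹)) =
          (M : ℚ) ^ (c * (N + 1)) * q / N.factorial := by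
        rw [div_eq_mul_inv]
        ring
      rw [h6, le_div_iff₀ hf] at h5
      linarith
    have h5 : (N.factorial : ℝ) ≤ (M : ℝ) ^ (c * (N + 1)) * q := by exact_mod_cast h4
    have h6 : (q : ℝ) ≤ (H : ℝ) ^ (N + 1) := by exact_mod_cast hq1
    calc (N.factorial : ℝ) ≤ (M : ℝ) ^ (c * (N + 1)) * q := h5
      _ ≤ (M : ℝ) ^ (c * (N + 1)) * (H : ℝ) ^ (N + 1) := mul_le_mul_of_nonneg_left h6 (by positivity)
      _ = ((M : ℝ) ^ c * H) ^ (N + 1) := by rw [pow_mul, mul_pow]
  have ht := (FloorSemiring.tendsto_pow_div_factorial_atTop ((M : ℝ) ^ c * H)).mul_const ((M : ℝ) ^ c * H)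
  rw [zero_mul] at ht
  obtain ⟨N, hN⟩ := (ht.eventually (gt_mem_nhds one_pos)).exists
  have h1 := hle N
  have hf : (0 : ℝ) < N.factorial := by exact_mod_cast N.factorial_pos
  rw [div_mul_eq_mul_div, ← pow_succ, div_lt_one hf] at hN
  linarith

end

end Pool.Agent.Helper79.GA
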