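import Mathlib

/-!
# GA-39: splitting of primes

Let `f = minpoly ℤ γ'` (monic, irreducible, `n = deg f = [F : ℚ]` since `ℚ(γ') = F`). There are `u, v ∈ ℤ[X]` and `0 ≠ D ∈ ℤ` with `u f + v f' = D` (separability over `ℚ`, clear denominators). `E` = the primes dividing `D`. Let `p ∉ E`; `f̄ ∈ 𝔽_p[X]` is separable.
(1) If `f̄` has an irreducible factor `h` of degree `≥ 2`: `ℤ[γ'] ≅ ℤ[X]/(f) → 𝔽_p[X]/(h)`, a field, has kernel a maximal ideal `𝔮` of `ℤ[γ']` (or consider directly a ring homomorphism from `𝓞 F` ...); by lying over (`Ideal.exists_ideal_over_maximal_of_isIntegral`, `𝓞 F` integral over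
`ℤ[γ']` (`Algebra.adjoin ℤ {γ'}`)) there is a prime `P` of `𝓞 F` over it. `p ∈ P`. If `γ' - z ∈ P` with `z ∈ ℤ` then the class of `X` in `𝔽_p[X]/(h)` is in `𝔽_p`, impossible since `deg h ≥ 2`.
(2) Otherwise `f̄ = ∏ (X - a_i)` with `n` different roots. For each `i` the same argument with `h = X - a_i` gives a prime `P_i` of `𝓞 F` with `p, γ' - a_i ∈ P_i`. They are different. By
`∑ e_P f_P = n` (`Ideal.sum_ramification_inertia`) over the primes above `p` and since there are `n` different `P_i`, all `e`, `f` are `1`, `N(P_i) = p^(f_i) = p` (`Ideal.absNorm_eq_pow_inertiaDeg` or similar). For `n ≥ 2` take two of them.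
-/

namespace Pool.Agent.Helper79.GA

open NumberField Polynomial

theorem spl_residue {F : Type} [Field F] [NumberField F] {γ : 𝓞 F} {D : ℤ}
    (hD : ∀ x : 𝓞 F, (D : 𝓞 F) * x ∈ Algebra.adjoin ℤ {γ}) {p : ℕ} (hp : p.Prime)
    (hpD : ¬ (p : ℤ) ∣ D) {P : Ideal (𝓞 F)} (hP : P.IsPrime) (hpP : (p : 𝓞 F) ∈ P)
    {z : ℤ} (hz : γ - (z : 𝓞 F) ∈ P) : Ideal.absNorm P = p := by
  have hle : Algebra.adjoin ℤ {γ} ≤
      (⊥ : Subalgebra ℤ (𝓞 F ⧸ P)).comap (Ideal.Quotient.mkₐ ℤ P) := by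
    rw [Algebra.adjoin_le_iff]
    intro y hy
    rw [Set.mem_singleton_iff] at hy
    subst hy
    show Ideal.Quotient.mkₐ ℤ P y ∈ (⊥ : Subalgebra ℤ (𝓞 F ⧸ P))
    rw [Algebra.mem_bot]
    refine ⟨z, ?_⟩
    have h1 : Ideal.Quotient.mk P (y - (z : 𝓞 F)) = 0 := Ideal.Quotient.eq_zero_iff_mem.2 hz
    rw [map_sub, sub_eq_zero] at h1
    rw [Ideal.Quotient.mkₐ_eq_mk, h1]
    simp
  have hcop : IsCoprime (D : ℤ) (p : ℤ) := by
    have h1 : IsCoprime (p : ℤ) D :=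
      (Nat.prime_iff_prime_int.1 hp).coprime_iff_not_dvd.2 hpD
    exact h1.symm
  obtain ⟨a, b, hab⟩ := hcop
  let f : ℤ →+* 𝓞 F ⧸ P := Int.castRingHom (𝓞 F ⧸ P)
  have hsurj : Function.Surjective f := by
    intro w
    obtain ⟨x, rfl⟩ := Ideal.Quotient.mk_surjective w
    have h1 := hle (hD x)
    have h2 : Ideal.Quotient.mkₐ ℤ P ((D : 𝓞 F) * x) ∈ (⊥ : Subalgebra ℤ (𝓞 F ⧸ P)) := h1
    rw [Algebra.mem_bot] at h2
    obtain ⟨m, hm⟩ := h2
    refine ⟨a * m, ?_⟩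
    have hp0 : Ideal.Quotient.mk P (p : 𝓞 F) = 0 := Ideal.Quotient.eq_zero_iff_mem.2 hpP
    have h3 : x = (a : 𝓞 F) * ((D : 𝓞 F) * x) + (b : 𝓞 F) * (p : 𝓞 F) * x := by
      have : ((a * D + b * p : ℤ) : 𝓞 F) = 1 := by rw [hab]; simp
      push_cast at this
      calc x = ((a : 𝓞 F) * D + b * p) * x := by rw [this, one_mul]
        _ = _ := by ring
    have h4 : Ideal.Quotient.mk P ((D : 𝓞 F) * x) = ((m : ℤ) : 𝓞 F ⧸ P) := by
      rw [Ideal.Quotient.mkₐ_eq_mk] at hm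
      rw [← hm]
      simp
    conv_rhs => rw [h3]
    rw [map_add, map_mul (Ideal.Quotient.mk P) (a : 𝓞 F) ((D : 𝓞 F) * x), h4,
      map_mul (Ideal.Quotient.mk P) ((b : 𝓞 F) * (p : 𝓞 F)) x,
      map_mul (Ideal.Quotient.mk P) (b : 𝓞 F) (p : 𝓞 F), hp0]
    simp [f]
  have hker : RingHom.ker f = Ideal.span {(p : ℤ)} := by
    have hmax : (Ideal.span {(p : ℤ)}).IsMaximal :=
      PrincipalIdealRing.isMaximal_of_irreducible (Nat.prime_iff_prime_int.1 hp).irreducible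
    refine (hmax.eq_of_le ?_ ?_).symm
    · haveI : Nontrivial (𝓞 F ⧸ P) := Ideal.Quotient.nontrivial_iff.2 hP.ne_top
      exact RingHom.ker_ne_top f
    · rw [Ideal.span_singleton_le_iff_mem, RingHom.mem_ker]
      have hp0 : Ideal.Quotient.mk P (p : 𝓞 F) = 0 := Ideal.Quotient.eq_zero_iff_mem.2 hpP
      rw [← hp0]
      simp [f]
  rw [Ideal.absNorm_apply, Submodule.cardQuot_apply]
  have e1 : (ℤ ⧸ RingHom.ker f) ≃+* (𝓞 F ⧸ P) := RingHom.quotientKerEquivOfSurjective hsurj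
  have e2 : (ℤ ⧸ RingHom.ker f) ≃+* ZMod p :=
    (Ideal.quotEquivOfEq hker).trans (Int.quotientSpanNatEquivZMod p)
  rw [← Nat.card_congr e1.toEquiv, Nat.card_congr e2.toEquiv, Nat.card_zmod]

theorem spl_trace {F : Type} [Field F] [NumberField F] {p : ℕ} (hp : p.Prime) {x : 𝓞 F}
    (hx : ∃ k : ℕ, x ^ k ∈ Ideal.span {(p : 𝓞 F)}) :
    (p : ℤ) ∣ Algebra.trace ℤ (𝓞 F) x := by
  haveI : Fact p.Prime := ⟨hp⟩
  obtain ⟨k, hk⟩ := hx
  obtain ⟨y, hy⟩ := Ideal.mem_span_singleton'.1 hk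
  classical
  let b := RingOfIntegers.basis F
  let A := Algebra.leftMulMatrix b x
  have hA : (A.map (Int.castRingHom (ZMod p))) ^ k = 0 := by
    have h1 : (A.map (Int.castRingHom (ZMod p))) ^ k =
        ((Int.castRingHom (ZMod p)).mapMatrix (Algebra.leftMulMatrix b (x ^ k))) := by
      rw [map_pow, map_pow]
      rfl
    rw [h1, ← hy, map_mul, map_mul]
    have h2 : (Int.castRingHom (ZMod p)).mapMatrix (Algebra.leftMulMatrix b (p : 𝓞 F)) = 0 := by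
      rw [map_natCast, map_natCast]
      ext i j
      simp
    rw [h2, mul_zero]
  have h3 : IsNilpotent (A.map (Int.castRingHom (ZMod p))).trace :=
    Matrix.isNilpotent_trace_of_isNilpotent ⟨k, hA⟩
  have h4 : (A.map (Int.castRingHom (ZMod p))).trace = 0 := h3.eq_zero
  have h5 : (A.map (Int.castRingHom (ZMod p))).trace = ((A.trace : ℤ) : ZMod p) := by
    simp [Matrix.trace]
  rw [h5, ZMod.intCast_zmod_eq_zero_iff_dvd] at h4
  rw [Algebra.trace_eq_matrix_trace b]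
  exact h4

theorem spl_det {F : Type} [Field F] [NumberField F] {p : ℕ} (hp : p.Prime) {γ : 𝓞 F}
    {z : ℤ} (h : ∀ y : 𝓞 F, (p : ℤ) ∣ Algebra.trace ℤ (𝓞 F) ((γ - (z : 𝓞 F)) * y))
    {n : ℕ} (hn : 2 ≤ n) :
    (p : ℤ) ∣ Algebra.discr ℤ (fun i : Fin n => γ ^ (i : ℕ)) := by
  haveI : Fact p.Prime := ⟨hp⟩
  rw [← ZMod.intCast_zmod_eq_zero_iff_dvd, Algebra.discr_def]
  have h1 : ((Algebra.traceMatrix ℤ (fun i : Fin n => γ ^ (i : ℕ))).det : ZMod p) =
      ((Algebra.traceMatrix ℤ (fun i : Fin n => γ ^ (i : ℕ))).map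
        (Int.castRingHom (ZMod p))).det := by
    have := (Int.castRingHom (ZMod p)).map_det
      (Algebra.traceMatrix ℤ (fun i : Fin n => γ ^ (i : ℕ)))
    simpa using this
  rw [h1]
  rw [← Matrix.exists_vecMul_eq_zero_iff]
  let i0 : Fin n := ⟨0, by omega⟩
  let i1 : Fin n := ⟨1, by omega⟩
  have h01 : i0 ≠ i1 := by simp [i0, i1]
  refine ⟨Pi.single i1 1 - Pi.single i0 (z : ZMod p), ?_, ?_⟩
  · intro h0
    have := congrFun h0 i1
    rw [Pi.sub_apply, Pi.single_eq_same, Pi.single_eq_of_ne h01.symm] at this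
    simp at this
  · rw [Matrix.sub_vecMul]
    ext j
    rw [Pi.sub_apply, Matrix.single_vecMul, Matrix.single_vecMul]
    simp only [Pi.smul_apply, Matrix.map_apply, Algebra.traceMatrix_apply,
      Algebra.traceForm_apply, smul_eq_mul, one_mul, Pi.zero_apply]
    have h2 : (γ - (z : 𝓞 F)) * γ ^ (j : ℕ) =
        γ ^ (i1 : ℕ) * γ ^ (j : ℕ) - z • (γ ^ (i0 : ℕ) * γ ^ (j : ℕ)) := by
      simp [i0, i1, sub_mul]
    have h3 := h (γ ^ (j : ℕ))
    rw [h2, map_sub, map_zsmul, ← ZMod.intCast_zmod_eq_zero_iff_dvd] at h3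
    simpa using h3

theorem split_or {F : Type} [Field F] [NumberField F] (hF : 2 ≤ Module.finrank ℚ F) (γ : 𝓞 F)
    (hγ : IntermediateField.adjoin ℚ {(γ : F)} = ⊤) :
    ∃ E : Finset ℕ, ∀ p : ℕ, p.Prime → p ∉ E →
      (∃ P : Ideal (𝓞 F), P.IsPrime ∧ (p : 𝓞 F) ∈ P ∧ ∀ z : ℤ, γ - (z : 𝓞 F) ∉ P) ∨
      ∃ P₁ P₂ : Ideal (𝓞 F), P₁ ≠ P₂ ∧ P₁.IsPrime ∧ P₂.IsPrime ∧
        Ideal.absNorm P₁ = p ∧ Ideal.absNorm P₂ = p := by
  have hint : IsIntegral ℚ (γ : F) := Algebra.IsIntegral.isIntegral (γ : F)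
  let pb : PowerBasis ℚ F := (IntermediateField.adjoin.powerBasis hint).map
    ((IntermediateField.equivOfEq hγ).trans IntermediateField.topEquiv)
  have hgen : pb.gen = (γ : F) := by
    simp only [pb, PowerBasis.map_gen, IntermediateField.adjoin.powerBasis_gen]
    rfl
  have hdim : pb.dim = Module.finrank ℚ F := pb.finrank.symm
  let D : ℤ := Algebra.discr ℤ (fun i : Fin pb.dim => γ ^ (i : ℕ))
  have hDQ : (D : ℚ) = Algebra.discr ℚ pb.basis := by
    simp only [D]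
    rw [Algebra.discr_def, Algebra.discr_def]
    have := (Int.castRingHom ℚ).map_det
      (Algebra.traceMatrix ℤ (fun i : Fin pb.dim => γ ^ (i : ℕ)))
    rw [eq_intCast] at this
    rw [this]
    congr 1
    ext i j
    rw [RingHom.mapMatrix_apply, Matrix.map_apply, Algebra.traceMatrix_apply,
      Algebra.traceMatrix_apply, Algebra.traceForm_apply, Algebra.traceForm_apply,
      PowerBasis.coe_basis, eq_intCast, Algebra.coe_trace_int]
    simp only [hgen]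
    congr 1
  have hD0 : D ≠ 0 := by
    intro h0
    apply Algebra.discr_not_zero_of_basis ℚ pb.basis
    rw [← hDQ, h0, Int.cast_zero]
  have hDx : ∀ x : 𝓞 F, (D : 𝓞 F) * x ∈ Algebra.adjoin ℤ {γ} := by
    intro x
    have h1 : Algebra.discr ℚ pb.basis • (x : F) ∈ Algebra.adjoin ℤ {pb.gen} := by
      apply Algebra.discr_mul_isIntegral_mem_adjoin ℚ
      · rw [hgen]
        exact RingOfIntegers.isIntegral_coe γ
      · exact RingOfIntegers.isIntegral_coe x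
    rw [hgen, Algebra.adjoin_singleton_eq_range_aeval] at h1
    obtain ⟨q, hq⟩ := h1
    rw [Algebra.adjoin_singleton_eq_range_aeval]
    refine ⟨q, ?_⟩
    apply RingOfIntegers.coe_injective
    have hq' : aeval (γ : F) q = Algebra.discr ℚ pb.basis • (x : F) := hq
    have h2 : ((aeval γ q : 𝓞 F) : F) = aeval (γ : F) q :=
      (aeval_algebraMap_apply F γ q).symm
    show ((aeval γ q : 𝓞 F) : F) = (((D : 𝓞 F) * x : 𝓞 F) : F)
    rw [h2, hq', ← hDQ]
    simp [Algebra.smul_def]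
  refine ⟨D.natAbs.primeFactors, fun p hp hpE => ?_⟩
  have hpD : ¬ (p : ℤ) ∣ D := by
    intro hd
    apply hpE
    rw [Nat.mem_primeFactors]
    exact ⟨hp, Int.natCast_dvd.1 hd, Int.natAbs_ne_zero.2 hD0⟩
  by_cases h1 : ∃ P : Ideal (𝓞 F), P.IsPrime ∧ (p : 𝓞 F) ∈ P ∧ ∀ z : ℤ, γ - (z : 𝓞 F) ∉ P
  · exact Or.inl h1
  right
  push Not at h1
  have hnorm : ∀ P : Ideal (𝓞 F), P.IsPrime → (p : 𝓞 F) ∈ P → Ideal.absNorm P = p := by
    intro P hP hpP
    obtain ⟨z, hz⟩ := h1 P hP hpP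
    exact spl_residue hDx hp hpD hP hpP hz
  have htop : Ideal.span {(p : 𝓞 F)} ≠ ⊤ := by
    intro ht
    rw [Ideal.span_singleton_eq_top] at ht
    have h2 : IsUnit (Algebra.norm ℤ (p : 𝓞 F)) := ht.map (Algebra.norm ℤ)
    have h3 : Algebra.norm ℤ (p : 𝓞 F) = (p : ℤ) ^ Module.finrank ℤ (𝓞 F) := by
      have := Algebra.norm_algebraMap_of_basis (RingOfIntegers.basis F) (p : ℤ)
      rw [← Module.finrank_eq_card_basis (RingOfIntegers.basis F)] at this
      simpa using this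
    rw [h3, RingOfIntegers.rank, isUnit_pow_iff (by omega)] at h2
    exact (Nat.prime_iff_prime_int.1 hp).not_isUnit h2
  obtain ⟨P₁, hP₁m, hP₁⟩ := Ideal.exists_le_maximal _ htop
  have hpP₁ : (p : 𝓞 F) ∈ P₁ := hP₁ (Ideal.mem_span_singleton_self _)
  by_contra hno
  push Not at hno
  have huniq : ∀ P : Ideal (𝓞 F), P.IsPrime → (p : 𝓞 F) ∈ P → P = P₁ := by
    intro P hP hpP
    by_contra hne
    exact hno P P₁ hne hP hP₁m.isPrime (hnorm P hP hpP) (hnorm P₁ hP₁m.isPrime hpP₁)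
  obtain ⟨z, hz⟩ := h1 P₁ hP₁m.isPrime hpP₁
  apply hpD
  apply spl_det hp (z := z) _ (by omega)
  intro y
  apply spl_trace hp
  have h5 : (γ - (z : 𝓞 F)) * y ∈ (Ideal.span {(p : 𝓞 F)}).radical := by
    rw [Ideal.radical_eq_sInf, Ideal.mem_sInf]
    rintro J ⟨hJ1, hJ2⟩
    rw [huniq J hJ2 (hJ1 (Ideal.mem_span_singleton_self _))]
    exact Ideal.mul_mem_right _ _ hz
  exact Ideal.mem_radical_iff.1 h5

end Pool.Agent.Helper79.GA
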