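import Pool.Agent.Helper79.GA.Tra
import Pool.Agent.Helper79.GA.Num
import Pool.Agent.Helper79.GA.Mer
import Pool.Agent.Helper79.GA.Spl

/-!
# GA-40: a number whose binomial coefficients have geometric denominators is rational

`γ` is algebraic (`bc_alg`). Assume that `γ` is not rational; `F = ℚ(γ)` (`IntermediateField.adjoin ℚ {γ}`), `[F : ℚ] ≥ 2`. Let `s ≥ 1` be an integer with `γ' = s γ` integral; `ℚ(γ') = F`. By `num_gen`: `M` such that (with `hypothesis`) `q_N M^(c (N+1)) bc γ N` is integral over `ℤ`, and it is in `F`.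
Let `p` be a prime not in `E` (`split_or` for `γ'`), `p ∤ s M`, with a prime ideal `P ∋ p` of `𝓞 F` such that `γ' - z ∉ P` for all `z ∈ ℤ` (`p` is bad). With `U = ∏_{i<N} (γ' - s i) ∉ P`: `q_N M^(c(N+1)) U = s^N N! z` for some `z ∈ 𝓞 F`. Let `v = v_p(N!)`: `p^v ∣ q_N`: otherwise
`q_N = p^w q'`, `w < v`, `p ∤ q'`, so `q' M^(c(N+1)) U = s^N (N!/p^w) z ∈ P` (cancel `p^w` in the domain `𝓞 F`), but `q', M, U ∉ P` (`P ∩ ℤ = pℤ`), a contradiction. So for a finite set `S` of bad primes `≤ N`: `∏_{p ∈ S} p^(v_p(N!)) ∣ q_N ≤ H^(N+1)`,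
`∑_{p ∈ S} v_p(N!) log p ≤ (N+1) log H`, `v_p(N!) ≥ ⌊N/p⌋ ≥ N/p - 1`, and with `∑_{p ≤ N} log p ≤ N log 4` (`Chebyshev.theta_le_log4_mul_x`, primorial): `∑_{p ∈ S} log p/p ≤ C` (independent of `S`, `N`; for a finite set `S` take `N ≥ max S`, `N ≥ 1`).
So with `B` = bad primes `∪ E ∪` {primes dividing `s M`} the sums `∑_{p ∈ s} log p/p`, `s ⊂ B` finite, are bounded, and all primes not in `B` have two prime ideals of norm `p` by `split_or`: contradiction to `two_primes_div`.
-/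

open Polynomial

namespace Pool.Agent.Helper79.GA

open Pool.Agent.Helper79.CU Pool.Agent.Helper79.SE

private theorem rat_nat_notMem {R : Type} [CommRing R] {P : Ideal R} (hP : P.IsPrime) {p : ℕ}
    (hp : p.Prime) (hpP : (p : R) ∈ P) {a : ℕ} (ha : ¬ p ∣ a) : (a : R) ∉ P := by
  intro h
  have hc : IsCoprime (p : ℤ) (a : ℤ) := Nat.isCoprime_iff_coprime.mpr ((hp.coprime_iff_not_dvd).mpr ha)
  obtain ⟨u, v, huv⟩ := hc
  have h1 : (u : R) * (p : R) + (v : R) * (a : R) = 1 := by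
    have := congrArg (Int.cast : ℤ → R) huv
    push_cast at this
    exact this
  apply hP.ne_top
  rw [Ideal.eq_top_iff_one, ← h1]
  exact P.add_mem (P.mul_mem_left _ hpP) (P.mul_mem_left _ h)

private theorem rat_dvd {R : Type} [CommRing R] [IsDomain R] [CharZero R] {P : Ideal R}
    (hP : P.IsPrime) {p : ℕ} (hp : p.Prime) (hpP : (p : R) ∈ P) {q s M n k r : ℕ} (hq : 0 < q)
    (hpM : ¬ p ∣ M) {U z : R} (hU : U ∉ P) (hr : p ^ r ∣ n)
    (h : ((s * n : ℕ) : R) * z = (q : R) * (M : R) ^ k * U) : p ^ r ∣ q := by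
  obtain ⟨w, q', hq', rfl⟩ := Nat.exists_eq_pow_mul_and_not_dvd hq.ne' p hp.ne_one
  rcases le_or_gt r w with hrw | hrw
  · exact (pow_dvd_pow p hrw).trans (Dvd.intro _ rfl)
  exfalso
  obtain ⟨n', rfl⟩ := hr
  obtain ⟨j, rfl⟩ : ∃ j, r = w + j + 1 := ⟨r - w - 1, by omega⟩
  have hp0 : (p : R) ^ w ≠ 0 := pow_ne_zero _ (by exact_mod_cast hp.ne_zero)
  have h1 : (q' : R) * (M : R) ^ k * U = (p : R) * ((s : R) * (p : R) ^ j * (n' : R) * z) := by
    apply mul_left_cancel₀ hp0
    push_cast at h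
    calc (p : R) ^ w * ((q' : R) * (M : R) ^ k * U) = (p : R) ^ w * (q' : R) * (M : R) ^ k * U := by
          ring
      _ = _ := by rw [← h]; ring
  have h2 : (q' : R) * (M : R) ^ k * U ∈ P := by
    rw [h1]
    exact P.mul_mem_right _ hpP
  rcases hP.mem_or_mem h2 with h3 | h3
  · rcases hP.mem_or_mem h3 with h4 | h4
    · exact rat_nat_notMem hP hp hpP hq' h4
    · exact rat_nat_notMem hP hp hpP hpM (hP.mem_of_pow_mem _ h4)
  · exact hU h3

private theorem rat_fact {p : ℕ} (hp : p.Prime) (N : ℕ) : p ^ (N / p) ∣ N.factorial := by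
  rw [hp.pow_dvd_factorial_iff (b := N + 2)]
  · have h : (1 : ℕ) ∈ Finset.Ico 1 (N + 2) := by simp
    calc N / p = N / p ^ 1 := by rw [pow_one]
      _ ≤ _ := Finset.single_le_sum (f := fun i => N / p ^ i) (fun i _ => Nat.zero_le _) h
  · exact lt_of_le_of_lt (Nat.log_le_self p N) (by omega)

private theorem rat_sum_le {H : ℕ} (S : Finset ℕ) (hS : ∀ p ∈ S, p.Prime)
    (h : ∀ N : ℕ, ∃ q : ℕ, 0 < q ∧ q ≤ H ^ (N + 1) ∧ ∀ p ∈ S, p ^ (N / p) ∣ q) :
    ∑ p ∈ S, Real.log p / p ≤ 2 * Real.log H + Real.log 4 := by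
  have hH : 1 ≤ H := by
    obtain ⟨q, h0, h1, -⟩ := h 0
    rw [zero_add, pow_one] at h1
    omega
  have hlH : 0 ≤ Real.log H := Real.log_nonneg (by exact_mod_cast hH)
  set N : ℕ := max 1 (S.sup id) with hN
  have hN1 : 1 ≤ N := le_max_left _ _
  have hSN : ∀ p ∈ S, p ≤ N := fun p hp => (Finset.le_sup (f := id) hp).trans (le_max_right _ _)
  obtain ⟨q, h0, h1, h2⟩ := h N
  have h3 : ∏ p ∈ S, p ^ (N / p) ∣ q := by
    apply Finset.prod_dvd_of_isRelPrime
    · intro a ha b hb hab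
      rw [Function.onFun, ← Nat.coprime_iff_isRelPrime]
      exact Nat.Coprime.pow _ _ ((Nat.coprime_primes (hS a ha) (hS b hb)).mpr hab)
    · exact h2
  have h4 : ∏ p ∈ S, p ^ (N / p) ≤ H ^ (N + 1) := (Nat.le_of_dvd h0 h3).trans h1
  have h5 : ∑ p ∈ S, ((N / p : ℕ) : ℝ) * Real.log p ≤ (N + 1 : ℝ) * Real.log H := by
    have h6 : ((∏ p ∈ S, p ^ (N / p) : ℕ) : ℝ) ≤ (H : ℝ) ^ (N + 1) := by exact_mod_cast h4
    have h7 : (0 : ℝ) < ((∏ p ∈ S, p ^ (N / p) : ℕ) : ℝ) := by
      exact_mod_cast Finset.prod_pos fun p hp => Nat.pow_pos (hS p hp).pos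
    have h8 := Real.log_le_log h7 h6
    rw [Real.log_pow] at h8
    push_cast at h8
    rw [Real.log_prod (fun p hp => pow_ne_zero _ (by exact_mod_cast (hS p hp).ne_zero))] at h8
    simp only [Real.log_pow] at h8
    exact h8
  have h6 : ∑ p ∈ S, Real.log p ≤ N * Real.log 4 := by
    have h7 : ∏ p ∈ S, p ≤ 4 ^ N := by
      refine le_trans ?_ (primorial_le_four_pow N)
      rw [primorial]
      refine Finset.prod_le_prod_of_subset_of_one_le' (fun p hp => ?_) (fun p hp _ => ?_)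
      · rw [Finset.mem_filter, Finset.mem_range]
        exact ⟨by have := hSN p hp; omega, hS p hp⟩
      · exact (Finset.mem_filter.mp hp).2.one_lt.le
    have h8 : ((∏ p ∈ S, p : ℕ) : ℝ) ≤ (4 : ℝ) ^ N := by exact_mod_cast h7
    have h9 : (0 : ℝ) < ((∏ p ∈ S, p : ℕ) : ℝ) := by
      exact_mod_cast Finset.prod_pos fun p hp => (hS p hp).pos
    have h10 := Real.log_le_log h9 h8
    rw [Real.log_pow] at h10
    push_cast at h10
    rw [Real.log_prod (fun p hp => by exact_mod_cast (hS p hp).ne_zero)] at h10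
    exact h10
  have h7 : (N : ℝ) * ∑ p ∈ S, Real.log p / p ≤
      ∑ p ∈ S, ((N / p : ℕ) : ℝ) * Real.log p + ∑ p ∈ S, Real.log p := by
    rw [Finset.mul_sum, ← Finset.sum_add_distrib]
    refine Finset.sum_le_sum fun p hp => ?_
    have hp0 : (0 : ℝ) < p := by exact_mod_cast (hS p hp).pos
    have hlp : 0 ≤ Real.log p := Real.log_nonneg (by exact_mod_cast (hS p hp).one_lt.le)
    have h8 : (N : ℝ) ≤ p * ((N / p : ℕ) + 1) := by
      exact_mod_cast (Nat.lt_mul_div_succ N (hS p hp).pos).le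
    have h9 : (N : ℝ) / p ≤ (N / p : ℕ) + 1 := by
      rw [div_le_iff₀ hp0]
      linarith
    calc (N : ℝ) * (Real.log p / p) = (N : ℝ) / p * Real.log p := by ring
      _ ≤ (((N / p : ℕ) : ℝ) + 1) * Real.log p := mul_le_mul_of_nonneg_right h9 hlp
      _ = _ := by ring
  have hNr : (1 : ℝ) ≤ N := by exact_mod_cast hN1
  have h8 : (N : ℝ) * ∑ p ∈ S, Real.log p / p ≤ N * (2 * Real.log H + Real.log 4) := by
    nlinarith
  exact le_of_mul_le_mul_left h8 (by linarith)

private theorem rat_top {Ω : Type} [Field Ω] [CharZero Ω] (γ : Ω)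
    (alg : Algebra ℚ (IntermediateField.adjoin ℚ {γ})) :
    @IntermediateField.adjoin ℚ _ (IntermediateField.adjoin ℚ {γ}) _ alg
      {IntermediateField.AdjoinSimple.gen ℚ γ} = ⊤ := by
  obtain rfl : alg = IntermediateField.algebra' (IntermediateField.adjoin ℚ {γ}) :=
    Subsingleton.elim _ _
  apply IntermediateField.lift_injective (IntermediateField.adjoin ℚ {γ})
  rw [IntermediateField.lift_adjoin_simple, IntermediateField.lift_top]
  rfl

theorem bc_rat {Ω : Type} [Field Ω] [CharZero Ω] {γ : Ω} (h : GmS fun m (_ : Unit) => bc γ m) :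
    ∃ q : ℚ, γ = (q : Ω) := by
  classical
  obtain ⟨T, c, H, hT, h⟩ := h
  have halg : IsAlgebraic ℚ γ := bc_alg hT c H fun N => by
    obtain ⟨q, h0, h1, h2⟩ := h N
    exact ⟨q, h0, h1, h2 N le_rfl ()⟩
  by_contra hno
  have hint : IsIntegral ℚ γ := halg.isIntegral
  have : FiniteDimensional ℚ (IntermediateField.adjoin ℚ {γ}) :=
    IntermediateField.adjoin.finiteDimensional hint
  have : NumberField (IntermediateField.adjoin ℚ {γ}) := ⟨⟩
  set g : IntermediateField.adjoin ℚ {γ} := IntermediateField.AdjoinSimple.gen ℚ γ with hg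
  have hgγ : algebraMap (IntermediateField.adjoin ℚ {γ}) Ω g = γ :=
    IntermediateField.AdjoinSimple.algebraMap_gen ℚ γ
  have hF2 : 2 ≤ Module.finrank ℚ (IntermediateField.adjoin ℚ {γ}) := by
    have h1 : 0 < Module.finrank ℚ (IntermediateField.adjoin ℚ {γ}) := Module.finrank_pos
    have h2 : Module.finrank ℚ (IntermediateField.adjoin ℚ {γ}) ≠ 1 := by
      intro h3
      rw [IntermediateField.finrank_eq_one_iff, IntermediateField.adjoin_simple_eq_bot_iff,
        IntermediateField.mem_bot] at h3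
      obtain ⟨x, hx⟩ := h3
      apply hno
      refine ⟨x, ?_⟩
      rw [← hx]
      simp
    omega
  -- an integral multiple
  obtain ⟨y, hy0, hy⟩ := ((IsFractionRing.isAlgebraic_iff ℤ ℚ _).mpr
    (Algebra.IsAlgebraic.isAlgebraic (R := ℚ) g)).exists_integral_multiple
  obtain ⟨s, hs0, hs⟩ : ∃ s : ℕ, s ≠ 0 ∧
      IsIntegral ℤ ((s : IntermediateField.adjoin ℚ {γ}) * g) := by
    refine ⟨y.natAbs, Int.natAbs_ne_zero.mpr hy0, ?_⟩
    rw [zsmul_eq_mul] at hy
    rcases Int.natAbs_eq y with h | h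
    · rw [h, Int.cast_natCast] at hy
      exact hy
    · rw [h, Int.cast_neg, Int.cast_natCast, neg_mul] at hy
      simpa using hy.neg
  set g' : NumberField.RingOfIntegers (IntermediateField.adjoin ℚ {γ}) := ⟨_, hs⟩ with hg'
  have hg'' : (g' : IntermediateField.adjoin ℚ {γ}) = (s : IntermediateField.adjoin ℚ {γ}) * g := rfl
  have hadj : IntermediateField.adjoin ℚ {(g' : IntermediateField.adjoin ℚ {γ})} = ⊤ := by
    have h1 : IntermediateField.adjoin ℚ {g} = ⊤ := rat_top γ _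
    rw [eq_top_iff, ← h1, IntermediateField.adjoin_simple_le_iff]
    have h2 : (g' : IntermediateField.adjoin ℚ {γ}) ∈
        IntermediateField.adjoin ℚ {(g' : IntermediateField.adjoin ℚ {γ})} :=
      IntermediateField.mem_adjoin_simple_self ℚ _
    have h3 : g = (s : IntermediateField.adjoin ℚ {γ})⁻¹ * (g' : IntermediateField.adjoin ℚ {γ}) := by
      rw [hg'', ← mul_assoc, inv_mul_cancel₀ (by exact_mod_cast hs0), one_mul]
    rw [h3]
    exact mul_mem (inv_mem (natCast_mem _ s)) h2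
  obtain ⟨E, hE⟩ := split_or hF2 g' hadj
  obtain ⟨M, hM, hgen⟩ := num_gen hT
  set B : Set ℕ := {p | p ∈ E ∨ p ∣ s * M ∨
    ∃ P : Ideal (NumberField.RingOfIntegers (IntermediateField.adjoin ℚ {γ})), P.IsPrime ∧
      (p : NumberField.RingOfIntegers (IntermediateField.adjoin ℚ {γ})) ∈ P ∧
      ∀ z : ℤ, g' - (z : NumberField.RingOfIntegers (IntermediateField.adjoin ℚ {γ})) ∉ P} with hB
  refine two_primes_div (F := IntermediateField.adjoin ℚ {γ}) (B := B) ?_ ?_
  · intro p hp hpB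
    simp only [hB, Set.mem_ofPred_eq, not_or] at hpB
    rcases hE p hp hpB.1 with h1 | h1
    · exact absurd h1 hpB.2.2
    · exact h1
  refine ⟨∑ p ∈ E ∪ (s * M).primeFactors, Real.log p / p + (2 * Real.log H + Real.log 4), ?_⟩
  intro S hS
  rw [← Finset.sum_filter_add_sum_filter_not S (fun p => p ∈ E ∪ (s * M).primeFactors)]
  apply add_le_add
  · apply Finset.sum_le_sum_of_subset_of_nonneg
    · intro p hp
      exact (Finset.mem_filter.mp hp).2
    · intro p _ _
      exact div_nonneg (Real.log_natCast_nonneg p) (Nat.cast_nonneg p)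
  apply rat_sum_le
  · intro p hp
    exact (hS p (Finset.mem_filter.mp hp).1).1
  intro N
  obtain ⟨q, h0, h1, h2⟩ := h N
  refine ⟨q, h0, h1, fun p hp => ?_⟩
  obtain ⟨hpS, hpE⟩ := Finset.mem_filter.mp hp
  obtain ⟨hpp, hpB⟩ := hS p hpS
  rw [Finset.mem_union, not_or] at hpE
  have hsM : s * M ≠ 0 := Nat.mul_ne_zero hs0 (by omega)
  have hpsM : ¬ p ∣ s * M := fun hd => hpE.2 (Nat.mem_primeFactors.mpr ⟨hpp, hd, hsM⟩)
  obtain ⟨P, hP, hpP, hPz⟩ : ∃ P : Ideal (NumberField.RingOfIntegers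
      (IntermediateField.adjoin ℚ {γ})), P.IsPrime ∧
      (p : NumberField.RingOfIntegers (IntermediateField.adjoin ℚ {γ})) ∈ P ∧
      ∀ z : ℤ, g' - (z : NumberField.RingOfIntegers (IntermediateField.adjoin ℚ {γ})) ∉ P := by
    rcases hpB with h3 | h3 | h3
    · exact absurd h3 hpE.1
    · exact absurd h3 hpsM
    · exact h3
  have hbc : ∀ N, algebraMap (IntermediateField.adjoin ℚ {γ}) Ω (bc g N) = bc γ N := by
    intro N
    simp only [bc, map_div₀, map_prod, map_sub, map_natCast, hgγ]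
  have hzint : IsIntegral ℤ ((M : IntermediateField.adjoin ℚ {γ}) ^ (c * (N + 1)) *
      ((q : IntermediateField.adjoin ℚ {γ}) * bc g N)) := by
    rw [← isIntegral_algebraMap_iff
      (algebraMap (IntermediateField.adjoin ℚ {γ}) Ω).injective]
    rw [map_mul, map_mul, map_pow, map_natCast, map_natCast, hbc]
    refine hgen _ _ ?_ (h2 N le_rfl ())
    have h3 : IsAlgebraic ℚ ((q : IntermediateField.adjoin ℚ {γ}) * bc g N) :=
      Algebra.IsAlgebraic.isAlgebraic _
    have h4 := h3.algebraMap (A := Ω)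
    rw [map_mul, map_natCast, hbc] at h4
    exact h4
  set z : NumberField.RingOfIntegers (IntermediateField.adjoin ℚ {γ}) := ⟨_, hzint⟩ with hz
  refine rat_dvd (s := s ^ N) (M := M) (n := N.factorial) (k := c * (N + 1)) hP hpp hpP h0
    (fun hd => hpsM (hd.mul_left s)) (U := ∏ i ∈ Finset.range N,
      (g' - (((s * i : ℕ) : ℤ) : NumberField.RingOfIntegers (IntermediateField.adjoin ℚ {γ}))))
    (z := z) ?_ (rat_fact hpp N) ?_
  · intro hmem
    rw [hP.prod_mem_iff] at hmem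
    obtain ⟨i, -, hi⟩ := hmem
    exact hPz _ hi
  · apply NumberField.RingOfIntegers.ext
    have hzF : ((z : NumberField.RingOfIntegers (IntermediateField.adjoin ℚ {γ})) :
        IntermediateField.adjoin ℚ {γ}) = (M : IntermediateField.adjoin ℚ {γ}) ^ (c * (N + 1)) *
      ((q : IntermediateField.adjoin ℚ {γ}) * bc g N) := rfl
    have hprod : ∏ i ∈ Finset.range N, ((s : IntermediateField.adjoin ℚ {γ}) * g - s * i) =
        (s : IntermediateField.adjoin ℚ {γ}) ^ N * ∏ i ∈ Finset.range N, (g - (i : IntermediateField.adjoin ℚ {γ})) := by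
      rw [← Finset.card_range N, ← Finset.prod_const, Finset.card_range, ← Finset.prod_mul_distrib]
      refine Finset.prod_congr rfl fun i _ => ?_
      ring
    have hf : (N.factorial : IntermediateField.adjoin ℚ {γ}) ≠ 0 := by
      exact_mod_cast N.factorial_ne_zero
    simp only [map_mul, map_pow, map_natCast, map_prod, map_sub, hzF, hg'',
      Nat.cast_mul, Int.cast_mul, Int.cast_natCast, Nat.cast_pow]
    rw [hprod, bc]
    field_simp

end Pool.Agent.Helper79.GA
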