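import Pool.Agent.Helper79.GA.CycT
import Pool.Agent.Helper79.GA.PlcX
import Pool.Agent.Helper79.GA.Rat

/-!
# GA-36: tame systems are regular at infinity with rational exponents

`φ` = expansion at infinity (`plc_inf`), `y = -u`, `e = 1`, `Θ v = -u • nab D a v` (`κ`-linear by `h.const`), `hst` by `ratx_tame`. `cyc_thm`: `C`, `C'`, `a'` (called `a` there), reindex `Fin (r + 1)` by `ι`.
So `D C + C a = -u⁻¹ cmp(a') C`. Let `w ∈ κ[X]`, `w ≠ 0`, be a common denominator of the `a'_i = p_i(u)/w(u)`: `deg p_i ≤ deg w` since `φ(a'_i)` is regular (`φ(p(u)) = ∑ p_j single (-j) 1`, leading term), and `(φ(a'_i))_0 = (p_i)_{deg w}/lc(w)`. Let `s ∈ κ[X]`, `s ≠ 0`, such that `s(u) C'` has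
polynomial entries: `Z(u) = s(u) C'`. `M = s(u)⁻¹ C` (reindexed). Then `Z(u) M = 1 = M Z(u)`, and `D M + M a = (-u⁻¹ cmp(a') - (s'/s)(u) 1) M`. Put `T = X w s` and
`A = -s · (w cmp(a')) - X w s' · 1` (polynomials): `A(u)/T(u) = -u⁻¹ cmp(a') - s'/s`. `deg A_ij ≤ deg T - 1`, and the coefficient of index `deg T - 1` is
`-lc(s) lc(w) (cmp(a'(∞))_ij + deg(s) δ_ij)`, `a'(∞)_i = (φ(a'_i))_0`: `N = cmp(a'(∞)) + deg(s) · 1` (`lc(T) = lc(w) lc(s)`; characteristic `0`).
Exponents: if `γ` (in `AlgebraicClosure κ`) is a root of `N.charpoly`, then `γ - deg s` is an eigenvalue of `cmp(a'(∞))` (`Matrix.exists_mulVec_eq_zero_iff`/`Matrix.eval_charpoly`), so a root of `chi φ a'` (a row eigenvector: `v cmp = λ v` gives `v_{j-1} + v_r a_j = λ v_j`, so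
`v_r (λ^(r+1) - ∑ a_j λ^j) = 0` with `v_r ≠ 0`; or the characteristic polynomial of a companion matrix); `cyc_thm` and `bc_rat`: `γ - deg s ∈ ℚ`.
-/

open Polynomial

namespace Pool.Agent.Helper79.GA

open Pool.Agent.Helper79.CU Pool.Agent.Helper79.SE

section RegI

variable {κ K : Type} [Field κ] [CharZero κ] [Field K] [CharZero K] [Algebra κ K] {u : K}
  {D : Derivation ℚ K K}

omit [CharZero κ] in
theorem regI_ne (h : RatX κ u D) {p : κ[X]} (hp : p ≠ 0) : aeval u p ≠ 0 := fun h0 =>
  h.tr ⟨p, hp, h0⟩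

omit [CharZero κ] in
theorem regI_D (h : RatX κ u D) (p : κ[X]) : D (aeval u p) = aeval u (derivative p) := by
  induction p using Polynomial.induction_on with
  | C a => rw [aeval_C, h.const, derivative_C, map_zero]
  | add p q hp hq => rw [map_add, map_add, hp, hq, derivative_add, map_add]
  | monomial n a hn =>
    obtain ⟨q, hq⟩ : ∃ q : κ[X], q = C a * X ^ n := ⟨_, rfl⟩
    rw [pow_succ, ← mul_assoc, ← hq]
    rw [← hq] at hn
    rw [map_mul, aeval_X, Derivation.leibniz, h.dx, hn, derivative_mul, derivative_X, map_add,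
      map_mul, map_mul, aeval_X, map_one, smul_eq_mul, smul_eq_mul]
    ring

omit [CharZero κ] in
theorem regI_den (h : RatX κ u D) {α : Type} [Finite α] (f : α → K) :
    ∃ (w : κ[X]) (p : α → κ[X]), w ≠ 0 ∧ ∀ i, f i * aeval u w = aeval u (p i) := by
  classical
  have := Fintype.ofFinite α
  choose P Q hQ hf using fun i => h.quo (f i)
  have hQ0 : ∀ i, Q i ≠ 0 := fun i h0 => hQ i (by rw [h0, map_zero])
  refine ⟨∏ i, Q i, fun i => P i * ∏ j ∈ Finset.univ.erase i, Q j,
    Finset.prod_ne_zero_iff.2 fun i _ => hQ0 i, fun i => ?_⟩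
  rw [← Finset.mul_prod_erase Finset.univ Q (Finset.mem_univ i), map_mul, map_mul, ← mul_assoc,
    hf i, div_mul_cancel₀ _ (hQ i)]

omit [CharZero κ] [CharZero K] in
theorem regI_coeff {φ : K →+* LaurentSeries κ} (hc : ∀ c, φ (algebraMap κ K c) = HahnSeries.C c)
    (hu : φ u = HahnSeries.single (-1) 1) (p : κ[X]) (n : ℕ) :
    (φ (aeval u p)).coeff (-(n : ℤ)) = p.coeff n := by
  rw [aeval_eq_sum_range, map_sum, HahnSeries.coeff_sum]
  have h1 : ∀ i : ℕ, (φ (p.coeff i • u ^ i)).coeff (-(n : ℤ)) = if i = n then p.coeff i else 0 := by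
    intro i
    rw [Algebra.smul_def, map_mul, hc, map_pow, hu, HahnSeries.single_pow, one_pow,
      HahnSeries.C_mul_eq_smul, HahnSeries.coeff_smul, HahnSeries.coeff_single]
    by_cases h : i = n
    · rw [if_pos h, if_pos (by rw [h]; simp), smul_eq_mul, mul_one]
    · rw [if_neg h, if_neg (by simp; omega), smul_zero]
  simp only [h1]
  rw [Finset.sum_ite_eq']
  split_ifs with h
  · rfl
  · rw [Finset.mem_range] at h
    exact (coeff_eq_zero_of_natDegree_lt (by omega)).symm

omit [CharZero κ] [CharZero K] in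
theorem regI_pgV {φ : K →+* LaurentSeries κ} (hc : ∀ c, φ (algebraMap κ K c) = HahnSeries.C c)
    (hu : φ u = HahnSeries.single (-1) 1) (p : κ[X]) :
    pgV (-(p.natDegree : ℤ)) (φ (aeval u p)) := by
  intro i hi
  obtain ⟨n, rfl⟩ : ∃ n : ℕ, i = -(n : ℤ) := ⟨i.natAbs, by omega⟩
  rw [regI_coeff hc hu]
  exact coeff_eq_zero_of_natDegree_lt (by omega)

omit [CharZero K] in
theorem regI_deg {φ : K →+* LaurentSeries κ} (hc : ∀ c, φ (algebraMap κ K c) = HahnSeries.C c)
    (hu : φ u = HahnSeries.single (-1) 1) {f : K} {w p : κ[X]}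
    (hf : f * aeval u w = aeval u p) (hV : pgV 0 (φ f)) :
    p.natDegree ≤ w.natDegree ∧ p.coeff w.natDegree = (φ f).coeff 0 * w.leadingCoeff := by
  have h1 : φ (aeval u p) = φ f * φ (aeval u w) := by rw [← hf, map_mul]
  constructor
  · rw [natDegree_le_iff_coeff_eq_zero]
    intro n hn
    rw [← regI_coeff hc hu p n, h1]
    exact pgV_mul hV (regI_pgV hc hu w) _ (by omega)
  · rw [← regI_coeff hc hu p, h1, lau_coeff_mul (a := 0) (b := -(w.natDegree : ℤ)) hV
      (regI_pgV hc hu w), sub_self, Finset.Icc_self, Finset.sum_singleton, sub_zero,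
      regI_coeff hc hu]
    rfl

theorem regI_root {Ω : Type} [Field Ω] {r : ℕ} (b : Fin (r + 1) → Ω) {lam : Ω}
    (h : (Matrix.scalar (Fin (r + 1)) lam - cmp b).det = 0) :
    lam ^ (r + 1) = ∑ i, b i * lam ^ (i : ℕ) := by
  obtain ⟨v, hv0, hv⟩ := Matrix.exists_vecMul_eq_zero_iff.2 h
  have h1 : ∀ j, lam * v j = (∑ i, v i * cmp b i j) := by
    intro j
    have h2 := congrFun hv j
    rw [Matrix.vecMul_sub, Pi.sub_apply, Pi.zero_apply, sub_eq_zero, Matrix.scalar_apply,
      Matrix.vecMul_diagonal, mul_comm] at h2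
    exact h2
  have h2 : ∀ j : Fin (r + 1), ∑ i, v i * cmp b i j = v (Fin.last r) * b j +
      ∑ i : Fin (r + 1), (if (j : ℕ) = (i : ℕ) + 1 then v i else 0) := by
    intro j
    unfold cmp
    simp only [mul_add, Finset.sum_add_distrib, mul_ite, mul_one, mul_zero]
    rw [Finset.sum_ite_eq', if_pos (Finset.mem_univ _)]
  have h0 : lam * v 0 = v (Fin.last r) * b 0 := by
    rw [h1, h2, Finset.sum_eq_zero, add_zero]
    intro i _
    rw [if_neg (by simp)]
  have hs : ∀ j : Fin r, lam * v j.succ = v (Fin.last r) * b j.succ + v j.castSucc := by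
    intro j
    rw [h1, h2, Finset.sum_eq_single j.castSucc, if_pos (by simp)]
    · intro i _ hi
      rw [if_neg]
      intro h3
      refine hi (Fin.ext ?_)
      simp only [Fin.val_succ] at h3
      rw [Fin.val_castSucc]
      omega
    · intro h3
      exact absurd (Finset.mem_univ _) h3
  have hlast : v (Fin.last r) ≠ 0 := by
    intro h3
    refine hv0 (funext fun i => ?_)
    induction i using Fin.reverseInduction with
    | last => exact h3
    | cast j hj =>
      have h4 := hs j
      rw [h3, hj, Pi.zero_apply, mul_zero, zero_mul, zero_add] at h4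
      exact h4.symm
  have h3 : ∑ i : Fin (r + 1), lam ^ ((i : ℕ) + 1) * v i = lam * v 0 +
      ∑ j : Fin r, lam ^ ((j : ℕ) + 1) * (lam * v j.succ) := by
    rw [Fin.sum_univ_succ]
    congr 1
    · simp
    · refine Finset.sum_congr rfl fun j _ => ?_
      rw [Fin.val_succ]
      ring
  have h4 : ∑ i : Fin (r + 1), lam ^ ((i : ℕ) + 1) * v i =
      ∑ j : Fin r, lam ^ ((j : ℕ) + 1) * v j.castSucc + lam ^ (r + 1) * v (Fin.last r) := by
    rw [Fin.sum_univ_castSucc]
    rfl
  have h5 : v (Fin.last r) * ∑ i : Fin (r + 1), b i * lam ^ (i : ℕ) =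
      lam * v 0 + ∑ j : Fin r, lam ^ ((j : ℕ) + 1) * (lam * v j.succ - v j.castSucc) := by
    rw [Fin.sum_univ_succ, mul_add, Finset.mul_sum, h0]
    congr 1
    · simp
    · refine Finset.sum_congr rfl fun j _ => ?_
      rw [hs, Fin.val_succ]
      ring
  refine mul_left_cancel₀ hlast ?_
  rw [h5]
  simp only [mul_sub, Finset.sum_sub_distrib]
  rw [← add_sub_assoc, ← h3, h4]
  ring

theorem regI_X_derivative (s : κ[X]) (m : ℕ) :
    (X * derivative s).coeff m = (m : κ) * s.coeff m := by
  cases m with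
  | zero => simp
  | succ m =>
    rw [coeff_X_mul, coeff_derivative]
    push_cast
    ring

end RegI

theorem exists_reg {κ K ι : Type} [Field κ] [CharZero κ] [Field K] [CharZero K] [Algebra κ K]
    [Fintype ι] [DecidableEq ι] [Nonempty ι] {u : K} {D : Derivation ℚ K K} (h : RatX κ u D)
    {a : Matrix ι ι K} (ha : TameM D a) :
    ∃ (Z : Matrix ι ι κ[X]) (M : Matrix ι ι K) (T : κ[X]) (A : Matrix ι ι κ[X])
      (N : Matrix ι ι κ), T ≠ 0 ∧ Z.map (fun p => aeval u p) * M = 1 ∧
      M * Z.map (fun p => aeval u p) = 1 ∧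
      (∀ i j, D (M i j) + (M * a) i j =
        ((Matrix.of fun i j => aeval u (A i j) / aeval u T) * M) i j) ∧
      (∀ i j, (A i j).natDegree + 1 ≤ T.natDegree) ∧
      (∀ i j, (A i j).coeff (T.natDegree - 1) = -(T.leadingCoeff * N i j)) ∧
      ∀ γ : AlgebraicClosure κ, aeval γ N.charpoly = 0 → ∃ q : ℚ, γ = (q : AlgebraicClosure κ) := by
  classical
  obtain ⟨φ, hφ, hφu⟩ := plc_inf h
  obtain ⟨Θ, hΘ⟩ : ∃ Θ : Module.End κ (ι → K), ∀ v, Θ v = (-u) • nab D a v := by
    refine ⟨{ toFun := fun v => (-u) • nab D a v, map_add' := ?_, map_smul' := ?_ },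
      fun v => rfl⟩
    · intro v w
      rw [← smul_add]
      congr 1
      funext j
      simp only [nab, Pi.add_apply, map_add, add_mul, Finset.sum_add_distrib]
      ring
    · intro c v
      rw [RingHom.id_apply]
      funext j
      have h1 : nab D a (c • v) j = algebraMap κ K c * nab D a v j := by
        change D (c • v j) + ∑ i, (c • v i) * a i j =
          algebraMap κ K c * (D (v j) + ∑ i, v i * a i j)
        rw [Algebra.smul_def, Derivation.leibniz, h.const, smul_zero, add_zero, smul_eq_mul,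
          mul_add, Finset.mul_sum]
        congr 1
        exact Finset.sum_congr rfl fun i _ => by rw [Algebra.smul_def, mul_assoc]
      change (-u) * nab D a (c • v) j = c • ((-u) * nab D a v j)
      rw [h1, Algebra.smul_def]
      ring
  obtain ⟨r, eq, Cm, Ci, b, hCC, hCC', hD, hb, hγ⟩ := cyc_thm ha (ratx_tame h) (y := -u)
    (e := 1) (Or.inl rfl) (by rw [map_neg, h.dx]; norm_num) hφ hΘ
  obtain ⟨w, p, hw, hp⟩ := regI_den h b
  obtain ⟨s, c, hs, hc⟩ := regI_den h (fun x : ι × Fin (r + 1) => Ci x.1 x.2)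
  have hpd := fun i => regI_deg hφ.const hφu (hp i) (hb i)
  have hS0 := regI_ne h hs
  have hW0 := regI_ne h hw
  have hu0 : u ≠ 0 := by
    have := regI_ne h (p := X) X_ne_zero
    rwa [aeval_X] at this
  obtain ⟨Pm, hPm⟩ : ∃ Pm : Fin (r + 1) → Fin (r + 1) → κ[X], Pm = fun i j =>
    (if i = Fin.last r then p j else 0) + (if (j : ℕ) = (i : ℕ) + 1 then w else 0) := ⟨_, rfl⟩
  have hPmu : ∀ i j, aeval u (Pm i j) = cmp b i j * aeval u w := by
    intro i j
    rw [hPm]
    unfold cmp
    simp only [map_add]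
    rw [add_mul]
    congr 1
    · split_ifs
      · exact (hp j).symm
      · rw [map_zero, zero_mul]
    · split_ifs
      · rw [one_mul]
      · rw [map_zero, zero_mul]
  have hPmd : ∀ i j, (Pm i j).natDegree ≤ w.natDegree := by
    intro i j
    rw [hPm]
    refine natDegree_add_le_of_degree_le ?_ ?_
    · split_ifs
      · exact (hpd j).1
      · simp
    · split_ifs
      · exact le_rfl
      · simp
  have hPmc : ∀ i j, (Pm i j).coeff w.natDegree =
      cmp (fun l => (φ (b l)).coeff 0) i j * w.leadingCoeff := by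
    intro i j
    rw [hPm]
    unfold cmp
    simp only [coeff_add]
    rw [add_mul]
    congr 1
    · split_ifs
      · exact (hpd j).2
      · rw [coeff_zero, zero_mul]
    · split_ifs
      · rw [one_mul]
        rfl
      · rw [coeff_zero, zero_mul]
  have hXs : (X * derivative s).natDegree ≤ s.natDegree := by
    rw [natDegree_le_iff_coeff_eq_zero]
    intro m hm
    rw [regI_X_derivative, coeff_eq_zero_of_natDegree_lt hm, mul_zero]
  have hT : (X * (w * s)).natDegree = s.natDegree + w.natDegree + 1 := by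
    rw [natDegree_X_mul (mul_ne_zero hw hs), natDegree_mul hw hs, add_comm w.natDegree]
  refine ⟨Matrix.of fun i j => c (i, eq j), Matrix.of fun i j => (aeval u s)⁻¹ * Cm (eq i) j,
    X * (w * s), Matrix.of fun i j => -(s * Pm (eq i) (eq j)) -
      (if i = j then (X * derivative s) * w else 0),
    Matrix.of fun i j => cmp (fun l => (φ (b l)).coeff 0) (eq i) (eq j) +
      (if i = j then (s.natDegree : κ) else 0),
    mul_ne_zero X_ne_zero (mul_ne_zero hw hs), ?_, ?_, fun i j => ?_, fun i j => ?_,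
    fun i j => ?_, fun γ hγ0 => ?_⟩
  · ext i j
    rw [← hCC', Matrix.mul_apply, Matrix.mul_apply, ← eq.sum_comp]
    refine Finset.sum_congr rfl fun l _ => ?_
    simp only [Matrix.map_apply, Matrix.of_apply]
    rw [← hc (i, eq l)]
    field_simp
  · ext i j
    have h1 : (1 : Matrix ι ι K) i j = (1 : Matrix (Fin (r + 1)) (Fin (r + 1)) K) (eq i) (eq j) := by
      simp only [Matrix.one_apply, eq.apply_eq_iff_eq]
    rw [h1, ← hCC, Matrix.mul_apply, Matrix.mul_apply]
    refine Finset.sum_congr rfl fun l _ => ?_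
    simp only [Matrix.map_apply, Matrix.of_apply]
    rw [← hc (l, eq j)]
    field_simp
  · have h1 := hD (eq i) j
    have h2 : D (Cm (eq i) j) + (Cm * a) (eq i) j = -(u⁻¹ * (cmp b * Cm) (eq i) j) := by
      rw [← h1]
      field_simp
    have h3 : (Matrix.of (fun i j => (aeval u s)⁻¹ * Cm (eq i) j) * a) i j =
        (aeval u s)⁻¹ * (Cm * a) (eq i) j := by
      rw [Matrix.mul_apply, Matrix.mul_apply, Finset.mul_sum]
      refine Finset.sum_congr rfl fun l _ => ?_
      rw [Matrix.of_apply, mul_assoc]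
    have h4 : ∀ l, aeval u (-(s * Pm (eq i) (eq l)) - (if i = l then (X * derivative s) * w else 0)) /
        aeval u (X * (w * s)) = -(u⁻¹ * cmp b (eq i) (eq l)) -
          (if i = l then aeval u (derivative s) / aeval u s else 0) := by
      intro l
      rw [map_sub, map_neg, map_mul, hPmu, map_mul, map_mul, aeval_X]
      split_ifs
      · rw [map_mul, map_mul, aeval_X]
        field_simp
      · rw [map_zero]
        field_simp
        ring
    rw [h3]
    simp only [Matrix.mul_apply, Matrix.of_apply, h4, sub_mul, Finset.sum_sub_distrib, ite_mul,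
      zero_mul]
    rw [Finset.sum_ite_eq, if_pos (Finset.mem_univ _), Derivation.leibniz,
      Derivation.leibniz_inv, regI_D h, smul_eq_mul, smul_eq_mul, smul_eq_mul]
    have h5 : ∑ l, -(u⁻¹ * cmp b (eq i) (eq l)) * ((aeval u s)⁻¹ * Cm (eq l) j) =
        (aeval u s)⁻¹ * -(u⁻¹ * (cmp b * Cm) (eq i) j) := by
      rw [Matrix.mul_apply, ← eq.sum_comp, Finset.mul_sum, ← Finset.sum_neg_distrib,
        Finset.mul_sum]
      refine Finset.sum_congr rfl fun l _ => ?_
      ring
    rw [h5, ← h2, Matrix.mul_apply]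
    field_simp
    ring
  · rw [hT]
    simp only [Matrix.of_apply]
    refine Nat.add_le_add_right (le_trans (natDegree_sub_le_of_le ?_ ?_) (max_self _).le) 1
    · rw [natDegree_neg]
      exact natDegree_mul_le_of_le le_rfl (hPmd _ _)
    · split_ifs
      · exact natDegree_mul_le_of_le hXs le_rfl
      · simp
  · rw [hT, Nat.add_sub_cancel]
    simp only [Matrix.of_apply]
    rw [coeff_sub, coeff_neg, coeff_mul_add_eq_of_natDegree_le le_rfl (hPmd _ _), hPmc,
      leadingCoeff_mul, leadingCoeff_mul, leadingCoeff_X]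
    split_ifs
    · rw [coeff_mul_add_eq_of_natDegree_le hXs le_rfl, regI_X_derivative]
      unfold leadingCoeff
      ring
    · rw [coeff_zero]
      unfold leadingCoeff
      ring
  · obtain ⟨b', hb'⟩ : ∃ b' : Fin (r + 1) → AlgebraicClosure κ, b' = fun l =>
      algebraMap κ (AlgebraicClosure κ) ((φ (b l)).coeff 0) := ⟨_, rfl⟩
    have h1 : (Matrix.scalar (Fin (r + 1)) (γ - (s.natDegree : AlgebraicClosure κ)) -
        cmp b').det = 0 := by
      rw [aeval_def, ← eval_map, ← Matrix.charpoly_map, Matrix.eval_charpoly] at hγ0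
      rw [← hγ0, ← Matrix.det_submatrix_equiv_self eq]
      congr 1
      ext i j
      simp only [Matrix.submatrix_apply, Matrix.sub_apply, Matrix.scalar_apply,
        Matrix.diagonal_apply, Matrix.map_apply, Matrix.of_apply, eq.apply_eq_iff_eq, map_add]
      have h2 : cmp b' (eq i) (eq j) = algebraMap κ (AlgebraicClosure κ)
          (cmp (fun l => (φ (b l)).coeff 0) (eq i) (eq j)) := by
        unfold cmp
        rw [hb', map_add]
        split_ifs <;> simp
      rw [h2]
      split_ifs
      · rw [map_natCast]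
        ring
      · rw [map_zero]
        ring
    have h2 := regI_root b' h1
    obtain ⟨q, hq⟩ := bc_rat (hγ (γ - (s.natDegree : AlgebraicClosure κ)) (by
      unfold chi
      rw [map_sub, map_pow, aeval_X, map_sum, h2, sub_eq_zero, hb']
      refine Finset.sum_congr rfl fun i _ => ?_
      rw [map_mul, map_pow, aeval_X, aeval_C]))
    refine ⟨q + s.natDegree, ?_⟩
    push_cast
    rw [← hq]
    ring

end Pool.Agent.Helper79.GA
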