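import Pool.Agent.Helper79.GA.Basic
import Pool.Agent.Helper79.CU.StatC

/-!
# GA-34: tensor powers

`tens r a` (`CU/StatC.lean`). `iter D (tens r a) m I J = ∑_{m_1 + … + m_r = m} ∏_s (iter D a m_s) (I s) (J s)`: e.g. with `Finset.piAntidiag Finset.univ m` or `Finset.finAntidiagonal r m`, by induction on `m` from the recursion
(`(m+1) B_{m+1} = D B_m + B_m * tens r a`; `D` of a product; the index `m_s` is raised by `1` with the factor `m_s + 1`, and `∑_s m_s = m + 1`), compare the proof of `iterBd_tens` in `CU/Tens.lean` (power series version), which may be adapted.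
Or by generating series: `Ψ = ∑ iter_m h^m ∈ M(K[[h]])` is the unique solution of `dΨ/dh = D Ψ + Ψ a` with `Ψ(0) = 1`, and the tensor power (`tpow r Ψ`) satisfies the same equation for `tens r a`.
Bounds: for `m ≤ N` all `m_s ≤ N`: common denominator `q^r` and `(G T).I (r c (N+1))` for the products. `r = 0`: `tens 0 a = 0` and `iter D 0 m = 0` for `m ≥ 1`.
-/

open Polynomial

namespace Pool.Agent.Helper79.GA

open Pool.Agent.Helper79.CU Pool.Agent.Helper79.SE

private lemma tt_der_mul {R : Type} [CommRing R] (F G : PowerSeries R) :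
    PowerSeries.derivative R (F * G) =
      F * PowerSeries.derivative R G + G * PowerSeries.derivative R F :=
  (PowerSeries.derivative R).leibniz F G

section

variable {K : Type} [Field K] [CharZero K]

/-- series in `h` with geometric coefficients -/
private def TB (F : PowerSeries K) : Prop :=
  GmS fun m (_ : Unit) => PowerSeries.coeff m F

private lemma tb_conv {f g : ℕ → Unit → K} (hf : GmS f) (hg : GmS g) :
    GmS (fun j (_ : Unit) => ∑ p ∈ Finset.HasAntidiagonal.antidiagonal j,
      f p.1 () * g p.2 ()) := by
  obtain ⟨T, c, H, hT, h⟩ := hf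
  obtain ⟨T', c', H', hT', h'⟩ := hg
  refine ⟨T ∪ T', c + c', H * H', hT.union hT', fun N => ?_⟩
  obtain ⟨q, q0, q1, q2⟩ := h N
  obtain ⟨q', q0', q1', q2'⟩ := h' N
  refine ⟨q * q', Nat.mul_pos q0 q0', ?_, fun m hm s => ?_⟩
  · rw [mul_pow]
    exact Nat.mul_le_mul q1 q1'
  · rw [Finset.mul_sum]
    refine AddSubgroup.sum_mem _ fun p hp => ?_
    have hp' : p.1 + p.2 = m := Finset.HasAntidiagonal.mem_antidiagonal.1 hp
    have e : ((q * q' : ℕ) : K) * (f p.1 () * g p.2 ()) =
        ((q : K) * f p.1 ()) * ((q' : K) * g p.2 ()) := by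
      push_cast
      ring
    rw [e]
    have := (G (T ∪ T')).mul (G_mono Set.subset_union_left le_rfl (q2 p.1 (by omega) ()))
      (G_mono Set.subset_union_right le_rfl (q2' p.2 (by omega) ()))
    rwa [← add_mul] at this

private lemma tb_mul {F F' : PowerSeries K} (hF : TB F) (hF' : TB F') : TB (F * F') := by
  unfold TB at *
  have h := tb_conv hF hF'
  convert h using 2
  funext _
  rw [PowerSeries.coeff_mul]

private lemma tb_one : TB (1 : PowerSeries K) := by
  refine ⟨∅, 0, 1, Set.finite_empty, fun N => ⟨1, one_pos, by rw [one_pow], fun m _ _ => ?_⟩⟩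
  beta_reduce
  rw [Nat.cast_one, one_mul (PowerSeries.coeff m (1 : PowerSeries K)), PowerSeries.coeff_one]
  split_ifs
  · exact (G (∅ : Set K)).mono (Nat.zero_le _) (G (∅ : Set K)).one
  · exact AddSubgroup.zero_mem _

private lemma tb_prod {σ : Type} (S : Finset σ) (F : σ → PowerSeries K)
    (h : ∀ s ∈ S, TB (F s)) : TB (∏ s ∈ S, F s) := by
  classical
  induction S using Finset.induction_on with
  | empty => rw [Finset.prod_empty]; exact tb_one
  | insert a S ha ih =>
    rw [Finset.prod_insert ha]
    exact tb_mul (h a (Finset.mem_insert_self a S))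
      (ih fun s hs => h s (Finset.mem_insert_of_mem hs))

variable (D : Derivation ℚ K K)

/-- the coefficientwise derivation -/
private noncomputable def tcD (F : PowerSeries K) : PowerSeries K :=
  PowerSeries.mk fun j => D (PowerSeries.coeff j F)

private lemma coeff_tcD (F : PowerSeries K) (j : ℕ) :
    PowerSeries.coeff j (tcD D F) = D (PowerSeries.coeff j F) := by
  unfold tcD
  rw [PowerSeries.coeff_mk]

private lemma tcD_mul (F G : PowerSeries K) :
    tcD D (F * G) = tcD D F * G + F * tcD D G := by
  ext1 j
  rw [coeff_tcD, map_add, PowerSeries.coeff_mul, PowerSeries.coeff_mul, PowerSeries.coeff_mul,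
    map_sum, ← Finset.sum_add_distrib]
  refine Finset.sum_congr rfl fun p _ => ?_
  rw [Derivation.leibniz, coeff_tcD, coeff_tcD, smul_eq_mul, smul_eq_mul]
  ring

/-- `E = d/dh - D` -/
private noncomputable def teD (F : PowerSeries K) : PowerSeries K :=
  PowerSeries.derivative K F - tcD D F

private lemma coeff_teD (F : PowerSeries K) (j : ℕ) :
    PowerSeries.coeff j (teD D F) =
      ((j + 1 : ℕ) : K) * PowerSeries.coeff (j + 1) F - D (PowerSeries.coeff j F) := by
  unfold teD
  rw [map_sub, coeff_tcD, PowerSeries.coeff_derivative]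
  push_cast
  ring

private lemma teD_mul (F G : PowerSeries K) :
    teD D (F * G) = teD D F * G + F * teD D G := by
  unfold teD
  rw [tt_der_mul, tcD_mul]
  ring

private lemma teD_one : teD D (1 : PowerSeries K) = 0 := by
  have h := teD_mul D (1 : PowerSeries K) 1
  rw [mul_one, mul_one, one_mul] at h
  exact left_eq_add.1 h

private lemma teD_prod {σ : Type} [DecidableEq σ] (S : Finset σ)
    (F : σ → PowerSeries K) :
    teD D (∏ s ∈ S, F s) = ∑ s ∈ S, (∏ s' ∈ S.erase s, F s') * teD D (F s) := by
  induction S using Finset.induction_on with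
  | empty => rw [Finset.prod_empty, Finset.sum_empty]; exact teD_one D
  | insert a S ha ih =>
    rw [Finset.prod_insert ha, Finset.sum_insert ha, teD_mul, ih, Finset.erase_insert ha]
    congr 1
    · ring
    · rw [Finset.mul_sum]
      refine Finset.sum_congr rfl fun s hs => ?_
      have hne : a ≠ s := fun h => ha (h ▸ hs)
      rw [Finset.erase_insert_of_ne hne, Finset.prod_insert
        (fun h => ha (Finset.mem_of_mem_erase h))]
      ring

/-- uniqueness of the solutions -/
private lemma tuniq {ι : Type} [Fintype ι] {a : Matrix ι ι K}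
    {W W' : ι → PowerSeries K}
    (hW : ∀ l, teD D (W l) = ∑ m, W m * PowerSeries.C (a m l))
    (hW' : ∀ l, teD D (W' l) = ∑ m, W' m * PowerSeries.C (a m l))
    (h0 : ∀ l, PowerSeries.coeff 0 (W l) = PowerSeries.coeff 0 (W' l)) : W = W' := by
  have key : ∀ j l, PowerSeries.coeff j (W l) = PowerSeries.coeff j (W' l) := by
    intro j
    induction j with
    | zero => exact h0
    | succ j ih =>
      intro l
      have h1 := congrArg (PowerSeries.coeff (R := K) j) (hW l)
      have h2 := congrArg (PowerSeries.coeff (R := K) j) (hW' l)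
      rw [coeff_teD, map_sum] at h1 h2
      have h3 : ∑ m, PowerSeries.coeff j (W m * PowerSeries.C (a m l)) =
          ∑ m, PowerSeries.coeff j (W' m * PowerSeries.C (a m l)) := by
        refine Finset.sum_congr rfl fun m _ => ?_
        rw [PowerSeries.coeff_mul_C, PowerSeries.coeff_mul_C, ih m]
      rw [← h3, ← h1, ih l] at h2
      have h4 : ((j + 1 : ℕ) : K) * PowerSeries.coeff (j + 1) (W l) =
          ((j + 1 : ℕ) : K) * PowerSeries.coeff (j + 1) (W' l) := by
        linear_combination -h2
      have h5 : ((j + 1 : ℕ) : K) ≠ 0 := Nat.cast_ne_zero.2 (Nat.succ_ne_zero j)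
      exact mul_left_cancel₀ h5 h4
  funext l
  ext1 j
  exact key j l

/-- the generating series of the iterates -/
private noncomputable def tgen {ι : Type} [Fintype ι] [DecidableEq ι]
    (a : Matrix ι ι K) (i l : ι) : PowerSeries K :=
  PowerSeries.mk fun j => iter D a j i l

private lemma coeff_tgen {ι : Type} [Fintype ι] [DecidableEq ι]
    (a : Matrix ι ι K) (i l : ι) (j : ℕ) :
    PowerSeries.coeff j (tgen D a i l) = iter D a j i l := by
  unfold tgen
  rw [PowerSeries.coeff_mk]

private lemma tgen_eq {ι : Type} [Fintype ι] [DecidableEq ι] (a : Matrix ι ι K)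
    (i l : ι) : teD D (tgen D a i l) = ∑ m, tgen D a i m * PowerSeries.C (a m l) := by
  ext1 j
  rw [coeff_teD, coeff_tgen, coeff_tgen, map_sum]
  have h : ∑ m, PowerSeries.coeff j (tgen D a i m * PowerSeries.C (a m l)) =
      ∑ m, iter D a j i m * a m l := by
    refine Finset.sum_congr rfl fun m _ => ?_
    rw [PowerSeries.coeff_mul_C, coeff_tgen]
  rw [h, iter, Matrix.of_apply, ← mul_assoc,
    mul_inv_cancel₀ (Nat.cast_ne_zero.2 (Nat.succ_ne_zero j)), one_mul]
  ring

private lemma tgen_zero {ι : Type} [Fintype ι] [DecidableEq ι] (a : Matrix ι ι K)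
    (i l : ι) : PowerSeries.coeff 0 (tgen D a i l) = (1 : Matrix ι ι K) i l := by
  rw [coeff_tgen, iter]

end

theorem tame_tens {K ι : Type} [Field K] [CharZero K] [Fintype ι] [DecidableEq ι]
    {D : Derivation ℚ K K} {a : Matrix ι ι K} (h : TameM D a) (r : ℕ) :
    TameM D (tens r a) := by
  classical
  unfold TameM
  refine GmS.family fun p => ?_
  obtain ⟨I, J⟩ := p
  have hZ : (fun J : Fin r → ι => ∏ s, tgen D a (I s) (J s)) =
      fun J => tgen D (tens r a) I J := by
    refine tuniq D (a := tens r a) ?_ (fun J => tgen_eq _ _ _ _) ?_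
    · intro J
      rw [teD_prod]
      have e1 : ∀ s : Fin r, (∏ s' ∈ Finset.univ.erase s, tgen D a (I s') (J s')) *
          teD D (tgen D a (I s) (J s)) = ∑ L : Fin r → ι,
            if (∀ s', s' ≠ s → L s' = J s') then
              (∏ s', tgen D a (I s') (L s')) * PowerSeries.C (a (L s) (J s)) else 0 := by
        intro s
        rw [tgen_eq, Finset.mul_sum, ← Finset.sum_filter]
        symm
        refine Finset.sum_bij' (fun L _ => L s) (fun m _ => Function.update J s m) ?_ ?_ ?_ ?_ ?_
        · intro L _
          exact Finset.mem_univ _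
        · intro m _
          rw [Finset.mem_filter]
          exact ⟨Finset.mem_univ _, fun s' hs' => Function.update_of_ne hs' _ _⟩
        · intro L hL
          rw [Finset.mem_filter] at hL
          funext s'
          by_cases hs' : s' = s
          · rw [hs', Function.update_self]
          · rw [Function.update_of_ne hs', hL.2 s' hs']
        · intro m _
          exact Function.update_self _ _ _
        · intro L hL
          rw [Finset.mem_filter] at hL
          rw [← Finset.mul_prod_erase Finset.univ _ (Finset.mem_univ s)]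
          have e2 : ∏ s' ∈ Finset.univ.erase s, tgen D a (I s') (L s') =
              ∏ s' ∈ Finset.univ.erase s, tgen D a (I s') (J s') := by
            refine Finset.prod_congr rfl fun s' hs' => ?_
            rw [hL.2 s' (Finset.ne_of_mem_erase hs')]
          rw [e2]
          ring
      rw [Finset.sum_congr rfl fun s _ => e1 s, Finset.sum_comm]
      refine Finset.sum_congr rfl fun L _ => ?_
      unfold tens
      rw [map_sum, Finset.mul_sum]
      refine Finset.sum_congr rfl fun s _ => ?_
      split_ifs
      · rfl
      · rw [map_zero, mul_zero]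
    · intro J
      rw [tgen_zero]
      have e1 : PowerSeries.coeff 0 (∏ s, tgen D a (I s) (J s)) =
          ∏ s, (1 : Matrix ι ι K) (I s) (J s) := by
        rw [PowerSeries.coeff_zero_eq_constantCoeff_apply, map_prod]
        refine Finset.prod_congr rfl fun s _ => ?_
        rw [← PowerSeries.coeff_zero_eq_constantCoeff_apply, tgen_zero]
      rw [e1]
      by_cases hIJ : I = J
      · subst hIJ
        rw [Matrix.one_apply_eq]
        exact Finset.prod_eq_one fun s _ => Matrix.one_apply_eq _
      · rw [Matrix.one_apply_ne hIJ]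
        obtain ⟨s, hs⟩ := Function.ne_iff.1 hIJ
        exact Finset.prod_eq_zero (Finset.mem_univ s) (Matrix.one_apply_ne hs)
  have h1 := congrFun hZ J
  beta_reduce at h1
  have h2 : TB (tgen D (tens r a) I J) := by
    rw [← h1]
    refine tb_prod _ _ fun s _ => ?_
    unfold TB
    simp only [coeff_tgen]
    exact GmS.comp h fun _ => (I s, J s)
  unfold TB at h2
  simp only [coeff_tgen] at h2
  exact h2

end Pool.Agent.Helper79.GA
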