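import Pool.Agent.Helper79.GA.StatG
import Pool.Agent.Helper79.GA.Mob
import Pool.Agent.Helper79.GA.Ratx
import Pool.Agent.Helper79.GA.TOp
import Pool.Agent.Helper79.GA.TTens
import Pool.Agent.Helper79.GA.RegI
import Pool.Agent.Helper79.GA.GalI
import Pool.Agent.Helper79.CU.TensOde
import Pool.Agent.Helper79.SE.Bez

/-!
# GA: assembly, algebraic part: the system in the variable `u`, `t = g(u)`
-/

open Polynomial

namespace Pool.Agent.Helper79.GA

open Pool.Agent.Helper79.CU Pool.Agent.Helper79.SE Pool.Agent.Helper79.GX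

/-- `(c X + e)^E p(g(X))`. -/
noncomputable def hmg {κ : Type} [Field κ] (a b c e : κ) (E : ℕ) (p : κ[X]) : κ[X] :=
  ∑ i ∈ Finset.range (E + 1), C (p.coeff i) * (C a * X + C b) ^ i * (C c * X + C e) ^ (E - i)

theorem hmg_aeval {κ K : Type} [Field κ] [Field K] [Algebra κ K] {a b c e : κ} {E : ℕ}
    {p : κ[X]} (hp : p.natDegree ≤ E) {v : K}
    (hv : algebraMap κ K c * v + algebraMap κ K e ≠ 0) :
    aeval v (hmg a b c e E p) = (algebraMap κ K c * v + algebraMap κ K e) ^ E *
      aeval (mobv a b c e v) p := by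
  rw [hmg, map_sum, aeval_eq_sum_range' (n := E + 1) (by omega), Finset.mul_sum]
  refine Finset.sum_congr rfl fun i hi => ?_
  rw [Finset.mem_range] at hi
  obtain ⟨j, hj⟩ : ∃ j, E = i + j := ⟨E - i, by omega⟩
  have h1 : E - i = j := by omega
  rw [h1, hj]
  simp only [map_mul, map_pow, map_add, aeval_C, aeval_X]
  rw [mobv, div_pow, Algebra.smul_def, pow_add]
  have h2 : (algebraMap κ K c * v + algebraMap κ K e) ^ i ≠ 0 := pow_ne_zero _ hv
  generalize (algebraMap κ K c * v + algebraMap κ K e) = y at *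
  field_simp

theorem mobv_tr {κ K : Type} [Field κ] [Field K] [Algebra κ K] {a b c e : κ}
    (h : a * e - b * c ≠ 0) {u : K} (hu : Transcendental κ u) :
    algebraMap κ K c * u + algebraMap κ K e ≠ 0 ∧ Transcendental κ (mobv a b c e u) := by
  have h1 : algebraMap κ K c * u + algebraMap κ K e ≠ 0 := by
    intro h0
    have h2 : aeval u (C c * X + C e : κ[X]) = 0 := by simpa using h0
    have h3 := (transcendental_iff.1 hu) _ h2
    have h4 := congrArg (fun p => coeff p 1) h3
    have h5 := congrArg (fun p => coeff p 0) h3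
    simp at h4 h5
    rw [h4, h5] at h
    simp at h
  refine ⟨h1, fun h2 => hu ?_⟩
  set g := mobv a b c e u with hg
  have h3 : g * (algebraMap κ K c * u + algebraMap κ K e) =
      algebraMap κ K a * u + algebraMap κ K b := by
    rw [hg, mobv, div_mul_cancel₀ _ h1]
  have h4 : (algebraMap κ K a - algebraMap κ K c * g) *
      (algebraMap κ K c * u + algebraMap κ K e) = algebraMap κ K (a * e - b * c) := by
    simp only [map_sub, map_mul]
    linear_combination (-algebraMap κ K c) * h3
  have h5 : algebraMap κ K a - algebraMap κ K c * g ≠ 0 := by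
    intro h0
    rw [h0, zero_mul] at h4
    exact h ((FaithfulSMul.algebraMap_eq_zero_iff κ K).1 h4.symm)
  have h6 : u = (algebraMap κ K e * g - algebraMap κ K b) *
      (algebraMap κ K a - algebraMap κ K c * g)⁻¹ := by
    rw [eq_mul_inv_iff_mul_eq₀ h5]
    linear_combination (-1 : K) * h3
  rw [h6]
  refine IsAlgebraic.mul ?_ (IsAlgebraic.inv ?_)
  · exact ((isAlgebraic_algebraMap e).mul h2).sub (isAlgebraic_algebraMap b)
  · exact (isAlgebraic_algebraMap a).sub ((isAlgebraic_algebraMap c).mul h2)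

/-- The system `V' = (A/T) V` is tame in all variables `u`, `t = g(u)`. -/
def MobTame {κ : Type} [Field κ] {ι : Type} [Fintype ι] [DecidableEq ι] (T : κ[X])
    (A : Matrix ι ι κ[X]) : Prop :=
  ∀ a b c e : κ, a * e - b * c ≠ 0 →
    ∃ (K : Type) (_ : Field K) (_ : CharZero K) (_ : Algebra κ K) (u : K)
      (D : Derivation ℚ K K), RatX κ u D ∧ TameM D (fun i j => mobd a b c e u *
        (aeval (mobv a b c e u) (A i j) / aeval (mobv a b c e u) T))

/-- The direct sum of the connections in the variable `u` is tame. -/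
theorem tame_fam {κ : Type} [Field κ] [CharZero κ] {β : Type} [Fintype β] [DecidableEq β]
    {L : β → Type} [∀ b, Field (L b)] [∀ b, Algebra κ (L b)] {T : κ[X]} (hT : T ≠ 0)
    {d : β → ℕ} {ι : β → Type} [∀ b, Fintype (ι b)] [∀ b, DecidableEq (ι b)]
    (Φ : ∀ b, FunctionForms κ (L b) T (d b) (ι b)) :
    MobTame T (Matrix.blockDiagonal' fun b => (Φ b).A) := by
  intro a b c e h
  obtain ⟨K, _, _, _, u, D, hu⟩ := exists_ratx κ
  refine ⟨K, inferInstance, inferInstance, inferInstance, u, D, hu, ?_⟩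
  have h1 : ∀ s, TameM D (fun i j => mobd a b c e u *
      (aeval (mobv a b c e u) ((Φ s).A i j) / aeval (mobv a b c e u) T)) := by
    intro s
    have : CharZero (L s) := charZero_of_injective_algebraMap (algebraMap κ (L s)).injective
    obtain ⟨K', _, _, _, u', D', hu', hta⟩ := mob_tame (Φ s).indep (Φ s).finite (Φ s).D_x hT
      (Φ s).gm (Φ s).ind h
    obtain ⟨σ, hσ, hσD⟩ := ratx_equiv hu' hu
    have h2 := tame_map (σ : K' →+* K) hσD hta
    have h3 : σ (mobv a b c e u') = mobv a b c e u := by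
      rw [mobv, mobv, map_div₀, map_add, map_add, map_mul, map_mul, hσ, AlgEquiv.commutes,
        AlgEquiv.commutes, AlgEquiv.commutes, AlgEquiv.commutes]
    have h4 : σ (mobd a b c e u') = mobd a b c e u := by
      rw [mobd, mobd, map_div₀, map_pow, map_add, map_mul, hσ, AlgEquiv.commutes,
        AlgEquiv.commutes, AlgEquiv.commutes]
    have h5 : ∀ p : κ[X], σ (aeval (mobv a b c e u') p) = aeval (mobv a b c e u) p := by
      intro p
      rw [← h3]
      exact (aeval_algHom_apply (σ : K' →ₐ[κ] K) _ p).symm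
    have h6 : (Matrix.map (fun i j => mobd a b c e u' *
        (aeval (mobv a b c e u') ((Φ s).A i j) / aeval (mobv a b c e u') T)) (σ : K' →+* K)) =
        (fun i j => mobd a b c e u *
        (aeval (mobv a b c e u) ((Φ s).A i j) / aeval (mobv a b c e u) T) :
          Matrix (ι s) (ι s) K) := by
      ext1 i j
      change σ (_ * (_ / _)) = _
      rw [map_mul, map_div₀, h4, h5, h5]
    rw [h6] at h2
    exact h2
  have h2 := tame_block (a := fun s => (Matrix.of fun i j => mobd a b c e u *
      (aeval (mobv a b c e u) ((Φ s).A i j) / aeval (mobv a b c e u) T))) h1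
  have h3 : Matrix.blockDiagonal' (fun s => (Matrix.of fun i j => mobd a b c e u *
      (aeval (mobv a b c e u) ((Φ s).A i j) / aeval (mobv a b c e u) T))) = (fun i j =>
      mobd a b c e u *
      (aeval (mobv a b c e u) (Matrix.blockDiagonal' (fun b => (Φ b).A) i j) /
        aeval (mobv a b c e u) T)) := by
    ext1 ⟨s, i⟩ ⟨s', j⟩
    by_cases hs : s = s'
    · subst hs
      rw [Matrix.blockDiagonal'_apply_eq, Matrix.blockDiagonal'_apply_eq, Matrix.of_apply]
    · rw [Matrix.blockDiagonal'_apply_ne _ _ _ hs, Matrix.blockDiagonal'_apply_ne _ _ _ hs,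
        map_zero, zero_div, mul_zero]
  rw [h3] at h2
  exact h2

theorem mobv_deriv {κ K : Type} [Field κ] [Field K] [CharZero K] [Algebra κ K] {u : K}
    {D : Derivation ℚ K K} (h : RatX κ u D) (a b c e : κ) :
    D (mobv a b c e u) = mobd a b c e u := by
  have h1 : ∀ p q : κ, D (algebraMap κ K p * u + algebraMap κ K q) = algebraMap κ K p := by
    intro p q
    rw [map_add, Derivation.leibniz, h.const, h.const, h.dx]
    simp
  rw [mobv, mobd, Derivation.leibniz_div, h1, h1]
  simp only [smul_eq_mul, map_sub, map_mul]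
  rw [div_eq_mul_inv, mul_comm, ← inv_pow]
  congr 1
  ring

theorem aeval_deriv {κ K : Type} [Field κ] [Field K] [CharZero K] [Algebra κ K] {u : K}
    {D : Derivation ℚ K K} (h : RatX κ u D) (v : K) (p : κ[X]) :
    D (aeval v p) = aeval v (derivative p) * D v := by
  induction p using Polynomial.induction_on with
  | C r => rw [aeval_C, h.const, derivative_C, map_zero, zero_mul]
  | add p q hp hq => rw [map_add, map_add, hp, hq, derivative_add, map_add, add_mul]
  | monomial n r ih =>
    have h1 : derivative (C r * X ^ n * X) = derivative (C r * X ^ n) * X + C r * X ^ n := by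
      rw [derivative_mul, derivative_X, mul_one]
    have h2 : ∀ q : κ[X], aeval v (q * X) = aeval v q * v := fun q => by
      rw [map_mul, aeval_X]
    rw [pow_succ, ← mul_assoc, h1, h2, Derivation.leibniz, ih, map_add, h2]
    simp only [smul_eq_mul]
    ring

/-- The sub-connection in the variable `u`, in a basis where it is regular at infinity. -/
theorem alg_mob {κ : Type} [Field κ] [CharZero κ] [Algebra.IsAlgebraic ℚ κ]
    {T : κ[X]} (hT : T ≠ 0) {ι₀ : Type} [Fintype ι₀] [DecidableEq ι₀] {A₀ : Matrix ι₀ ι₀ κ[X]}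
    (hA₀ : MobTame T A₀) {μ r : ℕ} {ι : Type} [Fintype ι] [DecidableEq ι]
    [Nonempty (Fin μ × ι)] (E : SubTensor T A₀ μ r ι) {a b c e : κ}
    (h : a * e - b * c ≠ 0) :
    ∃ (Z : Matrix (Fin μ × ι) (Fin μ × ι) κ[X]) (T₃ : ℤ[X])
      (A : Matrix (Fin μ × ι) (Fin μ × ι) κ[X]) (N : Matrix (Fin μ × ι) (Fin μ × ι) κ) (E₁ : ℕ),
      Z.det ≠ 0 ∧ (∃ H : ℕ, GalF (T₃.map (Int.castRingHom κ)) A H) ∧ T₃ ≠ 0 ∧
      (∀ i j, (A i j).natDegree + 1 ≤ T₃.natDegree) ∧
      (∀ i j, (A i j).coeff (T₃.natDegree - 1) = -((T₃.leadingCoeff : κ) * N i j)) ∧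
      (∀ z : AlgebraicClosure κ, aeval z N.charpoly = 0 → ∃ q : ℚ, z = (q : AlgebraicClosure κ)) ∧
      T.natDegree ≤ E₁ ∧ (∀ i j, (E.B i j).natDegree ≤ E₁) ∧ hmg a b c e E₁ T ≠ 0 ∧
      ∀ i j, hmg a b c e E₁ T * (C c * X + C e) ^ 2 *
        (T₃.map (Int.castRingHom κ) * derivative (Z i j) + (Z * A) i j) =
        C (a * e - b * c) * T₃.map (Int.castRingHom κ) *
          ((E.B.map (hmg a b c e E₁) * Z) i j) := by
  obtain ⟨K, _, _, _, u, D, hu, hta⟩ := hA₀ a b c e h
  obtain ⟨hv, hg⟩ := mobv_tr h hu.tr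
  have hst := ratx_tame hu
  set g := mobv a b c e u with hgdef
  set gp := mobd a b c e u with hgp
  have hDg : D g = gp := mobv_deriv hu a b c e
  have hinj : Function.Injective (aeval u : κ[X] →ₐ[κ] K) := by
    have := hu.tr
    exact transcendental_iff_injective.1 this
  have hginj : Function.Injective (aeval g : κ[X] →ₐ[κ] K) := transcendental_iff_injective.1 hg
  have hTg : aeval g T ≠ 0 := by
    intro h0
    exact hT (hginj (by rw [h0, map_zero]))
  -- the tensor power
  have ht1 := tame_tens hta r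
  have ht2 : tens r (fun i j => gp * (aeval g (A₀ i j) /
      aeval g T) : Matrix _ _ K) = (gp * (aeval g T)⁻¹) •
        (tens r A₀).map (aeval g : κ[X] →ₐ[κ] K) := by
    have e1 : (fun i j => gp * (aeval g (A₀ i j) /
        aeval g T) : Matrix _ _ K) = (gp * (aeval g T)⁻¹) •
          A₀.map (aeval g : κ[X] →ₐ[κ] K) := by
      funext i j
      rw [Matrix.smul_apply, Matrix.map_apply, smul_eq_mul, div_eq_mul_inv]
      ring
    have e2 : (tens r A₀).map
        (aeval g : κ[X] →ₐ[κ] K) =
        tens r (A₀.map (aeval g : κ[X] →ₐ[κ] K)) :=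
      tens_map (aeval g : κ[X] →ₐ[κ] K).toRingHom r _
    rw [e1, tens_smul, e2]
  rw [ht2] at ht1
  -- the sub-connection
  obtain ⟨ρ, θ, hθ, hρ⟩ := exists_rinv E.ind
  have hθg : aeval g θ ≠ 0 := by
    intro h0
    exact hθ (hginj (by rw [h0, map_zero]))
  have ht3 : TameM D ((gp * (aeval g T)⁻¹) • E.B.map (aeval g : κ[X] →ₐ[κ] K)) := by
    refine tame_sub hst (M := E.M.map (aeval g : κ[X] →ₐ[κ] K))
      (ρ := (aeval g θ)⁻¹ • ρ.map (aeval g : κ[X] →ₐ[κ] K)) ?_ (fun p i => ?_) ht1
    · rw [Matrix.mul_smul, ← Matrix.map_mul, hρ]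
      ext1 p q
      rw [Matrix.smul_apply, Matrix.map_apply, Matrix.smul_apply, Matrix.one_apply,
        Matrix.one_apply]
      split_ifs
      · rw [smul_eq_mul, smul_eq_mul, mul_one, inv_mul_cancel₀ hθg]
      · rw [smul_zero, map_zero, smul_zero]
    · have e3 := congrArg (aeval g : κ[X] →ₐ[κ] K) (E.stable p i)
      rw [Matrix.map_apply, aeval_deriv hu, hDg, Matrix.mul_smul, Matrix.smul_mul,
        Matrix.smul_apply, Matrix.smul_apply, ← Matrix.map_mul, ← Matrix.map_mul,
        Matrix.map_apply, Matrix.map_apply, ← e3, map_add, map_mul, smul_eq_mul, smul_eq_mul]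
      field_simp
  have : CharZero (AlgebraicClosure κ) := inferInstance
  -- regularity at infinity
  obtain ⟨Z, M₂, T₂, A₂, N, hT₂, hZM, hMZ, hM, hdeg, hco, hexp⟩ := exists_reg hu ht3
  obtain ⟨T₃, w, hT₃, hw, hTw⟩ := exists_int_mul hT₂
  have hT₂u : aeval u T₂ ≠ 0 := by
    intro h0
    exact hT₂ (hinj (by rw [h0, map_zero]))
  have hwu : aeval u w ≠ 0 := by
    intro h0
    exact hw (hinj (by rw [h0, map_zero]))
  have hZdet : Z.det ≠ 0 := by
    intro h0
    have h1 : (Z.map (fun p => aeval u p)).det = 0 := by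
      have h2 := (RingHom.map_det (aeval u : κ[X] →ₐ[κ] K).toRingHom Z).symm
      rw [h0, map_zero] at h2
      exact h2
    have h2 := congrArg Matrix.det hZM
    rw [Matrix.det_mul, h1, zero_mul, Matrix.det_one] at h2
    exact zero_ne_one h2
  set A₃ : Matrix (Fin μ × ι) (Fin μ × ι) κ[X] := fun i j => A₂ i j * w with hA₃
  have hTd : T₃.natDegree = T₂.natDegree + w.natDegree := by
    rw [← natDegree_map_eq_of_injective (f := Int.castRingHom κ)
      (RingHom.injective_int (Int.castRingHom κ)) T₃, hTw, natDegree_mul hT₂ hw]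
  have hquo : ∀ i j, aeval u (A₃ i j) / aeval u (T₃.map (Int.castRingHom κ)) =
      aeval u (A₂ i j) / aeval u T₂ := by
    intro i j
    rw [hTw, hA₃, map_mul, map_mul, mul_div_mul_right _ _ hwu]
  have ht4 : TameM D (Matrix.of fun i j => aeval u (A₂ i j) / aeval u T₂) :=
    tame_sub hst (ρ := Z.map (fun p => aeval u p)) hMZ hM ht3
  have ht5 : TameM D (fun i j => aeval u (A₃ i j) / aeval u (T₃.map (Int.castRingHom κ))) := by
    have h1 : (fun i j => aeval u (A₃ i j) / aeval u (T₃.map (Int.castRingHom κ))) =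
        (Matrix.of fun i j => aeval u (A₂ i j) / aeval u T₂) := by
      funext i j
      rw [hquo, Matrix.of_apply]
    rw [h1]
    exact ht4
  have hT₃m : T₃.map (Int.castRingHom κ) ≠ 0 := by
    rw [hTw]
    exact mul_ne_zero hT₂ hw
  refine ⟨Z, T₃, A₃, N, T.natDegree + ∑ i, ∑ j, (E.B i j).natDegree, hZdet, gal_tame hu hT₃m ht5,
    hT₃, fun i j => ?_, fun i j => ?_, hexp, Nat.le_add_right _ _, fun i j => ?_, ?_,
    fun i j => ?_⟩
  · have h1 := hdeg i j
    have h2 := natDegree_mul_le (p := A₂ i j) (q := w)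
    rw [hA₃, hTd]
    simp only
    omega
  · have h1 := hdeg i j
    obtain ⟨m, hm⟩ : ∃ m, T₂.natDegree = m + 1 := ⟨T₂.natDegree - 1, by omega⟩
    have h2 : T₃.natDegree - 1 = m + w.natDegree := by omega
    have h3 : (T₃.leadingCoeff : κ) = T₂.leadingCoeff * w.leadingCoeff := by
      rw [← leadingCoeff_mul, ← hTw, leadingCoeff_map_of_injective
        (RingHom.injective_int (Int.castRingHom κ))]
      rfl
    have h4 : (A₂ i j).natDegree ≤ m := by omega
    have h5 := hco i j
    rw [hm, Nat.add_sub_cancel] at h5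
    rw [h2, hA₃, h3]
    simp only
    rw [coeff_mul_add_eq_of_natDegree_le h4 le_rfl, h5]
    rw [leadingCoeff, leadingCoeff]
    ring
  · have h1 : (E.B i j).natDegree ≤ ∑ j, (E.B i j).natDegree :=
      Finset.single_le_sum (f := fun j => (E.B i j).natDegree) (fun _ _ => Nat.zero_le _)
        (Finset.mem_univ j)
    have h2 : (∑ j, (E.B i j).natDegree) ≤ ∑ i, ∑ j, (E.B i j).natDegree :=
      Finset.single_le_sum (f := fun i => ∑ j, (E.B i j).natDegree) (fun _ _ => Nat.zero_le _)
        (Finset.mem_univ i)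
    omega
  · intro h0
    have h1 := hmg_aeval (K := K) (a := a) (b := b) (c := c) (e := e) (v := u)
      (E := T.natDegree + ∑ i, ∑ j, (E.B i j).natDegree) (p := T) (Nat.le_add_right _ _) hv
    rw [h0, map_zero] at h1
    exact mul_ne_zero (pow_ne_zero _ hv) hTg h1.symm
  · -- the identity `Z' + Z A/T = b Z`
    have hZu : ∀ i j, D (aeval u (Z i j)) = aeval u (derivative (Z i j)) := fun i j => by
      rw [aeval_deriv hu, hu.dx, mul_one]
    set E₁ : ℕ := T.natDegree + ∑ i, ∑ j, (E.B i j).natDegree with hE₁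
    have hBd : ∀ i j, (E.B i j).natDegree ≤ E₁ := by
      intro i j
      have h1 : (E.B i j).natDegree ≤ ∑ j, (E.B i j).natDegree :=
        Finset.single_le_sum (f := fun j => (E.B i j).natDegree) (fun _ _ => Nat.zero_le _)
          (Finset.mem_univ j)
      have h2 : (∑ j, (E.B i j).natDegree) ≤ ∑ i, ∑ j, (E.B i j).natDegree :=
        Finset.single_le_sum (f := fun i => ∑ j, (E.B i j).natDegree) (fun _ _ => Nat.zero_le _)
          (Finset.mem_univ i)
      omega
    set Zu : Matrix (Fin μ × ι) (Fin μ × ι) K := Z.map (fun p => aeval u p) with hZudef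
    set bK : Matrix (Fin μ × ι) (Fin μ × ι) K :=
      (gp * (aeval g T)⁻¹) • E.B.map (aeval g : κ[X] →ₐ[κ] K) with hbK
    set b₂ : Matrix (Fin μ × ι) (Fin μ × ι) K :=
      Matrix.of fun i j => aeval u (A₂ i j) / aeval u T₂ with hb₂
    have hleib : ∀ P Q : Matrix (Fin μ × ι) (Fin μ × ι) K,
        (P * Q).map D = P.map D * Q + P * Q.map D := by
      intro P Q
      ext1 p q
      rw [Matrix.map_apply, Matrix.mul_apply, map_sum, Matrix.add_apply, Matrix.mul_apply,
        Matrix.mul_apply, ← Finset.sum_add_distrib]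
      refine Finset.sum_congr rfl fun l _ => ?_
      rw [Derivation.leibniz, Matrix.map_apply, Matrix.map_apply, smul_eq_mul, smul_eq_mul]
      ring
    have hM' : M₂.map D + M₂ * bK = b₂ * M₂ := by
      ext1 p q
      exact hM p q
    have h1 : Zu.map D * M₂ + Zu * M₂.map D = 0 := by
      rw [← hleib, hZM]
      ext1 p q
      rw [Matrix.map_apply, Matrix.one_apply, Matrix.zero_apply]
      split_ifs
      · exact Derivation.map_one_eq_zero D
      · exact map_zero D
    have h2 : Zu.map D + Zu * b₂ = bK * Zu := by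
      have e1 : Zu.map D = -(Zu * M₂.map D) * Zu := by
        have e2 : Zu.map D * M₂ = -(Zu * M₂.map D) := eq_neg_of_add_eq_zero_left h1
        rw [← e2, Matrix.mul_assoc, hMZ, Matrix.mul_one]
      have e3 : M₂.map D = b₂ * M₂ - M₂ * bK := eq_sub_of_add_eq hM'
      rw [e1, e3, Matrix.mul_sub, neg_sub, Matrix.sub_mul, ← Matrix.mul_assoc, hZM,
        Matrix.one_mul, ← Matrix.mul_assoc, Matrix.mul_assoc (Zu * b₂), hMZ, Matrix.mul_one]
      abel
    apply hinj
    have h3 := congrFun (congrFun h2 i) j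
    rw [Matrix.add_apply, Matrix.map_apply, hZudef, Matrix.map_apply, hZu] at h3
    rw [Matrix.mul_apply, Matrix.mul_apply] at h3
    simp only [Matrix.map_apply] at h3
    simp only [map_mul, map_add, map_pow, aeval_C, aeval_X]
    rw [Matrix.mul_apply, Matrix.mul_apply, map_sum, map_sum]
    simp only [Matrix.map_apply, map_mul]
    have h4 : ∀ l, aeval u (hmg a b c e E₁ (E.B i l)) =
        (algebraMap κ K c * u + algebraMap κ K e) ^ E₁ * aeval g (E.B i l) :=
      fun l => hmg_aeval (hBd i l) hv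
    rw [hmg_aeval (Nat.le_add_right _ _) hv]
    simp only [h4]
    have h5 : ∀ l, aeval u (A₃ l j) = aeval u (T₃.map (Int.castRingHom κ)) * b₂ l j := by
      intro l
      rw [hb₂, Matrix.of_apply, ← hquo, mul_div_cancel₀]
      intro h0
      exact hT₃m (hinj (by rw [h0, map_zero]))
    simp only [h5]
    have h6 : ∀ l, bK i l = gp * (aeval g T)⁻¹ * aeval g (E.B i l) := fun l => by
      rw [hbK, Matrix.smul_apply, Matrix.map_apply, smul_eq_mul]
    simp only [h6] at h3
    have h7 : gp * (algebraMap κ K c * u + algebraMap κ K e) ^ 2 =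
        algebraMap κ K (a * e - b * c) := by
      rw [hgp, mobd, div_mul_cancel₀ _ (pow_ne_zero 2 hv)]
    have h8 : ∑ l, aeval u (Z i l) * (aeval u (T₃.map (Int.castRingHom κ)) * b₂ l j) =
        aeval u (T₃.map (Int.castRingHom κ)) * ∑ l, aeval u (Z i l) * b₂ l j := by
      rw [Finset.mul_sum]
      exact Finset.sum_congr rfl fun l _ => by ring
    have h9 : ∑ l, (algebraMap κ K c * u + algebraMap κ K e) ^ E₁ * aeval g (E.B i l) *
        aeval u (Z l j) = (algebraMap κ K c * u + algebraMap κ K e) ^ E₁ *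
          ∑ l, aeval g (E.B i l) * aeval u (Z l j) := by
      rw [Finset.mul_sum]
      exact Finset.sum_congr rfl fun l _ => by ring
    have h10 : ∑ l, gp * (aeval g T)⁻¹ * aeval g (E.B i l) * aeval u (Z l j) =
        gp * (aeval g T)⁻¹ * ∑ l, aeval g (E.B i l) * aeval u (Z l j) := by
      rw [Finset.mul_sum]
      exact Finset.sum_congr rfl fun l _ => by ring
    rw [h10] at h3
    rw [h8, h9, ← mul_add, h3, ← h7, ← hgdef, ← hE₁]
    field_simp

end Pool.Agent.Helper79.GA
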