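import Pool.Agent.Helper79.GA.StatG
import Pool.Agent.Helper79.GX.KDefs

/-!
# GA: more definitions for the statements
-/

open Polynomial

namespace Pool.Agent.Helper79.GA

open Pool.Agent.Helper64.Per Pool.Agent.Helper79.GX Pool.Agent.Helper79.CU

/-- There are `B`, `C` and `0 < θ < 1` such that for every `n ≥ 1` at most `B` elements `i` of `E` satisfy
`n ≤ i ≤ n + n^θ`, and for every `X ≥ 1` at most `C X^(1-θ)` satisfy `i ≤ X`. -/
def Few (E : Set ℕ) : Prop :=
  ∃ (B : ℕ) (θ C : ℝ), 0 < θ ∧ θ < 1 ∧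
    (∀ n : ℕ, 1 ≤ n → Set.ncard {i : ℕ | n ≤ i ∧ (i : ℝ) ≤ n + (n : ℝ) ^ θ ∧ i ∈ E} ≤ B) ∧
    ∀ X : ℕ, 1 ≤ X → (Set.ncard {i : ℕ | i ≤ X ∧ i ∈ E} : ℝ) ≤ C * (X : ℝ) ^ (1 - θ)

/-- The Moebius transformation `g(u) = (a u + b) / (c u + e)` maps all large real numbers to points of
`U`. -/
def LargeIn {κ : IntermediateField ℚ Qbar} (a b c e : κ) (U : Set ℂ) : Prop :=
  ∃ x₀ : ℝ, ∀ x : ℝ, x₀ < x → algebraMap κ ℂ c * (x : ℂ) + algebraMap κ ℂ e ≠ 0 ∧
    mobv a b c e (x : ℂ) ∈ U

/-- The natural numbers `i` such that `t = g(i)`, `g(u) = (a u + b) / (c u + e)`, is in `U` and there is a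
relation of degree at most `δ` over `κ(s)` at the point `s = (t, w t)`. -/
def RelAt {κ : IntermediateField ℚ Qbar} {ι : Type} [Fintype ι] [DecidableEq ι] (a b c e : κ)
    (U : Set ℂ) (w : ℂ → ℂ) (P : ℂ → Matrix ι ι ℂ) (δ : ℕ) : Set ℕ :=
  {i : ℕ | mobv a b c e (i : ℂ) ∈ U ∧ HasRelationC U w P (mobv a b c e (i : ℂ)) κ δ}

/-- A nonzero polynomial `T` and finitely many families `Φ_s`, `s ∈ β`, over the field `κ`, with function
fields `L_s`, relative dimensions `d_s`, and forms with indices in `γ_s`, whose Gauss-Manin connections have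
denominator `T`. -/
structure Families (κ : IntermediateField ℚ Qbar) where
  /-- the denominator of the Gauss-Manin connections -/
  T : κ[X]
  T_ne : T ≠ 0
  /-- the indices of the families -/
  β : Type
  [fβ : Fintype β]
  [dβ : DecidableEq β]
  /-- the function fields -/
  L : β → Type
  [fL : ∀ s, Field (L s)]
  [aL : ∀ s, Algebra κ (L s)]
  /-- the relative dimensions -/
  d : β → ℕ
  /-- the indices of the forms -/
  γ : β → Type
  [fγ : ∀ s, Fintype (γ s)]
  [dγ : ∀ s, DecidableEq (γ s)]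
  /-- the families and forms -/
  Φ : ∀ s, FunctionForms κ (L s) T (d s) (γ s)

attribute [instance] Families.fβ Families.dβ Families.fL Families.aL Families.fγ Families.dγ

namespace Families

variable {κ : IntermediateField ℚ Qbar} (F : Families κ)

/-- The numerator of the matrix of the direct sum of the Gauss-Manin connections. -/
noncomputable def A : Matrix (Σ s, F.γ s) (Σ s, F.γ s) κ[X] :=
  Matrix.blockDiagonal' fun s => (F.Φ s).A

/-- The sub-connections (over curves of degree `μ` over the `t`-line, with basis indexed by `ι`) of the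
`r`-th tensor power of the direct sum of the Gauss-Manin connections. -/
def Sub (μ r : ℕ) (ι : Type) [Fintype ι] [DecidableEq ι] : Type :=
  SubTensor F.T F.A μ r ι

/-- `P` is a matrix of periods of the sub-connection along the branch `t ↦ (t, w t)`, `t ∈ U`. -/
def Sub.IsPeriod {F : Families κ} {μ r : ℕ} {ι : Type} [Fintype ι] [DecidableEq ι]
    (E : F.Sub μ r ι) (U : Set ℂ) (w : ℂ → ℂ) (P : ℂ → Matrix ι ι ℂ) : Prop :=
  IsPeriodST (T := F.T) (A := F.A) E U w P

end Families

end Pool.Agent.Helper79.GA
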