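import Pool.Agent.Helper79.CU.PG
import Pool.Agent.Helper79.SE.Tay

/-!
# GA: Gauss-Manin connections of function fields are G-connections: definitions
-/

open Polynomial

namespace Pool.Agent.Helper79.GA

open Pool.Agent.Helper79.CU Pool.Agent.Helper79.SE

/-! ### Denominators -/

/-- The filtration generated by a set: `(G T).I n` consists of the integral combinations of products
of at most `n` elements of `T`. -/
noncomputable abbrev G {F : Type} [CommRing F] (T : Set F) : MFilt F :=
  genM (triv ℤ) (Int.castRingHom F) T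

/-- Geometric growth of the denominators of a sequence of families. -/
def GmS {F S : Type} [Field F] (f : ℕ → S → F) : Prop :=
  ∃ (T : Set F) (c H : ℕ), T.Finite ∧ ∀ N : ℕ, ∃ q : ℕ, 0 < q ∧ q ≤ H ^ (N + 1) ∧
    ∀ m ≤ N, ∀ s, (q : F) * f m s ∈ (G T).I (c * (N + 1))

/-- The Taylor series `∑ D^m(f)/m! h^m` of an element with respect to a derivation. -/
noncomputable def tL {F : Type} [Field F] [CharZero F] (D : Derivation ℚ F F) (f : F) :
    LaurentSeries F :=
  HahnSeries.ofPowerSeries ℤ F (tay D f)

/-! ### Binomial coefficients -/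

/-- The binomial coefficient `binom(γ, j)`. -/
noncomputable def bc {F : Type} [Field F] (γ : F) (j : ℕ) : F :=
  (∏ i ∈ Finset.range j, (γ - (i : F))) / (j.factorial : F)

/-- The binomial polynomial `binom(X, j)`. -/
noncomputable def bp (F : Type) [Field F] (j : ℕ) : F[X] :=
  C ((j.factorial : F)⁻¹) * ∏ i ∈ Finset.range j, (X - C (i : F))

/-! ### Connections -/

/-- A connection: an additive map with the Leibniz rule. -/
structure Conn {K V : Type} [Field K] [AddCommGroup V] [Module K V] (D : K → K) (n : V → V) :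
    Prop where
  add : ∀ v w, n (v + w) = n v + n w
  leib : ∀ (f : K) v, n (f • v) = D f • v + f • n v

/-- The divided iterates `n^m(v)/m!` have geometric denominators. -/
def TameV (K : Type) {V : Type} [Field K] [AddCommGroup V] [Module K V] (n : V → V) : Prop :=
  ∀ (v : V) (ψ : V →ₗ[K] K), GmS fun (m : ℕ) (_ : Unit) => ψ (((m.factorial : K)⁻¹) • n^[m] v)

section Mat

variable {K ι : Type} [Field K] [CharZero K] [Fintype ι]

/-- The connection with matrix `A` in coordinates: `∇ e_i = ∑_j A_ij e_j`. -/
def nab (D : Derivation ℚ K K) (A : Matrix ι ι K) (v : ι → K) : ι → K :=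
  fun j => D (v j) + ∑ i, v i * A i j

variable [DecidableEq ι]

/-- The divided iterates: `∇^m(e_i)/m! = ∑_j (iter D A m)_ij e_j`. -/
noncomputable def iter (D : Derivation ℚ K K) (A : Matrix ι ι K) : ℕ → Matrix ι ι K
  | 0 => 1
  | (m + 1) => Matrix.of fun i j => (((m + 1 : ℕ) : K)⁻¹) *
      (D (iter D A m i j) + ∑ l, iter D A m i l * A l j)

/-- The divided iterates have geometric denominators. -/
def TameM (D : Derivation ℚ K K) (A : Matrix ι ι K) : Prop :=
  GmS fun (m : ℕ) (p : ι × ι) => iter D A m p.1 p.2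

end Mat

/-! ### Rational functions, places -/

section Rat

variable {k K : Type} [Field k] [Field K] [CharZero K] [Algebra k K]

/-- `K = k(x)` with the derivation `d/dx`. -/
structure RatX (k : Type) {K : Type} [Field k] [Field K] [CharZero K] [Algebra k K] (x : K)
    (D : Derivation ℚ K K) : Prop where
  tr : Transcendental k x
  quo : ∀ f : K, ∃ p q : k[X], aeval x q ≠ 0 ∧ f = aeval x p / aeval x q
  const : ∀ c : k, D (algebraMap k K c) = 0
  dx : D x = 1

/-- The ring `k[x, 1/δ(x)]`. -/
noncomputable def Od (x : K) (δ : k[X]) : Subalgebra k K := Algebra.adjoin k {x, (aeval x δ)⁻¹}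

/-- Expansion at a place: a homomorphism to Laurent series in `z`, such that `θ` becomes `z d/dz`. -/
structure Plc (θ : Derivation ℚ K K) (φ : K →+* LaurentSeries k) : Prop where
  const : ∀ c : k, φ (algebraMap k K c) = HahnSeries.C c
  der : ∀ (f : K) (n : ℤ), (φ (θ f)).coeff n = (n : k) * (φ f).coeff n
  pg : ∀ f : K, PG (φ f)

/-- The forms with coefficients in `k[x, 1/δ]` modulo the exact forms are spanned by a finite
number of them, and the coordinates have geometric denominators. -/
def RedProp (k : Type) {K : Type} [Field k] [Field K] [CharZero K] [Algebra k K] (x : K)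
    (D : Derivation ℚ K K) (δ : k[X]) {ι : Type} [Fintype ι] (A : Matrix ι ι K) : Prop :=
  ∃ (s : ℕ) (B : Fin s → ι → K), (∀ b i, B b i ∈ Od x δ) ∧
    ∀ (T : Set K) (c : ℕ), T.Finite → ∃ (T' : Set k) (c' H : ℕ), T'.Finite ∧
      ∀ N : ℕ, ∃ q : ℕ, 0 < q ∧ q ≤ H ^ (N + 1) ∧
        ∀ v : ι → K, (∀ i, v i ∈ Od x δ) → (∀ i, v i ∈ (G T).I (c * (N + 1))) →
          ∃ (a : Fin s → k) (g : ι → K), (∀ i, g i ∈ Od x δ) ∧
            v = (∑ b, a b • B b) + nab D A g ∧ ∀ b, (q : k) * a b ∈ (G T').I (c' * (N + 1))

end Rat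

end Pool.Agent.Helper79.GA
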