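import Pool.Agent.Helper79.GA.Basic

/-!
# GA-06: binomial polynomials

`bp F j = binom(X, j)`, `bc γ j = binom(γ, j)`.

* `bp_eval`, `bp_map`: definitions. `bp_natDegree`, `bp_unique`: `bp F j` has degree `j` and leading coefficient `1/j!`
  (`bp_unique`: compare the highest coefficient, or evaluate successively at `0, 1, 2, …`: `bc n j = 0` for `j > n`, `bc n n = 1`).
* `int_valued` (Newton interpolation): by `bp_natDegree` every polynomial of degree `≤ d` is `∑_{l≤d} a_l bp_l` with
  `a_l ∈ F` (induction on the degree, subtract the leading term), and the values at `n = 0, 1, …, d` give `a_n = P(n) - ∑_{l<n} a_l binom(n, l) ∈ ℤ`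
  by induction (`bc (n : F) l = Nat.choose n l`).
* `bc_int`: `bc (e : F) n = Ring.choose e n` (or `Int` descending Pochhammer divisible by the factorial), e.g. `descPochhammer`, `Ring.choose`.
* `bc_vand`: Vandermonde; both sides are polynomials in `(γ, δ)` over `ℚ`; e.g. `Ring.add_choose_eq` for a binomial ring (`ℚ`-algebras are binomial rings) or by
  induction on `n` from `(n+1) bc γ (n+1) = (γ - n) bc γ n`.
* `bc_shift`: `bc (γ + e) m = ∑_{i+j=m} bc γ i * (integer)`.
* `bp_mul`: the values of the product at the natural numbers are integers.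
* `prod_bp`: `∏_{n₀<n≤N} (X + n - γ) = M! binom(X + N - γ, M)`, `M = N - n₀`, `= M! ∑_{j≤M} bp_j(X) bc (N - γ) (M - j)` (Vandermonde in `F[X]`: e.g. both sides
  are polynomials in `X` which agree at all natural numbers), and `bc (N - γ) l = P(γ)` for the polynomial `P = binom(N - X, l)`, which has degree `≤ l ≤ N` and integral values at the natural numbers.
* `bp_div`: `bp_j(X) = ∑_{i≤j} bp_i(X - e) bc e (j - i)`, so `bp_j - bc e j = (X - e) ∑_{1≤i≤j} (1/i) bp_{i-1}(X - e - 1) bc e (j - i)`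
  (`i bp_i(Y) = Y bp_{i-1}(Y - 1)`); multiplied by `L` the sum has integral values at the natural numbers and degree `≤ j - 1`.
* `bp_rise`: `bp_j(-X)` has integral values at the natural numbers, so `bp_j(-X) = ∑ z_i bp_i(X)`; substitute `-X`:
  `bp_i(-X) = (-1)^i X(X+1)⋯(X+i-1)/i!`.
-/

open Polynomial

namespace Pool.Agent.Helper79.GA

open Pool.Agent.Helper79.CU Pool.Agent.Helper79.SE

section

variable {F : Type} [Field F] [CharZero F]

private theorem bin_choose (γ : F) (j : ℕ) : bc γ j = Ring.choose γ j := by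
  rw [Ring.choose_eq_smul, smul_eq_mul, bc, div_eq_inv_mul]
  congr 1
  have h1 : (descPochhammer ℤ j).smeval γ = (descPochhammer F j).eval γ := by
    rw [← descPochhammer_map (Int.castRingHom F), eval_map, ← eval₂_smulOneHom_eq_smeval]
    congr 1
    ext x
    simp
  rw [h1, descPochhammer_eval_eq_prod_range]

theorem bp_eval (γ : F) (j : ℕ) : (bp F j).eval γ = bc γ j := by
  rw [bp, bc, eval_mul, eval_C, eval_prod, div_eq_inv_mul]
  simp

theorem bp_map {F' : Type} [Field F'] (f : F →+* F') (j : ℕ) : (bp F j).map f = bp F' j := by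
  rw [bp, bp, Polynomial.map_mul, Polynomial.map_prod, map_C, map_inv₀, map_natCast]
  simp

theorem bp_natDegree (j : ℕ) : (bp F j).natDegree = j := by
  rw [bp, natDegree_C_mul (inv_ne_zero (by exact_mod_cast j.factorial_ne_zero)),
    natDegree_finsetProd_X_sub_C_eq_card, Finset.card_range]

private theorem bin_nat (n l : ℕ) : bc (n : F) l = ((n.choose l : ℕ) : F) := by
  rw [bin_choose, Ring.choose_natCast]

theorem bp_unique {J : ℕ} {a b : ℕ → F} (h : ∑ j ∈ Finset.range J, C (a j) * bp F j =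
    ∑ j ∈ Finset.range J, C (b j) * bp F j) : ∀ j < J, a j = b j := by
  intro j
  induction j using Nat.strong_induction_on with
  | _ j ih =>
    intro hj
    have h1 := congrArg (Polynomial.eval (j : F)) h
    rw [eval_finsetSum, eval_finsetSum] at h1
    have h2 : ∀ c : ℕ → F, ∑ l ∈ Finset.range J, (C (c l) * bp F l).eval (j : F) =
        ∑ l ∈ Finset.range j, c l * ((j.choose l : ℕ) : F) + c j := by
      intro c
      have h3 : ∑ l ∈ Finset.range J, (C (c l) * bp F l).eval (j : F) =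
          ∑ l ∈ Finset.range (j + 1), (C (c l) * bp F l).eval (j : F) := by
        symm
        refine Finset.sum_subset (fun x hx => ?_) fun x _ hx => ?_
        · rw [Finset.mem_range] at hx ⊢
          omega
        · rw [Finset.mem_range] at hx
          rw [eval_mul, eval_C, bp_eval, bin_nat, Nat.choose_eq_zero_of_lt (by omega),
            Nat.cast_zero, mul_zero]
      rw [h3, Finset.sum_range_succ]
      congr 1
      · refine Finset.sum_congr rfl fun l _ => ?_
        rw [eval_mul, eval_C, bp_eval, bin_nat]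
      · rw [eval_mul, eval_C, bp_eval, bin_nat, Nat.choose_self, Nat.cast_one, mul_one]
    rw [h2, h2] at h1
    have h4 : ∑ l ∈ Finset.range j, a l * ((j.choose l : ℕ) : F) =
        ∑ l ∈ Finset.range j, b l * ((j.choose l : ℕ) : F) := by
      refine Finset.sum_congr rfl fun l hl => ?_
      rw [Finset.mem_range] at hl
      rw [ih l hl (by omega)]
    rw [h4] at h1
    exact add_left_cancel h1

theorem int_valued {P : F[X]} {d : ℕ} (hd : P.natDegree ≤ d)
    (h : ∀ n : ℕ, n ≤ d → ∃ z : ℤ, P.eval (n : F) = (z : F)) :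
    ∃ z : ℕ → ℤ, P = ∑ l ∈ Finset.range (d + 1), C (z l : F) * bp F l := by
  classical
  choose! p hp using h
  refine ⟨fun k => (fwdDiff 1)^[k] p 0, ?_⟩
  refine eq_of_degrees_lt_of_eval_index_eq (Finset.range (d + 1)) (v := fun n : ℕ => (n : F))
    (fun a _ b _ hab => Nat.cast_injective hab) ?_ ?_ ?_
  · rw [Finset.card_range]
    exact lt_of_le_of_lt degree_le_natDegree (by exact_mod_cast Nat.lt_succ_of_le hd)
  · rw [Finset.card_range]
    refine lt_of_le_of_lt (degree_sum_le _ _) ?_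
    rw [Finset.sup_lt_iff (by exact_mod_cast WithBot.bot_lt_coe (d + 1))]
    intro l hl
    rw [Finset.mem_range] at hl
    refine lt_of_le_of_lt degree_le_natDegree ?_
    have h1 : (C ((((fwdDiff 1)^[l] p 0 : ℤ)) : F) * bp F l).natDegree ≤ l :=
      (natDegree_C_mul_le _ _).trans (bp_natDegree l).le
    exact_mod_cast lt_of_le_of_lt h1 hl
  · intro n hn
    rw [Finset.mem_range] at hn
    have h1 := shift_eq_sum_fwdDiff_iter (h := 1) p n 0
    rw [eval_finsetSum]
    show P.eval (n : F) = _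
    rw [hp n (by omega)]
    have h2 : p n = ∑ k ∈ Finset.range (n + 1), n.choose k • (fwdDiff 1)^[k] p 0 := by
      rw [← h1]
      simp
    rw [h2]
    have h3 : ∑ k ∈ Finset.range (d + 1), (C ((((fwdDiff 1)^[k] p 0 : ℤ)) : F) * bp F k).eval (n : F) =
        ∑ k ∈ Finset.range (n + 1), (C ((((fwdDiff 1)^[k] p 0 : ℤ)) : F) * bp F k).eval (n : F) := by
      symm
      refine Finset.sum_subset (fun x hx => ?_) fun x _ hx => ?_
      · rw [Finset.mem_range] at hx ⊢
        omega
      · rw [Finset.mem_range] at hx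
        rw [eval_mul, eval_C, bp_eval, bin_nat, Nat.choose_eq_zero_of_lt (by omega),
          Nat.cast_zero, mul_zero]
    rw [h3, Int.cast_sum]
    refine Finset.sum_congr rfl fun k _ => ?_
    rw [eval_mul, eval_C, bp_eval, bin_nat, nsmul_eq_mul, Int.cast_mul, Int.cast_natCast, mul_comm]

theorem bc_int (e : ℤ) (n : ℕ) : ∃ z : ℤ, bc (e : F) n = (z : F) := by
  refine ⟨Ring.choose e n, ?_⟩
  rw [bin_choose]
  have := Ring.map_choose (Int.castRingHom F) e n
  rw [eq_intCast, eq_intCast] at this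
  exact this.symm

theorem bc_vand (γ δ : F) (n : ℕ) :
    bc (γ + δ) n = ∑ p ∈ Finset.HasAntidiagonal.antidiagonal n, bc γ p.1 * bc δ p.2 := by
  rw [bin_choose, Ring.add_choose_eq n (Commute.all γ δ)]
  refine Finset.sum_congr rfl fun p _ => ?_
  rw [bin_choose, bin_choose]

theorem bc_shift {γ : F} (h : GmS fun m (_ : Unit) => bc γ m) (e : ℤ) :
    GmS fun m (_ : Unit) => bc (γ + (e : F)) m := by
  obtain ⟨T, c, H, hT, h⟩ := h
  refine ⟨T, c, H, hT, fun N => ?_⟩
  obtain ⟨q, q0, q1, q2⟩ := h N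
  refine ⟨q, q0, q1, fun m hm s => ?_⟩
  show (q : F) * bc (γ + (e : F)) m ∈ _
  rw [bc_vand, Finset.mul_sum]
  refine AddSubgroup.sum_mem _ fun p hp => ?_
  obtain ⟨z, hz⟩ := bc_int (F := F) e p.2
  have e1 : (q : F) * (bc γ p.1 * bc (e : F) p.2) = (z : F) * ((q : F) * bc γ p.1) := by
    rw [hz]
    ring
  rw [e1]
  refine G_int_mul (q2 p.1 ?_ s) z
  have := Finset.HasAntidiagonal.mem_antidiagonal.mp hp
  omega

theorem bp_mul (i j : ℕ) : ∃ z : ℕ → ℤ,
    bp F i * bp F j = ∑ l ∈ Finset.range (i + j + 1), C (z l : F) * bp F l := by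
  refine int_valued ?_ fun n _ => ⟨((n.choose i * n.choose j : ℕ) : ℤ), ?_⟩
  · refine natDegree_mul_le.trans ?_
    rw [bp_natDegree, bp_natDegree]
  · rw [eval_mul, bp_eval, bp_eval, bin_nat, bin_nat]
    push_cast
    rfl

/-- `binom(N - X, l)` -/
private theorem bin_comp (N l : ℕ) : ∃ z : ℕ → ℤ, ∀ γ : F, l ≤ N →
    bc ((N : F) - γ) l = ∑ i ∈ Finset.range (N + 1), (z i : F) * bc γ i := by
  by_cases hl : l ≤ N
  swap
  · exact ⟨0, fun γ h => absurd h hl⟩
  obtain ⟨z, hz⟩ := int_valued (F := F) (P := (bp F l).comp (C (N : F) - X)) (d := N) (by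
    rw [natDegree_comp, bp_natDegree]
    have h1 : (C (N : F) - X).natDegree ≤ 1 := by
      refine (natDegree_sub_le _ _).trans ?_
      rw [natDegree_C, natDegree_X]
      simp
    calc l * (C (N : F) - X).natDegree ≤ l * 1 := Nat.mul_le_mul_left _ h1
      _ ≤ N := by omega) (fun n hn => by
    rw [eval_comp, bp_eval, eval_sub, eval_C, eval_X]
    obtain ⟨z, hz⟩ := bc_int (F := F) ((N : ℤ) - n) l
    refine ⟨z, ?_⟩
    rw [← hz]
    push_cast
    rfl)
  refine ⟨z, fun γ _ => ?_⟩
  have h2 := congrArg (Polynomial.eval γ) hz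
  rw [eval_comp, bp_eval, eval_sub, eval_C, eval_X, eval_finsetSum] at h2
  rw [h2]
  refine Finset.sum_congr rfl fun i _ => ?_
  rw [eval_mul, eval_C, bp_eval]

private theorem bin_prod (y : F) (n₀ N : ℕ) (h : n₀ ≤ N) :
    ∏ n ∈ Finset.Ioc n₀ N, (y + (n : F)) =
      (((N - n₀).factorial : ℕ) : F) * bc (y + (N : F)) (N - n₀) := by
  have h1 : (((N - n₀).factorial : ℕ) : F) ≠ 0 := by exact_mod_cast (N - n₀).factorial_ne_zero
  rw [bc, mul_div_cancel₀ _ h1]
  refine Finset.prod_bij' (fun n _ => N - n) (fun i _ => N - i) ?_ ?_ ?_ ?_ ?_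
  · intro n hn
    rw [Finset.mem_Ioc] at hn
    rw [Finset.mem_range]
    omega
  · intro i hi
    rw [Finset.mem_range] at hi
    rw [Finset.mem_Ioc]
    omega
  · intro n hn
    rw [Finset.mem_Ioc] at hn
    omega
  · intro i hi
    rw [Finset.mem_range] at hi
    omega
  · intro n hn
    rw [Finset.mem_Ioc] at hn
    rw [Nat.cast_sub hn.2]
    ring

theorem prod_bp (γ : F) {n₀ N : ℕ} (h : n₀ ≤ N) : ∃ z : ℕ → ℕ → ℤ,
    (∏ n ∈ Finset.Ioc n₀ N, (X + C ((n : F) - γ))) = C ((((N - n₀).factorial : ℕ) : F)) *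
      ∑ j ∈ Finset.range (N + 1),
        C (∑ i ∈ Finset.range (N + 1), (z j i : F) * bc γ i) * bp F j := by
  choose z hz using fun l : ℕ => bin_comp (F := F) N l
  refine ⟨fun j i => if j ≤ N - n₀ then z (N - n₀ - j) i else 0, ?_⟩
  refine Polynomial.funext fun x => ?_
  rw [eval_prod, eval_mul, eval_C, eval_finsetSum]
  have h1 : ∏ n ∈ Finset.Ioc n₀ N, (X + C ((n : F) - γ)).eval x =
      ∏ n ∈ Finset.Ioc n₀ N, ((x - γ) + (n : F)) := by
    refine Finset.prod_congr rfl fun n _ => ?_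
    rw [eval_add, eval_X, eval_C]
    ring
  rw [h1, bin_prod _ _ _ h]
  congr 1
  have h2 : x - γ + (N : F) = x + ((N : F) - γ) := by ring
  rw [h2, bc_vand, Finset.Nat.sum_antidiagonal_eq_sum_range_succ_mk]
  have h3 : Finset.range (N - n₀).succ ⊆ Finset.range (N + 1) := by
    intro a ha
    rw [Finset.mem_range] at ha ⊢
    omega
  refine Finset.sum_subset_zero_on_sdiff h3 ?_ ?_
  · intro j hj
    rw [Finset.mem_sdiff, Finset.mem_range, Finset.mem_range] at hj
    rw [eval_mul, eval_C]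
    have h4 : ¬ j ≤ N - n₀ := by omega
    simp [h4]
  · intro j hj
    rw [Finset.mem_range] at hj
    have h4 : j ≤ N - n₀ := by omega
    rw [eval_mul, eval_C, bp_eval, hz (N - n₀ - j) γ (by omega), mul_comm]
    simp [h4]

private theorem bin_succ (y : F) (i : ℕ) :
    ((i + 1 : ℕ) : F) * bc y (i + 1) = y * bc (y - 1) i := by
  rw [bc, bc, Finset.prod_range_succ', Nat.factorial_succ]
  have h1 : ((i.factorial : ℕ) : F) ≠ 0 := by exact_mod_cast i.factorial_ne_zero
  have h2 : ((i + 1 : ℕ) : F) ≠ 0 := by exact_mod_cast i.succ_ne_zero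
  have h3 : ∏ k ∈ Finset.range i, (y - ((k + 1 : ℕ) : F)) = ∏ k ∈ Finset.range i, (y - 1 - (k : F)) := by
    refine Finset.prod_congr rfl fun k _ => ?_
    push_cast
    ring
  rw [h3]
  have h4 : y - ((0 : ℕ) : F) = y := by simp
  rw [h4, Nat.cast_mul]
  field_simp

theorem bp_div (e : ℤ) (j : ℕ) {L : ℕ} (hL : ∀ i, 1 ≤ i → i ≤ j → i ∣ L) :
    ∃ z : ℕ → ℤ, C (L : F) * (bp F j - C (bc (e : F) j)) =
      (X - C (e : F)) * ∑ l ∈ Finset.range j, C (z l : F) * bp F l := by
  rcases j with _ | j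
  · refine ⟨0, ?_⟩
    simp [bp, bc]
  set Q : F[X] := ∑ i ∈ Finset.range (j + 1), C (((L / (i + 1) : ℕ) : F) * bc (e : F) (j - i)) *
    (bp F i).comp (X - C ((e : F) + 1)) with hQ
  obtain ⟨z, hz⟩ := int_valued (F := F) (P := Q) (d := j) (by
    refine natDegree_sum_le_of_forall_le _ _ fun i hi => ?_
    rw [Finset.mem_range] at hi
    refine (natDegree_C_mul_le _ _).trans ?_
    rw [natDegree_comp, bp_natDegree, natDegree_X_sub_C, mul_one]
    omega) (fun n hn => by
    have h1 : ∀ i, ∃ w : ℤ, (C (((L / (i + 1) : ℕ) : F) * bc (e : F) (j - i)) *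
        (bp F i).comp (X - C ((e : F) + 1))).eval (n : F) = (w : F) := by
      intro i
      obtain ⟨w, hw⟩ := bc_int (F := F) e (j - i)
      obtain ⟨v, hv⟩ := bc_int (F := F) ((n : ℤ) - (e + 1)) i
      refine ⟨((L / (i + 1) : ℕ) : ℤ) * w * v, ?_⟩
      rw [eval_mul, eval_C, eval_comp, bp_eval, eval_sub, eval_X, eval_C, hw]
      have h2 : (n : F) - ((e : F) + 1) = (((n : ℤ) - (e + 1) : ℤ) : F) := by
        push_cast
        ring
      rw [h2, hv, Int.cast_mul, Int.cast_mul, Int.cast_natCast]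
    choose w hw using h1
    refine ⟨∑ i ∈ Finset.range (j + 1), w i, ?_⟩
    rw [hQ, eval_finsetSum, Int.cast_sum]
    exact Finset.sum_congr rfl fun i _ => hw i)
  refine ⟨z, ?_⟩
  rw [← hz]
  refine Polynomial.funext fun x => ?_
  rw [eval_mul, eval_C, eval_sub, bp_eval, eval_C, eval_mul, eval_sub, eval_X, eval_C, hQ,
    eval_finsetSum]
  have h1 : bc x (j + 1) = ∑ p ∈ Finset.HasAntidiagonal.antidiagonal (j + 1),
      bc (x - (e : F)) p.1 * bc (e : F) p.2 := by
    rw [← bc_vand]
    congr 1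
    ring
  rw [h1, Finset.Nat.sum_antidiagonal_eq_sum_range_succ_mk, Finset.sum_range_succ']
  have h2 : bc (x - (e : F)) 0 = 1 := by simp [bc]
  simp only [h2, one_mul, Nat.sub_zero, add_sub_cancel_right]
  rw [Finset.mul_sum, Finset.mul_sum]
  refine Finset.sum_congr rfl fun i hi => ?_
  rw [Finset.mem_range] at hi
  rw [eval_mul, eval_C, eval_comp, bp_eval, eval_sub, eval_X, eval_C]
  have h3 := bin_succ (x - (e : F)) i
  have h4 : x - ((e : F) + 1) = x - (e : F) - 1 := by ring
  obtain ⟨t, ht⟩ := hL (i + 1) (by omega) (by omega)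
  have h5 : L / (i + 1) = t := by
    rw [ht]
    exact Nat.mul_div_cancel_left t (by omega)
  have h6 : j + 1 - (i + 1) = j - i := by omega
  rw [h4, h5, h6, ht]
  calc (((i + 1) * t : ℕ) : F) * (bc (x - (e : F)) (i + 1) * bc (e : F) (j - i))
      = (t : F) * bc (e : F) (j - i) * (((i + 1 : ℕ) : F) * bc (x - (e : F)) (i + 1)) := by
        push_cast
        ring
    _ = (x - (e : F)) * ((t : F) * bc (e : F) (j - i) * bc (x - (e : F) - 1) i) := by
        rw [h3]
        ring

theorem bp_rise (j : ℕ) : ∃ z : ℕ → ℤ, bp F j = ∑ i ∈ Finset.range (j + 1),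
    C (z i : F) * (C ((i.factorial : F)⁻¹) * ∏ l ∈ Finset.range i, (X + C (l : F))) := by
  obtain ⟨z, hz⟩ := int_valued (F := F) (P := (bp F j).comp (-X)) (d := j) (by
    rw [natDegree_comp, bp_natDegree, natDegree_neg, natDegree_X, mul_one]) (fun n hn => by
    rw [eval_comp, bp_eval, eval_neg, eval_X]
    obtain ⟨w, hw⟩ := bc_int (F := F) (-(n : ℤ)) j
    refine ⟨w, ?_⟩
    rw [← hw]
    push_cast
    rfl)
  refine ⟨fun i => z i * (-1) ^ i, ?_⟩
  refine Polynomial.funext fun x => ?_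
  have h1 := congrArg (Polynomial.eval (-x)) hz
  rw [eval_comp, eval_neg, eval_X, neg_neg] at h1
  rw [h1, eval_finsetSum, eval_finsetSum]
  refine Finset.sum_congr rfl fun i _ => ?_
  rw [eval_mul, eval_C, bp_eval, eval_mul, eval_C, eval_mul, eval_C, eval_prod, bc, div_eq_inv_mul]
  have h2 : ∏ l ∈ Finset.range i, (-x - (l : F)) =
      (-1) ^ i * ∏ l ∈ Finset.range i, (X + C (l : F)).eval x := by
    have h3 : ∀ l ∈ Finset.range i, (-x - (l : F)) = (-1) * (X + C (l : F)).eval x := by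
      intro l _
      rw [eval_add, eval_X, eval_C]
      ring
    rw [Finset.prod_congr rfl h3, Finset.prod_mul_distrib, Finset.prod_const, Finset.card_range]
  rw [h2]
  push_cast
  ring

end

end Pool.Agent.Helper79.GA
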