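import Pool.Agent.Helper79.CU.MainB

/-!
# GA-25: direct sums

`rsol` of a block diagonal matrix is the block diagonal matrix of the `rsol`s (induction with the recursion `rsol`; the entries outside of the blocks are `0`:
`Matrix.blockDiagonal'_apply`, `Matrix.blockDiagonal'_apply_eq`, `Matrix.blockDiagonal'_apply_ne`), and `sysU s₀ c τ (blockDiagonal' A) = blockDiagonal' (fun b => sysU s₀ c τ (A b))` (entrywise; `phi s₀ c 0 = 0`). `H`, `q`: the products over
`b` of those of the blocks. Entries `0`: integral.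
-/

open Polynomial

namespace Pool.Agent.Helper79.GA

open Pool.Agent.Helper79.CU Pool.Agent.Helper79.SE

private theorem block_sysU {κ : Type} [Field κ] [CharZero κ] {β : Type} [DecidableEq β]
    {ι : β → Type} (s₀ c : κ) (τ : PowerSeries κ) (A : ∀ b, Matrix (ι b) (ι b) κ[X]) :
    sysU s₀ c τ (Matrix.blockDiagonal' A) =
      Matrix.blockDiagonal' fun b => sysU s₀ c τ (A b) := by
  ext1 ⟨b, i⟩ ⟨b', l⟩
  by_cases h : b = b'
  · subst h
    rw [Matrix.blockDiagonal'_apply_eq]
    unfold sysU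
    rw [Matrix.blockDiagonal'_apply_eq]
  · rw [Matrix.blockDiagonal'_apply_ne _ _ _ h]
    unfold sysU
    rw [Matrix.blockDiagonal'_apply_ne _ _ _ h, map_zero, mul_zero]

private theorem block_rsol {κ : Type} [Field κ] [CharZero κ] {β : Type} [Fintype β]
    [DecidableEq β] {ι : β → Type} [∀ b, Fintype (ι b)] [∀ b, DecidableEq (ι b)]
    (a : ∀ b, Matrix (ι b) (ι b) (PowerSeries κ)) (j : ℕ) :
    rsol (Matrix.blockDiagonal' a) j = Matrix.blockDiagonal' fun b => rsol (a b) j := by
  induction j with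
  | zero =>
    rw [rsol_zero]
    have : (fun b => rsol (a b) 0) = 1 := funext fun b => rsol_zero (a b)
    rw [this, Matrix.blockDiagonal'_one]
  | succ j ih =>
    have hmul : ∀ i l, ∑ m, rsol (Matrix.blockDiagonal' a) j i m * Matrix.blockDiagonal' a m l =
        Matrix.blockDiagonal' (fun b => rsol (a b) j * a b) i l := by
      intro i l
      rw [ih, Matrix.blockDiagonal'_mul, Matrix.mul_apply]
    ext1 ⟨b, i⟩ ⟨b', l⟩
    have e : rsol (Matrix.blockDiagonal' a) (j + 1) ⟨b, i⟩ ⟨b', l⟩ =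
        PowerSeries.C (((j + 1 : ℕ) : κ)⁻¹) *
      (-(PowerSeries.X ^ 2 * PowerSeries.derivative κ
        (rsol (Matrix.blockDiagonal' a) j ⟨b, i⟩ ⟨b', l⟩)) +
        ∑ m, rsol (Matrix.blockDiagonal' a) j ⟨b, i⟩ m * Matrix.blockDiagonal' a m ⟨b', l⟩) := rfl
    rw [e, hmul, ih]
    by_cases h : b = b'
    · subst h
      rw [Matrix.blockDiagonal'_apply_eq, Matrix.blockDiagonal'_apply_eq,
        Matrix.blockDiagonal'_apply_eq, Matrix.mul_apply]
      rfl
    · rw [Matrix.blockDiagonal'_apply_ne _ _ _ h, Matrix.blockDiagonal'_apply_ne _ _ _ h,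
        Matrix.blockDiagonal'_apply_ne _ _ _ h, map_zero, mul_zero, neg_zero, zero_add, mul_zero]

theorem iterBd_block {κ : Type} [Field κ] [CharZero κ] {β : Type} [Fintype β] [DecidableEq β]
    {ι : β → Type} [∀ b, Fintype (ι b)] [∀ b, DecidableEq (ι b)] {s₀ c : κ}
    {τ : PowerSeries κ} {A : ∀ b, Matrix (ι b) (ι b) κ[X]}
    (h : ∀ b, IterBd (sysU s₀ c τ (A b))) :
    IterBd (sysU s₀ c τ (Matrix.blockDiagonal' A)) := by
  classical
  choose H hH using h
  refine ⟨∏ b, H b, fun N => ?_⟩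
  choose q hq0 hq1 hq2 using fun b => hH b N
  refine ⟨∏ b, q b, Finset.prod_pos fun b _ => hq0 b, ?_, ?_⟩
  · rw [← Finset.prod_pow]
    exact Finset.prod_le_prod' fun b _ => hq1 b
  · rintro j m hjm ⟨b, i⟩ ⟨b', l⟩
    rw [block_sysU, block_rsol]
    by_cases h : b = b'
    · subst h
      rw [Matrix.blockDiagonal'_apply_eq, ← Finset.mul_prod_erase Finset.univ q (Finset.mem_univ b)]
      have e : ((q b * ∏ x ∈ Finset.univ.erase b, q x : ℕ) : κ) *
          PowerSeries.coeff m (rsol (sysU s₀ c τ (A b)) j i l) =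
          ((∏ x ∈ Finset.univ.erase b, q x : ℕ) : κ) * ((q b : κ) *
          PowerSeries.coeff m (rsol (sysU s₀ c τ (A b)) j i l)) := by
        push_cast
        ring
      rw [e]
      refine IsIntegral.mul ?_ (hq2 b j m hjm i l)
      have h3 := isIntegral_algebraMap (R := ℤ) (A := κ)
        (x := ((∏ x ∈ Finset.univ.erase b, q x : ℕ) : ℤ))
      rwa [eq_intCast, Int.cast_natCast] at h3
    · rw [Matrix.blockDiagonal'_apply_ne _ _ _ h, map_zero, mul_zero]
      exact isIntegral_zero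

end Pool.Agent.Helper79.GA
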