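import Pool.Agent.Helper79.GA.Basic
import Pool.Agent.Helper79.CU.MainA
import Pool.Agent.Helper79.CU.MainB

/-!
# GA-24: expansion at a point: from functions of `t` to power series

`IterBd`, `sysU`, `rsol` (`CU/MainB.lean`), `phi s₀ c : κ[X] →+* κ[[X]]`, `p ↦ p(s₀ + c X)` (`SE`, `phi_apply`). `K = κ(t)`, `D = d/dt`.
1. `T' ⊂ K` finite. Write its elements as `p(t)/q(t)`; `Bad` = the zeros in `κ` of `T` and of the `q`. For `s₀ ∉ Bad`, `c ≠ 0` let `R₀ ⊂ K` be the subring of the `p(t)/q(t)` with `q(s₀) ≠ 0` and `φ : R₀ →+* κ[[X]]`,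
   `φ (p(t)/q(t)) = phi s₀ c p * (phi s₀ c q)⁻¹` (`PowerSeries` inverse over a field: `phi s₀ c q` has nonzero constant coefficient). (Simplest: `φ' : K →+* LaurentSeries κ` (injective on polynomials since `c ≠ 0`: fraction field), the elements of
   `T'` go to power series.) `φ (D f) = c⁻¹ d/dX φ(f)`, that is `d/dX (φ f) = c φ (D f)`.
   The coefficients of `φ(t')`, `t' ∈ T'`, have geometric denominators (`Geo`, `geo_poly`, `geo_inv`, `geo_mul`, `geo_finite` in `SE/Inst.lean`; `Geo f` means: some `M ≥ 1` with `M^(m+1) f_m` integral, or similar, see `CU/MainA.lean` for the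
   use with `exists_filt`): there is `M ≥ 1` such that `M^(n+m) (φ f)_m` is integral over `ℤ` for `f ∈ (G T').I n`.
2. Let `A_m = iter D (A/T) m` and `b = φ(A_m)` entrywise; `φ(A_m)` is a matrix of power series: `A_m ∈ R₀` (`T(s₀) ≠ 0`, recursion; or since `q A_m ∈ (G T').I _` and `T'` goes to power series).
   Claim: `rsol (sysU s₀ c τ A) n = ∑_{j=1}^n (-1)^n binom(n-1, j-1) c^j X^(n+j) φ(A_j)` for `n ≥ 1`, `rsol … 0 = 1` . Proof by induction on `n` from `rsol_rec`
   (`(n+1) B_{n+1} = -X² B_n' + B_n a`, `a = -c X² φ(A/T)`, since `τ = (phi s₀ c T)⁻¹`) and from `(j+1) A_{j+1} = D A_j + A_j (A/T)`, so `φ(A_j)' = c φ(D A_j) = c ((j+1) φ(A_{j+1}) - φ(A_j) φ(A/T))`: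
   `-X² (X^(n+j) φ(A_j))' + X^(n+j) φ(A_j) a = -(n+j) X^(n+j+1) φ(A_j) - c (j+1) X^(n+j+2) φ(A_{j+1})`, and the coefficient of `c^j X^(n+1+j) φ(A_j)` is
   `(-1)^n [-(n+j) binom(n-1, j-1) - j binom(n-1, j-2)] = (-1)^(n+1) (n+1) binom(n, j-1)`; ok: `(n+j) binom(n-1,j-1) + j binom(n-1,j-2) = n binom(n-1,j-1) + j binom(n, j-1)`, and `n binom(n-1, j-1) = (n-j+1) binom(n, j-1)`. (For `n = 0`: `B_1 = a = -c X² φ(A_1)`.)
3. So the coefficients of index `m` of `rsol … n`, `n + m ≤ N`, are integral combinations of `c^j (φ(A_j))_l`, `j ≤ N`, `l ≤ N`; `q M^(c'(N+1)+N) M₁^N` is a common denominator, `q` from `h` (`m ≤ N`), `M₁ c` integral.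
   Conclusion `IterBd`.
-/

open Polynomial

namespace Pool.Agent.Helper79.GA

open Pool.Agent.Helper79.CU Pool.Agent.Helper79.SE

section

variable {κ K : Type} [Field κ] [CharZero κ] [Field K] [CharZero K] [Algebra κ K]

/-- `y` is the expansion of `f` at `s₀ + c X`. -/
private def Rl (t : K) (s₀ c : κ) (f : K) (y : PowerSeries κ) : Prop :=
  ∃ p q : κ[X], q.eval s₀ ≠ 0 ∧ f * aeval t q = aeval t p ∧ y * phi s₀ c q = phi s₀ c p

private theorem cv_phi_const (s₀ c : κ) (q : κ[X]) :
    PowerSeries.constantCoeff (phi s₀ c q) = q.eval s₀ := by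
  rw [phi_apply, Polynomial.constantCoeff_coe, coeff_zero_eq_eval_zero, eval_comp]
  simp

private theorem cv_phi_ne {s₀ c : κ} {q : κ[X]} (h : q.eval s₀ ≠ 0) : phi s₀ c q ≠ 0 := by
  intro h1
  apply h
  rw [← cv_phi_const s₀ c, h1, map_zero]

private theorem cv_phi_der (s₀ c : κ) (q : κ[X]) :
    PowerSeries.derivative κ (phi s₀ c q) = PowerSeries.C c * phi s₀ c (derivative q) := by
  rw [phi_apply, phi_apply, PowerSeries.derivative_coe, derivative_comp]
  simp only [derivative_add, derivative_C, derivative_mul, derivative_X, mul_one, zero_mul,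
    zero_add]
  rw [Polynomial.coe_mul, Polynomial.coe_C]

private theorem cv_phi_C (s₀ c a : κ) : phi s₀ c (C a) = PowerSeries.C a := by
  rw [phi_apply, C_comp, Polynomial.coe_C]

private theorem cv_D_aeval {t : K} {D : Derivation ℚ K K} (ht : RatX κ t D) (p : κ[X]) :
    D (aeval t p) = aeval t (derivative p) := by
  induction p using Polynomial.induction_on' with
  | add p q hp hq => rw [map_add, map_add, hp, hq, derivative_add, map_add]
  | monomial n a =>
    rw [aeval_monomial, Derivation.leibniz, ht.const, smul_zero, add_zero,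
      Derivation.leibniz_pow, ht.dx, derivative_monomial, aeval_monomial, map_mul, map_natCast]
    simp only [smul_eq_mul, nsmul_eq_mul, mul_one]
    ring

private theorem cv_aeval_inj {t : K} {D : Derivation ℚ K K} (ht : RatX κ t D) {p q : κ[X]}
    (h : aeval t p = aeval t q) : p = q :=
  (transcendental_iff_injective.1 ht.tr) h

private theorem cv_aeval_ne {t : K} {D : Derivation ℚ K K} (ht : RatX κ t D) {p : κ[X]}
    (h : p ≠ 0) : aeval t p ≠ 0 := by
  intro h1
  apply h
  apply cv_aeval_inj ht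
  rw [h1, map_zero]

private theorem Rl.unique {t : K} {D : Derivation ℚ K K} (ht : RatX κ t D) {s₀ c : κ} {f : K}
    {y z : PowerSeries κ} (hy : Rl t s₀ c f y) (hz : Rl t s₀ c f z) : y = z := by
  obtain ⟨p, q, h1, h2, h3⟩ := hy
  obtain ⟨p', q', h1', h2', h3'⟩ := hz
  have e : p * q' = p' * q := by
    apply cv_aeval_inj ht
    rw [map_mul, map_mul, ← h2, ← h2']
    ring
  have e2 := congrArg (phi s₀ c) e
  rw [map_mul, map_mul, ← h3, ← h3'] at e2
  have e3 : (y - z) * (phi s₀ c q * phi s₀ c q') = 0 := by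
    linear_combination e2
  rcases mul_eq_zero.1 e3 with h | h
  · exact sub_eq_zero.1 h
  · exact absurd h (mul_ne_zero (cv_phi_ne h1) (cv_phi_ne h1'))

private theorem Rl.add {t : K} {s₀ c : κ} {f g : K} {y z : PowerSeries κ}
    (hy : Rl t s₀ c f y) (hz : Rl t s₀ c g z) : Rl t s₀ c (f + g) (y + z) := by
  obtain ⟨p, q, h1, h2, h3⟩ := hy
  obtain ⟨p', q', h1', h2', h3'⟩ := hz
  refine ⟨p * q' + p' * q, q * q', ?_, ?_, ?_⟩
  · rw [eval_mul]
    exact mul_ne_zero h1 h1'
  · rw [map_mul, map_add, map_mul, map_mul, ← h2, ← h2']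
    ring
  · rw [map_mul, map_add, map_mul, map_mul, ← h3, ← h3']
    ring

private theorem Rl.mul {t : K} {s₀ c : κ} {f g : K} {y z : PowerSeries κ}
    (hy : Rl t s₀ c f y) (hz : Rl t s₀ c g z) : Rl t s₀ c (f * g) (y * z) := by
  obtain ⟨p, q, h1, h2, h3⟩ := hy
  obtain ⟨p', q', h1', h2', h3'⟩ := hz
  refine ⟨p * p', q * q', ?_, ?_, ?_⟩
  · rw [eval_mul]
    exact mul_ne_zero h1 h1'
  · rw [map_mul, map_mul, ← h2, ← h2']
    ring
  · rw [map_mul, map_mul, ← h3, ← h3']
    ring

private theorem Rl.poly (t : K) (s₀ c : κ) (p : κ[X]) : Rl t s₀ c (aeval t p) (phi s₀ c p) := by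
  refine ⟨p, 1, ?_, ?_, ?_⟩
  · rw [eval_one]
    exact one_ne_zero
  · rw [map_one, mul_one]
  · rw [map_one, mul_one]

private theorem Rl.const (t : K) (s₀ c a : κ) :
    Rl t s₀ c (algebraMap κ K a) (PowerSeries.C a) := by
  have h := Rl.poly t s₀ c (C a)
  rwa [aeval_C, cv_phi_C] at h

private theorem Rl.int (t : K) (s₀ c : κ) (a : ℤ) :
    Rl t s₀ c (a : K) (a : PowerSeries κ) := by
  have h := Rl.poly t s₀ c (a : κ[X])
  rwa [map_intCast, map_intCast] at h

private theorem Rl.nat (t : K) (s₀ c : κ) (a : ℕ) :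
    Rl t s₀ c (a : K) (a : PowerSeries κ) := by
  have h := Rl.poly t s₀ c (a : κ[X])
  rwa [map_natCast, map_natCast] at h

private theorem Rl.zero (t : K) (s₀ c : κ) : Rl t s₀ c (0 : K) (0 : PowerSeries κ) := by
  have h := Rl.nat t s₀ c 0
  rwa [Nat.cast_zero, Nat.cast_zero] at h

private theorem Rl.one (t : K) (s₀ c : κ) : Rl t s₀ c (1 : K) (1 : PowerSeries κ) := by
  have h := Rl.nat t s₀ c 1
  rwa [Nat.cast_one, Nat.cast_one] at h

private theorem Rl.neg {t : K} {s₀ c : κ} {f : K} {y : PowerSeries κ}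
    (hy : Rl t s₀ c f y) : Rl t s₀ c (-f) (-y) := by
  have h := (Rl.int t s₀ c (-1)).mul hy
  simpa using h

private theorem Rl.inv {t : K} {D : Derivation ℚ K K} (ht : RatX κ t D) {s₀ c : κ} {q : κ[X]}
    (hq : q.eval s₀ ≠ 0) {z : PowerSeries κ} (hz : phi s₀ c q * z = 1) :
    Rl t s₀ c (aeval t q)⁻¹ z := by
  refine ⟨1, q, hq, ?_, ?_⟩
  · rw [map_one, inv_mul_cancel₀]
    apply cv_aeval_ne ht
    rintro rfl
    exact hq eval_zero
  · rw [map_one, mul_comm, hz]

private theorem Rl.sum {t : K} {s₀ c : κ} {α : Type} (A : Finset α) {f : α → K}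
    {y : α → PowerSeries κ} (h : ∀ a ∈ A, Rl t s₀ c (f a) (y a)) :
    Rl t s₀ c (∑ a ∈ A, f a) (∑ a ∈ A, y a) := by
  classical
  induction A using Finset.induction_on with
  | empty => simpa using Rl.zero t s₀ c
  | insert a A ha ih =>
    rw [Finset.sum_insert ha, Finset.sum_insert ha]
    exact (h a (Finset.mem_insert_self a A)).add
      (ih fun b hb => h b (Finset.mem_insert_of_mem hb))

private theorem Rl.der {t : K} {D : Derivation ℚ K K} (ht : RatX κ t D) {s₀ c : κ} (hc : c ≠ 0)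
    {f : K} {y : PowerSeries κ} (hy : Rl t s₀ c f y) :
    Rl t s₀ c (D f) (PowerSeries.C c⁻¹ * PowerSeries.derivative κ y) := by
  obtain ⟨p, q, h1, h2, h3⟩ := hy
  refine ⟨derivative p * q - p * derivative q, q * q, ?_, ?_, ?_⟩
  · rw [eval_mul]
    exact mul_ne_zero h1 h1
  · have e := congrArg D h2
    rw [Derivation.leibniz, cv_D_aeval ht, cv_D_aeval ht, smul_eq_mul, smul_eq_mul] at e
    rw [map_mul, map_sub, map_mul, map_mul]
    linear_combination (aeval t q) * e - (aeval t (derivative q)) * h2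
  · have e := congrArg (PowerSeries.derivative κ) h3
    rw [Derivation.leibniz, cv_phi_der, cv_phi_der, smul_eq_mul, smul_eq_mul] at e
    have hcc : PowerSeries.C c⁻¹ * PowerSeries.C c = (1 : PowerSeries κ) := by
      rw [← map_mul, inv_mul_cancel₀ hc, map_one]
    rw [map_mul, map_sub, map_mul, map_mul]
    linear_combination (PowerSeries.C c⁻¹ * phi s₀ c q) * e +
      (phi s₀ c (derivative p) * phi s₀ c q - phi s₀ c p * phi s₀ c (derivative q)) * hcc -
      (PowerSeries.C c⁻¹ * PowerSeries.C c * phi s₀ c (derivative q)) * h3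

/-- The expansions of the iterates. -/
private noncomputable def YY {ι : Type} [Fintype ι] [DecidableEq ι] (c : κ)
    (B : Matrix ι ι (PowerSeries κ)) : ℕ → Matrix ι ι (PowerSeries κ)
  | 0 => 1
  | (m + 1) => Matrix.of fun i j => PowerSeries.C (((m + 1 : ℕ) : κ)⁻¹) *
      (PowerSeries.C c⁻¹ * PowerSeries.derivative κ (YY c B m i j) + ∑ l, YY c B m i l * B l j)

private theorem YY_rel {t : K} {D : Derivation ℚ K K} (ht : RatX κ t D) {s₀ c : κ} (hc : c ≠ 0)
    {ι : Type} [Fintype ι] [DecidableEq ι] {A : Matrix ι ι K} {B : Matrix ι ι (PowerSeries κ)}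
    (h : ∀ i j, Rl t s₀ c (A i j) (B i j)) (m : ℕ) (i j : ι) :
    Rl t s₀ c (iter D A m i j) (YY c B m i j) := by
  induction m generalizing i j with
  | zero =>
    rw [iter, YY, Matrix.one_apply, Matrix.one_apply]
    split_ifs
    · exact Rl.one t s₀ c
    · exact Rl.zero t s₀ c
  | succ m ih =>
    rw [iter, YY, Matrix.of_apply, Matrix.of_apply]
    refine Rl.mul ?_ (Rl.add (Rl.der ht hc (ih i j)) (Rl.sum _ fun l _ => (ih i l).mul (h l j)))
    have h1 := Rl.const t s₀ c (((m + 1 : ℕ) : κ)⁻¹)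
    rwa [map_inv₀, map_natCast] at h1

private theorem YY_rec {ι : Type} [Fintype ι] [DecidableEq ι] {c : κ} (hc : c ≠ 0)
    (B : Matrix ι ι (PowerSeries κ)) (m : ℕ) (i j : ι) :
    PowerSeries.C c * (((m + 1 : ℕ) : PowerSeries κ) * YY c B (m + 1) i j) =
      PowerSeries.derivative κ (YY c B m i j) + PowerSeries.C c * ∑ l, YY c B m i l * B l j := by
  have h1 : ((m + 1 : ℕ) : PowerSeries κ) = PowerSeries.C ((m + 1 : ℕ) : κ) :=
    (map_natCast (PowerSeries.C (R := κ)) _).symm
  have h2 : PowerSeries.C ((m + 1 : ℕ) : κ) * PowerSeries.C (((m + 1 : ℕ) : κ)⁻¹) =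
      (1 : PowerSeries κ) := by
    rw [← map_mul, mul_inv_cancel₀ (Nat.cast_ne_zero.2 (Nat.succ_ne_zero m)), map_one]
  have h3 : PowerSeries.C c * PowerSeries.C c⁻¹ = (1 : PowerSeries κ) := by
    rw [← map_mul, mul_inv_cancel₀ hc, map_one]
  rw [YY, Matrix.of_apply, h1, ← mul_assoc (PowerSeries.C ((m + 1 : ℕ) : κ)), h2, one_mul,
    mul_add, ← mul_assoc, h3, one_mul]

private theorem cv_binom {R : Type} [CommRing R] (n : ℕ) (Z : ℕ → R) :
    (∑ j ∈ Finset.range (n + 1), ((n.choose j : ℕ) : R) * ((n + j + 2 : ℕ) : R) * Z j) +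
      ∑ j ∈ Finset.range (n + 1), ((n.choose j : ℕ) : R) * ((j + 2 : ℕ) : R) * Z (j + 1) =
    ((n + 2 : ℕ) : R) * ∑ j ∈ Finset.range (n + 2), (((n + 1).choose j : ℕ) : R) * Z j := by
  have h1 : (∑ j ∈ Finset.range (n + 1), ((n.choose j : ℕ) : R) * ((n + j + 2 : ℕ) : R) * Z j) =
      ∑ j ∈ Finset.range (n + 2), ((n.choose j : ℕ) : R) * ((n + j + 2 : ℕ) : R) * Z j := by
    rw [Finset.sum_range_succ _ (n + 1), Nat.choose_succ_self]
    simp
  rw [h1, Finset.sum_range_succ' _ (n + 1), Finset.sum_range_succ' _ (n + 1), mul_add,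
    Finset.mul_sum, add_right_comm, ← Finset.sum_add_distrib]
  congr 1
  · refine Finset.sum_congr rfl fun j hj => ?_
    have hj' := Finset.mem_range.1 hj
    have h2 := Nat.choose_succ_right_eq n j
    have h3 : (((n.choose (j + 1)) : ℕ) : R) * ((j : R) + 1) =
        ((n.choose j : ℕ) : R) * ((n : R) - (j : R)) := by
      rw [← Nat.cast_sub (by omega)]
      exact_mod_cast congrArg (Nat.cast (R := R)) h2
    rw [Nat.choose_succ_succ]
    push_cast
    linear_combination Z (j + 1) * h3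
  · simp

private theorem cv_rsol {ι : Type} [Fintype ι] [DecidableEq ι] {s₀ c : κ} (hc : c ≠ 0)
    (τ : PowerSeries κ) (A : Matrix ι ι κ[X]) (n : ℕ) (i l : ι) :
    rsol (sysU s₀ c τ A) (n + 1) i l = ∑ j ∈ Finset.range (n + 1),
      (-1) ^ (n + 1) * (((n.choose j : ℕ) : PowerSeries κ) * (PowerSeries.C c ^ (j + 1) *
        (PowerSeries.X ^ (n + j + 2) *
          YY c (fun i j => τ * phi s₀ c (A i j)) (j + 1) i l))) := by
  set B : Matrix ι ι (PowerSeries κ) := fun i j => τ * phi s₀ c (A i j) with hB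
  have ha : ∀ m l, sysU s₀ c τ A m l = -(PowerSeries.C c * PowerSeries.X ^ 2 * B m l) := by
    intro m l
    rw [sysU, hB]
    simp only [Polynomial.coe_neg, Polynomial.coe_mul, Polynomial.coe_C, Polynomial.coe_pow,
      Polynomial.coe_X]
    ring
  have hne : ∀ k : ℕ, ((k + 1 : ℕ) : PowerSeries κ) ≠ 0 := by
    intro k h
    have h1 := congrArg (PowerSeries.constantCoeff (R := κ)) h
    rw [map_natCast, map_zero] at h1
    exact Nat.cast_ne_zero.2 (Nat.succ_ne_zero k) h1
  induction n generalizing i l with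
  | zero =>
    apply mul_left_cancel₀ (hne 0)
    rw [rsol_rec, rsol_zero]
    have h1 := YY_rec hc B 0 i l
    have hd : PowerSeries.derivative κ ((1 : Matrix ι ι (PowerSeries κ)) i l) = 0 := by
      rw [Matrix.one_apply]
      split_ifs
      · exact Derivation.map_one_eq_zero _
      · exact map_zero _
    have hs1 : ∀ F : ι → PowerSeries κ, (∑ m, (1 : Matrix ι ι (PowerSeries κ)) i m * F m) = F i := by
      intro F
      rw [Finset.sum_eq_single i]
      · rw [Matrix.one_apply_eq, one_mul]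
      · intro b _ hb
        rw [Matrix.one_apply_ne (Ne.symm hb), zero_mul]
      · intro h
        exact absurd (Finset.mem_univ i) h
    rw [YY, hd, zero_add, hs1 fun m => B m l] at h1
    rw [hd, hs1 fun m => sysU s₀ c τ A m l, ha]
    simp only [zero_add, Finset.range_one, Finset.sum_singleton, pow_one, Nat.choose_self,
      Nat.cast_one, one_mul, mul_zero, neg_zero] at h1 ⊢
    linear_combination PowerSeries.X ^ 2 * h1
  | succ n ih =>
    apply mul_left_cancel₀ (hne (n + 1))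
    rw [rsol_rec]
    -- one term
    have hterm : ∀ j : ℕ, -(PowerSeries.X ^ 2 * PowerSeries.derivative κ
        (PowerSeries.X ^ (n + j + 2) * YY c B (j + 1) i l)) + ∑ m,
        (PowerSeries.X ^ (n + j + 2) * YY c B (j + 1) i m) * sysU s₀ c τ A m l =
        -((((n + j + 2 : ℕ) : PowerSeries κ) * (PowerSeries.X ^ (n + j + 3) * YY c B (j + 1) i l)) +
          ((j + 2 : ℕ) : PowerSeries κ) * (PowerSeries.C c *
            (PowerSeries.X ^ (n + j + 4) * YY c B (j + 2) i l))) := by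
      intro j
      have h1 := YY_rec hc B (j + 1) i l
      have h2 : (∑ m, (PowerSeries.X ^ (n + j + 2) * YY c B (j + 1) i m) * sysU s₀ c τ A m l) =
          -(PowerSeries.C c * PowerSeries.X ^ (n + j + 4) * ∑ m, YY c B (j + 1) i m * B m l) := by
        rw [Finset.mul_sum, ← Finset.sum_neg_distrib]
        refine Finset.sum_congr rfl fun m _ => ?_
        rw [ha]
        ring
      rw [h2, Derivation.leibniz, Derivation.leibniz_pow, smul_eq_mul, smul_eq_mul,
        PowerSeries.derivative_X]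
      simp only [nsmul_eq_mul, smul_eq_mul, mul_one]
      have h3 : n + j + 2 - 1 = n + j + 1 := by omega
      rw [h3]
      push_cast at h1 ⊢
      linear_combination PowerSeries.X ^ (n + j + 4) * h1
    have hR : ∀ m, rsol (sysU s₀ c τ A) (n + 1) i m = ∑ j ∈ Finset.range (n + 1),
        ((-1) ^ (n + 1) * (((n.choose j : ℕ) : PowerSeries κ) * PowerSeries.C c ^ (j + 1))) *
        (PowerSeries.X ^ (n + j + 2) * YY c B (j + 1) i m) := by
      intro m
      rw [ih i m]
      refine Finset.sum_congr rfl fun j _ => ?_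
      ring
    have hdc : ∀ (j : ℕ) (y : PowerSeries κ), PowerSeries.derivative κ
        (((-1) ^ (n + 1) * (((n.choose j : ℕ) : PowerSeries κ) * PowerSeries.C c ^ (j + 1))) * y) =
        ((-1) ^ (n + 1) * (((n.choose j : ℕ) : PowerSeries κ) * PowerSeries.C c ^ (j + 1))) *
          PowerSeries.derivative κ y := by
      intro j y
      have h1 : ((-1) ^ (n + 1) * (((n.choose j : ℕ) : PowerSeries κ) *
          PowerSeries.C c ^ (j + 1))) = PowerSeries.C ((-1) ^ (n + 1) * (((n.choose j : ℕ) : κ) *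
          c ^ (j + 1))) := by
        rw [map_mul, map_mul, map_pow, map_pow, map_neg, map_one, map_natCast]
      rw [h1, Derivation.leibniz, PowerSeries.derivative_C, smul_zero, add_zero, smul_eq_mul]
    have hL : -(PowerSeries.X ^ 2 * PowerSeries.derivative κ (rsol (sysU s₀ c τ A) (n + 1) i l)) +
        ∑ m, rsol (sysU s₀ c τ A) (n + 1) i m * sysU s₀ c τ A m l =
        ∑ j ∈ Finset.range (n + 1),
        ((-1) ^ (n + 1) * (((n.choose j : ℕ) : PowerSeries κ) * PowerSeries.C c ^ (j + 1))) *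
        (-((((n + j + 2 : ℕ) : PowerSeries κ) * (PowerSeries.X ^ (n + j + 3) * YY c B (j + 1) i l)) +
          ((j + 2 : ℕ) : PowerSeries κ) * (PowerSeries.C c *
            (PowerSeries.X ^ (n + j + 4) * YY c B (j + 2) i l)))) := by
      simp only [hR, map_sum, hdc, Finset.sum_mul, Finset.mul_sum]
      rw [Finset.sum_comm, ← Finset.sum_neg_distrib, ← Finset.sum_add_distrib]
      refine Finset.sum_congr rfl fun j _ => ?_
      rw [← hterm j, mul_add, Finset.mul_sum]
      congr 1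
      · ring
      · refine Finset.sum_congr rfl fun m _ => ?_
        ring
    rw [hL]
    have hb := cv_binom n fun j => PowerSeries.C c ^ (j + 1) *
      (PowerSeries.X ^ (n + 1 + j + 2) * YY c B (j + 1) i l)
    have hG : ((n + 1 + 1 : ℕ) : PowerSeries κ) * ∑ j ∈ Finset.range (n + 1 + 1),
        (-1) ^ (n + 1 + 1) * ((((n + 1).choose j : ℕ) : PowerSeries κ) *
          (PowerSeries.C c ^ (j + 1) * (PowerSeries.X ^ (n + 1 + j + 2) *
            YY c B (j + 1) i l))) = (-1) ^ (n + 1 + 1) * (((n + 2 : ℕ) : PowerSeries κ) *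
        ∑ j ∈ Finset.range (n + 2), (((n + 1).choose j : ℕ) : PowerSeries κ) *
          (PowerSeries.C c ^ (j + 1) * (PowerSeries.X ^ (n + 1 + j + 2) *
            YY c B (j + 1) i l))) := by
      rw [← Finset.mul_sum]
      ring
    rw [hG, ← hb, ← Finset.sum_add_distrib, Finset.mul_sum]
    refine Finset.sum_congr rfl fun j _ => ?_
    ring

end

theorem conv {κ K : Type} [Field κ] [CharZero κ] [Algebra.IsAlgebraic ℚ κ] [Field K] [CharZero K]
    [Algebra κ K] {t : K} {D : Derivation ℚ K K} (ht : RatX κ t D) {ι : Type} [Fintype ι]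
    [DecidableEq ι] {T : κ[X]} (hT : T ≠ 0) {A : Matrix ι ι κ[X]}
    (h : TameM D (fun i j => aeval t (A i j) / aeval t T)) :
    ∃ Bad : Set κ, Bad.Finite ∧ ∀ s₀ ∉ Bad, T.eval s₀ ≠ 0 ∧ ∀ c : κ, c ≠ 0 →
      ∀ τ : PowerSeries κ, phi s₀ c T * τ = 1 → IterBd (sysU s₀ c τ A) := by
  classical
  have hG := h
  obtain ⟨T', c', H', hT', hN⟩ := h
  have hq : ∀ f : K, ∃ p q : κ[X], aeval t q ≠ 0 ∧ f = aeval t p / aeval t q := ht.quo
  choose pp qq hqq hfr using hq
  have hq0 : ∀ f, qq f ≠ 0 := by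
    intro f h0
    apply hqq f
    rw [h0, map_zero]
  refine ⟨{x | T.IsRoot x} ∪ ⋃ f ∈ T', {x | (qq f).IsRoot x},
    (finite_setOfPred_isRoot hT).union (hT'.biUnion fun f _ => finite_setOfPred_isRoot (hq0 f)),
    fun s₀ hs₀ => ?_⟩
  simp only [Set.mem_union, Set.mem_iUnion, not_or, not_exists] at hs₀
  obtain ⟨hs1, hs2⟩ := hs₀
  have hT1 : T.eval s₀ ≠ 0 := hs1
  refine ⟨hT1, fun c hc τ hτ => ?_⟩
  have hs3 : ∀ f ∈ T', (qq f).eval s₀ ≠ 0 := fun f hf => hs2 f hf
  -- the expansions of the generators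
  set yy : K → PowerSeries κ := fun f => phi s₀ c (pp f) * (phi s₀ c (qq f))⁻¹ with hyy
  have hinv : ∀ f ∈ T', phi s₀ c (qq f) * (phi s₀ c (qq f))⁻¹ = 1 := by
    intro f hf
    apply PowerSeries.mul_inv_cancel
    rw [cv_phi_const]
    exact hs3 f hf
  have hyR : ∀ f ∈ T', Rl t s₀ c f (yy f) := by
    intro f hf
    have h1 := (Rl.poly t s₀ c (pp f)).mul (Rl.inv ht (hs3 f hf) (hinv f hf))
    have h2 : aeval t (pp f) * (aeval t (qq f))⁻¹ = f := by
      conv_rhs => rw [hfr f]
      rw [div_eq_mul_inv]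
    rwa [h2] at h1
  have hyG : ∀ f ∈ T', Geo (yy f) := by
    intro f hf
    exact geo_mul (geo_poly _) (geo_inv (geo_poly _) (hinv f hf))
  obtain ⟨M, hM1, -, hM⟩ := geo_finite (hT'.image yy) (by
    rintro y ⟨f, hf, rfl⟩
    exact hyG f hf) 1 le_rfl
  obtain ⟨S, hS⟩ := exists_filt κ M
  have hgen : ∀ (n : ℕ) (f : K), f ∈ (G T').I n → ∃ y, Rl t s₀ c f y ∧ y ∈ S.I n := by
    intro n f hf
    change f ∈ AddSubgroup.closure _ at hf
    induction hf using AddSubgroup.closure_induction with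
    | mem b hb =>
      obtain ⟨i, r, l, -, e2, e3, rfl⟩ := hb
      have h3 : ∀ l : List K, (∀ x ∈ l, x ∈ T') → ∃ y, Rl t s₀ c l.prod y ∧ y ∈ S.I l.length := by
        intro l
        induction l with
        | nil => intro _; exact ⟨1, by simpa using Rl.one t s₀ c, S.one⟩
        | cons a l ih =>
          intro hl
          obtain ⟨y, hy1, hy2⟩ := ih fun x hx => hl x (by simp [hx])
          have ha : a ∈ T' := hl a (by simp)
          refine ⟨yy a * y, ?_, ?_⟩
          · rw [List.prod_cons]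
            exact (hyR a ha).mul hy1
          · rw [List.length_cons, add_comm]
            exact S.mul ((hS 1 _).2 fun m => hM _ (Set.mem_image_of_mem _ ha) m) hy2
      obtain ⟨y, hy1, hy2⟩ := h3 l e2
      refine ⟨(r : PowerSeries κ) * y, ?_, ?_⟩
      · rw [eq_intCast]
        exact (Rl.int t s₀ c r).mul hy1
      · rw [← zsmul_eq_mul]
        exact (S.I n).zsmul_mem (S.mono (by omega) hy2) r
    | zero => exact ⟨0, Rl.zero t s₀ c, (S.I n).zero_mem⟩
    | add a b _ _ ha hb =>
      obtain ⟨y, hy1, hy2⟩ := ha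
      obtain ⟨z, hz1, hz2⟩ := hb
      exact ⟨y + z, hy1.add hz1, (S.I n).add_mem hy2 hz2⟩
    | neg a _ ha =>
      obtain ⟨y, hy1, hy2⟩ := ha
      exact ⟨-y, hy1.neg, (S.I n).neg_mem hy2⟩
  -- the matrix
  set B : Matrix ι ι (PowerSeries κ) := fun i j => τ * phi s₀ c (A i j) with hB
  have hBR : ∀ i j, Rl t s₀ c (aeval t (A i j) / aeval t T) (B i j) := by
    intro i j
    rw [div_eq_inv_mul]
    exact (Rl.inv ht hT1 hτ).mul (Rl.poly t s₀ c _)
  have hYR : ∀ m i j, Rl t s₀ c (iter D (fun i j => aeval t (A i j) / aeval t T) m i j)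
      (YY c B m i j) := fun m i j => YY_rel ht hc hBR m i j
  obtain ⟨M₁, hM₁, hint⟩ := geo_poly (K := κ) (C c)
  have hc1 : IsIntegral ℤ ((M₁ : κ) * c) := by
    have h1 := hint 0
    rwa [Polynomial.coeff_coe, coeff_C_zero, add_zero, pow_one] at h1
  have hnat : ∀ n : ℕ, IsIntegral ℤ (n : κ) := fun n => by
    have := isIntegral_algebraMap (R := ℤ) (A := κ) (x := (n : ℤ))
    simpa using this
  refine ⟨H' * M ^ (c' + 1) * M₁, fun N => ?_⟩
  obtain ⟨q, q0, q1, q2⟩ := hN N
  refine ⟨q * M ^ ((c' + 1) * (N + 1)) * M₁ ^ (N + 1), ?_, ?_, ?_⟩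
  · exact Nat.mul_pos (Nat.mul_pos q0 (Nat.pow_pos hM1)) (Nat.pow_pos hM₁)
  · rw [mul_pow, mul_pow, ← pow_mul]
    exact Nat.mul_le_mul (Nat.mul_le_mul q1 le_rfl) le_rfl
  · intro n m hnm i l
    rcases n with _ | n
    · rw [rsol_zero]
      refine (hnat _).mul ?_
      rw [Matrix.one_apply]
      split_ifs
      · rw [PowerSeries.coeff_one]
        split_ifs
        · exact isIntegral_one
        · exact isIntegral_zero
      · rw [map_zero]
        exact isIntegral_zero
    · rw [cv_rsol hc, map_sum, Finset.mul_sum]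
      refine IsIntegral.sum _ fun j hj => ?_
      have hj' := Finset.mem_range.1 hj
      have e1 : (-1 : PowerSeries κ) ^ (n + 1) * (((n.choose j : ℕ) : PowerSeries κ) *
          (PowerSeries.C c ^ (j + 1) * (PowerSeries.X ^ (n + j + 2) * YY c B (j + 1) i l))) =
          PowerSeries.C ((-1) ^ (n + 1) * (((n.choose j : ℕ) : κ) * c ^ (j + 1))) *
            (PowerSeries.X ^ (n + j + 2) * YY c B (j + 1) i l) := by
        rw [map_mul, map_mul, map_pow, map_pow, map_neg, map_one, map_natCast]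
        ring
      rw [e1, PowerSeries.coeff_C_mul, PowerSeries.coeff_X_pow_mul']
      split_ifs with hle
      · set r := m - (n + j + 2) with hr
        -- the coefficient of the expansion
        obtain ⟨y, hy1, hy2⟩ := hgen _ _ (q2 (j + 1) (by omega) (i, l))
        have hy3 : y = (q : PowerSeries κ) * YY c B (j + 1) i l :=
          Rl.unique ht hy1 ((Rl.nat t s₀ c q).mul (hYR (j + 1) i l))
        have hy4 := (hS _ _).1 hy2 r
        have e2 : PowerSeries.coeff r y = (q : κ) * PowerSeries.coeff r (YY c B (j + 1) i l) := by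
          rw [hy3, ← map_natCast (PowerSeries.C (R := κ)), PowerSeries.coeff_C_mul]
        rw [e2] at hy4
        obtain ⟨a, ha⟩ : ∃ a, (c' + 1) * (N + 1) = c' * (N + 1) + r + a :=
          ⟨(N + 1) - r, by
            have : r ≤ N + 1 := by omega
            rw [add_mul, one_mul]
            omega⟩
        obtain ⟨b, hb⟩ : ∃ b, N + 1 = (j + 1) + b := ⟨N + 1 - (j + 1), by omega⟩
        have e3 : ((q * M ^ ((c' + 1) * (N + 1)) * M₁ ^ (N + 1) : ℕ) : κ) *
            ((-1) ^ (n + 1) * (((n.choose j : ℕ) : κ) * c ^ (j + 1)) *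
              PowerSeries.coeff r (YY c B (j + 1) i l)) =
            ((-1) ^ (n + 1) * (((n.choose j : ℕ) : κ)) * ((M₁ ^ b * M ^ a : ℕ) : κ)) *
              (((M₁ : κ) * c) ^ (j + 1) * ((M : κ) ^ (c' * (N + 1) + r) *
                ((q : κ) * PowerSeries.coeff r (YY c B (j + 1) i l)))) := by
          have e4 : (M₁ : κ) ^ (N + 1) = (M₁ : κ) ^ (j + 1) * (M₁ : κ) ^ b := by
            rw [← pow_add, ← hb]
          rw [ha]
          push_cast
          rw [e4, pow_add, mul_pow]
          ring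
        rw [e3]
        refine ((IsIntegral.mul ?_ (hnat _)).mul (hnat _)).mul ((hc1.pow _).mul hy4)
        exact (isIntegral_one.neg).pow _
      · rw [mul_zero, mul_zero]
        exact isIntegral_zero

end Pool.Agent.Helper79.GA
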