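import Pool.Agent.Helper79.GA.CycDefs

/-!
# GA-08: cyclic vectors (Katz)

Let `∇ = nab D A` on `V = K^(r+1)`, `e_i` the standard basis, `n = r + 1`. (`∇` is additive, `∇ (f • v) = D f • v + f • ∇ v`.)
For `i, j ∈ ℕ` with `j ≤ r` define the vectors `c(i, j)` by `c(0, j) = ∑_{l ≤ j} (-1)^l binom(j, l) ∇^l (e_{j-l})` for `j ≤ r`, `c(0, j) = 0` for `j > r`, and
`c(i+1, j) = ∇ c(i, j) + c(i, j+1)`. Then `c(i, 0) = e_i` for `i ≤ r`: more generally
`c(i, j) = ∑_{l ≤ j} (-1)^l binom(j, l) ∇^l (e_{i+j-l})` for `i + j ≤ r` (induction on `i`, Pascal's rule).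
For `a ∈ ℚ` (or `a ∈ ℕ`) put `y_a = y - a`, `D y_a = 1`, and `v_a = ∑_{j≤r} y_a^j/j! c(0, j)`. Then
`∇^i v_a = ∑_{j≤r} y_a^j/j! c(i, j) + (terms)`: with the convention that the sum is over all `j ≤ J` for `J` large and `c(0, j) = 0` for `j > r`, one has
`∇ (∑_{j≤J} y_a^j/j! c(i, j)) = ∑_{j≤J} y_a^j/j! ∇ c(i,j) + ∑_{1≤j≤J} y_a^(j-1)/(j-1)! c(i, j) = ∑_{j≤J-1} y_a^j/j! c(i+1, j) + y_a^J/J! ∇ c(i, J)`, and
`c(i, j) = 0` for `j > r` for all `i` (induction: `c(i+1, j) = ∇ c(i, j) + c(i, j+1)`), so with `J = r`: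
`∇^i v_a = ∑_{j≤r} y_a^j/j! c(i, j)` for all `i`.
The determinant of the vectors `∑_{j≤r} Y^j/j! c(i, j)`, `0 ≤ i ≤ r`, in `K[Y]` is a polynomial with value `det(e_0, …, e_r) = 1` at `Y = 0`, so it is nonzero, and it has finitely many
roots; the elements `y - a`, `a ∈ ℕ`, are pairwise different, so for some `a` the determinant of the `∇^i v_a`, `i ≤ r`, is nonzero:
linear independence (`Matrix.linearIndependent_rows_iff_isUnit` or `LinearIndependent` from `det ≠ 0`).
-/

open Polynomial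

namespace Pool.Agent.Helper79.GA

open Pool.Agent.Helper79.CU Pool.Agent.Helper79.SE

section Cyc

variable {K : Type} [Field K] [CharZero K] {D : Derivation ℚ K K} {r : ℕ}
  (A : Matrix (Fin (r + 1)) (Fin (r + 1)) K)

theorem cyc_nab_add (v w : Fin (r + 1) → K) : nab D A (v + w) = nab D A v + nab D A w := by
  funext j
  simp only [nab, Pi.add_apply, map_add, add_mul, Finset.sum_add_distrib]
  ring

theorem cyc_nab_smul (f : K) (v : Fin (r + 1) → K) :
    nab D A (f • v) = D f • v + f • nab D A v := by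
  funext j
  simp only [nab, Pi.add_apply, Pi.smul_apply, smul_eq_mul, Derivation.leibniz]
  rw [mul_add, Finset.mul_sum]
  simp only [mul_assoc]
  ring

theorem cyc_nab_zero : nab D A 0 = 0 := by
  funext j
  simp [nab]

theorem cyc_D_int (z : ℤ) : D (z : K) = 0 := by
  have h := D.map_algebraMap (z : ℚ)
  rwa [map_intCast] at h

theorem cyc_nab_int (z : ℤ) (v : Fin (r + 1) → K) :
    nab D A ((z : K) • v) = (z : K) • nab D A v := by
  rw [cyc_nab_smul, cyc_D_int, zero_smul, zero_add]

theorem cyc_nab_sum {α : Type} (s : Finset α) (f : α → Fin (r + 1) → K) :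
    nab D A (∑ a ∈ s, f a) = ∑ a ∈ s, nab D A (f a) := by
  classical
  induction s using Finset.induction_on with
  | empty => simp [cyc_nab_zero]
  | insert a s ha ih => rw [Finset.sum_insert ha, Finset.sum_insert ha, cyc_nab_add, ih]

/-- The sum `∑_{l ≤ j} (-1)^l binom(j, l) ∇^l (e_{i+j-l})`. -/
noncomputable def cycF (D : Derivation ℚ K K) (e : ℕ → Fin (r + 1) → K) (i j : ℕ) :
    Fin (r + 1) → K :=
  ∑ l ∈ Finset.range (j + 1), (((-1) ^ l * (j.choose l : ℤ) : ℤ) : K) •
    (nab D A)^[l] (e (i + j - l))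

theorem cycF_succ (e : ℕ → Fin (r + 1) → K) (i j : ℕ) :
    cycF A D e (i + 1) j = nab D A (cycF A D e i j) + cycF A D e i (j + 1) := by
  unfold cycF
  rw [cyc_nab_sum, Finset.sum_range_succ' (fun l => (((-1) ^ l * ((j + 1).choose l : ℤ) : ℤ) : K) •
    (nab D A)^[l] (e (i + (j + 1) - l)))]
  simp only [cyc_nab_int]
  rw [← add_assoc, ← Finset.sum_add_distrib]
  have h1 : ∀ l ∈ Finset.range (j + 1), (((-1) ^ l * (j.choose l : ℤ) : ℤ) : K) •
      nab D A ((nab D A)^[l] (e (i + j - l))) + (((-1) ^ (l + 1) * ((j + 1).choose (l + 1) : ℤ) : ℤ) : K) •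
      (nab D A)^[l + 1] (e (i + (j + 1) - (l + 1))) =
      (((-1) ^ (l + 1) * (j.choose (l + 1) : ℤ) : ℤ) : K) •
      (nab D A)^[l + 1] (e (i + 1 + j - (l + 1))) := by
    intro l _
    rw [← Function.iterate_succ_apply' (nab D A) l]
    have e1 : i + (j + 1) - (l + 1) = i + j - l := by omega
    have e2 : i + 1 + j - (l + 1) = i + j - l := by omega
    rw [e1, e2, ← add_smul, Nat.choose_succ_succ]
    congr 1
    push_cast
    ring
  rw [Finset.sum_congr rfl h1, Finset.sum_range_succ' (fun l => (((-1) ^ l * (j.choose l : ℤ) : ℤ) : K) •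
    (nab D A)^[l] (e (i + 1 + j - l)))]
  rw [Finset.sum_range_succ (fun l => (((-1) ^ (l + 1) * (j.choose (l + 1) : ℤ) : ℤ) : K) •
      (nab D A)^[l + 1] (e (i + 1 + j - (l + 1))))]
  have h2 : i + 1 + j = i + (j + 1) := by omega
  simp [Nat.choose_succ_self, h2]

/-- The truncated sequences. -/
noncomputable def cycC (D : Derivation ℚ K K) (e : ℕ → Fin (r + 1) → K) : ℕ → ℕ → Fin (r + 1) → K
  | 0, j => if j ≤ r then cycF A D e 0 j else 0
  | (i + 1), j => nab D A (cycC D e i j) + cycC D e i (j + 1)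

theorem cycC_zero (e : ℕ → Fin (r + 1) → K) (i : ℕ) : ∀ j, r < j → cycC A D e i j = 0 := by
  induction i with
  | zero =>
    intro j hj
    simp [cycC, not_le.2 hj]
  | succ i ih =>
    intro j hj
    rw [cycC, ih j hj, ih (j + 1) (by omega), cyc_nab_zero, add_zero]

theorem cycC_eq (e : ℕ → Fin (r + 1) → K) (i : ℕ) :
    ∀ j, i + j ≤ r → cycC A D e i j = cycF A D e i j := by
  induction i with
  | zero =>
    intro j hj
    rw [cycC, if_pos (by omega)]
  | succ i ih =>
    intro j hj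
    rw [cycC, ih j (by omega), ih (j + 1) (by omega), cycF_succ]

theorem cycC_e (e : ℕ → Fin (r + 1) → K) (i : ℕ) (hi : i ≤ r) : cycC A D e i 0 = e i := by
  rw [cycC_eq A e i 0 (by omega)]
  simp [cycF]

/-- The vectors `∑_{j≤r} t^j/j! c(i, j)`. -/
noncomputable def cycV (D : Derivation ℚ K K) (e : ℕ → Fin (r + 1) → K) (t : K) (i : ℕ) :
    Fin (r + 1) → K :=
  ∑ j ∈ Finset.range (r + 1), (t ^ j / (j.factorial : K)) • cycC A D e i j

theorem cyc_D_pow {t : K} (ht : D t = 1) (j : ℕ) :
    D (t ^ (j + 1) / ((j + 1).factorial : K)) = t ^ j / (j.factorial : K) := by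
  have h1 : D (((j + 1).factorial : K) * (t ^ (j + 1) / ((j + 1).factorial : K))) =
      ((j + 1).factorial : K) * D (t ^ (j + 1) / ((j + 1).factorial : K)) := by
    have h := cyc_D_int (D := D) (((j + 1).factorial : ℕ) : ℤ)
    rw [Int.cast_natCast] at h
    rw [Derivation.leibniz, h, smul_zero, add_zero, smul_eq_mul]
  have hf : (((j + 1).factorial : ℕ) : K) ≠ 0 := Nat.cast_ne_zero.2 (Nat.factorial_ne_zero _)
  have hf2 : ((j.factorial : ℕ) : K) ≠ 0 := Nat.cast_ne_zero.2 (Nat.factorial_ne_zero _)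
  have h2 : ((j + 1).factorial : K) * (t ^ (j + 1) / ((j + 1).factorial : K)) = t ^ (j + 1) := by
    field_simp
  rw [h2, Derivation.leibniz_pow, ht] at h1
  have h3 : (((j + 1).factorial : ℕ) : K) = ((j : K) + 1) * (j.factorial : K) := by
    rw [Nat.factorial_succ]
    push_cast
    ring
  have h4 : D (t ^ (j + 1) / ((j + 1).factorial : K)) =
      ((j + 1) • (t ^ (j + 1 - 1) • (1 : K))) / ((j + 1).factorial : K) := by
    rw [h1]
    field_simp
  rw [h4, h3]
  have h5 : ((j : K) + 1) ≠ 0 := by exact_mod_cast Nat.succ_ne_zero j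
  rw [nsmul_eq_mul, smul_eq_mul, Nat.add_sub_cancel, mul_one]
  push_cast
  field_simp

theorem cycV_succ (e : ℕ → Fin (r + 1) → K) {t : K} (ht : D t = 1) (i : ℕ) :
    cycV A D e t (i + 1) = nab D A (cycV A D e t i) := by
  unfold cycV
  rw [cyc_nab_sum]
  simp only [cyc_nab_smul]
  rw [Finset.sum_add_distrib]
  have h1 : ∑ j ∈ Finset.range (r + 1), D (t ^ j / (j.factorial : K)) • cycC A D e i j =
      ∑ j ∈ Finset.range (r + 1), (t ^ j / (j.factorial : K)) • cycC A D e i (j + 1) := by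
    rw [Finset.sum_range_succ', Finset.sum_range_succ, cycC_zero A e i (r + 1) (by omega), smul_zero,
      add_zero]
    have h2 : D (t ^ 0 / ((Nat.factorial 0 : ℕ) : K)) = 0 := by
      simp
    rw [h2, zero_smul, add_zero]
    refine Finset.sum_congr rfl fun j _ => ?_
    rw [cyc_D_pow ht]
  rw [h1, ← Finset.sum_add_distrib]
  refine Finset.sum_congr rfl fun j _ => ?_
  rw [cycC, smul_add]
  exact add_comm _ _

theorem cycV_iter (e : ℕ → Fin (r + 1) → K) {t : K} (ht : D t = 1) (i : ℕ) :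
    (nab D A)^[i] (cycV A D e t 0) = cycV A D e t i := by
  induction i with
  | zero => rfl
  | succ i ih => rw [Function.iterate_succ_apply', ih, cycV_succ A e ht]

end Cyc

theorem exists_cyclic {K : Type} [Field K] [CharZero K] {D : Derivation ℚ K K} {y : K}
    (hy : D y = 1) {r : ℕ} (A : Matrix (Fin (r + 1)) (Fin (r + 1)) K) :
    ∃ v : Fin (r + 1) → K, LinearIndependent K fun i : Fin (r + 1) => (nab D A)^[i] v := by
  classical
  let e : ℕ → Fin (r + 1) → K := fun i s => if (s : ℕ) = i then 1 else 0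
  let M : Matrix (Fin (r + 1)) (Fin (r + 1)) K[X] := Matrix.of fun i s =>
    ∑ j ∈ Finset.range (r + 1), C (cycC A D e (i : ℕ) j s / (j.factorial : K)) * X ^ j
  have hM : ∀ t : K, (M.det).eval t = (Matrix.of fun i : Fin (r + 1) => cycV A D e t (i : ℕ)).det := by
    intro t
    have h := RingHom.map_det (evalRingHom t) M
    rw [coe_evalRingHom] at h
    rw [h]
    congr 1
    ext i s
    simp only [M, RingHom.mapMatrix_apply, Matrix.map_apply, Matrix.of_apply, coe_evalRingHom,
      eval_finsetSum, eval_mul, eval_C, eval_pow, eval_X, cycV, Finset.sum_apply, Pi.smul_apply,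
      smul_eq_mul]
    refine Finset.sum_congr rfl fun j _ => ?_
    ring
  have h0 : (M.det).eval 0 = 1 := by
    rw [hM 0]
    have h1 : (Matrix.of fun i : Fin (r + 1) => cycV A D e 0 (i : ℕ)) = 1 := by
      ext i s
      rw [Matrix.of_apply]
      have h2 : cycV A D e 0 (i : ℕ) = e i := by
        unfold cycV
        rw [Finset.sum_range_succ', Finset.sum_eq_zero, zero_add, pow_zero, Nat.factorial_zero,
          Nat.cast_one, div_one, one_smul, cycC_e A e i (by omega)]
        intro j _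
        rw [pow_succ, mul_zero, zero_div, zero_smul]
      rw [h2, Matrix.one_apply]
      simp only [e]
      by_cases h : i = s
      · subst h
        simp
      · rw [if_neg h, if_neg]
        intro h'
        exact h (Fin.ext h'.symm)
    rw [h1, Matrix.det_one]
  have hne : M.det ≠ 0 := by
    intro h
    rw [h, eval_zero] at h0
    exact zero_ne_one h0
  have hfin : Set.Finite {a : ℕ | (M.det).eval (y - (a : K)) = 0} := by
    have h1 : Set.Finite {t : K | (M.det).IsRoot t} := Polynomial.finite_setOfPred_isRoot hne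
    refine Set.Finite.of_finite_image (f := fun a : ℕ => y - (a : K)) (h1.subset ?_) ?_
    · rintro _ ⟨a, ha, rfl⟩
      exact ha
    · intro a _ b _ h
      have : (a : K) = b := by
        have h' : y - (a : K) = y - (b : K) := h
        exact sub_right_injective h'
      exact_mod_cast this
  obtain ⟨a, ha⟩ := hfin.exists_notMem
  have ht : D (y - (a : K)) = 1 := by
    have h := cyc_D_int (D := D) (a : ℤ)
    rw [Int.cast_natCast] at h
    rw [map_sub, hy, h, sub_zero]
  refine ⟨cycV A D e (y - (a : K)) 0, ?_⟩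
  simp only [cycV_iter A e ht]
  have h1 : (Matrix.of fun i : Fin (r + 1) => cycV A D e (y - (a : K)) (i : ℕ)).det ≠ 0 := by
    rw [← hM]
    exact ha
  have h2 := Matrix.linearIndependent_rows_iff_isUnit.2
    ((Matrix.isUnit_iff_isUnit_det _).2 (isUnit_iff_ne_zero.2 h1))
  exact h2

end Pool.Agent.Helper79.GA
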