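import Pool.Agent.Helper79.GA.Basic

/-!
# GA: definitions: companion matrices
-/

open Polynomial

namespace Pool.Agent.Helper79.GA

/-- The matrix of a connection in the basis `Θ^i v`, `i ≤ r`, where `Θ^(r+1) v = ∑ a_i Θ^i v`. -/
def cmp {K : Type} [Field K] {r : ℕ} (a : Fin (r + 1) → K) :
    Matrix (Fin (r + 1)) (Fin (r + 1)) K :=
  fun i j => (if i = Fin.last r then a j else 0) + (if (j : ℕ) = (i : ℕ) + 1 then 1 else 0)

/-- The indicial polynomial. -/
noncomputable def chi {k K : Type} [Field k] [Field K] (φ : K →+* LaurentSeries k) {r : ℕ}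
    (a : Fin (r + 1) → K) : k[X] :=
  X ^ (r + 1) - ∑ i, C ((φ (a i)).coeff 0) * X ^ (i : ℕ)

end Pool.Agent.Helper79.GA
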