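import Pool.Agent.Helper79.GA.CycDefs

/-!
# GA-10: the operator `∏ χ(Θ + n)` lowers the order of the poles

One step: if all `φ(v_i)` have poles of order at most `n` (`n` an integer), then those of `w = χ(Θ + n) v` have order at most `n - 1`. Indeed let
`c(v)_i = (φ(v_i))_{-n}` (a vector over `k`). `Θ` does not increase the order of the poles (the `a_i` are regular, `hφ.der`), and
`c(Θ v)_j = -n c(v)_j + c(v)_{j-1} + c(v)_r a_j(0)`, `a_j(0) = (φ(a_j))_0` (`lau_coeff_mul` for the lowest coefficient of a product), that is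
`c((Θ + n) v) = M c(v)` for the linear map `M` of `k^(r+1)`, `(M c)_j = c_{j-1} + c_r a_j(0)`. So
`c(P(Θ + n) v) = P(M) c(v)` for every polynomial `P` over `k` (induction on `P`; `P(Θ + n) = (P.comp (X + C n))(Θ)`, `aeval_comp`), and `χ(M) = 0`: `M e_i = e_{i+1}` for `i < r`, `M e_r = ∑ a_j(0) e_j`, so
`M^(r+1) e_0 = ∑ a_j(0) M^j e_0`, `χ(M) e_0 = 0`, `χ(M) e_i = M^i χ(M) e_0 = 0`. (Or `Matrix.aeval_self_charpoly` and the characteristic polynomial of a companion matrix.)
Then induction on `N`: `∏_{n₀<n≤N+1} = (∏_{n₀<n≤N}) · χ(X + N + 1)` (`Finset.prod_Ioc_succ_top`), apply `χ(Θ + N + 1)` first (the operators commute, `aeval` of a product).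
`Θ` is `k`-linear by hypothesis.
-/

open Polynomial

namespace Pool.Agent.Helper79.GA

open Pool.Agent.Helper79.CU Pool.Agent.Helper79.SE


section Loc

variable {k K : Type} [Field k] [CharZero k] [Field K] [CharZero K] [Algebra k K]
    {θ : Derivation ℚ K K} {φ : K →+* LaurentSeries k} {r : ℕ}

/-- The coefficients of index `m`. -/
noncomputable def locC (φ : K →+* LaurentSeries k) (m : ℤ) (v : Fin (r + 1) → K) : Fin (r + 1) → k :=
  fun i => (φ (v i)).coeff m

/-- The map of the lowest coefficients. -/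
noncomputable def locM (φ : K →+* LaurentSeries k) (a : Fin (r + 1) → K) :
    Module.End k (Fin (r + 1) → k) :=
  (cmp (fun i => (φ (a i)).coeff 0)).vecMulLinear

theorem loc_phi_smul (hφ : Plc θ φ) (c : k) (x : K) (m : ℤ) :
    (φ (c • x)).coeff m = c * (φ x).coeff m := by
  rw [Algebra.smul_def, map_mul, hφ.const, HahnSeries.C_mul_eq_smul, HahnSeries.coeff_smul,
    smul_eq_mul]

theorem locC_add (m : ℤ) (v w : Fin (r + 1) → K) : locC φ m (v + w) = locC φ m v + locC φ m w := by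
  funext i
  simp [locC]

theorem locC_smul (hφ : Plc θ φ) (m : ℤ) (c : k) (v : Fin (r + 1) → K) :
    locC φ m (c • v) = c • locC φ m v := by
  funext i
  simp only [locC, Pi.smul_apply, smul_eq_mul]
  exact loc_phi_smul hφ c (v i) m

theorem pgV_zero_iff {b : ℤ} {f : LaurentSeries k} (h : pgV b f) (h0 : f.coeff b = 0) :
    pgV (b + 1) f := by
  intro i hi
  rcases lt_or_eq_of_le (Int.lt_add_one_iff.1 hi) with h1 | h1
  · exact h i h1
  · rw [h1]; exact h0

theorem pgV_cmp {a : Fin (r + 1) → K} (ha : ∀ i, pgV 0 (φ (a i))) (i j : Fin (r + 1)) :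
    pgV 0 (φ (cmp a i j)) := by
  unfold cmp
  rw [map_add]
  refine pgV_add ?_ ?_
  · split_ifs
    · exact ha j
    · rw [map_zero]; exact pgV_zero 0
  · split_ifs
    · rw [map_one]; exact pgV_one
    · rw [map_zero]; exact pgV_zero 0

theorem coeff_cmp (a : Fin (r + 1) → K) (i j : Fin (r + 1)) :
    (φ (cmp a i j)).coeff 0 = cmp (fun i => (φ (a i)).coeff 0) i j := by
  unfold cmp
  rw [map_add, HahnSeries.coeff_add]
  congr 1
  · split_ifs
    · rfl
    · rw [map_zero, HahnSeries.coeff_zero]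
  · split_ifs
    · rw [map_one, HahnSeries.coeff_one, if_pos rfl]
    · rw [map_zero, HahnSeries.coeff_zero]

theorem loc_coeff_mul {b : ℤ} {f g : LaurentSeries k} (hf : pgV b f) (hg : pgV 0 g) :
    (f * g).coeff b = f.coeff b * g.coeff 0 := by
  rw [lau_coeff_mul (a := b) (b := 0) hf hg b, sub_zero, Finset.Icc_self, Finset.sum_singleton,
    sub_self]

theorem loc_theta_pgV (hφ : Plc θ φ) {b : ℤ} {x : K} (h : pgV b (φ x)) : pgV b (φ (θ x)) := by
  intro i hi
  rw [hφ.der, h i hi, mul_zero]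

theorem loc_coeff_sum (f : Fin (r + 1) → LaurentSeries k) (m : ℤ) :
    (∑ i, f i).coeff m = ∑ i, (f i).coeff m := by
  have : ∀ s : Finset (Fin (r + 1)), (∑ i ∈ s, f i).coeff m = ∑ i ∈ s, (f i).coeff m := by
    intro s
    induction s using Finset.induction_on with
    | empty => rw [Finset.sum_empty, Finset.sum_empty, HahnSeries.coeff_zero]
    | insert i s hi ih => rw [Finset.sum_insert hi, Finset.sum_insert hi, HahnSeries.coeff_add, ih]
  exact this _

theorem loc_nab_pgV (hφ : Plc θ φ) {a : Fin (r + 1) → K} (ha : ∀ i, pgV 0 (φ (a i))) {b : ℤ}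
    {v : Fin (r + 1) → K} (hv : ∀ i, pgV b (φ (v i))) (j : Fin (r + 1)) :
    pgV b (φ (nab θ (cmp a) v j)) := by
  unfold nab
  rw [map_add, map_sum]
  refine pgV_add (loc_theta_pgV hφ (hv j)) (pgV_sum fun i _ => ?_)
  rw [map_mul]
  have := pgV_mul (hv i) (pgV_cmp ha i j)
  rwa [add_zero] at this

theorem loc_nab_coeff (hφ : Plc θ φ) {a : Fin (r + 1) → K} (ha : ∀ i, pgV 0 (φ (a i))) {b : ℤ}
    {v : Fin (r + 1) → K} (hv : ∀ i, pgV b (φ (v i))) :
    locC φ b (nab θ (cmp a) v) = (b : k) • locC φ b v + locM φ a (locC φ b v) := by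
  funext j
  have h1 : locM φ a (locC φ b v) j =
      ∑ i, locC φ b v i * cmp (fun i => (φ (a i)).coeff 0) i j := rfl
  rw [Pi.add_apply, h1]
  simp only [locC, nab, Pi.smul_apply, smul_eq_mul]
  rw [map_add, map_sum, HahnSeries.coeff_add, loc_coeff_sum, hφ.der]
  congr 1
  refine Finset.sum_congr rfl fun i _ => ?_
  rw [map_mul, loc_coeff_mul (hv i) (pgV_cmp ha i j), coeff_cmp]

/-- The shifted operator. -/
noncomputable def locT (Θ : Module.End k (Fin (r + 1) → K)) (n : ℕ) :
    Module.End k (Fin (r + 1) → K) := Θ + algebraMap k _ (n : k)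

theorem locT_apply (Θ : Module.End k (Fin (r + 1) → K)) (n : ℕ) (v : Fin (r + 1) → K) :
    locT Θ n v = Θ v + (n : k) • v := by
  unfold locT
  rw [LinearMap.add_apply, Module.algebraMap_end_apply]

theorem locT_step (hφ : Plc θ φ) {a : Fin (r + 1) → K} (ha : ∀ i, pgV 0 (φ (a i)))
    {Θ : Module.End k (Fin (r + 1) → K)} (hΘ : ∀ v, Θ v = nab θ (cmp a) v) {n : ℕ}
    {v : Fin (r + 1) → K} (hv : ∀ i, pgV (-(n : ℤ)) (φ (v i))) :
    (∀ i, pgV (-(n : ℤ)) (φ (locT Θ n v i))) ∧
      locC φ (-(n : ℤ)) (locT Θ n v) = locM φ a (locC φ (-(n : ℤ)) v) := by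
  constructor
  · intro i
    rw [locT_apply, hΘ, Pi.add_apply, map_add]
    refine pgV_add (loc_nab_pgV hφ ha hv i) ?_
    intro m hm
    rw [Pi.smul_apply, loc_phi_smul hφ, hv i m hm, mul_zero]
  · rw [locT_apply, hΘ, locC_add, loc_nab_coeff hφ ha hv, locC_smul hφ]
    push_cast
    rw [neg_smul]
    abel

theorem locT_pow (hφ : Plc θ φ) {a : Fin (r + 1) → K} (ha : ∀ i, pgV 0 (φ (a i)))
    {Θ : Module.End k (Fin (r + 1) → K)} (hΘ : ∀ v, Θ v = nab θ (cmp a) v) {n : ℕ}
    {v : Fin (r + 1) → K} (hv : ∀ i, pgV (-(n : ℤ)) (φ (v i))) (m : ℕ) :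
    (∀ i, pgV (-(n : ℤ)) (φ ((locT Θ n ^ m) v i))) ∧
      locC φ (-(n : ℤ)) ((locT Θ n ^ m) v) = (locM φ a ^ m) (locC φ (-(n : ℤ)) v) := by
  induction m with
  | zero => exact ⟨fun i => by simpa using hv i, by simp⟩
  | succ m ih =>
    have h := locT_step hφ ha hΘ ih.1
    rw [pow_succ', pow_succ', Module.End.mul_apply, Module.End.mul_apply]
    exact ⟨h.1, by rw [h.2, ih.2]⟩

theorem locT_aeval (hφ : Plc θ φ) {a : Fin (r + 1) → K} (ha : ∀ i, pgV 0 (φ (a i)))
    {Θ : Module.End k (Fin (r + 1) → K)} (hΘ : ∀ v, Θ v = nab θ (cmp a) v) {n : ℕ}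
    {v : Fin (r + 1) → K} (hv : ∀ i, pgV (-(n : ℤ)) (φ (v i))) (P : k[X]) :
    (∀ i, pgV (-(n : ℤ)) (φ (aeval (locT Θ n) P v i))) ∧
      locC φ (-(n : ℤ)) (aeval (locT Θ n) P v) =
        aeval (locM φ a) P (locC φ (-(n : ℤ)) v) := by
  induction P using Polynomial.induction_on' with
  | add p q hp hq =>
    rw [map_add, map_add, LinearMap.add_apply, LinearMap.add_apply]
    refine ⟨fun i => ?_, ?_⟩
    · rw [Pi.add_apply, map_add]
      exact pgV_add (hp.1 i) (hq.1 i)
    · rw [locC_add, hp.2, hq.2]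
  | monomial m c =>
    have h := locT_pow hφ ha hΘ hv m
    rw [aeval_monomial, aeval_monomial, Module.End.mul_apply, Module.End.mul_apply,
      Module.algebraMap_end_apply, Module.algebraMap_end_apply]
    refine ⟨fun i => ?_, ?_⟩
    · intro l hl
      rw [Pi.smul_apply, loc_phi_smul hφ, h.1 i l hl, mul_zero]
    · rw [locC_smul hφ, h.2]

theorem locM_single (a : Fin (r + 1) → K) (i : ℕ) (hi : i + 1 < r + 1) :
    locM φ a (Pi.single ⟨i, by omega⟩ 1) = Pi.single ⟨i + 1, hi⟩ 1 := by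
  funext j
  have h1 : locM φ a (Pi.single ⟨i, by omega⟩ 1) j =
      ∑ l, (Pi.single (⟨i, by omega⟩ : Fin (r + 1)) (1 : k) : Fin (r + 1) → k) l *
        cmp (fun i => (φ (a i)).coeff 0) l j := rfl
  rw [h1, Finset.sum_eq_single (⟨i, by omega⟩ : Fin (r + 1))]
  · rw [Pi.single_eq_same, one_mul]
    unfold cmp
    rw [if_neg, zero_add]
    · by_cases hj : (j : ℕ) = i + 1
      · rw [if_pos hj]
        have : j = ⟨i + 1, hi⟩ := Fin.ext hj
        rw [this, Pi.single_eq_same]
      · rw [if_neg hj, Pi.single_eq_of_ne]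
        intro h
        exact hj (congrArg Fin.val h)
    · intro h
      have := congrArg Fin.val h
      simp at this
      omega
  · intro l _ hl
    rw [Pi.single_eq_of_ne hl, zero_mul]
  · intro h
    exact absurd (Finset.mem_univ _) h

theorem locM_pow_single (a : Fin (r + 1) → K) (i : ℕ) (hi : i < r + 1) :
    (locM φ a ^ i) (Pi.single 0 1) = Pi.single ⟨i, hi⟩ 1 := by
  induction i with
  | zero => simp
  | succ i ih =>
    rw [pow_succ', Module.End.mul_apply, ih (by omega), locM_single]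

theorem locM_last (a : Fin (r + 1) → K) :
    locM φ a (Pi.single (Fin.last r) 1) = fun j => (φ (a j)).coeff 0 := by
  funext j
  have h1 : locM φ a (Pi.single (Fin.last r) 1) j =
      ∑ l, (Pi.single (Fin.last r) (1 : k) : Fin (r + 1) → k) l *
        cmp (fun i => (φ (a i)).coeff 0) l j := rfl
  rw [h1, Finset.sum_eq_single (Fin.last r)]
  · rw [Pi.single_eq_same, one_mul]
    unfold cmp
    rw [if_pos rfl, if_neg, add_zero]
    have := j.2
    simp only [Fin.val_last]
    omega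
  · intro l _ hl
    rw [Pi.single_eq_of_ne hl, zero_mul]
  · intro h
    exact absurd (Finset.mem_univ _) h

theorem aeval_chi_zero (a : Fin (r + 1) → K) :
    aeval (locM φ a) (chi φ a) (Pi.single 0 1) = 0 := by
  unfold chi
  rw [map_sub, map_sum, map_pow, aeval_X, LinearMap.sub_apply, pow_succ', Module.End.mul_apply,
    locM_pow_single a r (by omega)]
  have h1 : (⟨r, by omega⟩ : Fin (r + 1)) = Fin.last r := rfl
  rw [h1, locM_last, LinearMap.sum_apply]
  funext j
  rw [Pi.sub_apply, Finset.sum_apply, Pi.zero_apply, sub_eq_zero]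
  rw [Finset.sum_eq_single j]
  · rw [map_mul, map_pow, aeval_X, aeval_C, Module.End.mul_apply, Module.algebraMap_end_apply,
      locM_pow_single a j.1 j.2, Pi.smul_apply, Pi.single_eq_same, smul_eq_mul, mul_one]
  · intro i _ hi
    rw [map_mul, map_pow, aeval_X, aeval_C, Module.End.mul_apply, Module.algebraMap_end_apply,
      locM_pow_single a i.1 i.2, Pi.smul_apply, Pi.single_eq_of_ne, smul_zero]
    exact fun h => hi h.symm
  · intro h
    exact absurd (Finset.mem_univ _) h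

theorem aeval_chi (a : Fin (r + 1) → K) : aeval (locM φ a) (chi φ a) = 0 := by
  apply LinearMap.pi_ext'
  intro i
  apply LinearMap.ext
  intro c
  rw [LinearMap.comp_apply, LinearMap.comp_apply, LinearMap.zero_apply]
  have h1 : (LinearMap.single k (fun _ : Fin (r + 1) => k) i) c =
      c • (Pi.single i 1 : Fin (r + 1) → k) := by
    funext j
    by_cases h : j = i
    · subst h; simp
    · simp [h]
  rw [h1, map_smul, ← locM_pow_single (φ := φ) a i.1 i.2, ← Module.End.mul_apply,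
    show (aeval (locM φ a) (chi φ a)) * (locM φ a) ^ (i : ℕ) =
      (locM φ a) ^ (i : ℕ) * (aeval (locM φ a) (chi φ a)) from ?_, Module.End.mul_apply,
    aeval_chi_zero, map_zero, smul_zero]
  have h2 : (locM φ a) ^ (i : ℕ) = aeval (locM φ a) (X ^ (i : ℕ) : k[X]) := by
    rw [map_pow, aeval_X]
  rw [h2, ← map_mul, ← map_mul, mul_comm]

theorem loc_one (hφ : Plc θ φ) {a : Fin (r + 1) → K} (ha : ∀ i, pgV 0 (φ (a i)))
    {Θ : Module.End k (Fin (r + 1) → K)} (hΘ : ∀ v, Θ v = nab θ (cmp a) v) {n : ℕ}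
    {v : Fin (r + 1) → K} (hv : ∀ i, pgV (-(n : ℤ)) (φ (v i))) (i : Fin (r + 1)) :
    pgV (-(n : ℤ) + 1) (φ ((aeval Θ ((chi φ a).comp (X + C (n : k))) : _ →ₗ[k] _) v i)) := by
  have h1 : aeval Θ ((chi φ a).comp (X + C (n : k))) = aeval (locT Θ n) (chi φ a) := by
    rw [aeval_comp]
    congr 2
    rw [map_add, aeval_X, aeval_C]
    rfl
  rw [h1]
  have h2 := locT_aeval hφ ha hΘ hv (chi φ a)
  refine pgV_zero_iff (h2.1 i) ?_
  have h3 := congrFun h2.2 i
  rw [aeval_chi, LinearMap.zero_apply] at h3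
  exact h3

end Loc

theorem loc_cyc {k K : Type} [Field k] [CharZero k] [Field K] [CharZero K] [Algebra k K]
    {θ : Derivation ℚ K K} {φ : K →+* LaurentSeries k} (hφ : Plc θ φ) {r : ℕ}
    {a : Fin (r + 1) → K} (ha : ∀ i, pgV 0 (φ (a i))) {Θ : Module.End k (Fin (r + 1) → K)}
    (hΘ : ∀ v, Θ v = nab θ (cmp a) v) {n₀ N : ℕ} (h : n₀ ≤ N) {v : Fin (r + 1) → K}
    (hv : ∀ i, pgV (-(N : ℤ)) (φ (v i))) : ∀ i, pgV (-(n₀ : ℤ))
      (φ ((aeval Θ (∏ n ∈ Finset.Ioc n₀ N, (chi φ a).comp (X + C (n : k))) : _ →ₗ[k] _) v i)) := by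
  induction N, h using Nat.le_induction generalizing v with
  | base =>
    intro i
    simpa using hv i
  | succ N hN ih =>
    rw [Finset.prod_Ioc_succ_top (by omega), map_mul]
    intro i
    rw [Module.End.mul_apply]
    apply ih
    intro l
    have h1 := loc_one hφ ha hΘ hv l
    have h2 : -((N + 1 : ℕ) : ℤ) + 1 = -(N : ℤ) := by push_cast; ring
    rw [h2] at h1
    exact h1

end Pool.Agent.Helper79.GA
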