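import Pool.Agent.Helper79.GA.CycDefs
import Pool.Agent.Helper79.GA.Fun
import Pool.Agent.Helper79.GA.Num

/-!
# GA-09: geometric denominators imply regularity and exponents with geometric binomial coefficients

`f j` are the coordinates of `binom(Θ, j) v` in the basis `Θ^i v`: explicitly (`nab`, `cmp`)
`(j+1) f_{j+1,i} = θ(f_{j,i}) - j f_{j,i} + f_{j,i-1} + f_{j,r} a_i` (the term `f_{j,i-1}` is missing for `i = 0`).
Let `Ω = AlgebraicClosure k`.

(1) Regularity. Assume that some `φ(a_i)` has a pole: let `σ = max_i (-ord φ(a_i))/(r + 1 - i) > 0` over the `i` with `a_i ≠ 0`, written `σ = p/d`, `p, d` positive integers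
(choose `i₀` where the maximum is attained, `p = -ord φ(a_{i₀})`, `d = r + 1 - i₀`, not necessarily coprime). So for all `i`, `n`: `(φ(a_i))_n = 0` if `d n < -p (r + 1 - i)`, and for `i₀` the
coefficient at `n = -p` is nonzero. Put `ā_i = (φ(a_i))_n` if there is an integer `n` with `d n = -p (r + 1 - i)`, `ā_i = 0` otherwise; `ā_{i₀} ≠ 0`. In the same way let `c_{m,i} = m! (φ(f_{m,i}))_n` if there is
an integer `n` with `d n = -p (m - i)`, and `0` otherwise. By induction on `m`, from the recursion: `(φ(f_{m,i}))_n = 0` if `d n < -p (m - i)` (`i, n` arbitrary), and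
`c_{m+1,i} = c_{m,i-1} + c_{m,r} ā_i`, `c_{0,i} = δ_{0i}` (in degree `d n = -p (m + 1 - i)` the terms `θ(f_{m,i})`, `m f_{m,i}` do not contribute since `d n < -p (m - i)`; for the product `f_{m,r} a_i` only the
product of the extreme coefficients contributes, `lau_coeff_mul` or `pgV`-type arguments).
The polynomial `P̄ = X^(r+1) - ∑ ā_i X^i` is not `X^(r+1)`, so it has a root `λ ≠ 0` in `Ω` (it is monic of positive degree; if `0` is its only root, it is `X^(r+1)` since it splits).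
Then `∑_i c_{m,i} λ^i = λ^m` for all `m` (induction, `λ^(r+1) = ∑ ā_i λ^i`), so `1/m! = λ^(-m) ∑_i (c_{m,i}/m!) λ^i` in `Ω`. By `grow` (`Basic.lean`, `hφ.pg`) and `hg` the numbers
`q c_{m,i}/m!` (`q ≤ H^(m+1)`) are coefficients (of index `n ≤ |p| r`, so bounded above) of `φ` of an element of `(G T).I (c (m+1))`, so they belong to
`(G T').I (c' (m+1))`, `T' ⊂ k`, and mapping to `Ω` and adding `λ`, `λ⁻¹` to `T'`: `q/m! ∈ (G T'').I (c'' (m+1))` for all `m`, which contradicts `not_fact`.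

(2) Exponents. By (1) and the recursion all `φ(f_{j,i})` are regular (`pgV 0`), and `b_{j,i} = (φ(f_{j,i}))_0` satisfies `(j+1) b_{j+1,i} = -j b_{j,i} + b_{j,i-1} + b_{j,r} (φ(a_i))_0` (`hφ.der` with `n = 0`).
For a root `γ` of `chi φ a` in `Ω`: `∑_i b_{j,i} γ^i = bc γ j` by induction on `j` (`γ^(r+1) = ∑_i (φ(a_i))_0 γ^i`; `bc γ (j+1) = bc γ j (γ - j)/(j+1)`). The `b_{j,i}` form a geometric family
by `grow` (coefficient of index `0`) and `hg`, so `bc γ j` is geometric in `Ω` (`GmS.map`, `GmS.const`, `GmS.mul`, `GmS.sum`).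
-/

open Polynomial

namespace Pool.Agent.Helper79.GA

open Pool.Agent.Helper79.CU Pool.Agent.Helper79.SE

section Reg

variable {k : Type} [Field k]

/-- Vanishing of the coefficients of index `n` with `d n < e`. -/
def regW (d : ℕ) (e : ℤ) (F : LaurentSeries k) : Prop :=
  ∀ n : ℤ, (d : ℤ) * n < e → F.coeff n = 0

/-- The coefficient of index `e / d`. -/
noncomputable def regL (d : ℕ) (e : ℤ) (F : LaurentSeries k) : k :=
  if (d : ℤ) ∣ e then F.coeff (e / d) else 0

theorem regW_mono {d : ℕ} {e e' : ℤ} (h : e ≤ e') {F : LaurentSeries k} (hF : regW d e' F) :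
    regW d e F := fun n hn => hF n (lt_of_lt_of_le hn h)

theorem regL_zero {d : ℕ} {e : ℤ} : regL d e (0 : LaurentSeries k) = 0 := by
  unfold regL
  split_ifs <;> rfl

theorem regL_eq_zero {d : ℕ} {e e' : ℤ} (h : e < e') {F : LaurentSeries k} (hF : regW d e' F) :
    regL d e F = 0 := by
  unfold regL
  split_ifs with h1
  · exact hF _ (by rw [Int.mul_ediv_cancel' h1]; exact h)
  · rfl

theorem regL_mul {d : ℕ} (hd : 0 < d) {e e' : ℤ} {F F' : LaurentSeries k} (hF : regW d e F)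
    (hF' : regW d e' F') : regL d (e + e') (F * F') = regL d e F * regL d e' F' := by
  have hd' : (0 : ℤ) < d := by exact_mod_cast hd
  obtain ⟨a, ha1, ha2⟩ : ∃ a : ℤ, (d : ℤ) * (a - 1) < e ∧ e ≤ (d : ℤ) * a := by
    refine ⟨-((-e) / d), ?_, ?_⟩
    · have := Int.lt_mul_ediv_self_add (x := -e) hd'
      nlinarith
    · have := Int.mul_ediv_self_le (x := -e) (ne_of_gt hd')
      nlinarith
  obtain ⟨b, hb1, hb2⟩ : ∃ a : ℤ, (d : ℤ) * (a - 1) < e' ∧ e' ≤ (d : ℤ) * a := by
    refine ⟨-((-e') / d), ?_, ?_⟩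
    · have := Int.lt_mul_ediv_self_add (x := -e') hd'
      nlinarith
    · have := Int.mul_ediv_self_le (x := -e') (ne_of_gt hd')
      nlinarith
  have hFa : ∀ i < a, F.coeff i = 0 := fun i hi => hF i (by nlinarith)
  have hFb : ∀ i < b, F'.coeff i = 0 := fun i hi => hF' i (by nlinarith)
  by_cases h1 : (d : ℤ) ∣ e
  · by_cases h2 : (d : ℤ) ∣ e'
    · obtain ⟨u, rfl⟩ := h1
      obtain ⟨v, rfl⟩ := h2
      have hu : a = u := by
        have h3 := lt_of_mul_lt_mul_left ha1 hd'.le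
        have h4 := le_of_mul_le_mul_left ha2 hd'
        omega
      have hv : b = v := by
        have h3 := lt_of_mul_lt_mul_left hb1 hd'.le
        have h4 := le_of_mul_le_mul_left hb2 hd'
        omega
      subst hu hv
      unfold regL
      rw [if_pos (dvd_mul_right _ _), if_pos (dvd_mul_right _ _), ← mul_add,
        if_pos (dvd_mul_right _ _), Int.mul_ediv_cancel_left _ (ne_of_gt hd'),
        Int.mul_ediv_cancel_left _ (ne_of_gt hd'), Int.mul_ediv_cancel_left _ (ne_of_gt hd'),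
        lau_coeff_mul hFa hFb, show a + b - b = a by ring, Finset.Icc_self, Finset.sum_singleton,
        show a + b - a = b by ring]
    · have h3 : ¬ (d : ℤ) ∣ e + e' := fun h => h2 ((Int.dvd_add_right h1).1 h)
      unfold regL
      rw [if_neg h2, if_neg h3, mul_zero]
  · have h0 : regL d e F = 0 := if_neg h1
    rw [h0, zero_mul]
    unfold regL
    split_ifs with h3
    · obtain ⟨n, hn⟩ := h3
      rw [hn, Int.mul_ediv_cancel_left _ (ne_of_gt hd'), lau_coeff_mul hFa hFb,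
        Finset.Icc_eq_empty, Finset.sum_empty]
      intro hle
      have h4 : e < (d : ℤ) * a := lt_of_le_of_ne ha2 fun h => h1 (h ▸ dvd_mul_right _ _)
      have h5 : (d : ℤ) * (a + b) ≤ (d : ℤ) * n := mul_le_mul_of_nonneg_left (by omega) hd'.le
      rw [mul_add] at h5
      omega
    · rfl

theorem regW_mul {d : ℕ} (hd : 0 < d) {e e' : ℤ} {F F' : LaurentSeries k} (hF : regW d e F)
    (hF' : regW d e' F') : regW d (e + e') (F * F') := by
  have hd' : (0 : ℤ) < d := by exact_mod_cast hd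
  obtain ⟨a, ha1, ha2⟩ : ∃ a : ℤ, (d : ℤ) * (a - 1) < e ∧ e ≤ (d : ℤ) * a := by
    refine ⟨-((-e) / d), ?_, ?_⟩
    · have := Int.lt_mul_ediv_self_add (x := -e) hd'
      nlinarith
    · have := Int.mul_ediv_self_le (x := -e) (ne_of_gt hd')
      nlinarith
  obtain ⟨b, hb1, hb2⟩ : ∃ a : ℤ, (d : ℤ) * (a - 1) < e' ∧ e' ≤ (d : ℤ) * a := by
    refine ⟨-((-e') / d), ?_, ?_⟩
    · have := Int.lt_mul_ediv_self_add (x := -e') hd'
      nlinarith
    · have := Int.mul_ediv_self_le (x := -e') (ne_of_gt hd')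
      nlinarith
  have hFa : ∀ i < a, F.coeff i = 0 := fun i hi => hF i (by nlinarith)
  have hFb : ∀ i < b, F'.coeff i = 0 := fun i hi => hF' i (by nlinarith)
  intro n hn
  rw [lau_coeff_mul hFa hFb, Finset.Icc_eq_empty, Finset.sum_empty]
  intro hle
  have h5 : (d : ℤ) * (a + b) ≤ (d : ℤ) * n := mul_le_mul_of_nonneg_left (by omega) hd'.le
  rw [mul_add] at h5
  omega

/-- A nonzero root. -/
theorem reg_root {Ω : Type} [Field Ω] [IsAlgClosed Ω] {r : ℕ} (b : Fin (r + 1) → Ω)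
    {i₀ : Fin (r + 1)} (h : b i₀ ≠ 0) :
    ∃ l : Ω, l ≠ 0 ∧ l ^ (r + 1) = ∑ i, b i * l ^ (i : ℕ) := by
  set P : Polynomial Ω := X ^ (r + 1) - ∑ i, C (b i) * X ^ (i : ℕ) with hP
  have hc : ∀ n, (∑ i, C (b i) * X ^ (i : ℕ) : Polynomial Ω).coeff n =
      ∑ i : Fin (r + 1), if n = (i : ℕ) then b i else 0 := by
    intro n
    rw [finsetSum_coeff]
    exact Finset.sum_congr rfl fun i _ => by rw [coeff_C_mul, coeff_X_pow, mul_ite, mul_one, mul_zero]
  have h1 : P.coeff (r + 1) = 1 := by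
    rw [hP, coeff_sub, coeff_X_pow, if_pos rfl, hc, Finset.sum_eq_zero, sub_zero]
    intro i _
    rw [if_neg]
    have := i.2
    omega
  have h2 : P.coeff i₀ = -b i₀ := by
    have := i₀.2
    rw [hP, coeff_sub, coeff_X_pow, if_neg (by omega), hc, Finset.sum_eq_single i₀, if_pos rfl,
      zero_sub]
    · intro i _ hi
      rw [if_neg]
      intro h
      exact hi (Fin.ext h.symm)
    · intro h
      exact absurd (Finset.mem_univ _) h
  have hP0 : P ≠ 0 := by
    intro h0
    rw [h0, coeff_zero] at h1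
    exact zero_ne_one h1
  obtain ⟨q, hq1, hq2⟩ := exists_eq_pow_rootMultiplicity_mul_and_not_dvd P hP0 0
  have hd : q.degree ≠ 0 := by
    intro hd
    rw [eq_C_of_degree_eq_zero hd, C_0, sub_zero, X_pow_mul] at hq1
    rw [hq1, coeff_C_mul, coeff_X_pow] at h1 h2
    have := i₀.2
    split_ifs at h1 with h3
    · rw [← h3, if_neg (by omega), mul_zero] at h2
      exact h (neg_eq_zero.1 h2.symm)
    · rw [mul_zero] at h1
      exact zero_ne_one h1
  obtain ⟨l, hl⟩ := IsAlgClosed.exists_root q hd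
  refine ⟨l, ?_, ?_⟩
  · rintro rfl
    exact hq2 (dvd_iff_isRoot.2 hl)
  · have h3 : P.eval l = 0 := by
      rw [hq1, eval_mul, hl.eq_zero, mul_zero]
    rw [hP, eval_sub, eval_pow, eval_X, eval_finsetSum, sub_eq_zero] at h3
    rw [h3]
    exact Finset.sum_congr rfl fun i _ => by simp

theorem reg_sum {Ω : Type} [Field Ω] {r : ℕ} (b : ℕ → Fin (r + 1) → Ω) (A : Fin (r + 1) → Ω)
    (ε l : Ω) (hl : l ^ (r + 1) = ∑ i, A i * l ^ (i : ℕ)) (h0 : b 0 = Pi.single 0 1)
    (hb : ∀ m i, ((m + 1 : ℕ) : Ω) * b (m + 1) i = b m (Fin.last r) * A i +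
      (Fin.cons 0 (fun j => b m j.castSucc) : Fin (r + 1) → Ω) i - ε * m * b m i) (m : ℕ) :
    (m.factorial : Ω) * ∑ i, b m i * l ^ (i : ℕ) = ∏ j ∈ Finset.range m, (l - ε * j) := by
  induction m with
  | zero =>
    rw [h0]
    simp [Pi.single_apply]
  | succ m ih =>
    rw [Finset.prod_range_succ, ← ih, Nat.factorial_succ, mul_comm (m + 1), Nat.cast_mul, mul_assoc,
      mul_assoc]
    congr 1
    rw [Finset.mul_sum]
    have h1 : ∀ i, ((m + 1 : ℕ) : Ω) * (b (m + 1) i * l ^ (i : ℕ)) =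
        b m (Fin.last r) * (A i * l ^ (i : ℕ)) +
        (Fin.cons 0 (fun j => b m j.castSucc) : Fin (r + 1) → Ω) i * l ^ (i : ℕ) -
        ε * m * (b m i * l ^ (i : ℕ)) := by
      intro i
      rw [← mul_assoc, hb]
      ring
    rw [Finset.sum_congr rfl fun i _ => h1 i, Finset.sum_sub_distrib, Finset.sum_add_distrib,
      ← Finset.mul_sum, ← hl, ← Finset.mul_sum, mul_sub, Finset.sum_mul, Fin.sum_univ_succ,
      Fin.cons_zero, zero_mul, zero_add, Fin.sum_univ_castSucc (fun i => b m i * l ^ (i : ℕ) * l)]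
    simp only [Fin.cons_succ, Fin.val_succ, Fin.val_castSucc, Fin.val_last]
    have h2 : ∀ x : Fin r, b m x.castSucc * l ^ ((x : ℕ) + 1) = b m x.castSucc * l ^ (x : ℕ) * l :=
      fun x => by ring
    rw [Finset.sum_congr rfl fun i _ => h2 i]
    ring

theorem reg_coeff_nat (q : ℕ) (F : LaurentSeries k) (n : ℤ) :
    ((q : LaurentSeries k) * F).coeff n = (q : k) * F.coeff n := by
  rw [← map_natCast (HahnSeries.C : k →+* LaurentSeries k) q, HahnSeries.C_mul_eq_smul,
    HahnSeries.coeff_smul, smul_eq_mul]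

theorem nab_cmp {K : Type} [Field K] [CharZero K] (θ : Derivation ℚ K K) {r : ℕ}
    (a v : Fin (r + 1) → K) (i : Fin (r + 1)) : nab θ (cmp a) v i =
      θ (v i) + v (Fin.last r) * a i +
        (Fin.cons 0 (fun j => v j.castSucc) : Fin (r + 1) → K) i := by
  unfold nab cmp
  rw [add_assoc]
  congr 1
  simp only [mul_add, Finset.sum_add_distrib, mul_ite, mul_one, mul_zero]
  rw [Finset.sum_ite_eq' Finset.univ (Fin.last r), if_pos (Finset.mem_univ _)]
  congr 1
  refine Fin.cases ?_ (fun j => ?_) i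
  · rw [Fin.cons_zero]
    exact Finset.sum_eq_zero fun l _ => if_neg (by simp)
  · rw [Fin.cons_succ, Finset.sum_eq_single j.castSucc, if_pos (by simp)]
    · intro l _ hl
      rw [if_neg]
      intro h
      refine hl (Fin.ext ?_)
      rw [Fin.val_succ] at h
      rw [Fin.val_castSucc]
      omega
    · intro h
      exact absurd (Finset.mem_univ _) h

theorem reg_key [CharZero k] {d p : ℕ} (hd : 0 < d) {r : ℕ} (α : Fin (r + 1) → LaurentSeries k)
    (Φ : ℕ → Fin (r + 1) → LaurentSeries k)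
    (hα : ∀ i : Fin (r + 1), regW d (-((p : ℤ) * ((r : ℤ) + 1 - (i : ℕ)))) (α i))
    (h0 : Φ 0 = Pi.single 0 1)
    (hΦ : ∀ (m : ℕ) (i : Fin (r + 1)) (n : ℤ), ((m + 1 : ℕ) : k) * (Φ (m + 1) i).coeff n =
      ((n : k) - m) * (Φ m i).coeff n + (Φ m (Fin.last r) * α i).coeff n +
        ((Fin.cons 0 (fun j => Φ m j.castSucc) : Fin (r + 1) → LaurentSeries k) i).coeff n) :
    (∀ (m : ℕ) (i : Fin (r + 1)), regW d (-((p : ℤ) * ((m : ℤ) - (i : ℕ)))) (Φ m i)) ∧
    ∀ (m : ℕ) (i : Fin (r + 1)),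
      ((m + 1 : ℕ) : k) * regL d (-((p : ℤ) * (((m + 1 : ℕ) : ℤ) - (i : ℕ)))) (Φ (m + 1) i) =
      regL d (-((p : ℤ) * ((m : ℤ) - ((Fin.last r : Fin (r + 1)) : ℕ)))) (Φ m (Fin.last r)) *
        regL d (-((p : ℤ) * ((r : ℤ) + 1 - (i : ℕ)))) (α i) +
      (Fin.cons 0 (fun j => regL d (-((p : ℤ) * ((m : ℤ) - (j.castSucc : ℕ))))
        (Φ m j.castSucc)) : Fin (r + 1) → k) i -
      (if p = 0 then 1 else 0) * (m : k) *
        regL d (-((p : ℤ) * ((m : ℤ) - (i : ℕ)))) (Φ m i) := by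
  have hd' : (0 : ℤ) < d := by exact_mod_cast hd
  have hp' : (0 : ℤ) ≤ p := Int.natCast_nonneg p
  have hW : ∀ (m : ℕ) (i : Fin (r + 1)), regW d (-((p : ℤ) * ((m : ℤ) - (i : ℕ)))) (Φ m i) := by
    intro m
    induction m with
    | zero =>
      intro i
      rw [h0]
      refine Fin.cases ?_ (fun j => ?_) i
      · intro n hn
        rw [Pi.single_eq_same, HahnSeries.coeff_one, if_neg]
        rintro rfl
        simp at hn
      · intro n _
        rw [Pi.single_eq_of_ne (Fin.succ_ne_zero j)]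
        rfl
    | succ m ih =>
      intro i n hn
      have h1 := hΦ m i n
      have h2 : (Φ m i).coeff n = 0 := ih i n (by push_cast at hn; nlinarith)
      have h3 : (Φ m (Fin.last r) * α i).coeff n = 0 := by
        refine regW_mul hd (ih (Fin.last r)) (hα i) n ?_
        rw [Fin.val_last]
        push_cast at hn
        linarith
      have h4 : ((Fin.cons 0 (fun j => Φ m j.castSucc) : Fin (r + 1) → LaurentSeries k) i).coeff n
          = 0 := by
        revert hn
        refine Fin.cases ?_ (fun j => ?_) i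
        · intro _
          rw [Fin.cons_zero]
          rfl
        · intro hn
          rw [Fin.cons_succ]
          refine ih j.castSucc n ?_
          rw [Fin.val_castSucc]
          rw [Fin.val_succ] at hn
          push_cast at hn
          linarith
      rw [h2, h3, h4, mul_zero, add_zero, add_zero] at h1
      exact (mul_eq_zero.1 h1).resolve_left (Nat.cast_ne_zero.2 (Nat.succ_ne_zero m))
  refine ⟨hW, fun m i => ?_⟩
  have e1 : (-((p : ℤ) * (((m + 1 : ℕ) : ℤ) - (i : ℕ)))) =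
      -((p : ℤ) * ((m : ℤ) - ((Fin.last r : Fin (r + 1)) : ℕ))) +
        -((p : ℤ) * ((r : ℤ) + 1 - (i : ℕ))) := by
    rw [Fin.val_last]
    push_cast
    ring
  have hmul := regL_mul hd (hW m (Fin.last r)) (hα i)
  rw [← e1] at hmul
  rw [← hmul]
  have hcons : (Fin.cons 0 (fun j => regL d (-((p : ℤ) * ((m : ℤ) - (j.castSucc : ℕ))))
        (Φ m j.castSucc)) : Fin (r + 1) → k) i =
      regL d (-((p : ℤ) * (((m + 1 : ℕ) : ℤ) - (i : ℕ))))
        ((Fin.cons 0 (fun j => Φ m j.castSucc) : Fin (r + 1) → LaurentSeries k) i) := by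
    refine Fin.cases ?_ (fun j => ?_) i
    · rw [Fin.cons_zero, Fin.cons_zero, regL_zero]
    · rw [Fin.cons_succ, Fin.cons_succ]
      congr 1
      rw [Fin.val_castSucc, Fin.val_succ]
      push_cast
      ring
  rw [hcons]
  have hlast : (if p = 0 then 1 else 0) * (m : k) *
        regL d (-((p : ℤ) * ((m : ℤ) - (i : ℕ)))) (Φ m i) =
      -(if (d : ℤ) ∣ (-((p : ℤ) * (((m + 1 : ℕ) : ℤ) - (i : ℕ)))) then
        (((((-((p : ℤ) * (((m + 1 : ℕ) : ℤ) - (i : ℕ)))) / (d : ℤ) : ℤ)) : k) - m) *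
          (Φ m i).coeff ((-((p : ℤ) * (((m + 1 : ℕ) : ℤ) - (i : ℕ)))) / (d : ℤ)) else 0) := by
    by_cases hp : p = 0
    · subst hp
      simp [regL]
    · rw [if_neg hp, zero_mul, zero_mul]
      split_ifs with h1
      · have h2 : (Φ m i).coeff ((-((p : ℤ) * (((m + 1 : ℕ) : ℤ) - (i : ℕ)))) / (d : ℤ)) = 0 := by
          refine hW m i _ ?_
          rw [Int.mul_ediv_cancel' h1]
          have : 0 < p := Nat.pos_of_ne_zero hp
          push_cast
          nlinarith
        rw [h2, mul_zero, neg_zero]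
      · rw [neg_zero]
  rw [hlast]
  unfold regL
  split_ifs with h1
  · rw [hΦ]
    ring
  · ring

theorem reg_GmS [CharZero k] {K : Type} [Field K] {φ : K →+* LaurentSeries k}
    (hφ : ∀ f : K, PG (φ f)) {r : ℕ} {f : ℕ → Fin (r + 1) → K} (hg : GmS f) {d : ℕ} (p : ℕ)
    (hd : 0 < d) :
    GmS fun m (i : Fin (r + 1)) => regL d (-((p : ℤ) * ((m : ℤ) - (i : ℕ)))) (φ (f m i)) := by
  have hd' : (0 : ℤ) < d := by exact_mod_cast hd
  obtain ⟨T, c, H, hT, h⟩ := hg
  obtain ⟨T', E, s, hT', hE, hs, hG⟩ := grow hφ hT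
  refine ⟨T', E * (p * r + 2 * (c * s)), H, hT', fun N => ?_⟩
  obtain ⟨q, q0, q1, q2⟩ := h N
  refine ⟨q, q0, q1, fun m hm i => ?_⟩
  have h1 := hG _ _ (q2 m hm i)
  rw [map_mul, map_natCast] at h1
  beta_reduce
  unfold regL
  split_ifs with h2
  · obtain ⟨n, hn⟩ := h2
    rw [hn, Int.mul_ediv_cancel_left _ (ne_of_gt hd')]
    have h3 := (h1 n).2
    rw [reg_coeff_nat] at h3
    refine (G T').mono ?_ h3
    have h4 : n ≤ (p : ℤ) * r := by
      have hi : ((i : ℕ) : ℤ) ≤ r := by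
        have := i.2
        omega
      have h5 : (d : ℤ) * n ≤ (p : ℤ) * r := by
        rw [← hn]
        nlinarith [mul_nonneg (Int.natCast_nonneg p) (Int.natCast_nonneg m),
          mul_le_mul_of_nonneg_left hi (Int.natCast_nonneg p)]
      rcases le_or_gt n 0 with h6 | h6
      · exact h6.trans (by positivity)
      · nlinarith
    rw [Int.toNat_le]
    push_cast
    have h7 : n + 2 * ((c : ℤ) * (N + 1) * s) ≤ ((p : ℤ) * r + 2 * (c * s)) * (N + 1) := by
      have h8 : (0 : ℤ) ≤ (p : ℤ) * r * N := by positivity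
      nlinarith
    calc (E : ℤ) * (n + 2 * ((c : ℤ) * (N + 1) * s)) ≤
          E * (((p : ℤ) * r + 2 * (c * s)) * (N + 1)) :=
        mul_le_mul_of_nonneg_left h7 (Int.natCast_nonneg E)
      _ = E * ((p : ℤ) * r + 2 * (c * s)) * (N + 1) := by ring
  · rw [mul_zero]
    exact AddSubgroup.zero_mem _

end Reg

theorem reg_exp {k K : Type} [Field k] [CharZero k] [Field K] [CharZero K] [Algebra k K]
    {θ : Derivation ℚ K K} {φ : K →+* LaurentSeries k} (hφ : Plc θ φ) {r : ℕ}
    (a : Fin (r + 1) → K) (f : ℕ → Fin (r + 1) → K) (h0 : f 0 = Pi.single 0 1)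
    (hf : ∀ j i, ((j + 1 : ℕ) : K) * f (j + 1) i = nab θ (cmp a) (f j) i - (j : K) * f j i)
    (hg : GmS f) : (∀ i, pgV 0 (φ (a i))) ∧
      ∀ γ : AlgebraicClosure k, aeval γ (chi φ a) = 0 → GmS fun m (_ : Unit) => bc γ m := by
  -- the recursion
  have h0' : (fun m i => φ (f m i)) 0 = Pi.single 0 1 := by
    funext i
    change φ (f 0 i) = _
    rw [h0]
    rcases eq_or_ne i 0 with rfl | hi
    · rw [Pi.single_eq_same, Pi.single_eq_same, map_one]
    · rw [Pi.single_eq_of_ne hi, Pi.single_eq_of_ne hi, map_zero]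
  have hΦ : ∀ (m : ℕ) (i : Fin (r + 1)) (n : ℤ), ((m + 1 : ℕ) : k) *
      ((fun m i => φ (f m i)) (m + 1) i).coeff n =
      ((n : k) - m) * ((fun m i => φ (f m i)) m i).coeff n +
        ((fun m i => φ (f m i)) m (Fin.last r) * φ (a i)).coeff n +
        ((Fin.cons 0 (fun j => (fun m i => φ (f m i)) m j.castSucc) :
          Fin (r + 1) → LaurentSeries k) i).coeff n := by
    intro m i n
    have h1 := congrArg φ (hf m i)
    rw [nab_cmp, map_mul, map_natCast, map_sub, map_mul φ (m : K), map_natCast, map_add, map_add,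
      map_mul] at h1
    have h2 := congrArg (fun F => HahnSeries.coeff F n) h1
    simp only [reg_coeff_nat, HahnSeries.coeff_sub, HahnSeries.coeff_add] at h2
    rw [hφ.der] at h2
    rw [h2]
    have h3 : φ ((Fin.cons 0 (fun j => f m j.castSucc) : Fin (r + 1) → K) i) =
        (Fin.cons 0 (fun j => φ (f m j.castSucc)) : Fin (r + 1) → LaurentSeries k) i := by
      refine Fin.cases ?_ (fun j => ?_) i
      · rw [Fin.cons_zero, Fin.cons_zero, map_zero]
      · rw [Fin.cons_succ, Fin.cons_succ]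
    rw [h3]
    ring
  set ι := algebraMap k (AlgebraicClosure k) with hι
  -- transfer to the algebraic closure
  have main : ∀ (d p : ℕ), 0 < d →
      (∀ i : Fin (r + 1), regW d (-((p : ℤ) * ((r : ℤ) + 1 - (i : ℕ)))) (φ (a i))) →
      ∀ l : AlgebraicClosure k, l ^ (r + 1) = ∑ i : Fin (r + 1),
        ι (regL d (-((p : ℤ) * ((r : ℤ) + 1 - (i : ℕ)))) (φ (a i))) * l ^ (i : ℕ) →
      GmS fun m (_ : Unit) => (∏ j ∈ Finset.range m, (l - (if p = 0 then 1 else 0) * j)) /
        (m.factorial : AlgebraicClosure k) := by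
    intro d p hd hα l hl
    obtain ⟨-, hL⟩ := reg_key hd (fun i => φ (a i)) (fun m i => φ (f m i)) hα h0' hΦ
    have h1 := reg_GmS hφ.pg hg p hd
    have h2 := h1.map ι
    have h3 : ∀ i : Fin (r + 1), GmS fun (m : ℕ) (_ : Unit) =>
        ι (regL d (-((p : ℤ) * ((m : ℤ) - (i : ℕ)))) (φ (f m i))) * l ^ (i : ℕ) := fun i =>
      (h2.comp fun _ => i).mul (GmS.const fun _ => l ^ (i : ℕ))
    have h4 := GmS.sum Finset.univ fun i (_ : i ∈ Finset.univ) => h3 i
    have h5 := reg_sum (fun m i => ι (regL d (-((p : ℤ) * ((m : ℤ) - (i : ℕ)))) (φ (f m i))))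
      (fun i => ι (regL d (-((p : ℤ) * ((r : ℤ) + 1 - (i : ℕ)))) (φ (a i))))
      (if p = 0 then 1 else 0) l hl ?_ ?_
    · convert h4 using 2
      funext _
      rw [← h5, mul_div_cancel_left₀]
      exact Nat.cast_ne_zero.2 (Nat.factorial_ne_zero _)
    · funext i
      have h6 := congrFun h0' i
      change φ (f 0 i) = _ at h6
      change ι (regL d (-((p : ℤ) * (((0 : ℕ) : ℤ) - (i : ℕ)))) (φ (f 0 i))) = _
      rw [h6]
      rcases eq_or_ne i 0 with rfl | hi
      · rw [Pi.single_eq_same, Pi.single_eq_same]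
        simp [regL]
      · rw [Pi.single_eq_of_ne hi, Pi.single_eq_of_ne hi, regL_zero, map_zero]
    · intro m i
      have h7 := congrArg ι (hL m i)
      rw [map_mul, map_natCast, map_sub, map_add, map_mul, map_mul, map_mul, map_natCast] at h7
      rw [h7]
      congr 1
      · congr 1
        refine Fin.cases ?_ (fun j => ?_) i
        · rw [Fin.cons_zero, Fin.cons_zero, map_zero]
        · rw [Fin.cons_succ, Fin.cons_succ]
      · congr 2
        split_ifs <;> simp
  -- regularity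
  have hreg : ∀ i, pgV 0 (φ (a i)) := by
    by_contra hcon
    push Not at hcon
    obtain ⟨i₁, hi₁⟩ := hcon
    unfold pgV at hi₁
    push Not at hi₁
    obtain ⟨n₁, hn₁, hn₁'⟩ := hi₁
    obtain ⟨i₀, hi₀⟩ := Finite.exists_max fun i : Fin (r + 1) =>
      (-(((φ (a i)).order : ℤ) : ℚ)) / ((r : ℚ) + 1 - (i : ℕ))
    have hden : ∀ i : Fin (r + 1), (0 : ℚ) < (r : ℚ) + 1 - (i : ℕ) := by
      intro i
      have h1 : ((i : ℕ) : ℚ) < ((r + 1 : ℕ) : ℚ) := Nat.cast_lt.2 i.2
      push_cast at h1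
      linarith
    have hord₁ : (φ (a i₁)).order ≤ n₁ := HahnSeries.order_le_of_coeff_ne_zero hn₁'
    have hord₀ : (φ (a i₀)).order < 0 := by
      by_contra h
      push Not at h
      have h1 : (0 : ℚ) < (-(((φ (a i₁)).order : ℤ) : ℚ)) / ((r : ℚ) + 1 - (i₁ : ℕ)) := by
        refine div_pos ?_ (hden i₁)
        have : (((φ (a i₁)).order : ℤ) : ℚ) < 0 := by exact_mod_cast (lt_of_le_of_lt hord₁ hn₁)
        linarith
      have h2 : (-(((φ (a i₀)).order : ℤ) : ℚ)) / ((r : ℚ) + 1 - (i₀ : ℕ)) ≤ 0 := by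
        refine div_nonpos_of_nonpos_of_nonneg ?_ (hden i₀).le
        have : (0 : ℚ) ≤ (((φ (a i₀)).order : ℤ) : ℚ) := by exact_mod_cast h
        linarith
      linarith [hi₀ i₁]
    obtain ⟨p, hp⟩ : ∃ p : ℕ, (p : ℤ) = -(φ (a i₀)).order :=
      ⟨(-(φ (a i₀)).order).toNat, by rw [Int.toNat_of_nonneg (by omega)]⟩
    have hp0 : 0 < p := by omega
    obtain ⟨d, hd⟩ : ∃ d : ℕ, d = r + 1 - (i₀ : ℕ) := ⟨_, rfl⟩
    have hi₀2 := i₀.2
    have hd0 : 0 < d := by omega
    have hdz : (d : ℤ) = (r : ℤ) + 1 - (i₀ : ℕ) := by omega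
    have hW : ∀ i : Fin (r + 1), regW d (-((p : ℤ) * ((r : ℤ) + 1 - (i : ℕ)))) (φ (a i)) := by
      intro i n hn
      by_contra hne
      have h1 : (φ (a i)).order ≤ n := HahnSeries.order_le_of_coeff_ne_zero hne
      have h2 := hi₀ i
      rw [div_le_div_iff₀ (hden i) (hden i₀)] at h2
      have h3 : (-(φ (a i)).order) * ((r : ℤ) + 1 - (i₀ : ℕ)) ≤
          (-(φ (a i₀)).order) * ((r : ℤ) + 1 - (i : ℕ)) := by exact_mod_cast h2
      rw [← hdz, ← hp] at h3
      have hd' : (0 : ℤ) < d := by exact_mod_cast hd0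
      nlinarith
    have hne : regL d (-((p : ℤ) * ((r : ℤ) + 1 - (i₀ : ℕ)))) (φ (a i₀)) ≠ 0 := by
      rw [← hdz]
      unfold regL
      have h1 : -((p : ℤ) * d) = (d : ℤ) * (φ (a i₀)).order := by
        rw [hp]
        ring
      rw [h1, if_pos (dvd_mul_right _ _), Int.mul_ediv_cancel_left _ (by omega)]
      refine HahnSeries.coeff_order_eq_zero.not.2 fun h => ?_
      rw [h, HahnSeries.order_zero] at hord₀
      exact lt_irrefl _ hord₀
    obtain ⟨l, hl0, hl⟩ := reg_root (fun i : Fin (r + 1) =>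
      ι (regL d (-((p : ℤ) * ((r : ℤ) + 1 - (i : ℕ)))) (φ (a i)))) (i₀ := i₀)
      ((map_ne_zero ι).2 hne)
    have h1 := main d p hd0 hW l hl
    have h2 : GmS fun m (_ : Unit) => (l⁻¹) ^ m := by
      refine ⟨{l⁻¹}, 1, 1, Set.finite_singleton _, fun N => ⟨1, one_pos, by rw [one_pow],
        fun m hm _ => ?_⟩⟩
      rw [Nat.cast_one]
      beta_reduce
      rw [one_mul (l⁻¹ ^ m)]
      refine G_mono le_rfl ?_ (G_pow (G_mem (Set.mem_singleton l⁻¹)) m)
      omega
    obtain ⟨T, c, H, hT, h3⟩ := h1.mul h2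
    refine not_fact hT c H fun N => ?_
    obtain ⟨q, q0, q1, q2⟩ := h3 N
    refine ⟨q, q0, q1, ?_⟩
    have h4 := q2 N le_rfl ()
    have h5 : (∏ j ∈ Finset.range N, (l - (if p = 0 then 1 else 0) * j)) /
        (N.factorial : AlgebraicClosure k) * (l⁻¹) ^ N = ((N.factorial : AlgebraicClosure k))⁻¹ := by
      simp only [if_neg hp0.ne', zero_mul, sub_zero, Finset.prod_const, Finset.card_range]
      rw [inv_pow, div_mul_eq_mul_div, mul_inv_cancel₀ (pow_ne_zero _ hl0), one_div]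
    beta_reduce at h4
    rwa [h5] at h4
  refine ⟨hreg, fun γ hγ => ?_⟩
  have h1 := main 1 0 one_pos (fun i n hn => hreg i n (by simpa using hn)) γ ?_
  · convert h1 using 2
    funext _
    rw [bc]
    simp
  · rw [chi, map_sub, map_pow, aeval_X, map_sum, sub_eq_zero] at hγ
    rw [hγ]
    refine Finset.sum_congr rfl fun i _ => ?_
    have h2 : regL 1 (-(((0 : ℕ) : ℤ) * ((r : ℤ) + 1 - (i : ℕ)))) (φ (a i)) =
        (φ (a i)).coeff 0 := by simp [regL]
    rw [map_mul, map_pow, aeval_C, aeval_X, h2]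

end Pool.Agent.Helper79.GA
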