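import Pool.Agent.Helper79.GA.Cyc
import Pool.Agent.Helper79.GA.Reg
import Pool.Agent.Helper79.GA.Loc
import Pool.Agent.Helper79.GA.Calc

/-!
# GA-11: the local theorem

If `ι` is empty everything is trivial (`χ = 1`, `m = 0`). Otherwise reindex `ι ≃ Fin (r + 1)`.
1. `exists_cyclic` for `D` and the element `-e y` (`D (-e y) = e² = 1`): a vector `v₀` with `∇^i v₀`, `i ≤ r`, linearly independent. The vectors `b_i = Θ^i v₀`, `i ≤ r`, `Θ = y ∇`, are
   `y^i ∇^i v₀ + (combination of the ∇^l v₀, l < i)` (induction on `i`; `y ≠ 0` since `D y ≠ 0`), so they are a basis of `ι → K`. Let `Θ b_r = ∑ a_i b_i`.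
   Let `u : (ι → K) ≃ₗ[K] (Fin (r + 1) → K)` be the coordinates. Then `u (Θ w) = nab (y • D) (cmp a) (u w)` (for `w = ∑ u_i b_i`: `Θ w = ∑ (y D u_i) b_i + ∑ u_i Θ b_i`).
2. `f j = u (binom(Θ, j) v₀)`, `binom(Θ, j) = aeval Θ (bp k j)`: `f 0 = Pi.single 0 1`, the recursion of `reg_exp` (`(j+1) bp_{j+1} = (X - j) bp_j`), and `GmS f` by `calc_bound` (`T` = the
   coordinates of `v₀`, `c = 1`) and the matrix of `u` (finitely many constants). So `reg_exp` applies with `θ = y • D`: `φ(a_i)` regular, `χ = chi φ a` (monic), its roots.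
3. Let `m` be a bound for the poles of the entries of the matrices of `u` and `u⁻¹` (expansions under `φ`). If the poles of `w` have order `≤ N`, those of `u w` have order `≤ N + m`; apply `loc_cyc` with
   `Θ' = u Θ u⁻¹` (as `k`-linear map) and `N + m`: `u (P(Θ) w) = P(Θ') (u w)` has poles of order `≤ n₀`, so `P(Θ) w` has poles of order `≤ n₀ + m`.
-/

open Polynomial

namespace Pool.Agent.Helper79.GA

open Pool.Agent.Helper79.CU Pool.Agent.Helper79.SE

/-! ### Auxiliary lemmas -/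

theorem lt_conj {k V W : Type} [Field k] [AddCommGroup V] [Module k V] [AddCommGroup W]
    [Module k W] {Θ : Module.End k V} {Θ' : Module.End k W} {u : V → W}
    (hadd : ∀ v w, u (v + w) = u v + u w) (hsmul : ∀ (c : k) v, u (c • v) = c • u v)
    (h : ∀ v, Θ' (u v) = u (Θ v)) (P : k[X]) (v : V) :
    (aeval Θ' P : Module.End k W) (u v) = u ((aeval Θ P : Module.End k V) v) := by
  induction P using Polynomial.induction_on generalizing v with
  | C a =>
    rw [aeval_C, aeval_C, Module.algebraMap_end_apply, Module.algebraMap_end_apply, hsmul]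
  | add p q hp hq =>
    rw [map_add, map_add, LinearMap.add_apply, LinearMap.add_apply, hp, hq, hadd]
  | monomial n a ih =>
    rw [pow_succ, ← mul_assoc, map_mul (aeval Θ') (C a * X ^ n) X,
      map_mul (aeval Θ) (C a * X ^ n) X, aeval_X, aeval_X, Module.End.mul_apply,
      Module.End.mul_apply, h, ih]

section Nab

variable {K ι : Type} [Field K] [CharZero K] [Fintype ι] {D : Derivation ℚ K K}
  {A : Matrix ι ι K}

theorem lt_nab_add (v w : ι → K) : nab D A (v + w) = nab D A v + nab D A w := by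
  funext j
  simp only [nab, Pi.add_apply, map_add, add_mul, Finset.sum_add_distrib]
  ring

theorem lt_nab_smul (f : K) (w : ι → K) :
    nab D A (f • w) = D f • w + f • nab D A w := by
  funext j
  simp only [nab, Pi.smul_apply, Pi.add_apply, smul_eq_mul, Derivation.leibniz, mul_add,
    Finset.mul_sum, mul_assoc]
  ring

theorem lt_nab_zero : nab D A (0 : ι → K) = 0 := by
  funext j
  simp [nab]

theorem lt_nab_sum {α : Type} (s : Finset α) (c : α → K) (b : α → ι → K) :
    nab D A (∑ x ∈ s, c x • b x) = ∑ x ∈ s, (D (c x) • b x + c x • nab D A (b x)) := by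
  classical
  induction s using Finset.induction_on with
  | empty => simp [lt_nab_zero]
  | insert x s hx ih =>
    rw [Finset.sum_insert hx, Finset.sum_insert hx, lt_nab_add, lt_nab_smul, ih]

theorem lt_reindex {κ : Type} [Fintype κ] (e : ι ≃ κ) (v : κ → K) :
    nab D A (v ∘ e) = (nab D (A.submatrix e.symm e.symm) v) ∘ e := by
  funext j
  simp only [nab, Function.comp_apply, Matrix.submatrix_apply, Equiv.symm_apply_apply]
  congr 1
  rw [← Equiv.sum_comp e]
  simp

theorem lt_reindex_iter {κ : Type} [Fintype κ] (e : ι ≃ κ) (v : κ → K) (i : ℕ) :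
    (nab D A)^[i] (v ∘ e) = ((nab D (A.submatrix e.symm e.symm))^[i] v) ∘ e := by
  induction i with
  | zero => rfl
  | succ i ih => rw [Function.iterate_succ_apply', ih, lt_reindex, Function.iterate_succ_apply']

end Nab

/-- `(j+1) binom(X, j+1) = (X - j) binom(X, j)`. -/
theorem lt_bp {k : Type} [Field k] [CharZero k] (j : ℕ) :
    C ((j + 1 : ℕ) : k) * bp k (j + 1) = (X - C (j : k)) * bp k j := by
  have h1 : ((j + 1 : ℕ) : k) * (((j + 1).factorial : ℕ) : k)⁻¹ = ((j.factorial : ℕ) : k)⁻¹ := by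
    have h2 : ((j + 1 : ℕ) : k) ≠ 0 := Nat.cast_ne_zero.2 (Nat.succ_ne_zero j)
    rw [Nat.factorial_succ, Nat.cast_mul, mul_inv, mul_inv_cancel_left₀ h2]
  rw [bp, bp, Finset.prod_range_succ, ← mul_assoc, ← C_mul, h1]
  ring

theorem lt_lin {F ι κ : Type} [Field F] [Fintype ι] [DecidableEq ι] [Finite κ]
    (U : (ι → F) →ₗ[F] (κ → F)) {w : ℕ → ι → F} (hw : GmS w) : GmS fun m i => U (w m) i := by
  have h1 : (fun m i => U (w m) i) = fun m i => ∑ l, w m l *
      U (fun j => if l = j then 1 else 0) i := by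
    funext m i
    rw [LinearMap.pi_apply_eq_sum_univ U (w m), Finset.sum_apply]
    rfl
  rw [h1]
  exact GmS.sum _ fun l _ => GmS.mul (hw.comp fun _ => l)
    (GmS.const fun i => U (fun j => if l = j then 1 else 0) i)

theorem lt_pole {K k α : Type} [Field k] [CharZero k] [Field K] [Fintype α]
    (φ : K →+* LaurentSeries k) (x : α → K) : ∃ m : ℕ, ∀ a, pgV (-(m : ℤ)) (φ (x a)) := by
  choose l hl using fun a => lau_low (φ (x a))
  refine ⟨∑ a, (l a).natAbs, fun a => pgV_mono ?_ (hl a)⟩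
  have h1 : (l a).natAbs ≤ ∑ a, (l a).natAbs :=
    Finset.single_le_sum (f := fun a => (l a).natAbs) (fun _ _ => Nat.zero_le _)
      (Finset.mem_univ a)
  omega

theorem lt_pole_lin {K k ι κ : Type} [Field k] [CharZero k] [Field K] [Fintype ι] [DecidableEq ι]
    [Fintype κ] (φ : K →+* LaurentSeries k) (U : (ι → K) →ₗ[K] (κ → K)) :
    ∃ m : ℕ, ∀ m' ≥ m, ∀ (a : ℤ) (w : ι → K), (∀ i, pgV a (φ (w i))) →
      ∀ j, pgV (a - m') (φ (U w j)) := by
  obtain ⟨m, hm⟩ := lt_pole φ fun p : ι × κ => U (fun j => if p.1 = j then 1 else 0) p.2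
  refine ⟨m, fun m' hm' a w hw j => ?_⟩
  rw [LinearMap.pi_apply_eq_sum_univ U w, Finset.sum_apply, map_sum]
  refine pgV_sum fun l _ => ?_
  rw [Pi.smul_apply, smul_eq_mul, map_mul]
  exact pgV_mono (by omega) (pgV_mul (hw l) (hm (l, j)))

theorem lt_chi_monic {k K : Type} [Field k] [Field K] (φ : K →+* LaurentSeries k) {r : ℕ}
    (a : Fin (r + 1) → K) : (chi φ a).Monic := by
  rw [chi, sub_eq_add_neg]
  refine monic_X_pow_add ?_
  rw [degree_neg]
  refine (degree_sum_le _ _).trans_lt ?_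
  rw [Finset.sup_lt_iff (by exact WithBot.bot_lt_coe _)]
  intro i _
  refine (degree_C_mul_X_pow_le _ _).trans_lt ?_
  exact_mod_cast i.2

/-- The basis `Θ^i v`. -/
theorem lt_basis {k K ι : Type} [Field k] [CharZero k] [Field K] [CharZero K] [Algebra k K]
    [Fintype ι] {D : Derivation ℚ K K} {A : Matrix ι ι K} {y : K} {e : ℤ} (he : e = 1 ∨ e = -1)
    (hy : D y = -(e : K)) {Θ : Module.End k (ι → K)} (hΘ : ∀ v, Θ v = y • nab D A v) {r : ℕ}
    (hr : Fintype.card ι = r + 1) : ∃ (v₀ : ι → K) (B : Module.Basis (Fin (r + 1)) K (ι → K)),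
      ∀ i : Fin (r + 1), B i = (Θ ^ (i : ℕ)) v₀ := by
  classical
  have hy0 : y ≠ 0 := by
    rintro rfl
    rw [map_zero] at hy
    rcases he with rfl | rfl <;> simp at hy
  obtain ⟨y', hy'⟩ : ∃ y' : K, D y' = 1 := by
    rcases he with rfl | rfl
    · exact ⟨-y, by rw [map_neg, hy]; simp⟩
    · exact ⟨y, by rw [hy]; simp⟩
  let e0 : ι ≃ Fin (r + 1) := Fintype.equivFinOfCardEq hr
  obtain ⟨v, hv⟩ := exists_cyclic hy' (A.submatrix e0.symm e0.symm)
  have hv' : LinearIndependent K fun i : Fin (r + 1) => (nab D A)^[i] (v ∘ e0) := by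
    have h1 := hv.map' (LinearEquiv.funCongrLeft K K e0).toLinearMap (LinearEquiv.ker _)
    have h2 : (fun i : Fin (r + 1) => (nab D A)^[i] (v ∘ e0)) =
        (LinearEquiv.funCongrLeft K K e0).toLinearMap ∘
          fun i : Fin (r + 1) => (nab D (A.submatrix e0.symm e0.symm))^[i] v := by
      funext i
      exact lt_reindex_iter e0 v i
    rw [h2]
    exact h1
  have hfr : Fintype.card (Fin (r + 1)) = Module.finrank K (ι → K) := by
    rw [Module.finrank_fintype_fun_eq_card, Fintype.card_fin, hr]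
  have hspan := hv'.span_eq_top_of_card_eq_finrank' hfr
  let S : ℕ → Submodule K (ι → K) := fun i =>
    Submodule.span K {w | ∃ l ≤ i, w = (Θ ^ l) (v ∘ e0)}
  have hSmono : ∀ i, S i ≤ S (i + 1) := fun i =>
    Submodule.span_mono fun w ⟨l, hl, hw⟩ => ⟨l, by omega, hw⟩
  have hstep : ∀ i, ∀ w ∈ S i, nab D A w ∈ S (i + 1) := by
    intro i w hw
    induction hw using Submodule.span_induction with
    | mem w hw =>
      obtain ⟨l, hl, rfl⟩ := hw
      have h1 : nab D A ((Θ ^ l) (v ∘ e0)) = y⁻¹ • (Θ ^ (l + 1)) (v ∘ e0) := by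
        rw [pow_succ', Module.End.mul_apply, hΘ, smul_smul, inv_mul_cancel₀ hy0, one_smul]
      rw [h1]
      exact Submodule.smul_mem _ _ (Submodule.subset_span ⟨l + 1, by omega, rfl⟩)
    | zero => rw [lt_nab_zero]; exact Submodule.zero_mem _
    | add a b _ _ ha hb => rw [lt_nab_add]; exact Submodule.add_mem _ ha hb
    | smul f a ha' ha =>
      rw [lt_nab_smul]
      exact Submodule.add_mem _ (Submodule.smul_mem _ _ (hSmono i ha')) (Submodule.smul_mem _ _ ha)
  have hmem : ∀ i, (nab D A)^[i] (v ∘ e0) ∈ S i := by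
    intro i
    induction i with
    | zero => exact Submodule.subset_span ⟨0, le_rfl, by rw [pow_zero]; rfl⟩
    | succ i ih => rw [Function.iterate_succ_apply']; exact hstep i _ ih
  have htop : ⊤ ≤ Submodule.span K (Set.range fun i : Fin (r + 1) => (Θ ^ (i : ℕ)) (v ∘ e0)) := by
    rw [← hspan, Submodule.span_le]
    rintro _ ⟨i, rfl⟩
    have h1 : S i ≤ Submodule.span K
        (Set.range fun i : Fin (r + 1) => (Θ ^ (i : ℕ)) (v ∘ e0)) := by
      refine Submodule.span_mono ?_
      rintro _ ⟨l, hl, rfl⟩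
      exact ⟨⟨l, by have := i.2; omega⟩, rfl⟩
    exact h1 (hmem i)
  refine ⟨v ∘ e0, basisOfTopLeSpanOfCardEqFinrank _ htop hfr, fun i => ?_⟩
  rw [coe_basisOfTopLeSpanOfCardEqFinrank]

/-- The matrix of `Θ` in the basis `Θ^i v`. -/
theorem lt_matrix {k K ι : Type} [Field k] [CharZero k] [Field K] [CharZero K] [Algebra k K]
    [Fintype ι] {D : Derivation ℚ K K} {A : Matrix ι ι K} {y : K}
    {Θ : Module.End k (ι → K)} (hΘ : ∀ v, Θ v = y • nab D A v) {r : ℕ} {v₀ : ι → K}
    (B : Module.Basis (Fin (r + 1)) K (ι → K)) (hB : ∀ i : Fin (r + 1), B i = (Θ ^ (i : ℕ)) v₀)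
    (w : ι → K) : B.equivFun (Θ w) = nab (y • D) (cmp (B.equivFun (Θ (B (Fin.last r)))))
      (B.equivFun w) := by
  have h1 : w = ∑ i, B.equivFun w i • B i := (B.sum_equivFun w).symm
  have h2 : Θ w = ∑ i, (((y • D) (B.equivFun w i)) • B i + B.equivFun w i • Θ (B i)) := by
    have h3 : Θ w = y • nab D A (∑ i, B.equivFun w i • B i) := by rw [hΘ, ← h1]
    rw [h3, lt_nab_sum, Finset.smul_sum]
    refine Finset.sum_congr rfl fun i _ => ?_
    rw [smul_add, hΘ, smul_smul, smul_comm y (B.equivFun w i), Derivation.smul_apply, smul_eq_mul]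
  have h4 : ∀ i j, B.equivFun (Θ (B i)) j = cmp (B.equivFun (Θ (B (Fin.last r)))) i j := by
    intro i j
    rw [cmp]
    rcases eq_or_ne i (Fin.last r) with rfl | hi
    · have h5 : (j : ℕ) ≠ (Fin.last r : ℕ) + 1 := by
        have := j.2
        rw [Fin.val_last]
        omega
      rw [if_pos rfl, if_neg h5, add_zero]
    · have h5 : (i : ℕ) + 1 < r + 1 := by
        have h6 := i.2
        have h7 : (i : ℕ) ≠ r := fun h => hi (Fin.ext h)
        omega
      have h6 : Θ (B i) = B ⟨(i : ℕ) + 1, h5⟩ := by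
        rw [hB, hB, pow_succ', Module.End.mul_apply]
      rw [if_neg hi, zero_add, h6, Module.Basis.equivFun_self]
      by_cases h7 : (j : ℕ) = (i : ℕ) + 1
      · rw [if_pos h7, if_pos (Fin.ext h7.symm)]
      · rw [if_neg h7, if_neg fun h8 => h7 (by rw [← h8])]
  funext j
  conv_lhs => rw [h2, map_sum, Finset.sum_apply]
  rw [nab]
  have h5 : ∀ i, B.equivFun (((y • D) (B.equivFun w i)) • B i + B.equivFun w i • Θ (B i)) j =
      (y • D) (B.equivFun w i) * (if i = j then 1 else 0) +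
        B.equivFun w i * cmp (B.equivFun (Θ (B (Fin.last r)))) i j := by
    intro i
    rw [map_add, map_smul, map_smul, Pi.add_apply, Pi.smul_apply, Pi.smul_apply, smul_eq_mul,
      smul_eq_mul, h4, Module.Basis.equivFun_self]
  rw [Finset.sum_congr rfl fun i _ => h5 i, Finset.sum_add_distrib]
  congr 1
  simp

theorem loc_thm {k K ι : Type} [Field k] [CharZero k] [Field K] [CharZero K] [Algebra k K]
    [Fintype ι] [DecidableEq ι] {D : Derivation ℚ K K} {A : Matrix ι ι K} (hA : TameM D A)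
    (hst : ∀ f : K, PG (tL D f)) {y : K} {e : ℤ} (he : e = 1 ∨ e = -1)
    (hy : D y = -(e : K)) {φ : K →+* LaurentSeries k} (hφ : Plc (y • D) φ)
    {Θ : Module.End k (ι → K)} (hΘ : ∀ v, Θ v = y • nab D A v) :
    ∃ (χ : k[X]) (m : ℕ), χ.Monic ∧
      (∀ γ : AlgebraicClosure k, aeval γ χ = 0 → GmS fun m (_ : Unit) => bc γ m) ∧
      ∀ n₀ N : ℕ, n₀ ≤ N + m → ∀ w : ι → K, (∀ i, pgV (-(N : ℤ)) (φ (w i))) →
        ∀ i, pgV (-((n₀ + m : ℕ) : ℤ))
          (φ ((aeval Θ (∏ n ∈ Finset.Ioc n₀ (N + m), χ.comp (X + C (n : k))) : _ →ₗ[k] _) w i)) := by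
  rcases isEmpty_or_nonempty ι with hι | hι
  · refine ⟨1, 0, monic_one, fun γ hγ => ?_, fun n₀ N _ w _ i => isEmptyElim i⟩
    rw [map_one] at hγ
    exact absurd hγ one_ne_zero
  obtain ⟨r, hr⟩ : ∃ r, Fintype.card ι = r + 1 :=
    ⟨Fintype.card ι - 1, by have := Fintype.card_pos (α := ι); omega⟩
  obtain ⟨v₀, B, hB⟩ := lt_basis he hy hΘ hr
  have hmat := lt_matrix hΘ B hB
  set u : (ι → K) ≃ₗ[K] (Fin (r + 1) → K) := B.equivFun with hu
  set a : Fin (r + 1) → K := u (Θ (B (Fin.last r))) with ha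
  have husmul : ∀ (c : k) (v : ι → K), u (c • v) = c • u v := fun c v => by
    rw [← algebraMap_smul K c v, map_smul, algebraMap_smul]
  -- the sequence `f`
  have hf0 : u ((aeval Θ (bp k 0) : Module.End k (ι → K)) v₀) = Pi.single 0 1 := by
    have h1 : bp k 0 = 1 := by simp [bp]
    have h2 : v₀ = B 0 := by rw [hB]; rfl
    rw [h1, map_one, Module.End.one_apply, h2]
    funext j
    rw [hu, Module.Basis.equivFun_self, Pi.single_apply]
    simp only [eq_comm]
  have hf : ∀ (j : ℕ) i, ((j + 1 : ℕ) : K) *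
      u ((aeval Θ (bp k (j + 1)) : Module.End k (ι → K)) v₀) i =
      nab (y • D) (cmp a) (u ((aeval Θ (bp k j) : Module.End k (ι → K)) v₀)) i -
        (j : K) * u ((aeval Θ (bp k j) : Module.End k (ι → K)) v₀) i := by
    intro j i
    have h1 := congrArg (fun P : k[X] => u ((aeval Θ P : Module.End k (ι → K)) v₀) i)
      (lt_bp (k := k) j)
    simp only [map_mul, map_sub, aeval_C, aeval_X, Module.End.mul_apply, LinearMap.sub_apply,
      Module.algebraMap_end_apply] at h1
    rw [husmul, husmul, hmat, Pi.sub_apply, Pi.smul_apply, Pi.smul_apply] at h1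
    rw [Algebra.smul_def, Algebra.smul_def, map_natCast, map_natCast] at h1
    exact h1
  have hg : GmS fun j i => u ((aeval Θ (bp k j) : Module.End k (ι → K)) v₀) i := by
    refine lt_lin u.toLinearMap (w := fun j => (aeval Θ (bp k j) : Module.End k (ι → K)) v₀) ?_
    obtain ⟨T', c', H, hT', hq⟩ := calc_bound hA hst he hy hΘ (Set.finite_range v₀) 1
    refine ⟨T', c', H, hT', fun N => ?_⟩
    obtain ⟨q, q0, q1, q2⟩ := hq N
    refine ⟨q, q0, q1, fun m hm s => q2 v₀ (fun i => ?_) m hm s⟩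
    exact G_mono le_rfl (by omega) (G_mem (Set.mem_range_self i))
  obtain ⟨hreg, hexp⟩ := reg_exp hφ a _ hf0 hf hg
  obtain ⟨m₁, hm₁⟩ := lt_pole_lin φ u.toLinearMap
  obtain ⟨m₂, hm₂⟩ := lt_pole_lin φ u.symm.toLinearMap
  refine ⟨chi φ a, m₁ + m₂, lt_chi_monic φ a, hexp, fun n₀ N hn w hw i => ?_⟩
  let Θ' : Module.End k (Fin (r + 1) → K) :=
    { toFun := fun v => u (Θ (u.symm v))
      map_add' := fun v w => by rw [map_add, map_add, map_add]
      map_smul' := fun c v => by
        have h1 : u.symm (c • v) = c • u.symm v := by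
          rw [← algebraMap_smul K c v, map_smul, algebraMap_smul]
        rw [h1, map_smul, husmul, RingHom.id_apply] }
  have hΘ'1 : ∀ v, Θ' v = nab (y • D) (cmp a) v := by
    intro v
    change u (Θ (u.symm v)) = _
    rw [hmat, LinearEquiv.apply_symm_apply]
  have hconj := lt_conj (Θ := Θ) (Θ' := Θ') (u := u) (fun v w => map_add u v w) husmul
    (fun v => by
      change u (Θ (u.symm (u v))) = _
      rw [LinearEquiv.symm_apply_apply])
  have hv : ∀ j, pgV (-((N + (m₁ + m₂) : ℕ) : ℤ)) (φ (u w j)) := fun j =>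
    pgV_mono (by push_cast; omega) (hm₁ (m₁ + m₂) (by omega) _ w hw j)
  have h1 := loc_cyc hφ hreg hΘ'1 hn hv
  have h2 := hm₂ (m₁ + m₂) (by omega) _ _ h1 i
  rw [hconj] at h2
  change pgV _ (φ ((u.symm (u _)) i)) at h2
  rw [LinearEquiv.symm_apply_apply] at h2
  exact pgV_mono (by push_cast; omega) h2

end Pool.Agent.Helper79.GA
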