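import Pool.Agent.Helper79.GA.Cyc
import Pool.Agent.Helper79.GA.Reg
import Pool.Agent.Helper79.GA.Calc
import Pool.Agent.Helper79.GA.LT

/-!
# GA-35: the cyclic basis of a tame connection at a place

The first half of the proof of the local theorem (`LT.lean`, steps 1 and 2): `r + 1 = card ι`, the rows of `C` are the vectors `b_i = Θ^i v₀`, `C'` the inverse matrix.
-/

open Polynomial

namespace Pool.Agent.Helper79.GA

open Pool.Agent.Helper79.CU Pool.Agent.Helper79.SE

theorem cyc_thm {k K ι : Type} [Field k] [CharZero k] [Field K] [CharZero K] [Algebra k K]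
    [Fintype ι] [DecidableEq ι] [Nonempty ι] {D : Derivation ℚ K K} {A : Matrix ι ι K}
    (hA : TameM D A) (hst : ∀ f : K, PG (tL D f)) {y : K} {e : ℤ} (he : e = 1 ∨ e = -1)
    (hy : D y = -(e : K)) {φ : K →+* LaurentSeries k} (hφ : Plc (y • D) φ)
    {Θ : Module.End k (ι → K)} (hΘ : ∀ v, Θ v = y • nab D A v) :
    ∃ (r : ℕ) (_ : ι ≃ Fin (r + 1)) (C : Matrix (Fin (r + 1)) ι K)
      (C' : Matrix ι (Fin (r + 1)) K) (a : Fin (r + 1) → K), C * C' = 1 ∧ C' * C = 1 ∧
      (∀ i j, y * (D (C i j) + (C * A) i j) = (cmp a * C) i j) ∧ (∀ i, pgV 0 (φ (a i))) ∧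
      ∀ γ : AlgebraicClosure k, aeval γ (chi φ a) = 0 → GmS fun m (_ : Unit) => bc γ m := by
  obtain ⟨r, hr⟩ : ∃ r, Fintype.card ι = r + 1 :=
    ⟨Fintype.card ι - 1, by have := Fintype.card_pos (α := ι); omega⟩
  obtain ⟨v₀, B, hB⟩ := lt_basis he hy hΘ hr
  have hmat := lt_matrix hΘ B hB
  set u : (ι → K) ≃ₗ[K] (Fin (r + 1) → K) := B.equivFun with hu
  set a : Fin (r + 1) → K := u (Θ (B (Fin.last r))) with ha
  have husmul : ∀ (c : k) (v : ι → K), u (c • v) = c • u v := fun c v => by
    rw [← algebraMap_smul K c v, map_smul, algebraMap_smul]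
  -- the sequence `f`
  have hf0 : u ((aeval Θ (bp k 0) : Module.End k (ι → K)) v₀) = Pi.single 0 1 := by
    have h1 : bp k 0 = 1 := by simp [bp]
    have h2 : v₀ = B 0 := by rw [hB]; rfl
    rw [h1, map_one, Module.End.one_apply, h2]
    funext j
    rw [hu, Module.Basis.equivFun_self, Pi.single_apply]
    simp only [eq_comm]
  have hf : ∀ (j : ℕ) i, ((j + 1 : ℕ) : K) *
      u ((aeval Θ (bp k (j + 1)) : Module.End k (ι → K)) v₀) i =
      nab (y • D) (cmp a) (u ((aeval Θ (bp k j) : Module.End k (ι → K)) v₀)) i -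
        (j : K) * u ((aeval Θ (bp k j) : Module.End k (ι → K)) v₀) i := by
    intro j i
    have h1 := congrArg (fun P : k[X] => u ((aeval Θ P : Module.End k (ι → K)) v₀) i)
      (lt_bp (k := k) j)
    simp only [map_mul, map_sub, aeval_C, aeval_X, Module.End.mul_apply, LinearMap.sub_apply,
      Module.algebraMap_end_apply] at h1
    rw [husmul, husmul, hmat, Pi.sub_apply, Pi.smul_apply, Pi.smul_apply] at h1
    rw [Algebra.smul_def, Algebra.smul_def, map_natCast, map_natCast] at h1
    exact h1
  have hg : GmS fun j i => u ((aeval Θ (bp k j) : Module.End k (ι → K)) v₀) i := by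
    refine lt_lin u.toLinearMap (w := fun j => (aeval Θ (bp k j) : Module.End k (ι → K)) v₀) ?_
    obtain ⟨T', c', H, hT', hq⟩ := calc_bound hA hst he hy hΘ (Set.finite_range v₀) 1
    refine ⟨T', c', H, hT', fun N => ?_⟩
    obtain ⟨q, q0, q1, q2⟩ := hq N
    refine ⟨q, q0, q1, fun m hm s => q2 v₀ (fun i => ?_) m hm s⟩
    exact G_mono le_rfl (by omega) (G_mem (Set.mem_range_self i))
  obtain ⟨hreg, hexp⟩ := reg_exp hφ a _ hf0 hf hg
  refine ⟨r, Fintype.equivFinOfCardEq hr, Matrix.of fun i => B i,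
    Matrix.of fun j i => u (Pi.single j 1) i, a, ?_, ?_, ?_, hreg, hexp⟩
  · ext i i'
    have h1 : u (B i) = ∑ j, B i j • u (Pi.single j 1) := by
      have h2 : B i = ∑ j, B i j • (Pi.single j 1 : ι → K) := by
        conv_lhs => rw [pi_eq_sum_univ (B i)]
        refine Finset.sum_congr rfl fun j _ => ?_
        congr 1
        funext l
        rw [Pi.single_apply]
        simp only [eq_comm]
      conv_lhs => rw [h2, map_sum]
      refine Finset.sum_congr rfl fun j _ => ?_
      rw [map_smul]
    have h3 : u (B i) i' = if i = i' then 1 else 0 := by rw [hu, Module.Basis.equivFun_self]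
    rw [h1, Finset.sum_apply] at h3
    rw [Matrix.mul_apply, Matrix.one_apply, ← h3]
    rfl
  · ext j j'
    have h1 : (Pi.single j 1 : ι → K) = ∑ i, u (Pi.single j 1) i • B i :=
      (B.sum_equivFun _).symm
    have h2 := congrFun h1 j'
    rw [Finset.sum_apply] at h2
    rw [Matrix.mul_apply, Matrix.one_apply]
    have h3 : (Pi.single j 1 : ι → K) j' = if j = j' then 1 else 0 := by
      rw [Pi.single_apply]
      simp only [eq_comm]
    rw [h3] at h2
    rw [h2]
    rfl
  · intro i j
    have h1 : y * (D (B i j) + ((Matrix.of fun i => B i) * A) i j) = Θ (B i) j := by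
      rw [hΘ, Pi.smul_apply, smul_eq_mul, nab, Matrix.mul_apply]
      rfl
    have h2 : Θ (B i) = ∑ l, u (Θ (B i)) l • B l := (B.sum_equivFun _).symm
    have h3 : ∀ l, u (Θ (B i)) l = cmp a i l := by
      intro l
      rw [hmat]
      have h4 : u (B i) = Pi.single i 1 := by
        funext j
        rw [hu, Module.Basis.equivFun_self, Pi.single_apply]
        simp only [eq_comm]
      rw [h4, nab, Finset.sum_eq_single i]
      · rw [Pi.single_eq_same, one_mul]
        rcases eq_or_ne l i with rfl | hl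
        · rw [Pi.single_eq_same, Derivation.map_one_eq_zero, zero_add]
        · rw [Pi.single_eq_of_ne hl, map_zero, zero_add]
      · intro l' _ hl'
        rw [Pi.single_eq_of_ne hl', zero_mul]
      · intro h
        exact absurd (Finset.mem_univ i) h
    change y * (D (B i j) + ((Matrix.of fun i => B i) * A) i j) = _
    rw [h1, h2, Finset.sum_apply, Matrix.mul_apply]
    refine Finset.sum_congr rfl fun l _ => ?_
    rw [h3]
    rfl

end Pool.Agent.Helper79.GA
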