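import Pool.Agent.Helper79.GA.Bin
import Pool.Agent.Helper79.GA.Num

/-!
# GA-05: the inverses of binomial coefficients have geometric denominators (one at a time)

Put `M = N - n₀`, `γ' = γ - e - n₀ - 1`. Then `∏_{n₀<n≤N} (e + n - γ) = (-1)^M ∏_{i<M} (γ' - i) = (-1)^M M! bc γ' M`, so the number of the
statement is `u⁻¹`, `u = (-1)^M bc γ' M ≠ 0`.
* By `bc_shift` the `bc γ' M` have geometric denominators: `q bc γ' M ∈ (G T).I (c (N+1))`; by `num_gen`
  (`bc γ' M` is algebraic over `ℚ`) `α = m^(c(N+1)) q u` is integral over `ℤ`, `α ∈ F = ℚ(γ)`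
  (`IntermediateField.adjoin ℚ {γ}`, a number field).
* The norm `Nm = N_{F/ℚ}(α)` is a nonzero integer, `|Nm| = ∏_σ |σ α|` over the embeddings `σ : F → ℂ`
  (`Algebra.norm_eq_prod_embeddings`, `Algebra.isIntegral_norm`), `|σ(bc γ' M)| = ∏_{i<M} |σγ' - i|/(i+1) ≤ (|σ γ'| + 1)^M`, so
  `|Nm| ≤ C^(N+1)`, `C` independent of `N`.
* `Nm α⁻¹` is integral over `ℤ` (for an algebraic integer `α ≠ 0` of a number field the norm divided by `α` is an algebraic integer:
  e.g. `Algebra.norm ∈ (α)`, `NumberField.RingOfIntegers`, `Algebra.dvd_algebraMap_norm` or via the characteristic polynomial / minimal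
  polynomial `α (α^(d-1) + a_1 α^(d-2) + …) = -a_d` with `a_i ∈ ℤ`: use the constant coefficient `a_d` of the minimal polynomial instead
  of the norm if this is more convenient, `a_d` divides the norm).
* So `Q u⁻¹ = ± m^(c(N+1)) q (Nm α⁻¹)`, `Q = |Nm|`, is an algebraic integer of `F`, so an integral combination of a `ℤ`-basis of the
  ring of integers of `F` (finite: `NumberField.RingOfIntegers` is a finite `ℤ`-module): `T` = the images of this basis in `Ω`,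
  `Q u⁻¹ ∈ (G T).I 1`.
-/

open Polynomial

namespace Pool.Agent.Helper79.GA

open Pool.Agent.Helper79.CU Pool.Agent.Helper79.SE

private theorem inv_norm_bc (z : ℂ) (M : ℕ) : ‖bc z M‖ ≤ (‖z‖ + 1) ^ M := by
  induction M with
  | zero => simp [bc]
  | succ M ih =>
    have h1 : bc z (M + 1) = bc z M * ((z - (M : ℂ)) / ((M + 1 : ℕ) : ℂ)) := by
      rw [bc, bc, Finset.prod_range_succ, Nat.factorial_succ]
      have h2 : ((M.factorial : ℕ) : ℂ) ≠ 0 := by exact_mod_cast M.factorial_ne_zero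
      have h3 : ((M + 1 : ℕ) : ℂ) ≠ 0 := by exact_mod_cast M.succ_ne_zero
      rw [Nat.cast_mul]
      field_simp
    have h4 : ‖(z - (M : ℂ)) / ((M + 1 : ℕ) : ℂ)‖ ≤ ‖z‖ + 1 := by
      rw [norm_div, Complex.norm_natCast, div_le_iff₀ (by positivity)]
      calc ‖z - (M : ℂ)‖ ≤ ‖z‖ + ‖(M : ℂ)‖ := norm_sub_le _ _
        _ = ‖z‖ + M := by rw [Complex.norm_natCast]
        _ ≤ (‖z‖ + 1) * ((M + 1 : ℕ) : ℝ) := by
          push_cast
          have : 0 ≤ ‖z‖ * M := by positivity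
          nlinarith
    rw [h1, norm_mul, pow_succ]
    exact mul_le_mul ih h4 (norm_nonneg _) (by positivity)

private theorem inv_map_bc {F F' : Type} [Field F] [Field F'] [CharZero F] [CharZero F']
    (f : F →+* F') (γ : F) (M : ℕ) : f (bc γ M) = bc (f γ) M := by
  rw [bc, bc, map_div₀, map_prod, map_natCast]
  simp

private theorem inv_field (F : Type) [Field F] [NumberField F] (δ : F) (A : ℕ) :
    ∃ H : ℕ, ∀ N M : ℕ, M ≤ N → ∀ t : ℕ, 0 < t → t ≤ A ^ (N + 1) → bc δ M ≠ 0 →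
      IsIntegral ℤ ((t : F) * bc δ M) → ∃ (Q : ℕ) (y : NumberField.RingOfIntegers F), 0 < Q ∧
        Q ≤ H ^ (N + 1) ∧ (Q : F) = (t : F) * bc δ M * (y : F) := by
  classical
  obtain ⟨B, hB⟩ : ∃ B : ℕ, ∀ σ : F →ₐ[ℚ] ℂ, ‖σ δ‖ + 1 ≤ (B : ℝ) := by
    refine ⟨⌈∑ σ : F →ₐ[ℚ] ℂ, (‖σ δ‖ + 1)⌉₊, fun σ => ?_⟩
    refine le_trans ?_ (Nat.le_ceil _)
    exact Finset.single_le_sum (f := fun σ : F →ₐ[ℚ] ℂ => ‖σ δ‖ + 1) (fun τ _ => by positivity)
      (Finset.mem_univ σ)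
  refine ⟨(A * (B + 1)) ^ Fintype.card (F →ₐ[ℚ] ℂ), fun N M hM t ht0 ht hbc hint => ?_⟩
  set x : NumberField.RingOfIntegers F := ⟨(t : F) * bc δ M, hint⟩ with hx
  have hx1 : (x : F) = (t : F) * bc δ M := rfl
  have hx0 : x ≠ 0 := by
    intro h0
    have h1 : (x : F) = 0 := by rw [h0]; rfl
    rw [hx1] at h1
    rcases mul_eq_zero.mp h1 with h2 | h2
    · exact ht0.ne' (by exact_mod_cast h2)
    · exact hbc h2
  have hQmem := Ideal.absNorm_mem (Ideal.span ({x} : Set (NumberField.RingOfIntegers F)))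
  obtain ⟨y, hy⟩ := Ideal.mem_span_singleton'.mp hQmem
  have habs := Ideal.absNorm_span_singleton x
  refine ⟨Ideal.absNorm (Ideal.span ({x} : Set (NumberField.RingOfIntegers F))), y, ?_, ?_, ?_⟩
  · rw [habs]
    exact Int.natAbs_pos.mpr (Algebra.norm_ne_zero_iff.mpr hx0)
  · have h1 : ((Ideal.absNorm (Ideal.span ({x} : Set (NumberField.RingOfIntegers F))) : ℕ) : ℝ) =
        ∏ σ : F →ₐ[ℚ] ℂ, ‖σ (x : F)‖ := by
      rw [habs]
      have h2 : (((Algebra.norm ℤ x).natAbs : ℕ) : ℝ) = |((Algebra.norm ℤ x : ℤ) : ℝ)| := by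
        rw [Nat.cast_natAbs, Int.cast_abs]
      have h3 : ((Algebra.norm ℤ x : ℤ) : ℝ) = ((Algebra.norm ℚ (x : F) : ℚ) : ℝ) := by
        rw [← Algebra.coe_norm_int]
        push_cast
        rfl
      rw [h2, h3]
      have h4 := Algebra.norm_eq_prod_embeddings ℚ ℂ (x : F)
      rw [← norm_prod, ← h4]
      simp
    have h5 : ∀ σ : F →ₐ[ℚ] ℂ, ‖σ (x : F)‖ ≤ (((A * (B + 1)) ^ (N + 1) : ℕ) : ℝ) := by
      intro σ
      rw [hx1, map_mul, map_natCast, norm_mul, Complex.norm_natCast]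
      have h6 : σ (bc δ M) = bc (σ δ) M := inv_map_bc σ.toRingHom δ M
      rw [h6, mul_pow, Nat.cast_mul]
      refine mul_le_mul (by exact_mod_cast ht) ?_ (norm_nonneg _) (Nat.cast_nonneg _)
      refine (inv_norm_bc _ _).trans ?_
      calc (‖σ δ‖ + 1) ^ M ≤ ((B : ℝ) + 1) ^ M :=
            pow_le_pow_left₀ (by positivity) ((hB σ).trans (by linarith)) M
        _ ≤ ((B : ℝ) + 1) ^ (N + 1) :=
            pow_le_pow_right₀ (by have : (0 : ℝ) ≤ B := Nat.cast_nonneg B; linarith) (by omega)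
        _ = (((B + 1) ^ (N + 1) : ℕ) : ℝ) := by push_cast; rfl
    have h7 : ∏ σ : F →ₐ[ℚ] ℂ, ‖σ (x : F)‖ ≤
        (((A * (B + 1)) ^ (N + 1) : ℕ) : ℝ) ^ Fintype.card (F →ₐ[ℚ] ℂ) := by
      calc ∏ σ : F →ₐ[ℚ] ℂ, ‖σ (x : F)‖ ≤ ∏ σ : F →ₐ[ℚ] ℂ, (((A * (B + 1)) ^ (N + 1) : ℕ) : ℝ) :=
            Finset.prod_le_prod (fun _ _ => norm_nonneg _) fun σ _ => h5 σ
        _ = _ := by rw [Finset.prod_const, Finset.card_univ]
    rw [← h1] at h7
    have h8 : Ideal.absNorm (Ideal.span ({x} : Set (NumberField.RingOfIntegers F))) ≤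
        ((A * (B + 1)) ^ (N + 1)) ^ Fintype.card (F →ₐ[ℚ] ℂ) := by exact_mod_cast h7
    rw [← pow_mul, mul_comm (N + 1), pow_mul] at h8
    exact h8
  · have h9 := congrArg (algebraMap (NumberField.RingOfIntegers F) F) hy
    rw [map_mul, map_natCast] at h9
    rw [← h9, mul_comm]
    rfl

theorem bc_inv {Ω : Type} [Field Ω] [CharZero Ω] {γ : Ω} (hγ : IsAlgebraic ℚ γ)
    (h : GmS fun m (_ : Unit) => bc γ m) (e : ℤ) {n₀ : ℕ}
    (hn : ∀ n : ℕ, n₀ < n → (e : Ω) + (n : Ω) ≠ γ) :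
    ∃ (T : Set Ω) (c H : ℕ), T.Finite ∧ ∀ N : ℕ, n₀ ≤ N → ∃ q : ℕ, 0 < q ∧ q ≤ H ^ (N + 1) ∧
      (q : Ω) * ((((N - n₀).factorial : ℕ) : Ω) /
        ∏ n ∈ Finset.Ioc n₀ N, ((e : Ω) + (n : Ω) - γ)) ∈ (G T).I (c * (N + 1)) := by
  classical
  set E : ℤ := -e - (n₀ : ℤ) - 1 with hE
  set γ' : Ω := γ + (E : Ω) with hγ'
  obtain ⟨T₀, c₀, H₀, hT₀, h₀⟩ := bc_shift h E
  obtain ⟨M₀, hM₀, hint⟩ := num_gen hT₀
  -- the number field
  set F : IntermediateField ℚ Ω := IntermediateField.adjoin ℚ {γ} with hF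
  have hfd : FiniteDimensional ℚ F := IntermediateField.adjoin.finiteDimensional hγ.isIntegral
  have hnf : NumberField F := NumberField.mk
  have hγF : γ ∈ F := IntermediateField.mem_adjoin_simple_self ℚ γ
  set δ : F := ⟨γ, hγF⟩ + (E : F) with hδ
  have hδ1 : algebraMap F Ω δ = γ' := by
    rw [hδ, map_add, map_intCast]
    rfl
  obtain ⟨H, hH⟩ := inv_field F δ (M₀ ^ c₀ * H₀)
  set b := NumberField.RingOfIntegers.basis F with hb
  refine ⟨Set.range fun i => algebraMap F Ω ((b i : NumberField.RingOfIntegers F) : F), 1, H,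
    Set.finite_range _, fun N hN => ?_⟩
  obtain ⟨q, q0, q1, q2⟩ := h₀ N
  set M := N - n₀ with hM
  have hMN : M ≤ N := Nat.sub_le _ _
  set t : ℕ := M₀ ^ (c₀ * (N + 1)) * q with ht
  have ht0 : 0 < t := Nat.mul_pos (Nat.pow_pos (by omega)) q0
  have ht1 : t ≤ (M₀ ^ c₀ * H₀) ^ (N + 1) := by
    rw [mul_pow, ← pow_mul]
    exact Nat.mul_le_mul_left _ q1
  have hmapbc : algebraMap F Ω (bc δ M) = bc γ' M := by
    rw [inv_map_bc (algebraMap F Ω) δ M, hδ1]
  -- the product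
  have hprod : ∏ n ∈ Finset.Ioc n₀ N, ((e : Ω) + (n : Ω) - γ) =
      (-1) ^ M * (((M.factorial : ℕ) : Ω) * bc γ' M) := by
    have h1 : (((M.factorial : ℕ)) : Ω) ≠ 0 := by exact_mod_cast M.factorial_ne_zero
    rw [bc, mul_div_cancel₀ _ h1]
    have h2 : (-1 : Ω) ^ M * ∏ i ∈ Finset.range M, (γ' - (i : Ω)) =
        ∏ i ∈ Finset.range M, (-1) * (γ' - (i : Ω)) := by
      rw [Finset.prod_mul_distrib, Finset.prod_const, Finset.card_range]
    rw [h2]
    refine Finset.prod_bij' (fun n _ => n - (n₀ + 1)) (fun i _ => i + (n₀ + 1)) ?_ ?_ ?_ ?_ ?_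
    · intro n hn
      rw [Finset.mem_Ioc] at hn
      rw [Finset.mem_range]
      omega
    · intro i hi
      rw [Finset.mem_range] at hi
      rw [Finset.mem_Ioc]
      omega
    · intro n hn
      rw [Finset.mem_Ioc] at hn
      omega
    · intro i hi
      omega
    · intro n hn
      rw [Finset.mem_Ioc] at hn
      rw [Nat.cast_sub (by omega), hγ', hE]
      push_cast
      ring
  have hbc0 : bc γ' M ≠ 0 := by
    intro h0
    rw [h0, mul_zero, mul_zero] at hprod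
    obtain ⟨n, hn1, hn2⟩ := Finset.prod_eq_zero_iff.mp hprod
    rw [Finset.mem_Ioc] at hn1
    exact hn n hn1.1 (sub_eq_zero.mp hn2)
  have hbcF : bc δ M ≠ 0 := by
    intro h0
    rw [h0, map_zero] at hmapbc
    exact hbc0 hmapbc.symm
  have hbcalg : IsAlgebraic ℚ (bc γ' M) := by
    rw [← hmapbc]
    exact (Algebra.IsAlgebraic.isAlgebraic (R := ℚ) (bc δ M)).algebraMap
  have hintF : IsIntegral ℤ ((t : F) * bc δ M) := by
    have h1 := hint _ _ (hbcalg.nsmul q) (by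
      have := q2 M hMN ()
      rw [nsmul_eq_mul]
      exact this)
    have h2 : (M₀ : Ω) ^ (c₀ * (N + 1)) * (q • bc γ' M) = algebraMap F Ω ((t : F) * bc δ M) := by
      rw [map_mul, map_natCast, hmapbc, ht, nsmul_eq_mul]
      push_cast
      ring
    rw [h2] at h1
    exact (isIntegral_algebraMap_iff (algebraMap F Ω).injective).mp h1
  obtain ⟨Q, y, Q0, Q1, Q2⟩ := hH N M hMN t ht0 ht1 hbcF hintF
  refine ⟨Q, Q0, Q1, ?_⟩
  have h3 : (Q : Ω) = (t : Ω) * bc γ' M * algebraMap F Ω (y : F) := by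
    have := congrArg (algebraMap F Ω) Q2
    rw [map_mul, map_mul, map_natCast, map_natCast, hmapbc] at this
    exact this
  have h4 : (Q : Ω) * (((M.factorial : ℕ) : Ω) / ∏ n ∈ Finset.Ioc n₀ N, ((e : Ω) + (n : Ω) - γ)) =
      (((-1) ^ M * (t : ℤ) : ℤ) : Ω) * algebraMap F Ω (y : F) := by
    rw [hprod, h3]
    have h5 : (((M.factorial : ℕ)) : Ω) ≠ 0 := by exact_mod_cast M.factorial_ne_zero
    have h6 : ((-1 : Ω) ^ M) * (-1) ^ M = 1 := by
      rw [← mul_pow]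
      simp
    have h7 : ((-1 : Ω) ^ M) ≠ 0 := pow_ne_zero _ (by norm_num)
    push_cast
    field_simp
    linear_combination (-(t : Ω) * algebraMap F Ω (y : F)) * h6
  rw [h4]
  refine G_int_mul ?_ _
  rw [one_mul]
  have h8 : (y : F) = ∑ i, ((b.repr y i : ℤ) : F) * ((b i : NumberField.RingOfIntegers F) : F) := by
    have h9 := congrArg (algebraMap (NumberField.RingOfIntegers F) F) (b.sum_repr y)
    refine h9.symm.trans ?_
    rw [map_sum]
    refine Finset.sum_congr rfl fun i _ => ?_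
    rw [zsmul_eq_mul, map_mul, map_intCast]
  rw [h8, map_sum]
  refine AddSubgroup.sum_mem _ fun i _ => ?_
  rw [map_mul, map_intCast]
  exact G_int_mul (G_mono le_rfl (by omega) (G_mem (Set.mem_range_self i))) _

end Pool.Agent.Helper79.GA
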