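import Pool.Agent.Helper79.GA.Basic

/-!
# GA-04: a number whose binomial coefficients have geometric denominators is algebraic

Assume that `γ` is transcendental over `ℚ` (so over `ℤ`). Let `F₀ = ℚ(γ)` (`IntermediateField.adjoin ℚ {γ}`, a subfield of `Ω`; the
fraction field of `ℤ[γ] ≅ ℤ[X]`), `B = Algebra.adjoin F₀ T`, `π : B → F' = B/𝔪` with `F'` finite over `F₀` (Zariski's lemma,
`finite_of_finite_type_of_isJacobsonRing`). The `π(t)`, `t ∈ T`, are algebraic over `ℚ(γ)`, so over `ℤ[γ]`: there is a nonzero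
`g ∈ ℤ[X]` with `g(γ) π(t)` integral over `ℤ[γ]` for all `t ∈ T` (`exists_integral_multiple`, product). Then for all `N`
`g(γ)^(c(N+1)) q bc γ N ∈ ℚ(γ)` is integral over `ℤ[γ]` (closure induction for the elements of
`(G T).I n`: `g(γ)^n π(x)` is integral), so it belongs to `ℤ[γ]` (integrally closed: `ℤ[X]` is a UFD; `ℤ[γ] ≅ ℤ[X]`).
With `bc γ N = ∏_{i<N} (γ - i) / N!` this gives `h ∈ ℤ[X]` with
`N! h = q g^(c(N+1)) ∏_{i<N} (X - i)` in `ℤ[X]` (transcendence of `γ`), and taking contents (`Polynomial.content_mul`,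
monic polynomials have content `1`): `N!` divides `q content(g)^(c(N+1))`, so
`N! ≤ (H content(g)^c)^(N+1)` for all `N` (`q > 0`, `content g ≠ 0`), which is false for large `N`.
(A convenient way: work with the algebra `ℤ[X]`, `Algebra ℤ[X] Ω` via `aeval γ`, injective, and the fraction field
`F₀ = FractionRing ℤ[X]` mapped to `Ω` by `IsFractionRing.lift`.)
-/

open Polynomial

namespace Pool.Agent.Helper79.GA

open Pool.Agent.Helper79.CU Pool.Agent.Helper79.SE

/-- Elements of an algebra of finite type over the fraction field of `R` which is a field. -/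
private theorem tra_field (R E F : Type) [CommRing R] [IsDomain R] [Field E] [Field F] [Algebra R E]
    [IsFractionRing R E] [Algebra E F] [Algebra R F] [IsScalarTower R E F] [Algebra.FiniteType E F]
    (y : F) : ∃ g : R, g ≠ 0 ∧ IsIntegral R (g • y) := by
  have h1 : Module.Finite E F := finite_of_finite_type_of_isJacobsonRing E F
  have h2 : Algebra.IsAlgebraic E F := Algebra.IsAlgebraic.of_finite E F
  have h3 : IsAlgebraic R y := (IsFractionRing.isAlgebraic_iff R E F).mpr (h2.isAlgebraic y)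
  exact h3.exists_integral_multiple

private theorem tra_map (R E B : Type) [CommRing R] [IsDomain R] [Field E] [CommRing B] [Nontrivial B]
    [Algebra R E] [IsFractionRing R E] [Algebra E B] [Algebra.FiniteType E B] :
    ∃ (F : Type) (_ : Field F) (_ : Algebra E F) (_ : B →ₐ[E] F) (ρ : R →+* F),
      (∀ r, ρ r = algebraMap E F (algebraMap R E r)) ∧
      ∀ y : F, ∃ g : R, g ≠ 0 ∧ ρ.IsIntegralElem (ρ g * y) := by
  obtain ⟨𝔪, h𝔪⟩ := Ideal.exists_maximal B
  let _ : Field (B ⧸ 𝔪) := Ideal.Quotient.field 𝔪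
  have hft : Algebra.FiniteType E (B ⧸ 𝔪) :=
    Algebra.FiniteType.of_surjective (Ideal.Quotient.mkₐ E 𝔪) (Ideal.Quotient.mkₐ_surjective E 𝔪)
  let _ : Algebra R (B ⧸ 𝔪) := ((algebraMap E (B ⧸ 𝔪)).comp (algebraMap R E)).toAlgebra
  have : IsScalarTower R E (B ⧸ 𝔪) := IsScalarTower.of_algebraMap_eq fun _ => rfl
  refine ⟨B ⧸ 𝔪, inferInstance, inferInstance, Ideal.Quotient.mkₐ E 𝔪, algebraMap R (B ⧸ 𝔪),
    fun r => rfl, fun y => ?_⟩
  obtain ⟨g, hg, hi⟩ := tra_field R E (B ⧸ 𝔪) y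
  refine ⟨g, hg, ?_⟩
  rw [Algebra.smul_def] at hi
  exact hi

private theorem tra_gen {Ω : Type} [Field Ω] (R E : Type) [CommRing R] [IsDomain R] [Field E]
    [Algebra R E] [IsFractionRing R E] [Algebra E Ω] {T : Set Ω} (hT : T.Finite) :
    ∃ g : R, g ≠ 0 ∧ ∀ (n : ℕ) (e : E), algebraMap E Ω e ∈ (G T).I n →
      IsIntegral R (algebraMap R E (g ^ n) * e) := by
  classical
  set B : Subalgebra E Ω := Algebra.adjoin E T with hB
  have hBft : Algebra.FiniteType E B := by
    rw [← Subalgebra.fg_iff_finiteType]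
    exact ⟨hT.toFinset, by rw [hT.coe_toFinset]⟩
  obtain ⟨F, _, _, π, ρ, hρ, hF⟩ := tra_map R E B
  let _ : Algebra R F := ρ.toAlgebra
  have hRF : IsScalarTower R E F := IsScalarTower.of_algebraMap_eq hρ
  choose M hM1 hM2 using hF
  have hTB : ∀ t ∈ T, t ∈ B := fun t ht => Algebra.subset_adjoin ht
  -- a common multiple
  set M0 : R := ∏ t ∈ hT.toFinset.attach, M (π ⟨t.1, hTB t.1 (hT.mem_toFinset.mp t.2)⟩) with hM0
  have hM01 : M0 ≠ 0 := Finset.prod_ne_zero_iff.mpr fun t _ => hM1 _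
  have hMt : ∀ t (ht : t ∈ T), IsIntegral R (ρ M0 * π ⟨t, hTB t ht⟩) := by
    intro t ht
    obtain ⟨d, hd⟩ : M (π ⟨t, hTB t ht⟩) ∣ M0 :=
      Finset.dvd_prod_of_mem (fun t : hT.toFinset => M (π ⟨t.1, hTB t.1 (hT.mem_toFinset.mp t.2)⟩))
        (Finset.mem_attach _ ⟨t, hT.mem_toFinset.mpr ht⟩)
    rw [hd, map_mul, mul_comm (ρ (M (π ⟨t, hTB t ht⟩))), mul_assoc]
    exact IsIntegral.mul (isIntegral_algebraMap (R := R) (A := F)) (hM2 _)
  refine ⟨M0, hM01, fun n e hxn => ?_⟩
  have key : ∀ x : Ω, x ∈ (G T).I n → ∃ hx : x ∈ B, IsIntegral R (ρ M0 ^ n * π ⟨x, hx⟩) := by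
    intro x hxn
    change x ∈ AddSubgroup.closure _ at hxn
    induction hxn using AddSubgroup.closure_induction with
    | mem b hb =>
      obtain ⟨i, r, l, -, e2, e3, rfl⟩ := hb
      have hl : ∀ l : List Ω, (∀ s ∈ l, s ∈ T) → ∃ h : l.prod ∈ B,
          IsIntegral R (ρ M0 ^ l.length * π ⟨l.prod, h⟩) := by
        intro l
        induction l with
        | nil =>
          intro _
          refine ⟨by rw [List.prod_nil]; exact B.one_mem, ?_⟩
          have e : (⟨([] : List Ω).prod, by rw [List.prod_nil]; exact B.one_mem⟩ : B) = 1 :=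
            Subtype.ext List.prod_nil
          rw [e, map_one, List.length_nil, pow_zero, mul_one]
          exact isIntegral_one
        | cons a l ih =>
          intro hl
          obtain ⟨h, h'⟩ := ih fun s hs => hl s (List.mem_cons_of_mem _ hs)
          have ha := hTB a (hl a List.mem_cons_self)
          have hm : (a :: l).prod ∈ B := by
            rw [List.prod_cons]
            exact B.mul_mem ha h
          refine ⟨hm, ?_⟩
          have e : (⟨(a :: l).prod, hm⟩ : B) = ⟨a, ha⟩ * ⟨l.prod, h⟩ := Subtype.ext List.prod_cons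
          rw [e, map_mul, List.length_cons, pow_succ]
          have e' : ρ M0 ^ l.length * ρ M0 * (π ⟨a, ha⟩ * π ⟨l.prod, h⟩) =
              (ρ M0 * π ⟨a, ha⟩) * (ρ M0 ^ l.length * π ⟨l.prod, h⟩) := by ring
          rw [e']
          exact (hMt a (hl a List.mem_cons_self)).mul h'
      obtain ⟨h, h'⟩ := hl l e2
      have hr : (Int.castRingHom Ω r) ∈ B := by
        rw [eq_intCast]
        exact intCast_mem B r
      refine ⟨B.mul_mem hr h, ?_⟩
      have e : (⟨Int.castRingHom Ω r * l.prod, B.mul_mem hr h⟩ : B) = (r : B) * ⟨l.prod, h⟩ := by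
        apply Subtype.ext
        simp
      rw [e, map_mul, map_intCast]
      obtain ⟨j, hj⟩ : ∃ j, n = j + l.length := ⟨n - l.length, by omega⟩
      have e' : ρ M0 ^ n * ((r : F) * π ⟨l.prod, h⟩) =
          ρ M0 ^ j * (r : F) * (ρ M0 ^ l.length * π ⟨l.prod, h⟩) := by
        rw [hj, pow_add]
        ring
      rw [e']
      have i1 : IsIntegral R (ρ M0) := isIntegral_algebraMap (R := R) (A := F)
      have i2 : IsIntegral R ((r : ℤ) : F) := by
        have := isIntegral_algebraMap (R := R) (A := F) (x := (r : R))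
        rwa [map_intCast] at this
      exact ((i1.pow j).mul i2).mul h'
    | zero =>
      refine ⟨B.zero_mem, ?_⟩
      have e : (⟨0, B.zero_mem⟩ : B) = 0 := rfl
      rw [e, map_zero, mul_zero]
      exact isIntegral_zero
    | add a b _ _ ha hb =>
      obtain ⟨ha1, ha2⟩ := ha
      obtain ⟨hb1, hb2⟩ := hb
      refine ⟨B.add_mem ha1 hb1, ?_⟩
      have e : (⟨a + b, B.add_mem ha1 hb1⟩ : B) = ⟨a, ha1⟩ + ⟨b, hb1⟩ := rfl
      rw [e, map_add, mul_add]
      exact ha2.add hb2
    | neg a _ ha =>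
      obtain ⟨ha1, ha2⟩ := ha
      refine ⟨B.neg_mem ha1, ?_⟩
      have e : (⟨-a, B.neg_mem ha1⟩ : B) = -⟨a, ha1⟩ := rfl
      rw [e, map_neg, mul_neg]
      exact ha2.neg
  obtain ⟨hxB, hint⟩ := key _ hxn
  have e1 : (⟨algebraMap E Ω e, hxB⟩ : B) = algebraMap E B e := rfl
  rw [e1, AlgHom.commutes] at hint
  have e2 : ρ M0 ^ n * algebraMap E F e =
      algebraMap E F (algebraMap R E (M0 ^ n) * e) := by
    rw [map_mul, ← hρ, map_pow]
  rw [e2] at hint
  exact (isIntegral_algebraMap_iff (algebraMap E F).injective).mp hint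

private theorem tra_content_pow (g : ℤ[X]) (k : ℕ) : (g ^ k).content = g.content ^ k := by
  induction k with
  | zero => rw [pow_zero, pow_zero, content_one]
  | succ k ih => rw [pow_succ, pow_succ, content_mul, ih]

theorem bc_alg {Ω : Type} [Field Ω] [CharZero Ω] {γ : Ω} {T : Set Ω} (hT : T.Finite) (c H : ℕ)
    (h : ∀ N : ℕ, ∃ q : ℕ, 0 < q ∧ q ≤ H ^ (N + 1) ∧ (q : Ω) * bc γ N ∈ (G T).I (c * (N + 1))) :
    IsAlgebraic ℚ γ := by
  classical
  by_contra hγ
  have hγZ : Transcendental ℤ γ := by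
    intro ha
    exact hγ ((IsFractionRing.isAlgebraic_iff ℤ ℚ Ω).mp ha)
  have hinj : Function.Injective (aeval γ : ℤ[X] →ₐ[ℤ] Ω) :=
    transcendental_iff_injective.mp hγZ
  let φ : FractionRing ℤ[X] →+* Ω :=
    IsFractionRing.lift (A := ℤ[X]) (K := FractionRing ℤ[X]) (g := (aeval γ : ℤ[X] →ₐ[ℤ] Ω).toRingHom) hinj
  have hφ : ∀ p : ℤ[X], φ (algebraMap ℤ[X] (FractionRing ℤ[X]) p) = aeval γ p := fun p =>
    IsFractionRing.lift_algebraMap _ _
  let _ : Algebra (FractionRing ℤ[X]) Ω := φ.toAlgebra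
  obtain ⟨g, hg, hgen⟩ := tra_gen (Ω := Ω) ℤ[X] (FractionRing ℤ[X]) hT
  have hcg : g.content ≠ 0 := by
    rw [Ne, content_eq_zero_iff]
    exact hg
  have hle : ∀ N : ℕ, (N.factorial : ℝ) ≤ ((g.content.natAbs : ℝ) ^ c * H) ^ (N + 1) := by
    intro N
    obtain ⟨q, hq0, hq1, hq2⟩ := h N
    set P : ℤ[X] := ∏ i ∈ Finset.range N, (X - C (i : ℤ)) with hP
    have hPm : P.Monic := monic_prod_of_monic _ _ fun i _ => monic_X_sub_C _
    set e : FractionRing ℤ[X] := algebraMap ℤ[X] (FractionRing ℤ[X]) (C (q : ℤ) * P) /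
      algebraMap ℤ[X] (FractionRing ℤ[X]) (C (N.factorial : ℤ)) with he
    have he1 : algebraMap (FractionRing ℤ[X]) Ω e = (q : Ω) * bc γ N := by
      change φ e = _
      rw [he, map_div₀, hφ, hφ, bc, hP]
      simp [map_prod, mul_div_assoc]
    have h1 := hgen (c * (N + 1)) e (by rw [he1]; exact hq2)
    obtain ⟨z, hz⟩ := IsIntegrallyClosed.isIntegral_iff.mp h1
    have hNf : algebraMap ℤ[X] (FractionRing ℤ[X]) (C (N.factorial : ℤ)) ≠ 0 := by
      rw [Ne, FaithfulSMul.algebraMap_eq_zero_iff, C_eq_zero]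
      exact_mod_cast N.factorial_ne_zero
    have h2 : C (N.factorial : ℤ) * z = g ^ (c * (N + 1)) * (C (q : ℤ) * P) := by
      apply FaithfulSMul.algebraMap_injective ℤ[X] (FractionRing ℤ[X])
      rw [map_mul, hz, he, map_mul _ (g ^ (c * (N + 1)))]
      field_simp
    have h3 := congrArg content h2
    rw [content_C_mul, content_mul, tra_content_pow, content_C_mul, hPm.isPrimitive.content_eq_one] at h3
    have h4 : (N.factorial : ℤ) ∣ g.content ^ (c * (N + 1)) * q := by
      have h5 : (N.factorial : ℤ) ∣ normalize (N.factorial : ℤ) * z.content :=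
        Dvd.dvd.mul_right (by simp) _
      rw [h3] at h5
      have h6 : normalize (q : ℤ) = q := Int.normalize_of_nonneg (by positivity)
      simpa [h6] using h5
    have h5 := Int.le_of_dvd (a := (N.factorial : ℤ)) (b := |g.content ^ (c * (N + 1)) * q|)
      (abs_pos.mpr (mul_ne_zero (pow_ne_zero _ hcg) (by exact_mod_cast hq0.ne')))
      ((dvd_abs _ _).mpr h4)
    have h6 : (N.factorial : ℝ) ≤ |(g.content : ℝ) ^ (c * (N + 1)) * q| := by
      exact_mod_cast h5
    have h7 : (q : ℝ) ≤ (H : ℝ) ^ (N + 1) := by exact_mod_cast hq1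
    have h8 : ((g.content.natAbs : ℕ) : ℝ) = |(g.content : ℝ)| := by
      rw [← Int.cast_abs, Int.abs_eq_natAbs]
      simp
    calc (N.factorial : ℝ) ≤ |(g.content : ℝ) ^ (c * (N + 1)) * q| := h6
      _ = (g.content.natAbs : ℝ) ^ (c * (N + 1)) * q := by
        rw [abs_mul, abs_pow, h8, Nat.abs_cast]
      _ ≤ (g.content.natAbs : ℝ) ^ (c * (N + 1)) * (H : ℝ) ^ (N + 1) :=
        mul_le_mul_of_nonneg_left h7 (by positivity)
      _ = ((g.content.natAbs : ℝ) ^ c * H) ^ (N + 1) := by rw [pow_mul, mul_pow]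
  have ht := (FloorSemiring.tendsto_pow_div_factorial_atTop
    ((g.content.natAbs : ℝ) ^ c * H)).mul_const ((g.content.natAbs : ℝ) ^ c * H)
  rw [zero_mul] at ht
  obtain ⟨N, hN⟩ := (ht.eventually (gt_mem_nhds one_pos)).exists
  have h1 := hle N
  have hf : (0 : ℝ) < N.factorial := by exact_mod_cast N.factorial_pos
  rw [div_mul_eq_mul_div, ← pow_succ, div_lt_one hf] at hN
  linarith

end Pool.Agent.Helper79.GA
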