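import Pool.Agent.Helper79.GA.Bin
import Pool.Agent.Helper79.GA.Fun
import Pool.Agent.Helper79.GA.Tra
import Pool.Agent.Helper79.GA.Inv
import Pool.Agent.Helper37.GP.Lcm

/-!
# GA-07: the operators `∏ χ(X + n)/χ(e + n)` in the basis of binomial polynomials

Let `Ω = AlgebraicClosure k`. Call a family `P_N ∈ Ω[X]` (`N ≥ n₀`) good if there are `T ⊂ Ω` finite, `c`, `H` such that for all `N ≥ n₀` there are
`q ≤ H^(N+1)`, `q > 0`, and `p : ℕ → Ω` with `q p_j ∈ (G T).I (c (N+1))` and `P_N = ∑_{j ≤ c (N+1)} p_j bp_j`.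
1. Products of good families are good (`bp_mul`; enlarge `T`, `c`, `H`; coefficients outside of the range may be taken to be `0`).
2. Every root `γ` of `χ` in `Ω` is algebraic over `ℚ` (`bc_alg`). Choose `n₀` such that `e + n ≠ γ` for all roots and all `n > n₀` (finitely many roots; for each
   root at most one `n`). For a root `γ` the family `R_N = ∏_{n₀<n≤N} (X + n - γ)/(e + n - γ)` is good: by `prod_bp` it is
   `[(N - n₀)!/∏ (e + n - γ)] ∑_j (∑_i z_ji bc γ i) bp_j`, `bc_inv` and the hypothesis `hγ`.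
3. `χ` splits over `Ω`: `χ = ∏_γ (X - γ)` over the multiset of roots (`IsAlgClosed.splits`, `Splits.eq_prod_roots`, `χ` monic), so `χ(X + n) = ∏_γ (X + n - γ)`,
   and with `u = ∏_{n₀<n≤N} χ(e + n)` (nonzero element of `k`) the polynomial `P_N = u⁻¹ ∏ χ(X + n) ∈ k[X]` maps to `∏_γ R_N`: a good family
   (induction on the multiset).
4. `P_N ∈ k[X]` has degree `≤ c (N+1)` so it is `∑ p_j bp_j` with `p_j ∈ k` (a polynomial of degree `≤ d` is a combination of the `bp_l`, `l ≤ d`: `bp_natDegree`, induction); by `bp_unique`,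
   `bp_map` the images of these `p_j` in `Ω` are the coefficients found in 3. So by `desc_gen` (applied to `q p_j`)
   `q p_j ∈ (G T').I (c' (c(N+1) + 1))` with `T' ⊂ k` finite.
5. `P_N(e) = 1`, that is `∑ p_j bc e j = 1`. With `L = lcm(1, …, J)`, `J = c (N+1)` (`L ≤ H₁^(N+1)`: `Pool.Agent.Helper37.GP.Lcm`, see how `CU/Loc.lean` does it),
   `P_N - 1 = ∑ p_j (bp_j - bc e j) = (X - e) ∑_j p_j L⁻¹ ∑_{l<j} z_{j,l} bp_l` by `bp_div`:
   `p'_l = L⁻¹ ∑_j z_{j,l} p_j`. Replace `q` by `q L`.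
(`p`, `p'` may be taken zero outside of the range; enlarge `c` at the end.)
-/

open Polynomial

namespace Pool.Agent.Helper79.GA

open Pool.Agent.Helper79.CU Pool.Agent.Helper79.SE

section ExpAux

variable {F : Type} [Field F] [CharZero F]

/-- Good families of polynomials. -/
private def ExpGood (n₀ : ℕ) (P : ℕ → F[X]) : Prop :=
  ∃ (T : Set F) (c H : ℕ), T.Finite ∧ ∀ N : ℕ, n₀ ≤ N →
    ∃ (q : ℕ) (p : ℕ → F), 0 < q ∧ q ≤ H ^ (N + 1) ∧
      (∀ j, (q : F) * p j ∈ (G T).I (c * (N + 1))) ∧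
      P N = ∑ j ∈ Finset.range (c * (N + 1) + 1), C (p j) * bp F j

omit [CharZero F] in
private theorem Exp_bp_zero : bp F 0 = 1 := by
  simp [bp]

omit [CharZero F] in
private theorem ExpGood.one (n₀ : ℕ) : ExpGood (F := F) n₀ fun _ => 1 := by
  refine ⟨∅, 0, 1, Set.finite_empty, fun N _ => ⟨1, fun j => if j = 0 then 1 else 0, one_pos, ?_,
    fun j => ?_, ?_⟩⟩
  · rw [one_pow]
  · dsimp only
    split_ifs
    · have h1 := G_nat (F := F) (T := ∅) 1 (0 * (N + 1))
      simpa using h1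
    · rw [mul_zero]
      exact AddSubgroup.zero_mem _
  · simp [Exp_bp_zero]

private theorem ExpGood.mul {n₀ : ℕ} {P Q : ℕ → F[X]} (hP : ExpGood n₀ P) (hQ : ExpGood n₀ Q) :
    ExpGood n₀ fun N => P N * Q N := by
  classical
  obtain ⟨T, c, H, hT, h⟩ := hP
  obtain ⟨T', c', H', hT', h'⟩ := hQ
  refine ⟨T ∪ T', c + c', H * H', hT.union hT', fun N hN => ?_⟩
  obtain ⟨q, p, q0, q1, q2, q3⟩ := h N hN
  obtain ⟨q', p', q0', q1', q2', q3'⟩ := h' N hN
  choose z hz using fun i j : ℕ => bp_mul (F := F) i j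
  refine ⟨q * q', fun l => ∑ i ∈ Finset.range (c * (N + 1) + 1),
    ∑ j ∈ Finset.range (c' * (N + 1) + 1),
      if l < i + j + 1 then (z i j l : F) * (p i * p' j) else 0, Nat.mul_pos q0 q0', ?_,
      fun l => ?_, ?_⟩
  · rw [mul_pow]
    exact Nat.mul_le_mul q1 q1'
  · rw [Finset.mul_sum]
    refine AddSubgroup.sum_mem _ fun i _ => ?_
    rw [Finset.mul_sum]
    refine AddSubgroup.sum_mem _ fun j _ => ?_
    split_ifs
    · have e : ((q * q' : ℕ) : F) * ((z i j l : F) * (p i * p' j)) =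
          (z i j l : F) * (((q : F) * p i) * ((q' : F) * p' j)) := by
        push_cast
        ring
      rw [e]
      refine G_int_mul ?_ _
      have := (G (T ∪ T')).mul (G_mono Set.subset_union_left le_rfl (q2 i))
        (G_mono Set.subset_union_right le_rfl (q2' j))
      rwa [← add_mul] at this
    · rw [mul_zero]
      exact AddSubgroup.zero_mem _
  · change P N * Q N = _
    rw [q3, q3', Finset.sum_mul_sum]
    have e1 : ∀ i ∈ Finset.range (c * (N + 1) + 1), ∀ j ∈ Finset.range (c' * (N + 1) + 1),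
        C (p i) * bp F i * (C (p' j) * bp F j) =
          ∑ l ∈ Finset.range ((c + c') * (N + 1) + 1),
            C (if l < i + j + 1 then (z i j l : F) * (p i * p' j) else 0) * bp F l := by
      intro i hi j hj
      have e2 : C (p i) * bp F i * (C (p' j) * bp F j) =
          C (p i) * C (p' j) * (bp F i * bp F j) := by ring
      rw [e2, hz i j, Finset.mul_sum]
      have hsub : Finset.range (i + j + 1) ⊆ Finset.range ((c + c') * (N + 1) + 1) := by
        intro l hl
        rw [Finset.mem_range] at *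
        rw [add_mul]
        omega
      rw [← Finset.sum_subset hsub (fun l _ hl => ?_)]
      · refine Finset.sum_congr rfl fun l hl => ?_
        rw [if_pos (Finset.mem_range.1 hl), C_mul, C_mul]
        ring
      · rw [if_neg (fun h => hl (Finset.mem_range.2 h)), C_0, zero_mul]
    rw [Finset.sum_congr rfl fun i hi => Finset.sum_congr rfl fun j hj => e1 i hi j hj]
    rw [Finset.sum_congr rfl fun i _ => Finset.sum_comm, Finset.sum_comm]
    refine Finset.sum_congr rfl fun l _ => ?_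
    rw [map_sum, Finset.sum_mul]
    refine Finset.sum_congr rfl fun i _ => ?_
    rw [map_sum, Finset.sum_mul]

private theorem ExpGood.mprod {n₀ : ℕ} (R : F → ℕ → F[X]) (m : Multiset F)
    (h : ∀ γ ∈ m, ExpGood n₀ (R γ)) : ExpGood n₀ fun N => (m.map fun γ => R γ N).prod := by
  induction m using Multiset.induction_on with
  | empty => simpa using ExpGood.one n₀
  | cons a m ih =>
    simp only [Multiset.map_cons, Multiset.prod_cons]
    exact ExpGood.mul (h a (Multiset.mem_cons_self a m))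
      (ih fun γ hγ => h γ (Multiset.mem_cons_of_mem hγ))

private theorem Exp_root {γ : F} (hγ : IsAlgebraic ℚ γ)
    (h : GmS fun m (_ : Unit) => bc γ m) (e : ℤ) {n₀ : ℕ}
    (hn : ∀ n : ℕ, n₀ < n → (e : F) + (n : F) ≠ γ) :
    ExpGood n₀ fun N => ∏ n ∈ Finset.Ioc n₀ N,
      (C (((e : F) + (n : F) - γ)⁻¹) * (X + C ((n : F) - γ))) := by
  classical
  obtain ⟨T₁, c₁, H₁, hT₁, h₁⟩ := bc_inv hγ h e hn
  obtain ⟨T₂, c₂, H₂, hT₂, h₂⟩ := h
  refine ⟨T₁ ∪ T₂, c₁ + c₂ + 1, H₁ * H₂, hT₁.union hT₂, fun N hN => ?_⟩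
  obtain ⟨q, q0, q1, q2⟩ := h₁ N hN
  obtain ⟨q', q0', q1', q2'⟩ := h₂ N
  obtain ⟨z, hz⟩ := prod_bp γ hN
  set w : F := (((N - n₀).factorial : ℕ) : F) /
        ∏ n ∈ Finset.Ioc n₀ N, ((e : F) + (n : F) - γ) with hw
  refine ⟨q * q', fun j => if j < N + 1 then
      w * ∑ i ∈ Finset.range (N + 1), (z j i : F) * bc γ i else 0, Nat.mul_pos q0 q0', ?_,
      fun j => ?_, ?_⟩
  · rw [mul_pow]
    exact Nat.mul_le_mul q1 q1'
  · dsimp only
    split_ifs
    · have e1 : ((q * q' : ℕ) : F) * (w * ∑ i ∈ Finset.range (N + 1), (z j i : F) * bc γ i) =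
          ((q : F) * w) * ∑ i ∈ Finset.range (N + 1), (z j i : F) * ((q' : F) * bc γ i) := by
        rw [Nat.cast_mul]
        have e2 : ∑ i ∈ Finset.range (N + 1), (z j i : F) * ((q' : F) * bc γ i) =
            (q' : F) * ∑ i ∈ Finset.range (N + 1), (z j i : F) * bc γ i := by
          rw [Finset.mul_sum]
          refine Finset.sum_congr rfl fun i _ => by ring
        rw [e2]
        ring
      rw [e1]
      have e3 : ∑ i ∈ Finset.range (N + 1), (z j i : F) * ((q' : F) * bc γ i) ∈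
          (G (T₁ ∪ T₂)).I (c₂ * (N + 1)) := by
        refine AddSubgroup.sum_mem _ fun i hi => G_int_mul ?_ _
        exact G_mono Set.subset_union_right le_rfl
          (q2' i (Nat.lt_succ_iff.1 (Finset.mem_range.1 hi)) ())
      have := (G (T₁ ∪ T₂)).mul (G_mono Set.subset_union_left le_rfl q2) e3
      refine (G (T₁ ∪ T₂)).mono ?_ this
      rw [← add_mul]
      exact Nat.mul_le_mul_right _ (Nat.le_succ _)
    · rw [mul_zero]
      exact AddSubgroup.zero_mem _
  · change ∏ n ∈ Finset.Ioc n₀ N, (C (((e : F) + (n : F) - γ)⁻¹) * (X + C ((n : F) - γ))) = _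
    rw [Finset.prod_mul_distrib, hz, ← map_prod, Finset.prod_inv_distrib, ← mul_assoc, ← C_mul]
    have e1 : (∏ n ∈ Finset.Ioc n₀ N, ((e : F) + (n : F) - γ))⁻¹ *
        (((N - n₀).factorial : ℕ) : F) = w := by
      rw [hw]
      field_simp
    rw [e1]
    have hsub : Finset.range (N + 1) ⊆ Finset.range ((c₁ + c₂ + 1) * (N + 1) + 1) := by
      intro l hl
      rw [Finset.mem_range] at *
      have : N + 1 ≤ (c₁ + c₂ + 1) * (N + 1) := Nat.le_mul_of_pos_left _ (Nat.succ_pos _)
      omega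
    rw [← Finset.sum_subset hsub (fun l _ hl => ?_), Finset.mul_sum]
    · refine Finset.sum_congr rfl fun l hl => ?_
      dsimp only
      rw [if_pos (Finset.mem_range.1 hl), C_mul]
      ring
    · dsimp only
      rw [if_neg (fun h => hl (Finset.mem_range.2 h)), C_0, zero_mul]

private theorem Exp_ne (e : ℤ) (m : Multiset F) :
    ∃ n₀ : ℕ, ∀ γ ∈ m, ∀ n : ℕ, n₀ < n → (e : F) + (n : F) ≠ γ := by
  induction m using Multiset.induction_on with
  | empty => exact ⟨0, fun γ hγ => absurd hγ (Multiset.notMem_zero γ)⟩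
  | cons a m ih =>
    obtain ⟨n₀, h⟩ := ih
    by_cases ha : ∃ n : ℕ, (e : F) + (n : F) = a
    · obtain ⟨n₁, h₁⟩ := ha
      refine ⟨max n₀ n₁, fun γ hγ n hn => ?_⟩
      rcases Multiset.mem_cons.1 hγ with rfl | hγ
      · intro h2
        rw [← h₁] at h2
        have h3 := Nat.cast_injective (R := F) (add_left_cancel h2)
        have := le_max_right n₀ n₁
        omega
      · exact h γ hγ n (lt_of_le_of_lt (le_max_left _ _) hn)
    · refine ⟨n₀, fun γ hγ n hn => ?_⟩
      rcases Multiset.mem_cons.1 hγ with rfl | hγ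
      · exact fun h2 => ha ⟨n, h2⟩
      · exact h γ hγ n hn

private theorem Exp_comb (d : ℕ) : ∀ P : F[X], P.natDegree ≤ d →
    ∃ a : ℕ → F, P = ∑ l ∈ Finset.range (d + 1), C (a l) * bp F l := by
  classical
  have hlead : ∀ j, (bp F j).coeff j ≠ 0 := by
    intro j h
    have h1 : (bp F j).leadingCoeff = 0 := by rw [leadingCoeff, bp_natDegree, h]
    rw [leadingCoeff_eq_zero] at h1
    have h2 := bp_natDegree (F := F) j
    rw [h1, natDegree_zero] at h2
    subst h2
    rw [Exp_bp_zero] at h1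
    exact one_ne_zero h1
  induction d with
  | zero =>
    intro P hP
    refine ⟨fun _ => P.coeff 0, ?_⟩
    rw [Finset.sum_range_one, Exp_bp_zero, mul_one]
    exact eq_C_of_natDegree_le_zero hP
  | succ d ih =>
    intro P hP
    set t : F := P.coeff (d + 1) / (bp F (d + 1)).coeff (d + 1) with ht
    have h1 : (P - C t * bp F (d + 1)).natDegree ≤ d := by
      rw [natDegree_le_iff_coeff_eq_zero]
      intro n hn
      rcases eq_or_lt_of_le (Nat.succ_le_of_lt hn) with h2 | h2
      · rw [← h2, coeff_sub, coeff_C_mul, ht, Nat.succ_eq_add_one, div_mul_cancel₀ _ (hlead _),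
          sub_self]
      · rw [coeff_sub, coeff_C_mul, coeff_eq_zero_of_natDegree_lt (lt_of_le_of_lt hP h2),
          coeff_eq_zero_of_natDegree_lt (by rw [bp_natDegree]; exact h2), mul_zero, sub_zero]
    obtain ⟨a, ha⟩ := ih _ h1
    refine ⟨fun l => if l = d + 1 then t else a l, ?_⟩
    rw [Finset.sum_range_succ]
    have h3 : ∑ l ∈ Finset.range (d + 1), C (if l = d + 1 then t else a l) * bp F l =
        ∑ l ∈ Finset.range (d + 1), C (a l) * bp F l := by
      refine Finset.sum_congr rfl fun l hl => ?_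
      have := Finset.mem_range.1 hl
      rw [if_neg (by omega)]
    have h4 : (fun l => if l = d + 1 then t else a l) (d + 1) = t := if_pos rfl
    rw [h3, ← ha, h4]
    ring

end ExpAux

theorem exp_poly {k : Type} [Field k] [CharZero k] {χ : k[X]} (hχ : χ.Monic)
    (hγ : ∀ γ : AlgebraicClosure k, aeval γ χ = 0 → GmS fun m (_ : Unit) => bc γ m) (e : ℤ) :
    ∃ (n₀ : ℕ) (T : Set k) (c H : ℕ), T.Finite ∧ ∀ N : ℕ, n₀ ≤ N →
      ∃ (q : ℕ) (u : k) (p p' : ℕ → k), 0 < q ∧ q ≤ H ^ (N + 1) ∧ u ≠ 0 ∧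
        (∀ j, (q : k) * p j ∈ (G T).I (c * (N + 1))) ∧
        (∀ j, (q : k) * p' j ∈ (G T).I (c * (N + 1))) ∧
        (∏ n ∈ Finset.Ioc n₀ N, χ.comp (X + C (n : k))) =
          C u * ∑ j ∈ Finset.range (c * (N + 1) + 1), C (p j) * bp k j ∧
        (∑ j ∈ Finset.range (c * (N + 1) + 1), C (p j) * bp k j) =
          1 + (X - C (e : k)) * ∑ j ∈ Finset.range (c * (N + 1) + 1), C (p' j) * bp k j := by
  classical
  have hγ' := hγ
  set Ω := AlgebraicClosure k with hΩ
  set m : Multiset Ω := χ.aroots Ω with hm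
  have hroot : ∀ γ ∈ m, aeval γ χ = 0 := fun γ hγ => (mem_aroots.1 hγ).2
  have hmap : χ.map (algebraMap k Ω) = (m.map fun γ => X - C γ).prod := by
    have h1 := (IsAlgClosed.splits (χ.map (algebraMap k Ω))).eq_prod_roots_of_monic
      (hχ.map (algebraMap k Ω))
    exact h1
  obtain ⟨n₀, hn₀⟩ := Exp_ne e m
  have hgood : ExpGood n₀ fun N => (m.map fun γ => ∏ n ∈ Finset.Ioc n₀ N,
      (C (((e : Ω) + (n : Ω) - γ)⁻¹) * (X + C ((n : Ω) - γ)))).prod := by
    refine ExpGood.mprod (fun γ N => ∏ n ∈ Finset.Ioc n₀ N,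
      (C (((e : Ω) + (n : Ω) - γ)⁻¹) * (X + C ((n : Ω) - γ)))) m fun γ hγ => ?_
    have h1 := hγ' γ (hroot γ hγ)
    have h2 : IsAlgebraic ℚ γ := by
      obtain ⟨T, c, H, hT, h⟩ := h1
      refine bc_alg hT c H fun N => ?_
      obtain ⟨q, q0, q1, q2⟩ := h N
      exact ⟨q, q0, q1, q2 N le_rfl ()⟩
    exact Exp_root h2 h1 e (hn₀ γ hγ)
  obtain ⟨T, c, H, hT, h⟩ := hgood
  obtain ⟨T', c', hT', hd⟩ := desc_gen (F := k) (L := Ω) hT
  refine ⟨n₀, T', c + c' * (c + 1), H * 4 ^ (4 * c), hT', fun N hN => ?_⟩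
  obtain ⟨q, p, q0, q1, q2, q3⟩ := h N hN
  set J := c * (N + 1) with hJ
  set u : k := ∏ n ∈ Finset.Ioc n₀ N, χ.eval ((e : k) + (n : k)) with hu
  have hevn : ∀ n ∈ Finset.Ioc n₀ N, algebraMap k Ω (χ.eval ((e : k) + (n : k))) =
      (m.map fun γ => ((e : Ω) + (n : Ω) - γ)).prod := by
    intro n _
    have h1 : algebraMap k Ω (χ.eval ((e : k) + (n : k))) =
        (χ.map (algebraMap k Ω)).eval ((e : Ω) + (n : Ω)) := by
      rw [eval_map, ← eval₂_hom]
      rw [map_add, map_intCast, map_natCast]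
    rw [h1, hmap, eval_multiset_prod, Multiset.map_map]
    simp
  have hu' : algebraMap k Ω u = (m.map fun γ => ∏ n ∈ Finset.Ioc n₀ N,
      ((e : Ω) + (n : Ω) - γ)).prod := by
    rw [hu, map_prod, Finset.prod_congr rfl hevn]
    exact (Multiset.prod_map_prod).symm
  have hu0 : u ≠ 0 := by
    intro h0
    rw [h0, map_zero] at hu'
    have h1 := Multiset.prod_eq_zero_iff.1 hu'.symm
    obtain ⟨γ, hγ, h2⟩ := Multiset.mem_map.1 h1
    obtain ⟨n, hn, h3⟩ := Finset.prod_eq_zero_iff.1 h2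
    exact hn₀ γ hγ n (Finset.mem_Ioc.1 hn).1 (sub_eq_zero.1 h3)
  set Pr : k[X] := ∏ n ∈ Finset.Ioc n₀ N, χ.comp (X + C (n : k)) with hPr
  have hPrmap : Pr.map (algebraMap k Ω) = (m.map fun γ => ∏ n ∈ Finset.Ioc n₀ N,
      (X + C ((n : Ω) - γ))).prod := by
    rw [hPr, Polynomial.map_prod]
    have h1 : ∀ n ∈ Finset.Ioc n₀ N, (χ.comp (X + C (n : k))).map (algebraMap k Ω) =
        (m.map fun γ => (X + C ((n : Ω) - γ))).prod := by
      intro n _
      rw [Polynomial.map_comp, hmap, multiset_prod_comp, Multiset.map_map]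
      refine congrArg Multiset.prod (Multiset.map_congr rfl fun γ _ => ?_)
      simp only [Function.comp_apply, sub_comp, X_comp, C_comp, Polynomial.map_add, map_X, map_C,
        C_sub]
      rw [map_natCast (algebraMap k Ω)]
      ring
    rw [Finset.prod_congr rfl h1]
    exact (Multiset.prod_map_prod).symm
  set P : k[X] := C u⁻¹ * Pr with hP
  have hPmap : P.map (algebraMap k Ω) = ∑ j ∈ Finset.range (J + 1), C (p j) * bp Ω j := by
    rw [← q3, hP, Polynomial.map_mul, map_C, hPrmap, map_inv₀, hu', ← Multiset.prod_map_inv',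
      Multiset.map_map]
    have h1 : C ((Multiset.map (Inv.inv ∘ fun γ => ∏ n ∈ Finset.Ioc n₀ N,
        ((e : Ω) + (n : Ω) - γ)) m).prod) = (m.map fun γ => C ((∏ n ∈ Finset.Ioc n₀ N,
        ((e : Ω) + (n : Ω) - γ))⁻¹)).prod := by
      rw [map_multiset_prod, Multiset.map_map]
      rfl
    rw [h1, ← Multiset.prod_map_mul]
    refine congrArg Multiset.prod (Multiset.map_congr rfl fun γ _ => ?_)
    rw [Finset.prod_mul_distrib, ← map_prod, Finset.prod_inv_distrib]
  have hPdeg : P.natDegree ≤ J := by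
    rw [← natDegree_map_eq_of_injective (algebraMap k Ω).injective, hPmap]
    refine natDegree_sum_le_of_forall_le _ _ fun j hj => ?_
    refine (natDegree_C_mul_le _ _).trans ?_
    rw [bp_natDegree]
    exact Nat.lt_succ_iff.1 (Finset.mem_range.1 hj)
  obtain ⟨a, ha⟩ := Exp_comb J P hPdeg
  have hap : ∀ j < J + 1, algebraMap k Ω (a j) = p j := by
    have h1 : ∑ j ∈ Finset.range (J + 1), C (algebraMap k Ω (a j)) * bp Ω j =
        ∑ j ∈ Finset.range (J + 1), C (p j) * bp Ω j := by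
      rw [← hPmap]
      conv_rhs => rw [ha]
      rw [Polynomial.map_sum]
      refine Finset.sum_congr rfl fun j _ => ?_
      rw [Polynomial.map_mul, map_C, bp_map]
    exact bp_unique h1
  have hc1 : c' * (J + 1) ≤ (c + c' * (c + 1)) * (N + 1) := by
    rw [hJ]
    have h1 : c * (N + 1) + 1 ≤ (c + 1) * (N + 1) := by rw [add_mul]; omega
    calc c' * (c * (N + 1) + 1) ≤ c' * ((c + 1) * (N + 1)) := Nat.mul_le_mul_left _ h1
      _ = (c' * (c + 1)) * (N + 1) := by ring
      _ ≤ (c + c' * (c + 1)) * (N + 1) := Nat.mul_le_mul_right _ (Nat.le_add_left _ _)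
  have haI : ∀ j < J + 1, (q : k) * a j ∈ (G T').I ((c + c' * (c + 1)) * (N + 1)) := by
    intro j hj
    have h1 : algebraMap k Ω ((q : k) * a j) ∈ (G T).I J := by
      rw [map_mul, map_natCast, hap j hj]
      exact q2 j
    exact (G T').mono hc1 (hd J _ h1)
  have hJle : J + 1 ≤ (c + c' * (c + 1)) * (N + 1) + 1 := by
    have : J ≤ (c + c' * (c + 1)) * (N + 1) := by
      rw [hJ]
      exact Nat.mul_le_mul_right _ (Nat.le_add_right _ _)
    omega
  obtain ⟨L, L0, L1, L2⟩ := Pool.Agent.Helper37.GP.exists_den J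
  choose z hz using fun j : ℕ => fun hj : j < J + 1 => bp_div (F := k) e j
    (L := L) fun i h1 h2 => L2 i h1 (by omega)
  have hsubJ : Finset.range (J + 1) ⊆ Finset.range ((c + c' * (c + 1)) * (N + 1) + 1) :=
    Finset.range_subset_range.2 hJle
  have hsum : ∑ j ∈ Finset.range ((c + c' * (c + 1)) * (N + 1) + 1),
      C (if j < J + 1 then a j else 0) * bp k j = P := by
    rw [← Finset.sum_subset hsubJ (fun l _ hl => ?_), ha]
    · refine Finset.sum_congr rfl fun l hl => ?_
      rw [if_pos (Finset.mem_range.1 hl)]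
    · rw [if_neg (fun h => hl (Finset.mem_range.2 h)), C_0, zero_mul]
  have hL0 : (L : k) ≠ 0 := Nat.cast_ne_zero.2 L0.ne'
  refine ⟨q * L, u, fun j => if j < J + 1 then a j else 0,
    fun l => (L : k)⁻¹ * ∑ j ∈ (Finset.range (J + 1)).attach, if l < j.1 then
      (z j.1 (Finset.mem_range.1 j.2) l : k) * a j.1 else 0, Nat.mul_pos q0 L0, ?_, hu0,
      fun j => ?_, fun l => ?_, ?_, ?_⟩
  · rw [mul_pow, ← pow_mul]
    refine Nat.mul_le_mul q1 (L1.trans (le_of_eq ?_))
    rw [hJ]
    ring_nf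
  · change ((q * L : ℕ) : k) * (if j < J + 1 then a j else 0) ∈ _
    split_ifs with hj
    · have e1 : ((q * L : ℕ) : k) * a j = (L : k) * ((q : k) * a j) := by
        push_cast
        ring
      rw [e1]
      exact G_nat_mul (haI j hj) _
    · rw [mul_zero]
      exact AddSubgroup.zero_mem _
  · have e1 : ((q * L : ℕ) : k) * ((L : k)⁻¹ * ∑ j ∈ (Finset.range (J + 1)).attach,
        if l < j.1 then (z j.1 (Finset.mem_range.1 j.2) l : k) * a j.1 else 0) =
        ∑ j ∈ (Finset.range (J + 1)).attach, if l < j.1 then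
          (z j.1 (Finset.mem_range.1 j.2) l : k) * ((q : k) * a j.1) else 0 := by
      rw [Nat.cast_mul, ← mul_assoc, mul_assoc (q : k), mul_inv_cancel₀ hL0, mul_one,
        Finset.mul_sum]
      refine Finset.sum_congr rfl fun j _ => ?_
      split_ifs
      · ring
      · rw [mul_zero]
    rw [e1]
    refine AddSubgroup.sum_mem _ fun j _ => ?_
    split_ifs
    · exact G_int_mul (haI j.1 (Finset.mem_range.1 j.2)) _
    · exact AddSubgroup.zero_mem _
  · rw [hsum, hP, ← mul_assoc, ← C_mul, mul_inv_cancel₀ hu0, C_1, one_mul]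
  · rw [hsum]
    have hev : P.eval (e : k) = 1 := by
      rw [hP, eval_mul, eval_C, hPr, eval_prod]
      have h1 : ∏ n ∈ Finset.Ioc n₀ N, (χ.comp (X + C (n : k))).eval (e : k) = u := by
        rw [hu]
        refine Finset.prod_congr rfl fun n _ => ?_
        rw [eval_comp, eval_add, eval_X, eval_C]
      rw [h1, inv_mul_cancel₀ hu0]
    have h1 : (1 : k[X]) = ∑ j ∈ Finset.range (J + 1), C (a j) * C (bc (e : k) j) := by
      have h2 : P.eval (e : k) = ∑ j ∈ Finset.range (J + 1), a j * bc (e : k) j := by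
        conv_lhs => rw [ha]
        rw [eval_finsetSum]
        refine Finset.sum_congr rfl fun j _ => ?_
        rw [eval_mul, eval_C, bp_eval]
      rw [hev] at h2
      have h3 := congrArg (C : k → k[X]) h2
      rw [C_1, map_sum] at h3
      rw [h3]
      refine Finset.sum_congr rfl fun j _ => ?_
      rw [C_mul]
    rw [← sub_eq_iff_eq_add']
    have h2 : P - 1 = ∑ j ∈ (Finset.range (J + 1)).attach,
        C (a j.1) * (bp k j.1 - C (bc (e : k) j.1)) := by
      rw [Finset.sum_attach (Finset.range (J + 1))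
        (fun j => C (a j) * (bp k j - C (bc (e : k) j)))]
      rw [h1]
      conv_lhs => rw [ha]
      rw [← Finset.sum_sub_distrib]
      refine Finset.sum_congr rfl fun j _ => ?_
      rw [mul_sub]
    rw [h2]
    have h4 : ∀ j ∈ (Finset.range (J + 1)).attach, C (a j.1) * (bp k j.1 - C (bc (e : k) j.1)) =
        (X - C (e : k)) * ∑ l ∈ Finset.range ((c + c' * (c + 1)) * (N + 1) + 1),
          C ((L : k)⁻¹ * if l < j.1 then (z j.1 (Finset.mem_range.1 j.2) l : k) * a j.1 else 0) *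
            bp k l := by
      intro j _
      have hj := Finset.mem_range.1 j.2
      have hsub : Finset.range j.1 ⊆ Finset.range ((c + c' * (c + 1)) * (N + 1) + 1) :=
        Finset.range_subset_range.2 (by omega)
      rw [← Finset.sum_subset hsub (fun l _ hl => ?_)]
      · have h5 := hz j.1 hj
        have h6 : bp k j.1 - C (bc (e : k) j.1) = C ((L : k)⁻¹) * ((X - C (e : k)) *
            ∑ l ∈ Finset.range j.1, C (z j.1 hj l : k) * bp k l) := by
          rw [← h5, ← mul_assoc, ← C_mul, inv_mul_cancel₀ hL0, C_1, one_mul]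
        rw [h6]
        have h7 : ∑ l ∈ Finset.range j.1, C ((L : k)⁻¹ * if l < j.1 then
            (z j.1 (Finset.mem_range.1 j.2) l : k) * a j.1 else 0) * bp k l =
            C ((L : k)⁻¹) * (C (a j.1) * ∑ l ∈ Finset.range j.1, C (z j.1 hj l : k) * bp k l) := by
          rw [Finset.mul_sum, Finset.mul_sum]
          refine Finset.sum_congr rfl fun l hl => ?_
          rw [if_pos (Finset.mem_range.1 hl), C_mul, C_mul]
          ring
        rw [h7]
        ring
      · rw [if_neg (fun h => hl (Finset.mem_range.2 h)), mul_zero, C_0, zero_mul]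
    rw [Finset.sum_congr rfl h4, ← Finset.mul_sum, Finset.sum_comm]
    congr 1
    refine Finset.sum_congr rfl fun l _ => ?_
    rw [← Finset.sum_mul]
    dsimp only
    rw [Finset.mul_sum, map_sum]

end Pool.Agent.Helper79.GA
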