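import Pool.Agent.Helper79.GA.TowDefs
import Pool.Agent.Helper79.GA.Basic

/-!
# GA-22: the tower of the fields `κ(x_0, …, x_i)`

`K_i = IntermediateField.adjoin κ {x_j | j ≤ i} ⊂ L` (or `Subfield`s). `D_j` maps `K_i` to itself for all `j` (the set of the `f ∈ K_i` with `D_j f ∈ K_i` is a subfield containing `κ` and the `x_l`, `l ≤ i`), so it restricts to a derivation
`D_j^{(i)}` of `K_i` (over `κ`, `Derivation.restrictScalars ℚ`). `k₀ = K_0`, `t = x_0`, `D₀ = D_0^{(0)}`, `K = K_d`, `DK j = D_j^{(d)}`.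
* `RatX κ t D₀`: `x_0` is transcendental over `κ`, and `IntermediateField.mem_adjoin_simple_iff` (elements of `κ(x_0)` are quotients of polynomials in `x_0`).
* `IsTower D₀ i K_i …` for all `i ≤ d` by induction on `i`: `K_{i+1}` as an extension of `K_i` (inclusion, `IntermediateField.inclusion`/`extendScalars`) is `K_i(x_{i+1})`: `x_{i+1}` is transcendental over `K_i` (`hx`: algebraic independence; e.g.
  `AlgebraicIndependent` lemmas about `Option`/`Fin.snoc`, `transcendental` over the adjoin of the others, from `algebraicIndependent_iff`), every element is a quotient of polynomials in `x_{i+1}` over `K_i`, `D_{i+1}` is zero on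
  `K_i` and `D_{i+1} x_{i+1} = 1`; the `D_j`, `j ≤ i`, extend `D_j^{(i)}` and kill `x_{i+1}`.
* It is convenient to prove first a statement by induction for arbitrary subfields, e.g.: for every `i ≤ d` there are `K, …` as in the conclusion with `algebraMap K L` of range `κ(x_j, j ≤ i)`.
  The dependent types are avoided by working with types `↥(IntermediateField.adjoin κ (x '' {j | j ≤ i}))`.
-/

open Polynomial

namespace Pool.Agent.Helper79.GA

open Pool.Agent.Helper79.CU Pool.Agent.Helper79.SE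

section TowEx

/-- Restriction of a derivation to a subfield, given by an embedding. -/
noncomputable def TowEx_res {K L : Type} [Field K] [CharZero K] [Field L] (φ : K →+* L)
    (δ : L → L) (h0 : ∀ a b, δ (a + b) = δ a + δ b) (h1 : ∀ a b, δ (a * b) = a * δ b + b * δ a)
    (h : ∀ f, ∃ g, δ (φ f) = φ g) : Derivation ℚ K K :=
  Derivation.mk' (AddMonoidHom.toRatLinearMap (AddMonoidHom.mk' (fun f => (h f).choose) (by
    intro a b
    apply φ.injective
    rw [← (h (a + b)).choose_spec, map_add, h0, map_add, ← (h a).choose_spec,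
      ← (h b).choose_spec]))) (by
    intro a b
    apply φ.injective
    simp only [AddMonoidHom.coe_toRatLinearMap, AddMonoidHom.mk'_apply, smul_eq_mul]
    rw [← (h (a * b)).choose_spec, map_mul, h1, map_add, map_mul, map_mul, ← (h a).choose_spec,
      ← (h b).choose_spec])

theorem TowEx_res_spec {K L : Type} [Field K] [CharZero K] [Field L] (φ : K →+* L)
    (δ : L → L) (h0 : ∀ a b, δ (a + b) = δ a + δ b) (h1 : ∀ a b, δ (a * b) = a * δ b + b * δ a)
    (h : ∀ f, ∃ g, δ (φ f) = φ g) (f : K) : φ (TowEx_res φ δ h0 h1 h f) = δ (φ f) :=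
  ((h f).choose_spec).symm

theorem TowEx_rat {k K L : Type} [Field k] [Field K] [CharZero K] [Field L] [Algebra k K]
    [Algebra k L] [Algebra K L] [IsScalarTower k K L] (x : K) (D : Derivation ℚ K K)
    (htr : Transcendental k (algebraMap K L x))
    (hq : ∀ f : K, algebraMap K L f ∈ IntermediateField.adjoin k {algebraMap K L x})
    (hc : ∀ c, D (algebraMap k K c) = 0) (hd : D x = 1) : RatX k x D := by
  refine ⟨(transcendental_algebraMap_iff (FaithfulSMul.algebraMap_injective K L)).mp htr,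
    fun f => ?_, hc, hd⟩
  obtain ⟨r, s, hrs⟩ := (IntermediateField.mem_adjoin_simple_iff k _).mp (hq f)
  rw [Polynomial.aeval_algebraMap_apply, Polynomial.aeval_algebraMap_apply, ← map_div₀] at hrs
  have hrs' := FaithfulSMul.algebraMap_injective K L hrs
  by_cases hs : aeval x s = 0
  · refine ⟨0, 1, ?_, ?_⟩
    · rw [map_one]
      exact one_ne_zero
    · rw [hrs', hs, div_zero, map_zero, zero_div]
  · exact ⟨r, s, hs, hrs'⟩

variable {κ L : Type} [Field κ] [CharZero κ] [Field L] [CharZero L] [Algebra κ L] {d : ℕ}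

/-- The field `κ(x_0, …, x_i)`. -/
noncomputable abbrev TowEx_K (κ : Type) {L : Type} [Field κ] [Field L] [Algebra κ L] {d : ℕ}
    (x : Fin (d + 1) → L) (i : ℕ) : IntermediateField κ L :=
  IntermediateField.adjoin κ (x '' {j | (j : ℕ) ≤ i})

omit [CharZero κ] [CharZero L] in
theorem TowEx_mono (x : Fin (d + 1) → L) {i i' : ℕ} (h : i ≤ i') :
    TowEx_K κ x i ≤ TowEx_K κ x i' :=
  IntermediateField.adjoin.mono _ _ _ (Set.image_mono fun _ hj => le_trans hj h)

omit [CharZero κ] [CharZero L] in
theorem TowEx_x (x : Fin (d + 1) → L) {i : ℕ} {j : Fin (d + 1)} (h : (j : ℕ) ≤ i) :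
    x j ∈ TowEx_K κ x i :=
  IntermediateField.subset_adjoin _ _ ⟨j, h, rfl⟩

omit [CharZero κ] [CharZero L] in
theorem TowEx_mem {x : Fin (d + 1) → L} {D : Fin (d + 1) → Derivation κ L L}
    (hD : ∀ i j, D i (x j) = if i = j then 1 else 0) (j : Fin (d + 1)) (i : ℕ) :
    ∀ f ∈ TowEx_K κ x i, D j f ∈ TowEx_K κ x i := by
  intro f hf
  refine IntermediateField.adjoin_induction κ (p := fun y _ => D j y ∈ TowEx_K κ x i)
    ?_ ?_ ?_ ?_ ?_ hf
  · rintro _ ⟨l, _, rfl⟩
    rw [hD]
    split_ifs
    · exact one_mem _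
    · exact zero_mem _
  · intro c
    rw [Derivation.map_algebraMap]
    exact zero_mem _
  · intro a b _ _ ha hb
    rw [map_add]
    exact add_mem ha hb
  · intro a ha' ha
    rw [Derivation.leibniz_inv, smul_eq_mul]
    exact mul_mem (neg_mem (pow_mem (inv_mem ha') 2)) ha
  · intro a b ha' hb' ha hb
    rw [Derivation.leibniz, smul_eq_mul, smul_eq_mul]
    exact add_mem (mul_mem ha' hb) (mul_mem hb' ha)

omit [CharZero κ] [CharZero L] in
theorem TowEx_zero {x : Fin (d + 1) → L} {D : Fin (d + 1) → Derivation κ L L}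
    (hD : ∀ i j, D i (x j) = if i = j then 1 else 0) (j : Fin (d + 1)) (i : ℕ)
    (hij : i < (j : ℕ)) : ∀ f ∈ TowEx_K κ x i, D j f = 0 := by
  intro f hf
  refine IntermediateField.adjoin_induction κ (p := fun y _ => D j y = 0) ?_ ?_ ?_ ?_ ?_ hf
  · rintro _ ⟨l, hl, rfl⟩
    rw [hD, if_neg]
    rintro rfl
    exact absurd hl (not_le.mpr hij)
  · intro c
    rw [Derivation.map_algebraMap]
  · intro a b _ _ ha hb
    rw [map_add, ha, hb, add_zero]
  · intro a _ ha
    rw [Derivation.leibniz_inv, ha, smul_zero]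
  · intro a b _ _ ha hb
    rw [Derivation.leibniz, ha, hb, smul_zero, smul_zero, add_zero]

/-- The restriction of `D_j` to `κ(x_0, …, x_i)`. -/
noncomputable def TowEx_D {x : Fin (d + 1) → L} {D : Fin (d + 1) → Derivation κ L L}
    (hD : ∀ i j, D i (x j) = if i = j then 1 else 0) (i : ℕ) (j : Fin (d + 1)) :=
  TowEx_res (TowEx_K κ x i).val.toRingHom (D j) (fun a b => map_add _ a b)
    (fun a b => by rw [Derivation.leibniz, smul_eq_mul, smul_eq_mul])
    (fun f => ⟨⟨D j f, TowEx_mem hD j i f f.2⟩, rfl⟩)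

theorem TowEx_D_spec {x : Fin (d + 1) → L} {D : Fin (d + 1) → Derivation κ L L}
    (hD : ∀ i j, D i (x j) = if i = j then 1 else 0) (i : ℕ) (j : Fin (d + 1))
    (f : TowEx_K κ x i) : ((TowEx_D hD i j f : TowEx_K κ x i) : L) = D j f :=
  TowEx_res_spec (TowEx_K κ x i).val.toRingHom (D j) (fun a b => map_add _ a b)
    (fun a b => by rw [Derivation.leibniz, smul_eq_mul, smul_eq_mul])
    (fun f => ⟨⟨D j f, TowEx_mem hD j i f f.2⟩, rfl⟩) f

/-- The inclusion of `κ(x_0, …, x_i)` in `κ(x_0, …, x_i')`. -/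
noncomputable abbrev TowEx_alg (x : Fin (d + 1) → L) {i i' : ℕ} (h : i ≤ i') :
    Algebra (TowEx_K κ x i) (TowEx_K κ x i') :=
  (IntermediateField.inclusion (TowEx_mono (κ := κ) x h)).toRingHom.toAlgebra

theorem TowEx_step {x : Fin (d + 1) → L} (hx : AlgebraicIndependent κ x)
    {D : Fin (d + 1) → Derivation κ L L}
    (hD : ∀ i j, D i (x j) = if i = j then 1 else 0) (i : ℕ) (hi : i + 1 ≤ d) :
    @RatX (TowEx_K κ x i) (TowEx_K κ x (i + 1)) _ _ _ (TowEx_alg x (Nat.le_succ i))
      ⟨x ⟨i + 1, by omega⟩, TowEx_x x le_rfl⟩ (TowEx_D hD (i + 1) ⟨i + 1, by omega⟩) := by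
  letI : Algebra (TowEx_K κ x i) (TowEx_K κ x (i + 1)) := TowEx_alg x (Nat.le_succ i)
  haveI : IsScalarTower (TowEx_K κ x i) (TowEx_K κ x (i + 1)) L :=
    IsScalarTower.of_algebraMap_eq fun _ => rfl
  refine TowEx_rat (L := L) _ _ ?_ ?_ ?_ ?_
  · change Transcendental (TowEx_K κ x i) (x ⟨i + 1, by omega⟩)
    rw [IntermediateField.transcendental_adjoin_iff]
    refine hx.transcendental_adjoin ?_
    simp
  · intro f
    change (f : L) ∈ IntermediateField.adjoin (TowEx_K κ x i) {x ⟨i + 1, by omega⟩}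
    have h2 := f.2
    have hS : x '' {j | (j : ℕ) ≤ i + 1} =
        x '' {j | (j : ℕ) ≤ i} ∪ {x ⟨i + 1, by omega⟩} := by
      rw [← Set.image_singleton, ← Set.image_union]
      congr 1
      ext j
      simp only [Set.mem_setOf_eq, Set.mem_union, Set.mem_singleton_iff, Fin.ext_iff]
      omega
    have h3 : (f : L) ∈ IntermediateField.adjoin κ
        (x '' {j | (j : ℕ) ≤ i} ∪ {x ⟨i + 1, by omega⟩}) := by
      rw [← hS]
      exact h2
    rw [← IntermediateField.adjoin_adjoin_left] at h3
    exact h3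
  · intro c
    apply Subtype.ext
    rw [TowEx_D_spec]
    exact TowEx_zero hD _ i (Nat.lt_succ_self i) c c.2
  · apply Subtype.ext
    rw [TowEx_D_spec]
    change D _ (x _) = 1
    rw [hD, if_pos rfl]

theorem TowEx_tower {x : Fin (d + 1) → L} (hx : AlgebraicIndependent κ x)
    {D : Fin (d + 1) → Derivation κ L L}
    (hD : ∀ i j, D i (x j) = if i = j then 1 else 0) : ∀ (i : ℕ) (hi : i ≤ d),
    IsTower (TowEx_D hD 0 0) i (TowEx_K κ x i) inferInstance inferInstance
      (TowEx_alg x (Nat.zero_le i))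
      (fun j => TowEx_D hD i (Fin.castLE (Nat.succ_le_succ hi) j)) := by
  intro i
  induction i with
  | zero =>
    intro hi
    refine ⟨fun f => ⟨f, rfl⟩, fun c => ?_⟩
    apply Subtype.ext
    rw [TowEx_D_spec]
    exact (TowEx_D_spec hD 0 0 c).symm
  | succ i ih =>
    intro hi
    refine ⟨TowEx_K κ x i, inferInstance, inferInstance, TowEx_alg x (Nat.zero_le i),
      TowEx_alg x (Nat.le_succ i), fun j => TowEx_D hD i (Fin.castLE (by omega) j),
      ⟨x ⟨i + 1, by omega⟩, TowEx_x x le_rfl⟩, ?_, ih (by omega), TowEx_step hx hD i hi, ?_⟩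
    · letI := TowEx_alg (κ := κ) x (Nat.zero_le i)
      letI := TowEx_alg (κ := κ) x (Nat.zero_le (i + 1))
      letI := TowEx_alg (κ := κ) x (Nat.le_succ i)
      exact IsScalarTower.of_algebraMap_eq fun _ => rfl
    · intro j
      refine ⟨fun c => ?_, ?_⟩
      · apply Subtype.ext
        rw [TowEx_D_spec]
        exact (TowEx_D_spec hD i _ c).symm
      · apply Subtype.ext
        rw [TowEx_D_spec]
        change D _ (x _) = 0
        rw [hD, if_neg]
        intro h
        have := congrArg Fin.val h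
        simp only [Fin.val_castLE, Fin.val_castSucc] at this
        have := j.2
        omega

end TowEx

theorem exists_tower {κ L : Type} [Field κ] [CharZero κ] [Field L] [CharZero L] [Algebra κ L]
    {d : ℕ} {x : Fin (d + 1) → L} (hx : AlgebraicIndependent κ x)
    (hfin : FiniteDimensional (IntermediateField.adjoin κ (Set.range x)) L)
    {D : Fin (d + 1) → Derivation κ L L} (hD : ∀ i j, D i (x j) = if i = j then 1 else 0) :
    ∃ (k₀ : Type) (_ : Field k₀) (_ : CharZero k₀) (_ : Algebra κ k₀) (t : k₀)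
      (D₀ : Derivation ℚ k₀ k₀) (K : Type) (fK : Field K) (cK : CharZero K)
      (aK : Algebra k₀ K) (DK : Fin (d + 1) → Derivation ℚ K K) (_ : Algebra K L)
      (_ : Algebra k₀ L) (_ : IsScalarTower k₀ K L), RatX κ t D₀ ∧
      IsTower D₀ d K fK cK aK DK ∧ FiniteDimensional K L ∧
      (∀ p : κ[X], algebraMap k₀ L (aeval t p) = aeval (x 0) p) ∧
      ∀ j f, D j (algebraMap K L f) = algebraMap K L (DK j f) := by
  refine ⟨TowEx_K κ x 0, inferInstance, inferInstance, inferInstance,
    ⟨x 0, TowEx_x x (by simp)⟩, TowEx_D hD 0 0, TowEx_K κ x d, inferInstance, inferInstance,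
    TowEx_alg x (Nat.zero_le d), fun j => TowEx_D hD d j, inferInstance, inferInstance, ?_, ?_,
    ?_, ?_, ?_, ?_⟩
  · letI := TowEx_alg (κ := κ) x (Nat.zero_le d)
    exact IsScalarTower.of_algebraMap_eq fun _ => rfl
  · refine TowEx_rat (L := L) _ _ ?_ ?_ ?_ ?_
    · exact hx.transcendental 0
    · intro f
      change (f : L) ∈ IntermediateField.adjoin κ {x 0}
      have h2 := f.2
      have hS : x '' {j | (j : ℕ) ≤ 0} = {x 0} := by
        rw [← Set.image_singleton]
        congr 1
        ext j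
        simp only [Set.mem_setOf_eq, Set.mem_singleton_iff, Fin.ext_iff]
        simp
      rw [← hS]
      exact h2
    · intro c
      apply Subtype.ext
      rw [TowEx_D_spec]
      change D 0 (algebraMap κ L c) = 0
      rw [Derivation.map_algebraMap]
    · apply Subtype.ext
      rw [TowEx_D_spec]
      change D 0 (x 0) = 1
      rw [hD, if_pos rfl]
  · exact TowEx_tower hx hD d le_rfl
  · have hS : x '' {j | (j : ℕ) ≤ d} = Set.range x := by
      rw [← Set.image_univ]
      congr 1
      ext j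
      simp only [Set.mem_setOf_eq, Set.mem_univ, iff_true]
      have := j.2
      omega
    change FiniteDimensional (IntermediateField.adjoin κ (x '' {j | (j : ℕ) ≤ d})) L
    rw [hS]
    exact hfin
  · intro p
    change ((aeval (⟨x 0, _⟩ : TowEx_K κ x 0) p : TowEx_K κ x 0) : L) = aeval (x 0) p
    exact (Polynomial.aeval_algebraMap_apply L (⟨x 0, TowEx_x x (by simp)⟩ : TowEx_K κ x 0) p).symm
  · intro j f
    exact (TowEx_D_spec hD d j f).symm

end Pool.Agent.Helper79.GA
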