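import Pool.Agent.Helper79.GA.Tow
import Pool.Agent.Helper79.GA.TowEx

/-!
# GA-23: Gauss-Manin connections of function fields are tame

1. `exists_tower`: `k₀ = κ(t)`, `K = κ(x_0, …, x_d)`, `DK`. `V = L` over `K`, `n j = D j` (as maps `L → L`): `Conn` (Leibniz rule and `D j (algebraMap K L f) = …`), they commute: `D_i D_j - D_j D_i` is a derivation of `L` over `κ`
   (commutator `⁅D i, D j⁆`, `Derivation.commutator_apply`) which vanishes at all `x_l`, so on `κ(x)`, and on `L` (algebraic, separable over `κ(x)`: `f` root of the minimal polynomial `P`, `P'(f) δ(f) = 0`; or uniqueness of the extension of derivations,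
   `Differential`/`Derivation.eq_of_…`, `Algebra.FormallyUnramified`…). Tame: `ratx_tame` for `k₀`, `tower_PG` for `K`, `alg_tame` for `L` over `K` (with `D' = (D j).restrictScalars ℚ`), `tameV_self`.
2. `tower_tame` with `Ω` = all the `ω l`, `g l j`: `H`, `W`, `π`, `m`. From `gm`: `T(t) • D_0 ω_l = ∑ A_lm(t) • ω_m + ∑_j D_{j+1} g_lj` in `L` (as `k₀`-space), all in `W`; apply `π`:
   `T m(π ω_l) = ∑ A_lm π(ω_m)` in `H`, that is `m (v_l) = ∑_j a_lj v_j`, `v_l = π(ω_l)`, `a = A/T` (entries in `k₀`).
3. The `v_l` are linearly independent over `k₀`: `∑ c_l v_l = 0`, `c_l ∈ k₀`: by `RatX.quo` and a common denominator (nonzero polynomials in `t`) `c_l = p_l(t)/q(t)`, `∑ p_l(t) v_l = 0`, so `π (∑ p_l(t) ω_l) = 0`, `∑ p_l(t) ω_l = ∑_j D_{j+1} u_j` and `p = 0` by `ind`.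
4. `(m!)⁻¹ • m^[i] (v_l) = ∑_j (iter D₀ a i)_{lj} v_j` (induction, `Conn`). There are functionals `ψ_j : H →ₗ[k₀] k₀` with `ψ_j(v_l) = δ_jl` (linear independence: extend to a basis, e.g. `LinearIndependent.extend`, `Module.Basis`, or
   `exists_dual…`). So `TameM D₀ a` by `TameV k₀ m` and `GmS.family`.
-/

open Polynomial

namespace Pool.Agent.Helper79.GA

open Pool.Agent.Helper79.CU Pool.Agent.Helper79.SE

/-- Derivations which vanish on the variables vanish. -/
theorem Fib_der {κ L : Type} [Field κ] [CharZero κ] [Field L] [CharZero L] [Algebra κ L]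
    {d : ℕ} {x : Fin (d + 1) → L}
    (hfin : FiniteDimensional (IntermediateField.adjoin κ (Set.range x)) L)
    (δ : Derivation κ L L) (h : ∀ j, δ (x j) = 0) : ∀ f, δ f = 0 := by
  have h0 : ∀ f ∈ IntermediateField.adjoin κ (Set.range x), δ f = 0 := by
    intro f hf
    refine IntermediateField.adjoin_induction κ (p := fun y _ => δ y = 0) ?_ ?_ ?_ ?_ ?_ hf
    · rintro _ ⟨l, rfl⟩
      exact h l
    · intro c
      rw [Derivation.map_algebraMap]
    · intro a b _ _ ha hb
      rw [map_add, ha, hb, add_zero]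
    · intro a _ ha
      rw [Derivation.leibniz_inv, ha, smul_zero]
    · intro a b _ _ ha hb
      rw [Derivation.leibniz, ha, hb, smul_zero, smul_zero, add_zero]
  let F := IntermediateField.adjoin κ (Set.range x)
  let lin : L →ₗ[F] L :=
    { toFun := fun f => δ f
      map_add' := fun a b => map_add _ a b
      map_smul' := fun c a => by
        have h1 : δ (algebraMap F L c) = 0 := h0 _ c.2
        rw [Algebra.smul_def, Derivation.leibniz, RingHom.id_apply, h1, smul_zero, add_zero,
          smul_eq_mul, Algebra.smul_def] }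
  let δ' : Derivation F L L := Derivation.mk' lin fun a b => by
    change δ (a * b) = _
    rw [Derivation.leibniz]
    rfl
  intro f
  have hint : IsIntegral F f := Algebra.IsIntegral.isIntegral f
  have h1 : δ' (aeval f (minpoly F f)) = aeval f (derivative (minpoly F f)) • δ' f :=
    δ'.map_aeval _ _
  rw [minpoly.aeval, map_zero] at h1
  have hs : (minpoly F f).Separable := (minpoly.irreducible hint).separable
  have h2 : aeval f (derivative (minpoly F f)) ≠ 0 :=
    hs.aeval_derivative_ne_zero (minpoly.aeval F f)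
  have h3 : δ' f = 0 := (smul_eq_zero.mp h1.symm).resolve_left h2
  exact h3

/-- Common denominators. -/
theorem Fib_den {κ k ι : Type} [Field κ] [Field k] [CharZero k] [Algebra κ k] [Fintype ι]
    [DecidableEq ι] {t : k} {D : Derivation ℚ k k} (h : RatX κ t D) (c : ι → k) :
    ∃ (Q : κ[X]) (P : ι → κ[X]), aeval t Q ≠ 0 ∧ ∀ l, c l * aeval t Q = aeval t (P l) := by
  choose p q hq hc using fun l => h.quo (c l)
  refine ⟨∏ l, q l, fun l => p l * ∏ m ∈ Finset.univ.erase l, q m, ?_, fun l => ?_⟩
  · rw [map_prod]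
    exact Finset.prod_ne_zero_iff.mpr fun l _ => hq l
  · rw [← Finset.mul_prod_erase Finset.univ q (Finset.mem_univ l), map_mul, map_mul, hc l]
    have := hq l
    field_simp

/-- The divided iterates of a connection on vectors which satisfy a linear system. -/
theorem Fib_iter {k H ι : Type} [Field k] [CharZero k] [AddCommGroup H] [Module k H] [Fintype ι]
    [DecidableEq ι] {D₀ : Derivation ℚ k k} {m : H → H} (hm : Conn (fun c : k => D₀ c) m)
    {v : ι → H} {a : Matrix ι ι k} (hv : ∀ l, m (v l) = ∑ j, a l j • v j) (i : ℕ) (l : ι) :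
    ((i.factorial : k)⁻¹) • m^[i] (v l) = ∑ j, iter D₀ a i l j • v j := by
  have hz : m 0 = 0 := by
    have h := hm.add 0 0
    rw [add_zero] at h
    exact left_eq_add.mp h
  have hsum : ∀ (s : Finset ι) (f : ι → H), m (∑ j ∈ s, f j) = ∑ j ∈ s, m (f j) := by
    intro s f
    induction s using Finset.induction_on with
    | empty => rw [Finset.sum_empty, Finset.sum_empty, hz]
    | insert b s hb ih => rw [Finset.sum_insert hb, Finset.sum_insert hb, hm.add, ih]
  have hq : ∀ n : ℕ, D₀ ((n : k)⁻¹) = 0 := by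
    intro n
    have h : ((n : k)⁻¹) = algebraMap ℚ k ((n : ℚ)⁻¹) := by
      rw [map_inv₀, map_natCast]
    rw [h, Derivation.map_algebraMap]
  induction i with
  | zero =>
    simp only [Nat.factorial_zero, Nat.cast_one, inv_one, one_smul, Function.iterate_zero, id_eq,
      iter, Matrix.one_apply, ite_smul, zero_smul]
    rw [Finset.sum_ite_eq]
    simp
  | succ i ih =>
    have h1 : (((i + 1).factorial : ℕ) : k)⁻¹ • m^[i + 1] (v l) =
        (((i + 1 : ℕ) : k)⁻¹) • m (((i.factorial : k)⁻¹) • m^[i] (v l)) := by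
      rw [hm.leib, hq, zero_smul, zero_add, smul_smul, Function.iterate_succ_apply',
        Nat.factorial_succ]
      congr 1
      push_cast
      rw [mul_inv]
    rw [h1, ih, hsum]
    have h2 : ∀ j, m (iter D₀ a i l j • v j) =
        D₀ (iter D₀ a i l j) • v j + ∑ r, (iter D₀ a i l j * a j r) • v r := by
      intro j
      rw [hm.leib, hv, Finset.smul_sum]
      simp only [smul_smul]
    simp only [h2]
    rw [Finset.sum_add_distrib, Finset.sum_comm, ← Finset.sum_add_distrib, Finset.smul_sum]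
    refine Finset.sum_congr rfl fun r _ => ?_
    rw [← Finset.sum_smul, ← add_smul, smul_smul]
    rfl

/-- Coordinate functionals. -/
theorem Fib_dual {k H ι : Type} [Field k] [AddCommGroup H] [Module k H] [Fintype ι]
    [DecidableEq ι] {v : ι → H} (hv : LinearIndependent k v) (j : ι) :
    ∃ ψ : H →ₗ[k] k, ∀ l, ψ (v l) = if l = j then 1 else 0 := by
  obtain ⟨ψ, hψ⟩ := LinearMap.exists_extend ((Module.Basis.span hv).coord j)
  refine ⟨ψ, fun l => ?_⟩
  have h1 : v l = (Submodule.span k (Set.range v)).subtype (Module.Basis.span hv l) := by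
    rw [Submodule.subtype_apply, Module.Basis.span_apply]
  rw [h1, ← LinearMap.comp_apply, hψ, Module.Basis.coord_apply, Module.Basis.repr_self,
    Finsupp.single_apply]

theorem fib_tame {κ L : Type} [Field κ] [CharZero κ] [Field L] [CharZero L] [Algebra κ L]
    {d : ℕ} {x : Fin (d + 1) → L} (hx : AlgebraicIndependent κ x)
    (hfin : FiniteDimensional (IntermediateField.adjoin κ (Set.range x)) L)
    {D : Fin (d + 1) → Derivation κ L L} (hD : ∀ i j, D i (x j) = if i = j then 1 else 0)
    {ι : Type} [Fintype ι] [DecidableEq ι] {ω : ι → L} {g : ι → Fin d → L} {T : κ[X]}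
    (hT : T ≠ 0) {A : Matrix ι ι κ[X]}
    (gm : ∀ l, aeval (x 0) T * D 0 (ω l) =
      ∑ m, aeval (x 0) (A l m) * ω m + ∑ j : Fin d, D j.succ (g l j))
    (ind : ∀ c : ι → κ[X], (∃ u : Fin d → L,
      ∑ l, aeval (x 0) (c l) * ω l = ∑ j : Fin d, D j.succ (u j)) → c = 0) :
    ∃ (K : Type) (_ : Field K) (_ : CharZero K) (_ : Algebra κ K) (t : K)
      (D₀ : Derivation ℚ K K), RatX κ t D₀ ∧
        TameM D₀ (fun i j => aeval t (A i j) / aeval t T) := by
  obtain ⟨k₀, _, _, _, t, D₀, K, fK, cK, aK, DK, _, _, _, hrat, htow, hfinK, ht, hDK⟩ :=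
    exists_tower hx hfin hD
  refine ⟨k₀, inferInstance, inferInstance, inferInstance, t, D₀, hrat, ?_⟩
  have hconn : ∀ j, Conn (fun f : K => DK j f) (fun f : L => D j f) := by
    intro j
    refine ⟨fun v w => map_add _ v w, fun f v => ?_⟩
    change D j (f • v) = _
    rw [Algebra.smul_def, Derivation.leibniz, hDK, smul_eq_mul, smul_eq_mul, Algebra.smul_def,
      Algebra.smul_def]
    ring
  have hcomm : ∀ j l (v : L), (fun f : L => D j f) ((fun f : L => D l f) v) =
      (fun f : L => D l f) ((fun f : L => D j f) v) := by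
    intro j l v
    have h1 := Fib_der hfin ⁅D j, D l⁆ (fun r => by
      rw [Derivation.commutator_apply, hD, hD]
      split_ifs <;> simp) v
    rw [Derivation.commutator_apply] at h1
    exact sub_eq_zero.mp h1
  have halg : Algebra.IsAlgebraic K L := inferInstance
  have htame : ∀ j, TameV K (fun f : L => D j f) := by
    intro j
    exact tameV_self (D' := (D j).restrictScalars ℚ)
      (alg_tame (D := DK j) (fun c => hDK j c) (tower_PG (ratx_tame hrat) d K DK htow j))
  obtain ⟨H, _, _, W, π, m, fdH, hΩ, hadd, hsmul, hW, h0, hj, hker, hcm, htm⟩ :=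
    tower_tame D₀ d K DK htow L (fun j (f : L) => D j f) hconn hcomm htame
      (Set.range ω ∪ Set.range (fun p : ι × Fin d => g p.1 p.2))
      ((Set.finite_range _).union (Set.finite_range _))
  have hω : ∀ l, ω l ∈ W := fun l => hΩ _ (Or.inl ⟨l, rfl⟩)
  have hg : ∀ l j, g l j ∈ W := fun l j => hΩ _ (Or.inr ⟨(l, j), rfl⟩)
  have hs : ∀ (p : κ[X]) (y : L), aeval (x 0) p * y = (aeval t p : k₀) • y := by
    intro p y
    rw [Algebra.smul_def, ht]
  have hT0 : (aeval t T : k₀) ≠ 0 := fun h => hT ((transcendental_iff.mp hrat.tr) T h)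
  have hcomb : ∀ c : ι → k₀, π (∑ l, c l • ω l) = ∑ l, c l • π (ω l) := by
    intro c
    rw [Tow_sum hadd _ _ fun l => W.smul_mem _ (hω l)]
    exact Finset.sum_congr rfl fun l _ => hsmul _ _ (hω l)
  have hm : ∀ l, m (π (ω l)) = ∑ j, (aeval t (A l j) / aeval t T : k₀) • π (ω j) := by
    intro l
    have h1 := gm l
    simp only [hs] at h1
    have h2 : π ((aeval t T : k₀) • D 0 (ω l)) = (aeval t T : k₀) • m (π (ω l)) := by
      rw [hsmul _ _ (hW 0 _ (hω l)), h0 _ (hω l)]
    have h3 : ∀ j : Fin d, D j.succ (g l j) ∈ W := fun j => hW j.succ _ (hg l j)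
    have h4 : π (∑ j : Fin d, D j.succ (g l j)) = 0 := by
      rw [Tow_sum hadd _ _ h3]
      exact Finset.sum_eq_zero fun j _ => hj j _ (hg l j)
    rw [h1, hadd _ (sum_mem fun r _ => W.smul_mem _ (hω r)) _ (sum_mem fun j _ => h3 j), h4,
      add_zero, hcomb] at h2
    have h5 : m (π (ω l)) = (aeval t T : k₀)⁻¹ • ((aeval t T : k₀) • m (π (ω l))) := by
      rw [smul_smul, inv_mul_cancel₀ hT0, one_smul]
    rw [h5, ← h2, Finset.smul_sum]
    refine Finset.sum_congr rfl fun j _ => ?_
    rw [smul_smul, div_eq_inv_mul]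
  have hli : LinearIndependent k₀ fun l => π (ω l) := by
    rw [Fintype.linearIndependent_iff]
    intro c hc
    obtain ⟨Q, P, hQ, hP⟩ := Fib_den hrat c
    have h1 : π (∑ l, (aeval t (P l) : k₀) • ω l) = 0 := by
      rw [hcomb]
      have h2 : ∀ l, (aeval t (P l) : k₀) • π (ω l) =
          (aeval t Q : k₀) • (c l • π (ω l)) := by
        intro l
        rw [← hP, smul_smul, mul_comm]
      simp only [h2]
      rw [← Finset.smul_sum, hc, smul_zero]
    obtain ⟨u, hu⟩ := hker _ (sum_mem fun l _ => W.smul_mem _ (hω l)) h1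
    have h3 : P = 0 := ind P ⟨u, by simpa only [hs] using hu⟩
    intro l
    have h4 := hP l
    rw [h3, Pi.zero_apply, map_zero] at h4
    exact (mul_eq_zero.mp h4).resolve_right hQ
  refine GmS.family fun p => ?_
  obtain ⟨ψ, hψ⟩ := Fib_dual hli p.2
  have h1 : ∀ i, ψ (((i.factorial : k₀)⁻¹) • m^[i] (π (ω p.1))) =
      iter D₀ (fun i j => aeval t (A i j) / aeval t T) i p.1 p.2 := by
    intro i
    rw [Fib_iter hcm hm i p.1, map_sum]
    simp only [map_smul, hψ, smul_eq_mul, mul_ite, mul_one, mul_zero]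
    rw [Finset.sum_ite_eq']
    simp
  have h2 := htm (π (ω p.1)) ψ
  simp only [h1] at h2
  exact h2

end Pool.Agent.Helper79.GA
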