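import Pool.Agent.Helper79.GA.RDesc

/-!
# GA-19: direct images

Choose a basis `b_i` (`i : Fin r`) of `V` over `K`, coordinates `ψ_i`. Let `A`, `A_j` be the matrices of `n`, `nj j` (`n (b_i) = ∑_l A_il b_l`). By `h.quo` (common denominator of finitely many elements of `K`) there is `δ ∈ k[X]`, `δ ≠ 0`, such that all entries of `A`, `A_j`
and all coordinates of the elements of `Ω` are in `Od x δ`. `W` = the set of the `w ∈ V` with all coordinates in `Od x δ`, a `k`-subspace, stable by `n` and `nj j` (`Od_deriv` for `D`, `Dk = 0`, `D x = 1`, and for `DK j`, `DK j x = 0`).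
`H = W ⧸ (n W)` (`n` restricted to `W` is `k`-linear: `h.const`), `π` = the quotient map (extended by `0` outside of `W`, `Classical`/`dite`); `mj j` induced by `nj j` (it maps `n W` to `n W` by `comm`), with
`mj j (c h) = Dk j c • h + c • mj j h` (`hD`).
* `TameM D A`: `iter D A m i l = ψ_l ((m!)⁻¹ • n^m (b_i))` (induction on `m`, `hn`), `tn`, `GmS.family`. So `red_gen` gives `RedProp k x D δ A`: `B_b`. `nab D A` corresponds to `n` under the coordinates.
* `FiniteDimensional k H`: the classes of the `B_b` span: for `w ∈ W` apply `RedProp` with `T` = the set of the coordinates of `w`, `c = 1`, `N = 0`.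
* `TameV k (mj j)`: let `h' ∈ H`, `h' = π w`, `ψ : H →ₗ[k] k`. The coordinates of `(m!)⁻¹ • (nj j)^m w` have geometric denominators (`tj j` for `ψ_i`, `GmS.family`): `q ψ_i(…) ∈ (G T).I (c (N+1))` for `m ≤ N`. Apply `RedProp` (`T`, `c`, same `N`) to the vector of the coordinates of
  `q (m!)⁻¹ • (nj j)^m w ∈ W`: it is `∑ a_b B_b + nab D A g` with `q' a_b ∈ (G T').I (c' (N+1))`. So `q' q (m!)⁻¹ • (mj j)^m h' = ∑_b q' a_b π(B_b)` (`π (n g) = 0`) and
  `q' q ψ((m!)⁻¹ • (mj j)^m h') = ∑_b (q' a_b) ψ(π(B_b)) ∈ (G (T' ∪ {ψ(π(B_b))})).I (c' (N+1) + 1)`.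
-/

open Polynomial

namespace Pool.Agent.Helper79.GA

open Pool.Agent.Helper79.CU Pool.Agent.Helper79.SE

section

variable {K V : Type} [Field K] [AddCommGroup V] [Module K V]

private theorem Lat_zero {D : K → K} {n : V → V} (h : Conn D n) : n 0 = 0 := by
  have h1 := h.add 0 0
  rw [add_zero] at h1
  simpa using h1

private theorem Lat_sum {D : K → K} {n : V → V} (h : Conn D n) {α : Type} (s : Finset α) (f : α → V) :
    n (∑ i ∈ s, f i) = ∑ i ∈ s, n (f i) := by
  classical
  induction s using Finset.induction_on with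
  | empty => simpa using Lat_zero h
  | insert a s ha ih => rw [Finset.sum_insert ha, Finset.sum_insert ha, h.add, ih]

variable [CharZero K]

private theorem Lat_nab {ι : Type} [Fintype ι] (b : Module.Basis ι K V) (D : Derivation ℚ K K)
    {n : V → V} (h : Conn (fun f : K => D f) n) (v : V) :
    b.equivFun (n v) = nab D (Matrix.of fun i l => b.equivFun (n (b i)) l) (b.equivFun v) := by
  classical
  funext j
  unfold nab
  have e1 : n v = ∑ i, (D (b.equivFun v i) • b i + b.equivFun v i • n (b i)) := by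
    conv_lhs => rw [← b.sum_equivFun v]
    rw [Lat_sum h]
    exact Finset.sum_congr rfl fun i _ => h.leib _ _
  rw [e1, map_sum, Finset.sum_apply]
  simp only [map_add, map_smul, Pi.add_apply, Pi.smul_apply, smul_eq_mul, Finset.sum_add_distrib,
    Module.Basis.equivFun_self, Matrix.of_apply]
  congr 1
  simp

private theorem Lat_const {D : Derivation ℚ K K} {n : V → V} (h : Conn (fun f : K => D f) n) {a : K}
    (ha : D a = 0) (v : V) : n (a • v) = a • n v := by
  rw [h.leib, ha, zero_smul, zero_add]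

private theorem Lat_fact (D : Derivation ℚ K K) (m : ℕ) : D ((m : K)⁻¹) = 0 := by
  have h1 : ((m : K)⁻¹) = algebraMap ℚ K ((m : ℚ)⁻¹) := by
    rw [map_inv₀, map_natCast]
  rw [h1, Derivation.map_algebraMap]

private theorem Lat_iter {ι : Type} [Fintype ι] [DecidableEq ι] (b : Module.Basis ι K V)
    (D : Derivation ℚ K K) {n : V → V} (h : Conn (fun f : K => D f) n) (m : ℕ) (i l : ι) :
    iter D (Matrix.of fun i l => b.equivFun (n (b i)) l) m i l =
      b.equivFun (((m.factorial : K)⁻¹) • n^[m] (b i)) l := by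
  induction m generalizing l with
  | zero =>
    rw [Function.iterate_zero, Nat.factorial_zero, Nat.cast_one, inv_one, one_smul, id_eq]
    change (1 : Matrix ι ι K) i l = _
    rw [Module.Basis.equivFun_self, Matrix.one_apply]
  | succ m ih =>
    change (((m + 1 : ℕ) : K)⁻¹) * (D (iter D _ m i l) + ∑ l', iter D _ m i l' *
      (Matrix.of fun i l => b.equivFun (n (b i)) l) l' l) = _
    have e1 : (D (iter D (Matrix.of fun i l => b.equivFun (n (b i)) l) m i l) +
        ∑ l', iter D (Matrix.of fun i l => b.equivFun (n (b i)) l) m i l' *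
        (Matrix.of fun i l => b.equivFun (n (b i)) l) l' l) =
        nab D (Matrix.of fun i l => b.equivFun (n (b i)) l)
          (b.equivFun (((m.factorial : K)⁻¹) • n^[m] (b i))) l := by
      unfold nab
      rw [ih l, Finset.sum_congr rfl fun l' _ => by rw [ih l']]
    rw [e1, ← Lat_nab b D h, Lat_const h (Lat_fact D _), Function.iterate_succ_apply',
      Nat.factorial_succ, Nat.cast_mul, mul_inv, mul_smul, map_smul, map_smul, map_smul, Pi.smul_apply,
      Pi.smul_apply, Pi.smul_apply]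
    rfl

end

section

variable {k K : Type} [Field k] [CharZero k] [Field K] [CharZero K] [Algebra k K] {x : K}
  {D : Derivation ℚ K K}

private theorem Lat_ne (h : RatX k x D) {q : k[X]} (hq : q ≠ 0) : aeval x q ≠ 0 :=
  fun h1 => hq ((transcendental_iff.1 h.tr) q h1)

private theorem Lat_aeval (δ p : k[X]) : aeval x p ∈ Od x δ :=
  Algebra.adjoin_mono (by simp) (aeval_mem_adjoin_singleton k x)

private theorem Lat_Od_mul (h : RatX k x D) {q q' : k[X]} (hq : q ≠ 0) (hq' : q' ≠ 0) :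
    Od x q ≤ Od x (q * q') := by
  have h1 := Lat_ne h hq
  have h2 := Lat_ne h hq'
  apply Algebra.adjoin_le
  rintro f (rfl | hf)
  · exact Algebra.subset_adjoin (by simp)
  · rw [Set.mem_singleton_iff] at hf
    rw [hf]
    have e : (aeval x q)⁻¹ = aeval x q' * (aeval x (q * q'))⁻¹ := by
      rw [map_mul]
      field_simp
    rw [e]
    refine Subalgebra.mul_mem _ ?_ (Algebra.subset_adjoin (by simp))
    exact Lat_aeval _ _

private theorem Lat_delta (h : RatX k x D) {Φ : Set K} (hΦ : Φ.Finite) :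
    ∃ δ : k[X], δ ≠ 0 ∧ ∀ f ∈ Φ, f ∈ Od x δ := by
  induction Φ, hΦ using Set.Finite.induction_on with
  | empty => exact ⟨1, one_ne_zero, by simp⟩
  | insert _ _ ih =>
    rename_i a s _ _
    obtain ⟨δ, hδ, h1⟩ := ih
    obtain ⟨p, q, h2, h3⟩ := h.quo a
    have hq : q ≠ 0 := by
      rintro rfl
      simp at h2
    refine ⟨δ * q, mul_ne_zero hδ hq, ?_⟩
    rintro f (rfl | hf)
    · rw [mul_comm]
      apply Lat_Od_mul h hq hδ
      rw [h3, div_eq_mul_inv]
      exact Subalgebra.mul_mem _ (Lat_aeval _ _)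
        (Algebra.subset_adjoin (by simp))
    · exact Lat_Od_mul h hδ hq (h1 f hf)

end

theorem direct_image {k K V J : Type} [Field k] [CharZero k] [Field K] [CharZero K]
    [Algebra k K] {x : K} {D : Derivation ℚ K K} (h : RatX k x D) [AddCommGroup V] [Module K V]
    [Module k V] [IsScalarTower k K V] [FiniteDimensional K V] [Finite J]
    {Dk : J → Derivation ℚ k k} {DK : J → Derivation ℚ K K}
    (hD : ∀ j c, DK j (algebraMap k K c) = algebraMap k K (Dk j c)) (hDx : ∀ j, DK j x = 0)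
    {n : V → V} {nj : J → V → V} (hn : Conn (fun f : K => D f) n)
    (hnj : ∀ j, Conn (fun f : K => DK j f) (nj j)) (comm : ∀ j v, n (nj j v) = nj j (n v))
    (comm' : ∀ i j v, nj i (nj j v) = nj j (nj i v)) (tn : TameV K n)
    (tj : ∀ j, TameV K (nj j)) {Ω : Set V} (hΩ : Ω.Finite) :
    ∃ (H : Type) (_ : AddCommGroup H) (_ : Module k H) (W : Submodule k V) (π : V → H)
      (mj : J → H → H), FiniteDimensional k H ∧ (∀ w ∈ Ω, w ∈ W) ∧
      (∀ w ∈ W, n w ∈ W) ∧ (∀ j, ∀ w ∈ W, nj j w ∈ W) ∧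
      (∀ w ∈ W, ∀ w' ∈ W, π (w + w') = π w + π w') ∧
      (∀ (c : k), ∀ w ∈ W, π (c • w) = c • π w) ∧ (∀ a : H, ∃ w ∈ W, π w = a) ∧
      (∀ w ∈ W, π w = 0 ↔ ∃ u ∈ W, n u = w) ∧
      (∀ j, Conn (fun c : k => Dk j c) (mj j)) ∧
      (∀ j, ∀ w ∈ W, π (nj j w) = mj j (π w)) ∧ (∀ i j a, mj i (mj j a) = mj j (mj i a)) ∧
      ∀ j, TameV k (mj j) := by
  classical
  obtain ⟨r, b⟩ : ∃ r : ℕ, Nonempty (Module.Basis (Fin r) K V) := ⟨_, ⟨Module.finBasis K V⟩⟩
  obtain ⟨b⟩ := b
  have _ := Fintype.ofFinite J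
  set A : Matrix (Fin r) (Fin r) K := Matrix.of fun i l => b.equivFun (n (b i)) l with hA
  set Aj : J → Matrix (Fin r) (Fin r) K := fun j => Matrix.of fun i l => b.equivFun (nj j (b i)) l with hAj
  have hfin : ((Set.range fun p : Fin r × Fin r => A p.1 p.2) ∪
      (Set.range fun p : J × Fin r × Fin r => Aj p.1 p.2.1 p.2.2) ∪
      (⋃ w ∈ Ω, Set.range fun i => b.equivFun w i)).Finite :=
    ((Set.finite_range _).union (Set.finite_range _)).union
      (hΩ.biUnion fun w _ => Set.finite_range _)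
  obtain ⟨δ, hδ, hΦ⟩ := Lat_delta h hfin
  have hAδ : ∀ i l, A i l ∈ Od x δ := fun i l => hΦ _ (Or.inl (Or.inl ⟨(i, l), rfl⟩))
  have hAjδ : ∀ j i l, Aj j i l ∈ Od x δ := fun j i l => hΦ _ (Or.inl (Or.inr ⟨(j, i, l), rfl⟩))
  have hΩδ : ∀ w ∈ Ω, ∀ i, b.equivFun w i ∈ Od x δ := fun w hw i =>
    hΦ _ (Or.inr (Set.mem_biUnion hw ⟨i, rfl⟩))
  have hsm : ∀ (c : k) (w : V) (i : Fin r), b.equivFun (c • w) i = c • b.equivFun w i := by
    intro c w i
    rw [← algebraMap_smul K c w, map_smul, Pi.smul_apply, smul_eq_mul, Algebra.smul_def]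
  -- the lattice
  let W : Submodule k V :=
    { carrier := {w | ∀ i, b.equivFun w i ∈ Od x δ}
      add_mem' := by
        intro v w hv hw i
        rw [map_add, Pi.add_apply]
        exact Subalgebra.add_mem _ (hv i) (hw i)
      zero_mem' := by
        intro i
        rw [map_zero, Pi.zero_apply]
        exact Subalgebra.zero_mem _
      smul_mem' := by
        intro c w hw i
        rw [hsm]
        exact Subalgebra.smul_mem _ (hw i) c }
  have hW : ∀ w : V, w ∈ W ↔ ∀ i, b.equivFun w i ∈ Od x δ := fun w => Iff.rfl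
  have hxO : x ∈ Od x δ := Algebra.subset_adjoin (by simp)
  have hnab : ∀ {D' : Derivation ℚ K K} {A' : Matrix (Fin r) (Fin r) K} {v : Fin r → K},
      (∀ f ∈ Od x δ, D' f ∈ Od x δ) → (∀ i l, A' i l ∈ Od x δ) → (∀ i, v i ∈ Od x δ) →
      ∀ i, nab D' A' v i ∈ Od x δ := by
    intro D' A' v h1 h2 h3 i
    unfold nab
    exact Subalgebra.add_mem _ (h1 _ (h3 i))
      (Subalgebra.sum_mem _ fun l _ => Subalgebra.mul_mem _ (h3 l) (h2 l i))
  have hDO : ∀ f ∈ Od x δ, D f ∈ Od x δ := fun f hf =>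
    Od_deriv (Dk := 0) (fun c => by rw [h.const, Derivation.coe_zero, Pi.zero_apply, map_zero])
      (by rw [h.dx]; exact Subalgebra.one_mem _) hf
  have hDjO : ∀ j, ∀ f ∈ Od x δ, DK j f ∈ Od x δ := fun j f hf =>
    Od_deriv (Dk := Dk j) (hD j) (by rw [hDx j]; exact Subalgebra.zero_mem _) hf
  have hnW : ∀ w ∈ W, n w ∈ W := by
    intro w hw i
    rw [Lat_nab b D hn]
    exact hnab hDO hAδ hw i
  have hnjW : ∀ j, ∀ w ∈ W, nj j w ∈ W := by
    intro j w hw i
    rw [Lat_nab b (DK j) (hnj j)]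
    exact hnab (hDjO j) (hAjδ j) hw i
  have hncl : ∀ (c : k) (w : V), n (c • w) = c • n w := by
    intro c w
    rw [← algebraMap_smul K c w, ← algebraMap_smul K c (n w)]
    exact Lat_const hn (h.const c) w
  have hnjc : ∀ (j : J) (c : k) (w : V), nj j (c • w) = Dk j c • w + c • nj j w := by
    intro j c w
    rw [← algebraMap_smul K c w, ← algebraMap_smul K c (nj j w), ← algebraMap_smul K (Dk j c) w,
      (hnj j).leib, hD]
  let nW : W →ₗ[k] W :=
    { toFun := fun w => ⟨n w, hnW w w.2⟩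
      map_add' := fun v w => Subtype.ext (hn.add _ _)
      map_smul' := fun c w => Subtype.ext (hncl c w) }
  have hnWval : ∀ w : W, ((nW w : W) : V) = n w := fun w => rfl
  let H := W ⧸ LinearMap.range nW
  let mk : W →ₗ[k] H := (LinearMap.range nW).mkQ
  have hmk : ∀ a : H, ∃ w : W, mk w = a := Submodule.mkQ_surjective _
  have hmk0 : ∀ w : W, mk w = 0 ↔ ∃ u : W, n u = w := by
    intro w
    change Submodule.Quotient.mk w = 0 ↔ _
    rw [Submodule.Quotient.mk_eq_zero, LinearMap.mem_range]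
    constructor
    · rintro ⟨u, hu⟩
      exact ⟨u, by rw [← hu]; rfl⟩
    · rintro ⟨u, hu⟩
      exact ⟨u, Subtype.ext hu⟩
  choose rep hrep using hmk
  let njW : J → W → W := fun j w => ⟨nj j w, hnjW j w w.2⟩
  have hnjWadd : ∀ j v w, njW j (v + w) = njW j v + njW j w := fun j v w =>
    Subtype.ext ((hnj j).add _ _)
  have hcongr : ∀ j (v w : W), mk v = mk w → mk (njW j v) = mk (njW j w) := by
    intro j v w hvw
    have h1 : mk (v - w) = 0 := by rw [map_sub, hvw, sub_self]
    obtain ⟨u, hu⟩ := (hmk0 _).1 h1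
    have h2 : mk (njW j (v - w)) = 0 := by
      rw [hmk0]
      refine ⟨njW j u, ?_⟩
      change n (nj j u) = nj j ((v - w : W) : V)
      rw [comm, hu]
    have h3 : njW j v = njW j (v - w) + njW j w := by rw [← hnjWadd, sub_add_cancel]
    rw [h3, map_add, h2, zero_add]
  let mj : J → H → H := fun j a => mk (njW j (rep a))
  have hmj : ∀ j (w : W), mj j (mk w) = mk (njW j w) := fun j w => hcongr j _ _ (hrep _)
  have hmjC : ∀ j, Conn (fun c : k => Dk j c) (mj j) := by
    intro j
    refine ⟨fun a a' => ?_, fun c a => ?_⟩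
    · obtain ⟨v, rfl⟩ : ∃ v, mk v = a := ⟨_, hrep a⟩
      obtain ⟨w, rfl⟩ : ∃ w, mk w = a' := ⟨_, hrep a'⟩
      rw [← map_add, hmj, hmj, hmj, hnjWadd, map_add]
    · obtain ⟨v, rfl⟩ : ∃ v, mk v = a := ⟨_, hrep a⟩
      rw [← map_smul, hmj, hmj, ← map_smul, ← map_smul, ← map_add]
      congr 1
      exact Subtype.ext (hnjc j c v)
  -- reduction
  have hTame : TameM D A := by
    have h1 : ∀ p : Fin r × Fin r, GmS fun (m : ℕ) (_ : Unit) => iter D A m p.1 p.2 := by
      intro p
      have h2 := tn (b p.1) (LinearMap.proj p.2 ∘ₗ b.equivFun.toLinearMap)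
      have h3 : (fun (m : ℕ) (_ : Unit) => iter D A m p.1 p.2) = fun (m : ℕ) (_ : Unit) =>
          (LinearMap.proj p.2 ∘ₗ b.equivFun.toLinearMap) (((m.factorial : K)⁻¹) • n^[m] (b p.1)) := by
        funext m _
        rw [hA, Lat_iter b D hn]
        rfl
      rw [h3]
      exact h2
    exact GmS.family (f := fun (m : ℕ) (p : Fin r × Fin r) => iter D A m p.1 p.2) h1
  obtain ⟨s, B, hB, hred⟩ := red_gen h hδ hTame hAδ
  let β : Fin s → H := fun i => mk ⟨b.equivFun.symm (B i), fun l => by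
    rw [LinearEquiv.apply_symm_apply]; exact hB i l⟩
  have hdec : ∀ (w : W) (a : Fin s → k) (g : Fin r → K), (∀ i, g i ∈ Od x δ) →
      b.equivFun w = (∑ i, a i • B i) + nab D A g → mk w = ∑ i, a i • β i := by
    intro w a g hg hw
    have hgW : b.equivFun.symm g ∈ W := fun l => by
      rw [LinearEquiv.apply_symm_apply]; exact hg l
    have h1 : (w : V) = (∑ i, a i • b.equivFun.symm (B i)) + n (b.equivFun.symm g) := by
      apply b.equivFun.injective
      rw [hw, map_add, map_sum, Lat_nab b D hn, LinearEquiv.apply_symm_apply]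
      congr 1
      refine Finset.sum_congr rfl fun i _ => ?_
      funext l
      rw [hsm, LinearEquiv.apply_symm_apply, Pi.smul_apply]
    have h2 : w = (∑ i, a i • (⟨b.equivFun.symm (B i), fun l => by
        rw [LinearEquiv.apply_symm_apply]; exact hB i l⟩ : W)) + nW ⟨b.equivFun.symm g, hgW⟩ := by
      apply Subtype.ext
      rw [h1, Submodule.coe_add, Submodule.coe_sum]
      rfl
    have h3 : mk (nW ⟨b.equivFun.symm g, hgW⟩) = 0 := (hmk0 _).2 ⟨⟨b.equivFun.symm g, hgW⟩, rfl⟩
    rw [h2, map_add, h3, add_zero, map_sum]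
    exact Finset.sum_congr rfl fun i _ => map_smul _ _ _
  have hfd : FiniteDimensional k H := by
    refine ⟨⟨Finset.univ.image β, ?_⟩⟩
    rw [eq_top_iff]
    rintro a -
    obtain ⟨w, rfl⟩ : ∃ v, mk v = a := ⟨_, hrep a⟩
    obtain ⟨T', c', H', hT', h1⟩ := hred (Set.range fun i => b.equivFun w i) 1 (Set.finite_range _)
    obtain ⟨q, -, -, h2⟩ := h1 0
    obtain ⟨a, g, hg, h3, -⟩ := h2 (b.equivFun w) w.2 (fun i => G_mono le_rfl (by omega) (G_mem ⟨i, rfl⟩))
    rw [hdec w a g hg h3]
    refine Submodule.sum_mem _ fun i _ => Submodule.smul_mem _ _ (Submodule.subset_span ?_)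
    simp
  have hmjT : ∀ j, TameV k (mj j) := by
    intro j a ψ
    obtain ⟨w, rfl⟩ : ∃ v, mk v = a := ⟨_, hrep a⟩
    have hit : ∀ m : ℕ, ((nj j)^[m] w) ∈ W := by
      intro m
      induction m with
      | zero => exact w.2
      | succ m ih => rw [Function.iterate_succ_apply']; exact hnjW j _ ih
    have hit2 : ∀ m : ℕ, (mj j)^[m] (mk w) = mk ⟨(nj j)^[m] w, hit m⟩ := by
      intro m
      induction m with
      | zero => rfl
      | succ m ih =>
        rw [Function.iterate_succ_apply', ih, hmj]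
        congr 1
        exact Subtype.ext (Function.iterate_succ_apply' _ _ _).symm
    have hg : GmS fun (m : ℕ) (i : Fin r) =>
        b.equivFun (((m.factorial : K)⁻¹) • (nj j)^[m] (w : V)) i := by
      refine GmS.family (f := fun (m : ℕ) (i : Fin r) =>
        b.equivFun (((m.factorial : K)⁻¹) • (nj j)^[m] (w : V)) i) fun i => ?_
      exact tj j (w : V) (LinearMap.proj i ∘ₗ b.equivFun.toLinearMap)
    obtain ⟨T, c, H0, hT, h1⟩ := hg
    obtain ⟨T', c', H1, hT', h2⟩ := hred T c hT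
    refine ⟨T' ∪ Set.range fun i => ψ (β i), c' + 1, H1 * H0, hT'.union (Set.finite_range _),
      fun N => ?_⟩
    obtain ⟨q, q0, q1, q2⟩ := h1 N
    obtain ⟨q', q0', q1', q2'⟩ := h2 N
    refine ⟨q' * q, Nat.mul_pos q0' q0, ?_, fun m hm _ => ?_⟩
    · rw [mul_pow]
      exact Nat.mul_le_mul q1' q1
    have hkK : (q : K) • (((m.factorial : K)⁻¹) • (nj j)^[m] (w : V)) =
        ((((q : k) • ((m.factorial : k)⁻¹) • (⟨(nj j)^[m] w, hit m⟩ : W) : W)) : V) := by
      rw [Submodule.coe_smul, Submodule.coe_smul, ← algebraMap_smul K (q : k),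
        ← algebraMap_smul K ((m.factorial : k)⁻¹), map_inv₀, map_natCast, map_natCast]
    obtain ⟨a, g, hgO, h3, h4⟩ := q2' (b.equivFun ((q : K) • (((m.factorial : K)⁻¹) • (nj j)^[m] (w : V))))
      (by
        rw [hkK]
        exact ((q : k) • ((m.factorial : k)⁻¹) • (⟨(nj j)^[m] w, hit m⟩ : W) : W).2)
      (fun i => by
        rw [map_smul, Pi.smul_apply, smul_eq_mul]
        exact q2 m hm i)
    rw [hkK] at h3
    have h5 := hdec _ a g hgO h3
    rw [map_smul, map_smul, ← hit2] at h5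
    have h6 : ((q' * q : ℕ) : k) * ψ (((m.factorial : k)⁻¹) • (mj j)^[m] (mk w)) =
        ∑ i, ((q' : k) * a i) * ψ (β i) := by
      have h7 := congrArg ψ h5
      rw [map_smul, map_sum, smul_eq_mul] at h7
      push_cast
      rw [mul_assoc, h7, Finset.mul_sum]
      refine Finset.sum_congr rfl fun i _ => ?_
      rw [map_smul, smul_eq_mul]
      ring
    rw [h6]
    refine AddSubgroup.sum_mem _ fun i _ => ?_
    have h8 := (G (T' ∪ Set.range fun i => ψ (β i))).mul
      (G_mono Set.subset_union_left le_rfl (h4 i)) (G_mem (Or.inr ⟨i, rfl⟩ : ψ (β i) ∈ _))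
    refine (G (T' ∪ Set.range fun i => ψ (β i))).mono ?_ h8
    rw [add_mul]
    omega
  refine ⟨H, inferInstance, inferInstance, W, fun v => if hv : v ∈ W then mk ⟨v, hv⟩ else 0, mj, hfd,
    fun w hw => hΩδ w hw, hnW, hnjW, ?_, ?_, ?_, ?_, hmjC, ?_, ?_, hmjT⟩
  · intro w hw w' hw'
    simp only [hw, hw', W.add_mem hw hw', dif_pos]
    rw [← map_add]
    rfl
  · intro c w hw
    simp only [hw, W.smul_mem c hw, dif_pos]
    rw [← map_smul]
    rfl
  · intro a
    refine ⟨rep a, (rep a).2, ?_⟩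
    simp only [(rep a).2, dif_pos]
    exact hrep a
  · intro w hw
    simp only [hw, dif_pos]
    rw [hmk0]
    constructor
    · rintro ⟨u, hu⟩
      exact ⟨u, u.2, hu⟩
    · rintro ⟨u, hu, hu'⟩
      exact ⟨⟨u, hu⟩, hu'⟩
  · intro j w hw
    simp only [hw, hnjW j w hw, dif_pos]
    rw [hmj]
  · intro i j a
    obtain ⟨w, rfl⟩ : ∃ v, mk v = a := ⟨_, hrep a⟩
    rw [hmj j w, hmj i w, hmj i (njW j w), hmj j (njW i w)]
    congr 1
    exact Subtype.ext (comm' i j w)

end Pool.Agent.Helper79.GA
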