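import Pool.Agent.Helper79.GA.StatG
import Pool.Agent.Helper79.GA.Fib
import Pool.Agent.Helper79.GA.Conv
import Pool.Agent.Helper79.GA.Block
import Pool.Agent.Helper79.CU.MainC

/-!
# GA: assembly
-/

open Polynomial Pool.Agent.Helper64.Per

namespace Pool.Agent.Helper79.GA

open Pool.Agent.Helper79.CU Pool.Agent.Helper79.SE Pool.Agent.Helper79.GX

/-- The Gauss-Manin connection has geometric denominators at almost all points. -/
theorem alg_ga {κ L : Type} [Field κ] [CharZero κ] [Algebra.IsAlgebraic ℚ κ] [Field L]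
    [Algebra κ L] {T : κ[X]} (hT : T ≠ 0) {d : ℕ} {ι : Type} [Fintype ι] [DecidableEq ι]
    (Φ : FunctionForms κ L T d ι) :
    ∃ Bad : Set κ, Bad.Finite ∧ ∀ s₀ ∉ Bad, T.eval s₀ ≠ 0 ∧ ∀ c : κ, c ≠ 0 →
      ∀ τ : PowerSeries κ, phi s₀ c T * τ = 1 → IterBd (sysU s₀ c τ Φ.A) := by
  have : CharZero L := charZero_of_injective_algebraMap (algebraMap κ L).injective
  obtain ⟨K, _, _, _, t, D₀, h1, h2⟩ := fib_tame Φ.indep Φ.finite Φ.D_x hT Φ.gm Φ.ind
  exact conv h1 hT h2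

/-- The same for a finite family. -/
theorem alg_ga_family {κ : Type} [Field κ] [CharZero κ] [Algebra.IsAlgebraic ℚ κ] {β : Type}
    [Fintype β] [DecidableEq β] {L : β → Type} [∀ b, Field (L b)] [∀ b, Algebra κ (L b)]
    {T : κ[X]} (hT : T ≠ 0) {d : β → ℕ} {ι : β → Type} [∀ b, Fintype (ι b)]
    [∀ b, DecidableEq (ι b)] (Φ : ∀ b, FunctionForms κ (L b) T (d b) (ι b)) :
    ∃ Bad : Set κ, Bad.Finite ∧ ∀ s₀ ∉ Bad, T.eval s₀ ≠ 0 ∧ ∀ c : κ, c ≠ 0 →
      ∀ τ : PowerSeries κ, phi s₀ c T * τ = 1 →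
        IterBd (sysU s₀ c τ (Matrix.blockDiagonal' fun b => (Φ b).A)) := by
  choose Bad hBad hb using fun b => alg_ga hT (Φ b)
  refine ⟨(⋃ b, Bad b) ∪ {x | T.IsRoot x}, (Set.finite_iUnion hBad).union
    (finite_setOfPred_isRoot hT), fun s₀ hs₀ => ?_⟩
  simp only [Set.mem_union, Set.mem_iUnion, not_or, not_exists] at hs₀
  refine ⟨hs₀.2, fun c hc τ hτ => iterBd_block fun b => ?_⟩
  exact (hb b s₀ (hs₀.1 b)).2 c hc τ hτ

/-- The main theorem. -/
theorem mainGA {κ : IntermediateField ℚ Qbar} [FiniteDimensional ℚ κ] {β : Type} [Fintype β]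
    [DecidableEq β] {L : β → Type} [∀ b, Field (L b)] [∀ b, Algebra κ (L b)] {T : κ[X]}
    (hT : T ≠ 0) {d : β → ℕ} {γ : β → Type} [∀ b, Fintype (γ b)] [∀ b, DecidableEq (γ b)]
    (Φ : ∀ b, FunctionForms κ (L b) T (d b) (γ b)) {μ r : ℕ} {ι : Type} [Fintype ι]
    [DecidableEq ι] [Nonempty ι]
    (E : SubTensor T (Matrix.blockDiagonal' fun b => (Φ b).A) μ r ι) :
    ∃ Bad : Set κ, Bad.Finite ∧ ∀ s₀ ∉ Bad, ∀ c : κ, c ≠ 0 → ∀ U : Set ℂ, IsOpen U →
      IsPreconnected U → ((s₀ : Qbar) : ℂ) ∈ U → ∀ w : ℂ → ℂ, IsBranchOf κ U μ w →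
      ∀ P : ℂ → Matrix ι ι ℂ, IsPeriodST E U w P → (∀ t ∈ U, IsUnit (P t).det) → ∀ δ : ℕ,
      ∃ (B : ℕ) (θ C : ℝ), 0 < θ ∧ θ < 1 ∧
      (∀ n : ℕ, 1 ≤ n → Set.ncard {i : ℤ | (n : ℝ) ≤ |(i : ℝ)| ∧
        |(i : ℝ)| ≤ n + (n : ℝ) ^ θ ∧ i ∈ {i : ℤ | i ≠ 0 ∧
          ((s₀ : Qbar) : ℂ) + ((c : Qbar) : ℂ) / (i : ℂ) ∈ U ∧
          HasRelationC U w P (((s₀ : Qbar) : ℂ) + ((c : Qbar) : ℂ) / (i : ℂ)) κ δ}} ≤ B) ∧
      ∀ X : ℕ, 1 ≤ X → (Set.ncard {i : ℤ | |(i : ℝ)| ≤ X ∧ i ∈ {i : ℤ | i ≠ 0 ∧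
          ((s₀ : Qbar) : ℂ) + ((c : Qbar) : ℂ) / (i : ℂ) ∈ U ∧
          HasRelationC U w P (((s₀ : Qbar) : ℂ) + ((c : Qbar) : ℂ) / (i : ℂ)) κ δ}} : ℝ) ≤
        C * (X : ℝ) ^ (1 - θ) := by
  have : Algebra.IsAlgebraic ℚ κ := inferInstance
  obtain ⟨Bad₀, hBad₀, halg⟩ := alg_ga_family hT Φ
  obtain ⟨ρ, θ, hθ, hρ⟩ := exists_rinv E.ind
  refine ⟨Bad₀ ∪ {x | θ.IsRoot x}, hBad₀.union (finite_setOfPred_isRoot hθ),
    fun s₀ hs₀ c hc U hU hU' hsU w hw P hP hdet δ => ?_⟩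
  simp only [Set.mem_union, not_or] at hs₀
  obtain ⟨hs1, hs2⟩ := hs₀
  obtain ⟨hT0, hiter⟩ := halg s₀ hs1
  obtain ⟨g, V, cc, hV, hPV⟩ := hP
  obtain ⟨f, hf⟩ := hw.eqn
  have hb : ∀ (τ : PowerSeries κ), phi s₀ c T * τ = 1 → IterBd (sysU s₀ c τ E.B) := by
    intro τ hτ
    exact iterBd_TS E.stable hρ hs2 hτ (hiter c hc τ hτ)
  obtain ⟨T₂, h, Eh, A', hG, hdeg, hT2', hE1, hTh, hE2, hA', hT2⟩ := exists_sysG (c := c) hT0 hb
  obtain ⟨R, hR, hball⟩ := Metric.isOpen_iff.1 hU _ hsU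
  set σ : ℂ := ((s₀ : Qbar) : ℂ) with hσ
  set ω : ℂ := ((c : Qbar) : ℂ) with hω
  have hω0 : ω ≠ 0 := by
    rw [hω]
    simpa using hc
  set U₁ : Set ℂ := {u : ℂ | u ≠ 0 ∧ σ + ω / u ∈ Metric.ball σ R} with hU₁
  have hρ : 0 < ‖ω‖ / R := by positivity
  have hU₁' : U₁ = {u : ℂ | ‖ω‖ / R < ‖u‖} := by
    ext u
    simp only [hU₁, Set.mem_ofPred_eq, Metric.mem_ball, dist_self_add_left, norm_div]
    constructor
    · rintro ⟨h1, h2⟩
      have h3 : 0 < ‖u‖ := norm_pos_iff.2 h1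
      rw [div_lt_iff₀ h3] at h2
      rw [div_lt_iff₀ hR, mul_comm]
      exact h2
    · intro h1
      have h3 : 0 < ‖u‖ := hρ.trans h1
      refine ⟨norm_pos_iff.1 h3, ?_⟩
      rw [div_lt_iff₀ h3, mul_comm]
      rwa [div_lt_iff₀ hR] at h1
  have hU₁o : IsOpen U₁ := by
    rw [hU₁']
    exact isOpen_lt continuous_const continuous_norm
  have hU₁c : IsPreconnected U₁ := by
    rw [hU₁']
    exact isPreconnected_large hρ
  have hmem : ∀ u ∈ U₁, u ≠ 0 ∧ σ + ω / u ∈ U := fun u hu => ⟨hu.1, hball hu.2⟩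
  have hd1 : ∀ u : ℂ, u ≠ 0 → HasDerivAt (fun u : ℂ => σ + ω / u) (-ω / u ^ 2) u := by
    intro u hu
    have h1 := ((hasDerivAt_inv hu).const_mul ω).const_add σ
    refine (h1.congr_deriv ?_).congr_of_eventuallyEq ?_
    · field_simp
    · filter_upwards with v
      rw [div_eq_mul_inv]
  -- the functions `W = M V^{⊗ r} c`
  set W : ℂ → Matrix (Fin μ × ι) ι ℂ := fun t p b =>
    ∑ I, aeval t (E.M p I) * (tpow r (V t) * cc) I b with hW
  have hWP : ∀ t ∈ U, ∀ (l : Fin μ) (a b : ι), w t ^ (l : ℕ) * P t a b = W t (l, a) b := hPV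
  have hWode : ∀ t ∈ U, ∀ p b, DifferentiableAt ℂ (fun t => W t p b) t ∧
      aeval t T * deriv (fun t => W t p b) t = ∑ q, aeval t (E.B p q) * W t q b := by
    intro t ht p b
    exact sub_ode (fun i k => (hV t ht i k).1) (fun i k => (hV t ht i k).2) E.stable cc p b
  obtain ⟨⟨m₀, hm₀⟩⟩ : Nonempty (Fin μ) := by
    by_contra h1
    have h2 : μ = 0 := by
      by_contra h3
      exact h1 ⟨⟨0, Nat.pos_of_ne_zero h3⟩⟩
    subst h2
    have h3 := hf _ hsU
    simp at h3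
  have hPan : ∀ a k, AnalyticOnNhd ℂ (fun t => P t a k) U := by
    intro a k
    refine DifferentiableOn.analyticOnNhd (fun t ht => ?_) hU
    have h1 : (fun t => P t a k) =ᶠ[nhds t] fun t => W t (⟨0, by omega⟩, a) k := by
      filter_upwards [hU.mem_nhds ht] with z hz
      have := hWP z hz ⟨0, by omega⟩ a k
      rwa [pow_zero, one_mul] at this
    exact (((hWode t ht _ _).1).congr_of_eventuallyEq h1).differentiableWithinAt
  -- the functions of `u`
  set D : ℕ := ∑ l, (f l).natDegree with hD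
  have hfD : ∀ l, (f l).natDegree ≤ D := fun l =>
    Finset.single_le_sum (f := fun l => (f l).natDegree) (fun _ _ => Nat.zero_le _)
      (Finset.mem_univ l)
  set V' : ℂ → Matrix (Fin μ × ι) ι ℂ := fun u p k => W (σ + ω / u) p k with hV'
  have hVan : ∀ b k, AnalyticOnNhd ℂ (fun u => V' u b k) U₁ := by
    intro b k
    refine DifferentiableOn.analyticOnNhd (fun u hu => ?_) hU₁o
    have h1 := (hWode _ (hmem u hu).2 b k).1
    exact (h1.comp u (hd1 u hu.1).differentiableAt).differentiableWithinAt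
  have hTu : ∀ u : ℂ, u ≠ 0 → aeval u T₂ = u ^ Eh * aeval (σ + ω / u) T * aeval u h := by
    intro u hu
    have h1 : aeval u (T₂.map (Int.castRingHom κ)) = aeval u T₂ := by
      rw [aeval_def, aeval_def, eval₂_map]
      congr 1
    rw [← h1, hTh, map_mul, aeval_reflect _ hE1 hu, aeval_line]
  have hVode : ∀ u ∈ U₁, ∀ b k, aeval u T₂ * deriv (fun u => V' u b k) u =
      ∑ l, aeval u (A' b l) * V' u l k := by
    intro u hu b k
    have h1 := (hWode _ (hmem u hu).2 b k).1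
    have h2 : deriv (fun u => V' u b k) u = deriv (fun t => W t b k) (σ + ω / u) *
        (-ω / u ^ 2) :=
      (HasDerivAt.comp (h₂ := fun t => W t b k) u h1.hasDerivAt (hd1 u hu.1)).deriv
    have h3 := (hWode _ (hmem u hu).2 b k).2
    have h4 : ∀ l, aeval u ((-(C c * X ^ 2) *
        (E.B b l).comp (C s₀ + C c * X)).reflect Eh) =
        u ^ Eh * (-ω / u ^ 2) * aeval (σ + ω / u) (E.B b l) := by
      intro l
      rw [aeval_reflect _ (hE2 _ _) hu.1, map_mul, aeval_line, map_neg, map_mul, aeval_C,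
        map_pow, aeval_X, mul_assoc]
      congr 2
      rw [inv_pow, ← div_eq_mul_inv, neg_div]
      rfl
    rw [h2, hTu u hu.1]
    have h5 : ∀ l, aeval u (A' b l) * V' u l k = u ^ Eh * (-ω / u ^ 2) * aeval u h *
        (aeval (σ + ω / u) (E.B b l) * W (σ + ω / u) l k) := by
      intro l
      rw [hA', map_mul, h4]
      ring
    rw [Finset.sum_congr rfl fun l _ => h5 l, ← Finset.mul_sum, ← h3]
    ring
  have hlarge : ∀ t : ℝ, ‖ω‖ / R < |t| → (t : ℂ) ∈ U₁ := by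
    intro t ht
    rw [hU₁', Set.mem_ofPred_eq, Complex.norm_real]
    exact ht
  have main := mainK (κ := κ) (m := μ) (T := T₂) (A := A') hG
    (fun i j => by have := hdeg i j; omega) (N := 0)
    (fun i j => by
      rw [Matrix.zero_apply, mul_zero, neg_zero]
      exact coeff_eq_zero_of_natDegree_lt (by have := hdeg i j; omega))
    (fun z hz => ⟨0, by
      rw [Matrix.charpoly_zero, Polynomial.map_pow, map_X, IsRoot, eval_pow, eval_X] at hz
      rw [eq_zero_of_pow_eq_zero hz]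
      simp⟩)
    hU₁o hU₁c (t₀ := ‖ω‖ / R) hlarge (w := fun u => u ^ D * w (σ + ω / u))
    (fun u hu => by
      have h1 : AnalyticAt ℂ (fun u : ℂ => σ + ω / u) u :=
        analyticAt_const.add (analyticAt_const.div analyticAt_id hu.1)
      have h2 : AnalyticAt ℂ w ((fun u : ℂ => σ + ω / u) u) := hw.analytic _ (hmem u hu).2
      have h3 : AnalyticAt ℂ (fun u : ℂ => w (σ + ω / u)) u :=
        AnalyticAt.fun_comp (g := w) (f := fun u : ℂ => σ + ω / u) h2 h1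
      exact (analyticAt_id.pow D).mul h3)
    (f := fun l => X ^ (D * (μ - l) - D) * ((f l).comp (C s₀ + C c * X)).reflect D)
    (fun u hu => by
      have h1 := hf _ (hmem u hu).2
      rw [mul_pow, h1, Finset.mul_sum]
      refine Finset.sum_congr rfl fun l _ => ?_
      have h2 : ((f l).comp (C s₀ + C c * X)).natDegree ≤ D := by
        refine (natDegree_comp_le).trans ?_
        have h3 : (C s₀ + C c * X : Polynomial κ).natDegree ≤ 1 := by
          rw [add_comm]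
          exact natDegree_linear_le
        refine (Nat.mul_le_mul_left _ h3).trans ?_
        rw [mul_one]
        exact hfD l
      rw [map_mul, map_pow, aeval_X, aeval_reflect _ h2 hu.1, aeval_line, mul_pow, ← pow_mul,
        ← pow_mul]
      have h3 : (l : ℕ) < μ := l.2
      obtain ⟨e, he⟩ : ∃ e, μ = l + 1 + e := ⟨μ - (l + 1), by omega⟩
      have h4 : D * (μ - l) - D = D * e := by
        have h5 : μ - (l : ℕ) = e + 1 := by omega
        rw [h5, mul_add, mul_one, Nat.add_sub_cancel]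
      have h6 : D * μ = D * e + D + D * l := by
        calc D * μ = D * (l + 1 + e) := congrArg (D * ·) he
          _ = _ := by ring
      rw [h4, h6, pow_add, pow_add, ← hσ, ← hω]
      ring)
    (V := V') hVan hVode
    (Z := Matrix.diagonal fun p => X ^ (D * (p.1 : ℕ)))
    (by
      rw [Matrix.det_diagonal]
      exact Finset.prod_ne_zero_iff.2 fun p _ => pow_ne_zero _ X_ne_zero)
    (P := fun u => P (σ + ω / u))
    (fun u hu l a k => by
      rw [Finset.sum_eq_single (l, a)]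
      · rw [Matrix.diagonal_apply_eq, map_pow, aeval_X, hV', mul_pow, ← pow_mul, mul_assoc,
          hWP _ (hmem u hu).2]
      · intro b _ hb
        rw [Matrix.diagonal_apply_ne _ (Ne.symm hb), map_zero, zero_mul]
      · intro h6
        exact absurd (Finset.mem_univ _) h6)
    (fun t ht => hdet _ (hmem t ht).2) δ
  refine few_of_large (E' := {i : ℤ | (i : ℂ) ∈ U₁ ∧ HasRelationC U₁
    (fun u => u ^ D * w (σ + ω / u)) (fun u => P (σ + ω / u)) (i : ℂ) κ δ})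
    (n₀ := ⌈‖ω‖ / R⌉₊) ?_ main
  rintro i ⟨hi0, hiU, hrel⟩ hi
  have h1 : ‖ω‖ / R < |(i : ℝ)| := (Nat.le_ceil _).trans_lt hi
  have h2 : (i : ℂ) ∈ U₁ := by
    have := hlarge (i : ℝ) h1
    simpa using this
  refine ⟨h2, ?_⟩
  have h3 : HasRelationC (Metric.ball σ R) w P (σ + ω / (i : ℂ)) κ δ :=
    rel_restrictC hU' Metric.isOpen_ball ⟨σ, Metric.mem_ball_self hR⟩ hball hw.analytic hPan hrel
  exact rel_moebiusC hc hi0 D h3

end Pool.Agent.Helper79.GA
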