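import Pool.Agent.Helper79.GA.StatG
import Pool.Agent.Helper79.CU.RelC

/-!
# GA-42: relations and Moebius transformations of the parameter

The same proof as `rel_moebiusC` in `CU/RelC.lean` (the case `g(u) = s₀ + c/u`, factor `u^D`), with `g(u) = (a u + b)/(c u + e)`, `j(u) = c u + e`, factor `j(u)^D`.
* `t = g(n) ∈ κ` (`n` an integer, `j(n) ≠ 0`), so `kapC κ t (w t) ≤ kapC κ n (j(n)^D w t)`: the generators are the elements of `κ`, `t ∈ κ`, and `w t` if it is algebraic: then `j(n)^D w t` is algebraic, belongs to the right-hand side, and `j(n)^D ∈ κ` is not `0`.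
  Map `r` along the inclusion (same degree bound and values).
* If `q(x, y, M)` vanishes at all `(u, j(u)^D w(g(u)), P(g(u)))`, `j(u) ≠ 0`, `g(u) ∈ U`: the inverse transformation is `u = (e t - b)/(a - c t)`, `j(u) = Δ₀/(a - c t)`, `Δ₀ = a e - b c`. Consider
  `q'(t, y, M) = (a - c t)^N' q((e t - b)/(a - c t), (Δ₀/(a - c t))^D y, M)`, `N' ≥ 1` large: a polynomial over `Qbar`; it vanishes at all `(t, w t, P t)`, `t ∈ U` (if `a - c t = 0` because of the factor; otherwise `u = (e t - b)/(a - c t)` satisfies `j(u) ≠ 0`,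
  `g(u) = t`), hence at `(s, w s, M)` for `M ∈ BFibreC U w P s`, `s = g(n)`; `a - c s = Δ₀/j(n) ≠ 0`, and so `q(n, j(n)^D w s, M) = 0`.
-/

open Polynomial Pool.Agent.Helper64.Per Pool.Agent.Helper79.GX

namespace Pool.Agent.Helper79.GA

open Pool.Agent.Helper79.CU

section

variable {ι : Type}

private lemma evC_C (a : Qbar) (x y : ℂ) (M : Matrix ι ι ℂ) :
    evC (MvPolynomial.C a : MvPolynomial (Bool ⊕ ι × ι) Qbar) x y M = (a : ℂ) := by
  unfold evC
  rw [MvPolynomial.aeval_C]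
  rfl

private lemma evC_add (p q : MvPolynomial (Bool ⊕ ι × ι) Qbar) (x y : ℂ) (M : Matrix ι ι ℂ) :
    evC (p + q) x y M = evC p x y M + evC q x y M := by
  unfold evC
  rw [map_add]

private lemma evC_sub (p q : MvPolynomial (Bool ⊕ ι × ι) Qbar) (x y : ℂ) (M : Matrix ι ι ℂ) :
    evC (p - q) x y M = evC p x y M - evC q x y M := by
  unfold evC
  rw [map_sub]

private lemma evC_mul (p q : MvPolynomial (Bool ⊕ ι × ι) Qbar) (x y : ℂ) (M : Matrix ι ι ℂ) :
    evC (p * q) x y M = evC p x y M * evC q x y M := by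
  unfold evC
  rw [map_mul]

private lemma evC_pow (p : MvPolynomial (Bool ⊕ ι × ι) Qbar) (n : ℕ) (x y : ℂ)
    (M : Matrix ι ι ℂ) : evC (p ^ n) x y M = evC p x y M ^ n := by
  unfold evC
  rw [map_pow]

private lemma evC_Xt (x y : ℂ) (M : Matrix ι ι ℂ) :
    evC (MvPolynomial.X (Sum.inl true) : MvPolynomial (Bool ⊕ ι × ι) Qbar) x y M = x := by
  unfold evC
  rw [MvPolynomial.aeval_X]
  rfl

private lemma evC_Xf (x y : ℂ) (M : Matrix ι ι ℂ) :
    evC (MvPolynomial.X (Sum.inl false) : MvPolynomial (Bool ⊕ ι × ι) Qbar) x y M = y := by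
  unfold evC
  rw [MvPolynomial.aeval_X]
  rfl

private lemma evC_Xr (p : ι × ι) (x y : ℂ) (M : Matrix ι ι ℂ) :
    evC (MvPolynomial.X (Sum.inr p) : MvPolynomial (Bool ⊕ ι × ι) Qbar) x y M = M p.1 p.2 := by
  unfold evC
  rw [MvPolynomial.aeval_X]
  rfl

private lemma exists_substM (a b c e : Qbar) (D : ℕ) (q : MvPolynomial (Bool ⊕ ι × ι) Qbar) :
    ∃ (N : ℕ) (q' : MvPolynomial (Bool ⊕ ι × ι) Qbar), ∀ t : ℂ, (a : ℂ) - (c : ℂ) * t ≠ 0 →
      ∀ (y : ℂ) (M : Matrix ι ι ℂ), evC q' t y M =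
        ((a : ℂ) - (c : ℂ) * t) ^ N *
          evC q (((e : ℂ) * t - (b : ℂ)) / ((a : ℂ) - (c : ℂ) * t))
          ((((a : ℂ) * (e : ℂ) - (b : ℂ) * (c : ℂ)) / ((a : ℂ) - (c : ℂ) * t)) ^ D * y) M := by
  induction q using MvPolynomial.induction_on with
  | C x =>
    refine ⟨0, MvPolynomial.C x, fun t ht y M => ?_⟩
    rw [evC_C, evC_C, pow_zero, one_mul]
  | add p q hp hq =>
    obtain ⟨N₁, p', hp⟩ := hp
    obtain ⟨N₂, q', hq⟩ := hq
    refine ⟨N₁ + N₂,
      (MvPolynomial.C a - MvPolynomial.C c * MvPolynomial.X (Sum.inl true)) ^ N₂ * p' +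
      (MvPolynomial.C a - MvPolynomial.C c * MvPolynomial.X (Sum.inl true)) ^ N₁ * q',
      fun t ht y M => ?_⟩
    rw [evC_add, evC_add, evC_mul, evC_mul, evC_pow, evC_pow, evC_sub, evC_mul, evC_Xt, evC_C,
      evC_C, hp t ht y M, hq t ht y M]
    ring
  | mul_X p i hp =>
    obtain ⟨N, p', hp⟩ := hp
    rcases i with x | i
    · cases x with
      | false =>
        refine ⟨N + D,
          p' * (MvPolynomial.C ((a * e - b * c) ^ D) * MvPolynomial.X (Sum.inl false)),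
          fun t ht y M => ?_⟩
        have h5 : (((a * e - b * c) ^ D : Qbar) : ℂ) =
            ((a : ℂ) * (e : ℂ) - (b : ℂ) * (c : ℂ)) ^ D := by push_cast; rfl
        rw [evC_mul, evC_mul, evC_mul, evC_Xf, evC_Xf, evC_C, hp t ht y M, h5, div_pow, pow_add]
        field_simp
      | true =>
        refine ⟨N + 1,
          p' * (MvPolynomial.C e * MvPolynomial.X (Sum.inl true) - MvPolynomial.C b),
          fun t ht y M => ?_⟩
        rw [evC_mul, evC_mul, evC_sub, evC_mul, evC_Xt, evC_Xt, evC_C, evC_C, hp t ht y M]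
        field_simp
        ring
    · refine ⟨N, p' * MvPolynomial.X (Sum.inr i), fun t ht y M => ?_⟩
      rw [evC_mul, evC_mul, evC_Xr, evC_Xr, hp t ht y M]
      ring

private lemma transfer {K K' : IntermediateField ℚ Qbar} (hle : K ≤ K')
    (r : MvPolynomial (ι × ι) K) : ∃ r' : MvPolynomial (ι × ι) K',
      r'.totalDegree ≤ r.totalDegree ∧ ∀ M : Matrix ι ι ℂ, evK K' r' M = evK K r M := by
  refine ⟨MvPolynomial.map (IntermediateField.inclusion hle).toRingHom r,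
    Finset.sup_mono (MvPolynomial.support_map_subset _ _), fun M => ?_⟩
  simp only [evK]
  rw [MvPolynomial.aeval_def, MvPolynomial.eval₂_map, MvPolynomial.aeval_def]
  rfl

end

private lemma kap_le (κ : IntermediateField ℚ Qbar) (x y x' y' : ℂ)
    (hx : ∀ z : Qbar, (z : ℂ) = x → z ∈ kapC κ x' y')
    (hy : ∀ z : Qbar, (z : ℂ) = y → z ∈ kapC κ x' y') : kapC κ x y ≤ kapC κ x' y' := by
  have h1 : IntermediateField.adjoin ℚ {z : Qbar | (z : ℂ) = x ∨ (z : ℂ) = y} ≤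
      kapC κ x' y' := by
    rw [IntermediateField.adjoin_le_iff]
    rintro z (hz | hz)
    · exact hx z hz
    · exact hy z hz
  exact sup_le le_sup_left h1

private lemma mem_kap (κ : IntermediateField ℚ Qbar) (x y : ℂ) (z : Qbar) (hz : (z : ℂ) = y) :
    z ∈ kapC κ x y := by
  have h1 : z ∈ IntermediateField.adjoin ℚ {z : Qbar | (z : ℂ) = x ∨ (z : ℂ) = y} :=
    IntermediateField.subset_adjoin ℚ _ (Or.inr hz)
  have h2 : IntermediateField.adjoin ℚ {z : Qbar | (z : ℂ) = x ∨ (z : ℂ) = y} ≤ kapC κ x y :=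
    le_sup_right
  exact h2 h1

private lemma kap_base (κ : IntermediateField ℚ Qbar) (x y : ℂ) (z : Qbar) (hz : z ∈ κ) :
    z ∈ kapC κ x y := by
  have h2 : κ ≤ kapC κ x y := le_sup_left
  exact h2 hz

private lemma mem_of_mul {K : IntermediateField ℚ Qbar} {a z : Qbar} (ha : a ∈ K) (h0 : a ≠ 0)
    (h : a * z ∈ K) : z ∈ K := by
  have h3 : z = a⁻¹ * (a * z) := by rw [inv_mul_cancel_left₀ h0]
  rw [h3]
  exact K.mul_mem (K.inv_mem ha) h

private lemma int_mem (K : IntermediateField ℚ Qbar) (n : ℤ) : (n : Qbar) ∈ K :=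
  intCast_mem K n

private lemma mob_num {A B C E t : ℂ} (h : A - C * t ≠ 0) :
    A * ((E * t - B) / (A - C * t)) + B = (A * E - B * C) * t / (A - C * t) := by
  rw [eq_div_iff h, add_mul, mul_assoc, div_mul_cancel₀ _ h]
  ring

private lemma mob_den {A B C E t : ℂ} (h : A - C * t ≠ 0) :
    C * ((E * t - B) / (A - C * t)) + E = (A * E - B * C) / (A - C * t) := by
  field_simp
  ring

private lemma mob_inv {A B C E t : ℂ} (h : A - C * t ≠ 0) (hΔ : A * E - B * C ≠ 0) :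
    (A * ((E * t - B) / (A - C * t)) + B) / (C * ((E * t - B) / (A - C * t)) + E) = t := by
  rw [mob_num h, mob_den h, div_div_div_cancel_right₀ h, mul_div_cancel_left₀ _ hΔ]

private lemma mob_back {A B C E n : ℂ} (h : C * n + E ≠ 0) (hΔ : A * E - B * C ≠ 0) :
    (E * ((A * n + B) / (C * n + E)) - B) / (A - C * ((A * n + B) / (C * n + E))) = n := by
  have h1 : E * ((A * n + B) / (C * n + E)) - B = (A * E - B * C) * n / (C * n + E) := by
    rw [eq_div_iff h, sub_mul, mul_assoc, div_mul_cancel₀ _ h]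
    ring
  have h2 : A - C * ((A * n + B) / (C * n + E)) = (A * E - B * C) / (C * n + E) := by
    field_simp
    ring
  rw [h1, h2, div_div_div_cancel_right₀ h, mul_div_cancel_left₀ _ hΔ]

theorem rel_mobC {ι : Type} [Fintype ι] [DecidableEq ι] {U : Set ℂ} {w : ℂ → ℂ}
    {P : ℂ → Matrix ι ι ℂ} {κ : IntermediateField ℚ Qbar} {a b c e : κ}
    (hd : a * e - b * c ≠ 0) {n : ℤ}
    (hn : algebraMap κ ℂ c * (n : ℂ) + algebraMap κ ℂ e ≠ 0) {δ : ℕ} (D : ℕ)
    (h : HasRelationC U w P (mobv a b c e (n : ℂ)) κ δ) :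
    HasRelationC {u : ℂ | algebraMap κ ℂ c * u + algebraMap κ ℂ e ≠ 0 ∧ mobv a b c e u ∈ U}
      (fun u => (algebraMap κ ℂ c * u + algebraMap κ ℂ e) ^ D * w (mobv a b c e u))
      (fun u => P (mobv a b c e u)) (n : ℂ) κ δ := by
  have ea : algebraMap κ ℂ a = ((a : Qbar) : ℂ) := rfl
  have eb : algebraMap κ ℂ b = ((b : Qbar) : ℂ) := rfl
  have ec : algebraMap κ ℂ c = ((c : Qbar) : ℂ) := rfl
  have ee : algebraMap κ ℂ e = ((e : Qbar) : ℂ) := rfl
  have hmob : ∀ u : ℂ, mobv a b c e u = (((a : Qbar) : ℂ) * u + ((b : Qbar) : ℂ)) /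
      (((c : Qbar) : ℂ) * u + ((e : Qbar) : ℂ)) := fun u => rfl
  rw [ec, ee] at hn ⊢
  have hΔ : ((a : Qbar) : ℂ) * ((e : Qbar) : ℂ) - ((b : Qbar) : ℂ) * ((c : Qbar) : ℂ) ≠ 0 := by
    intro h0
    apply hd
    apply Subtype.ext
    apply Subtype.ext
    exact h0
  have hle : kapC κ (mobv a b c e (n : ℂ)) (w (mobv a b c e (n : ℂ))) ≤
      kapC κ (n : ℂ) ((((c : Qbar) : ℂ) * (n : ℂ) + ((e : Qbar) : ℂ)) ^ D *
        w (mobv a b c e (n : ℂ))) := by
    apply kap_le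
    · intro z hz
      apply kap_base
      have h1 : z = ((a : Qbar) * (n : Qbar) + (b : Qbar)) /
          ((c : Qbar) * (n : Qbar) + (e : Qbar)) := by
        apply Subtype.ext
        rw [hz, hmob]
        push_cast
        rfl
      rw [h1]
      exact κ.div_mem (κ.add_mem (κ.mul_mem a.2 (int_mem κ n)) b.2)
        (κ.add_mem (κ.mul_mem c.2 (int_mem κ n)) e.2)
    · intro z hz
      have h2 : ((c : Qbar) * (n : Qbar) + (e : Qbar)) ^ D ≠ 0 := by
        refine pow_ne_zero _ fun h0 => hn ?_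
        have h1 := congrArg (fun z : Qbar => (z : ℂ)) h0
        simpa using h1
      refine mem_of_mul (a := ((c : Qbar) * (n : Qbar) + (e : Qbar)) ^ D)
        (IntermediateField.pow_mem _ ?_ D) h2 ?_
      · exact add_mem (mul_mem (kap_base _ _ _ _ c.2) (int_mem _ n)) (kap_base _ _ _ _ e.2)
      apply mem_kap
      push_cast
      rw [hz]
  obtain ⟨r, hdeg, hZ, hnot⟩ := h
  obtain ⟨r', hdeg', hev⟩ := transfer hle r
  refine ⟨r', hdeg'.trans hdeg, fun M hM => (hev M).trans (hZ M hM), fun hall => ?_⟩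
  refine hnot fun M hM => (hev M).symm.trans (hall M ⟨hM.1, fun q hq => ?_⟩)
  obtain ⟨N, q', hq'⟩ := exists_substM (ι := ι) (a : Qbar) (b : Qbar) (c : Qbar) (e : Qbar) D q
  have hev2 : ∀ (t y : ℂ) (M : Matrix ι ι ℂ),
      evC ((MvPolynomial.C (a : Qbar) - MvPolynomial.C (c : Qbar) *
        MvPolynomial.X (Sum.inl true)) * q') t y M =
      (((a : Qbar) : ℂ) - ((c : Qbar) : ℂ) * t) * evC q' t y M := by
    intro t y M
    rw [evC_mul, evC_sub, evC_mul, evC_Xt, evC_C, evC_C]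
  have key := hM.2 ((MvPolynomial.C (a : Qbar) - MvPolynomial.C (c : Qbar) *
        MvPolynomial.X (Sum.inl true)) * q')
    (fun t ht => by
    rw [hev2]
    by_cases hts : ((a : Qbar) : ℂ) - ((c : Qbar) : ℂ) * t = 0
    · rw [hts]; simp
    · have hj : ((c : Qbar) : ℂ) * ((((e : Qbar) : ℂ) * t - ((b : Qbar) : ℂ)) /
          (((a : Qbar) : ℂ) - ((c : Qbar) : ℂ) * t)) + ((e : Qbar) : ℂ) =
          (((a : Qbar) : ℂ) * ((e : Qbar) : ℂ) - ((b : Qbar) : ℂ) * ((c : Qbar) : ℂ)) /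
          (((a : Qbar) : ℂ) - ((c : Qbar) : ℂ) * t) := mob_den hts
      have hg : mobv a b c e ((((e : Qbar) : ℂ) * t - ((b : Qbar) : ℂ)) /
          (((a : Qbar) : ℂ) - ((c : Qbar) : ℂ) * t)) = t := by
        rw [hmob]
        exact mob_inv hts hΔ
      have h6 := hq ((((e : Qbar) : ℂ) * t - ((b : Qbar) : ℂ)) /
          (((a : Qbar) : ℂ) - ((c : Qbar) : ℂ) * t)) ⟨by rw [hj]; exact div_ne_zero hΔ hts, by
        rw [hg]; exact ht⟩
      simp only [hg, hj] at h6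
      rw [hq' t hts, h6]
      ring)
  rw [hev2] at key
  have h7 : ((a : Qbar) : ℂ) - ((c : Qbar) : ℂ) * mobv a b c e (n : ℂ) =
      (((a : Qbar) : ℂ) * ((e : Qbar) : ℂ) - ((b : Qbar) : ℂ) * ((c : Qbar) : ℂ)) /
        (((c : Qbar) : ℂ) * (n : ℂ) + ((e : Qbar) : ℂ)) := by
    rw [hmob]
    field_simp
    ring
  have h8 : ((a : Qbar) : ℂ) - ((c : Qbar) : ℂ) * mobv a b c e (n : ℂ) ≠ 0 := by
    rw [h7]
    exact div_ne_zero hΔ hn
  have h9 : (((e : Qbar) : ℂ) * mobv a b c e (n : ℂ) - ((b : Qbar) : ℂ)) /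
      (((a : Qbar) : ℂ) - ((c : Qbar) : ℂ) * mobv a b c e (n : ℂ)) = (n : ℂ) := by
    rw [hmob]
    exact mob_back hn hΔ
  have h10 : (((a : Qbar) : ℂ) * ((e : Qbar) : ℂ) - ((b : Qbar) : ℂ) * ((c : Qbar) : ℂ)) /
      (((a : Qbar) : ℂ) - ((c : Qbar) : ℂ) * mobv a b c e (n : ℂ)) =
      ((c : Qbar) : ℂ) * (n : ℂ) + ((e : Qbar) : ℂ) := by
    rw [h7]
    field_simp
  rw [hq' _ h8, h9, h10] at key
  rcases mul_eq_zero.1 key with h | h
  · exact absurd h h8
  · rcases mul_eq_zero.1 h with h | h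
    · exact absurd h (pow_ne_zero _ h8)
    · exact h

end Pool.Agent.Helper79.GA
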