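import Pool.Agent.Helper79.GA.StatG
import Pool.Agent.Helper79.GA.Ratx

/-!
# GA-43: tame systems and Moebius transformations; from Galochkin's condition to tame systems

`tame_mob`: in the field `K = κ(u)` put `v = (e u - b)/(a - c u)` (`a - c u ≠ 0`, `u` transcendental), so `u = g(v)`, `g(v) = (a v + b)/(c v + e)` (`mobv`), `J = c v + e = Δ₀/(a - c u)`, `Δ₀ = a e - b c`; `D' = f • D` with `f = Δ₀/J²` (`= g'(v)`): `D' v = 1` (`D v = Δ₀/(a - c u)² = J²/Δ₀`), and
`RatX κ v D'` (`v` generates `K` over `κ` and is transcendental: `u = g(v)`). With `A'_m = iter D' (f • α) m`, `A_m = iter D α m`, `α` the given matrix: for `n ≥ 1`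
`A'_n = ∑_{j=1}^n binom(n-1, j-1) (Δ₀/J²)^j (-c/J)^(n-j) A_j`. Induction on `n`: `(n+1) A'_(n+1) = D' A'_n + A'_n f α`, `D' A_j + A_j f α = f (j+1) A_(j+1)`, `D' J = c`, so with `x_j = (Δ₀/J²)^j (-c/J)^(n-j)`:
`D' x_j = x_j (-2 j c/J - (n-j) c/J) = (n + j) (-c/J) x_j`; the coefficient of `A_j` in `(n+1) A'_(n+1)` is `(Δ₀/J²)^j (-c/J)^(n+1-j) [(n+j) binom(n-1, j-1) + j binom(n-1, j-2)]` `= (n+1) binom(n, j-1) …` (the same identity as in `Conv.lean`, GA-24).
So `A'` is geometric: `T' = T ∪ {Δ₀/J², -c/J}`, same `q`; `A'_0 = 1`. Then transport to any `(K', v')` is `ratx_equiv`, `tame_map`; here the statement is for `K` itself: the matrix is `mobd a b c e v * F(mobv a b c e v)`.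

`tame_of_gal`: `betaF T A m = T^m iter_m` (as in `GalI.lean`, GA-41, induction): `iter D (A/T) m = (aeval u T)^(-m) * aeval u (betaF T A m)`. `κ` is a number field: its ring of integers is a finite `ℤ`-module (`T₀` = a finite set of generators, in `κ`), so `x ∈ κ` integral over `ℤ` implies `x ∈ (G T₀).I 1`.
The degrees of the entries of `betaF T A m` are `≤ m d₀` with `d₀ = deg T + max deg A_ij` (induction). So `q · aeval u (betaF T A m i j) = ∑_n (q coeff_n) u^n ∈ (G (T₀' ∪ {u})).I (1 + m d₀)` and `T' = T₀' ∪ {u, (aeval u T)⁻¹}`.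
-/

open Polynomial

namespace Pool.Agent.Helper79.GA

open Pool.Agent.Helper79.CU Pool.Agent.Helper79.SE Pool.Agent.Helper79.GX

/-- `g'(u) = (a e - b c)/(c u + e)²`, same as `mobd`. -/
noncomputable def mobe {κ K : Type} [Field κ] [Field K] [Algebra κ K] (a b c e : κ) (u : K) : K :=
  algebraMap κ K (a * e - b * c) / (algebraMap κ K c * u + algebraMap κ K e) ^ 2

section TMobAux

private theorem TMob_D {κ K : Type} [Field κ] [Field K] [CharZero K] [Algebra κ K] {t : K}
    {D : Derivation ℚ K K} (ht : RatX κ t D) (p : κ[X]) :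
    D (aeval t p) = aeval t (derivative p) := by
  induction p using Polynomial.induction_on' with
  | add p q hp hq => rw [map_add, map_add, hp, hq, derivative_add, map_add]
  | monomial n a =>
    rw [aeval_monomial, Derivation.leibniz, ht.const, smul_zero, add_zero,
      Derivation.leibniz_pow, ht.dx, derivative_monomial, aeval_monomial, map_mul, map_natCast]
    simp only [smul_eq_mul, nsmul_eq_mul, mul_one]
    ring

private theorem TMob_iter {K ι : Type} [Field K] [CharZero K] [Fintype ι] [DecidableEq ι]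
    (D : Derivation ℚ K K) (A : Matrix ι ι K) (m : ℕ) (a b : ι) :
    ((m + 1 : ℕ) : K) * iter D A (m + 1) a b =
      D (iter D A m a b) + ∑ l, iter D A m a l * A l b := by
  have h : ((m + 1 : ℕ) : K) ≠ 0 := Nat.cast_ne_zero.2 (Nat.succ_ne_zero m)
  change ((m + 1 : ℕ) : K) * ((((m + 1 : ℕ) : K)⁻¹) *
      (D (iter D A m a b) + ∑ l, iter D A m a l * A l b)) = _
  rw [← mul_assoc, mul_inv_cancel₀ h, one_mul]

private theorem TMob_choose (n j : ℕ) : (n + 2) * (n + 1).choose (j + 1) =
    n.choose (j + 1) * (n + j + 3) + n.choose j * (j + 2) := by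
  have h1 := Nat.choose_succ_right_eq n j
  rw [Nat.choose_succ_succ]
  rcases Nat.lt_or_ge n j with h | h
  · rw [Nat.choose_eq_zero_of_lt h, Nat.choose_eq_zero_of_lt (Nat.lt_succ_of_lt h)]
    ring
  · obtain ⟨d, rfl⟩ := Nat.exists_eq_add_of_le h
    rw [Nat.add_sub_cancel_left] at h1
    have e1 : (j + d + 2) * ((j + d).choose j + (j + d).choose (j + 1)) =
      (j + d + 2) * (j + d).choose (j + 1) + ((j + d).choose j * d +
        (j + d).choose j * (j + 2)) := by ring
    rw [e1, ← h1]
    ring

/-- the iterates with respect to `f • D` -/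
private theorem TMob_main {K ι : Type} [Field K] [CharZero K] [Fintype ι] [DecidableEq ι]
    (D : Derivation ℚ K K) (α : Matrix ι ι K) (f g : K) (hf : f * D f = 2 * g * f)
    (hg : f * D g = g ^ 2) (n : ℕ) : ∀ a b : ι,
    iter (f • D) (fun i j => f * α i j) (n + 1) a b =
      ∑ j ∈ Finset.range (n + 1), (n.choose j : K) * (f ^ (j + 1) * g ^ (n - j)) *
        iter D α (j + 1) a b := by
  have hDf : ∀ m : ℕ, f * D (f ^ m) = (2 * m : K) * g * f ^ m := by
    intro m
    rcases m with _ | m
    · simp
    · rw [Derivation.leibniz_pow]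
      simp only [smul_eq_mul, nsmul_eq_mul, Nat.add_sub_cancel]
      rw [pow_succ]
      linear_combination (((m + 1 : ℕ) : K) * f ^ m) * hf
  have hDg : ∀ m : ℕ, f * D (g ^ m) = (m : K) * g * g ^ m := by
    intro m
    rcases m with _ | m
    · simp
    · rw [Derivation.leibniz_pow]
      simp only [smul_eq_mul, nsmul_eq_mul, Nat.add_sub_cancel]
      rw [pow_succ]
      linear_combination (((m + 1 : ℕ) : K) * g ^ m) * hg
  have hnat : ∀ m : ℕ, D (m : K) = 0 := fun m => D.map_natCast m
  induction n with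
  | zero =>
    intro a b
    have h1 := TMob_iter (f • D) (fun i j => f * α i j) 0 a b
    have h2 := TMob_iter D α 0 a b
    have e1 : ∀ D' : Derivation ℚ K K, ∀ (A : Matrix ι ι K), D' (iter D' A 0 a b) = 0 := by
      intro D' A
      change D' ((1 : Matrix ι ι K) a b) = 0
      rw [Matrix.one_apply]
      split_ifs
      · exact D'.map_one_eq_zero
      · exact map_zero D'
    rw [e1] at h1 h2
    have e2 : ∑ l, iter (f • D) (fun i j => f * α i j) 0 a l * (f * α l b) =
        f * ∑ l, iter D α 0 a l * α l b := by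
      rw [Finset.mul_sum]
      refine Finset.sum_congr rfl fun l _ => ?_
      change (1 : Matrix ι ι K) a l * (f * α l b) = f * ((1 : Matrix ι ι K) a l * α l b)
      ring
    rw [e2] at h1
    simp only [zero_add, Nat.cast_one, one_mul] at h1 h2
    rw [← h2] at h1
    simp only [zero_add, Finset.sum_range_one, Nat.choose_self, Nat.cast_one, one_mul, pow_one,
      Nat.sub_self, pow_zero, mul_one]
    exact h1
  | succ n ih =>
    intro a b
    have hne : ((n + 1 + 1 : ℕ) : K) ≠ 0 := Nat.cast_ne_zero.2 (Nat.succ_ne_zero _)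
    apply mul_left_cancel₀ hne
    rw [TMob_iter]
    set Y : ℕ → ι → ι → K := fun j a b => iter D α j a b with hY
    have hYs : ∀ j a b, D (Y j a b) + ∑ l, Y j a l * α l b = ((j + 1 : ℕ) : K) * Y (j + 1) a b :=
      fun j a b => (TMob_iter D α j a b).symm
    have e1 : (f • D) (iter (f • D) (fun i j => f * α i j) (n + 1) a b) +
        ∑ l, iter (f • D) (fun i j => f * α i j) (n + 1) a l * (f * α l b) =
        ∑ j ∈ Finset.range (n + 1), ((n.choose j : K) * (((n + j + 2 : ℕ) : K) * g *
          (f ^ (j + 1) * g ^ (n - j))) * Y (j + 1) a b + (n.choose j : K) *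
            (f ^ (j + 2) * g ^ (n - j)) * (((j + 2 : ℕ) : K) * Y (j + 2) a b)) := by
      rw [ih a b]
      simp only [ih]
      rw [map_sum]
      have e2 : ∑ l, (∑ j ∈ Finset.range (n + 1), (n.choose j : K) * (f ^ (j + 1) * g ^ (n - j)) *
          iter D α (j + 1) a l) * (f * α l b) = ∑ j ∈ Finset.range (n + 1),
          (n.choose j : K) * (f ^ (j + 1) * g ^ (n - j)) * f * ∑ l, Y (j + 1) a l * α l b := by
        simp only [Finset.sum_mul]
        rw [Finset.sum_comm]
        refine Finset.sum_congr rfl fun j _ => ?_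
        rw [Finset.mul_sum]
        refine Finset.sum_congr rfl fun l _ => ?_
        rw [hY]
        ring
      rw [e2, ← Finset.sum_add_distrib]
      refine Finset.sum_congr rfl fun j hj => ?_
      have hj' : j ≤ n := Nat.lt_succ_iff.1 (Finset.mem_range.1 hj)
      have e3 : (f • D) ((n.choose j : K) * (f ^ (j + 1) * g ^ (n - j)) * iter D α (j + 1) a b) =
          f * D ((n.choose j : K) * (f ^ (j + 1) * g ^ (n - j)) * Y (j + 1) a b) := rfl
      rw [e3, Derivation.leibniz, Derivation.leibniz, Derivation.leibniz, hnat]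
      simp only [smul_eq_mul, mul_zero, add_zero]
      have e4 := hDf (j + 1)
      have e5 := hDg (n - j)
      have e6 := hYs (j + 1) a b
      have e7 : ((n - j : ℕ) : K) = (n : K) - (j : K) := Nat.cast_sub hj'
      rw [e7] at e5
      push_cast at e4 e6 ⊢
      have e8 : f ^ (j + 2) = f ^ (j + 1) * f := by ring
      rw [e8]
      linear_combination ((n.choose j : K) * g ^ (n - j) * Y (j + 1) a b) * e4 +
        ((n.choose j : K) * f ^ (j + 1) * Y (j + 1) a b) * e5 +
        ((n.choose j : K) * (f ^ (j + 1) * g ^ (n - j)) * f) * e6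
    rw [e1, Finset.sum_add_distrib, Finset.mul_sum, Finset.sum_range_succ' _ (n + 1),
      Finset.sum_range_succ']
    have e9 : ∑ j ∈ Finset.range n, (n.choose (j + 1) : K) * (((n + (j + 1) + 2 : ℕ) : K) * g *
        (f ^ (j + 1 + 1) * g ^ (n - (j + 1)))) * Y (j + 1 + 1) a b =
        ∑ j ∈ Finset.range (n + 1), (n.choose (j + 1) : K) * ((n + j + 3 : ℕ) : K) *
          (f ^ (j + 2) * g ^ (n - j)) * Y (j + 2) a b := by
      rw [Finset.sum_range_succ, Nat.choose_eq_zero_of_lt (Nat.lt_succ_self n)]
      simp only [Nat.cast_zero, zero_mul, add_zero]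
      refine Finset.sum_congr rfl fun j hj => ?_
      have hj' := Finset.mem_range.1 hj
      obtain ⟨d, hd⟩ : ∃ d, n = j + 1 + d := ⟨n - (j + 1), by omega⟩
      have e10 : n - (j + 1) = d := by omega
      have e11 : n - j = d + 1 := by omega
      rw [e10, e11]
      have e12 : n + (j + 1) + 2 = n + j + 3 := by ring
      rw [e12, pow_succ g d]
      ring
    rw [e9]
    have e13 : ∑ j ∈ Finset.range (n + 1), ((n + 1 + 1 : ℕ) : K) * (((n + 1).choose (j + 1) : K) *
        (f ^ (j + 1 + 1) * g ^ (n + 1 - (j + 1))) * iter D α (j + 1 + 1) a b) =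
        ∑ j ∈ Finset.range (n + 1), (n.choose (j + 1) : K) * ((n + j + 3 : ℕ) : K) *
          (f ^ (j + 2) * g ^ (n - j)) * Y (j + 2) a b +
        ∑ j ∈ Finset.range (n + 1), (n.choose j : K) *
            (f ^ (j + 2) * g ^ (n - j)) * (((j + 2 : ℕ) : K) * Y (j + 2) a b) := by
      rw [← Finset.sum_add_distrib]
      refine Finset.sum_congr rfl fun j _ => ?_
      have e14 := congrArg (Nat.cast : ℕ → K) (TMob_choose n j)
      have e15 : n + 1 - (j + 1) = n - j := by omega
      rw [e15]
      push_cast at e14 ⊢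
      have e16 : iter D α (j + 1 + 1) a b = Y (j + 2) a b := rfl
      rw [e16]
      linear_combination (f ^ (j + 2) * g ^ (n - j) * Y (j + 2) a b) * e14
    rw [e13]
    simp only [Nat.choose_zero_right, Nat.cast_one, one_mul, zero_add, pow_one, Nat.sub_zero,
      add_zero]
    have e17 : iter D α 1 a b = Y 1 a b := rfl
    rw [e17, pow_succ g n]
    push_cast
    ring

end TMobAux

theorem tame_mob {κ K ι : Type} [Field κ] [CharZero κ] [Field K] [CharZero K] [Algebra κ K]
    [Fintype ι] [DecidableEq ι] {u : K} {D : Derivation ℚ K K} (hu : RatX κ u D)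
    {α : Matrix ι ι K} (h : TameM D α) {a b c e : κ} (hd : a * e - b * c ≠ 0) :
    ∃ (v : K) (D' : Derivation ℚ K K), RatX κ v D' ∧ mobv a b c e v = u ∧
      TameM D' (fun i j => mobe a b c e v * α i j) := by
  set a' := algebraMap κ K a with ha'
  set b' := algebraMap κ K b with hb'
  set c' := algebraMap κ K c with hc'
  set e' := algebraMap κ K e with he'
  have hd' : a' * e' - b' * c' ≠ 0 := by
    rw [ha', hb', hc', he', ← map_mul, ← map_mul, ← map_sub]
    exact fun h0 => hd ((map_eq_zero _).1 h0)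
  have hw : a' - c' * u ≠ 0 := by
    intro h0
    by_cases hc : c = 0
    · have : a' = 0 := by
        have h1 : c' = 0 := by rw [hc', hc, map_zero]
        rw [h1, zero_mul, sub_zero] at h0
        exact h0
      apply hd'
      rw [this, hc', hc, map_zero]
      ring
    · apply hu.tr
      refine ⟨C a - C c * X, ?_, ?_⟩
      · intro h1
        have h2 := congrArg (fun p => p.coeff 1) h1
        simp at h2
        exact hc h2
      · rw [map_sub, map_mul, aeval_C, aeval_C, aeval_X]
        exact h0
  set w := a' - c' * u with hwdef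
  set v : K := (e' * u - b') / w with hv
  set Δ := a' * e' - b' * c' with hΔ
  have hJ : c' * v + e' = Δ / w := by
    rw [hv, hΔ, hwdef]
    rw [hwdef] at hw
    field_simp
    ring
  have hJ0 : c' * v + e' ≠ 0 := by
    rw [hJ]
    exact div_ne_zero hd' hw
  have hmob : mobv a b c e v = u := by
    rw [mobv, div_eq_iff hJ0, hJ, hv, hΔ]
    rw [← ha', ← hb']
    field_simp
    rw [hwdef]
    ring
  set f : K := Δ / (c' * v + e') ^ 2 with hf
  have hfw : f = w ^ 2 / Δ := by
    rw [hf, hJ]
    field_simp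
  have hDc : ∀ x : κ, D (algebraMap κ K x) = 0 := hu.const
  have hDw : D w = -c' := by
    rw [hwdef, map_sub, ha', hDc, Derivation.leibniz, hu.dx, hc', hDc]
    simp only [smul_eq_mul]
    ring
  have hDΔ : D Δ = 0 := by
    rw [hΔ, ha', hb', hc', he', ← map_mul, ← map_mul, ← map_sub]
    exact hDc _
  have hDΔi : D (Δ⁻¹) = 0 := by
    rw [Derivation.leibniz_inv, hDΔ, smul_zero]
  have hDf : D f = 2 * w * (-c') / Δ := by
    rw [hfw, div_eq_mul_inv, Derivation.leibniz, hDΔi, Derivation.leibniz_pow, hDw]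
    simp only [smul_eq_mul, nsmul_eq_mul]
    push_cast
    field_simp
    ring
  set g : K := -c' * w / Δ with hg
  have hDg : D g = c' ^ 2 / Δ := by
    have : g = (-c' * Δ⁻¹) * w := by rw [hg]; field_simp
    rw [this, Derivation.leibniz, hDw, Derivation.leibniz, hDΔi]
    have h1 : D (-c') = 0 := by rw [map_neg, hc', hDc, neg_zero]
    rw [h1]
    simp only [smul_eq_mul]
    field_simp
    ring
  have h1 : f * D f = 2 * g * f := by
    rw [hDf, hg]
    field_simp
  have h2 : f * D g = g ^ 2 := by
    rw [hDg, hg, hfw]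
    field_simp
  have hDv : D v = Δ / w ^ 2 := by
    have : v = (e' * u - b') * w⁻¹ := by rw [hv]; field_simp
    rw [this, Derivation.leibniz, Derivation.leibniz_inv, hDw, map_sub, Derivation.leibniz, hu.dx,
      he', hDc, hb', hDc]
    simp only [smul_eq_mul]
    rw [← he', ← hb']
    field_simp
    rw [hwdef, hΔ]
    ring
  have hDv' : f * D v = 1 := by
    rw [hDv, hfw]
    field_simp
  have htr : Transcendental κ v := by
    intro halg
    apply hu.tr
    have hq : IsAlgebraic κ ((a' * v + b') / (c' * v + e')) := by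
      rw [div_eq_mul_inv]
      refine IsAlgebraic.mul ?_ ?_
      · exact (IsAlgebraic.mul (isAlgebraic_algebraMap a) halg).add (isAlgebraic_algebraMap b)
      · exact ((IsAlgebraic.mul (isAlgebraic_algebraMap c) halg).add
          (isAlgebraic_algebraMap e)).inv
    have h3 : (a' * v + b') / (c' * v + e') = u := hmob
    rwa [h3] at hq
  have hcle : ∀ p : κ[X], ∃ (N : ℕ) (P : κ[X]), aeval v P = (c' * v + e') ^ N * aeval u p := by
    intro p
    have hJe : aeval v (C c * X + C e) = c' * v + e' := by
      rw [map_add, map_mul, aeval_C, aeval_C, aeval_X]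
    have hAe : aeval v (C a * X + C b) = a' * v + b' := by
      rw [map_add, map_mul, aeval_C, aeval_C, aeval_X]
    have h3 : (a' * v + b') = (c' * v + e') * u := by
      have h4 : (a' * v + b') / (c' * v + e') = u := hmob
      rw [div_eq_iff hJ0] at h4
      rw [h4, mul_comm]
    induction p using Polynomial.induction_on' with
    | add p q hp hq =>
      obtain ⟨N, P, h5⟩ := hp
      obtain ⟨M, Q, h6⟩ := hq
      refine ⟨N + M, P * (C c * X + C e) ^ M + Q * (C c * X + C e) ^ N, ?_⟩
      rw [map_add, map_mul, map_mul, map_pow, map_pow, hJe, h5, h6, map_add, pow_add]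
      ring
    | monomial n x =>
      refine ⟨n, C x * (C a * X + C b) ^ n, ?_⟩
      rw [map_mul, map_pow, hAe, h3, aeval_C, aeval_monomial, mul_pow]
      ring
  refine ⟨v, f • D, ⟨htr, ?_, ?_, ?_⟩, hmob, ?_⟩
  · intro y
    obtain ⟨p, q, hq, rfl⟩ := hu.quo y
    obtain ⟨N, P, hP⟩ := hcle p
    obtain ⟨M, Q, hQ⟩ := hcle q
    have hJe : aeval v (C c * X + C e) = c' * v + e' := by
      rw [map_add, map_mul, aeval_C, aeval_C, aeval_X]
    refine ⟨P * (C c * X + C e) ^ M, Q * (C c * X + C e) ^ N, ?_, ?_⟩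
    · rw [map_mul, map_pow, hJe, hQ]
      exact mul_ne_zero (mul_ne_zero (pow_ne_zero _ hJ0) hq) (pow_ne_zero _ hJ0)
    · rw [map_mul, map_pow, map_mul, map_pow, hJe, hQ, hP]
      have hM := pow_ne_zero M hJ0
      have hN := pow_ne_zero N hJ0
      field_simp
  · intro x
    change f * D (algebraMap κ K x) = 0
    rw [hDc, mul_zero]
  · exact hDv'
  · have hmobe : mobe a b c e v = f := by
      rw [mobe, map_sub, map_mul, map_mul]
    rw [hmobe]
    obtain ⟨T, k, H, hT, hq⟩ := h
    refine ⟨insert f (insert g T), k + 1, H, (hT.insert g).insert f, fun N => ?_⟩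
    obtain ⟨q, q0, q1, q2⟩ := hq N
    refine ⟨q, q0, q1, fun m hm s => ?_⟩
    have hsub : T ⊆ insert f (insert g T) := (Set.subset_insert g T).trans (Set.subset_insert f _)
    cases m with
    | zero =>
      change (q : K) * (1 : Matrix ι ι K) s.1 s.2 ∈ _
      rw [Matrix.one_apply]
      split_ifs
      · rw [mul_one]
        exact G_nat _ _
      · rw [mul_zero]
        exact AddSubgroup.zero_mem _
    | succ n =>
      change (q : K) * iter (f • D) (fun i j => f * α i j) (n + 1) s.1 s.2 ∈ _
      rw [TMob_main D α f g h1 h2 n s.1 s.2, Finset.mul_sum]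
      refine AddSubgroup.sum_mem _ fun j hj => ?_
      have hj' : j ≤ n := Nat.lt_succ_iff.1 (Finset.mem_range.1 hj)
      have e1 : (q : K) * ((n.choose j : K) * (f ^ (j + 1) * g ^ (n - j)) *
          iter D α (j + 1) s.1 s.2) = (n.choose j : K) * ((f ^ (j + 1) * g ^ (n - j)) *
            ((q : K) * iter D α (j + 1) s.1 s.2)) := by ring
      rw [e1]
      refine G_nat_mul ?_ _
      have m1 := G_pow (G_mem (T := insert f (insert g T)) (Set.mem_insert f _)) (j + 1)
      have m2 := G_pow (G_mem (T := insert f (insert g T))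
        (Set.mem_insert_of_mem f (Set.mem_insert g T))) (n - j)
      have m3 := G_mono hsub le_rfl (q2 (j + 1) (by omega) s)
      have m4 := (G (insert f (insert g T))).mul ((G (insert f (insert g T))).mul m1 m2) m3
      refine (G (insert f (insert g T))).mono ?_ m4
      have e2 : (k + 1) * (N + 1) = k * (N + 1) + (N + 1) := by ring
      rw [e2]
      omega

private theorem TMob_beta {κ K ι : Type} [Field κ] [CharZero κ] [Field K]
    [CharZero K] [Algebra κ K] [Fintype ι] [DecidableEq ι] {u : K} {D : Derivation ℚ K K}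
    (h : RatX κ u D) {T : κ[X]} (hT : aeval u T ≠ 0) (A : Matrix ι ι κ[X])
    (A' : Matrix ι ι K) (hA' : ∀ i j, A' i j = aeval u (A i j) / aeval u T) (i : ℕ) :
    ∀ a b, aeval u (betaF T A i a b) = (aeval u T) ^ i * iter D A' i a b := by
  induction i with
  | zero =>
    intro a b
    rw [betaF, pow_zero, one_mul]
    change _ = (1 : Matrix ι ι K) a b
    rw [Matrix.one_apply, Matrix.one_apply]
    by_cases hab : a = b
    · rw [if_pos hab, if_pos hab, map_one]
    · rw [if_neg hab, if_neg hab, map_zero]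
  | succ j ih =>
    intro a b
    set τ := aeval u T with hτ
    set Y : Matrix ι ι K := iter D A' j with hY
    have e1 : aeval u (betaF T A (j + 1) a b) = ((j + 1 : ℕ) : K)⁻¹ *
        (τ * D (τ ^ j * Y a b) - (j : K) * D τ * (τ ^ j * Y a b) +
          ∑ l, (τ ^ j * Y a l) * aeval u (A l b)) := by
      rw [betaF]
      simp only [Matrix.smul_apply, Matrix.add_apply, Matrix.sub_apply, Matrix.map_apply,
        Matrix.mul_apply, smul_eq_mul, map_mul, map_add, map_sub, map_sum, aeval_C, map_inv₀,
        map_natCast, map_one]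
      have e2 : ∀ l, aeval u (betaF T A j a l) = τ ^ j * Y a l := fun l => ih a l
      have e3 : aeval u (derivative (betaF T A j a b)) = D (τ ^ j * Y a b) := by
        rw [← TMob_D h, e2]
      have e4 : aeval u (derivative T) = D τ := by rw [hτ, TMob_D h]
      rw [e3, e4]
      simp only [e2]
      push_cast
      rfl
    have e5 : τ * D (τ ^ j) = (j : K) * τ ^ j * D τ := by
      rcases j with _ | j
      · simp
      · rw [Derivation.leibniz_pow]
        simp only [smul_eq_mul, nsmul_eq_mul, Nat.add_sub_cancel]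
        ring
    have hit : iter D A' (j + 1) a b = (((j + 1 : ℕ) : K)⁻¹) *
      (D (iter D A' j a b) + ∑ l, iter D A' j a l * A' l b) := rfl
    rw [e1, hit, ← hY, Derivation.leibniz]
    simp only [smul_eq_mul]
    have e6 : ∑ l, τ ^ j * Y a l * aeval u (A l b) =
        τ ^ (j + 1) * ∑ l, Y a l * A' l b := by
      rw [Finset.mul_sum]
      refine Finset.sum_congr rfl fun l _ => ?_
      rw [pow_succ, hA']
      field_simp
    rw [e6]
    have e7 : τ * (τ ^ j * D (Y a b) + Y a b * D (τ ^ j)) - (j : K) * D τ * (τ ^ j * Y a b) =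
        τ ^ (j + 1) * D (Y a b) := by
      rw [pow_succ]
      linear_combination (Y a b) * e5
    rw [e7]
    ring

private theorem TMob_int (κ : Type) [Field κ] [NumberField κ] : ∃ T₀ : Set κ, T₀.Finite ∧
    ∀ x : κ, IsIntegral ℤ x → x ∈ (G T₀).I 1 := by
  obtain ⟨s, hs⟩ := (inferInstance : Module.Finite ℤ (NumberField.RingOfIntegers κ)).fg_top
  let ψ : NumberField.RingOfIntegers κ →+* κ := algebraMap (NumberField.RingOfIntegers κ) κ
  refine ⟨ψ '' (s : Set (NumberField.RingOfIntegers κ)), s.finite_toSet.image _,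
    fun x hx => ?_⟩
  have h1 : ∀ y : NumberField.RingOfIntegers κ,
      ψ y ∈ (G (ψ '' (s : Set (NumberField.RingOfIntegers κ)))).I 1 := by
    intro y
    have hy : y ∈ Submodule.span ℤ (s : Set (NumberField.RingOfIntegers κ)) := by
      rw [hs]
      trivial
    induction hy using Submodule.span_induction with
    | mem y hy => exact G_mem ⟨y, hy, rfl⟩
    | zero =>
      rw [map_zero]
      exact AddSubgroup.zero_mem _
    | add y z _ _ hy hz =>
      rw [map_add]
      exact AddSubgroup.add_mem _ hy hz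
    | smul n y _ hy =>
      rw [zsmul_eq_mul, map_mul, map_intCast]
      exact G_int_mul hy n
  exact h1 ⟨x, hx⟩

private theorem TMob_deg {κ ι : Type} [Field κ] [Fintype ι] [DecidableEq ι] (T : κ[X])
    (A : Matrix ι ι κ[X]) (d : ℕ) (hT : T.natDegree ≤ d) (hA : ∀ i j, (A i j).natDegree ≤ d)
    (m : ℕ) : ∀ i j, (betaF T A m i j).natDegree ≤ m * d := by
  induction m with
  | zero =>
    intro i j
    rw [betaF, Matrix.one_apply]
    split_ifs
    · rw [natDegree_one]
      exact Nat.zero_le _
    · rw [natDegree_zero]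
      exact Nat.zero_le _
  | succ m ih =>
    intro i j
    rw [betaF]
    simp only [Matrix.smul_apply, Matrix.add_apply, Matrix.sub_apply, Matrix.map_apply,
        Matrix.mul_apply, smul_eq_mul]
    refine (natDegree_C_mul_le _ _).trans ?_
    refine natDegree_add_le_of_degree_le ((natDegree_sub_le _ _).trans (max_le ?_ ?_)) ?_
    · refine natDegree_mul_le.trans ?_
      have h1 := (natDegree_derivative_le (betaF T A m i j)).trans (Nat.sub_le _ _)
      have h2 := ih i j
      have e : (m + 1) * d = m * d + d := by ring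
      omega
    · refine natDegree_mul_le.trans ?_
      have h0 : ((m : κ[X]) * derivative T).natDegree ≤ T.natDegree := by
        have e : (m : κ[X]) = C (m : κ) := by rw [map_natCast]
        rw [e]
        refine (natDegree_C_mul_le _ _).trans ?_
        exact (natDegree_derivative_le T).trans (Nat.sub_le _ _)
      have h2 := ih i j
      have e : (m + 1) * d = m * d + d := by ring
      omega
    · refine natDegree_sum_le_of_forall_le _ _ fun l _ => ?_
      refine natDegree_mul_le.trans ?_
      have h1 := ih i l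
      have h2 := hA l j
      have e : (m + 1) * d = m * d + d := by ring
      omega

theorem tame_of_gal {κ K ι : Type} [Field κ] [NumberField κ] [Field K] [CharZero K]
    [Algebra κ K] [Fintype ι] [DecidableEq ι] {u : K} {D : Derivation ℚ K K} (hu : RatX κ u D)
    {T : κ[X]} (hT : T ≠ 0) {A : Matrix ι ι κ[X]} (h : ∃ H : ℕ, GalF T A H) :
    TameM D (fun i j => aeval u (A i j) / aeval u T) := by
  classical
  obtain ⟨H, hG⟩ := h
  obtain ⟨T₀, hT₀, hint⟩ := TMob_int κ
  have hτ : aeval u T ≠ 0 := fun h0 => hT ((transcendental_iff.mp hu.tr) T h0)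
  set d : ℕ := T.natDegree + Finset.univ.sup (fun p : ι × ι => (A p.1 p.2).natDegree) with hdd
  have hdA : ∀ i j, (A i j).natDegree ≤ d := by
    intro i j
    have h1 := Finset.le_sup (f := fun p : ι × ι => (A p.1 p.2).natDegree)
      (Finset.mem_univ (i, j))
    exact h1.trans (Nat.le_add_left _ _)
  have hdT : T.natDegree ≤ d := Nat.le_add_right _ _
  set T₁ : Set K := insert u (insert (aeval u T)⁻¹ (algebraMap κ K '' T₀)) with hT₁
  refine ⟨T₁, d + 2, H, ((hT₀.image _).insert _).insert _, fun N => ?_⟩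
  obtain ⟨q, q0, q1, q2⟩ := hG N
  refine ⟨q, q0, q1, fun m hm s => ?_⟩
  have hβ := TMob_beta hu hτ A (fun i j => aeval u (A i j) / aeval u T) (fun i j => rfl) m
    s.1 s.2
  have e1 : iter D (fun i j => aeval u (A i j) / aeval u T) m s.1 s.2 =
      ((aeval u T)⁻¹) ^ m * aeval u (betaF T A m s.1 s.2) := by
    rw [hβ, ← mul_assoc, ← mul_pow, inv_mul_cancel₀ hτ, one_pow, one_mul]
  change (q : K) * iter D (fun i j => aeval u (A i j) / aeval u T) m s.1 s.2 ∈ _
  rw [e1]
  have e2 : (q : K) * ((aeval u T)⁻¹ ^ m * aeval u (betaF T A m s.1 s.2)) =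
      (aeval u T)⁻¹ ^ m * ∑ n ∈ Finset.range ((betaF T A m s.1 s.2).natDegree + 1),
        algebraMap κ K ((q : κ) * (betaF T A m s.1 s.2).coeff n) * u ^ n := by
    rw [aeval_eq_sum_range (p := betaF T A m s.1 s.2), Finset.mul_sum, Finset.mul_sum,
      Finset.mul_sum]
    refine Finset.sum_congr rfl fun n _ => ?_
    rw [Algebra.smul_def, map_mul, map_natCast]
    ring
  rw [e2]
  have m1 := G_pow (G_mem (T := T₁) (Set.mem_insert_of_mem u
    (Set.mem_insert (aeval u T)⁻¹ _))) m
  have hdeg := TMob_deg T A d hdT hdA m s.1 s.2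
  have m2 : ∑ n ∈ Finset.range ((betaF T A m s.1 s.2).natDegree + 1),
        algebraMap κ K ((q : κ) * (betaF T A m s.1 s.2).coeff n) * u ^ n ∈
          (G T₁).I (1 + m * d) := by
    refine AddSubgroup.sum_mem _ fun n hn => ?_
    have hn' := Finset.mem_range.1 hn
    have m3 := G_map (algebraMap κ K) (hint _ (q2 m hm s.1 s.2 n))
    have m4 := G_mono (T' := T₁) (fun x hx => Set.mem_insert_of_mem u
      (Set.mem_insert_of_mem _ hx)) le_rfl m3
    have m5 := G_pow (G_mem (T := T₁) (Set.mem_insert u _)) n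
    refine (G T₁).mono ?_ ((G T₁).mul m4 m5)
    omega
  refine (G T₁).mono ?_ ((G T₁).mul m1 m2)
  have e3 : m * d ≤ (N + 1) * d := Nat.mul_le_mul_right _ (by omega)
  have e4 : (d + 2) * (N + 1) = (N + 1) * d + 2 * (N + 1) := by ring
  rw [e4]
  omega

end Pool.Agent.Helper79.GA
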