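import Pool.Agent.Helper79.GA.MainV2
import Pool.Agent.Helper79.GA.TMob

/-!
# GA: assembly, families of curves with integrals over loops
-/

open Polynomial Pool.Agent.Helper64.Per

namespace Pool.Agent.Helper79.GA

open Pool.Agent.Helper79.CU Pool.Agent.Helper79.SE Pool.Agent.Helper79.GX

theorem aeval_reflectK {κ K : Type} [Field κ] [Field K] [Algebra κ K] {p : κ[X]} {E : ℕ}
    (hE : p.natDegree ≤ E) {u : K} (hu : u ≠ 0) :
    aeval u (p.reflect E) = u ^ E * aeval u⁻¹ p := by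
  have : Invertible (u⁻¹) := invertibleOfNonzero (inv_ne_zero hu)
  have h1 := eval₂_reflect_mul_pow (algebraMap κ K) (u⁻¹) E p hE
  rw [invOf_eq_inv, inv_inv] at h1
  rw [aeval_def, aeval_def, ← h1, mul_comm (u ^ E), mul_assoc, ← mul_pow, inv_mul_cancel₀ hu,
    one_pow, mul_one]

/-- The Gauss-Manin system of a family of curves is tame in all variables. -/
theorem curve_mob {κ : IntermediateField ℚ Qbar} [FiniteDimensional ℚ κ] {N : ℕ}
    (Φ : CurveForms κ N) : MobTame Φ.T Φ.A := by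
  have : Algebra.IsAlgebraic ℚ κ := inferInstance
  have : NumberField κ := ⟨⟩
  have : Algebra.IsAlgebraic ℚ (AlgebraicClosure κ) := Algebra.IsAlgebraic.trans ℚ κ _
  obtain ⟨Bad₀, hBad₀, halg⟩ := alg_cu (AlgebraicClosure κ) Φ.monic rfl Φ.pos Φ.ne Φ.bez Φ.T_ne
    Φ.gm Φ.ind
  obtain ⟨s₀, hs₀⟩ := hBad₀.exists_notMem
  obtain ⟨hT0, hiter⟩ := halg s₀ hs₀
  have hb : ∀ (τ : PowerSeries κ), phi s₀ (1 : κ) Φ.T * τ = 1 →
      IterBd (sysU s₀ (1 : κ) τ Φ.A) := by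
    intro τ hτ
    exact hiter 1 one_ne_zero τ hτ (rsol _) (rsol_zero _) (rsol_rec _)
  obtain ⟨T', h, Eh, A', hG, hdeg, hT', hE1, hTh, hE2, hA', hT2⟩ := exists_sysG (c := (1 : κ))
    hT0 hb
  obtain ⟨K, _, _, _, u, D, hu⟩ := exists_ratx κ
  have hT'0 : T'.map (Int.castRingHom κ) ≠ 0 := by
    rw [Ne, Polynomial.map_eq_zero_iff (RingHom.injective_int (Int.castRingHom κ))]
    exact hT'
  have ht := tame_of_gal hu hT'0 hG
  have hu0 : u ≠ 0 := by
    rintro rfl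
    exact hu.tr isAlgebraic_zero
  have hinj : Function.Injective (aeval u : κ[X] →ₐ[κ] K) :=
    transcendental_iff_injective.1 hu.tr
  have hhu : aeval u h ≠ 0 := by
    intro h0
    have : h = 0 := hinj (by rw [h0, map_zero])
    rw [this, mul_zero] at hTh
    exact hT'0 hTh
  have hline : ∀ p : κ[X], aeval u⁻¹ (p.comp (C s₀ + C (1 : κ) * X)) =
      aeval (mobv s₀ 1 1 0 u) p := by
    intro p
    rw [aeval_comp]
    congr 1
    rw [mobv]
    simp only [map_add, map_mul, aeval_C, aeval_X, map_one, map_zero, one_mul, add_zero]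
    rw [add_div, mul_div_cancel_right₀ _ hu0, one_div]
  have hα : (fun i j => aeval u (A' i j) / aeval u (T'.map (Int.castRingHom κ)) :
      Matrix (Fin N) (Fin N) K) = (fun i j => mobd s₀ 1 1 0 u *
        (aeval (mobv s₀ 1 1 0 u) (Φ.A i j) / aeval (mobv s₀ 1 1 0 u) Φ.T)) := by
    funext i j
    rw [hTh, hA', map_mul, map_mul, mul_div_mul_right _ _ hhu, aeval_reflectK (hE2 i j) hu0,
      aeval_reflectK hE1 hu0, hline, map_mul, hline, mul_div_mul_left _ _ (pow_ne_zero _ hu0),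
      mobd]
    simp only [map_neg, map_mul, map_pow, aeval_C, aeval_X, map_one, one_mul, map_sub, map_zero,
      mul_zero, zero_sub, add_zero]
    rw [inv_pow, mul_div_assoc]
    congr 1
    rw [neg_div, one_div]
  rw [hα] at ht
  intro a b c e hd
  have hd' : c * (b - s₀ * e) - e * (a - s₀ * c) ≠ 0 := by
    intro h0
    apply hd
    linear_combination -h0
  obtain ⟨v, D', hv, hvu, hta⟩ := tame_mob hu ht hd'
  refine ⟨K, inferInstance, inferInstance, inferInstance, v, D', hv, ?_⟩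
  obtain ⟨hJ, -⟩ := mobv_tr hd hv.tr
  obtain ⟨hJ', -⟩ := mobv_tr hd' hv.tr
  have h1 : mobv s₀ 1 1 0 u = mobv a b c e v := by
    rw [mobv, map_one, map_zero, one_mul, add_zero, add_div, mul_div_cancel_right₀ _ hu0, ← hvu,
      mobv, mobv, one_div_div, eq_div_iff hJ, add_mul, div_mul_cancel₀ _ hJ]
    simp only [map_sub, map_mul]
    ring
  have h2 : mobe c e (a - s₀ * c) (b - s₀ * e) v * mobd s₀ 1 1 0 u = mobd a b c e v := by
    have h3 : mobd s₀ 1 1 0 u = -(1 / u ^ 2) := by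
      rw [mobd]
      simp only [map_one, map_sub, map_zero, mul_zero, one_mul, zero_sub, add_zero, map_neg]
      rw [neg_div]
    rw [h3, ← hvu, mobe, mobd, mobv, div_pow, one_div_div]
    have h4 : algebraMap κ K (c * (b - s₀ * e) - e * (a - s₀ * c)) =
        -algebraMap κ K (a * e - b * c) := by
      rw [← map_neg]
      congr 1
      ring
    rw [h4]
    generalize algebraMap κ K (a - s₀ * c) * v + algebraMap κ K (b - s₀ * e) = y at *
    generalize algebraMap κ K c * v + algebraMap κ K e = y' at *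
    field_simp
  have h3 : (fun i j => mobe c e (a - s₀ * c) (b - s₀ * e) v * (mobd s₀ 1 1 0 u *
        (aeval (mobv s₀ 1 1 0 u) (Φ.A i j) / aeval (mobv s₀ 1 1 0 u) Φ.T)) :
        Matrix (Fin N) (Fin N) K) = (fun i j => mobd a b c e v *
        (aeval (mobv a b c e v) (Φ.A i j) / aeval (mobv a b c e v) Φ.T)) := by
    funext i j
    rw [← mul_assoc, h2, h1]
  rw [h3] at hta
  exact hta

/-- The main theorem for families of curves. -/
theorem mainCV {κ : IntermediateField ℚ Qbar} [FiniteDimensional ℚ κ] {N μ r : ℕ} {ι : Type}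
    [Fintype ι] [DecidableEq ι] [Nonempty ι] (Φ : CurveForms κ N) (E : TensorSub Φ μ r ι)
    {a b c e : κ} (h : a * e - b * c ≠ 0) {U : Set ℂ} (hU : IsOpen U) (hU' : IsPreconnected U)
    {x₀ : ℝ} (hx : ∀ x : ℝ, x₀ < x → algebraMap κ ℂ c * (x : ℂ) + algebraMap κ ℂ e ≠ 0 ∧
      mobv a b c e (x : ℂ) ∈ U) {w : ℂ → ℂ} (hw : IsBranchOf κ U μ w)
    {P : ℂ → Matrix ι ι ℂ} (hP : IsPeriodTS E U w P) (hdet : ∀ t ∈ U, IsUnit (P t).det)
    (δ : ℕ) : ∃ (B : ℕ) (θ C : ℝ), 0 < θ ∧ θ < 1 ∧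
      (∀ n : ℕ, 1 ≤ n → Set.ncard {i : ℕ | n ≤ i ∧ (i : ℝ) ≤ n + (n : ℝ) ^ θ ∧
        i ∈ {i : ℕ | mobv a b c e (i : ℂ) ∈ U ∧
          HasRelationC U w P (mobv a b c e (i : ℂ)) κ δ}} ≤ B) ∧
      ∀ X : ℕ, 1 ≤ X → (Set.ncard {i : ℕ | i ≤ X ∧ i ∈ {i : ℕ | mobv a b c e (i : ℂ) ∈ U ∧
          HasRelationC U w P (mobv a b c e (i : ℂ)) κ δ}} : ℝ) ≤ C * (X : ℝ) ^ (1 - θ) := by
  refine mainGV Φ.T_ne (curve_mob Φ) (μ := μ) (r := r) (ι := ι)
    ⟨E.M, E.B, E.stable, E.ind⟩ h hU hU' hx hw ?_ hdet δ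
  obtain ⟨g, V, cc, hV, hPV⟩ := hP
  refine ⟨g, V, cc, fun t ht i j => ?_, hPV⟩
  obtain ⟨h1, h2⟩ := isPeriod_odeCU hV ht
  exact ⟨h1 i j, h2 i j⟩

end Pool.Agent.Helper79.GA
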