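import Pool.Agent.Helper79.GA.Basic

/-!
# GA-14: the ring `k[x, 1/δ]`, partial fractions

* `mem_Od`: `Od x δ` is generated by `x` and `1/δ(x)` as an algebra; the set of the `p(x)/δ(x)^m` is a subalgebra.
* `Od_deriv`: for a derivation `D'` which maps `k` to `k` (as `Dk`) and `x` into `Od x δ` (quotient rule for `p(x)/δ(x)^m`; `D'(p(x)) = (p^{Dk})(x) + p'(x) D' x`).
* `pf`: let `g = f - (right-hand side)`; it is in `Od x (∏ (X - C ρ))` (note `1/(x - ρ) ∈ Od`), `g = p(x)/δ(x)^M`. For every `ρ ∈ S` the expansion `φ ρ g` has no pole: the terms with `ρ' ≠ ρ` and the powers of `x` are regular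
  at `ρ`, and `φ ρ ((x - ρ)⁻¹)^n = single (-n) 1`. So `(X - ρ)^M` divides `p`: `φ ρ (p(x)) = (φ ρ g) (φ ρ (δ(x)))^M` has order `≥ M`, and `evL (C ρ + single 1 1) p` is the series with coefficients those of
  `p(X + ρ)` (`taylor`); the `(X - ρ)^M`, `ρ ∈ S`, are coprime, so `δ^M ∣ p` and `g = r(x)`, `r ∈ k[X]`. The expansion `φi g` has positive order: the coefficients of index `≤ 0` of `φi f` are those of the sum of the
  `x^n` (`φi x = single (-1) 1`), and `φi ((x - ρ)⁻¹)^n` has order `n ≥ 1`. But `φi (r(x)) = ∑ r_j single (-j) 1`: so `r = 0`.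
  (`φ ρ`, `φi` are injective; only `hφc`, `hφx`, `hφic`, `hφix` and `mem_Od` are used; `x` is transcendental over `k` by `h`.)
-/

open Polynomial

namespace Pool.Agent.Helper79.GA

open Pool.Agent.Helper79.CU Pool.Agent.Helper79.SE

section

variable {k K : Type} [Field k] [CharZero k] [Field K] [CharZero K] [Algebra k K] {x : K}

theorem PF_x_mem {δ : k[X]} : x ∈ Od x δ := Algebra.subset_adjoin (by simp)

theorem PF_inv_mem {δ : k[X]} : (aeval x δ)⁻¹ ∈ Od x δ := Algebra.subset_adjoin (by simp)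

theorem PF_aeval_mem {δ : k[X]} (p : k[X]) : aeval x p ∈ Od x δ := by
  induction p using Polynomial.induction_on' with
  | add a b ha hb =>
    rw [map_add]
    exact add_mem ha hb
  | monomial n c =>
    rw [aeval_monomial]
    exact mul_mem (Subalgebra.algebraMap_mem _ _) (pow_mem PF_x_mem _)

theorem mem_Od {δ : k[X]} {f : K} :
    f ∈ Od x δ ↔ ∃ (m : ℕ) (p : k[X]), f = aeval x p * ((aeval x δ)⁻¹) ^ m := by
  constructor
  · intro hf
    unfold Od at hf
    induction hf using Algebra.adjoin_induction with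
    | mem y hy =>
      simp only [Set.mem_insert_iff, Set.mem_singleton_iff] at hy
      rcases hy with rfl | rfl
      · exact ⟨0, X, by simp⟩
      · exact ⟨1, 1, by simp⟩
    | algebraMap r => exact ⟨0, C r, by simp⟩
    | add a b _ _ ha hb =>
      obtain ⟨m, p, rfl⟩ := ha
      obtain ⟨n, q, rfl⟩ := hb
      by_cases hd : aeval x δ = 0
      · have key : ∀ (m : ℕ) (p : k[X]), ∃ r : k[X], aeval x p * ((aeval x δ)⁻¹) ^ m =
            aeval x r := by
          intro m p
          rcases Nat.eq_zero_or_pos m with rfl | hm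
          · exact ⟨p, by simp⟩
          · refine ⟨0, ?_⟩
            rw [hd, inv_zero, zero_pow hm.ne', mul_zero, map_zero]
        obtain ⟨r, hr⟩ := key m p
        obtain ⟨s, hs⟩ := key n q
        exact ⟨0, r + s, by rw [hr, hs, map_add, pow_zero, mul_one]⟩
      · refine ⟨m + n, p * δ ^ n + q * δ ^ m, ?_⟩
        rw [map_add, map_mul, map_mul, map_pow, map_pow, pow_add]
        have h1 : (aeval x δ) ^ n * ((aeval x δ)⁻¹) ^ n = 1 := by
          rw [← mul_pow, mul_inv_cancel₀ hd, one_pow]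
        have h2 : (aeval x δ) ^ m * ((aeval x δ)⁻¹) ^ m = 1 := by
          rw [← mul_pow, mul_inv_cancel₀ hd, one_pow]
        linear_combination (- (aeval x p * (aeval x δ)⁻¹ ^ m)) * h1 -
          (aeval x q * (aeval x δ)⁻¹ ^ n) * h2
    | mul a b _ _ ha hb =>
      obtain ⟨m, p, rfl⟩ := ha
      obtain ⟨n, q, rfl⟩ := hb
      refine ⟨m + n, p * q, ?_⟩
      rw [map_mul, pow_add]
      ring
  · rintro ⟨m, p, rfl⟩
    exact mul_mem (PF_aeval_mem p) (pow_mem PF_inv_mem m)

theorem Od_deriv {δ : k[X]} {D : Derivation ℚ K K} {Dk : Derivation ℚ k k}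
    (hD : ∀ c, D (algebraMap k K c) = algebraMap k K (Dk c)) (hx : D x ∈ Od x δ) {f : K}
    (hf : f ∈ Od x δ) : D f ∈ Od x δ := by
  have hpow : ∀ n : ℕ, D (x ^ n) ∈ Od x δ := by
    intro n
    rw [Derivation.leibniz_pow, smul_eq_mul, nsmul_eq_mul]
    exact mul_mem (natCast_mem _ _) (mul_mem (pow_mem PF_x_mem _) hx)
  have hpoly : ∀ q : k[X], D (aeval x q) ∈ Od x δ := by
    intro q
    induction q using Polynomial.induction_on' with
    | add a b ha hb =>
      rw [map_add, map_add]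
      exact add_mem ha hb
    | monomial n c =>
      rw [aeval_monomial, Derivation.leibniz, smul_eq_mul, smul_eq_mul, hD]
      exact add_mem (mul_mem (Subalgebra.algebraMap_mem _ _) (hpow n))
        (mul_mem (pow_mem PF_x_mem _) (Subalgebra.algebraMap_mem _ _))
  have hinv : D ((aeval x δ)⁻¹) ∈ Od x δ := by
    rw [Derivation.leibniz_inv, smul_eq_mul]
    exact mul_mem (neg_mem (pow_mem PF_inv_mem 2)) (hpoly δ)
  unfold Od at hf
  induction hf using Algebra.adjoin_induction with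
  | mem y hy =>
    simp only [Set.mem_insert_iff, Set.mem_singleton_iff] at hy
    rcases hy with rfl | rfl
    · exact hx
    · exact hinv
  | algebraMap r =>
    rw [hD]
    exact Subalgebra.algebraMap_mem _ _
  | add a b _ _ ha hb =>
    rw [map_add]
    exact add_mem ha hb
  | mul a b h1 h2 ha hb =>
    rw [Derivation.leibniz, smul_eq_mul, smul_eq_mul]
    exact add_mem (mul_mem h1 hb) (mul_mem h2 ha)

/-- `φ (p(x)) = p(φ x)`. -/
theorem PF_comp {φ : K →+* LaurentSeries k}
    (hφc : ∀ c, φ (algebraMap k K c) = HahnSeries.C c) (p : k[X]) :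
    φ (aeval x p) = evL (φ x) p := by
  induction p using Polynomial.induction_on' with
  | add a b ha hb => rw [map_add, map_add, ha, hb, map_add]
  | monomial n c =>
    rw [aeval_monomial, map_mul, map_pow, hφc, evL, coe_eval₂RingHom, eval₂_monomial]

theorem PF_reg_poly {φ : K →+* LaurentSeries k}
    (hφc : ∀ c, φ (algebraMap k K c) = HahnSeries.C c) (hx : pgV 0 (φ x)) (p : k[X]) :
    pgV 0 (φ (aeval x p)) := by
  induction p using Polynomial.induction_on' with
  | add a b ha hb =>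
    rw [map_add, map_add]
    exact pgV_add ha hb
  | monomial n c =>
    rw [aeval_monomial, map_mul, map_pow, hφc]
    have h1 : pgV 0 (HahnSeries.C c : LaurentSeries k) := pgV_single le_rfl c
    have h2 := pgV_pow hx n
    rw [mul_zero] at h2
    simpa using pgV_mul h1 h2

theorem PF_x_reg {φ : K →+* LaurentSeries k} {ρ : k}
    (hφx : φ x = HahnSeries.C ρ + HahnSeries.single 1 1) : pgV 0 (φ x) := by
  rw [hφx]
  exact pgV_add (pgV_single le_rfl ρ) (pgV_single (by norm_num) 1)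

theorem PF_sub {φ : K →+* LaurentSeries k} {ρ : k}
    (hφc : ∀ c, φ (algebraMap k K c) = HahnSeries.C c)
    (hφx : φ x = HahnSeries.C ρ + HahnSeries.single 1 1) :
    φ (x - algebraMap k K ρ) = HahnSeries.single 1 1 := by
  rw [map_sub, hφx, hφc, add_sub_cancel_left]

/-- Divisibility by a power of `X - ρ`. -/
theorem PF_dvd {φ : K →+* LaurentSeries k} {ρ : k}
    (hφc : ∀ c, φ (algebraMap k K c) = HahnSeries.C c)
    (hφx : φ x = HahnSeries.C ρ + HahnSeries.single 1 1) (m : ℕ) :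
    ∀ p : k[X], pgV (m : ℤ) (φ (aeval x p)) → (X - C ρ) ^ m ∣ p := by
  induction m with
  | zero => intro p _; simp
  | succ m ih =>
    intro p hp
    have hsplit : p = C (p.eval ρ) + (X - C ρ) * (p /ₘ (X - C ρ)) := by
      have := modByMonic_add_div p (X - C ρ)
      rw [modByMonic_X_sub_C_eq_C_eval] at this
      exact this.symm
    set q := p /ₘ (X - C ρ) with hq
    have hx1 : aeval x (X - C ρ) = x - algebraMap k K ρ := by simp
    have he : φ (aeval x p) = HahnSeries.C (p.eval ρ) +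
        HahnSeries.single 1 1 * φ (aeval x q) := by
      conv_lhs => rw [hsplit]
      rw [map_add, map_mul, hx1, map_add, map_mul, PF_sub hφc hφx, aeval_C, hφc]
    have hreg : pgV 0 (φ (aeval x q)) := PF_reg_poly hφc (PF_x_reg hφx) q
    have hprod : pgV 1 (HahnSeries.single 1 1 * φ (aeval x q)) := by
      simpa using pgV_mul (pgV_single (le_refl (1 : ℤ)) (1 : k)) hreg
    have h0 : p.eval ρ = 0 := by
      have h1 := hp 0 (by positivity)
      rw [he, HahnSeries.coeff_add, hprod 0 (by norm_num), add_zero] at h1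
      simpa [HahnSeries.C_apply] using h1
    have he2 : φ (aeval x p) = HahnSeries.single 1 1 * φ (aeval x q) := by
      rw [he, h0, map_zero, zero_add]
    have hq2 : pgV (m : ℤ) (φ (aeval x q)) := by
      have h2 : φ (aeval x q) = HahnSeries.single (-1) 1 * φ (aeval x p) := by
        rw [he2, ← mul_assoc, HahnSeries.single_mul_single]
        simp
      rw [h2]
      have h3 := pgV_mul (pgV_single (le_refl (-1 : ℤ)) (1 : k)) hp
      have h4 : (-1 : ℤ) + ((m + 1 : ℕ) : ℤ) = m := by push_cast; ring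
      rwa [h4] at h3
    obtain ⟨r, hr⟩ := ih q hq2
    refine ⟨r, ?_⟩
    rw [hsplit, h0, C_0, zero_add, hr, pow_succ]
    ring

/-- The inverse of `c + z`, `c ≠ 0`, is regular. -/
theorem PF_inv_reg {a : k} (ha : a ≠ 0) {v : LaurentSeries k}
    (hv : (HahnSeries.C a + HahnSeries.single 1 1) * v = 1) : pgV 0 v := by
  obtain ⟨b, hb⟩ := lau_low v
  have hrec : ∀ i : ℤ, i < 0 → a * v.coeff i + v.coeff (i - 1) = 0 := by
    intro i hi
    have h1 := congrArg (fun w : LaurentSeries k => w.coeff i) hv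
    simp only [add_mul, HahnSeries.coeff_add] at h1
    rw [HahnSeries.C_apply, HahnSeries.coeff_one, if_neg (by omega)] at h1
    have h2 : (HahnSeries.single (0 : ℤ) a * v).coeff i = a * v.coeff i := by
      have := HahnSeries.coeff_single_mul_add (Γ := ℤ) (r := a) (x := v) (a := i) (b := 0)
      simpa using this
    have h3 : (HahnSeries.single (1 : ℤ) (1 : k) * v).coeff i = v.coeff (i - 1) := by
      have := HahnSeries.coeff_single_mul_add (Γ := ℤ) (r := (1 : k)) (x := v) (a := i - 1) (b := 1)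
      simpa using this
    rw [h2, h3] at h1
    exact h1
  have hmain : ∀ n : ℕ, ∀ i : ℤ, i < b + n → i < 0 → v.coeff i = 0 := by
    intro n
    induction n with
    | zero => intro i hi _; exact hb i (by simpa using hi)
    | succ n ih =>
      intro i hi hi0
      have h1 := hrec i hi0
      rw [ih (i - 1) (by push_cast at hi; omega) (by omega), add_zero] at h1
      exact (mul_eq_zero.1 h1).resolve_left ha
  intro i hi
  exact hmain (i - b + 1).toNat i (by
    have := Int.self_le_toNat (i - b + 1)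
    omega) hi

/-- The inverse of `z⁻¹ - ρ` has positive order. -/
theorem PF_inv_inf {ρ : k} {v : LaurentSeries k}
    (hv : (HahnSeries.single (-1) 1 - HahnSeries.C ρ) * v = 1) : pgV 1 v := by
  obtain ⟨b, hb⟩ := lau_low v
  have hrec : ∀ i : ℤ, i < 0 → v.coeff (i + 1) = ρ * v.coeff i := by
    intro i hi
    have h1 := congrArg (fun w : LaurentSeries k => w.coeff i) hv
    simp only [sub_mul, HahnSeries.coeff_sub] at h1
    rw [HahnSeries.C_apply, HahnSeries.coeff_one, if_neg (by omega)] at h1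
    have h2 : (HahnSeries.single (0 : ℤ) ρ * v).coeff i = ρ * v.coeff i := by
      have := HahnSeries.coeff_single_mul_add (Γ := ℤ) (r := ρ) (x := v) (a := i) (b := 0)
      simpa using this
    have h3 : (HahnSeries.single (-1 : ℤ) (1 : k) * v).coeff i = v.coeff (i + 1) := by
      have := HahnSeries.coeff_single_mul_add (Γ := ℤ) (r := (1 : k)) (x := v) (a := i + 1)
        (b := -1)
      simpa using this
    rw [h2, h3] at h1
    exact sub_eq_zero.1 h1
  have hmain : ∀ n : ℕ, ∀ i : ℤ, i < b + n → i < 1 → v.coeff i = 0 := by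
    intro n
    induction n with
    | zero => intro i hi _; exact hb i (by simpa using hi)
    | succ n ih =>
      intro i hi hi0
      have h1 := hrec (i - 1) (by omega)
      rw [sub_add_cancel, ih (i - 1) (by push_cast at hi; omega) (by omega), mul_zero] at h1
      exact h1
  intro i hi
  exact hmain (i - b + 1).toNat i (by
    have := Int.self_le_toNat (i - b + 1)
    omega) hi

theorem PF_single_pow (a : ℤ) (n : ℕ) :
    (HahnSeries.single a (1 : k) : LaurentSeries k) ^ n = HahnSeries.single (n * a) 1 := by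
  induction n with
  | zero => simp
  | succ n ih =>
    rw [pow_succ, ih, HahnSeries.single_mul_single, mul_one]
    congr 1
    push_cast
    ring

theorem PF_C_mul_single (c : k) (a : ℤ) :
    (HahnSeries.C c * HahnSeries.single a 1 : LaurentSeries k) = HahnSeries.single a c := by
  rw [HahnSeries.C_apply, HahnSeries.single_mul_single, zero_add, mul_one]

omit [CharZero k] in
theorem PF_coprime (S : Finset k) (m : ℕ) (p : k[X]) (h : ∀ ρ ∈ S, (X - C ρ) ^ m ∣ p) :
    (∏ ρ ∈ S, (X - C ρ)) ^ m ∣ p := by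
  rw [← Finset.prod_pow]
  refine Finset.prod_dvd_of_coprime ?_ h
  intro a _ b _ hab
  exact (isCoprime_X_sub_C_of_isUnit_sub (sub_ne_zero.2 hab).isUnit).pow

theorem PF_reg1 {φ : K →+* LaurentSeries k} {ρ : k}
    (hφc : ∀ c, φ (algebraMap k K c) = HahnSeries.C c)
    (hφx : φ x = HahnSeries.C ρ + HahnSeries.single 1 1) (q : k[X]) :
    pgV 1 (φ (aeval x ((X - C ρ) * q))) := by
  rw [map_mul, map_mul]
  have h3 : aeval x (X - C ρ) = x - algebraMap k K ρ := by simp
  rw [h3, PF_sub hφc hφx]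
  have h4 := pgV_mul (pgV_single (le_refl (1 : ℤ)) (1 : k)) (PF_reg_poly hφc (PF_x_reg hφx) q)
  rwa [add_zero] at h4

/-- A function without poles which vanishes at infinity is zero. -/
theorem PF_core (hne : ∀ ρ : k, x - algebraMap k K ρ ≠ 0) (S : Finset k)
    {φ : k → K →+* LaurentSeries k}
    (hφc : ∀ ρ ∈ S, ∀ c, φ ρ (algebraMap k K c) = HahnSeries.C c)
    (hφx : ∀ ρ ∈ S, φ ρ x = HahnSeries.C ρ + HahnSeries.single 1 1)
    {φi : K →+* LaurentSeries k} (hφic : ∀ c, φi (algebraMap k K c) = HahnSeries.C c)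
    (hφix : φi x = HahnSeries.single (-1) 1) {g : K}
    (hgmem : g ∈ Od x (∏ ρ ∈ S, (X - C ρ)))
    (hreg : ∀ ρ ∈ S, pgV 0 (φ ρ g)) (hregi : pgV 1 (φi g)) : g = 0 := by
  classical
  have hδ0 : aeval x (∏ ρ ∈ S, (X - C ρ)) ≠ 0 := by
    rw [map_prod]
    refine Finset.prod_ne_zero_iff.2 fun ρ _ => ?_
    have h3 : aeval x (X - C ρ) = x - algebraMap k K ρ := by simp
    rw [h3]
    exact hne ρ
  obtain ⟨m, p, hp⟩ := mem_Od.1 hgmem
  have hpg : aeval x p = g * (aeval x (∏ ρ ∈ S, (X - C ρ))) ^ m := by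
    rw [hp, mul_assoc, ← mul_pow, inv_mul_cancel₀ hδ0, one_pow, mul_one]
  have hdvd : ∀ ρ ∈ S, (X - C ρ) ^ m ∣ p := by
    intro ρ hρ
    apply PF_dvd (hφc ρ hρ) (hφx ρ hρ)
    rw [hpg, map_mul, map_pow]
    have h1 : pgV 1 (φ ρ (aeval x (∏ ρ ∈ S, (X - C ρ)))) := by
      rw [← Finset.mul_prod_erase S _ hρ]
      exact PF_reg1 (hφc ρ hρ) (hφx ρ hρ) _
    have h2 := pgV_mul (hreg ρ hρ) (pgV_pow h1 m)
    rwa [zero_add, mul_one] at h2
  obtain ⟨r, hr⟩ := PF_coprime S m p hdvd
  have hgr : g = aeval x r := by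
    rw [hp, hr, map_mul, map_pow, mul_comm ((aeval x (∏ ρ ∈ S, (X - C ρ))) ^ m), mul_assoc,
      ← mul_pow, mul_inv_cancel₀ hδ0, one_pow, mul_one]
  have hr0 : r = 0 := by
    ext j
    rw [coeff_zero]
    have h1 : φi g = ∑ i ∈ Finset.range (r.natDegree + 1),
        HahnSeries.single (-(i : ℤ)) (r.coeff i) := by
      rw [hgr, aeval_eq_sum_range, map_sum]
      refine Finset.sum_congr rfl fun i _ => ?_
      rw [Algebra.smul_def, map_mul, map_pow, hφic, hφix, PF_single_pow, PF_C_mul_single,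
        mul_neg, mul_one]
    by_cases hj : j ≤ r.natDegree
    · have h2 := hregi (-(j : ℤ)) (by omega)
      rw [h1, HahnSeries.coeff_sum] at h2
      simp only [HahnSeries.coeff_single] at h2
      rw [Finset.sum_eq_single j] at h2
      · rwa [if_pos rfl] at h2
      · intro n _ hn
        rw [if_neg (by omega)]
      · intro hn
        exact absurd (Finset.mem_range.2 (by omega)) hn
    · exact coeff_eq_zero_of_natDegree_lt (by omega)
  rw [hgr, hr0, map_zero]

/-- The polar part. -/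
theorem PF_polar {F : LaurentSeries k} {N : ℕ} (hN : pgV (-(N : ℤ)) F) {i : ℤ} (hi : i < 0) :
    (∑ n ∈ Finset.Icc 1 N,
      (HahnSeries.single (-(n : ℤ)) (F.coeff (-(n : ℤ))) : LaurentSeries k)).coeff i =
        F.coeff i := by
  rw [HahnSeries.coeff_sum]
  simp only [HahnSeries.coeff_single]
  by_cases hiN : i < -(N : ℤ)
  · rw [hN i hiN]
    refine Finset.sum_eq_zero fun n hn => ?_
    rw [Finset.mem_Icc] at hn
    rw [if_neg (by omega)]
  · have hin : i = -((-i).toNat : ℤ) := by omega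
    rw [Finset.sum_eq_single (-i).toNat]
    · rw [if_pos hin, ← hin]
    · intro n _ hn
      rw [if_neg (by omega)]
    · intro hn
      exact absurd (Finset.mem_Icc.2 (by omega)) hn

theorem PF_polar' {F : LaurentSeries k} {N : ℕ} (hN : pgV (-(N : ℤ)) F) {i : ℤ} (hi : i < 1) :
    (∑ n ∈ Finset.range (N + 1),
      (HahnSeries.single (-(n : ℤ)) (F.coeff (-(n : ℤ))) : LaurentSeries k)).coeff i =
        F.coeff i := by
  rw [HahnSeries.coeff_sum]
  simp only [HahnSeries.coeff_single]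
  by_cases hiN : i < -(N : ℤ)
  · rw [hN i hiN]
    refine Finset.sum_eq_zero fun n hn => ?_
    rw [Finset.mem_range] at hn
    rw [if_neg (by omega)]
  · have hin : i = -((-i).toNat : ℤ) := by omega
    rw [Finset.sum_eq_single (-i).toNat]
    · rw [if_pos hin, ← hin]
    · intro n _ hn
      rw [if_neg (by omega)]
    · intro hn
      exact absurd (Finset.mem_range.2 (by omega)) hn

theorem PF_other (hne : ∀ ρ : k, x - algebraMap k K ρ ≠ 0) {φ : K →+* LaurentSeries k} {ρ ρ' : k}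
    (hφc : ∀ c, φ (algebraMap k K c) = HahnSeries.C c)
    (hφx : φ x = HahnSeries.C ρ + HahnSeries.single 1 1) (hρ : ρ' ≠ ρ) (c : ℕ → k)
    (T : Finset ℕ) : pgV 0 (φ (∑ n ∈ T, algebraMap k K (c n) *
      ((x - algebraMap k K ρ')⁻¹) ^ n)) := by
  have hne' : ρ - ρ' ≠ 0 := sub_ne_zero.2 hρ.symm
  have hv : pgV 0 (φ ((x - algebraMap k K ρ')⁻¹)) := by
    apply PF_inv_reg hne'
    have h1 : (HahnSeries.C (ρ - ρ') + HahnSeries.single 1 1 : LaurentSeries k) =
        φ (x - algebraMap k K ρ') := by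
      rw [map_sub, map_sub, hφx, hφc]
      ring
    rw [h1, ← map_mul, mul_inv_cancel₀ (hne ρ'), map_one]
  rw [map_sum]
  refine pgV_sum (a := 0) fun n _ => ?_
  rw [map_mul, map_pow, hφc]
  have h2 := pgV_pow hv n
  have h3 : pgV 0 (HahnSeries.C (c n) : LaurentSeries k) := pgV_single le_rfl _
  have h4 := pgV_mul h3 h2
  rwa [mul_zero, add_zero] at h4

theorem PF_poly {φ : K →+* LaurentSeries k} {ρ : k}
    (hφc : ∀ c, φ (algebraMap k K c) = HahnSeries.C c)
    (hφx : φ x = HahnSeries.C ρ + HahnSeries.single 1 1) (c : ℕ → k)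
    (T : Finset ℕ) : pgV 0 (φ (∑ n ∈ T, algebraMap k K (c n) * x ^ n)) := by
  rw [map_sum]
  refine pgV_sum (a := 0) fun n _ => ?_
  rw [map_mul, map_pow, hφc]
  have h2 := pgV_pow (PF_x_reg hφx) n
  have h3 : pgV 0 (HahnSeries.C (c n) : LaurentSeries k) := pgV_single le_rfl _
  have h4 := pgV_mul h3 h2
  rwa [mul_zero, add_zero] at h4

theorem PF_self (hne : ∀ ρ : k, x - algebraMap k K ρ ≠ 0) {φ : K →+* LaurentSeries k} {ρ : k}
    (hφc : ∀ c, φ (algebraMap k K c) = HahnSeries.C c)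
    (hφx : φ x = HahnSeries.C ρ + HahnSeries.single 1 1) (c : ℕ → k)
    (T : Finset ℕ) : φ (∑ n ∈ T, algebraMap k K (c n) * ((x - algebraMap k K ρ)⁻¹) ^ n) =
      ∑ n ∈ T, HahnSeries.single (-(n : ℤ)) (c n) := by
  have hinv : φ ((x - algebraMap k K ρ)⁻¹) = HahnSeries.single (-1) 1 := by
    have h1 : φ ((x - algebraMap k K ρ)⁻¹) * HahnSeries.single 1 1 = 1 := by
      rw [← PF_sub hφc hφx, ← map_mul, inv_mul_cancel₀ (hne ρ), map_one]
    have h2 : (HahnSeries.single 1 1 * HahnSeries.single (-1) 1 : LaurentSeries k) = 1 := by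
      rw [HahnSeries.single_mul_single]
      simp
    calc φ ((x - algebraMap k K ρ)⁻¹)
        = φ ((x - algebraMap k K ρ)⁻¹) *
            (HahnSeries.single 1 1 * HahnSeries.single (-1) 1) := by rw [h2, mul_one]
      _ = HahnSeries.single (-1) 1 := by rw [← mul_assoc, h1, one_mul]
  rw [map_sum]
  refine Finset.sum_congr rfl fun n _ => ?_
  rw [map_mul, map_pow, hφc, hinv, PF_single_pow, PF_C_mul_single, mul_neg, mul_one]

theorem PF_infin (hne : ∀ ρ : k, x - algebraMap k K ρ ≠ 0) {φi : K →+* LaurentSeries k} (ρ : k)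
    (hφic : ∀ c, φi (algebraMap k K c) = HahnSeries.C c)
    (hφix : φi x = HahnSeries.single (-1) 1) (c : ℕ → k) (N : ℕ) :
    pgV 1 (φi (∑ n ∈ Finset.Icc 1 N, algebraMap k K (c n) *
      ((x - algebraMap k K ρ)⁻¹) ^ n)) := by
  have hv : pgV 1 (φi ((x - algebraMap k K ρ)⁻¹)) := by
    apply PF_inv_inf (ρ := ρ)
    have h1 : (HahnSeries.single (-1) 1 - HahnSeries.C ρ : LaurentSeries k) =
        φi (x - algebraMap k K ρ) := by
      rw [map_sub, hφix, hφic]
    rw [h1, ← map_mul, mul_inv_cancel₀ (hne ρ), map_one]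
  rw [map_sum]
  refine pgV_sum (a := 1) fun n hn => ?_
  rw [Finset.mem_Icc] at hn
  rw [map_mul, map_pow, hφic]
  have h2 := pgV_pow hv n
  have h3 : pgV 0 (HahnSeries.C (c n) : LaurentSeries k) := pgV_single le_rfl _
  have h4 := pgV_mul h3 h2
  exact pgV_mono (by omega) h4

theorem PF_selfi {φi : K →+* LaurentSeries k}
    (hφic : ∀ c, φi (algebraMap k K c) = HahnSeries.C c)
    (hφix : φi x = HahnSeries.single (-1) 1) (c : ℕ → k) (T : Finset ℕ) :
    φi (∑ n ∈ T, algebraMap k K (c n) * x ^ n) = ∑ n ∈ T, HahnSeries.single (-(n : ℤ)) (c n) := by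
  rw [map_sum]
  refine Finset.sum_congr rfl fun n _ => ?_
  rw [map_mul, map_pow, hφic, hφix, PF_single_pow, PF_C_mul_single, mul_neg, mul_one]

theorem PF_inv_mem' (hne : ∀ ρ : k, x - algebraMap k K ρ ≠ 0) (S : Finset k) {ρ : k}
    (hρ : ρ ∈ S) : (x - algebraMap k K ρ)⁻¹ ∈ Od x (∏ ρ ∈ S, (X - C ρ)) := by
  classical
  have h1 : (x - algebraMap k K ρ)⁻¹ =
      aeval x (∏ ρ' ∈ S.erase ρ, (X - C ρ')) * (aeval x (∏ ρ ∈ S, (X - C ρ)))⁻¹ := by
    rw [← Finset.mul_prod_erase S _ hρ, map_mul, mul_inv]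
    have h2 : aeval x (∏ ρ' ∈ S.erase ρ, (X - C ρ')) ≠ 0 := by
      rw [map_prod]
      refine Finset.prod_ne_zero_iff.2 fun ρ' _ => ?_
      have h3 : aeval x (X - C ρ') = x - algebraMap k K ρ' := by simp
      rw [h3]
      exact hne ρ'
    have h3 : aeval x (X - C ρ) = x - algebraMap k K ρ := by simp
    rw [h3, mul_comm, mul_assoc, inv_mul_cancel₀ h2, mul_one]
  rw [h1]
  exact mul_mem (PF_aeval_mem _) PF_inv_mem

theorem pf {D : Derivation ℚ K K} (h : RatX k x D) (S : Finset k)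
    {φ : k → K →+* LaurentSeries k}
    (hφc : ∀ ρ ∈ S, ∀ c, φ ρ (algebraMap k K c) = HahnSeries.C c)
    (hφx : ∀ ρ ∈ S, φ ρ x = HahnSeries.C ρ + HahnSeries.single 1 1)
    {φi : K →+* LaurentSeries k} (hφic : ∀ c, φi (algebraMap k K c) = HahnSeries.C c)
    (hφix : φi x = HahnSeries.single (-1) 1) {f : K}
    (hf : f ∈ Od x (∏ ρ ∈ S, (X - C ρ))) {N : ℕ}
    (hN : ∀ ρ ∈ S, pgV (-(N : ℤ)) (φ ρ f)) (hNi : pgV (-(N : ℤ)) (φi f)) :
    f = (∑ ρ ∈ S, ∑ n ∈ Finset.Icc 1 N, algebraMap k K ((φ ρ f).coeff (-(n : ℤ))) *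
      ((x - algebraMap k K ρ)⁻¹) ^ n) +
        ∑ n ∈ Finset.range (N + 1), algebraMap k K ((φi f).coeff (-(n : ℤ))) * x ^ n := by
  classical
  have hne : ∀ ρ : k, x - algebraMap k K ρ ≠ 0 := by
    intro ρ h0
    have h3 : aeval x (X - C ρ) = x - algebraMap k K ρ := by simp
    have h1 := (transcendental_iff.1 h.tr) (X - C ρ) (by rw [h3]; exact h0)
    exact X_sub_C_ne_zero ρ h1
  refine sub_eq_zero.1 (PF_core hne S hφc hφx hφic hφix ?_ ?_ ?_)
  · refine sub_mem hf (add_mem (sum_mem fun ρ hρ => sum_mem fun n _ => ?_)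
      (sum_mem fun n _ => ?_))
    · exact mul_mem (Subalgebra.algebraMap_mem _ _) (pow_mem (PF_inv_mem' hne S hρ) n)
    · exact mul_mem (Subalgebra.algebraMap_mem _ _) (pow_mem PF_x_mem n)
  · intro ρ hρ i hi
    have h1 : ∀ ρ' ∈ S.erase ρ, (φ ρ (∑ n ∈ Finset.Icc 1 N,
        algebraMap k K ((φ ρ' f).coeff (-(n : ℤ))) * ((x - algebraMap k K ρ')⁻¹) ^ n)).coeff i
          = 0 := fun ρ' hρ' =>
      PF_other hne (hφc ρ hρ) (hφx ρ hρ) (Finset.ne_of_mem_erase hρ') _ _ i hi
    have h2 := PF_poly (hφc ρ hρ) (hφx ρ hρ) (fun n : ℕ => (φi f).coeff (-(n : ℤ)))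
      (Finset.range (N + 1)) i hi
    rw [map_sub, map_add, ← Finset.add_sum_erase S _ hρ, map_add, map_sum (φ ρ) _ (S.erase ρ),
      HahnSeries.coeff_sub, HahnSeries.coeff_add, HahnSeries.coeff_add,
      HahnSeries.coeff_sum, Finset.sum_eq_zero h1, PF_self hne (hφc ρ hρ) (hφx ρ hρ),
      PF_polar (hN ρ hρ) hi, h2, add_zero, add_zero, sub_self]
  · intro i hi
    have h1 : ∀ ρ ∈ S, (φi (∑ n ∈ Finset.Icc 1 N,
        algebraMap k K ((φ ρ f).coeff (-(n : ℤ))) * ((x - algebraMap k K ρ)⁻¹) ^ n)).coeff i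
          = 0 := fun ρ _ => PF_infin hne ρ hφic hφix _ N i hi
    rw [map_sub, map_add, map_sum φi _ S, HahnSeries.coeff_sub, HahnSeries.coeff_add,
      HahnSeries.coeff_sum, Finset.sum_eq_zero h1, PF_selfi hφic hφix, PF_polar' hNi hi, zero_add,
      sub_self]

end

end Pool.Agent.Helper79.GA
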