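import Pool.Agent.Helper79.GA.RStep
import Pool.Agent.Helper79.GA.PlcX
import Pool.Agent.Helper79.GA.PF

/-!
# GA-16: reduction of forms, all poles rational

Places: `φ ρ` for `ρ ∈ S` (`plc_fin`, `y = z = x - ρ`, `e = -1`) and `φi` at infinity (`plc_inf`, `y = -x`, `z = x⁻¹`, `e = 1`), `hst` from `ratx_tame`. Let `δ = ∏ (X - C ρ)`. `1/(x - ρ)`, `x` are in `Od x δ`, a subalgebra
stable by `D` (`Od_deriv`, `Dk = 0`), so `nab D A g ∈ Od x δ` for `g ∈ Od x δ` (`hAS`).
1. Chain of steps (induction on a `Finset` of places, or a list): for a set `S' ⊆ S` of places: there is `n₁` such that for all finite `T`, `c` there are `T' ⊂ K` finite, `c'`, `H`, such that for every `N` there is `q ≤ H^(N+1)` with: for all `v` (in `Od`, entries in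
   `(G T).I (c (N+1))`) there is `g` with entries in `Od x δ`, `q g_i ∈ (G T').I (c' (N+1))`, such that `v + ∇ g` has poles of order `≤ n₁` at all `ρ ∈ S'` (and `q (v + ∇ g)_i ∈ (G T').I (c' (N+1))`). Step: apply `rstep` at a new place `ρ` to
   `q (v + ∇ g)` and divide by `q`. The correction `w` is a polynomial in `1/(x - ρ)` over `k` without constant term, so it is regular at the places `ρ' ≠ ρ` and at infinity, and `∇ w` has at the other places poles of order bounded by a constant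
   (`D w` is again a polynomial in `1/(x - ρ)`; the poles of the entries of `A`). Finally the place at infinity: `w` is a polynomial in `x` without constant term (`z⁻¹ = x`), regular at the finite places.
   `∇ g` bounds: `D g_i` and `g_i A_ij`: the entries of `A` are finitely many; `D` of an element of `(G T').I n`: `D t` for `t ∈ T'` finitely many new elements (or from `grow`/`tL`: coefficient of index `1`).
2. So for `N`, `v` there is `g` with `v' = v + ∇ g ∈ Od` and all poles of order `≤ n₁` (`n₁` a constant). By `pf`, `v'_i = ∑_{ρ, 1≤n≤n₁} α_{i,ρ,n} (x - ρ)^(-n) + ∑_{n≤n₁} β_{i,n} x^n` with `α`, `β` coefficients of the expansions of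
   `v'_i`, so `q α`, `q β ∈ (G T'').I (c'' (N+1))`, `T'' ⊂ k` finite, by `grow`. The `B_b` are the vectors `(x - ρ)^(-n) e_i`, `x^n e_i` (finitely many, reindexed by `Fin s`); `v = v' + nab D A (-g)`
   (`nab` is additive).
-/

open Polynomial

namespace Pool.Agent.Helper79.GA

open Pool.Agent.Helper79.CU Pool.Agent.Helper79.SE

section RSplit

variable {k K ι : Type} [Field k] [CharZero k] [Field K] [CharZero K] [Algebra k K]
  [Fintype ι]

theorem rsplit_G_deriv (D : Derivation ℚ K K) {T : Set K} {n : ℕ} {f : K}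
    (hf : f ∈ (G T).I n) : D f ∈ (G (T ∪ D '' T)).I n := by
  change f ∈ AddSubgroup.closure _ at hf
  induction hf using AddSubgroup.closure_induction with
  | mem b hb =>
    obtain ⟨i, r, l, -, e2, e3, rfl⟩ := hb
    have h1 : D ((r : ℤ) : K) = 0 := D.map_intCast r
    rw [eq_intCast, Derivation.leibniz, h1, smul_zero, add_zero, smul_eq_mul]
    refine G_int_mul ?_ r
    have h3 : ∀ l : List K, (∀ x ∈ l, x ∈ T) → D l.prod ∈ (G (T ∪ D '' T)).I l.length := by
      intro l
      induction l with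
      | nil =>
        intro _
        rw [List.prod_nil, Derivation.map_one_eq_zero]
        exact AddSubgroup.zero_mem _
      | cons a l ih =>
        intro hl
        rw [List.prod_cons, Derivation.leibniz, List.length_cons, smul_eq_mul, smul_eq_mul,
          Nat.add_comm l.length 1]
        have ha : a ∈ T := hl a (by simp)
        refine AddSubgroup.add_mem _ ?_ ?_
        · exact (G (T ∪ D '' T)).mul (G_mem (Or.inl ha)) (ih fun x hx => hl x (by simp [hx]))
        · have h5 : l.prod ∈ (G (T ∪ D '' T)).I (l.length * 1) :=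
            (G (T ∪ D '' T)).list_prod fun x hx => G_mem (Or.inl (hl x (by simp [hx])))
          rw [mul_one] at h5
          have h6 := (G (T ∪ D '' T)).mul (G_mem (Or.inr ⟨a, ha, rfl⟩)) h5
          rwa [mul_comm] at h6
    exact (G _).mono (by omega) (h3 l e2)
  | zero => rw [map_zero]; exact AddSubgroup.zero_mem _
  | add a b _ _ ha hb => rw [map_add]; exact AddSubgroup.add_mem _ ha hb
  | neg a _ ha => rw [map_neg]; exact AddSubgroup.neg_mem _ ha

theorem rsplit_nab_add (D : Derivation ℚ K K) (A : Matrix ι ι K) (v w : ι → K) :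
    nab D A (v + w) = nab D A v + nab D A w := by
  funext j
  simp only [nab, Pi.add_apply, map_add, add_mul, Finset.sum_add_distrib]
  ring

theorem rsplit_nab_smul (D : Derivation ℚ K K) (A : Matrix ι ι K) {c : K} (hc : D c = 0)
    (v : ι → K) (j : ι) : nab D A (fun i => c * v i) j = c * nab D A v j := by
  simp only [nab, Derivation.leibniz, hc, mul_zero, add_zero, smul_eq_mul, mul_add,
    Finset.mul_sum, mul_assoc]

theorem rsplit_nab_bound (D : Derivation ℚ K K) (A : Matrix ι ι K) {T : Set K} {n : ℕ}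
    {v : ι → K} (hv : ∀ i, v i ∈ (G T).I n) (j : ι) :
    nab D A v j ∈ (G (T ∪ D '' T ∪ Set.range fun p : ι × ι => A p.1 p.2)).I (n + 1) := by
  change D (v j) + ∑ i, v i * A i j ∈ _
  refine AddSubgroup.add_mem _ ?_ ?_
  · exact G_mono Set.subset_union_left (Nat.le_succ n) (rsplit_G_deriv D (hv j))
  · refine AddSubgroup.sum_mem _ fun i _ => ?_
    exact (G _).mul (G_mono (Set.subset_union_left.trans Set.subset_union_left) le_rfl (hv i))
      (G_mem (Or.inr ⟨(i, j), rfl⟩))

theorem rsplit_nab_reg {D : Derivation ℚ K K} (A : Matrix ι ι K) {y : K} (hy : y ≠ 0)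
    {φ : K →+* LaurentSeries k} (hφ : Plc (y • D) φ) :
    ∃ n₂ : ℕ, ∀ r : ι → K, (∀ i, pgV 0 (φ (r i))) →
      ∀ i, pgV (-(n₂ : ℤ)) (φ (nab D A r i)) := by
  classical
  have hb : ∀ f : K, ∃ m : ℕ, pgV (-(m : ℤ)) (φ f) := fun f =>
    ⟨(φ f).order.natAbs, fun j hj => HahnSeries.coeff_eq_zero_of_lt_order (by omega)⟩
  choose m hm using hb
  refine ⟨m y⁻¹ + ∑ p : ι × ι, m (A p.1 p.2), fun r hr j => ?_⟩
  have h1 : D (r j) = y⁻¹ * (y • D) (r j) := by
    rw [Derivation.smul_apply, smul_eq_mul, inv_mul_cancel_left₀ hy]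
  have h2 : pgV 0 (φ ((y • D) (r j))) := fun n hn => by
    rw [hφ.der, hr j n hn, mul_zero]
  change pgV _ (φ (D (r j) + ∑ i, r i * A i j))
  rw [map_add, map_sum]
  refine pgV_add ?_ (pgV_sum fun i _ => ?_)
  · rw [h1, map_mul]
    refine pgV_mono ?_ (pgV_mul (hm y⁻¹) h2)
    omega
  · rw [map_mul]
    refine pgV_mono ?_ (pgV_mul (hr i) (hm (A i j)))
    have h3 : m (A i j) ≤ ∑ p : ι × ι, m (A p.1 p.2) :=
      Finset.single_le_sum (f := fun p : ι × ι => m (A p.1 p.2)) (fun _ _ => Nat.zero_le _)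
        (Finset.mem_univ (i, j))
    omega

/-- The conclusion of `rstep` at one place. -/
def RSplitStep (D : Derivation ℚ K K) (A : Matrix ι ι K) (φ : K →+* LaurentSeries k)
    (ζ : K) : Prop :=
  ∃ n₁ : ℕ, ∀ (T : Set K) (c : ℕ), T.Finite → ∃ (T' : Set k) (c' H : ℕ), T'.Finite ∧
    ∀ N : ℕ, ∃ q : ℕ, 0 < q ∧ q ≤ H ^ (N + 1) ∧
      ∀ v : ι → K, (∀ i, v i ∈ (G T).I (c * (N + 1))) → ∃ w' : ι → ℕ → k,
        (∀ i n, (q : k) * w' i n ∈ (G T').I (c' * (N + 1))) ∧
        ∀ i, pgV (-(n₁ : ℤ)) (φ ((v + nab D A (fun i => ∑ n ∈ Finset.range (c' * (N + 1)),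
          algebraMap k K (w' i n) * ζ ^ (n + 1))) i))

theorem rsplit_chain {x : K} {D : Derivation ℚ K K} (h : RatX k x D) {δ : k[X]}
    {A : Matrix ι ι K} (P : Finset (Option k)) (φ : Option k → K →+* LaurentSeries k)
    (ζ y : Option k → K) (hφ : ∀ p, Plc (y p • D) (φ p)) (hy : ∀ p, y p ≠ 0)
    (hζ : ∀ p ∈ P, ζ p ∈ Od x δ)
    (hreg : ∀ p ∈ P, ∀ p' ∈ P, p ≠ p' → pgV 0 (φ p' (ζ p)))
    (hRS : ∀ p ∈ P, RSplitStep D A (φ p) (ζ p)) (Q : Finset (Option k)) :
    Q ⊆ P → ∃ n₁ : ℕ, ∀ (T : Set K) (c : ℕ), T.Finite → ∃ (T' : Set K) (c' H : ℕ), T'.Finite ∧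
      ∀ N : ℕ, ∃ q : ℕ, 0 < q ∧ q ≤ H ^ (N + 1) ∧
        ∀ v : ι → K, (∀ i, v i ∈ (G T).I (c * (N + 1))) → ∃ g : ι → K,
          (∀ i, g i ∈ Od x δ) ∧
          (∀ i, (q : K) * (v + nab D A g) i ∈ (G T').I (c' * (N + 1))) ∧
          ∀ p ∈ Q, ∀ i, pgV (-(n₁ : ℤ)) (φ p ((v + nab D A g) i)) := by
  classical
  induction Q using Finset.induction_on with
  | empty =>
    intro _
    refine ⟨0, fun T c hT => ⟨T, c, 1, hT, fun N => ⟨1, one_pos, by rw [one_pow], fun v hv =>
      ⟨0, fun i => Subalgebra.zero_mem _, fun i => ?_,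
        fun p hp => absurd hp (Finset.notMem_empty p)⟩⟩⟩⟩
    have h0 : ((1 : ℕ) : K) * (v + nab D A 0) i = v i := by
      simp [nab]
    rw [h0]
    exact hv i
  | insert p Q hp ih =>
    intro hQ
    have hpP : p ∈ P := hQ (Finset.mem_insert_self p Q)
    obtain ⟨n₁, h1⟩ := ih fun q hq => hQ (Finset.mem_insert_of_mem hq)
    obtain ⟨m₁, h2⟩ := hRS p hpP
    have h3 := fun q => rsplit_nab_reg A (hy q) (hφ q)
    choose n₂ h3 using h3
    obtain ⟨σ, hσ⟩ : ∃ σ : ℕ, σ = ∑ q ∈ Q, n₂ q := ⟨_, rfl⟩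
    refine ⟨n₁ + m₁ + σ, fun T c hT => ?_⟩
    obtain ⟨T₁, c₁, H₁, hT₁, h1⟩ := h1 T c hT
    obtain ⟨T₂, c₂, H₂, hT₂, h2⟩ := h2 T₁ c₁ hT₁
    obtain ⟨T₃, hT₃⟩ : ∃ T₃ : Set K, T₃ = algebraMap k K '' T₂ ∪ {ζ p} := ⟨_, rfl⟩
    have hT₃f : T₃.Finite := by
      rw [hT₃]
      exact (hT₂.image _).union (Set.finite_singleton _)
    refine ⟨T₁ ∪ (T₃ ∪ D '' T₃ ∪ Set.range fun p : ι × ι => A p.1 p.2),
      c₁ + (c₂ + c₂ + 1), H₁ * H₂,
      hT₁.union ((hT₃f.union (hT₃f.image _)).union (Set.finite_range _)), fun N => ?_⟩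
    obtain ⟨q₁, q₁0, q₁H, h1⟩ := h1 N
    obtain ⟨q₂, q₂0, q₂H, h2⟩ := h2 N
    refine ⟨q₁ * q₂, Nat.mul_pos q₁0 q₂0, ?_, fun v hv => ?_⟩
    · rw [mul_pow]
      exact Nat.mul_le_mul q₁H q₂H
    obtain ⟨g₁, g₁O, g₁b, g₁p⟩ := h1 v hv
    obtain ⟨w', w'b, w'p⟩ := h2 (fun i => (q₁ : K) * (v + nab D A g₁) i) g₁b
    obtain ⟨W, hW⟩ : ∃ W : ι → K, W = fun i => ∑ n ∈ Finset.range (c₂ * (N + 1)),
      algebraMap k K (w' i n) * ζ p ^ (n + 1) := ⟨_, rfl⟩
    rw [← hW] at w'p
    have hWO : ∀ i, W i ∈ Od x δ := fun i => by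
      rw [hW]
      exact Subalgebra.sum_mem _ fun n _ => Subalgebra.mul_mem _
        (Subalgebra.algebraMap_mem _ _) (Subalgebra.pow_mem _ (hζ p hpP) _)
    have hq₁ : (q₁ : k) ≠ 0 := Nat.cast_ne_zero.2 (by omega)
    obtain ⟨κ, hκ⟩ : ∃ κ : K, κ = algebraMap k K ((q₁ : k)⁻¹) := ⟨_, rfl⟩
    have hκ1 : (q₁ : K) * κ = 1 := by
      rw [hκ, ← map_natCast (algebraMap k K), ← map_mul, mul_inv_cancel₀ hq₁, map_one]
    have hκ2 : κ * (q₁ : K) = 1 := by rw [mul_comm, hκ1]
    have hκD : D κ = 0 := by rw [hκ]; exact h.const _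
    have hκV : ∀ p', pgV 0 (φ p' κ) := fun p' => by
      rw [hκ, (hφ p').const, HahnSeries.C_apply]
      exact pgV_single le_rfl _
    have hkey : ∀ i, (v + nab D A (g₁ + fun i => κ * W i)) i =
        (v + nab D A g₁) i + κ * nab D A W i := fun i => by
      rw [rsplit_nab_add]
      simp only [Pi.add_apply]
      rw [rsplit_nab_smul D A hκD, add_assoc]
    refine ⟨g₁ + fun i => κ * W i, fun i => ?_, fun i => ?_, fun p' hp' i => ?_⟩
    · refine Subalgebra.add_mem _ (g₁O i) (Subalgebra.mul_mem _ ?_ (hWO i))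
      rw [hκ]
      exact Subalgebra.algebraMap_mem _ _
    · rw [hkey]
      have e : ((q₁ * q₂ : ℕ) : K) * ((v + nab D A g₁) i + κ * nab D A W i) =
          (q₂ : K) * ((q₁ : K) * (v + nab D A g₁) i) +
            nab D A (fun i => (q₂ : K) * W i) i := by
        rw [rsplit_nab_smul D A (D.map_natCast q₂)]
        push_cast
        calc (q₁ : K) * q₂ * ((v + nab D A g₁) i + κ * nab D A W i) =
            (q₂ : K) * ((q₁ : K) * (v + nab D A g₁) i) +
              (q₁ * κ) * (q₂ * nab D A W i) := by ring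
          _ = _ := by rw [hκ1, one_mul]
      rw [e]
      refine AddSubgroup.add_mem _ (G_nat_mul (G_mono Set.subset_union_left ?_ (g₁b i)) _) ?_
      · exact Nat.mul_le_mul_right _ (Nat.le_add_right _ _)
      · have hW2 : ∀ i, (q₂ : K) * W i ∈ (G T₃).I ((c₂ + c₂) * (N + 1)) := fun i => by
          rw [hW]
          simp only
          rw [Finset.mul_sum]
          refine AddSubgroup.sum_mem _ fun n hn => ?_
          rw [Finset.mem_range] at hn
          have e2 : (q₂ : K) * (algebraMap k K (w' i n) * ζ p ^ (n + 1)) =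
              algebraMap k K ((q₂ : k) * w' i n) * ζ p ^ (n + 1) := by
            rw [map_mul, map_natCast, mul_assoc]
          rw [e2, add_mul]
          refine (G T₃).mul ?_ ?_
          · refine G_mono ?_ le_rfl (G_map (algebraMap k K) (w'b i n))
            rw [hT₃]
            exact Set.subset_union_left
          · have h5 : ζ p ∈ (G T₃).I 1 := G_mem (by rw [hT₃]; exact Or.inr rfl)
            exact (G T₃).mono (by omega) (G_pow h5 (n + 1))
        refine G_mono Set.subset_union_right ?_ (rsplit_nab_bound D A hW2 i)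
        have : (c₁ + (c₂ + c₂ + 1)) * (N + 1) = c₁ * (N + 1) + (c₂ + c₂) * (N + 1) + (N + 1) := by
          ring
        omega
    · rw [Finset.mem_insert] at hp'
      rcases hp' with rfl | hp'
      · have e : (v + nab D A (g₁ + fun i => κ * W i)) i =
            κ * (((fun i => (q₁ : K) * (v + nab D A g₁) i) + nab D A W) i) := by
          rw [hkey]
          change _ = κ * ((q₁ : K) * (v + nab D A g₁) i + nab D A W i)
          rw [mul_add, ← mul_assoc, hκ2, one_mul]
        rw [e, map_mul]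
        refine pgV_mono ?_ (pgV_mul (hκV p') (w'p i))
        push_cast
        omega
      · rw [hkey, map_add]
        refine pgV_add (pgV_mono ?_ (g₁p p' hp' i)) ?_
        · push_cast
          omega
        · have hne : p ≠ p' := fun h => hp (h ▸ hp')
          have hWr : ∀ i, pgV 0 (φ p' (W i)) := fun i => by
            rw [hW]
            simp only
            rw [map_sum]
            refine pgV_sum fun n _ => ?_
            rw [map_mul, map_pow, (hφ p').const, HahnSeries.C_apply]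
            have h5 := pgV_mul (pgV_single (le_refl 0) (w' i n))
              (pgV_pow (hreg p hpP p' (hQ (Finset.mem_insert_of_mem hp')) hne) (n + 1))
            simpa using h5
          rw [map_mul]
          refine pgV_mono ?_ (pgV_mul (hκV p') (h3 p' W hWr i))
          have h6 : n₂ p' ≤ σ := by
            rw [hσ]
            exact Finset.single_le_sum (f := n₂) (fun _ _ => Nat.zero_le _) hp'
          omega

omit [CharZero k] in
theorem rsplit_inv_reg {f : LaurentSeries k} {a : ℤ} (ha : a ≤ 0) (h : f.coeff a ≠ 0) :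
    pgV 0 f⁻¹ := by
  have hf : f ≠ 0 := fun h0 => h (by rw [h0]; rfl)
  have h1 : f.order ≤ a := HahnSeries.order_le_of_coeff_ne_zero h
  have h2 : (f * f⁻¹).order = f.order + f⁻¹.order := HahnSeries.order_mul hf (inv_ne_zero hf)
  rw [mul_inv_cancel₀ hf, HahnSeries.order_one] at h2
  exact fun i hi => HahnSeries.coeff_eq_zero_of_lt_order (by omega)

/-- The coordinates at the places. -/
noncomputable def rsplitY (x : K) : Option k → K
  | none => -x
  | some ρ => x - algebraMap k K ρ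

/-- The inverses of the local parameters. -/
noncomputable def rsplitZ (x : K) : Option k → K
  | none => x
  | some ρ => (x - algebraMap k K ρ)⁻¹

end RSplit

theorem red_split {k K ι : Type} [Field k] [CharZero k] [Field K] [CharZero K] [Algebra k K]
    [Fintype ι] [DecidableEq ι] {x : K} {D : Derivation ℚ K K} (h : RatX k x D)
    {A : Matrix ι ι K} (hA : TameM D A) (S : Finset k)
    (hAS : ∀ i j, A i j ∈ Od x (∏ ρ ∈ S, (X - C ρ))) :
    RedProp k x D (∏ ρ ∈ S, (X - C ρ)) A := by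
  classical
  obtain ⟨δ, hδ⟩ : ∃ δ : k[X], δ = ∏ ρ ∈ S, (X - C ρ) := ⟨_, rfl⟩
  rw [← hδ] at hAS ⊢
  -- `x` is transcendental
  have hx0 : ∀ ρ : k, x - algebraMap k K ρ ≠ 0 := fun ρ h0 => by
    refine h.tr ⟨X - C ρ, X_sub_C_ne_zero ρ, ?_⟩
    rw [map_sub, aeval_X, aeval_C, h0]
  have hx00 : x ≠ 0 := fun h0 => hx0 0 (by rw [map_zero, sub_zero, h0])
  have hδ0 : aeval x δ = ∏ ρ ∈ S, (x - algebraMap k K ρ) := by
    rw [hδ, map_prod]
    refine Finset.prod_congr rfl fun ρ _ => ?_
    rw [map_sub, aeval_X, aeval_C]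
  have hxO : x ∈ Od x δ := Algebra.subset_adjoin (Or.inl rfl)
  have hδO : (aeval x δ)⁻¹ ∈ Od x δ := Algebra.subset_adjoin (Or.inr rfl)
  have hinv : ∀ ρ ∈ S, (x - algebraMap k K ρ)⁻¹ ∈ Od x δ := fun ρ hρ => by
    have e : (x - algebraMap k K ρ)⁻¹ =
        (∏ ρ' ∈ S.erase ρ, (x - algebraMap k K ρ')) * (aeval x δ)⁻¹ := by
      rw [hδ0, ← Finset.mul_prod_erase S _ hρ, mul_inv, mul_comm, mul_assoc, inv_mul_cancel₀, mul_one]
      exact Finset.prod_ne_zero_iff.2 fun ρ' _ => hx0 ρ'
    rw [e]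
    refine Subalgebra.mul_mem _ (Subalgebra.prod_mem _ fun ρ' _ => ?_) hδO
    exact Subalgebra.sub_mem _ hxO (Subalgebra.algebraMap_mem _ _)
  have hDO : ∀ f ∈ Od x δ, D f ∈ Od x δ := fun f hf =>
    Od_deriv (Dk := 0) (fun c => by rw [h.const, Derivation.zero_apply, map_zero])
      (by rw [h.dx]; exact Subalgebra.one_mem _) hf
  have hnO : ∀ g : ι → K, (∀ i, g i ∈ Od x δ) → ∀ i, nab D A g i ∈ Od x δ := fun g hg j =>
    Subalgebra.add_mem _ (hDO _ (hg j)) (Subalgebra.sum_mem _ fun i _ =>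
      Subalgebra.mul_mem _ (hg i) (hAS i j))
  -- the places
  obtain ⟨P, hP⟩ : ∃ P : Finset (Option k), P = Finset.insertNone S := ⟨_, rfl⟩
  have hpl : ∀ p : Option k, ∃ φ : K →+* LaurentSeries k, Plc (rsplitY x p • D) φ ∧
      φ (rsplitZ x p) = HahnSeries.single (-1) 1 ∧
      (∀ ρ, p = some ρ → φ x = HahnSeries.C ρ + HahnSeries.single 1 1) := by
    intro p
    cases p with
    | none =>
      obtain ⟨φ, h1, h2⟩ := plc_inf h
      exact ⟨φ, h1, h2, fun ρ hρ => by simp at hρ⟩
    | some ρ =>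
      obtain ⟨φ, h1, h2⟩ := plc_fin h ρ
      refine ⟨φ, h1, ?_, fun ρ' hρ => ?_⟩
      · change φ (x - algebraMap k K ρ)⁻¹ = _
        rw [map_inv₀, map_sub, h2, h1.const, add_sub_cancel_left, HahnSeries.inv_single, inv_one]
      · rw [h2]
        simp at hρ
        rw [hρ]
  choose φ hφ hφz hφx using hpl
  have hy : ∀ p, rsplitY x p ≠ 0 := fun p => by
    cases p with
    | none => exact neg_ne_zero.2 hx00
    | some ρ => exact hx0 ρ
  have hζ : ∀ p ∈ P, rsplitZ x p ∈ Od x δ := fun p hp => by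
    cases p with
    | none => exact hxO
    | some ρ => exact hinv ρ (by rwa [hP, Finset.some_mem_insertNone] at hp)
  have hreg : ∀ p ∈ P, ∀ p' ∈ P, p ≠ p' → pgV 0 (φ p' (rsplitZ x p)) := by
    intro p _ p' _ hne
    cases p with
    | none =>
      cases p' with
      | none => exact absurd rfl hne
      | some ρ' =>
        change pgV 0 (φ (some ρ') x)
        rw [hφx _ ρ' rfl, HahnSeries.C_apply]
        exact pgV_add (pgV_single le_rfl _) (pgV_single (by norm_num) _)
    | some ρ =>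
      change pgV 0 (φ p' (x - algebraMap k K ρ)⁻¹)
      rw [map_inv₀, map_sub, (hφ p').const]
      cases p' with
      | none =>
        have h2 := hφz none
        change φ none x = _ at h2
        refine rsplit_inv_reg (a := -1) (by norm_num) ?_
        rw [h2, HahnSeries.coeff_sub, HahnSeries.C_apply, HahnSeries.coeff_single_same,
          HahnSeries.coeff_single_of_ne (by norm_num), sub_zero]
        exact one_ne_zero
      | some ρ' =>
        refine rsplit_inv_reg (a := 0) le_rfl ?_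
        rw [hφx _ ρ' rfl, HahnSeries.coeff_sub, HahnSeries.coeff_add, HahnSeries.C_apply,
          HahnSeries.C_apply, HahnSeries.coeff_single_same, HahnSeries.coeff_single_same,
          HahnSeries.coeff_single_of_ne (by norm_num), add_zero]
        exact fun h0 => hne (by rw [sub_eq_zero.1 h0])
  have hRS : ∀ p ∈ P, RSplitStep D A (φ p) (rsplitZ x p) := by
    intro p _
    have hst := ratx_tame h
    cases p with
    | none =>
      have h1 := rstep hA hst h.const (y := -x) (z := x⁻¹) (e := 1) (Or.inl rfl)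
        (by rw [map_neg, h.dx]; norm_num) (φ := φ none) (hφ none) (by
          have h2 := hφz none
          change φ none x = _ at h2
          rw [map_inv₀, h2, HahnSeries.inv_single, inv_one, neg_neg])
      rw [inv_inv] at h1
      exact h1
    | some ρ =>
      have h1 := rstep hA hst h.const (y := x - algebraMap k K ρ) (z := x - algebraMap k K ρ)
        (e := -1) (Or.inr rfl) (by rw [map_sub, h.dx, h.const]; norm_num) (φ := φ (some ρ))
        (hφ (some ρ)) (by
          rw [map_sub, hφx _ ρ rfl, (hφ _).const, add_sub_cancel_left])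
      exact h1
  obtain ⟨n₁, hch⟩ := rsplit_chain h P φ (rsplitZ x) (rsplitY x) hφ hy hζ hreg hRS P
    (Finset.Subset.refl P)
  -- the basis
  obtain ⟨β, hβ⟩ : ∃ β : Option k → ℕ → K, β = fun p n => match p with
    | none => x ^ n
    | some ρ => if n = 0 then 0 else ((x - algebraMap k K ρ)⁻¹) ^ n := ⟨_, rfl⟩
  have hβO : ∀ p ∈ P, ∀ n, β p n ∈ Od x δ := fun p hp n => by
    rw [hβ]
    cases p with
    | none => exact Subalgebra.pow_mem _ hxO _
    | some ρ =>
      change (if n = 0 then 0 else ((x - algebraMap k K ρ)⁻¹) ^ n) ∈ _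
      split_ifs
      · exact Subalgebra.zero_mem _
      · exact Subalgebra.pow_mem _ (hinv ρ (by rwa [hP, Finset.some_mem_insertNone] at hp)) _
  have hpf : ∀ f ∈ Od x δ, (∀ p ∈ P, pgV (-(n₁ : ℤ)) (φ p f)) → f = ∑ p ∈ P,
      ∑ n ∈ Finset.range (n₁ + 1), algebraMap k K ((φ p f).coeff (-(n : ℤ))) * β p n := by
    intro f hf hpole
    have h1 := pf h S (φ := fun ρ => φ (some ρ)) (fun ρ _ => (hφ _).const)
      (fun ρ _ => hφx _ ρ rfl) (φi := φ none) (hφ none).const (hφz none) (by rwa [← hδ])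
      (N := n₁) (fun ρ hρ => hpole _ (by rwa [hP, Finset.some_mem_insertNone]))
      (hpole _ (by rw [hP]; exact Finset.none_mem_insertNone))
    rw [hP, Finset.sum_insertNone, add_comm]
    refine h1.trans ?_
    congr 1
    · refine Finset.sum_congr rfl fun ρ _ => ?_
      have hβs : ∀ n, β (some ρ) n = if n = 0 then 0 else ((x - algebraMap k K ρ)⁻¹) ^ n :=
        fun n => by rw [hβ]
      refine Finset.sum_subset_zero_on_sdiff (fun n hn => ?_) (fun n hn => ?_) fun n hn => ?_
      · rw [Finset.mem_Icc] at hn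
        rw [Finset.mem_range]
        omega
      · rw [Finset.mem_sdiff, Finset.mem_Icc, Finset.mem_range] at hn
        rw [hβs, if_pos (by omega), mul_zero]
      · rw [Finset.mem_Icc] at hn
        rw [hβs, if_neg (by omega)]
    · refine Finset.sum_congr rfl fun n _ => ?_
      rw [hβ]
  obtain ⟨e⟩ : Nonempty (Fin (Fintype.card (ι × {p // p ∈ P} × Fin (n₁ + 1))) ≃
    (ι × {p // p ∈ P} × Fin (n₁ + 1))) := ⟨(Fintype.equivFin _).symm⟩
  refine ⟨_, fun b i => if i = (e b).1 then β (e b).2.1 (e b).2.2 else 0, fun b i => ?_,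
    fun T c hT => ?_⟩
  · simp only
    split_ifs
    · exact hβO _ (e b).2.1.2 _
    · exact Subalgebra.zero_mem _
  obtain ⟨T', c', H, hT', hch⟩ := hch T c hT
  have hgr := fun p => grow (hφ p).pg hT'
  choose T₂ E s hT₂ hE hs hLG using hgr
  refine ⟨⋃ p ∈ P, T₂ p, ∑ p ∈ P, 2 * E p * s p * c', H, ?_, fun N => ?_⟩
  · exact Set.Finite.biUnion P.finite_toSet fun p _ => hT₂ p
  obtain ⟨q, q0, qH, hch⟩ := hch N
  refine ⟨q, q0, qH, fun v hvO hv => ?_⟩
  obtain ⟨g, gO, gb, gp⟩ := hch v hv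
  obtain ⟨v', hv'⟩ : ∃ v' : ι → K, v' = v + nab D A g := ⟨_, rfl⟩
  rw [← hv'] at gb gp
  have hv'O : ∀ i, v' i ∈ Od x δ := fun i => by
    rw [hv']
    exact Subalgebra.add_mem _ (hvO i) (hnO g gO i)
  refine ⟨fun b => (φ (e b).2.1 (v' (e b).1)).coeff (-(((e b).2.2 : ℕ) : ℤ)), fun i => -g i,
    fun i => Subalgebra.neg_mem _ (gO i), ?_, fun b => ?_⟩
  · have h1 : nab D A (fun i => -g i) = -nab D A g := by
      have h2 := rsplit_nab_add D A (fun i => -g i) g
      have h3 : (fun i => -g i) + g = 0 := by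
        funext i
        simp
      have h4 : nab D A (0 : ι → K) = 0 := by
        funext i
        simp [nab]
      rw [h3, h4] at h2
      exact eq_neg_of_add_eq_zero_left h2.symm
    have h2 : v = v' + -nab D A g := by
      rw [hv', add_assoc, add_neg_cancel, add_zero]
    rw [h1, h2]
    congr 1
    funext i
    rw [Finset.sum_apply]
    have h5 := e.sum_comp (fun j : ι × {p // p ∈ P} × Fin (n₁ + 1) =>
      (φ j.2.1 (v' j.1)).coeff (-((j.2.2 : ℕ) : ℤ)) • (if i = j.1 then β j.2.1 j.2.2 else 0))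
    refine (hpf (v' i) (hv'O i) fun p hp => gp p hp i).trans (Eq.trans ?_ h5.symm)
    rw [Fintype.sum_prod_type, Finset.sum_eq_single i, Fintype.sum_prod_type,
      ← Finset.sum_coe_sort P]
    · refine Finset.sum_congr rfl fun p _ => ?_
      rw [← Fin.sum_univ_eq_sum_range (fun n => algebraMap k K
        ((φ p (v' i)).coeff (-(n : ℤ))) * β p n) (n₁ + 1)]
      refine Finset.sum_congr rfl fun n _ => ?_
      rw [if_pos rfl, Algebra.smul_def]
    · intro i' _ hi'
      refine Finset.sum_eq_zero fun j _ => ?_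
      rw [if_neg (Ne.symm hi'), smul_zero]
    · intro h6
      exact absurd (Finset.mem_univ i) h6
  · have h1 := hLG (e b).2.1 (c' * (N + 1)) _ (gb (e b).1)
    have h2 := (h1 (-(((e b).2.2 : ℕ) : ℤ))).2
    have h3 : (φ (e b).2.1 ((q : K) * v' (e b).1)).coeff (-(((e b).2.2 : ℕ) : ℤ)) =
        (q : k) * (φ (e b).2.1 (v' (e b).1)).coeff (-(((e b).2.2 : ℕ) : ℤ)) := by
      have h4 : (q : K) = algebraMap k K (q : k) := (map_natCast _ _).symm
      rw [map_mul, h4, (hφ _).const, HahnSeries.C_mul_eq_smul, HahnSeries.coeff_smul,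
        smul_eq_mul]
    rw [h3] at h2
    have hbP : ((e b).2.1 : Option k) ∈ P := (e b).2.1.2
    refine G_mono (Set.subset_biUnion_of_mem (u := fun p => T₂ p) hbP) ?_ h2
    have h5 : 2 * E (e b).2.1 * s (e b).2.1 * c' ≤ ∑ p ∈ P, 2 * E p * s p * c' :=
      Finset.single_le_sum (f := fun p => 2 * E p * s p * c') (fun _ _ => Nat.zero_le _) hbP
    refine le_trans ?_ (Nat.mul_le_mul_right (N + 1) h5)
    have h6 : ((2 * E (e b).2.1 * s (e b).2.1 * c' * (N + 1) : ℕ) : ℤ) =
        (E (e b).2.1 : ℤ) * (2 * ((c' * (N + 1) * s (e b).2.1 : ℕ) : ℤ)) := by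
      push_cast
      ring
    rw [Int.toNat_le, h6]
    exact mul_le_mul_of_nonneg_left (by omega) (Int.natCast_nonneg _)

end Pool.Agent.Helper79.GA
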