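import Pool.Agent.Helper79.GA.Frac
import Pool.Agent.Helper79.GA.RSplit
import Pool.Agent.Helper79.GA.Fun

/-!
# GA-18: reduction of forms, general case

Take `k' ⊂ K'`, `L₀`, `L`, `S` from `exists_split`, `x' = algebraMap K K' x`, `A' = A.map (algebraMap K K')`.
* `A'` is tame: `iter D' A' m = (iter D A m).map (algebraMap K K')` (induction), `GmS.map`. The entries of `A'` are in `Od x' (∏ (X - C ρ))` (`mem_Od` over `k` for `A`, the last statement of `exists_split`). So `red_split` gives
  `B' : Fin s' → ι → K'`.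
* `β_l`, `l : Fin t`, a basis of `k'` over `k`, `β*_l : k' →ₗ[k] k` the coordinates. `B_{(b, l)} = L (β_l B'_b)` (entrywise), indexed by `Fin (s' * t)` (`finProdFinEquiv`). It is in `Od x δ`: an element of `Od x' (…)` is
  `p(x') δ(x')^(-m)` with `p ∈ k'[X]`, and `L (β p(x') δ(x)^(-m)) = δ(x)^(-m) ∑_j L₀(β p_j) x^j` (`L` is `K`-linear, `L (algebraMap k' K' c * algebraMap K K' f) = f * L(c)`), `mem_Od`.
* Given `T`, `c`: apply the statement over `K'` to `T'' = algebraMap K K' '' T` (`G_map`). For `v` in `Od x δ`: `v' = algebraMap ∘ v = ∑_b a'_b • B'_b + nab D' A' g'`. Apply `L`: `L (v'_i) = v_i` (`L 1 = 1`, linearity),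
  `L ∘ (nab D' A' g') = nab D A (L ∘ g')` (`L D' = D L`; `L (g'_i * algebraMap K K' a) = L (g'_i) * a`), `L ∘ g'` is in `Od x δ` as above, and
  `L (a'_b B'_b) = ∑_l β*_l(a'_b) L (β_l B'_b)` (`a'_b = ∑ β*_l(a'_b) β_l`, `IsScalarTower`s). `q β*_l(a'_b) = β*_l (q a'_b) ∈ (G T').I (c'' (c' (N+1) + 1))` by `fun_gen`
  (finitely many `l`: take the union of the sets, the maximum of the constants).
-/

open Polynomial

namespace Pool.Agent.Helper79.GA

open Pool.Agent.Helper79.CU Pool.Agent.Helper79.SE

private theorem RDesc_iter {K K' ι : Type} [Field K] [CharZero K] [Field K'] [CharZero K']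
    [Algebra K K'] [Fintype ι] [DecidableEq ι] {D : Derivation ℚ K K} {D' : Derivation ℚ K' K'}
    (hD : ∀ f, D' (algebraMap K K' f) = algebraMap K K' (D f)) (A : Matrix ι ι K) (m : ℕ) :
    ∀ i j, iter D' (A.map (algebraMap K K')) m i j = algebraMap K K' (iter D A m i j) := by
  induction m with
  | zero =>
    intro i j
    simp only [iter, Matrix.one_apply]
    split_ifs
    · rw [map_one]
    · rw [map_zero]
  | succ m ih =>
    intro i j
    simp only [iter, Matrix.of_apply, ih, Matrix.map_apply]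
    rw [map_mul, map_add, map_sum, hD, map_inv₀, map_natCast]
    congr 2
    refine Finset.sum_congr rfl fun l _ => ?_
    rw [map_mul]

theorem red_gen {k K ι : Type} [Field k] [CharZero k] [Field K] [CharZero K] [Algebra k K]
    [Fintype ι] [DecidableEq ι] {x : K} {D : Derivation ℚ K K} (h : RatX k x D) {δ : k[X]}
    (hδ : δ ≠ 0) {A : Matrix ι ι K} (hA : TameM D A) (hAδ : ∀ i j, A i j ∈ Od x δ) :
    RedProp k x D δ A := by
  classical
  obtain ⟨k', K', _, _, _, _, _, _, _, _, _, _, D', S, L₀, L, hfd, hR, hDD, hL1, hLc, hLD, hOd⟩ :=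
    exists_split h hδ
  have := hfd
  set x' : K' := algebraMap K K' x with hx'
  set A' : Matrix ι ι K' := A.map (algebraMap K K') with hA'
  have hkk : ∀ c : k, algebraMap k' K' (algebraMap k k' c) = algebraMap K K' (algebraMap k K c) := by
    intro c
    rw [← IsScalarTower.algebraMap_apply k k' K', IsScalarTower.algebraMap_apply k K K']
  -- going up
  have hae : ∀ p : k[X], algebraMap K K' (aeval x p) = aeval x' (p.map (algebraMap k k')) := by
    intro p
    rw [aeval_map_algebraMap, hx', aeval_algebraMap_apply]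
  have hup : ∀ f : K, f ∈ Od x δ →
      algebraMap K K' f ∈ Od (k := k') x' (∏ ρ ∈ S, (X - C ρ)) := by
    intro f hf
    obtain ⟨m, p, rfl⟩ := mem_Od.1 hf
    refine (hOd _).2 ⟨m, p.map (algebraMap k k'), ?_⟩
    rw [map_mul, map_pow, map_inv₀, hae]
  -- going down
  have hLmul : ∀ (f : K) (y : K'), L (algebraMap K K' f * y) = f * L y := by
    intro f y
    rw [← Algebra.smul_def, map_smul, smul_eq_mul]
  have hLmul' : ∀ (f : K) (y : K'), L (y * algebraMap K K' f) = L y * f := by
    intro f y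
    rw [mul_comm, hLmul, mul_comm]
  have hLf : ∀ f : K, L (algebraMap K K' f) = f := by
    intro f
    have := hLmul f 1
    rwa [mul_one, hL1, mul_one] at this
  have hdown : ∀ f : K', f ∈ Od (k := k') x' (∏ ρ ∈ S, (X - C ρ)) → L f ∈ Od x δ := by
    intro f hf
    obtain ⟨m, p, rfl⟩ := (hOd f).1 hf
    have e1 : L (aeval x' p) = aeval x (∑ j ∈ p.support, C (L₀ (p.coeff j)) * X ^ j) := by
      rw [map_sum, aeval_eq_sum_range, ← Finset.sum_subset (s₁ := p.support), map_sum]
      · refine Finset.sum_congr rfl fun j _ => ?_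
        rw [Algebra.smul_def, hx', ← map_pow, hLmul', hLc, map_mul, aeval_C, map_pow, aeval_X]
      · intro j hj
        rw [Finset.mem_range]
        exact Nat.lt_succ_of_le (le_natDegree_of_mem_supp j hj)
      · intro j _ hj
        rw [notMem_support_iff.1 hj, zero_smul]
    have e2 : L (aeval x' p * ((algebraMap K K' (aeval x δ))⁻¹) ^ m) =
        L (aeval x' p) * ((aeval x δ)⁻¹) ^ m := by
      rw [← map_inv₀, ← map_pow, hLmul']
    rw [e2, e1]
    exact mem_Od.2 ⟨m, _, rfl⟩
  have hsm : ∀ (c : k') (f : K'), f ∈ Od (k := k') x' (∏ ρ ∈ S, (X - C ρ)) →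
      algebraMap k' K' c * f ∈ Od (k := k') x' (∏ ρ ∈ S, (X - C ρ)) := fun c f hf =>
    Subalgebra.mul_mem _ (Subalgebra.algebraMap_mem _ c) hf
  have hTame : TameM D' A' := by
    have h1 : GmS fun (m : ℕ) (p : ι × ι) => algebraMap K K' (iter D A m p.1 p.2) :=
      GmS.map (algebraMap K K') hA
    have h2 : (fun (m : ℕ) (p : ι × ι) => iter D' A' m p.1 p.2) =
        fun (m : ℕ) (p : ι × ι) => algebraMap K K' (iter D A m p.1 p.2) := by
      funext m p
      exact RDesc_iter hDD A m p.1 p.2
    unfold TameM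
    rw [h2]
    exact h1
  have hAS : ∀ i j, A' i j ∈ Od (k := k') x' (∏ ρ ∈ S, (X - C ρ)) := fun i j => hup _ (hAδ i j)
  obtain ⟨s', B', hB', hred⟩ := red_split hR hTame S hAS
  set β := Module.finBasis k k' with hβ
  set t := Module.finrank k k' with ht
  refine ⟨s' * t, fun n i => L (algebraMap k' K' (β (finProdFinEquiv.symm n).2) *
    B' (finProdFinEquiv.symm n).1 i), fun n i => hdown _ (hsm _ _ (hB' _ _)), ?_⟩
  intro T c hT
  obtain ⟨T₁, c₁, H, hT₁, h1⟩ := hred (algebraMap K K' '' T) c (hT.image _)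
  choose T₂ c₂ hT₂ h2 using fun l : Fin t => fun_gen (β.coord l) hT₁
  refine ⟨⋃ l, T₂ l, (∑ l, c₂ l) * (c₁ + 1), H, Set.finite_iUnion hT₂, fun N => ?_⟩
  obtain ⟨q, q0, q1, h3⟩ := h1 N
  refine ⟨q, q0, q1, fun v hv hvT => ?_⟩
  obtain ⟨a', g', hg', hvv, ha'⟩ := h3 (fun i => algebraMap K K' (v i)) (fun i => hup _ (hv i))
    fun i => G_map _ (hvT i)
  refine ⟨fun n => β.coord (finProdFinEquiv.symm n).2 (a' (finProdFinEquiv.symm n).1),
    fun i => L (g' i), fun i => hdown _ (hg' i), ?_, ?_⟩
  · funext i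
    have e1 : v i = L (algebraMap K K' (v i)) := (hLf _).symm
    have e2 : algebraMap K K' (v i) = (∑ b, algebraMap k' K' (a' b) * B' b i) +
        (D' (g' i) + ∑ j, g' j * A' j i) := by
      have := congrFun hvv i
      simp only [Pi.add_apply, Finset.sum_apply, Pi.smul_apply, nab, Algebra.smul_def] at this
      exact this
    rw [e1, e2, map_add, map_add, map_sum, map_sum, hLD, Pi.add_apply]
    congr 1
    · rw [Finset.sum_apply, ← finProdFinEquiv.sum_comp, Fintype.sum_prod_type]
      refine Finset.sum_congr rfl fun b _ => ?_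
      simp only [Equiv.symm_apply_apply, Pi.smul_apply]
      have e3 : algebraMap k' K' (a' b) * B' b i =
          ∑ l, algebraMap K K' (algebraMap k K (β.coord l (a' b))) *
            (algebraMap k' K' (β l) * B' b i) := by
        conv_lhs => rw [← β.sum_repr (a' b)]
        rw [map_sum, Finset.sum_mul]
        refine Finset.sum_congr rfl fun l _ => ?_
        rw [Algebra.smul_def, map_mul, hkk, mul_assoc]
        rfl
      rw [e3, map_sum]
      refine Finset.sum_congr rfl fun l _ => ?_
      rw [hLmul, Algebra.smul_def]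
    · simp only [nab]
      congr 1
      refine Finset.sum_congr rfl fun j _ => ?_
      rw [hA', Matrix.map_apply, hLmul']
  · intro n
    have e4 : (q : k) * β.coord (finProdFinEquiv.symm n).2 (a' (finProdFinEquiv.symm n).1) =
        β.coord (finProdFinEquiv.symm n).2 ((q : k') * a' (finProdFinEquiv.symm n).1) := by
      have e5 : (q : k') * a' (finProdFinEquiv.symm n).1 =
          (q : k) • a' (finProdFinEquiv.symm n).1 := by
        rw [Algebra.smul_def, map_natCast]
      rw [e5, map_smul, smul_eq_mul]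
    have h4 := h2 (finProdFinEquiv.symm n).2 _ _ (ha' (finProdFinEquiv.symm n).1)
    rw [← e4] at h4
    refine G_mono (Set.subset_iUnion T₂ _) ?_ h4
    have h5 : c₂ (finProdFinEquiv.symm n).2 ≤ ∑ l, c₂ l :=
      Finset.single_le_sum (f := c₂) (fun _ _ => Nat.zero_le _) (Finset.mem_univ _)
    calc c₂ (finProdFinEquiv.symm n).2 * (c₁ * (N + 1) + 1)
        ≤ (∑ l, c₂ l) * ((c₁ + 1) * (N + 1)) := by
          refine Nat.mul_le_mul h5 ?_
          rw [add_mul]
          omega
      _ = (∑ l, c₂ l) * (c₁ + 1) * (N + 1) := by rw [mul_assoc]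

end Pool.Agent.Helper79.GA
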