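import Pool.Agent.Helper79.GA.LT
import Pool.Agent.Helper79.GA.Exp

/-!
# GA-15: reduction of the poles at one place

Let `χ`, `m` be as in `loc_thm` (`Θ v = y • nab D A v` is `k`-linear because of `hk`: construct `Θ : Module.End k (ι → K)`), `n₀, T₀, c₀, H₀` as in `exp_poly` for `χ`, `e`.
Given `T`, `c`: by `grow` (`hφ.pg`) `v_i ∈ (G T).I (c (N+1))` implies that `φ(v_i)` has a pole of order `≤ c s (N+1) =: M`. Apply `exp_poly` with `N' = M + m + n₀` (a bound `≤ C (N+1)`):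
`∏_{n₀<n≤N'} χ(X + n) = u P`, `P = ∑ p_j bp_j = 1 + (X - e) Q`, `Q = ∑ p'_j bp_j` (`j ≤ J = c₀ (N'+1)`). Put `w = y Q(Θ) v` (`y •`). Then
`∇ w = D(y) Q(Θ) v + y ∇ Q(Θ) v = (Θ - e) Q(Θ) v = P(Θ) v - v`, and `P(Θ) v = u⁻¹ ∏ χ(Θ + n) v` has poles of order `≤ n₀ + m` at `φ` (`loc_thm` with `N := M + n₀`).
Let `w'_{i,n} = (φ(w_i))_{-(n+1)}`, `0 ≤ n < c' (N+1)`, where `c' (N+1)` is larger than the order of the pole of `w`; since `φ(z⁻¹)^(n+1) = single (-(n+1)) 1`, the vector `w - (polar part)` is regular at `φ`, and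
`∇` of a vector `r` regular at `φ` has poles of bounded order: `y ∇ r = (y • D) r + y r A`, `(y • D) r` is regular by `hφ.der`, so `φ(∇ r)` has poles bounded by those of `φ(y⁻¹)` and `φ(A_ij)`.
This gives `n₁` (independent of `T`, `c`, `N`).
Bounds: by `calc_bound` (with `N := ` a multiple of `N + 1` larger than `J` and `c`, constant `T`) and the bounds for `p'_j` (`T₀ ⊂ k`, mapped to `K` by `G_map`)
`q w_i ∈ (G T₁).I (c₁ (N+1))`, `T₁ ⊂ K` finite, and by `grow` (`LG`) the coefficients of negative index of `φ(q w_i)` belong to `(G T').I (c' (N+1))`, `T' ⊂ k` finite. (`D` maps constants of `k` to `0`.)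
-/

open Polynomial

namespace Pool.Agent.Helper79.GA

open Pool.Agent.Helper79.CU Pool.Agent.Helper79.SE

theorem rs_le {N c s n m c₀ : ℕ} : c₀ * (c * s * (N + 1) + n + m + 1) ≤
    c₀ * (c * s + n + m + 1) * (N + 1) := by
  have h : c * s * (N + 1) + n + m + 1 ≤ (c * s + n + m + 1) * (N + 1) := by
    nlinarith [Nat.zero_le (n * N), Nat.zero_le (m * N), Nat.zero_le N]
  exact (Nat.mul_le_mul_left _ h).trans (mul_assoc _ _ _).ge

theorem rstep {k K ι : Type} [Field k] [CharZero k] [Field K] [CharZero K] [Algebra k K]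
    [Fintype ι] [DecidableEq ι] {D : Derivation ℚ K K} {A : Matrix ι ι K} (hA : TameM D A)
    (hst : ∀ f : K, PG (tL D f)) (hk : ∀ c : k, D (algebraMap k K c) = 0) {y z : K} {e : ℤ}
    (he : e = 1 ∨ e = -1) (hy : D y = -(e : K)) {φ : K →+* LaurentSeries k}
    (hφ : Plc (y • D) φ) (hz : φ z = HahnSeries.single 1 1) :
    ∃ n₁ : ℕ, ∀ (T : Set K) (c : ℕ), T.Finite → ∃ (T' : Set k) (c' H : ℕ), T'.Finite ∧
      ∀ N : ℕ, ∃ q : ℕ, 0 < q ∧ q ≤ H ^ (N + 1) ∧
        ∀ v : ι → K, (∀ i, v i ∈ (G T).I (c * (N + 1))) → ∃ w' : ι → ℕ → k,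
          (∀ i n, (q : k) * w' i n ∈ (G T').I (c' * (N + 1))) ∧
          ∀ i, pgV (-(n₁ : ℤ)) (φ ((v + nab D A (fun i => ∑ n ∈ Finset.range (c' * (N + 1)),
            algebraMap k K (w' i n) * (z⁻¹) ^ (n + 1))) i)) := by
  classical
  -- the operator
  obtain ⟨Θ, hΘ⟩ : ∃ Θ : Module.End k (ι → K), ∀ v, Θ v = y • nab D A v := by
    refine ⟨{ toFun := fun v => y • nab D A v, map_add' := fun v w => ?_,
              map_smul' := fun a v => ?_ }, fun v => rfl⟩
    · rw [lt_nab_add, smul_add]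
    · rw [← algebraMap_smul K a v, lt_nab_smul, hk, zero_smul, zero_add, smul_comm,
        algebraMap_smul, RingHom.id_apply]
  obtain ⟨χ, m, hχ, hroots, hloc⟩ := loc_thm hA hst he hy hφ hΘ
  obtain ⟨n₀, T₀, c₀, H₀, hT₀, hexp⟩ := exp_poly hχ hroots e
  have he0 : (e : K) ≠ 0 := by
    rcases he with he | he <;> simp [he]
  have hy0 : y ≠ 0 := by
    intro h0
    rw [h0, map_zero] at hy
    exact he0 (neg_eq_zero.1 hy.symm)
  -- poles of the matrix
  obtain ⟨p₀, hp₀⟩ := lt_pole φ (fun p : Option (ι × ι) => match p with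
    | none => y⁻¹
    | some p => A p.1 p.2)
  have hpy : pgV (-(p₀ : ℤ)) (φ y⁻¹) := hp₀ none
  have hpA : ∀ i j, pgV (-(p₀ : ℤ)) (φ (A i j)) := fun i j => hp₀ (some (i, j))
  have hreg : ∀ r : ι → K, (∀ i, pgV 0 (φ (r i))) → ∀ i, pgV (-(p₀ : ℤ)) (φ (nab D A r i)) := by
    intro r hr i
    have h1 : D (r i) = y⁻¹ * ((y • D) (r i)) := by
      rw [Derivation.smul_apply, smul_eq_mul, inv_mul_cancel_left₀ hy0]
    rw [nab, map_add, map_sum, h1, map_mul]
    refine pgV_add ?_ (pgV_sum fun j _ => ?_)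
    · have h2 : pgV 0 (φ ((y • D) (r i))) := fun n hn => by
        rw [hφ.der, hr i n hn, mul_zero]
      have := pgV_mul hpy h2
      rwa [add_zero] at this
    · rw [map_mul]
      have := pgV_mul (hr j) (hpA j i)
      rwa [zero_add] at this
  refine ⟨n₀ + m + p₀, fun T c hT => ?_⟩
  obtain ⟨T₁, E, s, hT₁, hE, hs, hgrow⟩ := grow hφ.pg hT
  obtain ⟨T₂, c₂, H₂, hT₂, hcalc⟩ := calc_bound hA hst he hy hΘ hT c
  set T₃ : Set K := {y} ∪ (algebraMap k K '' T₀) ∪ T₂ with hT₃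
  have hT₃f : T₃.Finite := ((Set.finite_singleton y).union (hT₀.image _)).union hT₂
  obtain ⟨T', E', s', hT', hE', hs', hgrow'⟩ := grow hφ.pg hT₃f
  set C₁ : ℕ := c₀ * (c * s + n₀ + m + 1) with hC₁
  set C₂ : ℕ := C₁ + 1 with hC₂
  set C₃ : ℕ := 1 + C₁ + c₂ * C₂ with hC₃
  refine ⟨T', C₃ * s' + 2 * E' * C₃ * s', (max H₀ 1) ^ (c * s + n₀ + m + 1) * (max H₂ 1) ^ C₂,
    hT', fun N => ?_⟩
  set M : ℕ := c * s * (N + 1) with hM
  set N' : ℕ := M + n₀ + m with hN'
  obtain ⟨q₁, u, pj, pj', hq₁0, hq₁, hu, -, hpj', hprod, hQ⟩ := hexp N' (by omega)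
  set J : ℕ := c₀ * (N' + 1) with hJ
  have hJle : J ≤ C₁ * (N + 1) := rs_le
  set N₂ : ℕ := J + N with hN₂
  have hN₂le : N₂ + 1 ≤ C₂ * (N + 1) := by
    rw [hC₂, add_mul, one_mul]
    omega
  obtain ⟨q₂, hq₂0, hq₂, hbp⟩ := hcalc N₂
  refine ⟨q₁ * q₂, Nat.mul_pos hq₁0 hq₂0, ?_, fun v hv => ?_⟩
  · rw [mul_pow, ← pow_mul, ← pow_mul]
    refine Nat.mul_le_mul ?_ ?_
    · refine hq₁.trans ((Nat.pow_le_pow_left (le_max_left _ _) _).trans
        (Nat.pow_le_pow_right (lt_of_lt_of_le one_pos (le_max_right _ _)) ?_))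
      have := rs_le (N := N) (c := c) (s := s) (n := n₀) (m := m) (c₀ := 1)
      rw [one_mul, one_mul] at this
      exact this
    · exact hq₂.trans ((Nat.pow_le_pow_left (le_max_left _ _) _).trans
        (Nat.pow_le_pow_right (lt_of_lt_of_le one_pos (le_max_right _ _)) hN₂le))
  -- the vector `w`
  have hqK : ((q₁ * q₂ : ℕ) : K) ≠ 0 := Nat.cast_ne_zero.2 (Nat.mul_pos hq₁0 hq₂0).ne'
  have hqk : ((q₁ * q₂ : ℕ) : k) ≠ 0 := Nat.cast_ne_zero.2 (Nat.mul_pos hq₁0 hq₂0).ne'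
  set Q : k[X] := ∑ j ∈ Finset.range (J + 1), C (pj' j) * bp k j with hQdef
  set P : k[X] := ∑ j ∈ Finset.range (J + 1), C (pj j) * bp k j with hPdef
  set Qv : ι → K := (aeval Θ Q : Module.End k (ι → K)) v with hQv
  set w : ι → K := y • Qv with hw
  have hnab : v + nab D A w = (aeval Θ P : Module.End k (ι → K)) v := by
    rw [hw, lt_nab_smul, hy, ← hΘ, hQ, map_add, map_one, map_mul, LinearMap.add_apply,
      Module.End.one_apply, Module.End.mul_apply, ← hQv, map_sub, aeval_X, aeval_C,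
      LinearMap.sub_apply, Module.algebraMap_end_apply]
    have h1 : ((e : k)) • Qv = (e : K) • Qv := by
      rw [← algebraMap_smul K (e : k) Qv, map_intCast]
    rw [h1, neg_smul]
    abel
  have hvp : ∀ i, pgV (-((M + n₀ : ℕ) : ℤ)) (φ (v i)) := by
    intro i n hn
    refine (hgrow _ _ (hv i) n).1 ?_
    have h1 : c * (N + 1) * s = M := by rw [hM]; ring
    rw [h1]
    push_cast at hn
    omega
  have hPv : ∀ i, pgV (-((n₀ + m + p₀ : ℕ) : ℤ))
      (φ ((aeval Θ P : Module.End k (ι → K)) v i)) := by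
    intro i
    have h1 := hloc n₀ (M + n₀) (by omega) v hvp i
    have h2 : P = C u⁻¹ * ∏ n ∈ Finset.Ioc n₀ (M + n₀ + m), χ.comp (X + C (n : k)) := by
      rw [hprod, ← mul_assoc, ← C_mul, inv_mul_cancel₀ hu, C_1, one_mul]
    rw [h2, map_mul, Module.End.mul_apply, aeval_C, Module.algebraMap_end_apply,
      ← algebraMap_smul K, Pi.smul_apply, smul_eq_mul, map_mul, hφ.const]
    have h3 : pgV 0 (HahnSeries.C u⁻¹ : LaurentSeries k) := pgV_single le_rfl _
    have h4 := pgV_mul h3 h1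
    rw [zero_add] at h4
    exact pgV_mono (by push_cast; omega) h4
  -- bounds for `w`
  have hwG : ∀ i, ((q₁ * q₂ : ℕ) : K) * w i ∈ (G T₃).I (C₃ * (N + 1)) := by
    intro i
    have h1 : ((q₁ * q₂ : ℕ) : K) * w i = ∑ j ∈ Finset.range (J + 1),
        y * (algebraMap k K ((q₁ : k) * pj' j) * ((q₂ : K) *
          ((aeval Θ (bp k j) : Module.End k (ι → K)) v) i)) := by
      rw [hw, Pi.smul_apply, hQv, hQdef, map_sum, LinearMap.sum_apply, Finset.sum_apply,
        smul_eq_mul, Finset.mul_sum, Finset.mul_sum]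
      refine Finset.sum_congr rfl fun j _ => ?_
      rw [map_mul, Module.End.mul_apply, aeval_C, Module.algebraMap_end_apply,
        ← algebraMap_smul K, Pi.smul_apply, smul_eq_mul, map_mul, map_natCast]
      push_cast
      ring
    rw [h1]
    refine AddSubgroup.sum_mem _ fun j hj => ?_
    have hj' := Finset.mem_range.1 hj
    have ha : y ∈ (G T₃).I 1 := G_mem (Or.inl (Or.inl rfl))
    have hb : algebraMap k K ((q₁ : k) * pj' j) ∈ (G T₃).I J :=
      G_mono (fun x hx => Or.inl (Or.inr hx)) le_rfl (G_map (algebraMap k K) (hpj' j))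
    have hc : (q₂ : K) * ((aeval Θ (bp k j) : Module.End k (ι → K)) v) i ∈
        (G T₃).I (c₂ * (N₂ + 1)) :=
      G_mono (fun x hx => Or.inr hx) le_rfl (hbp v (fun i => G_mono le_rfl
        (Nat.mul_le_mul_left _ (by omega)) (hv i)) j (by omega) i)
    refine (G T₃).mono ?_ ((G T₃).mul ha ((G T₃).mul hb hc))
    have h2 : c₂ * (N₂ + 1) ≤ c₂ * C₂ * (N + 1) := by
      rw [mul_assoc]
      exact Nat.mul_le_mul_left _ hN₂le
    have h3 : C₃ * (N + 1) = (N + 1) + C₁ * (N + 1) + c₂ * C₂ * (N + 1) := by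
      rw [hC₃]
      ring
    omega
  have hwL : ∀ i, LG (G T') E' (C₃ * (N + 1) * s') (φ (((q₁ * q₂ : ℕ) : K) * w i)) :=
    fun i => hgrow' _ _ (hwG i)
  have hcoef : ∀ i n, (φ (((q₁ * q₂ : ℕ) : K) * w i)).coeff n =
      ((q₁ * q₂ : ℕ) : k) * (φ (w i)).coeff n := by
    intro i n
    have h1 : φ (((q₁ * q₂ : ℕ) : K) * w i) = HahnSeries.C (((q₁ * q₂ : ℕ) : k)) * φ (w i) := by
      rw [map_mul, map_natCast, map_natCast]
    rw [h1, HahnSeries.C_mul_eq_smul, HahnSeries.coeff_smul, smul_eq_mul]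
  refine ⟨fun i n => (φ (w i)).coeff (-((n : ℤ) + 1)), fun i n => ?_, fun i => ?_⟩
  · rw [← hcoef]
    refine (G T').mono ?_ (hwL i _).2
    rw [Int.toNat_le]
    push_cast
    have h1 : (0 : ℤ) ≤ E' := Int.natCast_nonneg _
    have h2 : (E' : ℤ) * (-((n : ℤ) + 1) + 2 * ((C₃ : ℤ) * ((N : ℤ) + 1) * s')) ≤
        E' * (2 * ((C₃ : ℤ) * ((N : ℤ) + 1) * s')) :=
      mul_le_mul_of_nonneg_left (by omega) h1
    have h3 : (0 : ℤ) ≤ (C₃ : ℤ) * s' * (N + 1) := by positivity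
    nlinarith
  · set c' : ℕ := C₃ * s' + 2 * E' * C₃ * s' with hc'
    set wp : ι → K := fun i => ∑ n ∈ Finset.range (c' * (N + 1)),
      algebraMap k K ((φ (w i)).coeff (-((n : ℤ) + 1))) * (z⁻¹) ^ (n + 1) with hwp
    have hzn : ∀ n : ℕ, φ ((z⁻¹) ^ (n + 1)) = HahnSeries.single (-((n : ℤ) + 1)) 1 := by
      intro n
      have h1 : φ z⁻¹ = HahnSeries.single (-1) 1 := by
        rw [map_inv₀, hz]
        refine inv_eq_of_mul_eq_one_right ?_
        rw [HahnSeries.single_mul_single]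
        simp
      rw [map_pow, h1, HahnSeries.single_pow, one_pow]
      congr 1
      simp
    have hwpc : ∀ i (l : ℤ), (φ (wp i)).coeff l = if (-((c' * (N + 1) : ℕ) : ℤ) ≤ l ∧ l < 0) then
        (φ (w i)).coeff l else 0 := by
      intro i l
      rw [hwp]
      simp only [map_sum, map_mul, hφ.const, hzn, HahnSeries.C_mul_eq_smul]
      rw [HahnSeries.coeff_sum]
      simp only [HahnSeries.coeff_smul, smul_eq_mul]
      by_cases hl : -((c' * (N + 1) : ℕ) : ℤ) ≤ l ∧ l < 0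
      · rw [if_pos hl]
        obtain ⟨n, hn⟩ : ∃ n : ℕ, l = -((n : ℤ) + 1) := ⟨(-l - 1).toNat, by omega⟩
        rw [Finset.sum_eq_single n]
        · rw [← hn, HahnSeries.coeff_single_same, mul_one]
        · intro b _ hb
          rw [HahnSeries.coeff_single_of_ne, mul_zero]
          omega
        · intro hn'
          rw [Finset.mem_range] at hn'
          omega
      · rw [if_neg hl]
        refine Finset.sum_eq_zero fun n hn => ?_
        rw [Finset.mem_range] at hn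
        rw [HahnSeries.coeff_single_of_ne, mul_zero]
        omega
    have hr : ∀ i, pgV 0 (φ ((w - wp) i)) := by
      intro i l hl
      rw [Pi.sub_apply, map_sub, HahnSeries.coeff_sub, hwpc]
      by_cases hl' : -((c' * (N + 1) : ℕ) : ℤ) ≤ l
      · rw [if_pos ⟨hl', hl⟩, sub_self]
      · rw [if_neg (fun h => hl' h.1), sub_zero]
        have h1 := (hwL i l).1 (by
          have h2 : C₃ * (N + 1) * s' ≤ c' * (N + 1) := by
            calc C₃ * (N + 1) * s' = C₃ * s' * (N + 1) := by ring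
              _ ≤ c' * (N + 1) := Nat.mul_le_mul_right _ (by
                rw [hc']
                exact Nat.le_add_right _ _)
          have h3 : ((C₃ * (N + 1) * s' : ℕ) : ℤ) ≤ ((c' * (N + 1) : ℕ) : ℤ) := by
            exact_mod_cast h2
          omega)
        rw [hcoef] at h1
        exact (mul_eq_zero.1 h1).resolve_left hqk
    have hfin : v + nab D A wp = (aeval Θ P : Module.End k (ι → K)) v - nab D A (w - wp) := by
      have h1 : nab D A w = nab D A (w - wp) + nab D A wp := by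
        rw [← lt_nab_add, sub_add_cancel]
      rw [← hnab, h1]
      abel
    rw [hfin, Pi.sub_apply, map_sub, sub_eq_add_neg]
    exact pgV_add (hPv i) (pgV_neg (pgV_mono (by push_cast; omega) (hreg _ hr i)))

end Pool.Agent.Helper79.GA
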