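import Pool.Agent.Helper79.GA.TowDefs
import Pool.Agent.Helper79.GA.Lat
import Pool.Agent.Helper79.GA.Str

/-!
# GA-21: iterated direct images

Both theorems by induction on `i` (definition of `IsTower` in `TowDefs.lean`).

* `tower_PG`: `i = 0`: `K ≅ k₀`. Step: `K ⊃ k`, `RatX k x (D (Fin.last _))`: for `D (Fin.last _)` this is `ratx_tame`; for `D j.castSucc`: `ext_tame` with `Dk j`, `D j.castSucc x = 0` (`tL_const`, `PG_C`), and the
  induction hypothesis for `k`.
* `tower_tame`, `i = 0`: `algebraMap k₀ K` is bijective; `H = V`, `W = ⊤`, `π = id`, `m = n 0`. `V` is of finite dimension over `k₀`; `Conn` over `k₀`: `IsScalarTower`; `TameV k₀ (n 0)`: for `ψ : V →ₗ[k₀] k₀` the map `algebraMap k₀ K ∘ ψ` is `K`-linear, and geometric families over `K` give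
  geometric families over `k₀` (`GmS.map` for the inverse isomorphism `K ≅ k₀`).
* Step: `K ⊃ k`, `k` a tower of length `i` with the derivations `Dk j`, `RatX k x (D (Fin.last (i+1)))`. Let `V` be a `k`-vector space by `Module.compHom V (algebraMap k K)` (`IsScalarTower k K V`, `IsScalarTower k₀ k V`). `direct_image` with `J = Fin (i + 1)`,
  `DK j = D j.castSucc`, `n := n (Fin.last _)`, `nj j = n j.castSucc` gives `H₁`, `W₁`, `π₁`, `m₁ j`. Apply the induction hypothesis to `k`, `H₁` (a `k₀`-vector space by `Module.compHom`), `m₁`, and the finite set `π₁(Ω)`: `H`, `W₂`, `π₂`, `m`.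
  `W = {w ∈ W₁ | π₁ w ∈ W₂}` (a `k₀`-subspace of `V`), `π = π₂ ∘ π₁`. The indices: `0 = castSucc 0`; `j.succ` for `j : Fin (i + 1)` is `Fin.last` for `j` the last one, and `(l.succ).castSucc` for `j = l.castSucc`, `l : Fin i` (`Fin.succ_castSucc`).
  `π (n (last) w) = π₂ (π₁ (n _ w)) = π₂ 0 = 0` (`π₁ (n w) = 0` by the equivalence with `u = w`; `π₂ 0 = 0` from `π₂ (0 • 0)`). Kernel: `π w = 0`: `π₁ w = ∑_l m₁ l.succ (u_l)` with `u_l = π₁ (u'_l)`, `u'_l ∈ W₁` (surjectivity), so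
  `π₁ (w - ∑_l n _ u'_l) = 0` and `w = ∑_l n _ u'_l + n (last) u''` (`Fin.sum_univ_castSucc`).
-/

open Polynomial

namespace Pool.Agent.Helper79.GA

open Pool.Agent.Helper79.CU Pool.Agent.Helper79.SE

theorem Tow_zero {k V H : Type} [Field k] [AddCommGroup V] [Module k V] [AddCommGroup H]
    {W : Submodule k V} {π : V → H} (hadd : ∀ w ∈ W, ∀ w' ∈ W, π (w + w') = π w + π w') :
    π 0 = 0 := by
  have h := hadd 0 (zero_mem _) 0 (zero_mem _)
  rw [add_zero] at h
  exact left_eq_add.mp h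

theorem Tow_sum {ι k V H : Type} [Field k] [AddCommGroup V] [Module k V] [AddCommGroup H]
    {W : Submodule k V} {π : V → H} (hadd : ∀ w ∈ W, ∀ w' ∈ W, π (w + w') = π w + π w')
    (s : Finset ι) (f : ι → V) (hf : ∀ i, f i ∈ W) : π (∑ i ∈ s, f i) = ∑ i ∈ s, π (f i) := by
  classical
  induction s using Finset.induction_on with
  | empty => rw [Finset.sum_empty, Finset.sum_empty, Tow_zero hadd]
  | insert a s ha ih =>
    rw [Finset.sum_insert ha, Finset.sum_insert ha, hadd _ (hf a) _ (sum_mem fun i _ => hf i), ih]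

/-- The trivial extension. -/
theorem Tow_triv {k₀ K V : Type} [Field k₀] [CharZero k₀] [Field K] [CharZero K] [Algebra k₀ K]
    [AddCommGroup V] [Module K V] [Module k₀ V] [IsScalarTower k₀ K V]
    (hs : Function.Surjective (algebraMap k₀ K)) {n : V → V} (h : TameV K n) : TameV k₀ n := by
  intro v ψ
  let e : k₀ ≃+* K := RingEquiv.ofBijective (algebraMap k₀ K)
    ⟨FaithfulSMul.algebraMap_injective k₀ K, hs⟩
  let ψ' : V →ₗ[K] K :=
    { toFun := fun v => algebraMap k₀ K (ψ v)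
      map_add' := fun a b => by rw [map_add, map_add]
      map_smul' := fun c a => by
        obtain ⟨c, rfl⟩ := hs c
        rw [algebraMap_smul, map_smul, RingHom.id_apply, smul_eq_mul, smul_eq_mul, map_mul] }
  have h1 := (h v ψ').map (e.symm : K →+* k₀)
  have h2 : (fun (m : ℕ) (_ : Unit) => ψ (((m.factorial : k₀)⁻¹) • n^[m] v)) =
      fun (m : ℕ) (s : Unit) =>
        (e.symm : K →+* k₀) (ψ' (((m.factorial : K)⁻¹) • n^[m] v)) := by
    funext m s
    have h3 : ((m.factorial : K)⁻¹) • n^[m] v = ((m.factorial : k₀)⁻¹) • n^[m] v := by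
      rw [← algebraMap_smul K ((m.factorial : k₀)⁻¹), map_inv₀, map_natCast]
    rw [h3]
    exact (e.symm_apply_apply _).symm
  rw [h2]
  exact h1

theorem tower_PG {k₀ : Type} [Field k₀] [CharZero k₀] {D₀ : Derivation ℚ k₀ k₀}
    (h₀ : ∀ f : k₀, PG (tL D₀ f)) : ∀ (i : ℕ) (K : Type) [fK : Field K] [cK : CharZero K]
      [aK : Algebra k₀ K] (D : Fin (i + 1) → Derivation ℚ K K),
      IsTower D₀ i K fK cK aK D → ∀ j (f : K), PG (tL (D j) f) := by
  intro i
  induction i with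
  | zero =>
    intro K fK cK aK D hT j f
    obtain ⟨hs, hD⟩ := hT
    have hj : j = 0 := Fin.ext (by have := j.2; omega)
    subst hj
    refine ext_tame (k := k₀) (x := 0) (D := D 0) (Dk := D₀) (fun f => ?_) hD ?_ h₀ f
    · obtain ⟨c, rfl⟩ := hs f
      exact ⟨C c, 1, by simp, by simp⟩
    · rw [tL_const _ (map_zero _)]
      exact PG_C _
  | succ i ih =>
    intro K fK cK aK D hT j f
    obtain ⟨k, fk, ck, ak, akK, Dk, x, hst, ht, hr, hD⟩ := hT
    induction j using Fin.lastCases with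
    | last => exact ratx_tame hr f
    | cast j =>
      refine ext_tame hr.quo (hD j).1 ?_ (ih k Dk ht j) f
      rw [tL_const _ (hD j).2]
      exact PG_C _

theorem tower_tame {k₀ : Type} [Field k₀] [CharZero k₀] (D₀ : Derivation ℚ k₀ k₀) :
    ∀ (i : ℕ) (K : Type) [fK : Field K] [cK : CharZero K] [aK : Algebra k₀ K]
      (D : Fin (i + 1) → Derivation ℚ K K), IsTower D₀ i K fK cK aK D →
      ∀ (V : Type) [AddCommGroup V] [Module K V] [Module k₀ V] [IsScalarTower k₀ K V]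
        [FiniteDimensional K V] (n : Fin (i + 1) → V → V),
        (∀ j, Conn (fun f : K => D j f) (n j)) → (∀ j l v, n j (n l v) = n l (n j v)) →
        (∀ j, TameV K (n j)) → ∀ Ω : Set V, Ω.Finite →
        ∃ (H : Type) (_ : AddCommGroup H) (_ : Module k₀ H) (W : Submodule k₀ V) (π : V → H)
          (m : H → H), FiniteDimensional k₀ H ∧ (∀ w ∈ Ω, w ∈ W) ∧
          (∀ w ∈ W, ∀ w' ∈ W, π (w + w') = π w + π w') ∧
          (∀ (c : k₀), ∀ w ∈ W, π (c • w) = c • π w) ∧ (∀ j, ∀ w ∈ W, n j w ∈ W) ∧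
          (∀ w ∈ W, π (n 0 w) = m (π w)) ∧ (∀ j : Fin i, ∀ w ∈ W, π (n j.succ w) = 0) ∧
          (∀ w ∈ W, π w = 0 → ∃ u : Fin i → V, w = ∑ j, n j.succ (u j)) ∧
          Conn (fun c : k₀ => D₀ c) m ∧ TameV k₀ m := by
  intro i
  induction i with
  | zero =>
    intro K fK cK aK D hT V _ _ _ _ _ n hn _ htame Ω _
    obtain ⟨hs, hD⟩ := hT
    have hfin : Module.Finite k₀ K :=
      Module.Finite.of_surjective (Algebra.linearMap k₀ K) hs
    refine ⟨V, inferInstance, inferInstance, ⊤, id, n 0, Module.Finite.trans K V,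
      fun w _ => Submodule.mem_top, fun w _ w' _ => rfl, fun c w _ => rfl,
      fun j w _ => Submodule.mem_top, fun w _ => rfl, fun j => j.elim0, fun w _ hw => ⟨fun _ => 0, ?_⟩, ⟨(hn 0).add, fun c v => ?_⟩,
      Tow_triv hs (htame 0)⟩
    · rw [Finset.univ_eq_empty, Finset.sum_empty]
      exact hw
    · have h := (hn 0).leib (algebraMap k₀ K c) v
      simp only [hD] at h
      rwa [algebraMap_smul, algebraMap_smul, algebraMap_smul] at h
  | succ i ih =>
    intro K fK cK aK D hT V _ _ _ _ _ n hn hcomm htame Ω hΩ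
    obtain ⟨k, fk, ck, ak, akK, Dk, x, hst, ht, hr, hD⟩ := hT
    letI : Module k V := Module.compHom V (algebraMap k K)
    haveI : IsScalarTower k K V := IsScalarTower.of_algebraMap_smul fun r v => rfl
    haveI : IsScalarTower k₀ k V := IsScalarTower.of_algebraMap_smul fun r v => by
      change algebraMap k K (algebraMap k₀ k r) • v = r • v
      rw [← IsScalarTower.algebraMap_apply k₀ k K, algebraMap_smul]
    obtain ⟨H₁, _, _, W₁, π₁, m₁, fd₁, hΩ₁, hW, hWj, hadd, hsmul, hsurj, hker, hconn, hπj, hcom,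
      htm⟩ := direct_image hr (fun j c => (hD j).1 c) (fun j => (hD j).2)
        (n := n (Fin.last _)) (nj := fun j => n j.castSucc) (hn _) (fun j => hn _)
        (fun j v => hcomm _ _ v) (fun a b v => hcomm _ _ v) (htame _) (fun j => htame _) hΩ
    letI : Module k₀ H₁ := Module.compHom H₁ (algebraMap k₀ k)
    haveI : IsScalarTower k₀ k H₁ := IsScalarTower.of_algebraMap_smul fun r v => rfl
    obtain ⟨H, _, _, W₂, π₂, m, fdH, hΩ₂, hadd₂, hsmul₂, hW₂, h0, hj₂, hker₂, hconn₂, htm₂⟩ :=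
      ih k Dk ht H₁ m₁ hconn hcom htm (π₁ '' Ω) (hΩ.image _)
    have hz₁ : π₁ 0 = 0 := Tow_zero hadd
    have hz₂ : π₂ 0 = 0 := Tow_zero hadd₂
    have hs₁ : ∀ (c : k₀), ∀ w ∈ W₁, c • w ∈ W₁ ∧ π₁ (c • w) = c • π₁ w := by
      intro c w hw
      have h1 : c • w = algebraMap k₀ k c • w := (algebraMap_smul k c w).symm
      rw [h1]
      refine ⟨W₁.smul_mem _ hw, ?_⟩
      rw [hsmul _ w hw, algebraMap_smul]
    have hlast : ∀ w ∈ W₁, π₁ (n (Fin.last _) w) = 0 := fun w hw =>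
      (hker _ (hW w hw)).mpr ⟨w, hw, rfl⟩
    refine ⟨H, inferInstance, inferInstance,
      { carrier := {w | w ∈ W₁ ∧ π₁ w ∈ W₂}
        add_mem' := ?_
        zero_mem' := ?_
        smul_mem' := ?_ }, fun w => π₂ (π₁ w), m, fdH, ?_, ?_, ?_, ?_, ?_, ?_, ?_, hconn₂, htm₂⟩
    · rintro a b ⟨ha, ha'⟩ ⟨hb, hb'⟩
      exact ⟨W₁.add_mem ha hb, by rw [hadd a ha b hb]; exact W₂.add_mem ha' hb'⟩
    · exact ⟨W₁.zero_mem, by rw [hz₁]; exact W₂.zero_mem⟩
    · rintro c a ⟨ha, ha'⟩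
      exact ⟨(hs₁ c a ha).1, by rw [(hs₁ c a ha).2]; exact W₂.smul_mem c ha'⟩
    · intro w hw
      exact ⟨hΩ₁ w hw, hΩ₂ _ (Set.mem_image_of_mem _ hw)⟩
    · rintro w ⟨hw, hw'⟩ v ⟨hv, hv'⟩
      change π₂ (π₁ (w + v)) = _
      rw [hadd w hw v hv, hadd₂ _ hw' _ hv']
    · rintro c w ⟨hw, hw'⟩
      change π₂ (π₁ (c • w)) = _
      rw [(hs₁ c w hw).2, hsmul₂ c _ hw']
    · rintro j w ⟨hw, hw'⟩
      induction j using Fin.lastCases with
      | last => exact ⟨hW w hw, by rw [hlast w hw]; exact W₂.zero_mem⟩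
      | cast j => exact ⟨hWj j w hw, by rw [hπj j w hw]; exact hW₂ j _ hw'⟩
    · rintro w ⟨hw, hw'⟩
      change π₂ (π₁ (n 0 w)) = _
      have h1 := hπj 0 w hw
      rw [Fin.castSucc_zero] at h1
      rw [h1, h0 _ hw']
    · rintro j w ⟨hw, hw'⟩
      change π₂ (π₁ (n j.succ w)) = _
      induction j using Fin.lastCases with
      | last => rw [Fin.succ_last, hlast w hw, hz₂]
      | cast j =>
        rw [Fin.succ_castSucc, hπj _ w hw, hj₂ j _ hw']
    · rintro w ⟨hw, hw'⟩ hw0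
      obtain ⟨u, hu⟩ := hker₂ _ hw' hw0
      choose u' hu' hu'' using fun l => hsurj (u l)
      have hz : ∀ l, n (Fin.castSucc (Fin.succ l)) (u' l) ∈ W₁ := fun l => hWj _ _ (hu' l)
      have hzz : (∑ l, n (Fin.castSucc (Fin.succ l)) (u' l)) ∈ W₁ := sum_mem fun l _ => hz l
      have h1 : π₁ (∑ l, n (Fin.castSucc (Fin.succ l)) (u' l)) = π₁ w := by
        rw [Tow_sum hadd _ _ hz, hu]
        refine Finset.sum_congr rfl fun l _ => ?_
        rw [hπj _ _ (hu' l), hu'']
      have h2 : π₁ (w - ∑ l, n (Fin.castSucc (Fin.succ l)) (u' l)) = 0 := by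
        have h3 := hadd (w - ∑ l, n (Fin.castSucc (Fin.succ l)) (u' l)) (W₁.sub_mem hw hzz) _ hzz
        rw [sub_add_cancel, h1] at h3
        exact right_eq_add.mp h3
      obtain ⟨v, _, hv⟩ := (hker _ (W₁.sub_mem hw hzz)).mp h2
      refine ⟨Fin.snoc (α := fun _ => V) u' v, ?_⟩
      rw [Fin.sum_univ_castSucc]
      simp only [Fin.snoc_castSucc, Fin.snoc_last, Fin.succ_last, Fin.succ_castSucc]
      rw [hv]
      abel

end Pool.Agent.Helper79.GA
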