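import Pool.Agent.Helper79.GA.Defs

/-!
# GA: towers of rational function fields
-/

open Polynomial

namespace Pool.Agent.Helper79.GA

/-- `K = k₀(x_1)…(x_i)` with the derivations `D_0` (which extends `D₀`, zero on the `x_j`), `D_1`, …, `D_i`
(the partial derivatives, zero on `k₀`). -/
def IsTower {k₀ : Type} [Field k₀] [CharZero k₀] (D₀ : Derivation ℚ k₀ k₀) :
    (i : ℕ) → (K : Type) → (_ : Field K) → (_ : CharZero K) → (_ : Algebra k₀ K) →
      (Fin (i + 1) → Derivation ℚ K K) → Prop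
  | 0, K, _, _, _, D => Function.Surjective (algebraMap k₀ K) ∧
      ∀ c, D 0 (algebraMap k₀ K c) = algebraMap k₀ K (D₀ c)
  | i + 1, K, _, _, _, D => ∃ (k : Type) (fk : Field k) (ck : CharZero k) (ak : Algebra k₀ k)
      (_ : Algebra k K) (Dk : Fin (i + 1) → Derivation ℚ k k) (x : K),
      IsScalarTower k₀ k K ∧ IsTower D₀ i k fk ck ak Dk ∧ RatX k x (D (Fin.last _)) ∧
      ∀ j : Fin (i + 1), (∀ c, D j.castSucc (algebraMap k K c) = algebraMap k K (Dk j c)) ∧
        D j.castSucc x = 0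

end Pool.Agent.Helper79.GA
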